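import Mathlib

/-!
# Planar orientation calculus
-/

noncomputable section

namespace Run7.h395

/-- cross product of two plane vectors -/
def cr (a b : ℂ) : ℝ := a.re * b.im - a.im * b.re

/-- orientation of a triple of points -/
def ori (a b c : ℂ) : ℝ := cr (b - a) (c - a)

/-- the point with parameter `t` on the line through `a` and `b` -/
def pt (a b : ℂ) (t : ℝ) : ℂ := a + t • (b - a)

@[simp] lemma pt_re (a b : ℂ) (t : ℝ) : (pt a b t).re = a.re + t * (b.re - a.re) := by
  simp [pt]

@[simp] lemma pt_im (a b : ℂ) (t : ℝ) : (pt a b t).im = a.im + t * (b.im - a.im) := by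
  simp [pt]

@[simp] lemma pt_zero (a b : ℂ) : pt a b 0 = a := by simp [pt]

@[simp] lemma pt_one (a b : ℂ) : pt a b 1 = b := by simp [pt]

lemma mem_segment_iff {a b x : ℂ} :
    x ∈ segment ℝ a b ↔ ∃ t : ℝ, 0 ≤ t ∧ t ≤ 1 ∧ x = pt a b t := by
  rw [segment_eq_image']
  constructor
  · rintro ⟨t, ⟨h0, h1⟩, rfl⟩
    exact ⟨t, h0, h1, rfl⟩
  · rintro ⟨t, h0, h1, rfl⟩
    exact ⟨t, ⟨h0, h1⟩, rfl⟩

lemma mem_openSegment_iff {a b x : ℂ} :
    x ∈ openSegment ℝ a b ↔ ∃ t : ℝ, 0 < t ∧ t < 1 ∧ x = pt a b t := by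
  rw [openSegment_eq_image']
  constructor
  · rintro ⟨t, ⟨h0, h1⟩, rfl⟩
    exact ⟨t, h0, h1, rfl⟩
  · rintro ⟨t, h0, h1, rfl⟩
    exact ⟨t, ⟨h0, h1⟩, rfl⟩

lemma pt_mem_segment {a b : ℂ} {t : ℝ} (h0 : 0 ≤ t) (h1 : t ≤ 1) : pt a b t ∈ segment ℝ a b :=
  mem_segment_iff.2 ⟨t, h0, h1, rfl⟩

lemma pt_mem_openSegment {a b : ℂ} {t : ℝ} (h0 : 0 < t) (h1 : t < 1) :
    pt a b t ∈ openSegment ℝ a b :=
  mem_openSegment_iff.2 ⟨t, h0, h1, rfl⟩

lemma continuous_pt (a b : ℂ) : Continuous (pt a b) := by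
  unfold pt; fun_prop

lemma continuous_cr {X : Type*} [TopologicalSpace X] {f g : X → ℂ} (hf : Continuous f)
    (hg : Continuous g) : Continuous fun x => cr (f x) (g x) := by
  unfold cr
  have h1 := Complex.continuous_re.comp hf
  have h2 := Complex.continuous_im.comp hf
  have h3 := Complex.continuous_re.comp hg
  have h4 := Complex.continuous_im.comp hg
  exact (h1.mul h4).sub (h2.mul h3)

lemma continuous_ori {X : Type*} [TopologicalSpace X] {f g h : X → ℂ} (hf : Continuous f)
    (hg : Continuous g) (hh : Continuous h) : Continuous fun x => ori (f x) (g x) (h x) := by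
  unfold ori
  exact continuous_cr (hg.sub hf) (hh.sub hf)

/-- coordinates of a vector in a basis -/
lemma decomp {a b : ℂ} (h : cr a b ≠ 0) (x : ℂ) :
    x = (cr x b / cr a b) • a + (cr a x / cr a b) • b := by
  apply Complex.ext
  · simp only [Complex.add_re, Complex.real_smul, Complex.mul_re, Complex.ofReal_re,
      Complex.ofReal_im, zero_mul, sub_zero]
    field_simp
    unfold cr
    ring
  · simp only [Complex.add_im, Complex.real_smul, Complex.mul_im, Complex.ofReal_re,
      Complex.ofReal_im, zero_mul, add_zero]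
    field_simp
    unfold cr
    ring

lemma cr_self (a : ℂ) : cr a a = 0 := by unfold cr; ring

lemma cr_swap (a b : ℂ) : cr a b = - cr b a := by unfold cr; ring

lemma cr_zero_right (a : ℂ) : cr a 0 = 0 := by simp [cr]

lemma cr_zero_left (a : ℂ) : cr 0 a = 0 := by simp [cr]

/-- if the cross product vanishes then the vectors are parallel -/
lemma parallel_of_cr {a b : ℂ} (ha : a ≠ 0) (h : cr a b = 0) : ∃ t : ℝ, b = t • a := by
  have h1 : 0 < a.re ^ 2 + a.im ^ 2 := by
    rcases eq_or_ne a.re 0 with h0 | h0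
    · rcases eq_or_ne a.im 0 with h2 | h2
      · exact absurd (Complex.ext h0 h2) ha
      · positivity
    · positivity
  refine ⟨(a.re * b.re + a.im * b.im) / (a.re ^ 2 + a.im ^ 2), ?_⟩
  unfold cr at h
  apply Complex.ext
  · simp only [Complex.real_smul, Complex.mul_re, Complex.ofReal_re, Complex.ofReal_im, zero_mul,
      sub_zero]
    field_simp
    linear_combination (-a.im) * h
  · simp only [Complex.real_smul, Complex.mul_im, Complex.ofReal_re, Complex.ofReal_im, zero_mul,
      add_zero]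
    field_simp
    linear_combination (a.re) * h

end Run7.h395
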