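import Pool.Agent.Run7.h395.Corner

/-!
# The boundary of the lit region on the edges of the polygon
-/

open Set Topology Filter Complex

noncomputable section

namespace Run7.h395

variable {n : ℕ} (S : SimplePolygon n)

lemma SimplePolygon.lev_sub (p : ℂ) (k : ℕ) : S.lev p k ⊆ S.region := fun _ hx => S.lev_region hx

lemma SimplePolygon.closure_lev_sub (p : ℂ) (k : ℕ) : closure (S.lev p k) ⊆ S.region :=
  S.reg.closed.closure_subset_iff.2 (S.lev_sub p k)

/-- a boundary point of the lit region on an open edge away from all windows is flat -/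
theorem SimplePolygon.bdry_flat {p : ℂ} {k : ℕ} {W : Finset (ℂ × ZMod n)}
    (hW : ∀ x ∈ interior S.region, x ∉ S.lev p (k + 1) → x ∈ closure (S.lev p (k + 1)) →
      ∃ w ∈ W, x ∈ S.ray w.1 w.2) {e : ZMod n} {x : ℂ} (hx : x ∈ S.oedge e)
    (hxB : x ∈ frontier (S.lev p (k + 1))) (hno : ∀ w ∈ W, x ∉ S.ray w.1 w.2) :
    FlatDir (frontier (S.lev p (k + 1))) x (S.dir e) := by
  set V := S.lev p (k + 1) with hV
  have hxv : ∀ m, x ≠ S.v m := by
    rintro m rfl; exact S.v_not_oedge m e hx
  have h1 : ∀ᶠ y in 𝓝 x, ∀ w ∈ W, y ∉ S.ray w.1 w.2 := by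
    rw [Filter.eventually_all_finset]
    intro w hw
    exact S.ray_away (hxv w.2) (hno w hw)
  obtain ⟨r1, hr1, hb1⟩ := Metric.eventually_nhds_iff.1 h1
  obtain ⟨r2, hr2, hin⟩ := S.side_fr hx
  obtain ⟨r3, hr3, hext⟩ := S.side_fx hx
  have hdn : 0 < ‖S.dir e‖ := norm_pos_iff.2 (S.dir_ne e)
  have hσ2 : S.side e * S.side e = 1 := by rcases S.side_pm e with h | h <;> rw [h] <;> norm_num
  obtain ⟨t, t0, t1, hxt⟩ := S.mem_oedge_iff.1 hx
  set r4 := min t (1 - t) * ‖S.dir e‖ with hr4
  have hr40 : 0 < r4 := mul_pos (lt_min t0 (by linarith)) hdn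
  set r := min (min r1 r2) (min r3 r4) with hr
  have hr0 : 0 < r := by positivity
  have hrr1 : r ≤ r1 := (min_le_left _ _).trans (min_le_left _ _)
  have hrr2 : r ≤ r2 := (min_le_left _ _).trans (min_le_right _ _)
  have hrr3 : r ≤ r3 := (min_le_right _ _).trans (min_le_left _ _)
  have hrr4 : r ≤ r4 := (min_le_right _ _).trans (min_le_right _ _)
  set H := Metric.ball x r ∩ {y | 0 < S.side e * cr (S.dir e) (y - x)} with hH
  have hHi : ∀ y ∈ H, y ∈ interior S.region := fun y hy =>
    hin y (lt_of_lt_of_le hy.1 hrr2) hy.2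
  have hHcov : H ⊆ interior V ∪ (closure V)ᶜ := by
    intro y hy
    by_cases hyV : y ∈ V
    · left; exact mem_interior_iff_mem_nhds.2 (S.lev_int_open (hHi y hy) hyV)
    · right
      intro hc
      obtain ⟨w, hw, hyw⟩ := hW y (hHi y hy) hyV hc
      exact hb1 (lt_of_lt_of_le hy.1 hrr1) w hw hyw
  have hHc : IsPreconnected H :=
    ((convex_ball x r).inter (convex_cr_pos (S.dir e) x (S.side e))).isPreconnected
  have hdisj : Disjoint (interior V) (closure V)ᶜ := by
    rw [Set.disjoint_left]
    intro z h5 h6
    exact h6 (subset_closure (interior_subset h5))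
  -- points of the line near x are on the open edge
  have hline : ∀ y, dist y x < r → cr (S.dir e) (y - x) = 0 → y ∈ S.oedge e := by
    intro y hy hc
    obtain ⟨c, hc'⟩ := parallel_of_cr (S.dir_ne e) hc
    have hye : y = S.ep e (t + c) := by
      have h5 := S.ep_sub e t (t + c)
      rw [← hxt] at h5
      have : t + c - t = c := by ring
      rw [this, ← hc'] at h5
      linear_combination -h5
    rw [hye]
    have h6 := hy.trans_le hrr4
    rw [dist_eq_norm, hc', norm_smul, Real.norm_eq_abs, hr4] at h6
    have h7 := lt_of_mul_lt_mul_right h6 hdn.le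
    have h8 := abs_lt.1 (h7.trans_le (min_le_left _ _))
    have h9 := abs_lt.1 (h7.trans_le (min_le_right _ _))
    exact S.ep_mem (by linarith [h8.1]) (by linarith [h9.2])
  rcases hHc.subset_or_subset isOpen_interior isClosed_closure.isOpen_compl hdisj hHcov
    with hlit | hdark
  · refine ⟨r, hr0, ?_⟩
    intro y hy
    constructor
    · intro hyB
      by_contra hnl
      have hne : cr (S.dir e) (y - x) ≠ 0 := by
        intro h
        obtain ⟨c, hc'⟩ := parallel_of_cr (S.dir_ne e) h
        exact hnl ⟨c, by rw [← hc']; ring⟩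
      have hne' : S.side e * cr (S.dir e) (y - x) ≠ 0 := by
        apply mul_ne_zero _ hne
        intro h; rw [h] at hσ2; simp at hσ2
      rcases lt_or_gt_of_ne hne' with h | h
      · apply hext y (hy.trans_le hrr3) (by linarith)
        exact S.closure_lev_sub p (k + 1) hyB.1
      · exact hyB.2 (hlit ⟨hy, h⟩)
    · rintro ⟨c, hc⟩
      have hyc : cr (S.dir e) (y - x) = 0 := by
        rw [hc, add_sub_cancel_left, cr_smul_right, cr_self, mul_zero]
      refine ⟨?_, ?_⟩
      · rw [mem_closure_iff_nhds]
        intro N hN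
        have hN2 : N ∩ Metric.ball x r ∈ 𝓝 y :=
          Filter.inter_mem hN (Metric.isOpen_ball.mem_nhds hy)
        obtain ⟨ρ, hρ, hb⟩ := Metric.mem_nhds_iff.1 hN2
        obtain ⟨ε, ε0, -, ε2⟩ := exists_small (S.side e • (I * S.dir e)) hρ 1 one_pos
        set z := y + ε • (S.side e • (I * S.dir e)) with hz
        have hzb : z ∈ Metric.ball y ρ := by
          rw [Metric.mem_ball, dist_eq_norm, hz, add_sub_cancel_left, norm_smul, Real.norm_eq_abs,
            abs_of_pos ε0]
          exact ε2
        have hz' := hb hzb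
        refine ⟨z, hz'.1, interior_subset (hlit ⟨hz'.2, ?_⟩)⟩
        have e1 : z - x = (y - x) + ε • (S.side e • (I * S.dir e)) := by rw [hz]; ring
        change 0 < S.side e * cr (S.dir e) (z - x)
        rw [e1, cr_add_right, hyc, cr_smul_right, cr_smul_right, cr_I_self, zero_add]
        have e2 : S.side e * (ε * (S.side e * ‖S.dir e‖ ^ 2)) =
          (S.side e * S.side e) * (ε * ‖S.dir e‖ ^ 2) := by ring
        rw [e2, hσ2, one_mul]
        positivity
      · intro hyi
        have h5 := interior_mono (S.lev_sub p (k + 1)) hyi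
        exact frontier_not_int (S.edge_sub_frontier e (S.oedge_sub e (hline y hy hyc))) h5
  · exfalso
    have hcl := hxB.1
    rw [Metric.mem_closure_iff] at hcl
    obtain ⟨y, hyV, hy⟩ := hcl r hr0
    rw [dist_comm] at hy
    have hyR : y ∈ S.region := S.lev_sub p (k + 1) hyV
    rcases lt_trichotomy (S.side e * cr (S.dir e) (y - x)) 0 with h | h | h
    · exact hext y (hy.trans_le hrr3) (by linarith) hyR
    · have hyc := (mul_eq_zero.1 h).resolve_left (by
        intro h; rw [h] at hσ2; simp at hσ2)
      have hyo := hline y hy hyc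
      -- a source seeing `y`
      have key : ∀ q, svis S.region q y → (∀ z, z ∈ interior S.region → svis S.region q z →
          z ∈ V) → False := by
        intro q hq hqV
        have hs := S.svis_side hyo hq
        have hdist : 0 < r - dist y x := by linarith
        obtain ⟨ε, ε0, ε1, ε2⟩ := exists_small (q - y) hdist 1 one_pos
        have hz1 : pt y q ε ∈ openSegment ℝ y q := pt_mem_openSegment ε0 ε1
        have hzi : pt y q ε ∈ interior S.region := by
          apply hq; rw [openSegment_symm]; exact hz1
        have hzv : svis S.region q (pt y q ε) := by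
          have h5 := svis_scale hq (t := 1 - ε) (by linarith) (by linarith)
          have e1 : pt q y (1 - ε) = pt y q ε := by
            unfold pt; simp only [Complex.real_smul]; push_cast; ring
          rwa [e1] at h5
        have hzV := hqV _ hzi hzv
        apply hdark _ (subset_closure hzV)
        refine ⟨?_, ?_⟩
        · rw [Metric.mem_ball]
          refine (dist_triangle _ y x).trans_lt ?_
          rw [pt_dist_left, abs_of_pos ε0]
          linarith
        · change 0 < S.side e * cr (S.dir e) (pt y q ε - x)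
          have e1 : cr (S.dir e) (pt y q ε - x) = ε * cr (S.dir e) (q - y) +
              cr (S.dir e) (y - x) := by
            unfold cr
            simp only [pt_re, pt_im, Complex.sub_re, Complex.sub_im]
            ring
          rw [e1, hyc, add_zero]
          have : S.side e * (ε * cr (S.dir e) (q - y)) =
            ε * (S.side e * cr (S.dir e) (q - y)) := by ring
          rw [this]; positivity
      obtain ⟨-, h5 | ⟨q, hq1, hq2, hq3⟩⟩ := hyV
      · exact key p h5 fun z hz hv => ⟨interior_subset hz, Or.inl hv⟩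
      · exact key q hq3 fun z hz hv => ⟨interior_subset hz, Or.inr ⟨q, hq1, hq2, hv⟩⟩
    · exact hdark ⟨hy, h⟩ (subset_closure hyV)

/-- a ray has at most one point on the boundary of the polygon -/
lemma SimplePolygon.ray_end {A x x' : ℂ} {m : ZMod n} (hx : x ∈ S.ray A m) (hx' : x' ∈ S.ray A m)
    (hf : x ∈ frontier S.region) (hf' : x' ∈ frontier S.region) : x = x' := by
  have key : ∀ {x x' : ℂ} {τ τ' : ℝ}, 1 < τ → x = pt A (S.v m) τ → x' = pt A (S.v m) τ' →
      svis S.region (S.v m) x' → x ∈ frontier S.region → ¬ τ < τ' := by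
    intro x x' τ τ' h1 hx hx' hv hf hlt
    apply frontier_not_int hf
    apply hv
    rw [mem_openSegment_iff]
    refine ⟨(τ - 1) / (τ' - 1), div_pos (by linarith) (by linarith), ?_, ?_⟩
    · rw [div_lt_one (by linarith)]; linarith
    · have h5 := pt_pt_pt A (S.v m) 1 τ' ((τ - 1) / (τ' - 1))
      rw [pt_one, ← hx', div_mul_cancel₀ _ (by linarith : τ' - 1 ≠ 0)] at h5
      rw [h5, hx]; congr 1; ring
  obtain ⟨τ, h1, h2, h3⟩ := hx
  obtain ⟨τ', h1', h2', h3'⟩ := hx'
  rcases lt_trichotomy τ τ' with h | h | h
  · exact absurd h (key h1 h2 h2' h3' hf)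
  · rw [h2, h2', h]
  · exact absurd h (key h1' h2' h2 h3 hf')

end Run7.h395
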