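import Pool.Agent.Run7.h395.Sep

/-!
# The basic separation lemma
-/

open Set Topology Filter Complex

noncomputable section

namespace Run7.h395

lemma kap_disj_left {P : Set ℂ} {q T : ℂ} (hqT : q ≠ T) {r : ℝ} (hr : r < 1) :
    pt q T r ∉ kap P q T := by
  rintro ⟨t, ht1, he, -⟩
  have h1 : (t - r) • (T - q) = 0 := by
    unfold pt at he
    simp only [Complex.real_smul] at he ⊢
    push_cast
    linear_combination -he
  rw [smul_eq_zero, sub_eq_zero, sub_eq_zero] at h1
  rcases h1 with h1 | h1
  · linarith
  · exact hqT h1.symm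

theorem bsl {P : Set ℂ} (h : Reg P) {q T u x : ℂ} {s : ℝ}
    (hqT : q ≠ T) (hu : u ∈ kap P q T) (huT : u ≠ T) (hext : ExtAt P T (T - q) s)
    (hx : 0 < s * cr (T - q) (x - q)) (hxu : segment ℝ x u ⊆ P) :
    ¬ Cn (P \ kap P q T) q x := by
  rintro ⟨C, hCc, hCp, hCs, hqC, hxC⟩
  obtain ⟨tu, htu1, rfl, hsegu⟩ := hu
  have htu : 1 < tu := by
    rcases htu1.eq_or_lt with e | e
    · exfalso; apply huT; rw [← e]; simp
    · exact e
  have hsegT : segment ℝ q T ⊆ P := by
    have := (seg_pt_iff (q := q) (T := T) (P := P) zero_le_one).2 (fun r h0 h1 =>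
      (seg_pt_iff (by linarith)).1 hsegu r h0 (by linarith))
    simpa using this
  obtain ⟨tm, htm1, hsegm, hkap, hiff, hfar⟩ := kap_struct h hqT hsegT
  have htum : tu ≤ tm := (hiff tu htu1).1 hsegu
  have hκc : IsCompact (kap P q T) := by rw [hkap]; exact isCompact_segment _ _
  have hκconv : Convex ℝ (kap P q T) := by rw [hkap]; exact convex_segment _ _
  have hTκ : T ∈ kap P q T := by rw [hkap]; exact left_mem_segment ℝ _ _
  have hmκ : pt q T tm ∈ kap P q T := by rw [hkap]; exact right_mem_segment ℝ _ _
  have hdisj : Disjoint C (kap P q T) := by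
    rw [Set.disjoint_left]
    intro z hz hz2
    exact (hCs hz).2 hz2
  obtain ⟨δ, hδ, hthick⟩ := hdisj.exists_thickenings hCc hκc.isClosed
  have hTq : 0 < ‖T - q‖ := by
    rw [norm_pos_iff, sub_ne_zero]
    exact hqT.symm
  obtain ⟨tB, htB1, htB2, hBP⟩ := hfar (δ / ‖T - q‖) (by positivity)
  set B := pt q T tB with hB
  have hBthick : B ∈ Metric.thickening δ (kap P q T) := by
    rw [Metric.mem_thickening_iff]
    refine ⟨_, hmκ, ?_⟩
    rw [dist_eq_norm]
    have e : B - pt q T tm = (tB - tm) • (T - q) := by
      rw [hB]; unfold pt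
      simp only [Complex.real_smul]
      push_cast
      ring
    rw [e, norm_smul, Real.norm_of_nonneg (by linarith), ← lt_div_iff₀ hTq]
    linarith
  -- the neighbourhood of T
  have hN : ∀ᶠ A in 𝓝 T, dist A T < δ ∧ s * ori x (pt q T tu) A < 0 ∧ 0 < s * ori A B x := by
    refine Filter.Eventually.and ?_ (Filter.Eventually.and ?_ ?_)
    · exact Metric.ball_mem_nhds T hδ
    · have hc : Continuous fun A => s * ori x (pt q T tu) A :=
        continuous_const.mul (continuous_ori continuous_const continuous_const continuous_id)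
      have h0 : s * ori x (pt q T tu) T < 0 := by
        have e : s * ori x (pt q T tu) T = - (tu - 1) * (s * cr (T - q) (x - q)) := by
          unfold ori cr
          simp only [pt_re, pt_im, Complex.sub_re, Complex.sub_im]
          ring
        rw [e]
        nlinarith
      exact hc.continuousAt.eventually_lt continuousAt_const h0
    · have hc : Continuous fun A => s * ori A B x :=
        continuous_const.mul (continuous_ori continuous_id continuous_const continuous_const)
      have h0 : 0 < s * ori T B x := by
        have e : s * ori T B x = (tB - 1) * (s * cr (T - q) (x - q)) := by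
          rw [hB]
          unfold ori cr
          simp only [pt_re, pt_im, Complex.sub_re, Complex.sub_im]
          ring
        rw [e]
        have : 0 < tB - 1 := by linarith
        positivity
      exact continuousAt_const.eventually_lt hc.continuousAt h0
  obtain ⟨A, ⟨hA1, hA2, hA3⟩, hAP, hA4⟩ :=
    (mem_closure_iff_nhds.1 hext) _ hN
  have hA4 : 0 < s * cr (T - q) (A - T) := hA4
  have hAthick : A ∈ Metric.thickening δ (kap P q T) := by
    rw [Metric.mem_thickening_iff]
    exact ⟨T, hTκ, hA1⟩
  have hcut : segment ℝ A B ⊆ Metric.thickening δ (kap P q T) :=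
    (hκconv.thickening δ).segment_subset hAthick hBthick
  have hcutC : ∀ z ∈ C, z ∉ segment ℝ A B := by
    intro z hz hz2
    exact Set.disjoint_left.1 hthick (Metric.self_subset_thickening hδ C hz) (hcut hz2)
  have key : ¬ Cn (P \ segment ℝ A B) x (pt q T tu) := by
    refine no_cross h.closed h.cpc hAP hBP hxu ?_ ?_
    · have e : s * ori A B (pt q T tu) = - (tB - tu) * (s * cr (T - q) (A - T)) := by
        rw [hB]
        unfold ori cr
        simp only [pt_re, pt_im, Complex.sub_re, Complex.sub_im]
        ring
      have h1 : s * ori A B (pt q T tu) < 0 := by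
        rw [e]
        have : 0 < tB - tu := by linarith
        nlinarith
      have h2 : (s * ori A B x) * (s * ori A B (pt q T tu)) < 0 := mul_neg_of_pos_of_neg hA3 h1
      have h3 : 0 < s ^ 2 := by
        have : s ≠ 0 := by rintro rfl; simp at hx
        positivity
      have h4 : s ^ 2 * (ori A B x * ori A B (pt q T tu)) < 0 := by
        nlinarith
      by_contra hcon
      push Not at hcon
      nlinarith [mul_nonneg h3.le hcon]
    · have e : s * ori x (pt q T tu) B = (tB - tu) * (s * cr (T - q) (x - q)) := by
        rw [hB]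
        unfold ori cr
        simp only [pt_re, pt_im, Complex.sub_re, Complex.sub_im]
        ring
      have h1 : 0 < s * ori x (pt q T tu) B := by
        rw [e]
        have : 0 < tB - tu := by linarith
        positivity
      have h2 : (s * ori x (pt q T tu) A) * (s * ori x (pt q T tu) B) < 0 :=
        mul_neg_of_neg_of_pos hA2 h1
      have h3 : 0 < s ^ 2 := by
        have : s ≠ 0 := by rintro rfl; simp at hx
        positivity
      by_contra hcon
      push Not at hcon
      nlinarith [mul_nonneg h3.le hcon]
  apply key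
  have c1 : Cn (P \ segment ℝ A B) x q :=
    ⟨C, hCc, hCp, fun z hz => ⟨(hCs hz).1, hcutC z hz⟩, hxC, hqC⟩
  refine c1.trans (Cn.of_segment ?_)
  intro z hz
  refine ⟨hsegu hz, ?_⟩
  intro hz2
  rw [mem_segment_iff] at hz hz2
  obtain ⟨r, h0, h1, rfl⟩ := hz
  obtain ⟨θ, k0, k1, he⟩ := hz2
  rw [pt_pt] at he
  rcases k1.eq_or_lt with e | e
  · rw [e, pt_one] at he
    apply hBP
    rw [← he]
    apply (seg_pt_iff (by linarith)).1 hsegu
    · positivity
    · nlinarith
  · have h5 : s * cr (T - q) (pt A B θ - q) = (1 - θ) * (s * cr (T - q) (A - T)) := by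
      rw [hB]
      unfold cr
      simp only [pt_re, pt_im, Complex.sub_re, Complex.sub_im]
      ring
    have h6 : s * cr (T - q) (pt q T (r * tu) - q) = 0 := by
      unfold cr
      simp only [pt_re, pt_im, Complex.sub_re, Complex.sub_im]
      ring
    rw [← he, h6] at h5
    have : 0 < (1 - θ) * (s * cr (T - q) (A - T)) := mul_pos (by linarith) hA4
    linarith

end Run7.h395
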