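import Pool.Agent.Run7.h395.Sides

/-!
# The complexity of the boundary of the lit region
-/

open Set Topology Filter Complex

noncomputable section

namespace Run7.h395

variable {n : ℕ} (S : SimplePolygon n)

lemma SimplePolygon.ray_convex (A : ℂ) (m : ZMod n) : Convex ℝ (S.ray A m) := by
  rw [convex_iff_segment_subset]
  rintro x ⟨τ, h1, h2, h3⟩ x' ⟨τ', h1', h2', h3'⟩ z hz
  rw [mem_segment_iff] at hz
  obtain ⟨s, s0, s1, hz⟩ := hz
  have hz' : z = pt A (S.v m) (τ + s * (τ' - τ)) := by rw [hz, h2, h2', pt_pt_pt]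
  have hτ : 1 < τ + s * (τ' - τ) := by
    rcases le_total τ τ' with h | h
    · have := mul_nonneg s0 (sub_nonneg.2 h)
      linarith
    · have h5 : s * (τ' - τ) ≥ τ' - τ := by nlinarith
      linarith
  have key : ∀ {y : ℂ} {σ : ℝ}, 1 < σ → y = pt A (S.v m) σ → svis S.region (S.v m) y →
      τ + s * (τ' - τ) ≤ σ → svis S.region (S.v m) z := by
    intro y σ g1 g2 g3 g4
    have h5 := svis_scale g3 (t := (τ + s * (τ' - τ) - 1) / (σ - 1))
      (div_pos (by linarith) (by linarith)) (by rw [div_le_one (by linarith)]; linarith)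
    have h6 := pt_pt_pt A (S.v m) 1 σ ((τ + s * (τ' - τ) - 1) / (σ - 1))
    rw [pt_one, ← g2, div_mul_cancel₀ _ (by linarith : σ - 1 ≠ 0)] at h6
    rw [h6] at h5
    have h7 : 1 + (τ + s * (τ' - τ) - 1) = τ + s * (τ' - τ) := by ring
    rw [h7, ← hz'] at h5
    exact h5
  refine ⟨_, hτ, hz', ?_⟩
  rcases le_total τ τ' with h | h
  · exact key h1' h2' h3' (by nlinarith)
  · have : s * (τ' - τ) ≤ 0 := mul_nonpos_of_nonneg_of_nonpos s0 (by linarith)
    exact key h1 h2 h3 (by linarith)

/-- the parameter on a line -/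
def lineParam (b d x : ℂ) : ℝ :=
  open Classical in if h : ∃ t : ℝ, x = b + t • d then h.choose else 0

lemma lineParam_spec {b d x : ℂ} (h : ∃ t : ℝ, x = b + t • d) : x = b + lineParam b d x • d := by
  unfold lineParam
  rw [dif_pos h]
  exact h.choose_spec

theorem encard_le_of_finset {α : Type*} {s : Set α} {N : ℕ}
    (h : ∀ F : Finset α, (∀ x ∈ F, x ∈ s) → F.card ≤ N) : s.encard ≤ N := by
  have hfin := finite_of_card_le h
  rw [hfin.encard_eq_coe_toFinset_card]
  exact_mod_cast h _ (fun x hx => hfin.mem_toFinset.1 hx)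

theorem SimplePolygon.complexity (p : ℂ) (k : ℕ) :
    (corners (frontier (S.lev p (k + 1)))).encard + (sides (frontier (S.lev p (k + 1)))).encard ≤
      ((11000 * n ^ 3 * (k + 1) ^ 2 : ℕ) : ℕ∞) := by
  classical
  have hNe := S.neZero
  obtain ⟨W, hWc, hW⟩ := S.exists_windows p k
  set V := S.lev p (k + 1) with hV
  set B := frontier V with hB
  have hBcl : IsClosed B := isClosed_frontier
  have hBR : B ⊆ S.region := fun x hx => S.closure_lev_sub p (k + 1) hx.1
  -- points of `B` inside lie on rays
  have hBray : ∀ x ∈ B, x ∈ interior S.region → ∃ w ∈ W, x ∈ S.ray w.1 w.2 := by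
    intro x hx hxi
    apply hW x hxi _ hx.1
    intro hxV
    exact hx.2 (mem_interior_iff_mem_nhds.2 (S.lev_int_open hxi hxV))
  -- corners on open edges
  have hopen : ∀ F : Finset ℂ, (∀ x ∈ F, x ∈ corners B ∧ ∃ e, x ∈ S.oedge e) →
      F.card ≤ W.card := by
    intro F hF
    have hex : ∀ x ∈ F, ∃ w ∈ W, x ∈ S.ray w.1 w.2 := by
      intro x hx
      obtain ⟨⟨hxB, hnf⟩, e, he⟩ := hF x hx
      by_contra hcon
      push Not at hcon
      exact hnf ⟨S.dir e, S.dir_ne e, S.bdry_flat hW he hxB hcon⟩
    choose! f hf1 hf2 using hex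
    refine Finset.card_le_card_of_injOn f hf1 ?_
    intro x hx y hy hxy
    obtain ⟨-, e, he⟩ := hF x hx
    obtain ⟨-, e', he'⟩ := hF y hy
    refine S.ray_end (hf2 x hx) (m := (f x).2) (A := (f x).1) ?_
      (S.edge_sub_frontier e (S.oedge_sub e he)) (S.edge_sub_frontier e' (S.oedge_sub e' he'))
    have h5 := hf2 y hy
    rw [← hxy] at h5
    exact h5
  -- all corners
  set M0 := 240 * n * (k + 1) with hM0
  have hcorners : ∀ F : Finset ℂ, (∀ x ∈ F, x ∈ corners B) → F.card ≤ W.card * (M0 + 1) + n := by
    intro F hF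
    set F1 := F.filter (fun x => x ∈ interior S.region) with hF1
    set F2 := F.filter (fun x => ∃ e, x ∈ S.oedge e) with hF2
    set F3 := F.filter (fun x => ∃ m, x = S.v m) with hF3
    have hcov : F ⊆ F1 ∪ (F2 ∪ F3) := by
      intro x hx
      by_cases hxi : x ∈ interior S.region
      · exact Finset.mem_union_left _ (Finset.mem_filter.2 ⟨hx, hxi⟩)
      · apply Finset.mem_union_right
        rcases S.frontier_cases (mem_frontier_of (hBR (hF x hx).1) hxi) with h | h
        · exact Finset.mem_union_right _ (Finset.mem_filter.2 ⟨hx, h⟩)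
        · exact Finset.mem_union_left _ (Finset.mem_filter.2 ⟨hx, h⟩)
    have c1 : F1.card ≤ W.card * M0 := by
      have hsub : F1 ⊆ W.biUnion (fun w => F1.filter (fun x => x ∈ S.ray w.1 w.2)) := by
        intro x hx
        obtain ⟨hxF, hxi⟩ := Finset.mem_filter.1 hx
        obtain ⟨w, hw, hxw⟩ := hBray x (hF x hxF).1 hxi
        exact Finset.mem_biUnion.2 ⟨w, hw, Finset.mem_filter.2 ⟨hx, hxw⟩⟩
      refine (Finset.card_le_card hsub).trans ?_
      refine Finset.card_biUnion_le.trans ?_
      refine (Finset.sum_le_sum (fun w hw => ?_)).trans (le_of_eq (Finset.sum_const_nat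
        (m := M0) (fun _ _ => rfl)))
      apply S.corner_count (p := p) (A := w.1) (m := w.2) (k := k)
      intro x hx
      obtain ⟨hx1, hxw⟩ := Finset.mem_filter.1 hx
      obtain ⟨hxF, hxi⟩ := Finset.mem_filter.1 hx1
      refine ⟨hxw, hxi, (hF x hxF).1, ?_⟩
      intro hf
      exact (hF x hxF).2 ⟨_, sub_ne_zero.2 (S.ray_ne hxw).symm, hf⟩
    have c2 : F2.card ≤ W.card := by
      apply hopen
      intro x hx
      obtain ⟨hxF, he⟩ := Finset.mem_filter.1 hx
      exact ⟨hF x hxF, he⟩
    have c3 : F3.card ≤ n := by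
      have hsub : F3 ⊆ (Finset.univ : Finset (ZMod n)).image S.v := by
        intro x hx
        obtain ⟨-, m, rfl⟩ := Finset.mem_filter.1 hx
        exact Finset.mem_image.2 ⟨m, Finset.mem_univ _, rfl⟩
      refine (Finset.card_le_card hsub).trans (Finset.card_image_le.trans ?_)
      rw [Finset.card_univ, ZMod.card]
    have c4 := Finset.card_le_card hcov
    have c5 := Finset.card_union_le F1 (F2 ∪ F3)
    have c6 := Finset.card_union_le F2 F3
    have e1 : W.card * (M0 + 1) = W.card * M0 + W.card := by ring
    omega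
  have hcfin : (corners B).Finite := finite_of_card_le hcorners
  set CF := hcfin.toFinset with hCF
  -- the carriers
  set I : Finset ((ℂ × ZMod n) ⊕ ZMod n) :=
    (W.filter (fun w => w.1 ≠ S.v w.2)).disjSum Finset.univ with hI
  set C : (ℂ × ZMod n) ⊕ ZMod n → Set ℂ := Sum.elim (fun w => S.ray w.1 w.2) S.oedge with hC
  set base : (ℂ × ZMod n) ⊕ ZMod n → ℂ := Sum.elim (fun w => w.1) S.v with hbase
  set dd : (ℂ × ZMod n) ⊕ ZMod n → ℂ := Sum.elim (fun w => S.v w.2 - w.1) S.dir with hdd
  set M : (ℂ × ZMod n) ⊕ ZMod n → ℕ :=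
    Sum.elim (fun _ => M0 + 1) (fun e => (CF.filter (fun x => x ∈ S.oedge e)).card) with hM
  have hsides := sides_count hBcl I C base dd (fun i => lineParam (base i) (dd i)) M ?_ ?_ ?_ ?_ ?_
  · -- conclusion
    have hsum : ∑ i ∈ I, (M i + 1) ≤ W.card * (M0 + 2) + (W.card + n) := by
      rw [hI, Finset.sum_disjSum]
      have s1 : ∑ w ∈ W.filter (fun w => w.1 ≠ S.v w.2), (M (Sum.inl w) + 1) ≤
          W.card * (M0 + 2) := by
        refine (Finset.sum_le_sum_of_subset (Finset.filter_subset _ _)).trans (le_of_eq ?_)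
        rw [Finset.sum_const_nat (m := M0 + 2)]
        intro w _
        simp only [hM, Sum.elim_inl]
      have s2 : ∑ e : ZMod n, (M (Sum.inr e) + 1) ≤ W.card + n := by
        rw [Finset.sum_add_distrib, Finset.sum_const, Finset.card_univ, ZMod.card, smul_eq_mul,
          mul_one]
        have : ∑ e : ZMod n, M (Sum.inr e) ≤ W.card := by
          simp only [hM, Sum.elim_inr]
          rw [← Finset.card_biUnion]
          · apply hopen
            intro x hx
            obtain ⟨e, -, hx⟩ := Finset.mem_biUnion.1 hx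
            obtain ⟨hxC, he⟩ := Finset.mem_filter.1 hx
            exact ⟨hcfin.mem_toFinset.1 hxC, e, he⟩
          · intro e _ e' _ hee
            rw [Function.onFun, Finset.disjoint_left]
            intro x hx hx'
            exact hee (S.oedge_unique (Finset.mem_filter.1 hx').2
              (S.oedge_sub e (Finset.mem_filter.1 hx).2))
        omega
      exact Nat.add_le_add s1 s2
    have b1 := encard_le_of_finset hcorners
    have b2 := encard_le_of_finset (fun F hF => (hsides F hF).trans hsum)
    refine (add_le_add b1 b2).trans ?_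
    rw [← Nat.cast_add]
    have h3 := S.three_le
    have harith : W.card * (M0 + 1) + n + (W.card * (M0 + 2) + (W.card + n)) ≤
        11000 * n ^ 3 * (k + 1) ^ 2 := by
      set K := k + 1 with hK
      have hK1 : 1 ≤ K := by omega
      have e1 : W.card * (M0 + 1) + n + (W.card * (M0 + 2) + (W.card + n)) =
          W.card * (2 * M0 + 4) + 2 * n := by ring
      rw [e1]
      have hnK : 1 ≤ n * K := Nat.mul_pos (by omega) (by omega)
      have h4 : W.card ≤ 21 * n ^ 2 * K := by
        refine hWc.trans ?_
        have : n ≤ n ^ 2 * K := by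
          have : n * 1 ≤ n * (n * K) := Nat.mul_le_mul_left n hnK
          calc n = n * 1 := (mul_one n).symm
            _ ≤ n * (n * K) := this
            _ = n ^ 2 * K := by ring
        have e2 : 21 * n ^ 2 * K = 20 * n ^ 2 * K + n ^ 2 * K := by ring
        omega
      have hM0' : M0 = 240 * (n * K) := by rw [hM0]; ring
      have h5 : n ^ 2 * K * 3 ≤ n ^ 3 * K ^ 2 := by
        have : n ^ 2 * K * 3 ≤ n ^ 2 * K * (n * K) := by
          apply Nat.mul_le_mul_left
          calc 3 = 3 * 1 := rfl
            _ ≤ n * K := Nat.mul_le_mul h3 hK1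
        calc _ ≤ _ := this
          _ = n ^ 3 * K ^ 2 := by ring
      have h6 : n * 9 ≤ n ^ 3 * K ^ 2 := by
        have h7 : n * 3 ≤ n ^ 2 * K := by
          have : n * 3 ≤ n * (n * K) := by
            apply Nat.mul_le_mul_left
            calc 3 = 3 * 1 := rfl
              _ ≤ n * K := Nat.mul_le_mul h3 hK1
          calc _ ≤ _ := this
            _ = n ^ 2 * K := by ring
        have : n * 9 = n * 3 * 3 := by ring
        rw [this]
        exact (Nat.mul_le_mul_right 3 h7).trans h5
      calc W.card * (2 * M0 + 4) + 2 * n ≤ 21 * n ^ 2 * K * (2 * M0 + 4) + 2 * n := by gcongr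
        _ = 10080 * (n ^ 3 * K ^ 2) + 84 * (n ^ 2 * K) + 2 * n := by rw [hM0']; ring
        _ ≤ 11000 * n ^ 3 * K ^ 2 := by
            have e3 : 11000 * n ^ 3 * K ^ 2 = 11000 * (n ^ 3 * K ^ 2) := by ring
            rw [e3]
            omega
    exact_mod_cast harith
  · intro i hi
    rw [hI, Finset.mem_disjSum] at hi
    rcases hi with ⟨w, hw, rfl⟩ | ⟨e, -, rfl⟩
    · exact sub_ne_zero.2 (Finset.mem_filter.1 hw).2.symm
    · exact S.dir_ne e
  · intro i _ x hx
    apply lineParam_spec
    rcases i with w | e
    · obtain ⟨τ, -, h, -⟩ := hx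
      exact ⟨τ, h⟩
    · obtain ⟨t, -, -, h⟩ := S.mem_oedge_iff.1 hx
      exact ⟨t, h⟩
  · intro i _
    rcases i with w | e
    · exact S.ray_convex w.1 w.2
    · exact convex_openSegment _ _
  · intro i _ X hX
    rcases i with w | e
    · change X.card ≤ M0 + 1
      set X1 := X.filter (fun x => x ∈ interior S.region) with hX1
      set X2 := X.filter (fun x => ¬ x ∈ interior S.region) with hX2
      have c1 : X1.card ≤ M0 := by
        apply S.corner_count (p := p) (A := w.1) (m := w.2) (k := k)
        intro x hx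
        obtain ⟨hxX, hxi⟩ := Finset.mem_filter.1 hx
        obtain ⟨hxC, hxc⟩ := hX x hxX
        have hxC : x ∈ S.ray w.1 w.2 := hxC
        refine ⟨hxC, hxi, hxc.1, ?_⟩
        intro hf
        exact hxc.2 ⟨_, sub_ne_zero.2 (S.ray_ne hxC).symm, hf⟩
      have c2 : X2.card ≤ 1 := by
        rw [Finset.card_le_one]
        intro x hx y hy
        obtain ⟨hxX, hxi⟩ := Finset.mem_filter.1 hx
        obtain ⟨hyX, hyi⟩ := Finset.mem_filter.1 hy
        exact S.ray_end (A := w.1) (m := w.2) (hX x hxX).1 (hX y hyX).1
          (mem_frontier_of (hBR (hX x hxX).2.1) hxi) (mem_frontier_of (hBR (hX y hyX).2.1) hyi)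
      have c3 : X1.card + X2.card = X.card := by
        rw [hX1, hX2, Finset.card_filter_add_card_filter_not]
      omega
    · change X.card ≤ (CF.filter (fun x => x ∈ S.oedge e)).card
      apply Finset.card_le_card
      intro x hx
      exact Finset.mem_filter.2 ⟨hcfin.mem_toFinset.2 (hX x hx).2, (hX x hx).1⟩
  · -- coverage
    intro x hx
    have hxf : FlatAt B x := by
      by_contra hc
      exact hx.2 ⟨hx.1, hc⟩
    obtain ⟨d, hd, hfd⟩ := hxf
    have hdn : 0 < ‖d‖ := norm_pos_iff.2 hd
    obtain ⟨r, hr, hnear⟩ := hfd.near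
    -- the line near x lies in the component
    have hcomp : ∀ c : ℝ, |c| * ‖d‖ < r → x + c • d ∈ connectedComponentIn (B \ corners B) x := by
      intro c hc
      have hseg : segment ℝ x (x + c • d) ⊆ B \ corners B := by
        intro z hz
        rw [mem_segment_iff] at hz
        obtain ⟨t, t0, t1, rfl⟩ := hz
        have e1 : pt x (x + c • d) t = x + (t * c) • d := by
          unfold pt; simp only [Complex.real_smul]; push_cast; ring
        apply (hnear _ ?_ ⟨t * c, e1⟩).not_corner hd
        rw [e1, dist_eq_norm, add_sub_cancel_left, norm_smul, Real.norm_eq_abs, abs_mul,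
          abs_of_nonneg t0]
        have : 0 ≤ |c| * ‖d‖ := by positivity
        nlinarith
      exact (convex_segment _ _).isPreconnected.subset_connectedComponentIn
        (left_mem_segment ℝ _ _) hseg (right_mem_segment ℝ _ _)
    have hflat : ∀ c : ℝ, |c| * ‖d‖ < r → FlatDir B (x + c • d) d := by
      intro c hc
      apply hnear _ _ ⟨c, rfl⟩
      rw [dist_eq_norm, add_sub_cancel_left, norm_smul, Real.norm_eq_abs]
      exact hc
    -- avoid the vertices
    obtain ⟨c, hc, hcv⟩ : ∃ c : ℝ, |c| * ‖d‖ < r ∧ ∀ m, x + c • d ≠ S.v m := by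
      have hinf : (Ioo (0 : ℝ) (r / ‖d‖)).Infinite := Ioo_infinite (by positivity)
      have hfin : {c : ℝ | ∃ m, x + c • d = S.v m}.Finite := by
        have : {c : ℝ | ∃ m, x + c • d = S.v m} ⊆ ⋃ m : ZMod n, {c : ℝ | x + c • d = S.v m} := by
          rintro c ⟨m, hm⟩
          exact mem_iUnion.2 ⟨m, hm⟩
        refine (Set.finite_iUnion fun m => Set.Subsingleton.finite ?_).subset this
        intro c hc c' hc'
        have hc : x + c • d = S.v m := hc
        have hc' : x + c' • d = S.v m := hc'
        have h5 : (c - c') • d = 0 := by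
          rw [sub_smul]
          linear_combination hc - hc'
        rcases smul_eq_zero.1 h5 with h | h
        · linarith
        · exact absurd h hd
      obtain ⟨c, hc1, hc2⟩ := (hinf.sdiff hfin).nonempty
      refine ⟨c, ?_, ?_⟩
      · rw [abs_of_pos hc1.1]
        rw [← lt_div_iff₀ hdn]; exact hc1.2
      · intro m hm
        exact hc2 ⟨m, hm⟩
    set y := x + c • d with hy
    have hyf := hflat c hc
    have hyB := hyf.mem
    have hyc := hcomp c hc
    rw [← hy] at hyf hyB hyc
    by_cases hyi : y ∈ interior S.region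
    · -- inside: on a ray
      have hex : ∃ w ∈ W, y ∈ S.ray w.1 w.2 ∧ cr (S.v w.2 - w.1) d = 0 := by
        by_contra hcon
        push Not at hcon
        have hev : ∀ᶠ c' : ℝ in 𝓝[>] 0, ∀ w ∈ W, y + c' • d ∉ S.ray w.1 w.2 := by
          rw [Filter.eventually_all_finset]
          intro w hw
          by_cases hyw : y ∈ S.ray w.1 w.2
          · have hne := hcon w hw hyw
            filter_upwards [self_mem_nhdsWithin] with c' hc' hmem
            have hc' : 0 < c' := hc'
            obtain ⟨τ, -, h1, -⟩ := hyw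
            obtain ⟨τ', -, h2, -⟩ := hmem
            have h3 : c' • d = (τ' - τ) • (S.v w.2 - w.1) := by
              rw [← pt_sub_pt, ← h1, ← h2]; ring
            have h4 : cr (S.v w.2 - w.1) (c' • d) = 0 := by
              rw [h3, cr_smul_right, cr_self, mul_zero]
            rw [cr_smul_right] at h4
            rcases mul_eq_zero.1 h4 with h5 | h5
            · linarith
            · exact hne h5
          · have h1 := S.ray_away (hcv w.2) hyw
            have h2 : Tendsto (fun c' : ℝ => y + c' • d) (𝓝[>] 0) (𝓝 y) := by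
              have : ContinuousAt (fun c' : ℝ => y + c' • d) 0 := by fun_prop
              have h3 : Tendsto (fun c' : ℝ => y + c' • d) (𝓝 0) (𝓝 (y + (0 : ℝ) • d)) := this
              rw [zero_smul, add_zero] at h3
              exact h3.mono_left nhdsWithin_le_nhds
            exact h2.eventually h1
        obtain ⟨r', hr', hnear'⟩ := hyf.near
        obtain ⟨ρ, hρ, hball⟩ := Metric.isOpen_iff.1 isOpen_interior y hyi
        have h1 : ∀ᶠ c' : ℝ in 𝓝[>] 0, |c'| * ‖d‖ < min r' ρ := by
          have hcont : ContinuousAt (fun c' : ℝ => |c'| * ‖d‖) 0 := by fun_prop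
          have : ∀ᶠ c' : ℝ in 𝓝 0, |c'| * ‖d‖ < min r' ρ := by
            apply hcont.eventually_lt continuousAt_const
            simpa using ⟨hr', hρ⟩
          exact mem_nhdsWithin_of_mem_nhds this
        obtain ⟨c', hc1, hc2⟩ := (hev.and h1).exists
        have hdist : dist (y + c' • d) y = |c'| * ‖d‖ := by
          rw [dist_eq_norm, add_sub_cancel_left, norm_smul, Real.norm_eq_abs]
        have h3 : y + c' • d ∈ B :=
          (hnear' _ (by rw [hdist]; exact hc2.trans_le (min_le_left _ _)) ⟨c', rfl⟩).mem
        have h4 : y + c' • d ∈ interior S.region := by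
          apply hball
          rw [Metric.mem_ball, hdist]
          exact hc2.trans_le (min_le_right _ _)
        obtain ⟨w, hw, hyw⟩ := hBray _ h3 h4
        exact hc1 w hw hyw
      obtain ⟨w, hw, hyw, hcr⟩ := hex
      have hne := S.ray_ne hyw
      have hwd : S.v w.2 - w.1 ≠ 0 := sub_ne_zero.2 hne.symm
      obtain ⟨a, ha⟩ := parallel_of_cr hwd hcr
      have ha0 : a ≠ 0 := by
        rintro rfl
        rw [zero_smul] at ha
        exact hd ha
      refine ⟨Sum.inl w, ?_, y, hyw, hyc, ?_⟩
      · rw [hI, Finset.mem_disjSum]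
        left
        exact ⟨w, Finset.mem_filter.2 ⟨hw, hne⟩, rfl⟩
      · change FlatDir B y (S.v w.2 - w.1)
        have : S.v w.2 - w.1 = (1 / a) • d := by
          rw [ha, smul_smul, one_div_mul_cancel ha0, one_smul]
        rw [this]
        exact hyf.smul (one_div_ne_zero ha0)
    · -- on an open edge
      rcases S.frontier_cases (mem_frontier_of (hBR hyB) hyi) with ⟨m, hm⟩ | ⟨e, he⟩
      · exact absurd hm (hcv m)
      have hcr : cr (S.dir e) d = 0 := by
        by_contra hne
        obtain ⟨ρ, hρ, hext⟩ := S.side_fx he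
        obtain ⟨r', hr', hnear'⟩ := hyf.near
        have hσ2 : S.side e * S.side e = 1 := by
          rcases S.side_pm e with h | h <;> rw [h] <;> norm_num
        have hne' : -S.side e * cr (S.dir e) d ≠ 0 := by
          apply mul_ne_zero _ hne
          intro h
          have h5 : S.side e = 0 := by linarith
          rw [h5] at hσ2; simp at hσ2
        obtain ⟨b, hb⟩ := exists_sg hne'
        obtain ⟨ε, ε0, -, ε2⟩ := exists_small d (show 0 < min ρ r' by positivity) 1 one_pos
        have hdist : dist (y + (sg b * ε) • d) y < min ρ r' := by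
          rw [dist_eq_norm, add_sub_cancel_left, norm_smul, Real.norm_eq_abs, abs_mul,
            abs_of_pos ε0]
          have : |sg b| = 1 := by rcases sg_pm b with h | h <;> rw [h] <;> norm_num
          rw [this, one_mul]; exact ε2
        have h1 : y + (sg b * ε) • d ∈ B :=
          (hnear' _ (hdist.trans_le (min_le_right _ _)) ⟨_, rfl⟩).mem
        refine hext _ (hdist.trans_le (min_le_left _ _)) ?_ (hBR h1)
        rw [add_sub_cancel_left, cr_smul_right]
        have : -S.side e * (sg b * ε * cr (S.dir e) d) =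
          ε * (sg b * (-S.side e * cr (S.dir e) d)) := by ring
        rw [this]; positivity
      obtain ⟨a, ha⟩ := parallel_of_cr (S.dir_ne e) hcr
      have ha0 : a ≠ 0 := by
        rintro rfl
        rw [zero_smul] at ha
        exact hd ha
      refine ⟨Sum.inr e, ?_, y, he, hyc, ?_⟩
      · rw [hI, Finset.mem_disjSum]
        right
        exact ⟨e, Finset.mem_univ _, rfl⟩
      · change FlatDir B y (S.dir e)
        have : S.dir e = (1 / a) • d := by
          rw [ha, smul_smul, one_div_mul_cancel ha0, one_smul]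
        rw [this]
        exact hyf.smul (one_div_ne_zero ha0)

end Run7.h395
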