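import Pool.Agent.Run7.h395.RelCount

/-!
# The finite family of window rays and the local conic structure of the lit region
-/

open Set Topology Filter Complex

noncomputable section

namespace Run7.h395

variable {n : ℕ} (S : SimplePolygon n)

lemma finite_of_card_le {α : Type*} {s : Set α} {N : ℕ}
    (h : ∀ F : Finset α, (∀ x ∈ F, x ∈ s) → F.card ≤ N) : s.Finite := by
  by_contra hinf
  obtain ⟨F, hF, hc⟩ := Set.Infinite.exists_subset_card_eq hinf (N + 1)
  have := h F (fun x hx => hF hx)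
  omega

/-- the finite family of windows -/
theorem SimplePolygon.exists_windows (p : ℂ) (k : ℕ) :
    ∃ W : Finset (ℂ × ZMod n), W.card ≤ 20 * n ^ 2 * (k + 1) + n ∧
      ∀ x ∈ interior S.region, x ∉ S.lev p (k + 1) → x ∈ closure (S.lev p (k + 1)) →
        ∃ w ∈ W, x ∈ S.ray w.1 w.2 := by
  classical
  have := S.neZero
  set R : Set (Item n) := {i | S.Rel p k i} with hR
  have hcard : ∀ F : Finset (Item n), (∀ i ∈ F, i ∈ R) → F.card ≤ n * (20 * n * k) := by
    intro F hF
    have h1 : F.card = ∑ T : ZMod n, (F.filter (fun i => i.2.1 = T)).card := by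
      rw [← Finset.card_eq_sum_card_fiberwise (f := fun i : Item n => i.2.1)
        (t := Finset.univ) (fun x _ => Finset.mem_univ _)]
    rw [h1]
    calc ∑ T : ZMod n, (F.filter (fun i => i.2.1 = T)).card
        ≤ ∑ _T : ZMod n, 20 * n * k := by
          apply Finset.sum_le_sum
          intro T _
          apply S.rel_count T
          intro i hi
          exact ⟨hF i (Finset.mem_filter.1 hi).1, (Finset.mem_filter.1 hi).2⟩
      _ = n * (20 * n * k) := by
          rw [Finset.sum_const, Finset.card_univ, ZMod.card, smul_eq_mul]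
  have hfin : R.Finite := finite_of_card_le hcard
  set RF := hfin.toFinset with hRF
  have hRFc : RF.card ≤ n * (20 * n * k) := by
    apply hcard
    intro i hi
    exact hfin.mem_toFinset.1 hi
  set W1 : Finset (ℂ × ZMod n) :=
    (Finset.univ : Finset (ZMod n × ZMod n)).image (fun x => (S.v x.1, x.2)) with hW1
  set W2 : Finset (ℂ × ZMod n) := (Finset.univ : Finset (ZMod n)).image (fun m => (p, m)) with hW2
  set W3 : Finset (ℂ × ZMod n) := RF.image (fun i => (S.ep i.1 (tt i), i.2.1)) with hW3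
  refine ⟨W1 ∪ W2 ∪ W3, ?_, ?_⟩
  · have c1 : W1.card ≤ n * n := by
      refine Finset.card_image_le.trans ?_
      rw [Finset.card_univ, Fintype.card_prod, ZMod.card]
    have c2 : W2.card ≤ n := by
      refine Finset.card_image_le.trans ?_
      rw [Finset.card_univ, ZMod.card]
    have c3 : W3.card ≤ n * (20 * n * k) := Finset.card_image_le.trans hRFc
    have c4 := Finset.card_union_le (W1 ∪ W2) W3
    have c5 := Finset.card_union_le W1 W2
    have e1 : 20 * n ^ 2 * (k + 1) = n * (20 * n * k) + 20 * (n * n) := by ring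
    rw [e1]
    have : n * n ≤ 20 * (n * n) := by omega
    omega
  · intro x hx hd hc
    rcases S.frontier_ray hx hd hc with ⟨m, m', -, h⟩ | ⟨m, h⟩ | ⟨i, hi, h⟩
    · exact ⟨(S.v m, m'), Finset.mem_union_left _ (Finset.mem_union_left _
        (Finset.mem_image.2 ⟨(m, m'), Finset.mem_univ _, rfl⟩)), h⟩
    · exact ⟨(p, m), Finset.mem_union_left _ (Finset.mem_union_right _
        (Finset.mem_image.2 ⟨m, Finset.mem_univ _, rfl⟩)), h⟩
    · exact ⟨(S.ep i.1 (tt i), i.2.1), Finset.mem_union_right _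
        (Finset.mem_image.2 ⟨i, hfin.mem_toFinset.2 hi, rfl⟩), h⟩

lemma SimplePolygon.ray_ne {A x : ℂ} {m : ZMod n} (h : x ∈ S.ray A m) : A ≠ S.v m := by
  rintro rfl
  obtain ⟨τ, -, hx, hv⟩ := h
  have : x = S.v m := by rw [hx]; simp [pt]
  rw [this] at hv
  unfold svis at hv
  rw [openSegment_same] at hv
  exact frontier_not_int (S.v_frontier m) (hv rfl)

/-- rays are closed away from their vertex -/
lemma SimplePolygon.ray_closed {A x : ℂ} {m : ZMod n} (h : x ∈ closure (S.ray A m))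
    (hx : x ≠ S.v m) : x ∈ S.ray A m := by
  rw [mem_closure_iff_seq_limit] at h
  obtain ⟨y, hy, hlim⟩ := h
  have hne := S.ray_ne (hy 0)
  have hd : 0 < ‖S.v m - A‖ := norm_pos_iff.2 (sub_ne_zero.2 hne.symm)
  choose τ hτ hyτ hv using hy
  -- parameters converge
  have hn : ∀ j, ‖y j - S.v m‖ = (τ j - 1) * ‖S.v m - A‖ := by
    intro j
    have : y j - S.v m = (τ j - 1) • (S.v m - A) := by
      rw [hyτ j]; unfold pt; simp only [Complex.real_smul]; push_cast; ring
    rw [this, norm_smul, Real.norm_eq_abs, abs_of_pos (by linarith [hτ j])]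
  have h1 : Tendsto (fun j => ‖y j - S.v m‖) atTop (𝓝 ‖x - S.v m‖) :=
    (hlim.sub_const _).norm
  have h2 : Tendsto τ atTop (𝓝 (‖x - S.v m‖ / ‖S.v m - A‖ + 1)) := by
    have h3 := (h1.div_const ‖S.v m - A‖).add_const 1
    refine h3.congr ?_
    intro j
    rw [hn j, mul_div_cancel_right₀ _ hd.ne']; ring
  set τ0 := ‖x - S.v m‖ / ‖S.v m - A‖ + 1 with hτ0
  have hτ1 : 1 < τ0 := by
    have : 0 < ‖x - S.v m‖ := norm_pos_iff.2 (sub_ne_zero.2 hx)
    have : 0 < ‖x - S.v m‖ / ‖S.v m - A‖ := by positivity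
    linarith
  have hxe : x = pt A (S.v m) τ0 := by
    have h3 : Tendsto (fun j => pt A (S.v m) (τ j)) atTop (𝓝 (pt A (S.v m) τ0)) :=
      ((continuous_pt A (S.v m)).tendsto τ0).comp h2
    have h4 : Tendsto y atTop (𝓝 (pt A (S.v m) τ0)) := h3.congr (fun j => (hyτ j).symm)
    exact tendsto_nhds_unique hlim h4
  refine ⟨τ0, hτ1, hxe, ?_⟩
  intro z hz
  rw [mem_openSegment_iff] at hz
  obtain ⟨s, s0, s1, rfl⟩ := hz
  have h5 : 1 + s * (τ0 - 1) < τ0 := by nlinarith
  obtain ⟨j, hj⟩ := (h2.eventually (lt_mem_nhds h5)).exists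
  apply hv j
  have h6 : 0 < τ j - 1 := by linarith [hτ j]
  rw [mem_openSegment_iff]
  refine ⟨s * (τ0 - 1) / (τ j - 1), ?_, ?_, ?_⟩
  · have : 0 < τ0 - 1 := by linarith
    positivity
  · rw [div_lt_one h6]; linarith
  · have e1 : S.v m = pt A (S.v m) 1 := by simp
    have e2 : pt (S.v m) x s = pt A (S.v m) (1 + s * (τ0 - 1)) := by
      have := pt_pt_pt A (S.v m) 1 τ0 s
      rw [← e1, ← hxe] at this
      exact this
    have e3 : pt (S.v m) (y j) (s * (τ0 - 1) / (τ j - 1)) =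
        pt A (S.v m) (1 + s * (τ0 - 1)) := by
      have := pt_pt_pt A (S.v m) 1 (τ j) (s * (τ0 - 1) / (τ j - 1))
      rw [← e1, ← hyτ j, div_mul_cancel₀ _ h6.ne'] at this
      exact this
    rw [e2, e3]

lemma SimplePolygon.ray_away {A x : ℂ} {m : ZMod n} (hx : x ≠ S.v m) (h : x ∉ S.ray A m) :
    ∀ᶠ y in 𝓝 x, y ∉ S.ray A m := by
  have h1 : x ∉ closure (S.ray A m) := fun hc => h (S.ray_closed hc hx)
  filter_upwards [isClosed_closure.isOpen_compl.mem_nhds h1] with y hy hyr
  exact hy (subset_closure hyr)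

/-- near an inner point of a ray, the ray is the line -/
lemma SimplePolygon.ray_local {A x : ℂ} {m : ZMod n} (hx : x ∈ S.ray A m)
    (hxi : x ∈ interior S.region) : ∃ r > 0, ∀ c : ℝ, |c| < r →
      x + c • (S.v m - A) ∈ S.ray A m := by
  have hne := S.ray_ne hx
  obtain ⟨τ, hτ, hxe, hv⟩ := hx
  obtain ⟨r, hr, hball⟩ := Metric.isOpen_iff.1 isOpen_interior x hxi
  have hd : 0 < ‖S.v m - A‖ := norm_pos_iff.2 (sub_ne_zero.2 hne.symm)
  refine ⟨min (τ - 1) (r / ‖S.v m - A‖), lt_min (by linarith) (by positivity), ?_⟩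
  intro c hc
  have hc1 := abs_lt.1 (hc.trans_le (min_le_left _ _))
  have hc2 := hc.trans_le (min_le_right _ _)
  rw [lt_div_iff₀ hd] at hc2
  have hy : x + c • (S.v m - A) = pt A (S.v m) (τ + c) := by
    rw [hxe]; unfold pt; simp only [Complex.real_smul]; push_cast; ring
  have hτc : 1 < τ + c := by linarith [hc1.1]
  refine ⟨τ + c, hτc, hy, ?_⟩
  intro z hz
  rw [mem_openSegment_iff] at hz
  obtain ⟨s, s0, s1, rfl⟩ := hz
  have e1 : S.v m = pt A (S.v m) 1 := by simp
  have e2 : pt (S.v m) (x + c • (S.v m - A)) s = pt A (S.v m) (1 + s * (τ + c - 1)) := by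
    have := pt_pt_pt A (S.v m) 1 (τ + c) s
    rw [← e1, ← hy] at this
    exact this
  rw [e2]
  have hsp : 0 < s * (τ + c - 1) := mul_pos s0 (by linarith)
  have hsl : s * (τ + c - 1) < τ + c - 1 := by nlinarith
  rcases lt_or_ge (1 + s * (τ + c - 1)) τ with h | h
  · apply hv
    rw [mem_openSegment_iff]
    refine ⟨s * (τ + c - 1) / (τ - 1), div_pos hsp (by linarith), ?_, ?_⟩
    · rw [div_lt_one (by linarith)]; linarith
    · have := pt_pt_pt A (S.v m) 1 τ (s * (τ + c - 1) / (τ - 1))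
      rw [← e1, ← hxe, div_mul_cancel₀ _ (by linarith : τ - 1 ≠ 0)] at this
      rw [this]
  · apply hball
    rw [Metric.mem_ball, dist_eq_norm, hxe, pt_sub_pt, norm_smul, Real.norm_eq_abs,
      abs_of_nonneg (by linarith)]
    have hcpos : 1 + s * (τ + c - 1) - τ ≤ |c| := by
      have := le_abs_self c
      linarith
    exact (mul_le_mul_of_nonneg_right hcpos hd.le).trans_lt hc2

/-- along a direction the status is constant near an inner point -/
lemma SimplePolygon.eventually_const (p : ℂ) (k : ℕ) {x : ℂ} (hx : x ∈ interior S.region)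
    (d : ℂ) : ∃ ρ > 0, ∀ c c' : ℝ, 0 < c → c < ρ → 0 < c' → c' < ρ →
      (x + c • d ∈ S.lev p (k + 1) ↔ x + c' • d ∈ S.lev p (k + 1)) := by
  classical
  by_contra hcon
  push Not at hcon
  obtain ⟨r, hr, hball⟩ := Metric.isOpen_iff.1 isOpen_interior x hx
  obtain ⟨ρ0, h00, -, h02⟩ := exists_small d hr 1 one_pos
  have hboth : ∀ ρ : ℝ, 0 < ρ → (∃ c : ℝ, 0 < c ∧ c < ρ ∧ x + c • d ∈ S.lev p (k + 1)) ∧
      (∃ c : ℝ, 0 < c ∧ c < ρ ∧ x + c • d ∉ S.lev p (k + 1)) := by
    intro ρ hρ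
    obtain ⟨c, c', g0, g1, g2, g3, h⟩ := hcon ρ hρ
    rcases h with ⟨h1, h2⟩ | ⟨h1, h2⟩
    · exact ⟨⟨c, g0, g1, h1⟩, ⟨c', g2, g3, h2⟩⟩
    · exact ⟨⟨c', g2, g3, h2⟩, ⟨c, g0, g1, h1⟩⟩
  have hstep : ∀ c : {c : ℝ // 0 < c ∧ c ≤ ρ0}, ∃ c' : {c : ℝ // 0 < c ∧ c ≤ ρ0},
      c'.1 < c.1 ∧ (x + c'.1 • d ∈ S.lev p (k + 1) ↔ x + c.1 • d ∉ S.lev p (k + 1)) := by
    rintro ⟨c, h0, h1⟩
    obtain ⟨⟨a, a0, a1, a2⟩, ⟨b, b0, b1, b2⟩⟩ := hboth c h0
    by_cases h : x + c • d ∈ S.lev p (k + 1)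
    · exact ⟨⟨b, b0, by linarith⟩, b1, ⟨fun h' => absurd h' b2, fun h' => absurd h h'⟩⟩
    · exact ⟨⟨a, a0, by linarith⟩, a1, ⟨fun _ => h, fun _ => a2⟩⟩
  choose nx hnx1 hnx2 using hstep
  set c : ℕ → {c : ℝ // 0 < c ∧ c ≤ ρ0} :=
    fun j => Nat.rec (⟨ρ0, h00, le_rfl⟩ : {c : ℝ // 0 < c ∧ c ≤ ρ0}) (fun _ y => nx y) j with hc
  have hcs : ∀ j, c (j + 1) = nx (c j) := fun j => rfl
  set m := 80 * n * (k + 1) + 2 with hm
  have hpt : ∀ u : ℝ, x + u • d = pt x (x + ρ0 • d) (u / ρ0) := by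
    intro u
    unfold pt
    have : x + ρ0 • d - x = ρ0 • d := by ring
    rw [this, smul_smul, div_mul_cancel₀ _ h00.ne']
  have hseg : segment ℝ x (x + ρ0 • d) ⊆ S.region := by
    intro z hz
    rw [mem_segment_iff] at hz
    obtain ⟨s, s0, s1, rfl⟩ := hz
    apply interior_subset
    apply hball
    rw [Metric.mem_ball, pt_dist_left, abs_of_nonneg s0]
    have : x + ρ0 • d - x = ρ0 • d := by ring
    rw [this, norm_smul, Real.norm_eq_abs, abs_of_pos h00]
    have h3 : 0 ≤ ρ0 * ‖d‖ := by positivity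
    nlinarith
  have := S.stabbing p k x (x + ρ0 • d) hseg m (fun i => (c (m - i)).1 / ρ0) ?_ ?_ ?_ ?_
  · omega
  · have := (c (m - 0)).2.1
    positivity
  · change (c (m - m)).1 / ρ0 ≤ 1
    rw [div_le_one h00]
    exact (c (m - m)).2.2
  · intro i hi
    change (c (m - i)).1 / ρ0 < (c (m - (i + 1))).1 / ρ0
    have e1 : m - i = (m - (i + 1)) + 1 := by omega
    rw [e1, hcs]
    exact div_lt_div_of_pos_right (hnx1 _) h00
  · intro i hi
    change (pt x (x + ρ0 • d) ((c (m - i)).1 / ρ0) ∈ S.lev p (k + 1) ↔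
      pt x (x + ρ0 • d) ((c (m - (i + 1))).1 / ρ0) ∉ S.lev p (k + 1))
    rw [← hpt, ← hpt]
    have e1 : m - i = (m - (i + 1)) + 1 := by omega
    rw [e1, hcs]
    exact hnx2 _

/-- the lit region is a cone near every inner point -/
theorem SimplePolygon.conic (p : ℂ) (k : ℕ) {x : ℂ} (hx : x ∈ interior S.region) :
    ∃ r > 0, Metric.ball x r ⊆ interior S.region ∧ ∀ y, dist y x < r → ∀ t : ℝ, 0 < t → t ≤ 1 →
      (y ∈ S.lev p (k + 1) ↔ pt x y t ∈ S.lev p (k + 1)) := by
  classical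
  obtain ⟨W, -, hW⟩ := S.exists_windows p k
  have hxv : ∀ m, x ≠ S.v m := by
    rintro m rfl; exact frontier_not_int (S.v_frontier m) hx
  have h1 : ∀ᶠ y in 𝓝 x, ∀ w ∈ W, x ∉ S.ray w.1 w.2 → y ∉ S.ray w.1 w.2 := by
    rw [Filter.eventually_all_finset]
    intro w _
    by_cases hw : x ∈ S.ray w.1 w.2
    · exact Filter.Eventually.of_forall fun y h => absurd hw h
    · filter_upwards [S.ray_away (hxv w.2) hw] with y hy _
      exact hy
  obtain ⟨r1, hr1, hb1⟩ := Metric.eventually_nhds_iff.1 h1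
  obtain ⟨r0, hr0, hball⟩ := Metric.isOpen_iff.1 isOpen_interior x hx
  -- constancy along the finitely many directions
  have hρ : ∀ w ∈ W, ∃ ρ > 0, ∀ c c' : ℝ, 0 < c → c * ‖S.v w.2 - w.1‖ < ρ → 0 < c' →
      c' * ‖S.v w.2 - w.1‖ < ρ → x ∈ S.ray w.1 w.2 →
      (x + c • (S.v w.2 - w.1) ∈ S.lev p (k + 1) ↔ x + c' • (S.v w.2 - w.1) ∈ S.lev p (k + 1)) ∧
      (x + c • (-(S.v w.2 - w.1)) ∈ S.lev p (k + 1) ↔
        x + c' • (-(S.v w.2 - w.1)) ∈ S.lev p (k + 1)) := by
    intro w _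
    obtain ⟨ρ1, hρ1, hc1⟩ := S.eventually_const p k hx (S.v w.2 - w.1)
    obtain ⟨ρ2, hρ2, hc2⟩ := S.eventually_const p k hx (-(S.v w.2 - w.1))
    by_cases hw : x ∈ S.ray w.1 w.2
    · have hd : 0 < ‖S.v w.2 - w.1‖ := norm_pos_iff.2 (sub_ne_zero.2 (S.ray_ne hw).symm)
      refine ⟨min ρ1 ρ2 * ‖S.v w.2 - w.1‖, by positivity, ?_⟩
      intro c c' g0 g1 g2 g3 _
      have g4 := lt_of_mul_lt_mul_right g1 hd.le
      have g5 := lt_of_mul_lt_mul_right g3 hd.le
      exact ⟨hc1 c c' g0 (g4.trans_le (min_le_left _ _)) g2 (g5.trans_le (min_le_left _ _)),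
        hc2 c c' g0 (g4.trans_le (min_le_right _ _)) g2 (g5.trans_le (min_le_right _ _))⟩
    · exact ⟨1, one_pos, fun c c' _ _ _ _ h => absurd h hw⟩
  choose! ρ hρ0 hρ1 using hρ
  obtain ⟨r2, hr2, hr2'⟩ : ∃ r2 > 0, ∀ w ∈ W, r2 ≤ ρ w := by
    rcases W.eq_empty_or_nonempty with h | h
    · exact ⟨1, one_pos, fun w hw => absurd hw (by rw [h]; exact Finset.notMem_empty _)⟩
    · exact ⟨W.inf' h ρ, (Finset.lt_inf'_iff h).2 hρ0, fun w hw => Finset.inf'_le _ hw⟩
  refine ⟨min r0 (min r1 r2), by positivity, ?_, ?_⟩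
  · intro y hy
    apply hball
    rw [Metric.mem_ball] at hy ⊢
    exact lt_of_lt_of_le hy (min_le_left _ _)
  intro y hy t ht0 ht1
  have hy0 := hy.trans_le (min_le_left _ _)
  have hy1 := (hy.trans_le (min_le_right _ _)).trans_le (min_le_left _ _)
  have hy2 := (hy.trans_le (min_le_right _ _)).trans_le (min_le_right _ _)
  by_cases hyx : y = x
  · subst hyx
    have : pt y y t = y := by simp [pt]
    rw [this]
  by_cases hdir : ∃ w ∈ W, x ∈ S.ray w.1 w.2 ∧ ∃ c : ℝ, y = x + c • (S.v w.2 - w.1)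
  · obtain ⟨w, hw, hxw, c, hc⟩ := hdir
    have hc0 : c ≠ 0 := by
      rintro rfl; apply hyx; rw [hc]; simp
    have hn : |c| * ‖S.v w.2 - w.1‖ < ρ w := by
      have : dist y x = |c| * ‖S.v w.2 - w.1‖ := by
        rw [dist_eq_norm, hc, add_sub_cancel_left, norm_smul, Real.norm_eq_abs]
      rw [← this]
      exact hy2.trans_le (hr2' w hw)
    have htn : (t * |c|) * ‖S.v w.2 - w.1‖ < ρ w := by
      have h3 : 0 ≤ |c| * ‖S.v w.2 - w.1‖ := by positivity
      have : (t * |c|) * ‖S.v w.2 - w.1‖ = t * (|c| * ‖S.v w.2 - w.1‖) := by ring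
      rw [this]
      nlinarith
    have hpt : pt x y t = x + (t * c) • (S.v w.2 - w.1) := by
      rw [hc]; unfold pt; simp only [Complex.real_smul]; push_cast; ring
    rcases lt_or_gt_of_ne hc0 with h | h
    · rw [abs_of_neg h] at hn htn
      have h5 := (hρ1 w hw (-c) (t * -c) (by linarith) hn (mul_pos ht0 (by linarith)) htn hxw).2
      have e1 : x + (-c) • (-(S.v w.2 - w.1)) = y := by
        rw [hc]; simp only [Complex.real_smul]; push_cast; ring
      have e2 : x + (t * -c) • (-(S.v w.2 - w.1)) = pt x y t := by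
        rw [hpt]; simp only [Complex.real_smul]; push_cast; ring
      rw [e1, e2] at h5
      exact h5
    · rw [abs_of_pos h] at hn htn
      have h5 := (hρ1 w hw c (t * c) h hn (mul_pos ht0 h) htn hxw).1
      rw [← hc, ← hpt] at h5
      exact h5
  · -- the segment avoids the boundary
    push Not at hdir
    have hsegball : ∀ z ∈ segment ℝ (pt x y t) y, dist z x < min r0 (min r1 r2) := by
      intro z hz
      have hconv := convex_ball x (min r0 (min r1 r2))
      have h5 : pt x y t ∈ Metric.ball x (min r0 (min r1 r2)) := by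
        rw [Metric.mem_ball, pt_dist_left, abs_of_pos ht0]
        rw [dist_eq_norm] at hy
        have := norm_nonneg (y - x)
        nlinarith
      exact hconv.segment_subset h5 hy hz
    have hparam : ∀ z ∈ segment ℝ (pt x y t) y, ∃ s : ℝ, 0 < s ∧ z = pt x y s := by
      intro z hz
      rw [mem_segment_iff] at hz
      obtain ⟨u, u0, u1, rfl⟩ := hz
      refine ⟨t + u * (1 - t), ?_, ?_⟩
      · have := mul_nonneg u0 (by linarith : 0 ≤ 1 - t)
        linarith
      · have := pt_pt_pt x y t 1 u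
        rw [pt_one] at this
        exact this
    have hcov : segment ℝ (pt x y t) y ⊆ interior (S.lev p (k + 1)) ∪
        (closure (S.lev p (k + 1)))ᶜ := by
      intro z hz
      have hzd := hsegball z hz
      have hzi : z ∈ interior S.region := hball (hzd.trans_le (min_le_left _ _))
      by_cases hl : z ∈ S.lev p (k + 1)
      · left
        exact mem_interior_iff_mem_nhds.2 (S.lev_int_open hzi hl)
      · right
        intro hc
        obtain ⟨w, hw, hzw⟩ := hW z hzi hl hc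
        have hxw : x ∈ S.ray w.1 w.2 := by
          by_contra hxw
          exact hb1 ((hzd.trans_le (min_le_right _ _)).trans_le (min_le_left _ _)) w hw hxw hzw
        obtain ⟨s, s0, hs⟩ := hparam z hz
        obtain ⟨τ, -, hτ, -⟩ := id hxw
        obtain ⟨τ', -, hτ', -⟩ := hzw
        apply hdir w hw hxw ((τ' - τ) / s)
        have h6 : z - x = (τ' - τ) • (S.v w.2 - w.1) := by
          rw [hτ', hτ, pt_sub_pt]
        have h7 : z - x = s • (y - x) := by rw [hs, pt_sub_left]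
        have h8 : y - x = ((τ' - τ) / s) • (S.v w.2 - w.1) := by
          have : y - x = (1 / s) • (s • (y - x)) := by
            rw [smul_smul, one_div_mul_cancel s0.ne', one_smul]
          rw [this, ← h7, h6, smul_smul]
          congr 1; ring
        rw [← h8]; ring
    have hconn : IsPreconnected (segment ℝ (pt x y t) y) := (convex_segment _ _).isPreconnected
    have hdisj : Disjoint (interior (S.lev p (k + 1))) (closure (S.lev p (k + 1)))ᶜ := by
      rw [Set.disjoint_left]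
      intro z h5 h6
      exact h6 (subset_closure (interior_subset h5))
    rcases hconn.subset_or_subset isOpen_interior isClosed_closure.isOpen_compl hdisj hcov
      with h5 | h5
    · exact ⟨fun _ => interior_subset (h5 (left_mem_segment ℝ _ _)),
        fun _ => interior_subset (h5 (right_mem_segment ℝ _ _))⟩
    · exact ⟨fun h => absurd (subset_closure h) (h5 (right_mem_segment ℝ _ _)),
        fun h => absurd (subset_closure h) (h5 (left_mem_segment ℝ _ _))⟩

end Run7.h395
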