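import Pool.Agent.Run7.h395.Conic

/-!
# Corners of the boundary of the lit region on a window ray
-/

open Set Topology Filter Complex

noncomputable section

namespace Run7.h395

variable {n : ℕ} (S : SimplePolygon n)

/-- near `x`, the set `B` is the straight line through `x` with direction `d` -/
def FlatDir (B : Set ℂ) (x d : ℂ) : Prop :=
  ∃ r : ℝ, 0 < r ∧ ∀ y, dist y x < r → (y ∈ B ↔ ∃ c : ℝ, y = x + c • d)

/-- near `x`, the set `B` is a straight line -/
def FlatAt (B : Set ℂ) (x : ℂ) : Prop := ∃ d : ℂ, d ≠ 0 ∧ FlatDir B x d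

/-- the points of `B` where `B` is not locally a straight line -/
def corners (B : Set ℂ) : Set ℂ := {x | x ∈ B ∧ ¬ FlatAt B x}

lemma cr_I_self (d : ℂ) : cr d (I * d) = ‖d‖ ^ 2 := by
  rw [← Complex.normSq_eq_norm_sq, Complex.normSq_apply]
  unfold cr; simp

/-- at a boundary point which is not flat the status changes along or beside the line -/
lemma SimplePolygon.corner_cases {p x d : ℂ} {k : ℕ} {r : ℝ} (hd : d ≠ 0) (hr : 0 < r)
    (hball : Metric.ball x r ⊆ interior S.region)
    (hxB : x ∈ frontier (S.lev p (k + 1))) (hnf : ¬ FlatDir (frontier (S.lev p (k + 1))) x d) :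
    (∃ c : ℝ, c ≠ 0 ∧ |c| * ‖d‖ < r ∧ x + c • d ∈ S.lev p (k + 1)) ∨
    ∃ s : Bool, ∃ y y', dist y x < r ∧ dist y' x < r ∧ 0 < sg s * cr d (y - x) ∧
      0 < sg s * cr d (y' - x) ∧ y ∈ S.lev p (k + 1) ∧ y' ∉ S.lev p (k + 1) := by
  by_contra hcon
  push Not at hcon
  obtain ⟨h1, h2⟩ := hcon
  set V := S.lev p (k + 1) with hV
  have hdn : 0 < ‖d‖ := norm_pos_iff.2 hd
  have hint : ∀ y, dist y x < r → y ∈ V → y ∈ interior V := fun y hy hyV =>
    mem_interior_iff_mem_nhds.2 (S.lev_int_open (hball hy) hyV)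
  have hxV : x ∉ V := fun h => hxB.2 (hint x (by rw [dist_self]; exact hr) h)
  -- the line is dark
  have hline : ∀ y, dist y x < r → cr d (y - x) = 0 → y ∉ V ∧ ∃ c : ℝ, y = x + c • d := by
    intro y hy hc
    obtain ⟨c, hc'⟩ := parallel_of_cr hd hc
    have hye : y = x + c • d := by rw [← hc']; ring
    refine ⟨?_, c, hye⟩
    intro hyV
    by_cases hc0 : c = 0
    · rw [hc0, zero_smul, add_zero] at hye
      rw [hye] at hyV; exact hxV hyV
    · apply h1 c hc0 _ (hye ▸ hyV)
      rw [dist_eq_norm, hc', norm_smul, Real.norm_eq_abs] at hy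
      exact hy
  -- there is a lit point beside the line
  have hex : ∃ s : Bool, ∃ y, dist y x < r ∧ 0 < sg s * cr d (y - x) ∧ y ∈ V := by
    have hcl := hxB.1
    rw [Metric.mem_closure_iff] at hcl
    obtain ⟨y, hyV, hy⟩ := hcl r hr
    rw [dist_comm] at hy
    have hne : cr d (y - x) ≠ 0 := fun h => (hline y hy h).1 hyV
    obtain ⟨s, hs⟩ := exists_sg hne
    exact ⟨s, y, hy, hs, hyV⟩
  obtain ⟨s, y0, hy0, hs0, hy0V⟩ := hex
  have hlit : ∀ y, dist y x < r → 0 < sg s * cr d (y - x) → y ∈ V := by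
    intro y hy hs
    exact h2 s y0 y hy0 hy hs0 hs hy0V
  apply hnf
  refine ⟨r, hr, ?_⟩
  intro y hy
  constructor
  · intro hyB
    by_contra hno
    have hne : cr d (y - x) ≠ 0 := fun h => hno (hline y hy h).2
    obtain ⟨s', hs'⟩ := exists_sg hne
    by_cases hyV : y ∈ V
    · exact hyB.2 (hint y hy hyV)
    · -- a neighbourhood of `y` on its side is dark
      have hdark : ∀ z, dist z x < r → 0 < sg s' * cr d (z - x) → z ∉ V := by
        intro z hz hzs hzV
        exact hyV (h2 s' z y hz hy hzs hs' hzV)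
      have hcl := hyB.1
      rw [mem_closure_iff_nhds] at hcl
      have hopen : IsOpen (Metric.ball x r ∩ {z | 0 < sg s' * cr d (z - x)}) :=
        Metric.isOpen_ball.inter (isOpen_cr_pos d x (sg s'))
      obtain ⟨z, ⟨hz1, hz2⟩, hz3⟩ := hcl _ (hopen.mem_nhds ⟨hy, hs'⟩)
      exact hdark z hz1 hz2 hz3
  · rintro ⟨c, hc⟩
    have hyc : cr d (y - x) = 0 := by
      rw [hc, add_sub_cancel_left, cr_smul_right, cr_self, mul_zero]
    have hyV := (hline y hy hyc).1
    refine ⟨?_, fun h => hyV (interior_subset h)⟩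
    rw [mem_closure_iff_nhds]
    intro N hN
    have hN2 : N ∩ Metric.ball x r ∈ 𝓝 y :=
      Filter.inter_mem hN (Metric.isOpen_ball.mem_nhds hy)
    obtain ⟨ρ, hρ, hb⟩ := Metric.mem_nhds_iff.1 hN2
    obtain ⟨ε, ε0, -, ε2⟩ := exists_small (sg s • (I * d)) hρ 1 one_pos
    set z := y + ε • (sg s • (I * d)) with hz
    have hzb : z ∈ Metric.ball y ρ := by
      rw [Metric.mem_ball, dist_eq_norm, hz, add_sub_cancel_left, norm_smul, Real.norm_eq_abs,
        abs_of_pos ε0]
      exact ε2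
    have hz' := hb hzb
    refine ⟨z, hz'.1, hlit z hz'.2 ?_⟩
    have e1 : z - x = (y - x) + ε • (sg s • (I * d)) := by rw [hz]; ring
    rw [e1, cr_add_right, hyc, cr_smul_right, cr_smul_right, cr_I_self, zero_add]
    have e2 : sg s * (ε * (sg s * ‖d‖ ^ 2)) = (sg s * sg s) * (ε * ‖d‖ ^ 2) := by ring
    rw [e2, sg_mul_self, one_mul]
    positivity

/-- counting disjoint intervals with a lit and a dark point -/
theorem SimplePolygon.alt_count {p A B : ℂ} (hAB : A ≠ B) (hseg : segment ℝ A B ⊆ S.region)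
    (k : ℕ) {α : Type*} [DecidableEq α] (J : Finset α) (a b : α → ℝ)
    (ha0 : ∀ i ∈ J, 0 ≤ a i) (ha1 : ∀ i ∈ J, a i ≤ 1) (hb0 : ∀ i ∈ J, 0 ≤ b i)
    (hb1 : ∀ i ∈ J, b i ≤ 1)
    (hlit : ∀ i ∈ J, pt A B (a i) ∈ S.lev p (k + 1))
    (hdark : ∀ i ∈ J, pt A B (b i) ∉ S.lev p (k + 1))
    (hdisj : ∀ i ∈ J, ∀ l ∈ J, i ≠ l → (a i < a l ∧ a i < b l ∧ b i < a l ∧ b i < b l) ∨
      (a l < a i ∧ a l < b i ∧ b l < a i ∧ b l < b i)) :
    J.card ≤ 80 * n * (k + 1) := by
  classical
  set J1 := J.filter (fun i => a i < b i) with hJ1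
  set J2 := J.filter (fun i => ¬ a i < b i) with hJ2
  have h1 : J1.card ≤ 40 * n * (k + 1) := by
    refine S.pairs_count (p := p) hAB hseg k J1 a b ?_ ?_ ?_ ?_ ?_ ?_
    · intro i hi; exact ha0 i (Finset.mem_filter.1 hi).1
    · intro i hi; exact (Finset.mem_filter.1 hi).2
    · intro i hi; exact hb1 i (Finset.mem_filter.1 hi).1
    · intro i hi; exact hlit i (Finset.mem_filter.1 hi).1
    · intro i hi; exact hdark i (Finset.mem_filter.1 hi).1
    · intro i hi l hl hil
      rcases hdisj i (Finset.mem_filter.1 hi).1 l (Finset.mem_filter.1 hl).1 hil with h | h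
      · exact Or.inl h.2.2.1
      · exact Or.inr h.2.2.1
  have hrev : ∀ t : ℝ, pt B A (1 - t) = pt A B t := by
    intro t; unfold pt; simp only [Complex.real_smul]; push_cast; ring
  have h2 : J2.card ≤ 40 * n * (k + 1) := by
    have hne : ∀ i ∈ J2, b i < a i := by
      intro i hi
      have hi' := Finset.mem_filter.1 hi
      have h3 := not_lt.1 hi'.2
      refine lt_of_le_of_ne h3 ?_
      intro h4
      exact hdark i hi'.1 (h4 ▸ hlit i hi'.1)
    refine S.pairs_count (p := p) hAB.symm (by rw [segment_symm]; exact hseg) k J2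
      (fun i => 1 - a i) (fun i => 1 - b i) ?_ ?_ ?_ ?_ ?_ ?_
    · intro i hi
      have := ha1 i (Finset.mem_filter.1 hi).1
      linarith
    · intro i hi
      have := hne i hi
      linarith
    · intro i hi
      have := hb0 i (Finset.mem_filter.1 hi).1
      linarith
    · intro i hi
      rw [hrev]; exact hlit i (Finset.mem_filter.1 hi).1
    · intro i hi
      rw [hrev]; exact hdark i (Finset.mem_filter.1 hi).1
    · intro i hi l hl hil
      rcases hdisj i (Finset.mem_filter.1 hi).1 l (Finset.mem_filter.1 hl).1 hil with h | h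
      · right; linarith [h.2.1]
      · left; linarith [h.2.1]
  have h3 : J1.card + J2.card = J.card := by
    rw [hJ1, hJ2, Finset.card_filter_add_card_filter_not]
  have e1 : 80 * n * (k + 1) = 40 * n * (k + 1) + 40 * n * (k + 1) := by ring
  omega

/-- every window ray carries linearly many corners -/
theorem SimplePolygon.corner_count {p A : ℂ} {m : ZMod n} {k : ℕ} (X : Finset ℂ)
    (hX : ∀ x ∈ X, x ∈ S.ray A m ∧ x ∈ interior S.region ∧ x ∈ frontier (S.lev p (k + 1)) ∧
      ¬ FlatDir (frontier (S.lev p (k + 1))) x (S.v m - A)) : X.card ≤ 240 * n * (k + 1) := by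
  classical
  rcases X.eq_empty_or_nonempty with hXe | hXne
  · rw [hXe]; simp
  set T := S.v m with hT
  set V := S.lev p (k + 1) with hV
  have hne : A ≠ T := by
    obtain ⟨x, hx⟩ := hXne
    exact S.ray_ne (hX x hx).1
  set d := T - A with hd
  have hd0 : d ≠ 0 := sub_ne_zero.2 hne.symm
  have hdn : 0 < ‖d‖ := norm_pos_iff.2 hd0
  have hray : ∀ x ∈ X, ∃ τ : ℝ, 1 < τ ∧ x = pt A T τ ∧ svis S.region T x := fun x hx => (hX x hx).1
  choose! τ hτ1 hτe hτv using hray
  obtain ⟨xm, hxm, hmin⟩ := Finset.exists_min_image X τ hXne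
  obtain ⟨xM, hxM, hmax⟩ := Finset.exists_max_image X τ hXne
  -- the end of the segment
  obtain ⟨β, hβ, hβi⟩ : ∃ β, τ xM < β ∧ ∀ t, τ xM ≤ t → t ≤ β → pt A T t ∈ interior S.region := by
    obtain ⟨r, hr, hb⟩ := Metric.isOpen_iff.1 isOpen_interior xM (hX xM hxM).2.1
    obtain ⟨ε, ε0, -, ε2⟩ := exists_small d hr 1 one_pos
    refine ⟨τ xM + ε, by linarith, ?_⟩
    intro t h1 h2
    apply hb
    rw [Metric.mem_ball, dist_eq_norm]
    conv_lhs => rw [hτe xM hxM]
    rw [pt_sub_pt, norm_smul, Real.norm_eq_abs, abs_of_nonneg (by linarith)]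
    have : (t - τ xM) * ‖T - A‖ ≤ ε * ‖d‖ := mul_le_mul_of_nonneg_right (by linarith) (norm_nonneg _)
    linarith
  set α := (1 + τ xm) / 2 with hα
  have hα1 : 1 < α := by have := hτ1 xm hxm; rw [hα]; linarith
  have hαm : α < τ xm := by have := hτ1 xm hxm; rw [hα]; linarith
  have hmM : τ xm ≤ τ xM := hmax xm hxm
  have hαβ : 0 < β - α := by linarith
  have hinside : ∀ t, α ≤ t → t ≤ β → pt A T t ∈ interior S.region := by
    intro t h1 h2
    rcases lt_or_ge t (τ xM) with h3 | h3
    · apply hτv xM hxM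
      rw [mem_openSegment_iff]
      refine ⟨(t - 1) / (τ xM - 1), div_pos (by linarith) (by linarith), ?_, ?_⟩
      · rw [div_lt_one (by linarith)]; linarith
      · have h5 := pt_pt_pt A T 1 (τ xM) ((t - 1) / (τ xM - 1))
        rw [pt_one, ← hτe xM hxM, div_mul_cancel₀ _ (by linarith : τ xM - 1 ≠ 0)] at h5
        rw [h5]; congr 1; ring
    · exact hβi t h3 h2
  set A1 := pt A T α with hA1
  set B1 := pt A T β with hB1
  set D := B1 - A1 with hD
  have hDd : D = (β - α) • d := by rw [hD, hB1, hA1, pt_sub_pt]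
  have hD0 : D ≠ 0 := by
    rw [hDd]; exact smul_ne_zero hαβ.ne' hd0
  have hA1B1 : A1 ≠ B1 := fun h => hD0 (by rw [hD, h, sub_self])
  have hseg1 : segment ℝ A1 B1 ⊆ interior S.region := by
    intro z hz
    rw [mem_segment_iff] at hz
    obtain ⟨t, t0, t1, rfl⟩ := hz
    rw [hA1, hB1, pt_pt_pt]
    apply hinside
    · have := mul_nonneg t0 hαβ.le
      linarith
    · nlinarith
  set u : ℂ → ℝ := fun x => (τ x - α) / (β - α) with hu
  have hux : ∀ x ∈ X, x = pt A1 B1 (u x) := by
    intro x hx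
    rw [hA1, hB1, pt_pt_pt, hu]
    simp only
    rw [div_mul_cancel₀ _ hαβ.ne']
    have : α + (τ x - α) = τ x := by ring
    rw [this]; exact hτe x hx
  have hu0 : ∀ x ∈ X, 0 < u x := fun x hx => div_pos (by linarith [hmin x hx]) hαβ
  have hu1 : ∀ x ∈ X, u x < 1 := by
    intro x hx
    rw [hu]; simp only
    rw [div_lt_one hαβ]
    linarith [hmax x hx]
  have hinj : ∀ x ∈ X, ∀ y ∈ X, u x = u y → x = y := by
    intro x hx y hy h
    rw [hux x hx, hux y hy, h]
  -- the gap
  obtain ⟨γ, hγ, hgap, hg0, hg1⟩ : ∃ γ > 0, (∀ x ∈ X, ∀ y ∈ X, u x < u y → γ ≤ u y - u x) ∧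
      (∀ x ∈ X, γ ≤ u x) ∧ (∀ x ∈ X, γ ≤ 1 - u x) := by
    obtain ⟨γ1, hγ1, h1⟩ : ∃ γ1 > 0, ∀ x ∈ X, ∀ y ∈ X, u x < u y → γ1 ≤ u y - u x := by
      set DD := (X ×ˢ X).filter (fun x => u x.1 < u x.2) with hDD
      rcases DD.eq_empty_or_nonempty with h | h
      · refine ⟨1, one_pos, ?_⟩
        intro i hi l hl hlt
        have : (i, l) ∈ DD := Finset.mem_filter.2 ⟨Finset.mem_product.2 ⟨hi, hl⟩, hlt⟩
        rw [h] at this
        exact absurd this (Finset.notMem_empty _)
      · obtain ⟨x, hx, hmin'⟩ := Finset.exists_min_image DD (fun x => u x.2 - u x.1) h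
        refine ⟨u x.2 - u x.1, sub_pos.2 (Finset.mem_filter.1 hx).2, ?_⟩
        intro i hi l hl hlt
        exact hmin' (i, l) (Finset.mem_filter.2 ⟨Finset.mem_product.2 ⟨hi, hl⟩, hlt⟩)
    refine ⟨min γ1 (min (u xm) (1 - u xM)), ?_, ?_, ?_, ?_⟩
    · have := hu0 xm hxm
      have := hu1 xM hxM
      exact lt_min hγ1 (lt_min (by assumption) (by linarith))
    · intro x hx y hy h
      exact (min_le_left _ _).trans (h1 x hx y hy h)
    · intro x hx
      refine (min_le_right _ _).trans ((min_le_left _ _).trans ?_)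
      exact div_le_div_of_nonneg_right (by linarith [hmin x hx]) hαβ.le
    · intro x hx
      refine (min_le_right _ _).trans ((min_le_right _ _).trans ?_)
      have : u x ≤ u xM := div_le_div_of_nonneg_right (by linarith [hmax x hx]) hαβ.le
      linarith
  -- the counting of a subfamily with points at height `η`
  have hcount : ∀ (Y : Finset ℂ) (w : ℂ) (a b : ℂ → ℝ), Y ⊆ X →
      segment ℝ (A1 + w) (B1 + w) ⊆ S.region →
      (∀ x ∈ Y, |a x - u x| < γ / 3) → (∀ x ∈ Y, |b x - u x| < γ / 3) →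
      (∀ x ∈ Y, pt A1 B1 (a x) + w ∈ V) → (∀ x ∈ Y, pt A1 B1 (b x) + w ∉ V) →
      Y.card ≤ 80 * n * (k + 1) := by
    intro Y w a b hY hsegw ha hb hal hbd
    have hpt : ∀ t : ℝ, pt (A1 + w) (B1 + w) t = pt A1 B1 t + w := by
      intro t; unfold pt; simp only [Complex.real_smul]; ring
    refine S.alt_count (p := p) (A := A1 + w) (B := B1 + w) ?_ hsegw k Y a b ?_ ?_ ?_ ?_ ?_ ?_ ?_
    · intro h; exact hA1B1 (add_right_cancel h)
    · intro x hx
      have := abs_lt.1 (ha x hx); have := hg0 x (hY hx); linarith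
    · intro x hx
      have := abs_lt.1 (ha x hx); have := hg1 x (hY hx); linarith
    · intro x hx
      have := abs_lt.1 (hb x hx); have := hg0 x (hY hx); linarith
    · intro x hx
      have := abs_lt.1 (hb x hx); have := hg1 x (hY hx); linarith
    · intro x hx; rw [hpt]; exact hal x hx
    · intro x hx; rw [hpt]; exact hbd x hx
    · intro x hx y hy hxy
      have hne' : u x ≠ u y := fun h => hxy (hinj x (hY hx) y (hY hy) h)
      have h1 := abs_lt.1 (ha x hx)
      have h2 := abs_lt.1 (hb x hx)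
      have h3 := abs_lt.1 (ha y hy)
      have h4 := abs_lt.1 (hb y hy)
      rcases lt_or_gt_of_ne hne' with h | h
      · have := hgap x (hY hx) y (hY hy) h
        left
        refine ⟨?_, ?_, ?_, ?_⟩ <;> linarith [h1.1, h1.2, h2.1, h2.2, h3.1, h3.2, h4.1, h4.2]
      · have := hgap y (hY hy) x (hY hx) h
        right
        refine ⟨?_, ?_, ?_, ?_⟩ <;> linarith [h1.1, h1.2, h2.1, h2.2, h3.1, h3.2, h4.1, h4.2]
  -- conic radii
  have hconic : ∀ x ∈ X, ∃ r > 0, Metric.ball x r ⊆ interior S.region ∧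
      ∀ y, dist y x < r → ∀ t : ℝ, 0 < t → t ≤ 1 → (y ∈ V ↔ pt x y t ∈ V) :=
    fun x hx => S.conic p k (hX x hx).2.1
  choose! r hr0 hrball hrc using hconic
  have hcases : ∀ x ∈ X, (∃ c : ℝ, c ≠ 0 ∧ |c| * ‖D‖ < r x ∧ x + c • D ∈ V) ∨
      ∃ s : Bool, ∃ y y', dist y x < r x ∧ dist y' x < r x ∧ 0 < sg s * cr D (y - x) ∧
        0 < sg s * cr D (y' - x) ∧ y ∈ V ∧ y' ∉ V := by
    intro x hx
    refine S.corner_cases hD0 (hr0 x hx) (hrball x hx) (hX x hx).2.2.1 ?_
    rintro ⟨ρ, hρ, hf⟩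
    apply (hX x hx).2.2.2
    refine ⟨ρ, hρ, ?_⟩
    intro y hy
    rw [hf y hy]
    constructor
    · rintro ⟨c, hc⟩
      exact ⟨c * (β - α), by rw [hc, hDd, smul_smul]⟩
    · rintro ⟨c, hc⟩
      exact ⟨c / (β - α), by rw [hc, hDd, smul_smul, div_mul_cancel₀ _ hαβ.ne']⟩
  set X0 := X.filter (fun x => ∃ c : ℝ, c ≠ 0 ∧ |c| * ‖D‖ < r x ∧ x + c • D ∈ V) with hX0
  set XS : Bool → Finset ℂ := fun s => X.filter (fun x => ∃ y y', dist y x < r x ∧
    dist y' x < r x ∧ 0 < sg s * cr D (y - x) ∧ 0 < sg s * cr D (y' - x) ∧ y ∈ V ∧ y' ∉ V) with hXS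
  have hDn : 0 < ‖D‖ := norm_pos_iff.2 hD0
  have hγ3 : 0 < γ / 3 := by positivity
  -- on the line
  have c0 : X0.card ≤ 80 * n * (k + 1) := by
    have hex : ∀ x ∈ X0, ∃ a : ℝ, |a - u x| < γ / 3 ∧ pt A1 B1 a ∈ V := by
      intro x hx
      obtain ⟨hxX, c, hc0, hcr, hcV⟩ := Finset.mem_filter.1 hx
      obtain ⟨t, t0, t1, t2⟩ := exists_small ((c : ℝ) : ℂ) hγ3 1 one_pos
      refine ⟨u x + t * c, ?_, ?_⟩
      · have e : u x + t * c - u x = t * c := by ring
        rw [e, abs_mul, abs_of_pos t0]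
        rw [Complex.norm_real, Real.norm_eq_abs] at t2
        exact t2
      · have h1 := (hrc x hxX (x + c • D) (by
          rw [dist_eq_norm, add_sub_cancel_left, norm_smul, Real.norm_eq_abs]; exact hcr)
          t t0 t1.le).1 hcV
        have e : pt x (x + c • D) t = pt A1 B1 (u x + t * c) := by
          conv_lhs => rw [hux x hxX]
          unfold pt
          rw [hD]
          simp only [Complex.real_smul]; push_cast; ring
        rw [e] at h1
        exact h1
    choose! a ha1 ha2 using hex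
    refine hcount X0 0 a u (Finset.filter_subset _ _) ?_ ha1 ?_ ?_ ?_
    · rw [add_zero, add_zero]; exact hseg1.trans interior_subset
    · intro x _; rw [sub_self, abs_zero]; exact hγ3
    · intro x hx; rw [add_zero]; exact ha2 x hx
    · intro x hx
      rw [add_zero, ← hux x (Finset.filter_subset _ _ hx)]
      intro hxV
      have hx' := hX x (Finset.filter_subset _ _ hx)
      exact hx'.2.2.1.2 (mem_interior_iff_mem_nhds.2 (S.lev_int_open hx'.2.1 hxV))
  -- beside the line
  have cs : ∀ s, (XS s).card ≤ 80 * n * (k + 1) := by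
    intro s
    set ν : ℂ := sg s • (I * D) with hν
    have hcrν : sg s * cr D ν = ‖D‖ ^ 2 := by
      rw [hν, cr_smul_right, cr_I_self, ← mul_assoc, sg_mul_self, one_mul]
    have hcrν0 : cr D ν ≠ 0 := by
      intro h; rw [h, mul_zero] at hcrν
      have : 0 < ‖D‖ ^ 2 := by positivity
      linarith
    -- small heights work
    have hsmall : ∀ x ∈ X, ∀ y, dist y x < r x → 0 < sg s * cr D (y - x) →
        ∀ᶠ η in 𝓝[>] (0 : ℝ), ∃ a : ℝ, |a - u x| < γ / 3 ∧ (y ∈ V ↔ pt A1 B1 a + η • ν ∈ V) := by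
      intro x hx y hy hys
      set ay := cr (y - x) ν / cr D ν with hay
      set by' := cr D (y - x) / cr D ν with hby
      have hdec : y - x = ay • D + by' • ν := decomp hcrν0 (y - x)
      have hbpos : 0 < by' := by
        have : by' = (sg s * cr D (y - x)) / (sg s * cr D ν) := by
          rw [hby, mul_div_mul_left _ _ (sg_ne s)]
        rw [this, hcrν]; positivity
      have h1 : ∀ᶠ η in 𝓝[>] (0 : ℝ), η < by' :=
        mem_nhdsWithin_of_mem_nhds (Iio_mem_nhds hbpos)
      have h2 : ∀ᶠ η in 𝓝[>] (0 : ℝ), |η * (ay / by')| < γ / 3 := by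
        have hc : ContinuousAt (fun η : ℝ => |η * (ay / by')|) 0 := by fun_prop
        have : ∀ᶠ η in 𝓝 (0 : ℝ), |η * (ay / by')| < γ / 3 := by
          apply hc.eventually_lt continuousAt_const
          simpa using hγ3
        exact mem_nhdsWithin_of_mem_nhds this
      filter_upwards [h1, h2, self_mem_nhdsWithin] with η g1 g2 g3
      have g3 : 0 < η := g3
      refine ⟨u x + η * (ay / by'), ?_, ?_⟩
      · have e : u x + η * (ay / by') - u x = η * (ay / by') := by ring
        rw [e]; exact g2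
      · have h3 := hrc x hx y hy (η / by') (by positivity) (by
          rw [div_le_one hbpos]; exact g1.le)
        have e : pt x y (η / by') = pt A1 B1 (u x + η * (ay / by')) + η • ν := by
          have e1 : pt x y (η / by') = x + (η / by') • (y - x) := rfl
          have e2 : (η / by') • (ay • D + by' • ν) = (η * (ay / by')) • D + η • ν := by
            rw [smul_add, smul_smul, smul_smul, div_mul_cancel₀ _ hbpos.ne']
            congr 2; ring
          rw [e1, hdec, e2]
          conv_lhs => rw [hux x hx]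
          unfold pt
          rw [hD]
          simp only [Complex.real_smul]; push_cast; ring
        rw [e] at h3
        exact h3
    have hall : ∀ᶠ η in 𝓝[>] (0 : ℝ), ∀ x ∈ XS s, ∃ a b : ℝ, |a - u x| < γ / 3 ∧
        |b - u x| < γ / 3 ∧ pt A1 B1 a + η • ν ∈ V ∧ pt A1 B1 b + η • ν ∉ V := by
      rw [Filter.eventually_all_finset]
      intro x hx
      obtain ⟨hxX, y, y', h1, h2, h3, h4, h5, h6⟩ := Finset.mem_filter.1 hx
      filter_upwards [hsmall x hxX y h1 h3, hsmall x hxX y' h2 h4] with η g1 g2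
      obtain ⟨a, ga, ga'⟩ := g1
      obtain ⟨b, gb, gb'⟩ := g2
      exact ⟨a, b, ga, gb, ga'.1 h5, fun h => h6 (gb'.2 h)⟩
    have hsegη : ∀ᶠ η in 𝓝[>] (0 : ℝ), segment ℝ (A1 + η • ν) (B1 + η • ν) ⊆ S.region := by
      obtain ⟨δ, hδ, hth⟩ := (isCompact_segment A1 B1).exists_thickening_subset_open
        isOpen_interior hseg1
      have hc : ContinuousAt (fun η : ℝ => ‖η • ν‖) 0 := by fun_prop
      have : ∀ᶠ η in 𝓝 (0 : ℝ), ‖η • ν‖ < δ := by
        apply hc.eventually_lt continuousAt_const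
        simpa using hδ
      filter_upwards [mem_nhdsWithin_of_mem_nhds this] with η hη
      intro z hz
      rw [mem_segment_iff] at hz
      obtain ⟨t, t0, t1, rfl⟩ := hz
      apply interior_subset
      apply hth
      rw [Metric.mem_thickening_iff]
      refine ⟨pt A1 B1 t, pt_mem_segment t0 t1, ?_⟩
      have e : pt (A1 + η • ν) (B1 + η • ν) t - pt A1 B1 t = η • ν := by
        unfold pt; simp only [Complex.real_smul]; ring
      rw [dist_eq_norm, e]
      exact hη
    obtain ⟨η, hη1, hη2⟩ := (hall.and hsegη).exists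
    choose! a b ha hb haV hbV using hη1
    exact hcount (XS s) (η • ν) a b (Finset.filter_subset _ _) hη2 ha hb haV hbV
  have hcover : X ⊆ X0 ∪ (XS true ∪ XS false) := by
    intro x hx
    rcases hcases x hx with h | ⟨s, h⟩
    · exact Finset.mem_union_left _ (Finset.mem_filter.2 ⟨hx, h⟩)
    · apply Finset.mem_union_right
      cases s
      · exact Finset.mem_union_right _ (Finset.mem_filter.2 ⟨hx, h⟩)
      · exact Finset.mem_union_left _ (Finset.mem_filter.2 ⟨hx, h⟩)
  have h1 := Finset.card_le_card hcover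
  have h2 := Finset.card_union_le X0 (XS true ∪ XS false)
  have h3 := Finset.card_union_le (XS true) (XS false)
  have h4 := cs true
  have h5 := cs false
  have e1 : 240 * n * (k + 1) = 80 * n * (k + 1) + (80 * n * (k + 1) + 80 * n * (k + 1)) := by
    ring
  omega

end Run7.h395
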