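import Pool.Agent.Run7.h395.Pairs

/-!
# The counting induction
-/

open Set Topology Filter Complex

noncomputable section

namespace Run7.h395

variable {n : ℕ} (S : SimplePolygon n)

/-- items: `(edge, vertex, side, parameter)` -/
abbrev Item (n : ℕ) : Type := ZMod n × ZMod n × Bool × ℝ

/-- the label of an item -/
def lab {n : ℕ} (i : Item n) : ZMod n × ZMod n × Bool := (i.1, i.2.1, i.2.2.1)

/-- the parameter of an item -/
def tt {n : ℕ} (i : Item n) : ℝ := i.2.2.2

lemma item_ext {n : ℕ} {i k : Item n} (h : lab i = lab k) (h' : tt i = tt k) : i = k := by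
  obtain ⟨a, b, c, d⟩ := i
  obtain ⟨a', b', c', d'⟩ := k
  simp only [lab, tt, Prod.mk.injEq] at *
  obtain ⟨h1, h2, h3⟩ := h
  exact ⟨h1, h2, h3, h'⟩

/-- a separated family of lit window points -/
def SimplePolygon.Datum (p D : ℂ) (j : ℕ) (F : Finset (Item n)) : Prop :=
  (∀ i ∈ F, 0 < tt i ∧ tt i < 1 ∧ S.ep i.1 (tt i) ∈ S.lev p j ∧
    Win S.region D (S.ep i.1 (tt i)) (S.v i.2.1) (sg i.2.2.1) ∧
    S.BackDark p j i.2.1 (sg i.2.2.1) ∧ S.GoodLabel D (lab i)) ∧
  (∀ i ∈ F, ∀ k ∈ F, lab i = lab k → tt i < tt k →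
    ∃ τ, tt i < τ ∧ τ < tt k ∧ S.ep i.1 τ ∉ S.lev p j)

/-- counting shots with pairwise disjoint shadows -/
theorem SimplePolygon.shots_count {p D : ℂ} {j N : ℕ} {α : Type*} [DecidableEq α] (I : Finset α)
    (e T : α → ZMod n) (b : α → Bool) (tq ts : α → ℝ) (y z T1 : α → ℂ)
    (hsh : ∀ i ∈ I, Shot S p D j (e i) (T i) (b i) (tq i) (ts i) (y i) (z i) (T1 i))
    (hB : ∀ i ∈ I, ∀ k ∈ I, i ≠ k → e i = e k → T i = T k → b i = b k →
      ∀ w ∈ segment ℝ (pt (y i) (z i) (ts i)) (z i),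
        w ∉ kap S.region (S.ep (e k) (tq k)) (S.v (T k)))
    (IH : ∀ F : Finset (Item n), S.Datum p D j F → F.card ≤ N) : I.card ≤ N + 4 * n := by
  classical
  set g : α → Item n := fun i => (e i, T i, b i, tq i) with hg
  set A := I.filter (fun i => ∀ k ∈ I, k ≠ i → lab (g k) ≠ lab (g i)) with hA
  set F := I.filter (fun i => ¬ ∀ k ∈ I, k ≠ i → lab (g k) ≠ lab (g i)) with hF
  have hcard : I.card = A.card + F.card := by
    rw [hA, hF, Finset.card_filter_add_card_filter_not]
  -- two members with the same label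
  have htwo : ∀ i ∈ I, ∀ k ∈ I, i ≠ k → lab (g i) = lab (g k) →
      tq i ≠ tq k ∧ (∃ θ : ℝ, 0 < θ ∧ θ < 1 ∧ S.ep (e i) (tq i + θ * (tq k - tq i)) ∉ S.lev p j) ∧
      S.BackDark p j (T i) (sg (b i)) := by
    intro i hi k hk hik hlab
    simp only [lab, hg, Prod.mk.injEq] at hlab
    obtain ⟨h1, h2, h3⟩ := hlab
    have s1 := hsh i hi
    have s2 := hsh k hk
    have b1 := hB i hi k hk hik h1 h2 h3
    have b2 := hB k hk i hi (Ne.symm hik) h1.symm h2.symm h3.symm
    rw [← h1, ← h2, ← h3] at s2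
    rw [← h1, ← h2] at b1
    exact S.two_shots s1 s2 b1 b2
  have hA4 : A.card ≤ 4 * n := by
    have himg : (A.image (fun i => lab (g i))).card = A.card := by
      apply Finset.card_image_of_injOn
      intro i hi k hk hik
      have hi' := Finset.mem_filter.1 hi
      have hk' := Finset.mem_filter.1 hk
      by_contra hne
      exact hi'.2 k hk'.1 (Ne.symm hne) hik.symm
    rw [← himg]
    apply S.label_count D
    intro l hl
    obtain ⟨i, hi, rfl⟩ := Finset.mem_image.1 hl
    exact Shot.good S (hsh i (Finset.mem_filter.1 hi).1)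
  have hinj : Set.InjOn g F := by
    intro i hi k hk hik
    have hi' := Finset.mem_filter.1 hi
    have hk' := Finset.mem_filter.1 hk
    by_contra hne
    have := (htwo i hi'.1 k hk'.1 hne (by rw [hik])).1
    apply this
    have h4 := congrArg tt hik
    exact h4
  have hFcard : F.card ≤ N := by
    rw [← Finset.card_image_of_injOn hinj]
    apply IH
    constructor
    · intro x hx
      obtain ⟨i, hi, rfl⟩ := Finset.mem_image.1 hx
      have hi' := Finset.mem_filter.1 hi
      have s1 := hsh i hi'.1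
      have hex := hi'.2
      push Not at hex
      obtain ⟨k, hk, hki, hlab⟩ := hex
      have h2 := (htwo i hi'.1 k hk (Ne.symm hki) hlab.symm).2.2
      exact ⟨s1.tq0, s1.tq1, s1.lit, s1.win, h2, Shot.good S s1⟩
    · intro x hx x' hx' hlab hlt
      obtain ⟨i, hi, rfl⟩ := Finset.mem_image.1 hx
      obtain ⟨k, hk, rfl⟩ := Finset.mem_image.1 hx'
      have hi' := Finset.mem_filter.1 hi
      have hk' := Finset.mem_filter.1 hk
      have hik : i ≠ k := by
        rintro rfl
        exact lt_irrefl _ hlt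
      obtain ⟨-, ⟨θ, h0, h1, hd⟩, -⟩ := htwo i hi'.1 k hk'.1 hik hlab
      have hlt' : tq i < tq k := hlt
      refine ⟨tq i + θ * (tq k - tq i), ?_, ?_, hd⟩
      · change tq i < _
        have := mul_pos h0 (sub_pos.2 hlt')
        linarith
      · change _ < tq k
        have : tq k - (tq i + θ * (tq k - tq i)) = (1 - θ) * (tq k - tq i) := by ring
        have h5 := mul_pos (show (0 : ℝ) < 1 - θ by linarith) (sub_pos.2 hlt')
        linarith
  omega

/-- a window point on an edge together with a lit source -/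
lemma SimplePolygon.source_side {e T e' : ZMod n} {t t0 : ℝ} (h0 : 0 < t) (h1 : t < 1)
    (h0' : 0 < t0) (h1' : t0 < 1) (hT : segment ℝ (S.ep e t) (S.v T) ⊆ S.region)
    (hTvis : svis S.region (S.ep e t) (S.v T))
    (hvis : svis S.region (S.ep e' t0) (S.ep e t)) :
    cr (S.ep e t - S.ep e' t0) (S.v T - S.ep e' t0) ≠ 0 := by
  intro hcr
  have hym := S.ep_mem h0 h1 (i := e)
  have hqm := S.ep_mem h0' h1' (i := e')
  set y := S.ep e t with hy
  set q := S.ep e' t0 with hq
  have hq1 := S.svis_side hym hvis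
  have hT1 := S.svis_side hym (svis_symm hTvis)
  have hqy : q - y ≠ 0 := by
    intro h; rw [h, cr_zero_right] at hq1; simp at hq1
  have hcr' : cr (q - y) (S.v T - y) = 0 := by
    have : cr (q - y) (S.v T - y) = - cr (y - q) (S.v T - q) := by
      unfold cr; simp only [Complex.sub_re, Complex.sub_im]; ring
    rw [this, hcr, neg_zero]
  obtain ⟨ν, hν⟩ := parallel_of_cr hqy hcr'
  have hν0 : 0 < ν := by
    have e1 : S.side e * cr (S.dir e) (S.v T - y) = ν * (S.side e * cr (S.dir e) (q - y)) := by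
      rw [hν, cr_smul_right]; ring
    rw [e1] at hT1
    exact (mul_pos_iff_of_pos_right hq1).1 hT1
  rcases lt_trichotomy ν 1 with h | h | h
  · have hmem : S.v T ∈ openSegment ℝ q y := by
      rw [openSegment_symm, mem_openSegment_iff]
      refine ⟨ν, hν0, h, ?_⟩
      have : S.v T = y + (S.v T - y) := by ring
      rw [this, hν]; rfl
    exact frontier_not_int (S.v_frontier T) (hvis hmem)
  · rw [h, one_smul, sub_left_inj] at hν
    have hm : S.v T ∈ S.oedge e' := by rw [hν]; exact hqm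
    exact S.v_not_oedge T e' hm
  · have hmem : q ∈ openSegment ℝ y (S.v T) := by
      rw [mem_openSegment_iff]
      refine ⟨1 / ν, by positivity, by rw [div_lt_one hν0]; exact h, ?_⟩
      have e3 : q - y = (1 / ν) • (S.v T - y) := by
        rw [hν, smul_smul, one_div_mul_cancel hν0.ne', one_smul]
      have : q = y + (q - y) := by ring
      rw [this, e3]; rfl
    have hc := S.oedge_cross hqm hmem hT
    have hc2 := S.svis_side hqm (svis_symm hvis)
    rw [hν, cr_smul_right] at hc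
    have hc3 := (mul_eq_zero.1 hc).resolve_left hν0.ne'
    have e4 : cr (S.dir e') (y - q) = - cr (S.dir e') (q - y) := by
      unfold cr; simp only [Complex.sub_re, Complex.sub_im]; ring
    rw [e4, hc3] at hc2
    simp at hc2

theorem SimplePolygon.item_shot {p D : ℂ} {j : ℕ} {F : Finset (Item n)}
    (hF : S.Datum p D (j + 1) F) {i : Item n} (hi : i ∈ F)
    (hhi : ∃ k ∈ F, lab k = lab i ∧ tt i < tt k) (hlo : ∃ k ∈ F, lab k = lab i ∧ tt k < tt i)
    (hnp : ¬ svis S.region p (S.ep i.1 (tt i))) :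
    ∃ (b' : Bool) (τ : ℝ) (e' : ZMod n) (tq ts : ℝ), 0 < τ ∧ τ < 1 ∧
      0 < (S.side i.1 * sg b') * (τ - tt i) ∧
      (∀ k ∈ F, lab k = lab i → 0 < (S.side i.1 * sg b') * (tt k - tt i) →
        0 < (S.side i.1 * sg b') * (tt k - τ)) ∧
      (∀ r, 0 ≤ r → r ≤ 1 → Win S.region D (S.ep i.1 (tt i + r * (τ - tt i))) (S.v i.2.1)
        (sg i.2.2.1)) ∧
      ((∃ T', Shot S p D j e' T' b' tq ts (S.ep i.1 (tt i)) (S.ep i.1 τ) (S.v i.2.1)) ∨
        Spec S e' b' tq ts (S.ep i.1 (tt i)) (S.ep i.1 τ)) := by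
  classical
  obtain ⟨ht0, ht1, hlit, hwin, hback, hgood⟩ := hF.1 i hi
  obtain ⟨hreg, hp | ⟨r0, hr1, ⟨e', hr2⟩, hr3⟩⟩ := hlit
  · exact absurd hp hnp
  rw [S.mem_oedge_iff] at hr2
  obtain ⟨t0, h00, h01, rfl⟩ := hr2
  set e := i.1 with he
  set T := i.2.1 with hTdef
  set t := tt i with ht
  have hne := S.source_side ht0 ht1 h00 h01 hwin.seg hwin.vis hr3
  obtain ⟨b', hb'⟩ := exists_sg hne
  set σ := S.side e * sg b' with hσ
  have hσpm : σ = 1 ∨ σ = -1 := by
    rcases S.side_pm e with h | h <;> rcases sg_pm b' with h' | h' <;> rw [hσ, h, h'] <;> norm_num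
  -- nearest neighbour in direction σ
  set K := F.filter (fun k => lab k = lab i ∧ 0 < σ * (tt k - t)) with hK
  have hKne : K.Nonempty := by
    rcases hσpm with h | h
    · obtain ⟨k, hk, hl, hlt⟩ := hhi
      refine ⟨k, Finset.mem_filter.2 ⟨hk, hl, ?_⟩⟩
      rw [h]; linarith
    · obtain ⟨k, hk, hl, hlt⟩ := hlo
      refine ⟨k, Finset.mem_filter.2 ⟨hk, hl, ?_⟩⟩
      rw [h]; linarith
  obtain ⟨k, hkK, hkmin⟩ := Finset.exists_min_image K (fun k => σ * (tt k - t)) hKne
  obtain ⟨hkF, hklab, hkpos⟩ := Finset.mem_filter.1 hkK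
  obtain ⟨hk0, hk1, -, hkwin, -, -⟩ := hF.1 k hkF
  have hke : k.1 = e := congrArg (fun l => l.1) hklab
  have hkT : k.2.1 = T := congrArg (fun l => l.2.1) hklab
  have hkb : k.2.2.1 = i.2.2.1 := congrArg (fun l => l.2.2) hklab
  rw [hke, hkT, hkb] at hkwin
  -- the dark parameter
  obtain ⟨τ, hτ1, hτ2, hτd⟩ : ∃ τ, 0 < σ * (τ - t) ∧ 0 < σ * (tt k - τ) ∧
      S.ep e τ ∉ S.lev p (j + 1) := by
    rcases hσpm with h | h
    · rw [h] at hkpos
      obtain ⟨τ, h1, h2, h3⟩ := hF.2 i hi k hkF hklab.symm (by linarith)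
      exact ⟨τ, by rw [h]; linarith, by rw [h]; linarith, h3⟩
    · rw [h] at hkpos
      obtain ⟨τ, h1, h2, h3⟩ := hF.2 k hkF i hi hklab (by linarith)
      rw [hke] at h3
      exact ⟨τ, by rw [h]; linarith, by rw [h]; linarith, h3⟩
  have hτ01 : 0 < τ ∧ τ < 1 := by
    rcases hσpm with h | h
    · rw [h] at hτ1 hτ2
      constructor <;> linarith
    · rw [h] at hτ1 hτ2
      constructor <;> linarith
  have hlc : cr (S.v T - S.v e) (S.dir e) ≠ 0 := by
    have hg := hgood.1
    intro h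
    apply hg
    change cr (S.dir e) (S.v T - S.v e) = 0
    rw [cr_swap, h, neg_zero]
  -- windows in between
  have hwinb : ∀ r, 0 ≤ r → r ≤ 1 → Win S.region D (S.ep e (t + r * (τ - t))) (S.v T)
      (sg i.2.2.1) := by
    intro r h0 h1
    have hne : tt k - t ≠ 0 := by
      intro h; rw [h] at hkpos; simp at hkpos
    have hρ : S.ep e (t + r * (τ - t)) =
        pt (S.ep e t) (S.ep e (tt k)) (r * ((τ - t) / (tt k - t))) := by
      rw [S.pt_ep]
      congr 1
      field_simp
    rw [hρ]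
    have hr1 : 0 < (τ - t) / (tt k - t) := by
      have : (τ - t) / (tt k - t) = (σ * (τ - t)) / (σ * (tt k - t)) := by
        have hσ0 : σ ≠ 0 := by rcases hσpm with h | h <;> rw [h] <;> norm_num
        rw [mul_div_mul_left _ _ hσ0]
      rw [this]; positivity
    have hr2 : (τ - t) / (tt k - t) < 1 := by
      have : (τ - t) / (tt k - t) = (σ * (τ - t)) / (σ * (tt k - t)) := by
        have hσ0 : σ ≠ 0 := by rcases hσpm with h | h <;> rw [h] <;> norm_num
        rw [mul_div_mul_left _ _ hσ0]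
      rw [this, div_lt_one hkpos]
      have : σ * (tt k - t) = σ * (tt k - τ) + σ * (τ - t) := by ring
      rw [this]; linarith
    apply Win.between S.reg hwin hkwin (S.ep_seg' ht0.le ht1.le hk0.le hk1.le)
    · intro h
      have e1 : ori (S.ep e t) (S.ep e (tt k)) (S.v T) =
          -(tt k - t) * cr (S.v T - S.v e) (S.dir e) := by
        unfold ori
        rw [S.ep_sub, cr_smul_left, cr_swap, S.cr_ep e (S.v T) 0 t]
        ring
      rw [e1] at h
      rcases mul_eq_zero.1 h with h' | h'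
      · exact hne (by linarith)
      · exact hlc h'
    · positivity
    · nlinarith
  have hseg_mem : ∀ w ∈ segment ℝ (S.ep e t) (S.ep e τ), ∃ r, 0 ≤ r ∧ r ≤ 1 ∧
      w = S.ep e (t + r * (τ - t)) := by
    intro w hw
    rw [mem_segment_iff] at hw
    obtain ⟨r, h0, h1, rfl⟩ := hw
    exact ⟨r, h0, h1, S.pt_ep e t τ r⟩
  have hwinseg : ∀ w ∈ segment ℝ (S.ep e t) (S.ep e τ),
      Win S.region D w (S.v T) (sg i.2.2.1) := by
    intro w hw
    obtain ⟨r, h0, h1, rfl⟩ := hseg_mem w hw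
    exact hwinb r h0 h1
  have hzy : S.ep e τ - S.ep e t = (τ - t) • S.dir e := S.ep_sub e t τ
  have hoed : ∀ w ∈ segment ℝ (S.ep e t) (S.ep e τ), w ∈ S.oedge e :=
    (convex_openSegment _ _).segment_subset (S.ep_mem ht0 ht1) (S.ep_mem hτ01.1 hτ01.2)
  have hsideb : σ * S.side e = sg b' := by
    have : S.side e * S.side e = 1 := by rcases S.side_pm e with h | h <;> rw [h] <;> norm_num
    rw [hσ]
    linear_combination (sg b') * this
  have hheight : ∀ x : ℂ, sg b' * cr (S.ep e τ - S.ep e t) x =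
      (σ * (τ - t)) * (S.side e * cr (S.dir e) x) := by
    intro x
    rw [hzy, cr_smul_left, ← hsideb]
    ring
  have hTheight := S.svis_side (S.ep_mem ht0 ht1 (i := e)) (svis_symm hwin.vis)
  have tgt : Tgt S p D j b' (S.ep e t) (S.ep e τ) (S.v T) := by
    refine ⟨S.ep_seg' ht0.le ht1.le hτ01.1.le hτ01.2.le, ?_, hτd, ?_, ?_, ?_⟩
    · intro w hw
      rw [hzy]
      have := fr_smul (S.side_fr (hoed w hw)) hτ1
      rw [hsideb] at this
      exact this
    · rw [hheight]
      exact (mul_pos hτ1 hTheight).le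
    · intro w hw
      have := hwinseg w hw
      exact ⟨this.seg, this.ne⟩
    · right
      exact ⟨T, i.2.2.1, rfl, hwinseg, hback⟩
  obtain ⟨tq, ts, hres⟩ := S.make_shot tgt (Or.inr ⟨T, i.2.2.1, rfl, hwinseg, hback⟩) h00 h01 hr1
    hr3 (by
      rw [hheight]
      exact mul_pos hτ1 (S.svis_side (S.ep_mem ht0 ht1 (i := e)) hr3)) hb' hwin.joined
  refine ⟨b', τ, e', tq, ts, hτ01.1, hτ01.2, hτ1, ?_, hwinb, hres⟩
  intro k' hk' hl' hpos'
  have h1 := hkmin k' (Finset.mem_filter.2 ⟨hk', hl', hpos'⟩)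
  have h1' : σ * (tt k - t) ≤ σ * (tt k' - t) := h1
  have : σ * (tt k' - τ) = σ * (tt k' - t) - σ * (tt k - t) + σ * (tt k - τ) := by ring
  rw [this]; linarith

end Run7.h395
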