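import Pool.Agent.Run7.h395.Seg

/-!
# The region lit by diffuse reflections
-/

open Set Topology Filter Complex

noncomputable section

namespace Run7.h395

variable {n : ℕ} (S : SimplePolygon n)

/-- `S.lit p j`: the points of the polygon lit at time `j` from the light source `p` -/
def SimplePolygon.lit (p : ℂ) : ℕ → Set ℂ
  | 0 => {q | q ∈ S.region ∧ openSegment ℝ p q ⊆ interior S.region}
  | (j + 1) => {q | q ∈ S.region ∧ ∃ r ∈ SimplePolygon.lit p j,
      (∃ i, r ∈ openSegment ℝ (S.v i) (S.v (i + 1))) ∧ openSegment ℝ r q ⊆ interior S.region}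

/-- `S.V p k`: the region lit with at most `k` diffuse reflections -/
def SimplePolygon.V (p : ℂ) (k : ℕ) : Set ℂ := {q | ∃ j ≤ k, q ∈ S.lit p j}

theorem SimplePolygon.V_eq_lev (p : ℂ) (k : ℕ) : S.V p k = S.lev p (k + 1) := by
  induction k with
  | zero =>
    ext q
    constructor
    · rintro ⟨j, hj, hq⟩
      obtain rfl : j = 0 := by omega
      exact ⟨hq.1, Or.inl hq.2⟩
    · rintro ⟨h1, h2⟩
      refine ⟨0, le_rfl, h1, ?_⟩
      rcases h2 with h2 | ⟨r, hr, _⟩
      · exact h2
      · exact absurd hr (by simp [SimplePolygon.lev])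
  | succ k ih =>
    ext q
    constructor
    · rintro ⟨j, hj, hq⟩
      rcases j with _ | j
      · exact ⟨hq.1, Or.inl hq.2⟩
      · obtain ⟨h1, r, hr, hre, hrq⟩ := hq
        refine ⟨h1, Or.inr ⟨r, ?_, hre, hrq⟩⟩
        rw [← ih]
        exact ⟨j, by omega, hr⟩
    · rintro ⟨h1, h2⟩
      rcases h2 with h2 | ⟨r, hr, hre, hrq⟩
      · exact ⟨0, Nat.zero_le _, h1, h2⟩
      · rw [← ih] at hr
        obtain ⟨j, hj, hr⟩ := hr
        exact ⟨j + 1, by omega, h1, r, hr, hre, hrq⟩

/-- a segment inside the polygon enters and leaves the lit region at most `O((k+1) n)` times -/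
theorem SimplePolygon.stabbing (p : ℂ) (k : ℕ) (a b : ℂ) (hab : segment ℝ a b ⊆ S.region)
    (m : ℕ) (t : ℕ → ℝ) (h0 : 0 ≤ t 0) (h1 : t m ≤ 1) (hmono : ∀ i < m, t i < t (i + 1))
    (halt : ∀ i < m, (pt a b (t i) ∈ S.lev p (k + 1) ↔ pt a b (t (i + 1)) ∉ S.lev p (k + 1))) :
    m ≤ 80 * n * (k + 1) + 1 := by
  classical
  -- monotonicity
  have hmono' : ∀ i l, i ≤ l → l ≤ m → t i ≤ t l := by
    intro i l hil
    induction l, hil using Nat.le_induction with
    | base => intro _; exact le_rfl
    | succ l hl ih => intro hm; exact (ih (by omega)).trans (hmono l (by omega)).le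
  by_cases hab' : a = b
  · subst hab'
    rcases Nat.eq_zero_or_pos m with rfl | hm
    · omega
    · exfalso
      have := halt 0 hm
      have e : ∀ s, pt a a s = a := by intro s; simp [pt]
      rw [e, e] at this
      tauto
  -- the indices where lit points are followed by dark ones
  set I : Finset ℕ := (Finset.range m).filter (fun i => pt a b (t i) ∈ S.lev p (k + 1)) with hI
  have hcard : I.card ≤ 40 * n * (k + 1) := by
    refine S.pairs_count (p := p) hab' hab k I t (fun i => t (i + 1)) ?_ ?_ ?_ ?_ ?_ ?_
    · intro i hi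
      rw [hI, Finset.mem_filter, Finset.mem_range] at hi
      exact h0.trans (hmono' 0 i (Nat.zero_le _) hi.1.le)
    · intro i hi
      rw [hI, Finset.mem_filter, Finset.mem_range] at hi
      exact hmono i hi.1
    · intro i hi
      rw [hI, Finset.mem_filter, Finset.mem_range] at hi
      exact (hmono' (i + 1) m (by omega) le_rfl).trans h1
    · intro i hi
      rw [hI, Finset.mem_filter, Finset.mem_range] at hi
      exact hi.2
    · intro i hi
      rw [hI, Finset.mem_filter, Finset.mem_range] at hi
      exact (halt i hi.1).1 hi.2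
    · have key : ∀ i ∈ I, ∀ l ∈ I, i < l → t (i + 1) < t l := by
        intro i hi l hl hil
        rw [hI, Finset.mem_filter, Finset.mem_range] at hi hl
        rcases Nat.lt_or_ge (i + 1) l with h | h
        · have e1 := hmono (i + 1) (by omega)
          have e2 := hmono' (i + 1 + 1) l (by omega) hl.1.le
          linarith
        · exfalso
          have : l = i + 1 := by omega
          subst this
          exact (halt i hi.1).1 hi.2 hl.2
      intro i hi l hl hil
      rcases lt_or_gt_of_ne hil with h | h
      · exact Or.inl (key i hi l hl h)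
      · exact Or.inr (key l hl i hi h)
  -- the other indices
  have hJ : ((Finset.range m).filter (fun i => ¬ pt a b (t i) ∈ S.lev p (k + 1))).card ≤
      I.card + 1 := by
    have hsub : ((Finset.range m).filter (fun i => ¬ pt a b (t i) ∈ S.lev p (k + 1))) ⊆
        insert 0 (I.image (fun i => i + 1)) := by
      intro i hi
      rw [Finset.mem_filter, Finset.mem_range] at hi
      rw [Finset.mem_insert, Finset.mem_image]
      rcases i with _ | i
      · exact Or.inl rfl
      · right
        refine ⟨i, ?_, rfl⟩
        rw [hI, Finset.mem_filter, Finset.mem_range]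
        exact ⟨by omega, (halt i (by omega)).2 hi.2⟩
    have q1 := Finset.card_le_card hsub
    have q2 := Finset.card_insert_le 0 (I.image (fun i => i + 1))
    have q3 := Finset.card_image_le (s := I) (f := fun i : ℕ => i + 1)
    omega
  have hsum : ((Finset.range m).filter (fun i => pt a b (t i) ∈ S.lev p (k + 1))).card +
      ((Finset.range m).filter (fun i => ¬ pt a b (t i) ∈ S.lev p (k + 1))).card = m := by
    rw [Finset.card_filter_add_card_filter_not, Finset.card_range]
  rw [← hI] at hsum
  have e1 : 80 * n * (k + 1) = 40 * n * (k + 1) + 40 * n * (k + 1) := by ring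
  omega

end Run7.h395
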