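import Pool.Agent.Run7.h395.Lit

/-!
# Openness of lit sets on edges, generic sources, uniqueness of window directions
-/

open Set Topology Filter Complex

noncomputable section

namespace Run7.h395

variable {n : ℕ} (S : SimplePolygon n)

/-- the point with parameter `t` on edge `i` -/
def SimplePolygon.ep (i : ZMod n) (t : ℝ) : ℂ := pt (S.v i) (S.v (i + 1)) t

lemma SimplePolygon.ep_mem {i : ZMod n} {t : ℝ} (h0 : 0 < t) (h1 : t < 1) :
    S.ep i t ∈ S.oedge i := pt_mem_openSegment h0 h1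

lemma SimplePolygon.ep_sub (i : ZMod n) (t t' : ℝ) : S.ep i t' - S.ep i t = (t' - t) • S.dir i := by
  unfold SimplePolygon.ep SimplePolygon.dir pt
  simp only [Complex.real_smul]; push_cast; ring

lemma SimplePolygon.ep_sub_v (i : ZMod n) (t : ℝ) : S.ep i t - S.v i = t • S.dir i := by
  unfold SimplePolygon.ep SimplePolygon.dir pt
  simp

lemma SimplePolygon.mem_oedge_iff {i : ZMod n} {x : ℂ} :
    x ∈ S.oedge i ↔ ∃ t : ℝ, 0 < t ∧ t < 1 ∧ x = S.ep i t := mem_openSegment_iff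

lemma SimplePolygon.ep_inj {i : ZMod n} {t t' : ℝ} (h : S.ep i t = S.ep i t') : t = t' := by
  have h1 := S.ep_sub i t' t
  rw [h, sub_self] at h1
  rcases smul_eq_zero.1 h1.symm with h2 | h2
  · linarith
  · exact absurd h2 (S.dir_ne i)

lemma SimplePolygon.continuous_ep (i : ZMod n) : Continuous (S.ep i) := continuous_pt _ _

lemma SimplePolygon.ep_seg {i : ZMod n} {t t' : ℝ} (h0 : 0 ≤ t) (h1 : t ≤ 1) (h0' : 0 ≤ t')
    (h1' : t' ≤ 1) : segment ℝ (S.ep i t) (S.ep i t') ⊆ S.edge i :=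
  (convex_segment _ _).segment_subset (pt_mem_segment h0 h1) (pt_mem_segment h0' h1')

lemma SimplePolygon.ep_seg' {i : ZMod n} {t t' : ℝ} (h0 : 0 ≤ t) (h1 : t ≤ 1) (h0' : 0 ≤ t')
    (h1' : t' ≤ 1) : segment ℝ (S.ep i t) (S.ep i t') ⊆ S.region :=
  (S.ep_seg h0 h1 h0' h1').trans (S.edge_sub i)

lemma SimplePolygon.oedge_sub' (i : ZMod n) : S.oedge i ⊆ S.region :=
  (S.oedge_sub i).trans (S.edge_sub i)

/-- strict visibility of points of an open edge is an open condition on the edge -/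
lemma SimplePolygon.svis_edge_open {O : ℂ} {i : ZMod n} {t : ℝ} (h0 : 0 < t) (h1 : t < 1)
    (h : svis S.region O (S.ep i t)) : ∀ᶠ t' in 𝓝 t, svis S.region O (S.ep i t') := by
  have hm := S.ep_mem h0 h1 (i := i)
  obtain ⟨δ, hδ, hop⟩ := S.svis_open h (S.side_fr hm) (S.svis_side hm h)
  have hc : ∀ᶠ t' in 𝓝 t, dist (S.ep i t') (S.ep i t) < δ :=
    (S.continuous_ep i).continuousAt.eventually (Metric.ball_mem_nhds _ hδ)
  filter_upwards [hc] with t' ht'
  apply hop _ ht'
  rw [S.ep_sub, cr_smul_right, cr_self, mul_zero]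

lemma SimplePolygon.lev_region {p : ℂ} {j : ℕ} {x : ℂ} (hx : x ∈ S.lev p j) : x ∈ S.region := by
  cases j with
  | zero => exact absurd hx (Set.notMem_empty x)
  | succ j => exact hx.1

/-- lit sets are relatively open on the open edges -/
lemma SimplePolygon.lev_edge_open {p : ℂ} {j : ℕ} {i : ZMod n} {t : ℝ} (h0 : 0 < t) (h1 : t < 1)
    (h : S.ep i t ∈ S.lev p j) : ∀ᶠ t' in 𝓝 t, S.ep i t' ∈ S.lev p j := by
  cases j with
  | zero => exact absurd h (Set.notMem_empty _)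
  | succ j =>
    have hI : ∀ᶠ t' in 𝓝 t, 0 < t' ∧ t' < 1 := (isOpen_Ioo.mem_nhds ⟨h0, h1⟩)
    obtain ⟨hr, h2 | ⟨r, hr1, hr2, hr3⟩⟩ := h
    · filter_upwards [hI, S.svis_edge_open h0 h1 h2] with t' ht' hv
      exact ⟨S.oedge_sub' i (S.ep_mem ht'.1 ht'.2), Or.inl hv⟩
    · filter_upwards [hI, S.svis_edge_open h0 h1 hr3] with t' ht' hv
      exact ⟨S.oedge_sub' i (S.ep_mem ht'.1 ht'.2), Or.inr ⟨r, hr1, hr2, hv⟩⟩

/-- `x` is on the line of edge `i` -/
def SimplePolygon.onLine (i : ZMod n) (x : ℂ) : Prop := cr (S.dir i) (x - S.v i) = 0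

/-- genericity of a point of edge `i`: it is on no line through two vertices, except possibly
the line of edge `i` -/
def SimplePolygon.Generic (i : ZMod n) (q : ℂ) : Prop :=
  ∀ a b, cr (S.v b - S.v a) (q - S.v a) = 0 → a = b ∨ (S.onLine i (S.v a) ∧ S.onLine i (S.v b))

lemma SimplePolygon.exists_generic (i : ZMod n) {t0 : ℝ} {U : Set ℝ} (hU : U ∈ 𝓝 t0) :
    ∃ t ∈ U, S.Generic i (S.ep i t) := by
  have := S.neZero
  set Bad : Set (ZMod n × ZMod n) :=
    {ab | ab.1 ≠ ab.2 ∧ ¬ (S.onLine i (S.v ab.1) ∧ S.onLine i (S.v ab.2))} with hBad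
  set f : ZMod n × ZMod n → Set ℝ :=
    fun ab => {t | cr (S.v ab.2 - S.v ab.1) (S.ep i t - S.v ab.1) = 0} with hf
  have hfin : (⋃ ab ∈ Bad, f ab).Finite := by
    apply Set.Finite.biUnion (Set.toFinite Bad)
    intro ab hab
    apply Set.Subsingleton.finite
    intro t ht t' ht'
    by_contra hne
    apply hab.2
    have ht : cr (S.v ab.2 - S.v ab.1) (S.ep i t - S.v ab.1) = 0 := ht
    have ht' : cr (S.v ab.2 - S.v ab.1) (S.ep i t' - S.v ab.1) = 0 := ht'
    have hvne : S.v ab.2 - S.v ab.1 ≠ 0 := sub_ne_zero.2 fun h => hab.1 (S.v_inj h).symm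
    have h1 : cr (S.v ab.2 - S.v ab.1) (S.dir i) = 0 := by
      have e : (t' - t) * cr (S.v ab.2 - S.v ab.1) (S.dir i) = 0 := by
        rw [← cr_smul_right, ← S.ep_sub i t t']
        have e2 : S.ep i t' - S.ep i t = (S.ep i t' - S.v ab.1) - (S.ep i t - S.v ab.1) := by ring
        rw [e2, cr_sub_right, ht, ht', sub_zero]
      rcases mul_eq_zero.1 e with h | h
      · exact absurd (sub_eq_zero.1 h).symm hne
      · exact h
    have h2 : cr (S.v ab.2 - S.v ab.1) (S.v i - S.v ab.1) = 0 := by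
      have e2 : S.v i - S.v ab.1 = (S.ep i t - S.v ab.1) - (S.ep i t - S.v i) := by ring
      rw [e2, cr_sub_right, ht, S.ep_sub_v, cr_smul_right, h1]
      ring
    obtain ⟨c, hc⟩ := parallel_of_cr hvne h1
    obtain ⟨c2, hc2⟩ := parallel_of_cr hvne h2
    unfold SimplePolygon.onLine
    refine ⟨?_, ?_⟩
    · have e : S.v ab.1 - S.v i = (-c2) • (S.v ab.2 - S.v ab.1) := by
        rw [neg_smul, ← hc2]; ring
      rw [hc, e, cr_smul_left, cr_smul_right, cr_self]; ring
    · have e : S.v ab.2 - S.v i = (1 - c2) • (S.v ab.2 - S.v ab.1) := by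
        rw [sub_smul, ← hc2]; simp
      rw [hc, e, cr_smul_left, cr_smul_right, cr_self]; ring
  have hinf : U.Infinite := infinite_of_mem_nhds t0 hU
  obtain ⟨t, htU, ht⟩ := hinf.exists_notMem_finite hfin
  refine ⟨t, htU, ?_⟩
  intro a b hab
  by_contra hcon
  push Not at hcon
  apply ht
  simp only [mem_iUnion]
  refine ⟨(a, b), ⟨hcon.1, fun h => hcon.2 h.1 h.2⟩, hab⟩

/-- uniqueness of the window direction -/
theorem win_unique' {P : Set ℂ} (h : Reg P) {D q T1 T2 : ℂ} (hq1 : q ≠ T1) (hq2 : q ≠ T2)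
    (hne : ∀ lam : ℝ, 0 < lam → T2 - q ≠ lam • (T1 - q))
    (hj : JoinedIn P q D) (hs1 : segment ℝ q T1 ⊆ P) (hs2 : segment ℝ q T2 ⊆ P)
    (h1 : ¬ Cn (P \ kap P q T1) q D) (h2 : ¬ Cn (P \ kap P q T2) q D) : False := by
  have hcl : IsClosed (kap P q T1 ∪ kap P q T2) :=
    (kap_compact h hq1 hs1).isClosed.union (kap_compact h hq2 hs2).isClosed
  have hm : ¬ Cn (P \ (kap P q T1 ∪ kap P q T2)) q D := by
    intro hc
    apply h1
    exact hc.mono fun z hz => ⟨hz.1, fun h3 => hz.2 (Or.inl h3)⟩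
  have hd : ∀ {A B : ℂ}, q ≠ A → q ≠ B → (∀ lam : ℝ, 0 < lam → B - q ≠ lam • (A - q)) →
      ∀ w ∈ kap P q A, ∀ z ∈ segment ℝ q w, z ∉ kap P q B := by
    rintro A B hA hB hAB w ⟨t, ht1, rfl, -⟩ z hz ⟨t', ht1', hze, -⟩
    rw [mem_segment_iff] at hz
    obtain ⟨r, h0, h1', hze'⟩ := hz
    rw [pt_pt] at hze'
    have e1 : (r * t) • (A - q) = t' • (B - q) := by
      rw [← pt_sub_left, ← pt_sub_left, ← hze, ← hze']
    rcases h0.eq_or_lt with e0 | e0
    · rw [← e0, zero_mul, zero_smul] at e1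
      rcases smul_eq_zero.1 e1.symm with h3 | h3
      · linarith
      · exact hB (sub_eq_zero.1 h3).symm
    · have hrt : 0 < r * t / t' := by
        have : 0 < t' := by linarith
        have : 0 < t := by linarith
        positivity
      apply hAB _ hrt
      have e2 : B - q = (1 / t') • (t' • (B - q)) := by
        rw [smul_smul, one_div_mul_cancel (by linarith), one_smul]
      rw [e2, ← e1, smul_smul]
      congr 1
      ring
  have hne' : ∀ lam : ℝ, 0 < lam → T1 - q ≠ lam • (T2 - q) := by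
    intro lam hl he
    apply hne (1 / lam) (by positivity)
    rw [he, smul_smul, one_div_mul_cancel hl.ne', one_smul]
  obtain ⟨w, hwK, C, hCc, hCp, hCs, hwC, hDC, hlast⟩ := last_pt hcl hj hm
  rcases hwK with hw | hw
  · apply h2
    have c1 : Cn (P \ kap P q T2) q w :=
      Cn.of_segment fun z hz => ⟨seg_of_kap hw hz, hd hq1 hq2 hne w hw z hz⟩
    refine c1.trans ⟨C, hCc, hCp, ?_, hwC, hDC⟩
    intro z hz
    refine ⟨hCs hz, ?_⟩
    intro h3
    have h4 := hlast z hz (Or.inr h3)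
    rw [h4] at h3
    exact hd hq1 hq2 hne w hw w (right_mem_segment ℝ _ _) h3
  · apply h1
    have c1 : Cn (P \ kap P q T1) q w :=
      Cn.of_segment fun z hz => ⟨seg_of_kap hw hz, hd hq2 hq1 hne' w hw z hz⟩
    refine c1.trans ⟨C, hCc, hCp, ?_, hwC, hDC⟩
    intro z hz
    refine ⟨hCs hz, ?_⟩
    intro h3
    have h4 := hlast z hz (Or.inl h3)
    rw [h4] at h3
    exact hd hq2 hq1 hne' w hw w (right_mem_segment ℝ _ _) h3

/-- two windows at one point have parallel directions -/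
lemma Win.parallel {P : Set ℂ} (h : Reg P) {D q T1 T2 : ℂ} {s1 s2 : ℝ} (h1 : Win P D q T1 s1)
    (h2 : Win P D q T2 s2) : cr (T1 - q) (T2 - q) = 0 := by
  by_contra hne
  refine win_unique' h h1.ne h2.ne ?_ h1.joined h1.seg h2.seg h1.sep h2.sep
  intro lam _ he
  apply hne
  rw [he, cr_smul_right, cr_self, mul_zero]

/-- signs attached to Booleans -/
def sg (b : Bool) : ℝ := if b then 1 else -1

@[simp] lemma sg_true : sg true = 1 := by simp [sg]

@[simp] lemma sg_false : sg false = -1 := by simp [sg]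

lemma sg_pm (b : Bool) : sg b = 1 ∨ sg b = -1 := by cases b <;> simp [sg]

lemma sg_ne (b : Bool) : sg b ≠ 0 := by cases b <;> simp [sg]

lemma sg_mul_self (b : Bool) : sg b * sg b = 1 := by cases b <;> simp [sg]

lemma exists_sg {x : ℝ} (hx : x ≠ 0) : ∃ b : Bool, 0 < sg b * x := by
  rcases lt_or_gt_of_ne hx with h | h
  · exact ⟨false, by simp [sg]; exact h⟩
  · exact ⟨true, by simp [sg]; exact h⟩

/-- windows at a common point through the same vertex have the same side -/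
lemma Win.same_side {P : Set ℂ} {D q T : ℂ} {b1 b2 : Bool} (h1 : Win P D q T (sg b1))
    (h2 : Win P D q T (sg b2)) : b1 = b2 := by
  by_contra hne
  have hs : sg b2 = - sg b1 := by
    cases b1 <;> cases b2 <;> simp [sg] at * 
  obtain ⟨r, hr, hball⟩ := h1.half
  have h3 := h2.ext
  unfold ExtAt at h3
  rw [mem_closure_iff_nhds] at h3
  obtain ⟨z, hz, hzP, hz2⟩ := h3 _ (Metric.ball_mem_nhds T hr)
  have hz2 : 0 < sg b2 * cr (T - q) (z - T) := hz2
  apply hzP
  apply hball z hz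
  rw [hs] at hz2
  linarith

end Run7.h395
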