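import Pool.Agent.Run7.h395.Count

/-!
# The main count: separated families of lit window points are of linear size
-/

open Set Topology Filter Complex

noncomputable section

namespace Run7.h395

variable {n : ℕ} (S : SimplePolygon n)

theorem SimplePolygon.main_count (p D : ℂ) :
    ∀ (j : ℕ) (F : Finset (Item n)), S.Datum p D j F → F.card ≤ 20 * n * j := by
  classical
  intro j
  induction j with
  | zero =>
    intro F hF
    have : F = ∅ := by
      rw [Finset.eq_empty_iff_forall_notMem]
      intro i hi
      exact absurd (hF.1 i hi).2.2.1 (Set.notMem_empty _)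
    rw [this]; simp
  | succ j IH =>
    intro F hF
    have hNe := S.neZero
    -- subfamilies with injective labels
    have hinjcard : ∀ A ⊆ F, (∀ i ∈ A, ∀ k ∈ A, lab i = lab k → i = k) → A.card ≤ 4 * n := by
      intro A hAF hinj
      rw [← Finset.card_image_of_injOn (f := lab) (s := A) (fun i hi k hk h => hinj i hi k hk h)]
      apply S.label_count D
      intro l hl
      obtain ⟨i, hi, rfl⟩ := Finset.mem_image.1 hl
      exact (hF.1 i (hAF hi)).2.2.2.2.2
    set P1 : Item n → Prop := fun i => ∃ k ∈ F, lab k = lab i ∧ tt i < tt k with hP1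
    set P2 : Item n → Prop := fun i => ∃ k ∈ F, lab k = lab i ∧ tt k < tt i with hP2
    set P3 : Item n → Prop := fun i => svis S.region p (S.ep i.1 (tt i)) with hP3
    set A1 := F.filter (fun i => ¬ P1 i) with hA1
    set A2 := F.filter (fun i => ¬ P2 i) with hA2
    set A3 := F.filter (fun i => P3 i) with hA3
    set F1 := F.filter (fun i => P1 i ∧ P2 i ∧ ¬ P3 i) with hF1
    have hcover : F ⊆ A1 ∪ A2 ∪ A3 ∪ F1 := by
      intro i hi
      simp only [Finset.mem_union, hA1, hA2, hA3, hF1, Finset.mem_filter, hi, true_and]
      tauto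
    have hA1c : A1.card ≤ 4 * n := by
      apply hinjcard A1 (Finset.filter_subset _ _)
      intro i hi k hk hl
      have hi' := Finset.mem_filter.1 hi
      have hk' := Finset.mem_filter.1 hk
      apply item_ext hl
      rcases lt_trichotomy (tt i) (tt k) with h | h | h
      · exact absurd ⟨k, hk'.1, hl.symm, h⟩ hi'.2
      · exact h
      · exact absurd ⟨i, hi'.1, hl, h⟩ hk'.2
    have hA2c : A2.card ≤ 4 * n := by
      apply hinjcard A2 (Finset.filter_subset _ _)
      intro i hi k hk hl
      have hi' := Finset.mem_filter.1 hi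
      have hk' := Finset.mem_filter.1 hk
      apply item_ext hl
      rcases lt_trichotomy (tt i) (tt k) with h | h | h
      · exact absurd ⟨i, hi'.1, hl, h⟩ hk'.2
      · exact h
      · exact absurd ⟨k, hk'.1, hl.symm, h⟩ hi'.2
    have hA3c : A3.card ≤ 4 * n := by
      apply hinjcard A3 (Finset.filter_subset _ _)
      have main : ∀ i ∈ A3, ∀ k ∈ A3, lab i = lab k → ¬ tt i < tt k := by
        intro i hi k hk hl hlt
        have hi' := Finset.mem_filter.1 hi
        have hk' := Finset.mem_filter.1 hk
        obtain ⟨τ, h1, h2, h3⟩ := hF.2 i hi'.1 k hk'.1 hl hlt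
        apply h3
        have hke : k.1 = i.1 := congrArg (fun l => l.1) hl.symm
        obtain ⟨ti0, ti1, -, -, -, -⟩ := hF.1 i hi'.1
        obtain ⟨tk0, tk1, -, -, -, -⟩ := hF.1 k hk'.1
        have hvi : svis S.region p (S.ep i.1 (tt i)) := hi'.2
        have hvk : svis S.region p (S.ep i.1 (tt k)) := by rw [← hke]; exact hk'.2
        have hτm : S.ep i.1 τ ∈ S.oedge i.1 := S.ep_mem (by linarith) (by linarith)
        refine ⟨S.oedge_sub' _ hτm, Or.inl ?_⟩
        have hτe : S.ep i.1 τ = pt (S.ep i.1 (tt i)) (S.ep i.1 (tt k))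
            ((τ - tt i) / (tt k - tt i)) := by
          rw [S.pt_ep]
          congr 1
          have : tt k - tt i ≠ 0 := by linarith
          field_simp
          ring
        rw [hτe]
        apply svis_of_tri S.reg
        · intro h0
          have hs := S.svis_side (S.ep_mem ti0 ti1 (i := i.1)) hvi
          have e1 : ori p (S.ep i.1 (tt i)) (S.ep i.1 (tt k)) =
              (tt k - tt i) * cr (S.dir i.1) (p - S.ep i.1 (tt i)) := by
            have : ori p (S.ep i.1 (tt i)) (S.ep i.1 (tt k)) =
                cr (S.ep i.1 (tt k) - S.ep i.1 (tt i)) (p - S.ep i.1 (tt i)) := by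
              unfold ori cr; simp only [Complex.sub_re, Complex.sub_im]; ring
            rw [this, S.ep_sub, cr_smul_left]
          rw [e1] at h0
          rcases mul_eq_zero.1 h0 with h | h
          · linarith
          · rw [h] at hs; simp at hs
        · exact seg_of_svis S.reg.closed hvi
        · exact S.ep_seg' ti0.le ti1.le tk0.le tk1.le
        · exact seg_of_svis S.reg.closed hvk
        · exact div_pos (by linarith) (by linarith)
        · rw [div_lt_one (by linarith)]; linarith
      intro i hi k hk hl
      apply item_ext hl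
      rcases lt_trichotomy (tt i) (tt k) with h | h | h
      · exact absurd h (main i hi k hk hl)
      · exact h
      · exact absurd h (main k hk i hi hl.symm)
    -- shots for the remaining items
    have hex : ∀ i ∈ F1, ∃ (b' : Bool) (τ : ℝ) (e' : ZMod n) (tq ts : ℝ), 0 < τ ∧ τ < 1 ∧
        0 < (S.side i.1 * sg b') * (τ - tt i) ∧
        (∀ k ∈ F, lab k = lab i → 0 < (S.side i.1 * sg b') * (tt k - tt i) →
          0 < (S.side i.1 * sg b') * (tt k - τ)) ∧
        (∀ r, 0 ≤ r → r ≤ 1 → Win S.region D (S.ep i.1 (tt i + r * (τ - tt i))) (S.v i.2.1)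
          (sg i.2.2.1)) ∧
        ((∃ T', Shot S p D j e' T' b' tq ts (S.ep i.1 (tt i)) (S.ep i.1 τ) (S.v i.2.1)) ∨
          Spec S e' b' tq ts (S.ep i.1 (tt i)) (S.ep i.1 τ)) := by
      intro i hi
      have hi' := Finset.mem_filter.1 hi
      exact S.item_shot hF hi'.1 hi'.2.1 hi'.2.2.1 hi'.2.2.2
    choose! b' τ e' tq ts hτ0 hτ1 hdir hnear hwin hres using hex
    have hF1F : ∀ i ∈ F1, i ∈ F := fun i hi => (Finset.mem_filter.1 hi).1
    have hti : ∀ i ∈ F1, 0 < tt i ∧ tt i < 1 := fun i hi =>
      ⟨(hF.1 i (hF1F i hi)).1, (hF.1 i (hF1F i hi)).2.1⟩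
    have hgood : ∀ i ∈ F1, ¬ S.onLine i.1 (S.v i.2.1) := fun i hi =>
      (hF.1 i (hF1F i hi)).2.2.2.2.2.1
    -- windows on the shadow interval
    have hwinv : ∀ i ∈ F1, ∀ v : ℝ, 0 < (S.side i.1 * sg (b' i)) * (v - tt i) →
        0 ≤ (S.side i.1 * sg (b' i)) * (τ i - v) →
        Win S.region D (S.ep i.1 v) (S.v i.2.1) (sg i.2.2.1) := by
      intro i hi v h1 h2
      have h3 := hdir i hi
      have hne : τ i - tt i ≠ 0 := by
        intro h; rw [h] at h3; simp at h3
      have hσ0 : S.side i.1 * sg (b' i) ≠ 0 := by
        intro h; rw [h] at h3; simp at h3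
      have := hwin i hi ((v - tt i) / (τ i - tt i)) (by
        rw [← mul_div_mul_left _ _ hσ0]; positivity) (by
        rw [← mul_div_mul_left _ _ hσ0, div_le_one h3]
        have : S.side i.1 * sg (b' i) * (τ i - tt i) =
          S.side i.1 * sg (b' i) * (τ i - v) + S.side i.1 * sg (b' i) * (v - tt i) := by ring
        rw [this]; linarith)
      have e1 : tt i + (v - tt i) / (τ i - tt i) * (τ i - tt i) = v := by
        rw [div_mul_cancel₀ _ hne]; ring
      rw [e1] at this
      exact this
    -- disjointness of shadow intervals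
    have hDJ : ∀ i ∈ F1, ∀ k ∈ F1, i ≠ k → i.1 = k.1 → b' i = b' k → ∀ v : ℝ,
        0 < (S.side i.1 * sg (b' i)) * (v - tt i) → 0 ≤ (S.side i.1 * sg (b' i)) * (τ i - v) →
        0 < (S.side i.1 * sg (b' i)) * (v - tt k) → 0 ≤ (S.side i.1 * sg (b' i)) * (τ k - v) →
        False := by
      intro i hi k hk hik he hb v h1 h2 h3 h4
      have hσk : S.side k.1 * sg (b' k) = S.side i.1 * sg (b' i) := by rw [he, hb]
      set σ := S.side i.1 * sg (b' i) with hσ
      by_cases hl : lab i = lab k
      · have htne : tt i ≠ tt k := fun h => hik (item_ext hl h)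
        have hσ0 : σ ≠ 0 := by
          intro h; rw [h] at h1; simp at h1
        rcases lt_or_gt_of_ne (mul_ne_zero hσ0 (sub_ne_zero.2 htne.symm)) with h | h
        · -- σ (tt k - tt i) < 0
          have h5 := hnear k hk i (hF1F i hi) hl (by rw [hσk]; linarith)
          rw [hσk] at h5
          have e1 : σ * (v - tt i) = -(σ * (τ k - v)) - σ * (tt i - τ k) := by ring
          rw [e1] at h1
          linarith
        · have h5 := hnear i hi k (hF1F k hk) hl.symm h
          have e1 : σ * (v - tt k) = -(σ * (τ i - v)) - σ * (tt k - τ i) := by ring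
          rw [e1] at h3
          linarith
      · apply hl
        -- second common point
        obtain ⟨v', hv', g1, g2, g3, g4⟩ : ∃ v' : ℝ, v ≠ v' ∧ 0 < σ * (v' - tt i) ∧
            0 ≤ σ * (τ i - v') ∧ 0 < σ * (v' - tt k) ∧ 0 ≤ σ * (τ k - v') := by
          rcases le_or_gt (σ * (v - tt i)) (σ * (v - tt k)) with h | h
          · refine ⟨v - (v - tt i) / 2, ?_, ?_, ?_, ?_, ?_⟩
            · intro h0
              have : v - tt i = 0 := by linarith
              rw [this] at h1; simp at h1
            · have : σ * (v - (v - tt i) / 2 - tt i) = σ * (v - tt i) / 2 := by ring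
              rw [this]; linarith
            · have : σ * (τ i - (v - (v - tt i) / 2)) = σ * (τ i - v) + σ * (v - tt i) / 2 := by
                ring
              rw [this]; linarith
            · have : σ * (v - (v - tt i) / 2 - tt k) = σ * (v - tt k) - σ * (v - tt i) / 2 := by
                ring
              rw [this]; linarith
            · have : σ * (τ k - (v - (v - tt i) / 2)) = σ * (τ k - v) + σ * (v - tt i) / 2 := by
                ring
              rw [this]; linarith
          · refine ⟨v - (v - tt k) / 2, ?_, ?_, ?_, ?_, ?_⟩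
            · intro h0
              have : v - tt k = 0 := by linarith
              rw [this] at h3; simp at h3
            · have : σ * (v - (v - tt k) / 2 - tt i) = σ * (v - tt i) - σ * (v - tt k) / 2 := by
                ring
              rw [this]; linarith
            · have : σ * (τ i - (v - (v - tt k) / 2)) = σ * (τ i - v) + σ * (v - tt k) / 2 := by
                ring
              rw [this]; linarith
            · have : σ * (v - (v - tt k) / 2 - tt k) = σ * (v - tt k) / 2 := by ring
              rw [this]; linarith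
            · have : σ * (τ k - (v - (v - tt k) / 2)) = σ * (τ k - v) + σ * (v - tt k) / 2 := by
                ring
              rw [this]; linarith
        have w1 := hwinv i hi v h1 h2
        have w1' := hwinv i hi v' g1 g2
        have w2 := hwinv k hk v (by rw [hσk]; exact h3) (by rw [hσk]; exact h4)
        have w2' := hwinv k hk v' (by rw [hσk]; exact g3) (by rw [hσk]; exact g4)
        rw [← he] at w2 w2'
        obtain ⟨hT, hbb⟩ := S.label_eq hv' (hgood i hi) w1 w1' w2 w2'
        unfold lab
        rw [he, hT, hbb]
    -- split into special sources and shots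
    set Q : Item n → Prop := fun i =>
      Spec S (e' i) (b' i) (tq i) (ts i) (S.ep i.1 (tt i)) (S.ep i.1 (τ i)) with hQ
    set A4 := F1.filter Q with hA4
    set F2 := F1.filter (fun i => ¬ Q i) with hF2
    have hF1c : F1.card = A4.card + F2.card := by
      rw [hA4, hF2, Finset.card_filter_add_card_filter_not]
    have hedge_mem : ∀ i ∈ F1, 0 ≤ ts i → ts i ≤ 1 →
        S.ep i.1 (tt i + ts i * (τ i - tt i)) ∈ S.oedge i.1 := by
      intro i hi h0 h1
      obtain ⟨g0, g1⟩ := hti i hi
      have k0 := hτ0 i hi
      have k1 := hτ1 i hi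
      apply S.ep_mem
      · have : tt i + ts i * (τ i - tt i) = (1 - ts i) * tt i + ts i * τ i := by ring
        rw [this]
        rcases h1.eq_or_lt with h | h
        · rw [h]; linarith
        · have := mul_pos (show (0 : ℝ) < 1 - ts i by linarith) g0
          have := mul_nonneg h0 k0.le
          linarith
      · have : 1 - (tt i + ts i * (τ i - tt i)) = (1 - ts i) * (1 - tt i) + ts i * (1 - τ i) := by
          ring
        have h2 : 0 < (1 - ts i) * (1 - tt i) + ts i * (1 - τ i) := by
          rcases h1.eq_or_lt with h | h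
          · rw [h]; linarith
          · have := mul_pos (show (0 : ℝ) < 1 - ts i by linarith)
              (show (0 : ℝ) < 1 - tt i by linarith)
            have := mul_nonneg h0 (show (0 : ℝ) ≤ 1 - τ i by linarith)
            linarith
        linarith
    -- the common-point consequence of equal shadow ends
    have hends : ∀ i ∈ F1, ∀ k ∈ F1, i ≠ k → i.1 = k.1 → b' i = b' k →
        0 < ts k → ts k ≤ 1 → ∀ r : ℝ, 0 < r → r ≤ 1 →
        tt i + r * (τ i - tt i) ≠ tt k + ts k * (τ k - tt k) := by
      intro i hi k hk hik he hb hk0 hk1 r hr0 hr1 heq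
      have hσk : S.side k.1 * sg (b' k) = S.side i.1 * sg (b' i) := by rw [he, hb]
      have d1 := hdir i hi
      have d2 := hdir k hk
      rw [hσk] at d2
      refine hDJ i hi k hk hik he hb (tt i + r * (τ i - tt i)) ?_ ?_ ?_ ?_
      · have : S.side i.1 * sg (b' i) * (tt i + r * (τ i - tt i) - tt i) =
          r * (S.side i.1 * sg (b' i) * (τ i - tt i)) := by ring
        rw [this]; positivity
      · have : S.side i.1 * sg (b' i) * (τ i - (tt i + r * (τ i - tt i))) =
          (1 - r) * (S.side i.1 * sg (b' i) * (τ i - tt i)) := by ring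
        rw [this]
        have : 0 ≤ 1 - r := by linarith
        positivity
      · rw [heq]
        have : S.side i.1 * sg (b' i) * (tt k + ts k * (τ k - tt k) - tt k) =
          ts k * (S.side i.1 * sg (b' i) * (τ k - tt k)) := by ring
        rw [this]; positivity
      · rw [heq]
        have : S.side i.1 * sg (b' i) * (τ k - (tt k + ts k * (τ k - tt k))) =
          (1 - ts k) * (S.side i.1 * sg (b' i) * (τ k - tt k)) := by ring
        rw [this]
        have : 0 ≤ 1 - ts k := by linarith
        positivity
    have hA4c : A4.card ≤ 4 * n := by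
      have hlamex : ∀ i ∈ A4, ∃ lam : ℝ, lam ≠ 0 ∧
          pt (S.ep i.1 (tt i)) (S.ep i.1 (τ i)) (ts i) - S.ep (e' i) (tq i) =
            lam • S.dir (e' i) := by
        intro i hi
        have hQi : Spec S (e' i) (b' i) (tq i) (ts i) (S.ep i.1 (tt i)) (S.ep i.1 (τ i)) :=
          (Finset.mem_filter.1 hi).2
        have h1 := hQi.onl
        have h2 := S.onLine_ep (e' i) (tq i)
        unfold SimplePolygon.onLine at h1 h2
        have h3 : cr (S.dir (e' i)) (pt (S.ep i.1 (tt i)) (S.ep i.1 (τ i)) (ts i) -
            S.ep (e' i) (tq i)) = 0 := by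
          have : pt (S.ep i.1 (tt i)) (S.ep i.1 (τ i)) (ts i) - S.ep (e' i) (tq i) =
              (pt (S.ep i.1 (tt i)) (S.ep i.1 (τ i)) (ts i) - S.v (e' i)) -
              (S.ep (e' i) (tq i) - S.v (e' i)) := by ring
          rw [this, cr_sub_right, h1, h2, sub_zero]
        obtain ⟨lam, hlam⟩ := parallel_of_cr (S.dir_ne (e' i)) h3
        refine ⟨lam, ?_, hlam⟩
        rintro rfl
        rw [zero_smul, sub_eq_zero] at hlam
        have hab := hQi.above
        rw [← hlam] at hab
        have : cr (S.ep i.1 (τ i) - S.ep i.1 (tt i))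
            (pt (S.ep i.1 (tt i)) (S.ep i.1 (τ i)) (ts i) - S.ep i.1 (tt i)) = 0 := by
          rw [cr_pt, cr_self, mul_zero]
        rw [this] at hab
        simp at hab
      choose! lam hlam0 hlam using hlamex
      set f : Item n → ZMod n × Bool × Bool := fun i => (e' i, decide (0 < lam i), b' i) with hf
      have hinj : Set.InjOn f A4 := by
        intro i hi k hk hik
        by_contra hne
        have hi1 := (Finset.mem_filter.1 hi).1
        have hk1 := (Finset.mem_filter.1 hk).1
        have hQi : Spec S (e' i) (b' i) (tq i) (ts i) (S.ep i.1 (tt i)) (S.ep i.1 (τ i)) :=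
          (Finset.mem_filter.1 hi).2
        have hQk : Spec S (e' k) (b' k) (tq k) (ts k) (S.ep k.1 (tt k)) (S.ep k.1 (τ k)) :=
          (Finset.mem_filter.1 hk).2
        simp only [hf, Prod.mk.injEq] at hik
        obtain ⟨f1, f2, f3⟩ := hik
        have hlami := hlam i hi
        have hlamk := hlam k hk
        rw [← f1] at hQk hlamk
        have hprod : 0 < lam i * lam k := by
          rcases lt_or_gt_of_ne (hlam0 i hi) with h | h <;>
          rcases lt_or_gt_of_ne (hlam0 k hk) with h' | h'
          · exact mul_pos_of_neg_of_neg h h'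
          · have e1 : decide (0 < lam i) = false := decide_eq_false (by linarith)
            have e2 : decide (0 < lam k) = true := decide_eq_true h'
            rw [e1, e2] at f2
            exact absurd f2 (by decide)
          · have e1 : decide (0 < lam i) = true := decide_eq_true h
            have e2 : decide (0 < lam k) = false := decide_eq_false (by linarith)
            rw [e1, e2] at f2
            exact absurd f2 (by decide)
          · exact mul_pos h h'
        have hmi := hedge_mem i hi1 hQi.ts0.le hQi.ts1
        have hmk := hedge_mem k hk1 hQk.ts0.le hQk.ts1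
        rw [← S.pt_ep] at hmi hmk
        have heq := S.spec_unique hQi hQk hmi hmk ⟨_, S.ep_sub i.1 _ _⟩ ⟨_, S.ep_sub k.1 _ _⟩
          hlami hlamk hprod
        have hee : i.1 = k.1 := S.oedge_unique hmk (by rw [← heq]; exact S.oedge_sub _ hmi)
        rw [S.pt_ep, S.pt_ep, ← hee] at heq
        exact hends i hi1 k hk1 hne hee f3 hQk.ts0 hQk.ts1 (ts i) hQi.ts0 hQi.ts1
          (S.ep_inj heq)
      have hcard := Finset.card_le_card_of_injOn f (t := Finset.univ)
        (fun _ _ => Finset.mem_univ _) hinj
      refine hcard.trans ?_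
      rw [Finset.card_univ, Fintype.card_prod, Fintype.card_prod, ZMod.card, Fintype.card_bool]
      omega
    have hshot : ∀ i ∈ F2, ∃ T', Shot S p D j (e' i) T' (b' i) (tq i) (ts i) (S.ep i.1 (tt i))
        (S.ep i.1 (τ i)) (S.v i.2.1) := by
      intro i hi
      obtain ⟨hi1, hi2⟩ := Finset.mem_filter.1 hi
      rcases hres i hi1 with h | h
      · exact h
      · exact absurd h hi2
    choose! T' hshot using hshot
    have hF2c : F2.card ≤ 20 * n * j + 4 * n := by
      refine S.shots_count (N := 20 * n * j) F2 e' T' b' tq ts (fun i => S.ep i.1 (tt i))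
        (fun i => S.ep i.1 (τ i)) (fun i => S.v i.2.1) hshot ?_ (fun F hF => IH F hF)
      intro i hi k hk hik f1 f2 f3
      have hi1 := (Finset.mem_filter.1 hi).1
      have hk1 := (Finset.mem_filter.1 hk).1
      have s1 := hshot i hi
      have s2 := hshot k hk
      have s2' := s2
      rw [← f1, ← f2, ← f3] at s2'
      have := S.hB_edge (hti i hi1) ⟨hτ0 i hi1, hτ1 i hi1⟩ (hti k hk1) ⟨hτ0 k hk1, hτ1 k hk1⟩
        s1 s2' (by
          intro hee r hr0 hr1
          exact hends i hi1 k hk1 hik hee f3 s2.ts0 s2.ts1 r (lt_of_lt_of_le s1.ts0 hr0) hr1)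
      intro w hw
      have h5 := this w hw
      rw [f1, f2] at h5
      exact h5
    have hfin : F.card ≤ A1.card + A2.card + A3.card + F1.card := by
      refine (Finset.card_le_card hcover).trans ?_
      refine (Finset.card_union_le _ _).trans ?_
      gcongr
      refine (Finset.card_union_le _ _).trans ?_
      gcongr
      exact Finset.card_union_le _ _
    have e1 : 20 * n * (j + 1) = 20 * n * j + 20 * n := by ring
    rw [e1]
    omega

end Run7.h395
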