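import Pool.Agent.Run7.h395.Gen

/-!
# The number of window labels is linear
-/

open Set Topology Filter Complex

noncomputable section

namespace Run7.h395

variable {n : ℕ} (S : SimplePolygon n)

/-- labels `(edge, vertex, side)` carrying at least two window points -/
def SimplePolygon.GoodLabel (D : ℂ) (l : ZMod n × ZMod n × Bool) : Prop :=
  ¬ S.onLine l.1 (S.v l.2.1) ∧ ∃ t1 t2 : ℝ, 0 < t1 ∧ t1 < t2 ∧ t2 < 1 ∧
    Win S.region D (S.ep l.1 t1) (S.v l.2.1) (sg l.2.2) ∧
    Win S.region D (S.ep l.1 t2) (S.v l.2.1) (sg l.2.2)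

/-- orientation constant of a label -/
def SimplePolygon.lc (l : ZMod n × ZMod n × Bool) : ℝ :=
  sg l.2.2 * cr (S.v l.2.1 - S.v l.1) (S.dir l.1)

lemma fr_smul {P : Set ℂ} {w u : ℂ} {τ σ c : ℝ} (h : Fr P w u τ) (hc : 0 < σ * c) :
    Fr P w (c • u) (σ * τ) := by
  obtain ⟨r, hr, hball⟩ := h
  refine ⟨r, hr, ?_⟩
  intro x hx hside
  apply hball x hx
  rw [cr_smul_left] at hside
  have e : σ * τ * (c * cr u (x - w)) = (σ * c) * (τ * cr u (x - w)) := by ring
  rw [e] at hside
  exact (mul_pos_iff_of_pos_left hc).1 hside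

lemma SimplePolygon.cr_ep (i : ZMod n) (T w : ℂ) (t : ℝ) :
    cr (T - S.ep i t) (S.dir i) = cr (T - S.v i) (S.dir i) := by
  have e : T - S.ep i t = (T - S.v i) - (S.ep i t - S.v i) := by ring
  rw [e, cr_sub_left, S.ep_sub_v, cr_smul_left, cr_self]
  ring

/-- sliding a window along an edge -/
lemma SimplePolygon.win_slide {D : ℂ} {i : ZMod n} {T : ℂ} {s t t' : ℝ}
    (h0 : 0 ≤ t) (h1 : t ≤ 1) (h0' : 0 ≤ t') (h1' : t' ≤ 1)
    (hw : Win S.region D (S.ep i t) T s) (hc : 0 < (t' - t) * (s * cr (T - S.v i) (S.dir i)))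
    (hv : svis S.region (S.ep i t') T) : Win S.region D (S.ep i t') T s := by
  apply hw.slide S.reg (S.ep_seg' h0 h1 h0' h1') _ hv
  rw [S.ep_sub, cr_smul_right, S.cr_ep i T T t]
  have : s * ((t' - t) * cr (T - S.v i) (S.dir i)) =
      (t' - t) * (s * cr (T - S.v i) (S.dir i)) := by ring
  rw [this]; exact hc

lemma kap_sub_kap {P : Set ℂ} {x T c : ℂ} (hc : c ∈ openSegment ℝ T x) :
    kap P x T ⊆ kap P c T := by
  rintro z ⟨t, ht1, rfl, hseg⟩
  rw [openSegment_symm, mem_openSegment_iff] at hc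
  obtain ⟨s, h0, h1, rfl⟩ := hc
  have hs : (1 - s) ≠ 0 := by linarith
  refine ⟨(t - s) / (1 - s), ?_, ?_, ?_⟩
  · rw [le_div_iff₀ (by linarith)]; linarith
  · apply Complex.ext
    · simp only [pt_re]; field_simp; ring
    · simp only [pt_im]; field_simp; ring
  · refine subset_trans ?_ hseg
    apply (convex_segment _ _).segment_subset _ (right_mem_segment ℝ _ _)
    rw [mem_segment_iff]
    refine ⟨s / t, by positivity, ?_, ?_⟩
    · rw [div_le_one (by linarith)]; linarith
    · rw [pt_pt, div_mul_cancel₀ _ (by linarith)]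

lemma sep_of_kap {P : Set ℂ} {D x T c : ℂ} (hxT : x ≠ T) (hseg : segment ℝ T x ⊆ P)
    (hc : c ∈ openSegment ℝ T x) (hsep : ¬ Cn (P \ kap P x T) x D) :
    ¬ Cn (P \ kap P c T) c D := by
  intro hcon
  apply hsep
  have c1 : Cn (P \ kap P x T) x c := by
    apply Cn.of_segment
    intro z hz
    rw [openSegment_symm, mem_openSegment_iff] at hc
    obtain ⟨s, h0, h1, rfl⟩ := hc
    rw [mem_segment_iff] at hz
    obtain ⟨r, k0, k1, rfl⟩ := hz
    rw [pt_pt]
    refine ⟨?_, kap_disj_left hxT (by nlinarith)⟩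
    apply hseg
    rw [segment_symm]
    exact pt_mem_segment (by positivity) (by nlinarith)
  exact c1.trans (hcon.mono fun z hz => ⟨hz.1, fun h => hz.2 (kap_sub_kap hc h)⟩)

/-- first kind of code: the window is available up to the end of the edge -/
def SimplePolygon.Code1 (D : ℂ) (l : ZMod n × ZMod n × Bool) (e : ZMod n) (b : Bool) : Prop :=
  l.1 = e ∧ 0 < sg b * S.lc l ∧ ∃ tb : ℝ, 0 < tb ∧ tb < 1 ∧
    ∀ t, 0 < t → t < 1 → 0 < sg b * (t - tb) →
      Win S.region D (S.ep l.1 t) (S.v l.2.1) (sg l.2.2)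

/-- second kind of code: the window is blocked by a vertex `c` -/
def SimplePolygon.Code2 (D : ℂ) (l : ZMod n × ZMod n × Bool) (c : ZMod n) (b : Bool) : Prop :=
  0 < sg b * S.lc l ∧ ∃ tb t0 : ℝ, 0 < tb ∧ tb < 1 ∧ 0 < t0 ∧ t0 < 1 ∧ 0 < sg b * (t0 - tb) ∧
    segment ℝ (S.v l.2.1) (S.ep l.1 t0) ⊆ S.region ∧
    (∀ t, 0 < sg b * (t - tb) → 0 < sg b * (t0 - t) →
      Win S.region D (S.ep l.1 t) (S.v l.2.1) (sg l.2.2)) ∧
    S.v c ∈ openSegment ℝ (S.v l.2.1) (S.ep l.1 t0) ∧
    ¬ Cn (S.region \ kap S.region (S.v c) (S.v l.2.1)) (S.v c) D ∧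
    JoinedIn S.region (S.v c) D

lemma SimplePolygon.code_exists {D : ℂ} {l : ZMod n × ZMod n × Bool} (hl : S.GoodLabel D l) :
    ∃ b, S.Code1 D l l.1 b ∨ ∃ c, S.Code2 D l c b := by
  obtain ⟨hline, t1, t2, h0, h12, h1, hw1, hw2⟩ := hl
  obtain ⟨e, T, s⟩ := l
  simp only at *
  have hlc : S.lc (e, T, s) ≠ 0 := by
    apply mul_ne_zero (sg_ne s)
    intro h
    apply hline
    unfold SimplePolygon.onLine
    rw [cr_swap]
    simp only at h
    rw [h, neg_zero]
  obtain ⟨b, hb⟩ := exists_sg hlc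
  refine ⟨b, ?_⟩
  -- base parameter
  obtain ⟨tb, htb0, htb1, hwb⟩ : ∃ tb, 0 < tb ∧ tb < 1 ∧
      Win S.region D (S.ep e tb) (S.v T) (sg s) := ⟨t1, h0, h12.trans h1, hw1⟩
  by_cases hall : ∀ t, 0 < t → t < 1 → 0 < sg b * (t - tb) →
      svis S.region (S.v T) (S.ep e t)
  · left
    refine ⟨rfl, hb, tb, htb0, htb1, ?_⟩
    intro t k0 k1 hbt
    apply S.win_slide htb0.le htb1.le k0.le k1.le hwb
    · have e1 : (t - tb) * (sg s * cr (S.v T - S.v e) (S.dir e)) =
          (sg b * (t - tb)) * (sg b * S.lc (e, T, s)) := by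
        unfold SimplePolygon.lc
        have := sg_mul_self b
        linear_combination (-((t - tb) * (sg s * cr (S.v T - S.v e) (S.dir e)))) * this
      rw [e1]
      exact mul_pos hbt hb
    · exact svis_symm (hall t k0 k1 hbt)
  · right
    push Not at hall
    obtain ⟨tz, k0, k1, hbz, hnv⟩ := hall
    set y := S.ep e tb with hy
    set z := S.ep e tz with hz
    have hzy : z - y = (tz - tb) • S.dir e := S.ep_sub e tb tz
    have hseg_o : ∀ w ∈ segment ℝ y z, w ∈ S.oedge e :=
      (convex_openSegment _ _).segment_subset (S.ep_mem htb0 htb1) (S.ep_mem k0 k1)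
    have hO : 0 < (sg b * S.side e) * cr (z - y) (S.v T - y) := by
      rw [hzy, cr_smul_left]
      have := S.svis_side (S.ep_mem htb0 htb1) (svis_symm hwb.vis)
      have e1 : sg b * S.side e * ((tz - tb) * cr (S.dir e) (S.v T - y)) =
          (sg b * (tz - tb)) * (S.side e * cr (S.dir e) (S.v T - y)) := by ring
      rw [e1]
      exact mul_pos hbz this
    obtain ⟨ts, ks0, ks1, hsegx, hbef, c, hc⟩ := S.blocker hO
      (fun w hw => S.oedge_sub' e (hseg_o w hw))
      (by
        intro w hw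
        rw [hzy]
        exact fr_smul (S.side_fr (hseg_o w hw)) hbz)
      (svis_symm hwb.vis) hnv
    set t0 := tb + ts * (tz - tb) with ht0
    have hpt : ∀ r, pt y z r = S.ep e (tb + r * (tz - tb)) := by
      intro r
      rw [hy, hz]
      unfold SimplePolygon.ep pt
      simp only [Complex.real_smul]; push_cast; ring
    have ht00 : 0 < t0 := by
      rw [ht0]; nlinarith
    have ht01 : t0 < 1 := by
      rw [ht0]; nlinarith
    have hx0 : pt y z ts = S.ep e t0 := hpt ts
    rw [hx0] at hsegx hc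
    have hbt0 : 0 < sg b * (t0 - tb) := by
      rw [ht0]
      have : sg b * (tb + ts * (tz - tb) - tb) = ts * (sg b * (tz - tb)) := by ring
      rw [this]; positivity
    have hwin : ∀ t, 0 < sg b * (t - tb) → 0 < sg b * (t0 - t) →
        Win S.region D (S.ep e t) (S.v T) (sg s) := by
      intro t hbt htt
      -- t = tb + r (tz - tb)
      set r := (t - tb) / (tz - tb) with hr
      have hne : tz - tb ≠ 0 := by
        intro h; rw [h] at hbz; simp at hbz
      have ht : t = tb + r * (tz - tb) := by rw [hr]; field_simp; ring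
      have hr0 : 0 < r := by
        have : r = (sg b * (t - tb)) / (sg b * (tz - tb)) := by
          rw [hr, mul_div_mul_left _ _ (sg_ne b)]
        rw [this]; positivity
      have hrs : r < ts := by
        have e1 : sg b * (t0 - t) = (ts - r) * (sg b * (tz - tb)) := by
          rw [ht0, ht]; ring
        rw [e1] at htt
        have := (mul_pos_iff_of_pos_right hbz).1 htt
        linarith
      have hv := hbef r hr0.le hrs
      rw [hpt, ← ht] at hv
      have ht0' : 0 < t := by rw [ht]; nlinarith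
      have ht1' : t < 1 := by rw [ht]; nlinarith
      apply S.win_slide htb0.le htb1.le ht0'.le ht1'.le hwb
      · have e1 : (t - tb) * (sg s * cr (S.v T - S.v e) (S.dir e)) =
            (sg b * (t - tb)) * (sg b * S.lc (e, T, s)) := by
          unfold SimplePolygon.lc
          have := sg_mul_self b
          linear_combination (-((t - tb) * (sg s * cr (S.v T - S.v e) (S.dir e)))) * this
        rw [e1]
        exact mul_pos hbt hb
      · exact svis_symm hv
    -- separation at x0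
    have hx0T : S.ep e t0 ≠ S.v T := by
      intro h
      rw [← h, openSegment_same, mem_singleton_iff] at hc
      exact S.v_not_oedge c e (hc ▸ S.ep_mem ht00 ht01)
    have hsep0 : ¬ Cn (S.region \ kap S.region (S.ep e t0) (S.v T)) (S.ep e t0) D := by
      obtain ⟨-, -, -, h4⟩ := Run7.h395.slide (D := D) S.reg (q := S.ep e tb) (T := S.v T)
        (x := S.ep e t0) (s := sg s) (S.ep_seg' htb0.le htb1.le ht00.le ht01.le)
        (by rw [segment_symm]; exact hsegx) hwb.seg
        (by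
          rw [S.ep_sub, cr_smul_right, S.cr_ep e (S.v T) 0 tb]
          have e1 : sg s * ((t0 - tb) * cr (S.v T - S.v e) (S.dir e)) =
              (sg b * (t0 - tb)) * (sg b * S.lc (e, T, s)) := by
            unfold SimplePolygon.lc
            have := sg_mul_self b
            linear_combination (-((t0 - tb) * (sg s * cr (S.v T - S.v e) (S.dir e)))) * this
          rw [e1]
          exact mul_pos hbt0 hb) hwb.ext hwb.half
      exact h4 hwb.sep
    refine ⟨c, hb, tb, t0, htb0, htb1, ht00, ht01, hbt0, hsegx, hwin, hc, ?_, ?_⟩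
    · exact sep_of_kap hx0T hsegx hc hsep0
    · have j1 : JoinedIn S.region (S.v c) (S.ep e t0) := by
        apply JoinedIn.of_segment
        refine subset_trans ?_ hsegx
        exact (convex_segment _ _).segment_subset (openSegment_subset_segment ℝ _ _ hc)
          (right_mem_segment ℝ _ _)
      have j2 : JoinedIn S.region (S.ep e t0) (S.ep e tb) :=
        JoinedIn.of_segment (S.ep_seg' ht00.le ht01.le htb0.le htb1.le)
      exact (j1.trans j2).trans hwb.joined

lemma eq_of_two_parallel {d a b : ℂ} {lam : ℝ} (hd : cr a d ≠ 0) (hlam : lam ≠ 0)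
    (h1 : cr a b = 0) (h2 : cr (a - lam • d) (b - lam • d) = 0) : a = b := by
  have h3 : cr d (a - b) = 0 := by
    have e : cr (a - lam • d) (b - lam • d) = cr a b + lam * cr d (a - b) := by
      unfold cr
      simp only [Complex.sub_re, Complex.sub_im, Complex.smul_re, Complex.smul_im, smul_eq_mul]
      ring
    rw [h1, zero_add] at e
    rw [e] at h2
    exact (mul_eq_zero.1 h2).resolve_left hlam
  have hd0 : d ≠ 0 := by
    rintro rfl; simp [cr_zero_right] at hd
  obtain ⟨μ, hμ⟩ := parallel_of_cr hd0 h3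
  have h4 : μ * cr a d = 0 := by
    have e : cr a (a - b) = 0 := by rw [cr_sub_right, h1, cr_self, sub_zero]
    rw [hμ, cr_smul_right] at e
    exact e
  have h5 := (mul_eq_zero.1 h4).resolve_right hd
  rw [h5, zero_smul, sub_eq_zero] at hμ
  exact hμ

lemma two_points (b : Bool) {t1 t2 : ℝ} (h1 : 0 < t1) (h1' : t1 < 1) (h2 : 0 < t2)
    (h2' : t2 < 1) : ∃ t t' : ℝ, t ≠ t' ∧ 0 < t ∧ t < 1 ∧ 0 < t' ∧ t' < 1 ∧
      0 < sg b * (t - t1) ∧ 0 < sg b * (t - t2) ∧ 0 < sg b * (t' - t1) ∧ 0 < sg b * (t' - t2) := by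
  cases b
  · have hm : 0 < min t1 t2 := lt_min h1 h2
    have hl := min_le_left t1 t2
    have hr := min_le_right t1 t2
    refine ⟨min t1 t2 / 2, min t1 t2 / 3, ?_, ?_, ?_, ?_, ?_, ?_, ?_, ?_, ?_⟩
    · intro h; linarith
    all_goals first | linarith | (simp only [sg_true, sg_false]; linarith)
  · have hm : max t1 t2 < 1 := max_lt h1' h2'
    have hl := le_max_left t1 t2
    have hr := le_max_right t1 t2
    refine ⟨(1 + max t1 t2) / 2, (1 + 2 * max t1 t2) / 3, ?_, ?_, ?_, ?_, ?_, ?_, ?_, ?_, ?_⟩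
    · intro h; linarith
    all_goals first | linarith | (simp only [sg_true, sg_false]; linarith)

lemma one_point (b : Bool) {t1 t2 t0 : ℝ} (h1 : 0 < sg b * (t0 - t1))
    (h2 : 0 < sg b * (t0 - t2)) :
    ∃ t : ℝ, 0 < sg b * (t - t1) ∧ 0 < sg b * (t - t2) ∧ 0 < sg b * (t0 - t) ∧ t ≠ t0 := by
  cases b
  · simp only [sg_false] at *
    have hl := min_le_left t1 t2
    have hr := min_le_right t1 t2
    have hm : t0 < min t1 t2 := lt_min (by linarith) (by linarith)
    refine ⟨(t0 + min t1 t2) / 2, by linarith, by linarith, by linarith, ?_⟩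
    intro h; linarith
  · simp only [sg_true] at *
    have hl := le_max_left t1 t2
    have hr := le_max_right t1 t2
    have hm : max t1 t2 < t0 := max_lt (by linarith) (by linarith)
    refine ⟨(t0 + max t1 t2) / 2, by linarith, by linarith, by linarith, ?_⟩
    intro h; linarith

lemma SimplePolygon.not_onLine_cr {i : ZMod n} {T : ℂ} (h : ¬ S.onLine i T) (t : ℝ) :
    cr (T - S.ep i t) (S.dir i) ≠ 0 := by
  rw [S.cr_ep i T 0 t]
  intro h0
  apply h
  unfold SimplePolygon.onLine
  rw [cr_swap, h0, neg_zero]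

lemma SimplePolygon.code1_inj {D : ℂ} {l1 l2 : ZMod n × ZMod n × Bool} {e : ZMod n} {b : Bool}
    (hg : ¬ S.onLine l1.1 (S.v l1.2.1))
    (h1 : S.Code1 D l1 e b) (h2 : S.Code1 D l2 e b) : l1 = l2 := by
  obtain ⟨e1, T1, s1⟩ := l1
  obtain ⟨e2, T2, s2⟩ := l2
  obtain ⟨he1, hb1, tb1, k1, k1', hw1⟩ := h1
  obtain ⟨he2, hb2, tb2, k2, k2', hw2⟩ := h2
  simp only at *
  subst he1
  subst he2
  obtain ⟨t, t', hne, m1, m2, m3, m4, m5, m6, m7, m8⟩ := two_points b k1 k1' k2 k2'
  have p1 := (hw1 t m1 m2 m5).parallel S.reg (hw2 t m1 m2 m6)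
  have p2 := (hw1 t' m3 m4 m7).parallel S.reg (hw2 t' m3 m4 m8)
  have hT : S.v T1 - S.ep e2 t = S.v T2 - S.ep e2 t := by
    apply eq_of_two_parallel (d := S.dir e2) (lam := t' - t) (S.not_onLine_cr hg t)
      (sub_ne_zero.2 (Ne.symm hne)) p1
    have e3 : ∀ T : ℂ, T - S.ep e2 t - (t' - t) • S.dir e2 = T - S.ep e2 t' := by
      intro T
      rw [← S.ep_sub e2 t t']; ring
    rw [e3, e3]
    exact p2
  have hT' : T1 = T2 := S.v_inj (sub_left_inj.1 hT)
  subst hT'
  have hs := (hw1 t m1 m2 m5).same_side (hw2 t m1 m2 m6)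
  subst hs
  rfl

lemma SimplePolygon.code2_inj {D : ℂ} {l1 l2 : ZMod n × ZMod n × Bool} {c : ZMod n} {b : Bool}
    (hg1 : ¬ S.onLine l1.1 (S.v l1.2.1)) (hg2 : ¬ S.onLine l2.1 (S.v l2.2.1))
    (h1 : S.Code2 D l1 c b) (h2 : S.Code2 D l2 c b) : l1 = l2 := by
  obtain ⟨e1, T1, s1⟩ := l1
  obtain ⟨e2, T2, s2⟩ := l2
  obtain ⟨hb1, tb1, t1, k1, k1', p1, p1', hd1, hseg1, hw1, hc1, hsep1, hj1⟩ := h1
  obtain ⟨hb2, tb2, t2, k2, k2', p2, p2', hd2, hseg2, hw2, hc2, hsep2, hj2⟩ := h2
  simp only at *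
  set x1 := S.ep e1 t1 with hx1
  set x2 := S.ep e2 t2 with hx2
  have hm1 : x1 ∈ S.oedge e1 := S.ep_mem p1 p1'
  have hm2 : x2 ∈ S.oedge e2 := S.ep_mem p2 p2'
  set C := S.v c with hC
  have hc1' := hc1
  have hc2' := hc2
  rw [mem_openSegment_iff] at hc1' hc2'
  obtain ⟨r1, a0, a1, hce1⟩ := hc1'
  obtain ⟨r2, b0, b1, hce2⟩ := hc2'
  have hTx1 : S.v T1 ≠ x1 := fun h => S.v_not_oedge T1 e1 (h ▸ hm1)
  have hTx2 : S.v T2 ≠ x2 := fun h => S.v_not_oedge T2 e2 (h ▸ hm2)
  have hcT1 : C ≠ S.v T1 := by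
    intro h
    have : r1 • (x1 - S.v T1) = 0 := by rw [← pt_sub_left, ← hce1, h, sub_self]
    rcases smul_eq_zero.1 this with h' | h'
    · linarith
    · exact hTx1 (sub_eq_zero.1 h').symm
  have hcT2 : C ≠ S.v T2 := by
    intro h
    have : r2 • (x2 - S.v T2) = 0 := by rw [← pt_sub_left, ← hce2, h, sub_self]
    rcases smul_eq_zero.1 this with h' | h'
    · linarith
    · exact hTx2 (sub_eq_zero.1 h').symm
  have hsC1 : segment ℝ C (S.v T1) ⊆ S.region := by
    refine subset_trans ?_ hseg1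
    exact (convex_segment _ _).segment_subset (openSegment_subset_segment ℝ _ _ hc1)
      (left_mem_segment ℝ _ _)
  have hsC2 : segment ℝ C (S.v T2) ⊆ S.region := by
    refine subset_trans ?_ hseg2
    exact (convex_segment _ _).segment_subset (openSegment_subset_segment ℝ _ _ hc2)
      (left_mem_segment ℝ _ _)
  obtain ⟨lam, hlam, hT21⟩ : ∃ lam : ℝ, 0 < lam ∧ S.v T2 - C = lam • (S.v T1 - C) := by
    by_contra hcon
    push Not at hcon
    exact win_unique' S.reg hcT1 hcT2 hcon hj1 hsC1 hsC2 hsep1 hsep2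
  -- x_i - C = - a_i (T_i - C)
  have hx1C : x1 - C = (-((1 - r1) / r1)) • (S.v T1 - C) := by
    rw [hce1]
    have : (r1 : ℂ) ≠ 0 := by exact_mod_cast a0.ne'
    unfold pt; simp only [Complex.real_smul]; push_cast; field_simp; ring
  have hx2C : x2 - C = (-((1 - r2) / r2)) • (S.v T2 - C) := by
    rw [hce2]
    have : (r2 : ℂ) ≠ 0 := by exact_mod_cast b0.ne'
    unfold pt; simp only [Complex.real_smul]; push_cast; field_simp; ring
  set A1 := (1 - r1) / r1 with hA1
  set A2 := (1 - r2) / r2 with hA2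
  have hA1p : 0 < A1 := div_pos (by linarith) a0
  have hA2p : 0 < A2 := div_pos (by linarith) b0
  have hline1 : cr (S.dir e1) (S.v T1 - C) ≠ 0 := by
    intro h
    apply S.not_onLine_cr hg1 t1
    have e3 : S.v T1 - S.ep e1 t1 = (1 + A1) • (S.v T1 - C) := by
      have : S.v T1 - S.ep e1 t1 = (S.v T1 - C) - (x1 - C) := by rw [hx1]; ring
      rw [this, hx1C, add_smul, one_smul, neg_smul]; ring
    rw [e3, cr_smul_left, cr_swap, h]; ring
  have hline2 : cr (S.dir e2) (S.v T2 - C) ≠ 0 := by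
    intro h
    apply S.not_onLine_cr hg2 t2
    have e3 : S.v T2 - S.ep e2 t2 = (1 + A2) • (S.v T2 - C) := by
      have : S.v T2 - S.ep e2 t2 = (S.v T2 - C) - (x2 - C) := by rw [hx2]; ring
      rw [this, hx2C, add_smul, one_smul, neg_smul]; ring
    rw [e3, cr_smul_left, cr_swap, h]; ring
  have hsegCx1 : segment ℝ C x1 ⊆ S.region := by
    refine subset_trans ?_ hseg1
    exact (convex_segment _ _).segment_subset (openSegment_subset_segment ℝ _ _ hc1)
      (right_mem_segment ℝ _ _)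
  have hsegCx2 : segment ℝ C x2 ⊆ S.region := by
    refine subset_trans ?_ hseg2
    exact (convex_segment _ _).segment_subset (openSegment_subset_segment ℝ _ _ hc2)
      (right_mem_segment ℝ _ _)
  have hA : A1 = A2 * lam := by
    rcases lt_trichotomy A1 (A2 * lam) with h | h | h
    · -- x1 inside (C, x2)
      exfalso
      have hAl : 0 < A2 * lam := by positivity
      have hmem : x1 ∈ openSegment ℝ C x2 := by
        rw [mem_openSegment_iff]
        refine ⟨A1 / (A2 * lam), by positivity, by rw [div_lt_one hAl]; exact h, ?_⟩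
        have e3 : x1 = C + (x1 - C) := by ring
        unfold pt
        rw [e3, hx1C, hx2C, hT21, smul_smul, smul_smul]
        congr 1
        ring_nf
        congr 1
        field_simp
      have h3 := S.oedge_cross hm1 hmem hsegCx2
      rw [hx2C, hT21, smul_smul, cr_smul_right] at h3
      rcases mul_eq_zero.1 h3 with h4 | h4
      · nlinarith
      · exact hline1 h4
    · exact h
    · exfalso
      have hAl : 0 < A2 * lam := by positivity
      have hmem : x2 ∈ openSegment ℝ C x1 := by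
        rw [mem_openSegment_iff]
        refine ⟨(A2 * lam) / A1, by positivity, by rw [div_lt_one hA1p]; exact h, ?_⟩
        have e3 : x2 = C + (x2 - C) := by ring
        unfold pt
        rw [e3, hx2C, hx1C, hT21, smul_smul, smul_smul]
        congr 1
        ring_nf
        congr 1
        field_simp
      have h3 := S.oedge_cross hm2 hmem hsegCx1
      rw [hx1C, cr_smul_right] at h3
      rcases mul_eq_zero.1 h3 with h4 | h4
      · linarith
      · apply hline2
        rw [hT21, cr_smul_right, h4, mul_zero]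
  have hx12 : x1 = x2 := by
    have e3 : x1 - C = x2 - C := by
      rw [hx1C, hx2C, hT21, smul_smul, hA]; congr 1; ring
    have := sub_left_inj.1 e3
    exact this
  have he : e1 = e2 := by
    have := S.oedge_unique hm2 (j := e1) (by rw [← hx12]; exact S.oedge_sub e1 hm1)
    exact this
  subst he
  have ht12 : t1 = t2 := S.ep_inj hx12
  subst ht12
  obtain ⟨t, q1, q2, q3, q4⟩ := one_point b hd1 hd2
  have w1 := hw1 t q1 q3
  have w2 := hw2 t q2 q3
  have hpar := w1.parallel S.reg w2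
  -- algebra
  have hT2x : S.v T2 - x1 = ((lam + A1) / (1 + A1)) • (S.v T1 - x1) := by
    have e3 : S.v T2 - x1 = (lam + A1) • (S.v T1 - C) := by
      have : S.v T2 - x1 = (S.v T2 - C) - (x1 - C) := by ring
      rw [this, hx1C, hT21, add_smul, neg_smul]; ring
    have e4 : S.v T1 - x1 = (1 + A1) • (S.v T1 - C) := by
      have : S.v T1 - x1 = (S.v T1 - C) - (x1 - C) := by ring
      rw [this, hx1C, add_smul, one_smul, neg_smul]; ring
    rw [e3, e4, smul_smul, div_mul_cancel₀ _ (by linarith)]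
  have hq : cr (S.v T1 - x1) (S.dir e1) ≠ 0 := S.not_onLine_cr hg1 t1
  have e5 : ∀ T : ℂ, T - S.ep e1 t = (T - x1) - (t - t1) • S.dir e1 := by
    intro T
    rw [← S.ep_sub e1 t1 t]; ring
  rw [e5, e5, hT2x] at hpar
  have e6 : cr ((S.v T1 - x1) - (t - t1) • S.dir e1)
      (((lam + A1) / (1 + A1)) • (S.v T1 - x1) - (t - t1) • S.dir e1) =
      (t - t1) * ((lam + A1) / (1 + A1) - 1) * cr (S.v T1 - x1) (S.dir e1) := by
    unfold cr
    simp only [Complex.sub_re, Complex.sub_im, Complex.smul_re, Complex.smul_im, smul_eq_mul]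
    ring
  rw [e6] at hpar
  have h7 : (lam + A1) / (1 + A1) - 1 = 0 := by
    rcases mul_eq_zero.1 hpar with h | h
    · rcases mul_eq_zero.1 h with h' | h'
      · exact absurd (sub_eq_zero.1 h') q4
      · exact h'
    · exact absurd h hq
  have h8 : (lam + A1) / (1 + A1) = 1 := by linarith
  rw [h8, one_smul, sub_left_inj] at hT2x
  have hT12 : T2 = T1 := S.v_inj hT2x
  subst hT12
  have hs := w1.same_side w2
  subst hs
  rfl

/-- there are at most `4n` good labels -/
theorem SimplePolygon.label_count (D : ℂ) (L : Finset (ZMod n × ZMod n × Bool))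
    (hL : ∀ l ∈ L, S.GoodLabel D l) : L.card ≤ 4 * n := by
  classical
  have hNe := S.neZero
  choose! b hb using fun l (hl : l ∈ L) => S.code_exists (hL l hl)
  -- the code map
  have hex : ∀ l ∈ L, ∃ x : (ZMod n ⊕ ZMod n) × Bool,
      (∃ e, x = (Sum.inl e, b l) ∧ S.Code1 D l e (b l)) ∨
      (∃ c, x = (Sum.inr c, b l) ∧ S.Code2 D l c (b l)) := by
    intro l hl
    rcases hb l hl with h | ⟨c, h⟩
    · exact ⟨(Sum.inl l.1, b l), Or.inl ⟨l.1, rfl, h⟩⟩
    · exact ⟨(Sum.inr c, b l), Or.inr ⟨c, rfl, h⟩⟩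
  choose! f hf using hex
  have hinj : Set.InjOn f L := by
    intro l1 hl1 l2 hl2 heq
    have g1 := (hL l1 hl1).1
    have g2 := (hL l2 hl2).1
    rcases hf l1 hl1 with ⟨e1, q1, c1⟩ | ⟨e1, q1, c1⟩ <;>
    rcases hf l2 hl2 with ⟨e2, q2, c2⟩ | ⟨e2, q2, c2⟩
    · rw [q1, q2] at heq
      simp only [Prod.mk.injEq, Sum.inl.injEq] at heq
      obtain ⟨h1, h2⟩ := heq
      rw [← h1, ← h2] at c2
      exact S.code1_inj g1 c1 c2
    · rw [q1, q2] at heq; simp at heq
    · rw [q1, q2] at heq; simp at heq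
    · rw [q1, q2] at heq
      simp only [Prod.mk.injEq, Sum.inr.injEq] at heq
      obtain ⟨h1, h2⟩ := heq
      rw [← h1, ← h2] at c2
      exact S.code2_inj g1 g2 c1 c2
  have hcard := Finset.card_le_card_of_injOn f (t := Finset.univ)
    (fun _ _ => Finset.mem_univ _) hinj
  refine hcard.trans ?_
  rw [Finset.card_univ, Fintype.card_prod, Fintype.card_sum, ZMod.card, Fintype.card_bool]
  omega

end Run7.h395
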