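import Pool.Agent.Run7.h395.Stab

/-!
# Lit sets, windows, and local visibility lemmas
-/

open Set Topology Filter Complex

noncomputable section

namespace Run7.h395

variable {n : ℕ} (S : SimplePolygon n)

/-- the relative interiors of the edges -/
def SimplePolygon.openEdges : Set ℂ := {r | ∃ i, r ∈ S.oedge i}

/-- levels: `lev 0` is empty, `lev (j+1)` is the region lit with at most `j` reflections -/
def SimplePolygon.lev (p : ℂ) : ℕ → Set ℂ
  | 0 => ∅
  | (j + 1) => {x | x ∈ S.region ∧ (svis S.region p x ∨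
      ∃ r, r ∈ SimplePolygon.lev p j ∧ r ∈ S.openEdges ∧ svis S.region r x)}

lemma seg_of_svis {P : Set ℂ} (hP : IsClosed P) {a b : ℂ} (h : svis P a b) :
    segment ℝ a b ⊆ P := by
  rw [← closure_openSegment]
  exact hP.closure_subset_iff.2 (h.trans interior_subset)

lemma svis_scale {P : Set ℂ} {a b : ℂ} (h : svis P a b) {t : ℝ} (h0 : 0 < t) (h1 : t ≤ 1) :
    svis P a (pt a b t) := by
  intro x hx
  apply h
  rw [mem_openSegment_iff] at hx ⊢
  obtain ⟨s, k0, k1, rfl⟩ := hx
  exact ⟨s * t, by positivity, by nlinarith, by rw [pt_pt]⟩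

/-- triangle with sides in `P`: visibility of inner points of the opposite side -/
lemma svis_of_tri {P : Set ℂ} (h : Reg P) {a b c : ℂ} (hD : ori a b c ≠ 0)
    (hab : segment ℝ a b ⊆ P) (hbc : segment ℝ b c ⊆ P) (hac : segment ℝ a c ⊆ P)
    {t : ℝ} (h0 : 0 < t) (h1 : t < 1) : svis P a (pt b c t) := by
  intro x hx
  rw [mem_openSegment_iff] at hx
  obtain ⟨s, k0, k1, rfl⟩ := hx
  have e : pt a (pt b c t) s = a + (s * (1 - t)) • (b - a) + (s * t) • (c - a) := by
    unfold pt; simp only [Complex.real_smul]; push_cast; ring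
  rw [e]
  apply fill_int h hD hab hbc hac
  · have : 0 < 1 - t := by linarith
    positivity
  · positivity
  · nlinarith

lemma seg_of_tri {P : Set ℂ} (h : Reg P) {a b c : ℂ} (hD : ori a b c ≠ 0)
    (hab : segment ℝ a b ⊆ P) (hbc : segment ℝ b c ⊆ P) (hac : segment ℝ a c ⊆ P)
    {t : ℝ} (h0 : 0 ≤ t) (h1 : t ≤ 1) : segment ℝ a (pt b c t) ⊆ P := by
  intro x hx
  rw [mem_segment_iff] at hx
  obtain ⟨s, k0, k1, rfl⟩ := hx
  have e : pt a (pt b c t) s = a + (s * (1 - t)) • (b - a) + (s * t) • (c - a) := by
    unfold pt; simp only [Complex.real_smul]; push_cast; ring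
  rw [e]
  apply fill h hD hab hbc hac
  · have : 0 ≤ 1 - t := by linarith
    positivity
  · positivity
  · nlinarith

/-- the side of a filled triangle is free -/
lemma tri_fr {P : Set ℂ} (h : Reg P) {O y w g : ℂ} {σ : ℝ} (hσ : 0 < σ * cr (w - O) (y - O))
    (hOy : segment ℝ O y ⊆ P) (hyw : segment ℝ y w ⊆ P) (hOw : segment ℝ O w ⊆ P)
    (hg : g ∈ openSegment ℝ O w) : Fr P g (w - O) σ := by
  have hcr : cr (w - O) (y - O) ≠ 0 := by
    intro h0; rw [h0] at hσ; simp at hσ
  have hori : ori O w y ≠ 0 := hcr
  rw [mem_openSegment_iff] at hg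
  obtain ⟨t, h0, h1, rfl⟩ := hg
  set al : ℂ → ℝ := fun z => cr (z - O) (y - O) / cr (w - O) (y - O) with hal
  set be : ℂ → ℝ := fun z => cr (w - O) (z - O) / cr (w - O) (y - O) with hbe
  have halc : Continuous al :=
    (continuous_cr (continuous_id.sub continuous_const) continuous_const).div_const _
  have hbec : Continuous be :=
    (continuous_cr continuous_const (continuous_id.sub continuous_const)).div_const _
  have hdec : ∀ z, z = O + al z • (w - O) + be z • (y - O) := by
    intro z
    have := decomp hcr (z - O)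
    rw [add_assoc, ← this]
    ring
  have halg : al (pt O w t) = t := by
    simp only [hal]
    rw [div_eq_iff hcr]
    unfold cr
    simp only [pt_re, pt_im, Complex.sub_re, Complex.sub_im]
    ring
  have hbeg : be (pt O w t) = 0 := by
    simp only [hbe]
    rw [cr_pt, cr_self]
    simp
  have hnear : ∀ᶠ z in 𝓝 (pt O w t), 0 < al z ∧ al z + be z < 1 := by
    refine Filter.Eventually.and ?_ ?_
    · exact continuousAt_const.eventually_lt halc.continuousAt (by rw [halg]; exact h0)
    · exact (halc.add hbec).continuousAt.eventually_lt continuousAt_const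
        (by change al _ + be _ < 1; rw [halg, hbeg]; linarith)
  obtain ⟨r, hr, hball⟩ := Metric.eventually_nhds_iff.1 hnear
  refine ⟨r, hr, ?_⟩
  intro x hx hside
  obtain ⟨g1, g2⟩ := hball hx
  have hb : 0 < be x := by
    have e : σ * cr (w - O) (x - pt O w t) = be x * (σ * cr (w - O) (y - O)) := by
      have e1 : cr (w - O) (x - pt O w t) = cr (w - O) (x - O) := by
        unfold cr
        simp only [pt_re, pt_im, Complex.sub_re, Complex.sub_im]
        ring
      rw [e1]
      simp only [hbe]
      field_simp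
    rw [e] at hside
    by_contra hcon
    push Not at hcon
    nlinarith
  have hwy : segment ℝ w y ⊆ P := by rw [segment_symm]; exact hyw
  have := fill_int h hori hOw hwy hOy g1 hb g2
  rwa [← hdec x] at this

/-- a blocking point has exterior points on the side opposite to the free side -/
lemma ext_side {P : Set ℂ} {O w g : ℂ} {s : ℝ} (hs : s ≠ 0) (hne : w - O ≠ 0) (hg : g ∈ openSegment ℝ O w)
    (hOw : segment ℝ O w ⊆ P) (hgf : g ∉ interior P) (hfr : Fr P g (w - O) (-s)) :
    ExtAt P g (w - O) s := by
  obtain ⟨r, hr, hball⟩ := hfr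
  rw [mem_openSegment_iff] at hg
  obtain ⟨t, h0, h1, rfl⟩ := hg
  unfold ExtAt
  rw [mem_closure_iff_nhds]
  intro N hN
  set m := min t (1 - t) with hm
  have hm0 : 0 < m := lt_min h0 (by linarith)
  have hwn : 0 < ‖w - O‖ := norm_pos_iff.2 hne
  have hN2 : N ∩ (Metric.ball (pt O w t) r ∩ Metric.ball (pt O w t) (m * ‖w - O‖)) ∈
      𝓝 (pt O w t) :=
    Filter.inter_mem hN (Filter.inter_mem (Metric.ball_mem_nhds _ hr)
      (Metric.ball_mem_nhds _ (by positivity)))
  have hex : ∃ z ∈ N ∩ (Metric.ball (pt O w t) r ∩ Metric.ball (pt O w t) (m * ‖w - O‖)),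
      z ∉ P := by
    by_contra hcon
    push Not at hcon
    apply hgf
    rw [mem_interior_iff_mem_nhds]
    exact Filter.mem_of_superset hN2 hcon
  obtain ⟨z, ⟨hzN, hzr, hzm⟩, hzP⟩ := hex
  refine ⟨z, hzN, hzP, ?_⟩
  change 0 < s * cr (w - O) (z - pt O w t)
  rcases lt_trichotomy (s * cr (w - O) (z - pt O w t)) 0 with h2 | h2 | h2
  · exfalso
    apply hzP
    exact interior_subset (hball z hzr (by linarith))
  · exfalso
    have h3 := (mul_eq_zero.1 h2).resolve_left hs
    obtain ⟨c, hc⟩ := parallel_of_cr hne h3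
    apply hzP
    apply hOw
    rw [mem_segment_iff]
    have habs : |c| < m := by
      rw [Metric.mem_ball, dist_eq_norm, hc, norm_smul, Real.norm_eq_abs] at hzm
      exact lt_of_mul_lt_mul_right hzm hwn.le
    have habs' := abs_lt.1 habs
    refine ⟨t + c, ?_, ?_, ?_⟩
    · have := min_le_left t (1 - t)
      linarith [habs'.1]
    · have := min_le_right t (1 - t)
      linarith [habs'.2]
    · have : z = pt O w t + (z - pt O w t) := by ring
      rw [this, hc]
      unfold pt; simp only [Complex.real_smul]; push_cast; ring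
  · exact h2

/-- the window data of a source `q` through the vertex `T`, with target `D` -/
structure Win (P : Set ℂ) (D q T : ℂ) (s : ℝ) : Prop where
  vis : svis P q T
  ne : q ≠ T
  seg : segment ℝ q T ⊆ P
  ext : ExtAt P T (T - q) s
  half : HalfD P T (T - q) s
  fwd : ∃ u ∈ kap P q T, u ≠ T
  sep : ¬ Cn (P \ kap P q T) q D
  joined : JoinedIn P q D

lemma JoinedIn.of_segment {P : Set ℂ} {a b : ℂ} (h : segment ℝ a b ⊆ P) : JoinedIn P a b := by
  have h1 : IsPathConnected (segment ℝ a b) :=
    (convex_segment a b).isPathConnected ⟨a, left_mem_segment ℝ _ _⟩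
  exact (h1.joinedIn a (left_mem_segment ℝ _ _) b (right_mem_segment ℝ _ _)).mono h

/-- windows slide away from the target side -/
lemma Win.slide {P : Set ℂ} (h : Reg P) {D q T x : ℂ} {s : ℝ} (hw : Win P D q T s)
    (hqx : segment ℝ q x ⊆ P) (hx : 0 < s * cr (T - q) (x - q)) (hvis : svis P x T) :
    Win P D x T s := by
  have hxT : x ≠ T := by
    rintro rfl; simp [cr_self] at hx
  have hseg : segment ℝ x T ⊆ P := seg_of_svis h.closed hvis
  obtain ⟨h1, h2, h3, h4⟩ := Run7.h395.slide (D := D) h hqx hseg hw.seg hx hw.ext hw.half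
  refine ⟨hvis, hxT, hseg, h1, h2, h3, h4 hw.sep, ?_⟩
  have : JoinedIn P x q := by
    apply JoinedIn.of_segment
    rw [segment_symm]; exact hqx
  exact this.trans hw.joined

/-- windows at two points of a segment give windows in between -/
lemma Win.between {P : Set ℂ} (h : Reg P) {D a b T : ℂ} {s : ℝ} (ha : Win P D a T s)
    (hb : Win P D b T s) (hab : segment ℝ a b ⊆ P) (hori : ori a b T ≠ 0) {t : ℝ}
    (h0 : 0 ≤ t) (h1 : t ≤ 1) : Win P D (pt a b t) T s := by
  have hs : s ≠ 0 := by
    rintro rfl
    have := ha.ext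
    unfold ExtAt at this
    simp at this
  have key : ∀ a b : ℂ, Win P D a T s → Win P D b T s → segment ℝ a b ⊆ P → ori a b T ≠ 0 →
      0 < s * cr (T - a) (b - a) → ∀ t : ℝ, 0 ≤ t → t ≤ 1 → Win P D (pt a b t) T s := by
    intro a b ha hb hab hori hpos t h0 h1
    rcases h0.eq_or_lt with e0 | e0
    · rw [← e0, pt_zero]; exact ha
    · rcases h1.eq_or_lt with e1 | e1
      · rw [e1, pt_one]; exact hb
      · apply ha.slide h
        · refine subset_trans ?_ hab
          exact (convex_segment _ _).segment_subset (left_mem_segment ℝ _ _)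
            (pt_mem_segment h0 h1)
        · rw [cr_pt]
          have : s * (t * cr (T - a) (b - a)) = t * (s * cr (T - a) (b - a)) := by ring
          rw [this]
          positivity
        · apply svis_symm
          apply svis_of_tri h (a := T) (b := a) (c := b)
          · intro h0; apply hori
            have : ori T a b = ori a b T := by
              unfold ori cr; simp only [Complex.sub_re, Complex.sub_im]; ring
            rw [← this]; exact h0
          · rw [segment_symm]; exact ha.seg
          · exact hab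
          · rw [segment_symm]; exact hb.seg
          · exact e0
          · exact e1
  have hne : s * cr (T - a) (b - a) ≠ 0 := by
    apply mul_ne_zero hs
    intro h0; apply hori
    have : ori a b T = - cr (T - a) (b - a) := by
      unfold ori; rw [cr_swap]
    rw [this, h0, neg_zero]
  rcases lt_or_gt_of_ne hne with hneg | hpos
  · have hpos' : 0 < s * cr (T - b) (a - b) := by
      have : s * cr (T - b) (a - b) = -(s * cr (T - a) (b - a)) := by
        unfold cr; simp only [Complex.sub_re, Complex.sub_im]; ring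
      rw [this]; linarith
    have := key b a hb ha (by rw [segment_symm]; exact hab) (by
      intro h0; apply hori
      have : ori a b T = - ori b a T := by
        unfold ori cr; simp only [Complex.sub_re, Complex.sub_im]; ring
      rw [this, h0, neg_zero]) hpos' (1 - t) (by linarith) (by linarith)
    have e : pt b a (1 - t) = pt a b t := by
      unfold pt; simp only [Complex.real_smul]; push_cast; ring
    rwa [e] at this
  · exact key a b ha hb hab hori hpos t h0 h1

/-- the far side edge is on the exterior side of a passing line -/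
lemma far_side {P : Set ℂ} {T F w : ℂ} {s : ℝ} (hs : s ≠ 0)
    (hTF : segment ℝ T F ⊆ frontier P) (hTF' : T ≠ F)
    (hint : ∃ ρ0 > 0, ∀ ρ : ℝ, 0 < ρ → ρ < ρ0 → T + ρ • w ∈ interior P)
    (hhalf : HalfD P T w s) (hext : ExtAt P T w s)
    (hHD : ∃ r > 0, ∀ x, dist x T < r → s * cr (F - T) (x - T) < 0 → x ∈ interior P) :
    0 < s * cr w (F - T) := by
  have hw : w ≠ 0 := by
    rintro rfl
    unfold ExtAt at hext
    simp [cr_zero_left] at hext
  by_contra hcon
  push Not at hcon
  rcases hcon.lt_or_eq with h1 | h1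
  · obtain ⟨r, hr, hball⟩ := hhalf.fr
    obtain ⟨μ, hμ0, hμ1, hμr⟩ := exists_small (F - T) hr 1 one_pos
    refine frontier_not_int (hTF (pt_mem_segment hμ0.le hμ1.le)) (hball (pt T F μ) ?_ ?_)
    · rw [pt_dist_left, abs_of_pos hμ0]; exact hμr
    · rw [cr_pt]; nlinarith
  · have h2 := (mul_eq_zero.1 h1).resolve_left hs
    obtain ⟨c, hc⟩ := parallel_of_cr hw h2
    have hc0 : c ≠ 0 := by
      rintro rfl
      rw [zero_smul, sub_eq_zero] at hc
      exact hTF' hc.symm
    rcases lt_or_gt_of_ne hc0 with hneg | hpos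
    · obtain ⟨r, hr, hball⟩ := hHD
      unfold ExtAt at hext
      rw [mem_closure_iff_nhds] at hext
      obtain ⟨z, hz, hzP, hz2⟩ := hext _ (Metric.ball_mem_nhds T hr)
      have hz2 : 0 < s * cr w (z - T) := hz2
      apply hzP
      apply interior_subset
      apply hball z hz
      rw [hc, cr_smul_left]
      nlinarith
    · obtain ⟨ρ0, hρ0, hi⟩ := hint
      obtain ⟨μ, hμ0, hμ1, hμr⟩ := exists_small 0 (one_pos) (min 1 (ρ0 / c))
        (lt_min one_pos (by positivity))
      have hμ1' : μ < 1 := hμ1.trans_le (min_le_left _ _)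
      have hμ2' : μ < ρ0 / c := hμ1.trans_le (min_le_right _ _)
      refine frontier_not_int (hTF (pt_mem_segment hμ0.le hμ1'.le)) ?_
      have e : pt T F μ = T + (μ * c) • w := by
        unfold pt; rw [hc, smul_smul]
      rw [e]
      apply hi
      · positivity
      · rwa [lt_div_iff₀ hpos] at hμ2'

/-- a point seeing a vertex strictly from the inner side of an incident edge sees the points of
this edge near the vertex -/
lemma SimplePolygon.see_edge {T F B : ℂ} {s : ℝ} (hB : svis S.region B T)
    (hHD : ∃ r > 0, ∀ x, dist x T < r → s * cr (F - T) (x - T) < 0 → x ∈ interior S.region)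
    (hside : s * cr (F - T) (B - T) < 0) :
    ∃ ρ > 0, ∀ μ : ℝ, 0 ≤ μ → μ < ρ → svis S.region B (pt T F μ) := by
  obtain ⟨r, hr, hball⟩ := hHD
  have hBT : T ≠ B := by
    rintro rfl; simp [cr_zero_right] at hside
  have hF : F - T ≠ 0 := by
    intro h0; rw [h0, cr_zero_left] at hside; simp at hside
  obtain ⟨δ, hδ, hst⟩ := S.stab (A := T) (B := B) (H := univ) hBT (fun _ _ _ _ => mem_univ _)
    (by
      intro x hx
      have hx' : x ∈ interior S.region := by
        apply hB; rw [openSegment_symm]; exact hx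
      obtain ⟨ρ, hρ, hb⟩ := Metric.isOpen_iff.1 isOpen_interior x hx'
      exact ⟨ρ, hρ, fun y hy _ => hb hy⟩) hr
  refine ⟨δ / ‖F - T‖, div_pos hδ (norm_pos_iff.2 hF), ?_⟩
  intro μ h0 h1 x hx
  rw [openSegment_symm] at hx
  rcases le_or_gt r (dist x T) with h2 | h2
  · refine hst (pt T F μ) ?_ (mem_univ _) x hx h2
    rw [pt_dist_left, abs_of_nonneg h0]
    rwa [lt_div_iff₀ (norm_pos_iff.2 hF)] at h1
  · apply hball x h2
    rw [mem_openSegment_iff] at hx
    obtain ⟨t, k0, k1, rfl⟩ := hx
    have e : s * cr (F - T) (pt (pt T F μ) B t - T) = t * (s * cr (F - T) (B - T)) := by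
      unfold cr
      simp only [pt_re, pt_im, Complex.sub_re, Complex.sub_im]
      ring
    rw [e]
    nlinarith

end Run7.h395
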