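import Pool.Agent.Run7.h395.RelCount

/-!
# Pockets behind windows, and the count of relevant windows with a given target
-/

open Set Topology Filter Complex

noncomputable section

namespace Run7.h395

variable {n : ℕ} (S : SimplePolygon n)

/-- the closed region is path connected -/
theorem SimplePolygon.joined {x y : ℂ} (hx : x ∈ S.region) (hy : y ∈ S.region) :
    JoinedIn S.region x y := by
  have hNe := S.neZero
  have h1 : ∀ z ∈ S.region, ∃ w ∈ frontier S.region, JoinedIn S.region z w := by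
    intro z hz
    by_cases hzi : z ∈ interior S.region
    · obtain ⟨r, hr, hb⟩ := Metric.isOpen_iff.1 isOpen_interior z hzi
      set T : ℂ := z + ((r / 2 : ℝ) : ℂ) with hT
      have hdist : ∀ t : ℝ, 0 ≤ t → t ≤ 1 → pt z T t ∈ S.region := by
        intro t h0 h1
        apply interior_subset
        apply hb
        rw [Metric.mem_ball, pt_dist_left]
        have e1 : T - z = ((r / 2 : ℝ) : ℂ) := by rw [hT]; ring
        rw [e1, Complex.norm_real, Real.norm_eq_abs, abs_of_nonneg h0, abs_of_pos (by positivity)]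
        nlinarith
      have hne : z ≠ T := by
        intro h
        have e1 : T - z = ((r / 2 : ℝ) : ℂ) := by rw [hT]; ring
        rw [← h, sub_self] at e1
        have := Complex.ofReal_eq_zero.1 e1.symm
        linarith
      have hseg : segment ℝ z T ⊆ S.region := by
        intro w hw
        rw [mem_segment_iff] at hw
        obtain ⟨t, h0, h1, rfl⟩ := hw
        exact hdist t h0 h1
      obtain ⟨tm, -, hs, -, -, hfar⟩ := kap_struct S.reg hne hseg
      refine ⟨pt z T tm, ?_, JoinedIn.of_segment hs⟩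
      apply mem_frontier_of (hs (right_mem_segment ℝ _ _))
      intro hint
      have hc : ∀ᶠ t in 𝓝 tm, pt z T t ∈ interior S.region :=
        (continuous_pt z T).continuousAt.eventually_mem (isOpen_interior.mem_nhds hint)
      obtain ⟨η, hη, hball⟩ := Metric.eventually_nhds_iff.1 hc
      obtain ⟨t, g1, g2, g3⟩ := hfar η hη
      apply g3
      apply interior_subset
      apply hball
      rw [Real.dist_eq, abs_of_pos (by linarith)]
      linarith
    · exact ⟨z, mem_frontier_of hz hzi, JoinedIn.refl hz⟩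
  have h2 : ∀ m : ℕ, JoinedIn S.region (S.v 0) (S.v (m : ZMod n)) := by
    intro m
    induction m with
    | zero =>
      rw [Nat.cast_zero]
      exact JoinedIn.refl (S.edge_sub 0 (left_mem_segment ℝ _ _))
    | succ m ih =>
      refine ih.trans ?_
      have : ((m + 1 : ℕ) : ZMod n) = (m : ZMod n) + 1 := by push_cast; ring
      rw [this]
      exact JoinedIn.of_segment (S.edge_sub (m : ZMod n))
  have h3 : ∀ z ∈ S.region, JoinedIn S.region (S.v 0) z := by
    intro z hz
    obtain ⟨w, hw, hj⟩ := h1 z hz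
    rw [S.region_frontier, Set.mem_iUnion] at hw
    obtain ⟨i, hi⟩ := hw
    have h4 := h2 i.val
    rw [ZMod.natCast_zmod_val] at h4
    refine h4.trans (JoinedIn.trans ?_ hj.symm)
    apply JoinedIn.of_segment
    exact ((convex_segment _ _).segment_subset (left_mem_segment ℝ _ _) hi).trans (S.edge_sub i)
  exact (h3 x hx).symm.trans (h3 y hy)

/-- `z` is in the pocket cut off by the window from `A` through the vertex `m` -/
def SimplePolygon.In (A : ℂ) (m : ZMod n) (z : ℂ) : Prop :=
  ¬ Cn (S.region \ kap S.region A (S.v m)) A z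

variable {S} in
lemma SimplePolygon.In.step {A : ℂ} {m : ZMod n} {z z' : ℂ} (hz : S.In A m z)
    (hseg : segment ℝ z z' ⊆ S.region)
    (hno : ∀ w ∈ segment ℝ z z', w ∉ kap S.region A (S.v m)) : S.In A m z' := by
  intro hc
  apply hz
  refine hc.trans (Cn.symm (Cn.of_segment ?_))
  intro w hw
  exact ⟨hseg hw, hno w hw⟩

lemma SimplePolygon.in_of_kap {A : ℂ} {m : ZMod n} {z : ℂ} (hz : z ∈ kap S.region A (S.v m)) :
    S.In A m z := by
  rintro ⟨C, -, -, h3, -, h5⟩
  exact (h3 h5).2 hz

variable {S} in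
lemma SimplePolygon.In.cross {A : ℂ} {m : ZMod n} {z z' : ℂ} (hz : S.In A m z)
    (hz' : ¬ S.In A m z') (hseg : segment ℝ z z' ⊆ S.region) :
    ∃ g ∈ segment ℝ z z', g ∈ kap S.region A (S.v m) := by
  by_contra hcon
  push Not at hcon
  exact hz' (hz.step hseg hcon)

/-- the window at a relevant point with another target -/
lemma SimplePolygon.Rel.winD {p D : ℂ} {k : ℕ} {i : Item n} (h : S.Rel p k i)
    (hD : D ∈ S.region) (hsep : S.In (S.ep i.1 (tt i)) i.2.1 D) :
    Win S.region D (S.ep i.1 (tt i)) (S.v i.2.1) (sg i.2.2.1) := by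
  have h1 := SimplePolygon.Rel.win S h
  exact ⟨h1.vis, h1.ne, h1.seg, h1.ext, h1.half, h1.fwd, hsep,
    S.joined (h1.seg (left_mem_segment ℝ _ _)) hD⟩

/-- nearby lit window points -/
lemma SimplePolygon.Rel.nearD {p D : ℂ} {k : ℕ} {i : Item n} (h : S.Rel p k i)
    (hw : Win S.region D (S.ep i.1 (tt i)) (S.v i.2.1) (sg i.2.2.1)) {γ : ℝ} (hγ : 0 < γ) :
    ∃ t', |t' - tt i| < γ ∧ 0 < (t' - tt i) * S.lc (lab i) ∧ 0 < t' ∧ t' < 1 ∧
      S.ep i.1 t' ∈ S.lev p k ∧
      Win S.region D (S.ep i.1 t') (S.v i.2.1) (sg i.2.2.1) := by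
  have h0 := h.t0
  have h1 := h.t1
  have hev := S.svis_edge_open h0 h1 (svis_symm h.vis)
  obtain ⟨δ, hδ, hb⟩ := Metric.eventually_nhds_iff.1 hev
  obtain ⟨t', g1, g2, g3⟩ := h.lit (min γ (min δ (min (tt i) (1 - tt i))))
    (lt_min hγ (lt_min hδ (lt_min h0 (by linarith))))
  have g4 := g1.trans_le (min_le_right _ _)
  have g5 := g4.trans_le (min_le_right _ _)
  have g6 := abs_lt.1 (g5.trans_le (min_le_left _ _))
  have g7 := abs_lt.1 (g5.trans_le (min_le_right _ _))
  have k0 : 0 < t' := by linarith [g6.1]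
  have k1 : t' < 1 := by linarith [g7.2]
  refine ⟨t', g1.trans_le (min_le_left _ _), g2, k0, k1, g3, ?_⟩
  refine S.win_slide h0.le h1.le k0.le k1.le hw g2 (svis_symm (hb ?_))
  rw [Real.dist_eq]
  exact g4.trans_le (min_le_left _ _)

/-- moving an item -/
def mv {n : ℕ} (f : Item n → ℝ) (i : Item n) : Item n := (i.1, i.2.1, i.2.2.1, f i)

lemma lab_mv {n : ℕ} (f : Item n → ℝ) (i : Item n) : lab (mv f i) = lab i := rfl

lemma tt_mv {n : ℕ} (f : Item n → ℝ) (i : Item n) : tt (mv f i) = f i := rfl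

/-- relevant windows give a separated family of lit window points close to them -/
theorem SimplePolygon.rel_datum {p D : ℂ} {k : ℕ} (F : Finset (Item n))
    (hR : ∀ i ∈ F, S.Rel p k i)
    (hD : ∀ i ∈ F, Win S.region D (S.ep i.1 (tt i)) (S.v i.2.1) (sg i.2.2.1))
    (δ0 : Item n → ℝ) (hδ0 : ∀ i ∈ F, 0 < δ0 i) :
    ∃ f : Item n → ℝ, (∀ i ∈ F, |f i - tt i| < δ0 i ∧ 0 < (f i - tt i) * S.lc (lab i)) ∧
      Set.InjOn (mv f) F ∧ ∀ [DecidableEq (Item n)], S.Datum p D k (F.image (mv f)) := by
  classical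
  obtain ⟨γ, hγ, hgap⟩ : ∃ γ > 0, ∀ i ∈ F, ∀ l ∈ F, tt i < tt l → γ ≤ tt l - tt i := by
    set D := (F ×ˢ F).filter (fun x => tt x.1 < tt x.2) with hD
    rcases D.eq_empty_or_nonempty with h | h
    · refine ⟨1, one_pos, ?_⟩
      intro i hi l hl hlt
      have : (i, l) ∈ D := Finset.mem_filter.2 ⟨Finset.mem_product.2 ⟨hi, hl⟩, hlt⟩
      rw [h] at this
      exact absurd this (Finset.notMem_empty _)
    · obtain ⟨x, hx, hmin⟩ := Finset.exists_min_image D (fun x => tt x.2 - tt x.1) h
      refine ⟨tt x.2 - tt x.1, sub_pos.2 (Finset.mem_filter.1 hx).2, ?_⟩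
      intro i hi l hl hlt
      exact hmin (i, l) (Finset.mem_filter.2 ⟨Finset.mem_product.2 ⟨hi, hl⟩, hlt⟩)
  have hex : ∀ i ∈ F, ∃ t', |t' - tt i| < min (γ / 2) (δ0 i) ∧ 0 < (t' - tt i) * S.lc (lab i) ∧
      0 < t' ∧ t' < 1 ∧ S.ep i.1 t' ∈ S.lev p k ∧
      Win S.region D (S.ep i.1 t') (S.v i.2.1) (sg i.2.2.1) :=
    fun i hi => SimplePolygon.Rel.nearD S (hR i hi) (hD i hi)
      (lt_min (by positivity) (hδ0 i hi))
  choose! f hf1' hf2 hf3 hf4 hf5 hf6 using hex
  have hf1 : ∀ i ∈ F, |f i - tt i| < γ / 2 := fun i hi => (hf1' i hi).trans_le (min_le_left _ _)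
  set g : Item n → Item n := mv f with hg
  have hlabg : ∀ i, lab (g i) = lab i := fun i => rfl
  have httg : ∀ i, tt (g i) = f i := fun i => rfl
  have hmono : ∀ i ∈ F, ∀ l ∈ F, tt i < tt l → f i < f l := by
    intro i hi l hl hlt
    have h1 := abs_lt.1 (hf1 i hi)
    have h2 := abs_lt.1 (hf1 l hl)
    have h3 := hgap i hi l hl hlt
    linarith [h1.2, h2.1]
  have hinj : Set.InjOn g F := by
    intro i hi l hl hil
    have h1 : lab i = lab l := by rw [← hlabg i, ← hlabg l, hil]
    have h2 : f i = f l := by rw [← httg i, ← httg l, hil]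
    apply item_ext h1
    rcases lt_trichotomy (tt i) (tt l) with h | h | h
    · have := hmono i hi l hl h; linarith
    · exact h
    · have := hmono l hl i hi h; linarith
  refine ⟨f, fun i hi => ⟨(hf1' i hi).trans_le (min_le_right _ _), hf2 i hi⟩, hinj, ?_⟩
  intro hdec
  constructor
  · intro x hx
    obtain ⟨i, hi, rfl⟩ := Finset.mem_image.1 hx
    have hRi := hR i hi
    have hDi := hD i hi
    have hw := hf6 i hi
    refine ⟨hf3 i hi, hf4 i hi, hf5 i hi, hw, hRi.back, hRi.nol, ?_⟩
    have hne : f i ≠ tt i := by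
      intro h
      have := hf2 i hi
      rw [h, sub_self, zero_mul] at this
      exact lt_irrefl _ this
    rcases lt_or_gt_of_ne hne with h | h
    · exact ⟨f i, tt i, hf3 i hi, h, hRi.t1, hw, hDi⟩
    · exact ⟨tt i, f i, hRi.t0, h, hf4 i hi, hDi, hw⟩
  · intro x hx y hy hlab hlt
    obtain ⟨i, hi, rfl⟩ := Finset.mem_image.1 hx
    obtain ⟨l, hl, rfl⟩ := Finset.mem_image.1 hy
    rw [hlabg, hlabg] at hlab
    rw [httg, httg] at hlt
    have htlt : tt i < tt l := by
      rcases lt_trichotomy (tt i) (tt l) with h | h | h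
      · exact h
      · have := item_ext hlab h
        rw [this] at hlt
        exact absurd hlt (lt_irrefl _)
      · have := hmono l hl i hi h; linarith
    have h1 := abs_lt.1 (hf1 i hi)
    have h2 := abs_lt.1 (hf1 l hl)
    have h3 := hgap i hi l hl htlt
    have hli := hf2 i hi
    have hll := hf2 l hl
    have hel : l.1 = i.1 := congrArg (fun z => z.1) hlab.symm
    change ∃ τ, f i < τ ∧ τ < f l ∧ S.ep i.1 τ ∉ S.lev p k
    have hlcne : S.lc (lab i) ≠ 0 := by
      intro h; rw [h, mul_zero] at hli; exact lt_irrefl _ hli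
    rcases lt_or_gt_of_ne hlcne with h | h
    · -- lit on the left, dark on the right
      obtain ⟨δ, hδ, hd⟩ := (hR i hi).dark
      have g1 : f i < tt i := by
        by_contra hc
        push Not at hc
        have := mul_nonpos_of_nonneg_of_nonpos (sub_nonneg.2 hc) h.le
        linarith
      set ε := min δ γ / 4 with hε
      have hε0 : 0 < ε := by positivity
      have hε1 : ε < δ := by
        have := min_le_left δ γ; rw [hε]; linarith
      have hε2 : ε ≤ γ / 4 := by
        have := min_le_right δ γ; rw [hε]; linarith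
      refine ⟨tt i + ε, by linarith, by linarith [h2.1], hd _ ?_ ?_⟩
      · rw [add_sub_cancel_left, abs_of_pos hε0]; exact hε1
      · rw [add_sub_cancel_left]; exact mul_neg_of_pos_of_neg hε0 h
    · obtain ⟨δ, hδ, hd⟩ := (hR l hl).dark
      rw [← hlab] at hll hd
      have g1 : tt l < f l := by
        by_contra hc
        push Not at hc
        have := mul_nonpos_of_nonpos_of_nonneg (sub_nonpos.2 hc) h.le
        linarith
      set ε := min δ γ / 4 with hε
      have hε0 : 0 < ε := by positivity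
      have hε1 : ε < δ := by
        have := min_le_left δ γ; rw [hε]; linarith
      have hε2 : ε ≤ γ / 4 := by
        have := min_le_right δ γ; rw [hε]; linarith
      have e1 : tt l - ε - tt l = -ε := by ring
      refine ⟨tt l - ε, by linarith [h1.2], by linarith, ?_⟩
      rw [← hel]
      apply hd _ ?_ ?_
      · rw [e1, abs_neg, abs_of_pos hε0]; exact hε1
      · rw [e1]; exact mul_neg_of_neg_of_pos (by linarith) h

/-- the number of relevant windows that cut off a given point -/
theorem SimplePolygon.rel_countD {p D : ℂ} {k : ℕ} (hDR : D ∈ S.region) (F : Finset (Item n))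
    (hR : ∀ i ∈ F, S.Rel p k i) (hD : ∀ i ∈ F, S.In (S.ep i.1 (tt i)) i.2.1 D) :
    F.card ≤ 20 * n * k := by
  classical
  obtain ⟨f, -, hinj, hF⟩ := S.rel_datum F hR
    (fun i hi => SimplePolygon.Rel.winD S (hR i hi) hDR (hD i hi)) (fun _ => 1)
    (fun _ _ => one_pos)
  rw [← Finset.card_image_of_injOn hinj]
  exact S.main_count p D k _ hF

end Run7.h395
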