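import Pool.Agent.Run7.h395.LocA

/-!
# Counting labels inside a pocket
-/

open Set Topology Filter Complex

noncomputable section

namespace Run7.h395

variable {n : ℕ} (S : SimplePolygon n)

/-- the number of vertices in a pocket -/
def SimplePolygon.nIn (A : ℂ) (m : ZMod n) : ℕ := {c : ZMod n | S.In A m (S.v c)}.ncard

/-- windows between two windows of the same label -/
lemma SimplePolygon.win_mid {D : ℂ} {e T : ZMod n} {s : ℝ} (hg : ¬ S.onLine e (S.v T))
    {ta tb t' : ℝ} (ha0 : 0 ≤ ta) (ha1 : ta ≤ 1) (hb0 : 0 ≤ tb) (hb1 : tb ≤ 1)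
    (wa : Win S.region D (S.ep e ta) (S.v T) s) (wb : Win S.region D (S.ep e tb) (S.v T) s)
    (hbt : (ta ≤ t' ∧ t' ≤ tb) ∨ (tb ≤ t' ∧ t' ≤ ta)) : Win S.region D (S.ep e t') (S.v T) s := by
  rcases eq_or_ne ta tb with h | h
  · have : t' = ta := by
      rcases hbt with h' | h'
      · linarith [h'.1, h'.2]
      · linarith [h'.1, h'.2]
    rw [this]; exact wa
  have hlc : cr (S.v T - S.v e) (S.dir e) ≠ 0 := by
    intro h0
    apply hg
    change cr (S.dir e) (S.v T - S.v e) = 0
    rw [cr_swap, h0, neg_zero]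
  have hne : tb - ta ≠ 0 := sub_ne_zero.2 h.symm
  have hρ : S.ep e t' = pt (S.ep e ta) (S.ep e tb) ((t' - ta) / (tb - ta)) := by
    rw [S.pt_ep]
    congr 1
    field_simp
    ring
  rw [hρ]
  apply Win.between S.reg wa wb (S.ep_seg' ha0 ha1 hb0 hb1)
  · intro h0
    have e1 : ori (S.ep e ta) (S.ep e tb) (S.v T) =
        -(tb - ta) * cr (S.v T - S.v e) (S.dir e) := by
      unfold ori
      rw [S.ep_sub, cr_smul_left, cr_swap, S.cr_ep e (S.v T) 0 ta]
      ring
    rw [e1] at h0
    rcases mul_eq_zero.1 h0 with h' | h'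
    · exact hne (by linarith)
    · exact hlc h'
  · rcases hbt with h' | h'
    · exact div_nonneg (by linarith [h'.1]) (by linarith [h'.1, h'.2])
    · exact div_nonneg_of_nonpos (by linarith [h'.2]) (by linarith [h'.1, h'.2])
  · rcases hbt with h' | h'
    · have : 0 < tb - ta := lt_of_le_of_ne (by linarith [h'.1, h'.2]) hne.symm
      rw [div_le_one this]; linarith [h'.2]
    · have : tb - ta < 0 := lt_of_le_of_ne (by linarith [h'.1, h'.2]) hne
      rw [div_le_one_of_neg this]; linarith [h'.1]

/-- sliding inside a pocket -/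
lemma SimplePolygon.slide_end {A : ℂ} {m : ZMod n} {e : ZMod n} {t t1 : ℝ}
    (h0 : 0 < t) (h1 : t < 1) (h10 : 0 ≤ t1) (h11 : t1 ≤ 1) (hin : S.In A m (S.ep e t))
    (hno : ∀ r, 0 ≤ r → r < 1 → S.ep e (t + r * (t1 - t)) ∉ kap S.region A (S.v m)) :
    S.In A m (S.ep e t1) := by
  by_cases hk : S.ep e t1 ∈ kap S.region A (S.v m)
  · exact S.in_of_kap hk
  · refine hin.step (S.ep_seg' h0.le h1.le h10 h11) ?_
    intro w hw
    rw [mem_segment_iff] at hw
    obtain ⟨r, g0, g1, rfl⟩ := hw
    rw [S.pt_ep]
    rcases g1.eq_or_lt with h | h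
    · rw [h]
      have : t + 1 * (t1 - t) = t1 := by ring
      rw [this]; exact hk
    · exact hno r g0 h

/-- a window whose source and target lie on a common window segment -/
lemma SimplePolygon.ex_data {A D : ℂ} {m : ZMod n} (hA : A ≠ S.v m)
    (hseg : segment ℝ A (S.v m) ⊆ S.region) (hDk : D ∈ kap S.region A (S.v m))
    (hDi : D ∈ interior S.region) {z : ℂ} {T : ZMod n} {s : ℝ} (hz : z ∈ kap S.region A (S.v m))
    (hw : Win S.region D z (S.v T) s) : ∃ ρ : ℝ, 0 < ρ ∧ ρ < 1 ∧ S.v T = pt z D ρ := by
  have hsub : segment ℝ z D ⊆ kap S.region A (S.v m) :=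
    (kap_convex S.reg hA hseg).segment_subset hz hDk
  have hg : ∃ g ∈ segment ℝ z D, g ∈ kap S.region z (S.v T) := by
    by_contra hcon
    push Not at hcon
    apply hw.sep
    apply Cn.of_segment
    intro w hw'
    exact ⟨kap_sub (hsub hw'), hcon w hw'⟩
  obtain ⟨g, hg1, hg2⟩ := hg
  have hgz := kap_ne hw.ne hg2
  rw [mem_segment_iff] at hg1
  obtain ⟨r, r0, r1, rfl⟩ := hg1
  obtain ⟨τ, hτ1, hτ, -⟩ := hg2
  have hr : 0 < r := by
    rcases r0.eq_or_lt with h | h
    · exfalso; apply hgz; rw [← h]; simp
    · exact h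
  have hτ0 : 0 < τ := by linarith
  have hT : S.v T = pt z D (r / τ) := by
    have h2 : S.v T = pt z (pt z (S.v T) τ) (1 / τ) := by
      rw [pt_pt, one_div_mul_cancel hτ0.ne', pt_one]
    rw [h2, ← hτ, pt_pt]
    congr 1; ring
  refine ⟨r / τ, by positivity, ?_, hT⟩
  have hle : r / τ ≤ 1 := by rw [div_le_one hτ0]; linarith
  rcases hle.eq_or_lt with h | h
  · exfalso
    rw [h, pt_one] at hT
    rw [← hT] at hDi
    exact frontier_not_int (S.v_frontier T) hDi
  · exact h

/-- exceptional labels -/
def SimplePolygon.Exc (A D : ℂ) (m : ZMod n) (l : ZMod n × ZMod n × Bool) : Prop :=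
  ∃ t, 0 < t ∧ t < 1 ∧ Win S.region D (S.ep l.1 t) (S.v l.2.1) (sg l.2.2) ∧
    S.ep l.1 t ∈ kap S.region A (S.v m)

lemma SimplePolygon.exc_unique {A D : ℂ} {m : ZMod n} (hA : A ≠ S.v m)
    (hseg : segment ℝ A (S.v m) ⊆ S.region) (hDk : D ∈ kap S.region A (S.v m))
    (hDi : D ∈ interior S.region) {l1 l2 : ZMod n × ZMod n × Bool}
    (g1 : ¬ S.onLine l1.1 (S.v l1.2.1)) (g2 : ¬ S.onLine l2.1 (S.v l2.2.1))
    (h1 : S.Exc A D m l1) (h2 : S.Exc A D m l2) : l1 = l2 := by
  obtain ⟨t1, a1, b1, w1, k1⟩ := h1
  obtain ⟨t2, a2, b2, w2, k2⟩ := h2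
  obtain ⟨ρ1, c1, d1, e1⟩ := S.ex_data hA hseg hDk hDi k1 w1
  obtain ⟨ρ2, c2, d2, e2⟩ := S.ex_data hA hseg hDk hDi k2 w2
  have htr : ∀ (l : ZMod n × ZMod n × Bool) (t ρ : ℝ), ¬ S.onLine l.1 (S.v l.2.1) →
      S.ep l.1 t ∈ kap S.region A (S.v m) → S.v l.2.1 = pt (S.ep l.1 t) D ρ →
      cr (S.dir l.1) (S.v m - A) ≠ 0 := by
    intro l t ρ hg hk hv h0
    apply hg
    obtain ⟨a, -, ha, -⟩ := hk
    obtain ⟨d, -, hd, -⟩ := hDk
    have f1 : S.v l.2.1 - S.ep l.1 t = (ρ * (d - a)) • (S.v m - A) := by
      rw [hv, pt_sub_left, hd, ha, pt_sub_pt, smul_smul]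
    have f2 : S.v l.2.1 - S.v l.1 = (S.v l.2.1 - S.ep l.1 t) + (S.ep l.1 t - S.v l.1) := by ring
    change cr (S.dir l.1) (S.v l.2.1 - S.v l.1) = 0
    rw [f2, cr_add_right, f1, cr_smul_right, h0, S.ep_sub_v, cr_smul_right, cr_self]
    ring
  have hz := S.far_unique (S.ep_mem a1 b1) (S.ep_mem a2 b2) k1 k2 (htr l1 t1 ρ1 g1 k1 e1)
    (htr l2 t2 ρ2 g2 k2 e2)
  have he : l2.1 = l1.1 := S.oedge_unique (S.ep_mem a1 b1)
    (by rw [hz]; exact S.oedge_sub _ (S.ep_mem a2 b2))
  have key : ∀ (z : ℂ) (T T' : ZMod n) (ρ ρ' : ℝ), 0 < ρ → ρ < ρ' → S.v T = pt z D ρ →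
      S.v T' = pt z D ρ' → svis S.region z (S.v T') → False := by
    intro z T T' ρ ρ' h0 hlt hT hT' hv
    apply frontier_not_int (S.v_frontier T)
    apply hv
    rw [mem_openSegment_iff]
    have : 0 < ρ' := by linarith
    refine ⟨ρ / ρ', by positivity, by rw [div_lt_one this]; exact hlt, ?_⟩
    rw [hT, hT', pt_pt, div_mul_cancel₀ _ this.ne']
  have hT : l1.2.1 = l2.2.1 := by
    rw [← hz] at e2 w2
    rcases lt_trichotomy ρ1 ρ2 with h | h | h
    · exact (key _ _ _ ρ1 ρ2 c1 h e1 e2 w2.vis).elim
    · apply S.v_inj; rw [e1, e2, h]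
    · exact (key _ _ _ ρ2 ρ1 c2 h e2 e1 w1.vis).elim
  have hb : l1.2.2 = l2.2.2 := by
    rw [← hz, ← hT] at w2
    exact w1.same_side w2
  exact Prod.ext he.symm (Prod.ext hT hb)

theorem SimplePolygon.loc_label {A D : ℂ} {m : ZMod n} (hA : A ≠ S.v m)
    (hseg : segment ℝ A (S.v m) ⊆ S.region) (hDk : D ∈ kap S.region A (S.v m))
    (hDi : D ∈ interior S.region) (L : Finset (ZMod n × ZMod n × Bool))
    (hL : ∀ l ∈ L, S.GoodLabel D l ∧ ∃ t, 0 < t ∧ t < 1 ∧
      Win S.region D (S.ep l.1 t) (S.v l.2.1) (sg l.2.2) ∧ S.In A m (S.ep l.1 t)) :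
    L.card ≤ 4 * S.nIn A m + 1 := by
  classical
  have hNe := S.neZero
  set κ := kap S.region A (S.v m) with hκ
  -- the slide of a nonexceptional label
  have hslide : ∀ l ∈ L, ¬ S.Exc A D m l → ∀ (t t1 : ℝ), 0 < t → t < 1 → 0 ≤ t1 → t1 ≤ 1 →
      S.In A m (S.ep l.1 t) →
      (∀ r, 0 ≤ r → r < 1 → Win S.region D (S.ep l.1 (t + r * (t1 - t))) (S.v l.2.1)
        (sg l.2.2)) → S.In A m (S.ep l.1 t1) := by
    intro l hl hne t t1 h0 h1 h10 h11 hin hwin
    apply S.slide_end h0 h1 h10 h11 hin
    intro r r0 r1 hk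
    apply hne
    refine ⟨t + r * (t1 - t), ?_, ?_, hwin r r0 r1, hk⟩
    · have e1 : t + r * (t1 - t) = (1 - r) * t + r * t1 := by ring
      rw [e1]
      have := mul_pos (show (0 : ℝ) < 1 - r by linarith) h0
      have := mul_nonneg r0 h10
      linarith
    · have e1 : 1 - (t + r * (t1 - t)) = (1 - r) * (1 - t) + r * (1 - t1) := by ring
      have := mul_pos (show (0 : ℝ) < 1 - r by linarith) (show (0 : ℝ) < 1 - t by linarith)
      have := mul_nonneg r0 (show (0 : ℝ) ≤ 1 - t1 by linarith)
      linarith
  -- codes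
  have hcode : ∀ l ∈ L, ¬ S.Exc A D m l → ∃ (c : ZMod n) (b : Bool), S.In A m (S.v c) ∧
      ((S.Code1 D l l.1 b ∧ c = (if b then l.1 + 1 else l.1)) ∨ S.Code2 D l c b) := by
    intro l hl hne
    obtain ⟨hgood, tw, tw0, tw1, hww, hwin⟩ := hL l hl
    have hg := hgood.1
    obtain ⟨b, hb | ⟨c, hc⟩⟩ := S.code_exists hgood
    · refine ⟨if b then l.1 + 1 else l.1, b, ?_, Or.inl ⟨hb, rfl⟩⟩
      obtain ⟨-, -, tb, tb0, tb1, hall⟩ := hb
      cases b with
      | true =>
        have e1 : S.v (l.1 + 1) = S.ep l.1 1 := by simp [SimplePolygon.ep]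
        simp only [if_true]
        rw [e1]
        apply hslide l hl hne tw 1 tw0 tw1 zero_le_one le_rfl hwin
        intro r r0 r1
        have h2 : tw + r * (1 - tw) < 1 := by nlinarith
        have h3 : tw ≤ tw + r * (1 - tw) := by
          have := mul_nonneg r0 (show (0 : ℝ) ≤ 1 - tw by linarith)
          linarith
        by_cases hc : tb < tw + r * (1 - tw)
        · exact hall _ (by linarith) h2 (by rw [sg_true]; linarith)
        · push Not at hc
          refine S.win_mid hg tw0.le tw1.le (tb := (tb + 1) / 2) (by linarith) (by linarith) hww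
            (hall _ (by linarith) (by linarith) (by rw [sg_true]; linarith))
            (Or.inl ⟨h3, by linarith⟩)
      | false =>
        have e1 : S.v l.1 = S.ep l.1 0 := by simp [SimplePolygon.ep]
        simp only [Bool.false_eq_true, if_false]
        rw [e1]
        apply hslide l hl hne tw 0 tw0 tw1 le_rfl zero_le_one hwin
        intro r r0 r1
        have h2 : 0 < tw + r * (0 - tw) := by nlinarith
        have h3 : tw + r * (0 - tw) ≤ tw := by
          have := mul_nonneg r0 tw0.le
          linarith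
        by_cases hc : tw + r * (0 - tw) < tb
        · exact hall _ h2 (by linarith) (by rw [sg_false]; linarith)
        · push Not at hc
          refine S.win_mid hg tw0.le tw1.le (tb := tb / 2) (by linarith) (by linarith) hww
            (hall _ (by linarith) (by linarith) (by rw [sg_false]; linarith))
            (Or.inr ⟨by linarith, h3⟩)
    · refine ⟨c, b, ?_, Or.inr hc⟩
      obtain ⟨-, tb, t0, tb0, tb1, t00, t01, hbt, hs, hall, hcm, hsep, -⟩ := hc
      -- a window point near `t0`
      have hmid : Win S.region D (S.ep l.1 ((tb + t0) / 2)) (S.v l.2.1) (sg l.2.2) := by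
        apply hall
        · have : sg b * ((tb + t0) / 2 - tb) = sg b * (t0 - tb) / 2 := by ring
          rw [this]; linarith
        · have : sg b * (t0 - (tb + t0) / 2) = sg b * (t0 - tb) / 2 := by ring
          rw [this]; linarith
      have hnot : ¬ Win S.region D (S.ep l.1 t0) (S.v l.2.1) (sg l.2.2) := by
        intro h
        apply frontier_not_int (S.v_frontier c)
        apply svis_symm h.vis
        exact hcm
      have hbefore : 0 < sg b * (t0 - tw) := by
        by_contra hcon
        push Not at hcon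
        apply hnot
        cases b with
        | true =>
          rw [sg_true] at hcon hbt
          exact S.win_mid hg (by linarith) (by linarith) tw0.le tw1.le hmid hww
            (Or.inl ⟨by linarith, by linarith⟩)
        | false =>
          rw [sg_false] at hcon hbt
          exact S.win_mid hg (by linarith) (by linarith) tw0.le tw1.le hmid hww
            (Or.inr ⟨by linarith, by linarith⟩)
      have hin0 : S.In A m (S.ep l.1 t0) := by
        apply hslide l hl hne tw t0 tw0 tw1 t00.le t01.le hwin
        intro r r0 r1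
        have hlt : 0 < sg b * (t0 - (tw + r * (t0 - tw))) := by
          have : sg b * (t0 - (tw + r * (t0 - tw))) = (1 - r) * (sg b * (t0 - tw)) := by ring
          rw [this]
          exact mul_pos (by linarith) hbefore
        have hge : 0 ≤ sg b * ((tw + r * (t0 - tw)) - tw) := by
          have : sg b * ((tw + r * (t0 - tw)) - tw) = r * (sg b * (t0 - tw)) := by ring
          rw [this]; positivity
        by_cases hc : 0 < sg b * ((tw + r * (t0 - tw)) - tb)
        · exact hall _ hc hlt
        · push Not at hc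
          cases b with
          | true =>
            rw [sg_true] at hc hlt hge hbt
            exact S.win_mid hg tw0.le tw1.le (by linarith) (by linarith) hww hmid
              (Or.inl ⟨by linarith, by linarith⟩)
          | false =>
            rw [sg_false] at hc hlt hge hbt
            exact S.win_mid hg tw0.le tw1.le (by linarith) (by linarith) hww hmid
              (Or.inr ⟨by linarith, by linarith⟩)
      by_contra hcn
      rw [mem_openSegment_iff] at hcm
      obtain ⟨a, a0, a1, ha⟩ := hcm
      set T := S.v l.2.1 with hT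
      set z := S.ep l.1 t0 with hz
      have hTc : S.v c - T = a • (z - T) := by rw [ha, pt_sub_left]
      have hsegc : segment ℝ z (S.v c) ⊆ S.region := by
        refine subset_trans ?_ hs
        refine (convex_segment _ _).segment_subset (right_mem_segment ℝ _ _) ?_
        rw [ha]; exact pt_mem_segment a0.le a1.le
      obtain ⟨g, hg1, hg2⟩ := hin0.cross hcn hsegc
      rw [segment_symm, mem_segment_iff] at hg1
      obtain ⟨r, r0, r1, rfl⟩ := hg1
      -- `v c` between `g` and any point of its window
      have hTne : S.v c ≠ T := by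
        intro h
        rw [h, sub_self] at hTc
        rcases smul_eq_zero.1 hTc.symm with h' | h'
        · linarith
        · have hzT : z = T := sub_eq_zero.1 h'
          have : S.v l.2.1 ∈ S.oedge l.1 := by
            rw [← hT, ← hzT]; exact S.ep_mem t00 t01
          exact S.v_not_oedge _ _ this
      have hzc : z - S.v c = ((1 - a) / a) • (S.v c - T) := by
        rw [hTc, smul_smul, div_mul_cancel₀ _ a0.ne', ha]
        unfold pt; simp only [Complex.real_smul]; push_cast; ring
      have hbet : ∀ τ : ℝ, 0 < τ → S.v c ∈ segment ℝ (pt (S.v c) z r) (pt (S.v c) T τ) := by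
        intro τ hτ
        rw [mem_segment_iff]
        set μ := r * ((1 - a) / a) with hμ
        have hμ0 : 0 ≤ μ := by
          have : 0 ≤ (1 - a) / a := div_nonneg (by linarith) a0.le
          positivity
        have hden : μ + τ ≠ 0 := by linarith
        refine ⟨μ / (μ + τ), by positivity, by rw [div_le_one (by linarith)]; linarith, ?_⟩
        have q1 : pt (S.v c) z r = S.v c + μ • (S.v c - T) := by
          unfold pt; rw [hzc, smul_smul]
        have q2 : pt (S.v c) T τ = S.v c - τ • (S.v c - T) := by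
          unfold pt; simp only [Complex.real_smul]; ring
        rw [q1, q2]
        unfold pt
        have q3 : S.v c - τ • (S.v c - T) - (S.v c + μ • (S.v c - T)) =
            (-(μ + τ)) • (S.v c - T) := by
          simp only [Complex.real_smul]; push_cast; ring
        rw [q3, smul_smul]
        have q4 : μ / (μ + τ) * -(μ + τ) = -μ := by field_simp
        rw [q4]
        simp only [Complex.real_smul]; push_cast; ring
      apply hsep
      have hκc := kap_convex S.reg hA hseg
      have hgD : segment ℝ (pt (S.v c) z r) D ⊆ κ := hκc.segment_subset hg2 hDk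
      have hp1 : Cn (S.region \ kap S.region (S.v c) T) (S.v c) (pt (S.v c) z r) := by
        apply Cn.of_segment
        intro w hw
        refine ⟨hsegc ?_, ?_⟩
        · rw [segment_symm]
          exact (convex_segment _ _).segment_subset (left_mem_segment ℝ _ _)
            (pt_mem_segment r0 r1) hw
        · rintro ⟨τ, hτ1, hτ, -⟩
          rw [mem_segment_iff] at hw
          obtain ⟨r', r0', r1', rfl⟩ := hw
          have q0 : pt (S.v c) (pt (S.v c) z r) r' = S.v c + (r' * r * ((1 - a) / a)) •
              (S.v c - T) := by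
            rw [pt_pt]; unfold pt; rw [hzc, smul_smul]
          have q2 : pt (S.v c) T τ = S.v c - τ • (S.v c - T) := by
            unfold pt; simp only [Complex.real_smul]; ring
          rw [q0, q2] at hτ
          have q5 : (r' * r * ((1 - a) / a) + τ) • (S.v c - T) = 0 := by
            rw [add_smul]; linear_combination hτ
          rcases smul_eq_zero.1 q5 with h' | h'
          · have : 0 ≤ (1 - a) / a := div_nonneg (by linarith) a0.le
            have : 0 ≤ r' * r * ((1 - a) / a) := by positivity
            linarith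
          · exact hTne (sub_eq_zero.1 h')
      refine hp1.trans (Cn.of_segment ?_)
      intro w hw
      refine ⟨kap_sub (hgD hw), ?_⟩
      rintro ⟨τ, hτ1, hτ, -⟩
      apply hcn
      apply S.in_of_kap
      apply (hκc.segment_subset hg2 (hgD hw))
      rw [hτ]
      exact hbet τ (by linarith)
  -- count
  set L0 := L.filter (fun l => S.Exc A D m l) with hL0
  set L1 := L.filter (fun l => ¬ S.Exc A D m l) with hL1
  have hsplit : L.card = L0.card + L1.card := by
    rw [hL0, hL1, Finset.card_filter_add_card_filter_not]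
  have h0 : L0.card ≤ 1 := by
    apply card_le_one_of
    intro l1 h1 l2 h2
    obtain ⟨a1, b1⟩ := Finset.mem_filter.1 h1
    obtain ⟨a2, b2⟩ := Finset.mem_filter.1 h2
    exact S.exc_unique hA hseg hDk hDi (hL l1 a1).1.1 (hL l2 a2).1.1 b1 b2
  have hcode1 : ∀ l ∈ L1, ∃ (c : ZMod n) (b : Bool), S.In A m (S.v c) ∧
      ((S.Code1 D l l.1 b ∧ c = (if b then l.1 + 1 else l.1)) ∨ S.Code2 D l c b) :=
    fun l hl => hcode l (Finset.mem_filter.1 hl).1 (Finset.mem_filter.1 hl).2
  choose! c b hcin hcb using hcode1
  set f : ZMod n × ZMod n × Bool → ZMod n × Bool × Bool := fun l =>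
    (c l, b l, decide (S.Code2 D l (c l) (b l))) with hf
  set V := (Set.toFinite {c : ZMod n | S.In A m (S.v c)}).toFinset with hV
  have hVc : V.card = S.nIn A m := by
    unfold SimplePolygon.nIn
    rw [Set.ncard_eq_toFinset_card _ (Set.toFinite _)]
  have h1 : L1.card ≤ 4 * S.nIn A m := by
    have hmaps : ∀ l ∈ L1, f l ∈ V ×ˢ (Finset.univ : Finset (Bool × Bool)) := by
      intro l hl
      simp only [hf, Finset.mem_product, Finset.mem_univ, and_true, hV]
      exact (Set.Finite.mem_toFinset _).2 (hcin l hl)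
    have hinj : Set.InjOn f L1 := by
      intro l hl l' hl' heq
      simp only [hf, Prod.mk.injEq] at heq
      obtain ⟨q1, q2, q3⟩ := heq
      have gl := (hL l (Finset.mem_filter.1 hl).1).1.1
      have gl' := (hL l' (Finset.mem_filter.1 hl').1).1.1
      by_cases hc2 : S.Code2 D l (c l) (b l)
      · have hc2' : S.Code2 D l' (c l') (b l') := by
          by_contra hcon
          rw [decide_eq_true hc2, decide_eq_false hcon] at q3
          exact absurd q3 (by decide)
        rw [← q1, ← q2] at hc2'
        exact S.code2_inj gl gl' hc2 hc2'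
      · have hc2' : ¬ S.Code2 D l' (c l') (b l') := by
          intro hcon
          rw [decide_eq_false hc2, decide_eq_true hcon] at q3
          exact absurd q3 (by decide)
        obtain ⟨k1, k2⟩ := (hcb l hl).resolve_right hc2
        obtain ⟨k1', k2'⟩ := (hcb l' hl').resolve_right hc2'
        rw [← q2] at k1' k2'
        rw [q1, k2'] at k2
        have hee : l'.1 = l.1 := by
          cases hbl : b l with
          | true => rw [hbl] at k2; simp only [if_true] at k2; exact add_right_cancel k2
          | false =>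
            rw [hbl] at k2
            simp only [Bool.false_eq_true, if_false] at k2
            exact k2
        rw [hee] at k1'
        exact S.code1_inj gl k1 k1'
    refine (Finset.card_le_card_of_injOn f hmaps hinj).trans ?_
    rw [Finset.card_product, Finset.card_univ, Fintype.card_prod, Fintype.card_bool, hVc]
    omega
  omega

end Run7.h395
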