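import Pool.Agent.Run7.h395.LocB

/-!
# Counting lit window points inside a pocket
-/

open Set Topology Filter Complex

noncomputable section

namespace Run7.h395

variable {n : ℕ} (S : SimplePolygon n)

/-- shots for middle items, remembering the original source -/
theorem SimplePolygon.item_shot2 {p D : ℂ} {j : ℕ} {F : Finset (Item n)}
    (hF : S.Datum p D (j + 1) F) {i : Item n} (hi : i ∈ F)
    (hhi : ∃ k ∈ F, lab k = lab i ∧ tt i < tt k) (hlo : ∃ k ∈ F, lab k = lab i ∧ tt k < tt i)
    (hnp : ¬ svis S.region p (S.ep i.1 (tt i))) :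
    ∃ (b' : Bool) (τ : ℝ) (e' : ZMod n) (tq ts : ℝ), 0 < τ ∧ τ < 1 ∧
      0 < (S.side i.1 * sg b') * (τ - tt i) ∧
      (∀ k ∈ F, lab k = lab i → 0 < (S.side i.1 * sg b') * (tt k - tt i) →
        0 < (S.side i.1 * sg b') * (tt k - τ)) ∧
      (∀ r, 0 ≤ r → r ≤ 1 → Win S.region D (S.ep i.1 (tt i + r * (τ - tt i))) (S.v i.2.1)
        (sg i.2.2.1)) ∧
      ((∃ T', Shot S p D j e' T' b' tq ts (S.ep i.1 (tt i)) (S.ep i.1 τ) (S.v i.2.1)) ∨
        Spec S e' b' tq ts (S.ep i.1 (tt i)) (S.ep i.1 τ)) ∧
      ∃ t0, 0 < t0 ∧ t0 < 1 ∧ S.ep e' t0 ∈ S.lev p j ∧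
        svis S.region (S.ep e' t0) (S.ep i.1 (tt i)) := by
  classical
  obtain ⟨ht0, ht1, hlit, hwin, hback, hgood⟩ := hF.1 i hi
  obtain ⟨hreg, hp | ⟨r0, hr1, ⟨e', hr2⟩, hr3⟩⟩ := hlit
  · exact absurd hp hnp
  rw [S.mem_oedge_iff] at hr2
  obtain ⟨t0, h00, h01, rfl⟩ := hr2
  set e := i.1 with he
  set T := i.2.1 with hTdef
  set t := tt i with ht
  have hne := S.source_side ht0 ht1 h00 h01 hwin.seg hwin.vis hr3
  obtain ⟨b', hb'⟩ := exists_sg hne
  set σ := S.side e * sg b' with hσ
  have hσpm : σ = 1 ∨ σ = -1 := by
    rcases S.side_pm e with h | h <;> rcases sg_pm b' with h' | h' <;> rw [hσ, h, h'] <;> norm_num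
  -- nearest neighbour in direction σ
  set K := F.filter (fun k => lab k = lab i ∧ 0 < σ * (tt k - t)) with hK
  have hKne : K.Nonempty := by
    rcases hσpm with h | h
    · obtain ⟨k, hk, hl, hlt⟩ := hhi
      refine ⟨k, Finset.mem_filter.2 ⟨hk, hl, ?_⟩⟩
      rw [h]; linarith
    · obtain ⟨k, hk, hl, hlt⟩ := hlo
      refine ⟨k, Finset.mem_filter.2 ⟨hk, hl, ?_⟩⟩
      rw [h]; linarith
  obtain ⟨k, hkK, hkmin⟩ := Finset.exists_min_image K (fun k => σ * (tt k - t)) hKne
  obtain ⟨hkF, hklab, hkpos⟩ := Finset.mem_filter.1 hkK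
  obtain ⟨hk0, hk1, -, hkwin, -, -⟩ := hF.1 k hkF
  have hke : k.1 = e := congrArg (fun l => l.1) hklab
  have hkT : k.2.1 = T := congrArg (fun l => l.2.1) hklab
  have hkb : k.2.2.1 = i.2.2.1 := congrArg (fun l => l.2.2) hklab
  rw [hke, hkT, hkb] at hkwin
  -- the dark parameter
  obtain ⟨τ, hτ1, hτ2, hτd⟩ : ∃ τ, 0 < σ * (τ - t) ∧ 0 < σ * (tt k - τ) ∧
      S.ep e τ ∉ S.lev p (j + 1) := by
    rcases hσpm with h | h
    · rw [h] at hkpos
      obtain ⟨τ, h1, h2, h3⟩ := hF.2 i hi k hkF hklab.symm (by linarith)
      exact ⟨τ, by rw [h]; linarith, by rw [h]; linarith, h3⟩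
    · rw [h] at hkpos
      obtain ⟨τ, h1, h2, h3⟩ := hF.2 k hkF i hi hklab (by linarith)
      rw [hke] at h3
      exact ⟨τ, by rw [h]; linarith, by rw [h]; linarith, h3⟩
  have hτ01 : 0 < τ ∧ τ < 1 := by
    rcases hσpm with h | h
    · rw [h] at hτ1 hτ2
      constructor <;> linarith
    · rw [h] at hτ1 hτ2
      constructor <;> linarith
  have hlc : cr (S.v T - S.v e) (S.dir e) ≠ 0 := by
    have hg := hgood.1
    intro h
    apply hg
    change cr (S.dir e) (S.v T - S.v e) = 0
    rw [cr_swap, h, neg_zero]
  -- windows in between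
  have hwinb : ∀ r, 0 ≤ r → r ≤ 1 → Win S.region D (S.ep e (t + r * (τ - t))) (S.v T)
      (sg i.2.2.1) := by
    intro r h0 h1
    have hne : tt k - t ≠ 0 := by
      intro h; rw [h] at hkpos; simp at hkpos
    have hρ : S.ep e (t + r * (τ - t)) =
        pt (S.ep e t) (S.ep e (tt k)) (r * ((τ - t) / (tt k - t))) := by
      rw [S.pt_ep]
      congr 1
      field_simp
    rw [hρ]
    have hr1 : 0 < (τ - t) / (tt k - t) := by
      have : (τ - t) / (tt k - t) = (σ * (τ - t)) / (σ * (tt k - t)) := by
        have hσ0 : σ ≠ 0 := by rcases hσpm with h | h <;> rw [h] <;> norm_num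
        rw [mul_div_mul_left _ _ hσ0]
      rw [this]; positivity
    have hr2 : (τ - t) / (tt k - t) < 1 := by
      have : (τ - t) / (tt k - t) = (σ * (τ - t)) / (σ * (tt k - t)) := by
        have hσ0 : σ ≠ 0 := by rcases hσpm with h | h <;> rw [h] <;> norm_num
        rw [mul_div_mul_left _ _ hσ0]
      rw [this, div_lt_one hkpos]
      have : σ * (tt k - t) = σ * (tt k - τ) + σ * (τ - t) := by ring
      rw [this]; linarith
    apply Win.between S.reg hwin hkwin (S.ep_seg' ht0.le ht1.le hk0.le hk1.le)
    · intro h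
      have e1 : ori (S.ep e t) (S.ep e (tt k)) (S.v T) =
          -(tt k - t) * cr (S.v T - S.v e) (S.dir e) := by
        unfold ori
        rw [S.ep_sub, cr_smul_left, cr_swap, S.cr_ep e (S.v T) 0 t]
        ring
      rw [e1] at h
      rcases mul_eq_zero.1 h with h' | h'
      · exact hne (by linarith)
      · exact hlc h'
    · positivity
    · nlinarith
  have hseg_mem : ∀ w ∈ segment ℝ (S.ep e t) (S.ep e τ), ∃ r, 0 ≤ r ∧ r ≤ 1 ∧
      w = S.ep e (t + r * (τ - t)) := by
    intro w hw
    rw [mem_segment_iff] at hw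
    obtain ⟨r, h0, h1, rfl⟩ := hw
    exact ⟨r, h0, h1, S.pt_ep e t τ r⟩
  have hwinseg : ∀ w ∈ segment ℝ (S.ep e t) (S.ep e τ),
      Win S.region D w (S.v T) (sg i.2.2.1) := by
    intro w hw
    obtain ⟨r, h0, h1, rfl⟩ := hseg_mem w hw
    exact hwinb r h0 h1
  have hzy : S.ep e τ - S.ep e t = (τ - t) • S.dir e := S.ep_sub e t τ
  have hoed : ∀ w ∈ segment ℝ (S.ep e t) (S.ep e τ), w ∈ S.oedge e :=
    (convex_openSegment _ _).segment_subset (S.ep_mem ht0 ht1) (S.ep_mem hτ01.1 hτ01.2)
  have hsideb : σ * S.side e = sg b' := by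
    have : S.side e * S.side e = 1 := by rcases S.side_pm e with h | h <;> rw [h] <;> norm_num
    rw [hσ]
    linear_combination (sg b') * this
  have hheight : ∀ x : ℂ, sg b' * cr (S.ep e τ - S.ep e t) x =
      (σ * (τ - t)) * (S.side e * cr (S.dir e) x) := by
    intro x
    rw [hzy, cr_smul_left, ← hsideb]
    ring
  have hTheight := S.svis_side (S.ep_mem ht0 ht1 (i := e)) (svis_symm hwin.vis)
  have tgt : Tgt S p D j b' (S.ep e t) (S.ep e τ) (S.v T) := by
    refine ⟨S.ep_seg' ht0.le ht1.le hτ01.1.le hτ01.2.le, ?_, hτd, ?_, ?_, ?_⟩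
    · intro w hw
      rw [hzy]
      have := fr_smul (S.side_fr (hoed w hw)) hτ1
      rw [hsideb] at this
      exact this
    · rw [hheight]
      exact (mul_pos hτ1 hTheight).le
    · intro w hw
      have := hwinseg w hw
      exact ⟨this.seg, this.ne⟩
    · right
      exact ⟨T, i.2.2.1, rfl, hwinseg, hback⟩
  obtain ⟨tq, ts, hres⟩ := S.make_shot tgt (Or.inr ⟨T, i.2.2.1, rfl, hwinseg, hback⟩) h00 h01 hr1
    hr3 (by
      rw [hheight]
      exact mul_pos hτ1 (S.svis_side (S.ep_mem ht0 ht1 (i := e)) hr3)) hb' hwin.joined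
  refine ⟨b', τ, e', tq, ts, hτ01.1, hτ01.2, hτ1, ?_, hwinb, hres, t0, h00, h01, hr1, hr3⟩
  intro k' hk' hl' hpos'
  have h1 := hkmin k' (Finset.mem_filter.2 ⟨hk', hl', hpos'⟩)
  have h1' : σ * (tt k - t) ≤ σ * (tt k' - t) := h1
  have : σ * (tt k' - τ) = σ * (tt k' - t) - σ * (tt k - t) + σ * (tt k - τ) := by ring
  rw [this]; linarith

lemma SimplePolygon.svis_of_lev_one {p x : ℂ} (h : x ∈ S.lev p 1) : svis S.region p x := by
  obtain ⟨-, h | ⟨r, hr, -⟩⟩ := h
  · exact h
  · exact absurd hr (Set.notMem_empty _)

/-- the source sees the edge points between two seen edge points -/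
lemma SimplePolygon.svis_between {p : ℂ} {e : ZMod n} {t1 t2 θ : ℝ} (h10 : 0 < t1) (h11 : t1 < 1)
    (h20 : 0 < t2) (h21 : t2 < 1) (hne : t1 ≠ t2) (h1 : svis S.region p (S.ep e t1))
    (h2 : svis S.region p (S.ep e t2)) (h0 : 0 < θ) (h1' : θ < 1) :
    S.ep e (t1 + θ * (t2 - t1)) ∈ S.oedge e ∧ svis S.region p (S.ep e (t1 + θ * (t2 - t1))) := by
  have hm : S.ep e (t1 + θ * (t2 - t1)) ∈ S.oedge e := by
    rw [← S.pt_ep]
    exact (convex_openSegment _ _).segment_subset (S.ep_mem h10 h11) (S.ep_mem h20 h21)
      (pt_mem_segment h0.le h1'.le)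
  refine ⟨hm, ?_⟩
  rw [← S.pt_ep]
  apply svis_of_tri S.reg
  · intro h0
    have hs := S.svis_side (S.ep_mem h10 h11 (i := e)) h1
    have e1 : ori p (S.ep e t1) (S.ep e t2) =
        (t2 - t1) * cr (S.dir e) (p - S.ep e t1) := by
      have : ori p (S.ep e t1) (S.ep e t2) =
          cr (S.ep e t2 - S.ep e t1) (p - S.ep e t1) := by
        unfold ori cr; simp only [Complex.sub_re, Complex.sub_im]; ring
      rw [this, S.ep_sub, cr_smul_left]
    rw [e1] at h0
    rcases mul_eq_zero.1 h0 with h | h
    · exact hne (by linarith)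
    · rw [h] at hs; simp at hs
  · exact seg_of_svis S.reg.closed h1
  · exact S.ep_seg' h10.le h11.le h20.le h21.le
  · exact seg_of_svis S.reg.closed h2
  · exact h0
  · exact h1'

/-- separated families of lit window points in a pocket, lit from inside the pocket -/
theorem SimplePolygon.loc_count {p A D : ℂ} {m : ZMod n} (hA : A ≠ S.v m)
    (hseg : segment ℝ A (S.v m) ⊆ S.region) (hDk : D ∈ kap S.region A (S.v m))
    (hDi : D ∈ interior S.region) (F : Finset (Item n)) (hF : S.Datum p D 2 F)
    (hin : ∀ i ∈ F, S.In A m (S.ep i.1 (tt i)))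
    (hT : ∀ i ∈ F, cr (S.v m - A) (S.v i.2.1 - A) ≠ 0)
    (hsrc : ∀ i ∈ F, ∀ ρ ∈ S.lev p 1, ρ ∈ S.openEdges → svis S.region ρ (S.ep i.1 (tt i)) →
      S.In A m ρ) : F.card ≤ 20 * S.nIn A m + 4 := by
    classical
    have hNe := S.neZero
    set M := 4 * S.nIn A m + 1 with hM
    have hLM : ∀ L : Finset (ZMod n × ZMod n × Bool), (∀ l ∈ L, S.GoodLabel D l ∧
        ∃ t, 0 < t ∧ t < 1 ∧ Win S.region D (S.ep l.1 t) (S.v l.2.1) (sg l.2.2) ∧
          S.In A m (S.ep l.1 t)) → L.card ≤ M :=
      fun L hL => S.loc_label hA hseg hDk hDi L hL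
    -- subfamilies with injective labels
    have hinjcard : ∀ A' ⊆ F, (∀ i ∈ A', ∀ k ∈ A', lab i = lab k → i = k) → A'.card ≤ M := by
      intro A' hAF hinj
      rw [← Finset.card_image_of_injOn (f := lab) (s := A') (fun i hi k hk h => hinj i hi k hk h)]
      apply hLM
      intro l hl
      obtain ⟨i, hi, rfl⟩ := Finset.mem_image.1 hl
      have h1 := hF.1 i (hAF hi)
      exact ⟨h1.2.2.2.2.2, tt i, h1.1, h1.2.1, h1.2.2.2.1, hin i (hAF hi)⟩
    set P1 : Item n → Prop := fun i => ∃ k ∈ F, lab k = lab i ∧ tt i < tt k with hP1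
    set P2 : Item n → Prop := fun i => ∃ k ∈ F, lab k = lab i ∧ tt k < tt i with hP2
    set P3 : Item n → Prop := fun i => svis S.region p (S.ep i.1 (tt i)) with hP3
    set A1 := F.filter (fun i => ¬ P1 i) with hA1
    set A2 := F.filter (fun i => ¬ P2 i) with hA2
    set A3 := F.filter (fun i => P3 i) with hA3
    set F1 := F.filter (fun i => P1 i ∧ P2 i ∧ ¬ P3 i) with hF1
    have hcover : F ⊆ A1 ∪ A2 ∪ A3 ∪ F1 := by
      intro i hi
      simp only [Finset.mem_union, hA1, hA2, hA3, hF1, Finset.mem_filter, hi, true_and]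
      tauto
    have hA1c : A1.card ≤ M := by
      apply hinjcard A1 (Finset.filter_subset _ _)
      intro i hi k hk hl
      have hi' := Finset.mem_filter.1 hi
      have hk' := Finset.mem_filter.1 hk
      apply item_ext hl
      rcases lt_trichotomy (tt i) (tt k) with h | h | h
      · exact absurd ⟨k, hk'.1, hl.symm, h⟩ hi'.2
      · exact h
      · exact absurd ⟨i, hi'.1, hl, h⟩ hk'.2
    have hA2c : A2.card ≤ M := by
      apply hinjcard A2 (Finset.filter_subset _ _)
      intro i hi k hk hl
      have hi' := Finset.mem_filter.1 hi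
      have hk' := Finset.mem_filter.1 hk
      apply item_ext hl
      rcases lt_trichotomy (tt i) (tt k) with h | h | h
      · exact absurd ⟨i, hi'.1, hl, h⟩ hk'.2
      · exact h
      · exact absurd ⟨k, hk'.1, hl.symm, h⟩ hi'.2
    have hA3c : A3.card ≤ M := by
      apply hinjcard A3 (Finset.filter_subset _ _)
      have main : ∀ i ∈ A3, ∀ k ∈ A3, lab i = lab k → ¬ tt i < tt k := by
        intro i hi k hk hl hlt
        have hi' := Finset.mem_filter.1 hi
        have hk' := Finset.mem_filter.1 hk
        obtain ⟨τ, h1, h2, h3⟩ := hF.2 i hi'.1 k hk'.1 hl hlt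
        apply h3
        have hke : k.1 = i.1 := congrArg (fun l => l.1) hl.symm
        obtain ⟨ti0, ti1, -, -, -, -⟩ := hF.1 i hi'.1
        obtain ⟨tk0, tk1, -, -, -, -⟩ := hF.1 k hk'.1
        have hvi : svis S.region p (S.ep i.1 (tt i)) := hi'.2
        have hvk : svis S.region p (S.ep i.1 (tt k)) := by rw [← hke]; exact hk'.2
        have hτm : S.ep i.1 τ ∈ S.oedge i.1 := S.ep_mem (by linarith) (by linarith)
        refine ⟨S.oedge_sub' _ hτm, Or.inl ?_⟩
        have hτe : S.ep i.1 τ = pt (S.ep i.1 (tt i)) (S.ep i.1 (tt k))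
            ((τ - tt i) / (tt k - tt i)) := by
          rw [S.pt_ep]
          congr 1
          have : tt k - tt i ≠ 0 := by linarith
          field_simp
          ring
        rw [hτe]
        apply svis_of_tri S.reg
        · intro h0
          have hs := S.svis_side (S.ep_mem ti0 ti1 (i := i.1)) hvi
          have e1 : ori p (S.ep i.1 (tt i)) (S.ep i.1 (tt k)) =
              (tt k - tt i) * cr (S.dir i.1) (p - S.ep i.1 (tt i)) := by
            have : ori p (S.ep i.1 (tt i)) (S.ep i.1 (tt k)) =
                cr (S.ep i.1 (tt k) - S.ep i.1 (tt i)) (p - S.ep i.1 (tt i)) := by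
              unfold ori cr; simp only [Complex.sub_re, Complex.sub_im]; ring
            rw [this, S.ep_sub, cr_smul_left]
          rw [e1] at h0
          rcases mul_eq_zero.1 h0 with h | h
          · linarith
          · rw [h] at hs; simp at hs
        · exact seg_of_svis S.reg.closed hvi
        · exact S.ep_seg' ti0.le ti1.le tk0.le tk1.le
        · exact seg_of_svis S.reg.closed hvk
        · exact div_pos (by linarith) (by linarith)
        · rw [div_lt_one (by linarith)]; linarith
      intro i hi k hk hl
      apply item_ext hl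
      rcases lt_trichotomy (tt i) (tt k) with h | h | h
      · exact absurd h (main i hi k hk hl)
      · exact h
      · exact absurd h (main k hk i hi hl.symm)
    -- shots for the remaining items
    have hex : ∀ i ∈ F1, ∃ (b' : Bool) (τ : ℝ) (e' : ZMod n) (tq ts : ℝ), 0 < τ ∧ τ < 1 ∧
        0 < (S.side i.1 * sg b') * (τ - tt i) ∧
        (∀ k ∈ F, lab k = lab i → 0 < (S.side i.1 * sg b') * (tt k - tt i) →
          0 < (S.side i.1 * sg b') * (tt k - τ)) ∧
        (∀ r, 0 ≤ r → r ≤ 1 → Win S.region D (S.ep i.1 (tt i + r * (τ - tt i))) (S.v i.2.1)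
          (sg i.2.2.1)) ∧
        ((∃ T', Shot S p D 1 e' T' b' tq ts (S.ep i.1 (tt i)) (S.ep i.1 τ) (S.v i.2.1)) ∨
          Spec S e' b' tq ts (S.ep i.1 (tt i)) (S.ep i.1 τ)) ∧
        ∃ t0, 0 < t0 ∧ t0 < 1 ∧ S.ep e' t0 ∈ S.lev p 1 ∧
          svis S.region (S.ep e' t0) (S.ep i.1 (tt i)) := by
      intro i hi
      have hi' := Finset.mem_filter.1 hi
      exact S.item_shot2 hF hi'.1 hi'.2.1 hi'.2.2.1 hi'.2.2.2
    choose! b' τ e' tq ts hτ0 hτ1 hdir hnear hwin hres t0 ht00 ht01 ht0lit ht0vis using hex
    have hF1F : ∀ i ∈ F1, i ∈ F := fun i hi => (Finset.mem_filter.1 hi).1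
    have hti : ∀ i ∈ F1, 0 < tt i ∧ tt i < 1 := fun i hi =>
      ⟨(hF.1 i (hF1F i hi)).1, (hF.1 i (hF1F i hi)).2.1⟩
    have hgood : ∀ i ∈ F1, ¬ S.onLine i.1 (S.v i.2.1) := fun i hi =>
      (hF.1 i (hF1F i hi)).2.2.2.2.2.1
    -- windows on the shadow interval
    have hwinv : ∀ i ∈ F1, ∀ v : ℝ, 0 < (S.side i.1 * sg (b' i)) * (v - tt i) →
        0 ≤ (S.side i.1 * sg (b' i)) * (τ i - v) →
        Win S.region D (S.ep i.1 v) (S.v i.2.1) (sg i.2.2.1) := by
      intro i hi v h1 h2
      have h3 := hdir i hi
      have hne : τ i - tt i ≠ 0 := by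
        intro h; rw [h] at h3; simp at h3
      have hσ0 : S.side i.1 * sg (b' i) ≠ 0 := by
        intro h; rw [h] at h3; simp at h3
      have := hwin i hi ((v - tt i) / (τ i - tt i)) (by
        rw [← mul_div_mul_left _ _ hσ0]; positivity) (by
        rw [← mul_div_mul_left _ _ hσ0, div_le_one h3]
        have : S.side i.1 * sg (b' i) * (τ i - tt i) =
          S.side i.1 * sg (b' i) * (τ i - v) + S.side i.1 * sg (b' i) * (v - tt i) := by ring
        rw [this]; linarith)
      have e1 : tt i + (v - tt i) / (τ i - tt i) * (τ i - tt i) = v := by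
        rw [div_mul_cancel₀ _ hne]; ring
      rw [e1] at this
      exact this
    -- disjointness of shadow intervals
    have hDJ : ∀ i ∈ F1, ∀ k ∈ F1, i ≠ k → i.1 = k.1 → b' i = b' k → ∀ v : ℝ,
        0 < (S.side i.1 * sg (b' i)) * (v - tt i) → 0 ≤ (S.side i.1 * sg (b' i)) * (τ i - v) →
        0 < (S.side i.1 * sg (b' i)) * (v - tt k) → 0 ≤ (S.side i.1 * sg (b' i)) * (τ k - v) →
        False := by
      intro i hi k hk hik he hb v h1 h2 h3 h4
      have hσk : S.side k.1 * sg (b' k) = S.side i.1 * sg (b' i) := by rw [he, hb]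
      set σ := S.side i.1 * sg (b' i) with hσ
      by_cases hl : lab i = lab k
      · have htne : tt i ≠ tt k := fun h => hik (item_ext hl h)
        have hσ0 : σ ≠ 0 := by
          intro h; rw [h] at h1; simp at h1
        rcases lt_or_gt_of_ne (mul_ne_zero hσ0 (sub_ne_zero.2 htne.symm)) with h | h
        · -- σ (tt k - tt i) < 0
          have h5 := hnear k hk i (hF1F i hi) hl (by rw [hσk]; linarith)
          rw [hσk] at h5
          have e1 : σ * (v - tt i) = -(σ * (τ k - v)) - σ * (tt i - τ k) := by ring
          rw [e1] at h1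
          linarith
        · have h5 := hnear i hi k (hF1F k hk) hl.symm h
          have e1 : σ * (v - tt k) = -(σ * (τ i - v)) - σ * (tt k - τ i) := by ring
          rw [e1] at h3
          linarith
      · apply hl
        -- second common point
        obtain ⟨v', hv', g1, g2, g3, g4⟩ : ∃ v' : ℝ, v ≠ v' ∧ 0 < σ * (v' - tt i) ∧
            0 ≤ σ * (τ i - v') ∧ 0 < σ * (v' - tt k) ∧ 0 ≤ σ * (τ k - v') := by
          rcases le_or_gt (σ * (v - tt i)) (σ * (v - tt k)) with h | h
          · refine ⟨v - (v - tt i) / 2, ?_, ?_, ?_, ?_, ?_⟩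
            · intro h0
              have : v - tt i = 0 := by linarith
              rw [this] at h1; simp at h1
            · have : σ * (v - (v - tt i) / 2 - tt i) = σ * (v - tt i) / 2 := by ring
              rw [this]; linarith
            · have : σ * (τ i - (v - (v - tt i) / 2)) = σ * (τ i - v) + σ * (v - tt i) / 2 := by
                ring
              rw [this]; linarith
            · have : σ * (v - (v - tt i) / 2 - tt k) = σ * (v - tt k) - σ * (v - tt i) / 2 := by
                ring
              rw [this]; linarith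
            · have : σ * (τ k - (v - (v - tt i) / 2)) = σ * (τ k - v) + σ * (v - tt i) / 2 := by
                ring
              rw [this]; linarith
          · refine ⟨v - (v - tt k) / 2, ?_, ?_, ?_, ?_, ?_⟩
            · intro h0
              have : v - tt k = 0 := by linarith
              rw [this] at h3; simp at h3
            · have : σ * (v - (v - tt k) / 2 - tt i) = σ * (v - tt i) - σ * (v - tt k) / 2 := by
                ring
              rw [this]; linarith
            · have : σ * (τ i - (v - (v - tt k) / 2)) = σ * (τ i - v) + σ * (v - tt k) / 2 := by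
                ring
              rw [this]; linarith
            · have : σ * (v - (v - tt k) / 2 - tt k) = σ * (v - tt k) / 2 := by ring
              rw [this]; linarith
            · have : σ * (τ k - (v - (v - tt k) / 2)) = σ * (τ k - v) + σ * (v - tt k) / 2 := by
                ring
              rw [this]; linarith
        have w1 := hwinv i hi v h1 h2
        have w1' := hwinv i hi v' g1 g2
        have w2 := hwinv k hk v (by rw [hσk]; exact h3) (by rw [hσk]; exact h4)
        have w2' := hwinv k hk v' (by rw [hσk]; exact g3) (by rw [hσk]; exact g4)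
        rw [← he] at w2 w2'
        obtain ⟨hT, hbb⟩ := S.label_eq hv' (hgood i hi) w1 w1' w2 w2'
        unfold lab
        rw [he, hT, hbb]
    -- split into special sources and shots
    set Q : Item n → Prop := fun i =>
      Spec S (e' i) (b' i) (tq i) (ts i) (S.ep i.1 (tt i)) (S.ep i.1 (τ i)) with hQ
    set A4 := F1.filter Q with hA4
    set F2 := F1.filter (fun i => ¬ Q i) with hF2
    have hF1c : F1.card = A4.card + F2.card := by
      rw [hA4, hF2, Finset.card_filter_add_card_filter_not]
    have hedge_mem : ∀ i ∈ F1, 0 ≤ ts i → ts i ≤ 1 →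
        S.ep i.1 (tt i + ts i * (τ i - tt i)) ∈ S.oedge i.1 := by
      intro i hi h0 h1
      obtain ⟨g0, g1⟩ := hti i hi
      have k0 := hτ0 i hi
      have k1 := hτ1 i hi
      apply S.ep_mem
      · have : tt i + ts i * (τ i - tt i) = (1 - ts i) * tt i + ts i * τ i := by ring
        rw [this]
        rcases h1.eq_or_lt with h | h
        · rw [h]; linarith
        · have := mul_pos (show (0 : ℝ) < 1 - ts i by linarith) g0
          have := mul_nonneg h0 k0.le
          linarith
      · have : 1 - (tt i + ts i * (τ i - tt i)) = (1 - ts i) * (1 - tt i) + ts i * (1 - τ i) := by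
          ring
        have h2 : 0 < (1 - ts i) * (1 - tt i) + ts i * (1 - τ i) := by
          rcases h1.eq_or_lt with h | h
          · rw [h]; linarith
          · have := mul_pos (show (0 : ℝ) < 1 - ts i by linarith)
              (show (0 : ℝ) < 1 - tt i by linarith)
            have := mul_nonneg h0 (show (0 : ℝ) ≤ 1 - τ i by linarith)
            linarith
        linarith
    -- the common-point consequence of equal shadow ends
    have hends : ∀ i ∈ F1, ∀ k ∈ F1, i ≠ k → i.1 = k.1 → b' i = b' k →
        0 < ts k → ts k ≤ 1 → ∀ r : ℝ, 0 < r → r ≤ 1 →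
        tt i + r * (τ i - tt i) ≠ tt k + ts k * (τ k - tt k) := by
      intro i hi k hk hik he hb hk0 hk1 r hr0 hr1 heq
      have hσk : S.side k.1 * sg (b' k) = S.side i.1 * sg (b' i) := by rw [he, hb]
      have d1 := hdir i hi
      have d2 := hdir k hk
      rw [hσk] at d2
      refine hDJ i hi k hk hik he hb (tt i + r * (τ i - tt i)) ?_ ?_ ?_ ?_
      · have : S.side i.1 * sg (b' i) * (tt i + r * (τ i - tt i) - tt i) =
          r * (S.side i.1 * sg (b' i) * (τ i - tt i)) := by ring
        rw [this]; positivity
      · have : S.side i.1 * sg (b' i) * (τ i - (tt i + r * (τ i - tt i))) =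
          (1 - r) * (S.side i.1 * sg (b' i) * (τ i - tt i)) := by ring
        rw [this]
        have : 0 ≤ 1 - r := by linarith
        positivity
      · rw [heq]
        have : S.side i.1 * sg (b' i) * (tt k + ts k * (τ k - tt k) - tt k) =
          ts k * (S.side i.1 * sg (b' i) * (τ k - tt k)) := by ring
        rw [this]; positivity
      · rw [heq]
        have : S.side i.1 * sg (b' i) * (τ k - (tt k + ts k * (τ k - tt k))) =
          (1 - ts k) * (S.side i.1 * sg (b' i) * (τ k - tt k)) := by ring
        rw [this]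
        have : 0 ≤ 1 - ts k := by linarith
        positivity
    have hA4c : A4.card ≤ 4 * S.nIn A m := by
      have hlamex : ∀ i ∈ A4, ∃ lam : ℝ, lam ≠ 0 ∧
          pt (S.ep i.1 (tt i)) (S.ep i.1 (τ i)) (ts i) - S.ep (e' i) (tq i) =
            lam • S.dir (e' i) := by
        intro i hi
        have hQi : Spec S (e' i) (b' i) (tq i) (ts i) (S.ep i.1 (tt i)) (S.ep i.1 (τ i)) :=
          (Finset.mem_filter.1 hi).2
        have h1 := hQi.onl
        have h2 := S.onLine_ep (e' i) (tq i)
        unfold SimplePolygon.onLine at h1 h2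
        have h3 : cr (S.dir (e' i)) (pt (S.ep i.1 (tt i)) (S.ep i.1 (τ i)) (ts i) -
            S.ep (e' i) (tq i)) = 0 := by
          have : pt (S.ep i.1 (tt i)) (S.ep i.1 (τ i)) (ts i) - S.ep (e' i) (tq i) =
              (pt (S.ep i.1 (tt i)) (S.ep i.1 (τ i)) (ts i) - S.v (e' i)) -
              (S.ep (e' i) (tq i) - S.v (e' i)) := by ring
          rw [this, cr_sub_right, h1, h2, sub_zero]
        obtain ⟨lam, hlam⟩ := parallel_of_cr (S.dir_ne (e' i)) h3
        refine ⟨lam, ?_, hlam⟩
        rintro rfl
        rw [zero_smul, sub_eq_zero] at hlam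
        have hab := hQi.above
        rw [← hlam] at hab
        have : cr (S.ep i.1 (τ i) - S.ep i.1 (tt i))
            (pt (S.ep i.1 (tt i)) (S.ep i.1 (τ i)) (ts i) - S.ep i.1 (tt i)) = 0 := by
          rw [cr_pt, cr_self, mul_zero]
        rw [this] at hab
        simp at hab
      choose! lam hlam0 hlam using hlamex
      set c : Item n → ZMod n := fun i => if 0 < lam i then e' i + 1 else e' i with hc
      have hcin : ∀ i ∈ A4, S.In A m (S.v (c i)) := by
        intro i hi
        have hi1 := (Finset.mem_filter.1 hi).1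
        have hQi : Spec S (e' i) (b' i) (tq i) (ts i) (S.ep i.1 (tt i)) (S.ep i.1 (τ i)) :=
          (Finset.mem_filter.1 hi).2
        have hlami := hlam i hi
        have hlam0i := hlam0 i hi
        have hmi := hedge_mem i hi1 hQi.ts0.le hQi.ts1
        have hmi' := hmi
        rw [← S.pt_ep] at hmi
        set ys := pt (S.ep i.1 (tt i)) (S.ep i.1 (τ i)) (ts i) with hys
        -- the shadow end is in the pocket
        have hysin : S.In A m ys := by
          rw [hys, S.pt_ep]
          have hg := hti i hi1
          have h5 := hedge_mem i hi1 hQi.ts0.le hQi.ts1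
          refine (hin i (hF1F i hi1)).step (z' := S.ep i.1 (tt i + ts i * (τ i - tt i))) ?_ ?_
          · exact ((convex_openSegment _ _).segment_subset (S.ep_mem hg.1 hg.2) h5).trans
              (S.oedge_sub' _)
          · intro w hw hwk
            rw [mem_segment_iff] at hw
            obtain ⟨r, r0, r1, rfl⟩ := hw
            rw [S.pt_ep] at hwk
            have hww := hwin i hi1 (r * ts i) (mul_nonneg r0 hQi.ts0.le)
              (by nlinarith [hQi.ts0, hQi.ts1])
            have e1 : tt i + r * (tt i + ts i * (τ i - tt i) - tt i) =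
                tt i + r * ts i * (τ i - tt i) := by ring
            rw [e1] at hwk
            obtain ⟨ρ, -, -, hρ⟩ := S.ex_data hA hseg hDk hDi hwk hww
            apply hT i (hF1F i hi1)
            obtain ⟨a1, -, ha1, -⟩ := hwk
            obtain ⟨a2, -, ha2, -⟩ := hDk
            rw [hρ, ha1, ha2, pt_pt_pt, pt_sub_left, cr_smul_right, cr_self, mul_zero]
        have hrin : S.In A m (S.ep (e' i) (t0 i)) :=
          hsrc i (hF1F i hi1) _ (ht0lit i hi1) ⟨e' i, S.ep_mem (ht00 i hi1) (ht01 i hi1)⟩
            (ht0vis i hi1)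
        have hyse : ys = S.ep (e' i) (tq i + lam i) := by
          have h3 := S.ep_sub (e' i) (tq i) (tq i + lam i)
          have : tq i + lam i - tq i = lam i := by ring
          rw [this, ← hlami] at h3
          linear_combination -h3
        have hnote : ys ∉ S.edge (e' i) := by
          intro hmem
          have hee := S.oedge_unique hmi hmem
          have hab := hQi.above
          rw [hee, S.ep_sub, cr_smul_left, S.ep_sub, cr_smul_right, cr_self] at hab
          simp at hab
        have hrange : ¬ (0 ≤ tq i + lam i ∧ tq i + lam i ≤ 1) := by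
          rintro ⟨h1, h2⟩
          apply hnote
          rw [hyse]
          exact pt_mem_segment h1 h2
        -- the vertex between the source and the shadow end
        obtain ⟨ρ, hρ0, hρ1, hρ⟩ : ∃ ρ : ℝ, 0 ≤ ρ ∧ ρ ≤ 1 ∧
            S.v (c i) = pt (S.ep (e' i) (tq i)) ys ρ := by
          have q0 := hQi.tq0
          have q1 := hQi.tq1
          have e1 : ∀ ρ, pt (S.ep (e' i) (tq i)) ys ρ = S.ep (e' i) (tq i + ρ * lam i) := by
            intro ρ
            rw [hyse, S.pt_ep]
            congr 1; ring
          rcases lt_or_gt_of_ne hlam0i with h | h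
          · have hneg : tq i + lam i < 0 := by
              by_contra hcon
              push Not at hcon
              exact hrange ⟨hcon, by linarith⟩
            refine ⟨-(tq i) / lam i, div_nonneg_of_nonpos (by linarith) h.le, ?_, ?_⟩
            · rw [div_le_one_of_neg h]; linarith
            · have : ¬ 0 < lam i := by linarith
              rw [e1, div_mul_cancel₀ _ h.ne]
              simp only [hc, this, if_false]
              simp [SimplePolygon.ep]
          · have hpos : 1 < tq i + lam i := by
              by_contra hcon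
              push Not at hcon
              exact hrange ⟨by linarith, hcon⟩
            refine ⟨(1 - tq i) / lam i, div_nonneg (by linarith) h.le, ?_, ?_⟩
            · rw [div_le_one h]; linarith
            · rw [e1, div_mul_cancel₀ _ h.ne']
              simp only [hc, h, if_true]
              simp [SimplePolygon.ep]
        by_contra hcn
        have hsc : segment ℝ ys (S.v (c i)) ⊆ S.region := by
          refine subset_trans ?_ hQi.seg
          refine (convex_segment _ _).segment_subset (right_mem_segment ℝ _ _) ?_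
          rw [hρ]; exact pt_mem_segment hρ0 hρ1
        obtain ⟨g, hg1, hg2⟩ := hysin.cross hcn hsc
        have hcedge : S.v (c i) ∈ S.edge (e' i) := by
          simp only [hc]
          split_ifs
          · exact right_mem_segment ℝ _ _
          · exact left_mem_segment ℝ _ _
        have hredge : S.ep (e' i) (t0 i) ∈ S.edge (e' i) :=
          S.oedge_sub _ (S.ep_mem (ht00 i hi1) (ht01 i hi1))
        have hre : segment ℝ (S.ep (e' i) (t0 i)) (S.v (c i)) ⊆ S.region :=
          ((convex_segment _ _).segment_subset hredge hcedge).trans (S.edge_sub _)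
        obtain ⟨g', hg1', hg2'⟩ := hrin.cross hcn hre
        -- `v c` is between `g` and `g'`
        apply hcn
        apply S.in_of_kap
        refine (kap_convex S.reg hA hseg).segment_subset hg2 hg2' ?_
        have hcl : S.v (c i) = S.ep (e' i) (if 0 < lam i then 1 else 0) := by
          simp only [hc]
          split_ifs <;> simp [SimplePolygon.ep]
        rw [mem_segment_iff] at hg1 hg1'
        obtain ⟨r, r0, r1, rfl⟩ := hg1
        obtain ⟨r', r0', r1', rfl⟩ := hg1'
        rw [hcl, hyse, S.pt_ep, S.pt_ep]
        have k0 := ht00 i hi1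
        have k1 := ht01 i hi1
        have hmem : ∀ x y w : ℝ, (x ≤ w ∧ w ≤ y) ∨ (y ≤ w ∧ w ≤ x) →
            S.ep (e' i) w ∈ segment ℝ (S.ep (e' i) x) (S.ep (e' i) y) := by
          intro x y w h
          rcases eq_or_ne x y with hxy | hxy
          · have : w = x := by
              rcases h with h' | h'
              · linarith [h'.1, h'.2]
              · linarith [h'.1, h'.2]
            rw [this]; exact left_mem_segment ℝ _ _
          · rw [mem_segment_iff]
            have hyx : y - x ≠ 0 := sub_ne_zero.2 hxy.symm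
            refine ⟨(w - x) / (y - x), ?_, ?_, ?_⟩
            · rcases h with h' | h'
              · exact div_nonneg (by linarith [h'.1]) (by linarith [h'.1, h'.2])
              · exact div_nonneg_of_nonpos (by linarith [h'.2]) (by linarith [h'.1, h'.2])
            · rcases h with h' | h'
              · have : 0 < y - x := lt_of_le_of_ne (by linarith [h'.1, h'.2]) hyx.symm
                rw [div_le_one this]; linarith [h'.2]
              · have : y - x < 0 := lt_of_le_of_ne (by linarith [h'.1, h'.2]) hyx
                rw [div_le_one_of_neg this]; linarith [h'.1]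
            · rw [S.pt_ep, div_mul_cancel₀ _ hyx]
              congr 1; ring
        apply hmem
        rcases lt_or_gt_of_ne hlam0i with h | h
        · have hneg : tq i + lam i < 0 := by
            by_contra hcon
            push Not at hcon
            exact hrange ⟨hcon, by linarith [hQi.tq1]⟩
          have h' : ¬ 0 < lam i := by linarith
          simp only [h', if_false]
          left
          constructor
          · have := mul_nonneg (show (0 : ℝ) ≤ 1 - r by linarith)
              (show (0 : ℝ) ≤ -(tq i + lam i) by linarith)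
            nlinarith
          · have := mul_nonneg (show (0 : ℝ) ≤ 1 - r' by linarith) k0.le
            nlinarith
        · have hpos : 1 < tq i + lam i := by
            by_contra hcon
            push Not at hcon
            exact hrange ⟨by linarith [hQi.tq0], hcon⟩
          simp only [h, if_true]
          right
          constructor
          · have := mul_nonneg (show (0 : ℝ) ≤ 1 - r' by linarith)
              (show (0 : ℝ) ≤ 1 - t0 i by linarith)
            nlinarith
          · have := mul_nonneg (show (0 : ℝ) ≤ 1 - r by linarith)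
              (show (0 : ℝ) ≤ (tq i + lam i) - 1 by linarith)
            nlinarith
      set f : Item n → ZMod n × Bool × Bool := fun i => (c i, decide (0 < lam i), b' i) with hf
      have hinj : Set.InjOn f A4 := by
        intro i hi k hk hik
        by_contra hne
        have hi1 := (Finset.mem_filter.1 hi).1
        have hk1 := (Finset.mem_filter.1 hk).1
        have hQi : Spec S (e' i) (b' i) (tq i) (ts i) (S.ep i.1 (tt i)) (S.ep i.1 (τ i)) :=
          (Finset.mem_filter.1 hi).2
        have hQk : Spec S (e' k) (b' k) (tq k) (ts k) (S.ep k.1 (tt k)) (S.ep k.1 (τ k)) :=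
          (Finset.mem_filter.1 hk).2
        simp only [hf, Prod.mk.injEq] at hik
        obtain ⟨f0, f2, f3⟩ := hik
        have f1 : e' i = e' k := by
          by_cases h : 0 < lam i
          · have h' : 0 < lam k := by
              by_contra hcon
              rw [decide_eq_true h, decide_eq_false hcon] at f2
              exact absurd f2 (by decide)
            simp only [hc, h, h', if_true] at f0
            exact add_right_cancel f0
          · have h' : ¬ 0 < lam k := by
              intro hcon
              rw [decide_eq_false h, decide_eq_true hcon] at f2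
              exact absurd f2 (by decide)
            simp only [hc, h, h', if_false] at f0
            exact f0
        have hlami := hlam i hi
        have hlamk := hlam k hk
        rw [← f1] at hQk hlamk
        have hprod : 0 < lam i * lam k := by
          rcases lt_or_gt_of_ne (hlam0 i hi) with h | h <;>
          rcases lt_or_gt_of_ne (hlam0 k hk) with h' | h'
          · exact mul_pos_of_neg_of_neg h h'
          · have e1 : decide (0 < lam i) = false := decide_eq_false (by linarith)
            have e2 : decide (0 < lam k) = true := decide_eq_true h'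
            rw [e1, e2] at f2
            exact absurd f2 (by decide)
          · have e1 : decide (0 < lam i) = true := decide_eq_true h
            have e2 : decide (0 < lam k) = false := decide_eq_false (by linarith)
            rw [e1, e2] at f2
            exact absurd f2 (by decide)
          · exact mul_pos h h'
        have hmi := hedge_mem i hi1 hQi.ts0.le hQi.ts1
        have hmk := hedge_mem k hk1 hQk.ts0.le hQk.ts1
        rw [← S.pt_ep] at hmi hmk
        have heq := S.spec_unique hQi hQk hmi hmk ⟨_, S.ep_sub i.1 _ _⟩ ⟨_, S.ep_sub k.1 _ _⟩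
          hlami hlamk hprod
        have hee : i.1 = k.1 := S.oedge_unique hmk (by rw [← heq]; exact S.oedge_sub _ hmi)
        rw [S.pt_ep, S.pt_ep, ← hee] at heq
        exact hends i hi1 k hk1 hne hee f3 hQk.ts0 hQk.ts1 (ts i) hQi.ts0 hQi.ts1
          (S.ep_inj heq)
      set V := (Set.toFinite {c : ZMod n | S.In A m (S.v c)}).toFinset with hV
      have hVc : V.card = S.nIn A m := by
        unfold SimplePolygon.nIn
        rw [Set.ncard_eq_toFinset_card _ (Set.toFinite _)]
      have hmaps : ∀ i ∈ A4, f i ∈ V ×ˢ (Finset.univ : Finset (Bool × Bool)) := by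
        intro i hi
        simp only [hf, Finset.mem_product, Finset.mem_univ, and_true, hV]
        exact (Set.Finite.mem_toFinset _).2 (hcin i hi)
      refine (Finset.card_le_card_of_injOn f hmaps hinj).trans ?_
      rw [Finset.card_product, Finset.card_univ, Fintype.card_prod, Fintype.card_bool, hVc]
      omega
    have hshot : ∀ i ∈ F2, ∃ T', Shot S p D 1 (e' i) T' (b' i) (tq i) (ts i) (S.ep i.1 (tt i))
        (S.ep i.1 (τ i)) (S.v i.2.1) := by
      intro i hi
      obtain ⟨hi1, hi2⟩ := Finset.mem_filter.1 hi
      rcases hres i hi1 with h | h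
      · exact h
      · exact absurd h hi2
    choose! T' hshot using hshot
    have hF2c : F2.card ≤ M := by
      set g : Item n → ZMod n × ZMod n × Bool := fun i => (e' i, T' i, b' i) with hg
      have hinj : Set.InjOn g F2 := by
        intro i hi k hk hik
        by_contra hne
        simp only [hg, Prod.mk.injEq] at hik
        obtain ⟨f1, f2, f3⟩ := hik
        have hi1 := (Finset.mem_filter.1 hi).1
        have hk1 := (Finset.mem_filter.1 hk).1
        have s1 := hshot i hi
        have s2 := hshot k hk
        have s2' := s2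
        rw [← f1, ← f2, ← f3] at s2'
        have s1' := s1
        rw [f1, f2, f3] at s1'
        have hB1 := S.hB_edge (hti i hi1) ⟨hτ0 i hi1, hτ1 i hi1⟩ (hti k hk1)
          ⟨hτ0 k hk1, hτ1 k hk1⟩ s1 s2' (by
            intro hee r hr0 hr1
            exact hends i hi1 k hk1 hne hee f3 s2.ts0 s2.ts1 r (lt_of_lt_of_le s1.ts0 hr0) hr1)
        have hB2 := S.hB_edge (hti k hk1) ⟨hτ0 k hk1, hτ1 k hk1⟩ (hti i hi1)
          ⟨hτ0 i hi1, hτ1 i hi1⟩ s2 s1' (by
            intro hee r hr0 hr1
            exact hends k hk1 i hi1 (Ne.symm hne) hee f3.symm s1.ts0 s1.ts1 r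
              (lt_of_lt_of_le s2.ts0 hr0) hr1)
        rw [← f1, ← f2] at hB2
        obtain ⟨htne, ⟨θ, θ0, θ1, hθ⟩, -⟩ := S.two_shots s1 s2' hB1 hB2
        apply hθ
        have hp1 : svis S.region p (S.ep (e' i) (tq i)) := S.svis_of_lev_one s1.lit
        have hp2 : svis S.region p (S.ep (e' i) (tq k)) := S.svis_of_lev_one s2'.lit
        have hb := S.svis_between s1.tq0 s1.tq1 s2.tq0 s2.tq1 htne hp1 hp2 θ0 θ1
        exact ⟨S.oedge_sub' _ hb.1, Or.inl hb.2⟩
      rw [← Finset.card_image_of_injOn hinj]
      apply hLM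
      intro l hl
      obtain ⟨i, hi, rfl⟩ := Finset.mem_image.1 hl
      have s1 := hshot i hi
      have hi1 := (Finset.mem_filter.1 hi).1
      refine ⟨Shot.good S s1, tq i, s1.tq0, s1.tq1, s1.win, ?_⟩
      apply hsrc i (hF1F i hi1) _ s1.lit ⟨e' i, S.ep_mem s1.tq0 s1.tq1⟩
      have := s1.before 0 le_rfl s1.ts0
      rw [pt_zero] at this
      exact this
    have hfin : F.card ≤ A1.card + A2.card + A3.card + F1.card := by
      refine (Finset.card_le_card hcover).trans ?_
      refine (Finset.card_union_le _ _).trans ?_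
      gcongr
      refine (Finset.card_union_le _ _).trans ?_
      gcongr
      exact Finset.card_union_le _ _
    omega

end Run7.h395
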