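import Pool.Agent.Run7.h395.LocA

/-!
# A change from dark to lit along a ray happens at a window that cuts off the origin of the ray
-/

open Set Topology Filter Complex

noncomputable section

namespace Run7.h395

variable {n : ℕ} (S : SimplePolygon n)

/-- limits of lit points along a direction -/
lemma SimplePolygon.limit_dir {p x d : ℂ} {k : ℕ}
    (hlit : ∃ ρ > 0, ∀ c : ℝ, 0 < c → c < ρ → x + c • d ∈ S.lev p (k + 1)) :
    (∃ᶠ c in 𝓝[>] (0 : ℝ), svis S.region p (x + c • d)) ∨
    ∃ (e : ZMod n) (t : ℝ), 0 ≤ t ∧ t ≤ 1 ∧ ∀ δ > 0, ∃ c t' : ℝ, 0 < c ∧ c < δ ∧ |t' - t| < δ ∧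
      0 < t' ∧ t' < 1 ∧ S.ep e t' ∈ S.lev p k ∧ svis S.region (S.ep e t') (x + c • d) := by
  have := S.neZero
  by_contra hcon
  push Not at hcon
  obtain ⟨h1, h2⟩ := hcon
  have hall : ∀ e : ZMod n, ∀ᶠ c in 𝓝[>] (0 : ℝ), ∀ t' ∈ Icc (0 : ℝ) 1, 0 < t' → t' < 1 →
      S.ep e t' ∈ S.lev p k → ¬ svis S.region (S.ep e t') (x + c • d) := by
    intro e
    refine isCompact_Icc.induction_on
      (p := fun s : Set ℝ => ∀ᶠ c in 𝓝[>] (0 : ℝ), ∀ t' ∈ s, 0 < t' → t' < 1 →
        S.ep e t' ∈ S.lev p k → ¬ svis S.region (S.ep e t') (x + c • d)) ?_ ?_ ?_ ?_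
    · exact Filter.Eventually.of_forall fun y t' ht' => absurd ht' (Set.notMem_empty _)
    · intro s s' hss h
      filter_upwards [h] with y hy t' ht'
      exact hy t' (hss ht')
    · intro s s' h h'
      filter_upwards [h, h'] with y hy hy' t' ht'
      rcases ht' with ht' | ht'
      · exact hy t' ht'
      · exact hy' t' ht'
    · intro t ht
      obtain ⟨δ, hδ, hno⟩ := h2 e t ht.1 ht.2
      refine ⟨Metric.ball t δ, mem_nhdsWithin_of_mem_nhds (Metric.ball_mem_nhds t hδ), ?_⟩
      filter_upwards [Ioo_mem_nhdsGT hδ] with c hc t' ht' g0 g1 g2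
      exact hno c t' hc.1 hc.2 (by rwa [Metric.mem_ball, Real.dist_eq] at ht') g0 g1 g2
  have hall' := Filter.eventually_all.2 hall
  obtain ⟨ρ, hρ, hl⟩ := hlit
  have hI : ∀ᶠ c in 𝓝[>] (0 : ℝ), c ∈ Ioo 0 ρ := Ioo_mem_nhdsGT hρ
  obtain ⟨c, ⟨hc0, hc1⟩, hc2, hc3⟩ := (hI.and (h1.and hall')).exists
  obtain ⟨hyR, h3 | ⟨r, hr1, ⟨e, hr2⟩, hr3⟩⟩ := hl c hc0 hc1
  · exact hc2 h3
  · rw [S.mem_oedge_iff] at hr2
    obtain ⟨t', g0, g1, rfl⟩ := hr2
    exact hc3 e t' ⟨g0.le, g1.le⟩ g0 g1 hr1 hr3

lemma ext_not_fr {P : Set ℂ} {T w : ℂ} {s : ℝ} (h : ExtAt P T w s) (h' : Fr P T w s) : False := by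
  obtain ⟨r, hr, hb⟩ := h'
  obtain ⟨z, ⟨hz1, hz2⟩, hz3⟩ := Metric.mem_closure_iff.1 h r hr
  apply hz1
  apply interior_subset
  apply hb z _ hz2
  rw [dist_comm]; exact hz3

/-- the obstacle is on the side of the dark end -/
lemma SimplePolygon.shadow {X x d D : ℂ} {m : ZMod n} {c lam : ℝ} (hc : 0 < c) (hlam : 0 < lam)
    (hD : D = x - lam • d) (hm : S.v m ∈ openSegment ℝ X x) (hXx : segment ℝ X x ⊆ S.region)
    (hXy : segment ℝ X (x + c • d) ⊆ S.region) (hxy : segment ℝ x (x + c • d) ⊆ S.region)
    (hne : cr (x - X) d ≠ 0) (hvis : svis S.region (S.v m) x) :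
    ∃ b : Bool, ExtAt S.region (S.v m) (x - X) (sg b) ∧ HalfD S.region (S.v m) (x - X) (sg b) ∧
      0 < sg b * cr (x - X) (D - x) := by
  have hw : x - X ≠ 0 := by
    intro h; rw [h, cr_zero_left] at hne; exact hne rfl
  have hm' := hm
  rw [mem_openSegment_iff] at hm
  obtain ⟨r, r0, r1, hr⟩ := hm
  have hmx : x - S.v m = (1 - r) • (x - X) := by
    rw [hr]; unfold pt; simp only [Complex.real_smul]; push_cast; ring
  obtain ⟨b, hext, hhalf⟩ := S.ext_exists (m := m) hw
    (by
      obtain ⟨ρ0, hρ0, hi⟩ := svis_small hvis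
      refine ⟨ρ0 * (1 - r), mul_pos hρ0 (by linarith), ?_⟩
      intro ρ h2 h3
      have h1r : 0 < 1 - r := by linarith
      have := hi (ρ / (1 - r)) (by positivity) (by rwa [div_lt_iff₀ h1r])
      rw [hmx, smul_smul, div_mul_cancel₀ _ h1r.ne'] at this
      exact this)
    (by
      refine ⟨r, r0, ?_⟩
      intro ρ h2 h3
      apply hXx
      rw [mem_segment_iff]
      refine ⟨r - ρ, by linarith, by linarith, ?_⟩
      rw [hr]
      unfold pt; simp only [Complex.real_smul]; push_cast; ring)
  obtain ⟨b', hb'⟩ := exists_sg hne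
  have hfr : Fr S.region (S.v m) (x - X) (sg b') := by
    refine tri_fr S.reg (y := x + c • d) ?_ hXy ?_ hXx hm'
    · have : x + c • d - X = (x - X) + c • d := by ring
      rw [this, cr_add_right, cr_self, cr_smul_right, zero_add]
      have : sg b' * (c * cr (x - X) d) = c * (sg b' * cr (x - X) d) := by ring
      rw [this]; positivity
    · rw [segment_symm]; exact hxy
  refine ⟨b, hext, hhalf, ?_⟩
  have hbb : b ≠ b' := by
    rintro rfl
    exact ext_not_fr hext hfr
  have hsg : sg b = - sg b' := by
    cases b <;> cases b' <;> simp_all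
  have e1 : D - x = -(lam • d) := by rw [hD]; ring
  have e2 : cr (x - X) (D - x) = -(lam * cr (x - X) d) := by
    rw [e1]
    have : -(lam • d) = (-lam) • d := by rw [neg_smul]
    rw [this, cr_smul_right]; ring
  rw [hsg, e2]
  have : -sg b' * -(lam * cr (x - X) d) = lam * (sg b' * cr (x - X) d) := by ring
  rw [this]; positivity

/-- vertices on segments close to a given segment lie on it -/
lemma SimplePolygon.avoid (a x : ℂ) : ∃ δ > 0, ∀ q z, dist q a < δ → dist z x < δ →
    ∀ c, S.v c ∈ segment ℝ q z → S.v c ∈ segment ℝ a x := by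
  have hNe := S.neZero
  have hone : ∀ c : ZMod n, ∀ᶠ δ in 𝓝[>] (0 : ℝ), ∀ q z, dist q a < δ → dist z x < δ →
      S.v c ∈ segment ℝ q z → S.v c ∈ segment ℝ a x := by
    intro c
    by_cases hc : S.v c ∈ segment ℝ a x
    · exact Filter.Eventually.of_forall fun δ q z _ _ _ => hc
    · have hcl : IsClosed (segment ℝ a x) := (isCompact_segment a x).isClosed
      obtain ⟨η, hη, hb⟩ := Metric.isOpen_iff.1 hcl.isOpen_compl (S.v c) hc
      filter_upwards [Ioo_mem_nhdsGT hη] with δ hδ q z hq hz hcs
      exfalso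
      rw [mem_segment_iff] at hcs
      obtain ⟨s, h0, h1, hs⟩ := hcs
      have h2 : pt a x s ∈ Metric.ball (S.v c) η := by
        rw [Metric.mem_ball, hs]
        have e : pt a x s - pt q z s = (1 - s) • (a - q) + s • (x - z) := by
          unfold pt; simp only [Complex.real_smul]; push_cast; ring
        rw [dist_eq_norm, e]
        refine (norm_add_le _ _).trans_lt ?_
        rw [norm_smul, norm_smul, Real.norm_eq_abs, Real.norm_eq_abs, abs_of_nonneg h0,
          abs_of_nonneg (by linarith : (0 : ℝ) ≤ 1 - s)]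
        rw [dist_comm, dist_eq_norm] at hq hz
        have h3 : (1 - s) * ‖a - q‖ ≤ (1 - s) * δ :=
          mul_le_mul_of_nonneg_left hq.le (by linarith)
        have h4 : s * ‖x - z‖ ≤ s * δ := mul_le_mul_of_nonneg_left hz.le h0
        have h5 : (1 - s) * δ + s * δ = δ := by ring
        linarith [hδ.2]
      exact hb h2 (pt_mem_segment h0 h1)
  have hI : ∀ᶠ δ in 𝓝[>] (0 : ℝ), 0 < δ := self_mem_nhdsWithin
  obtain ⟨δ, hδ0, hδ⟩ := (hI.and (Filter.eventually_all.2 hone)).exists
  exact ⟨δ, hδ0, fun q z hq hz c => hδ c q z hq hz⟩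

/-- the source is not on the line of the segment -/
lemma SimplePolygon.off_line {x d q : ℂ} {c : ℝ} (hc : 0 < c) (hd0 : d ≠ 0)
    (hball : segment ℝ x (x + c • d) ⊆ interior S.region)
    (hq : svis S.region q (x + c • d)) (hnx : ¬ svis S.region q x) : cr d (q - x) ≠ 0 := by
  set y := x + c • d with hy
  intro h0
  obtain ⟨μ, hμ⟩ := parallel_of_cr hd0 h0
  have hq' : q = x + μ • d := by rw [← hμ]; ring
  rcases lt_or_ge μ 0 with h | h
  · -- behind
    apply hnx
    intro z hz
    apply hq
    rw [mem_openSegment_iff] at hz ⊢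
    obtain ⟨r, r0, r1, rfl⟩ := hz
    refine ⟨r * (-μ / (c - μ)), by
      have : 0 < -μ / (c - μ) := div_pos (by linarith) (by linarith)
      positivity, ?_, ?_⟩
    · have h5 : -μ / (c - μ) < 1 := by rw [div_lt_one (by linarith)]; linarith
      have h6 : 0 < -μ / (c - μ) := div_pos (by linarith) (by linarith)
      nlinarith
    · have hne : c - μ ≠ 0 := by linarith
      rw [hq', hy]
      unfold pt
      have e1 : x - (x + μ • d) = (-μ) • d := by rw [neg_smul]; ring
      have e2 : x + c • d - (x + μ • d) = (c - μ) • d := by rw [sub_smul]; ring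
      rw [e1, e2, smul_smul, smul_smul]
      have e3 : r * (-μ / (c - μ)) * (c - μ) = r * -μ := by field_simp
      rw [e3]
  · apply hnx
    intro z hz
    rw [mem_openSegment_iff] at hz
    obtain ⟨r, r0, r1, rfl⟩ := hz
    have e0 : pt q x r = x + ((1 - r) * μ) • d := by
      rw [hq']; unfold pt; simp only [Complex.real_smul]; push_cast; ring
    rcases le_or_gt ((1 - r) * μ) c with h2 | h2
    · apply hball
      rw [mem_segment_iff]
      have : 0 ≤ (1 - r) * μ := mul_nonneg (by linarith) h
      refine ⟨(1 - r) * μ / c, by positivity, by rw [div_le_one hc]; exact h2, ?_⟩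
      rw [e0, hy]; unfold pt
      have e2 : x + c • d - x = c • d := by ring
      rw [e2, smul_smul, div_mul_cancel₀ _ hc.ne']
    · apply hq
      rw [mem_openSegment_iff]
      have hμc : 0 < μ - c := by nlinarith
      refine ⟨(μ - (1 - r) * μ) / (μ - c), ?_, ?_, ?_⟩
      · apply div_pos _ hμc
        have : μ - (1 - r) * μ = r * μ := by ring
        rw [this]; exact mul_pos r0 (by linarith)
      · rw [div_lt_one hμc]; linarith
      · rw [e0, hy, hq']; unfold pt
        have e2 : x + c • d - (x + μ • d) = (c - μ) • d := by rw [sub_smul]; ring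
        rw [e2, smul_smul]
        have e3 : (μ - (1 - r) * μ) / (μ - c) * (c - μ) = -(μ - (1 - r) * μ) := by
          have : c - μ = -(μ - c) := by ring
          rw [this, mul_neg, div_mul_cancel₀ _ hμc.ne']
        rw [e3]; simp only [Complex.real_smul]; push_cast; ring

/-- geometry of a blocked point next to a lit point -/
lemma SimplePolygon.blocked_cross {x d a q : ℂ} {c : ℝ} (hc : 0 < c) (hd0 : d ≠ 0)
    (hball : segment ℝ x (x + c • d) ⊆ interior S.region) (hax : segment ℝ a x ⊆ S.region)
    (hq : svis S.region q (x + c • d)) (hnx : ¬ svis S.region q x)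
    (hav : ∀ z ∈ segment ℝ x (x + c • d), ∀ c', S.v c' ∈ segment ℝ q z →
      S.v c' ∈ segment ℝ a x) :
    cr (x - a) d ≠ 0 ∧ ∃ (c' : ZMod n) (X z1 : ℂ) (s : ℝ), S.v c' = pt a x s ∧ 0 ≤ s ∧ s < 1 ∧
      S.v c' ∈ openSegment ℝ X x ∧ segment ℝ X x ⊆ S.region ∧
      segment ℝ X (x + c • d) ⊆ S.region ∧ z1 ∈ segment ℝ x (x + c • d) ∧
      S.v c' ∈ openSegment ℝ q z1 := by
  set y := x + c • d with hy
  have hcl := S.reg.closed
  have hxint : x ∈ interior S.region := hball (left_mem_segment ℝ _ _)
  have hyint : y ∈ interior S.region := hball (right_mem_segment ℝ _ _)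
  have hqd : cr d (q - x) ≠ 0 := S.off_line hc hd0 hball hq hnx
  have hxy : x - y = (-c) • d := by rw [hy, neg_smul]; ring
  have hO : cr (x - y) (q - y) ≠ 0 := by
    rw [hxy, cr_smul_left]
    apply mul_ne_zero (by linarith)
    have : q - y = (q - x) - c • d := by rw [hy]; ring
    rw [this, cr_sub_right, cr_smul_right, cr_self, mul_zero, sub_zero]
    exact hqd
  obtain ⟨τ, hτ⟩ := exists_sg hO
  have hyxint : segment ℝ y x ⊆ interior S.region := by rw [segment_symm]; exact hball
  obtain ⟨t1, t10, t11, hseg1, -, c', hc'⟩ := S.blocker hτ (hyxint.trans interior_subset)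
    (by
      intro w hw
      obtain ⟨r, hr, hb⟩ := Metric.isOpen_iff.1 isOpen_interior w (hyxint hw)
      exact ⟨r, hr, fun z hz _ => hb hz⟩) hq hnx
  set z1 := pt y x t1 with hz1
  have hz1seg : z1 ∈ segment ℝ x y := by
    rw [segment_symm]; exact pt_mem_segment t10.le t11
  set c1 := c * (1 - t1) with hc1
  have hz1x : z1 = x + c1 • d := by
    rw [hz1, hc1, hy]; unfold pt; simp only [Complex.real_smul]; push_cast; ring
  have hc10 : 0 ≤ c1 := mul_nonneg hc.le (by linarith)
  have hc1c : c1 < c := by rw [hc1]; nlinarith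
  have hvm := hav z1 hz1seg c' (openSegment_subset_segment _ _ _ hc')
  rw [mem_segment_iff] at hvm
  obtain ⟨s, s0, s1, hs⟩ := hvm
  have hs1 : s < 1 := by
    rcases s1.eq_or_lt with h | h
    · exfalso
      rw [h, pt_one] at hs
      rw [← hs] at hxint
      exact frontier_not_int (S.v_frontier c') hxint
    · exact h
  rw [mem_openSegment_iff] at hc'
  obtain ⟨r, r0, r1, hr⟩ := hc'
  set w := x - a with hw
  have hvcx : S.v c' - x = -((1 - s) • w) := by
    rw [hs, hw]; unfold pt; simp only [Complex.real_smul]; push_cast; ring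
  have hlin : ∀ u : ℂ, cr u (S.v c' - x) = (1 - r) * cr u (q - x) + r * (c1 * cr u d) := by
    intro u
    rw [hr, hz1x]
    unfold pt cr
    simp only [Complex.add_re, Complex.add_im, Complex.sub_re, Complex.sub_im, Complex.real_smul,
      Complex.mul_re, Complex.mul_im, Complex.ofReal_re, Complex.ofReal_im]
    ring
  have hwd : cr w d ≠ 0 := by
    intro h0
    have h1 := hlin d
    rw [hvcx, cr_self, mul_zero, mul_zero, add_zero] at h1
    have h2 : cr d (-((1 - s) • w)) = 0 := by
      have : -((1 - s) • w) = (-(1 - s)) • w := by rw [neg_smul]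
      rw [this, cr_smul_right, cr_swap, h0]; ring
    rw [h2] at h1
    rcases mul_eq_zero.1 h1.symm with h3 | h3
    · linarith
    · exact hqd h3
  have hwv : cr w (S.v c' - x) = 0 := by
    rw [hvcx]
    have : -((1 - s) • w) = (-(1 - s)) • w := by rw [neg_smul]
    rw [this, cr_smul_right, cr_self, mul_zero]
  refine ⟨hwd, ?_⟩
  have hqy := seg_of_svis hcl hq
  by_cases hqw : cr w (q - x) = 0
  · -- the source is on the line
    have h1 := hlin w
    rw [hwv, hqw, mul_zero, zero_add] at h1
    have hc1z : c1 = 0 := by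
      rcases mul_eq_zero.1 h1.symm with h3 | h3
      · linarith
      · exact (mul_eq_zero.1 h3).resolve_right hwd
    have hz1e : z1 = x := by rw [hz1x, hc1z, zero_smul, add_zero]
    rw [hz1e] at hseg1
    refine ⟨c', q, z1, s, hs, s0, hs1, ?_, hseg1, hqy, hz1seg, ?_⟩
    · rw [← hz1e, hr]; exact pt_mem_openSegment r0 r1
    · rw [hr]; exact pt_mem_openSegment r0 r1
  · set α := cr w (q - x) with hα
    set β := cr w d with hβ
    have h1 := hlin w
    rw [hwv] at h1
    -- (1-r) α + r c1 β = 0
    have h1r : 0 < 1 - r := by linarith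
    have hc1ne : 0 < c1 := by
      rcases hc10.eq_or_lt with h | h
      · exfalso
        rw [← h, zero_mul, mul_zero, add_zero] at h1
        rcases mul_eq_zero.1 h1.symm with h3 | h3
        · linarith
        · exact hqw h3
      · exact h
    have hαβ : α = -(r / (1 - r) * c1) * β := by
      have : (1 - r) * α = -(r * (c1 * β)) := by linarith
      field_simp
      linarith
    set g := r / (1 - r) * c1 with hg
    have hg0 : 0 < g := by positivity
    -- crossing parameter
    set r' := g / (g + c) with hr'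
    have hr'0 : 0 < r' := by positivity
    have hr'1 : r' < 1 := by rw [hr', div_lt_one (by positivity)]; linarith
    set X := pt q y r' with hX
    have hlinX : ∀ u : ℂ, cr u (X - x) = (1 - r') * cr u (q - x) + r' * (c * cr u d) := by
      intro u
      rw [hX, hy]
      unfold pt cr
      simp only [Complex.add_re, Complex.add_im, Complex.sub_re, Complex.sub_im, Complex.real_smul,
        Complex.mul_re, Complex.mul_im, Complex.ofReal_re, Complex.ofReal_im]
      ring
    have hXw : cr w (X - x) = 0 := by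
      rw [hlinX w, ← hα, ← hβ, hαβ, hr']
      have : g + c ≠ 0 := by positivity
      field_simp
      ring
    have hwne : w ≠ 0 := by
      intro h; apply hwd; rw [hβ, h, cr_zero_left]
    obtain ⟨ξ, hξ⟩ := parallel_of_cr hwne hXw
    -- compare with the vertex
    have hr1' : r = g / (g + c1) := by
      rw [hg]
      have : 1 - r ≠ 0 := h1r.ne'
      have h3 : r / (1 - r) * c1 + c1 = c1 / (1 - r) := by field_simp; ring
      rw [h3]
      field_simp
    have hξs : ξ * (c1 * (g + c)) = -(1 - s) * (c * (g + c1)) := by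
      have k1 := hlin d
      have k2 := hlinX d
      rw [hvcx, cr_self, mul_zero, mul_zero, add_zero] at k1
      rw [hξ, cr_self, mul_zero, mul_zero, add_zero, cr_smul_right] at k2
      have k3 : cr d (-((1 - s) • w)) = -(1 - s) * cr d w := by
        have : -((1 - s) • w) = (-(1 - s)) • w := by rw [neg_smul]
        rw [this, cr_smul_right]
      rw [k3] at k1
      have hdw : cr d w ≠ 0 := by rw [cr_swap]; exact neg_ne_zero.2 hwd
      have hg1 : g + c1 ≠ 0 := by positivity
      have hg2 : g + c ≠ 0 := by positivity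
      have k4 : 1 - r = c1 / (g + c1) := by rw [hr1']; field_simp; ring
      have k5 : 1 - r' = c / (g + c) := by rw [hr']; field_simp; ring
      rw [k4] at k1
      rw [k5] at k2
      field_simp at k1 k2
      have k6 : cr d w * (ξ * (c1 * (g + c))) = cr d w * (-(1 - s) * (c * (g + c1))) := by
        linear_combination c1 * k2 - c * k1
      exact mul_left_cancel₀ hdw k6
    have hratio : ∃ ρ : ℝ, 0 < ρ ∧ ρ < 1 ∧ (1 - s) = -ξ * ρ := by
      refine ⟨c1 * (g + c) / (c * (g + c1)), by positivity, ?_, ?_⟩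
      · rw [div_lt_one (by positivity)]; nlinarith
      · have : c * (g + c1) ≠ 0 := by positivity
        field_simp
        linarith
    obtain ⟨ρ, hρ0, hρ1, hρ⟩ := hratio
    have hvX : S.v c' ∈ openSegment ℝ X x := by
      rw [mem_openSegment_iff]
      refine ⟨1 - ρ, by linarith, by linarith, ?_⟩
      have e1 : S.v c' = x - (1 - s) • w := by
        have : S.v c' = x + (S.v c' - x) := by ring
        rw [this, hvcx]; ring
      have e2 : X = x + ξ • w := by rw [← hξ]; ring
      rw [e1, e2, hρ]; unfold pt; simp only [Complex.real_smul]; push_cast; ring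
    have hXy : segment ℝ X y ⊆ S.region := by
      refine subset_trans ?_ hqy
      exact (convex_segment _ _).segment_subset (pt_mem_segment hr'0.le hr'1.le)
        (right_mem_segment ℝ _ _)
    refine ⟨c', X, z1, s, hs, s0, hs1, hvX, ?_, hXy, hz1seg, ?_⟩
    · -- the segment from the crossing point to the dark point
      have hori : ori q y z1 ≠ 0 := by
        have e1 : ori q y z1 = -(c - c1) * cr d (q - x) := by
          unfold ori
          rw [hz1x, hy]
          unfold cr
          simp only [Complex.add_re, Complex.add_im, Complex.sub_re, Complex.sub_im,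
            Complex.real_smul, Complex.mul_re, Complex.mul_im, Complex.ofReal_re,
            Complex.ofReal_im]
          ring
        rw [e1]
        apply mul_ne_zero _ hqd
        intro h; linarith
      have hyz1 : segment ℝ y z1 ⊆ S.region := by
        refine subset_trans ?_ (hball.trans interior_subset)
        exact (convex_segment _ _).segment_subset (right_mem_segment ℝ _ _) hz1seg
      have hXv : segment ℝ X (S.v c') ⊆ S.region := by
        intro z hz
        rw [mem_segment_iff] at hz
        obtain ⟨σ, σ0, σ1, rfl⟩ := hz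
        have := fill S.reg hori hqy hyz1 hseg1 (α := (1 - σ) * r') (β := σ * r)
          (mul_nonneg (by linarith) hr'0.le) (mul_nonneg σ0 r0.le) (by nlinarith)
        have e1 : pt X (S.v c') σ = q + ((1 - σ) * r') • (y - q) + (σ * r) • (z1 - q) := by
          rw [hX, hr]; unfold pt; simp only [Complex.real_smul]; push_cast; ring
        rw [e1]; exact this
      have hvx : segment ℝ (S.v c') x ⊆ S.region := by
        refine subset_trans ?_ hax
        refine (convex_segment _ _).segment_subset ?_ (right_mem_segment ℝ _ _)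
        rw [hs]; exact pt_mem_segment s0 s1
      intro z hz
      rw [mem_openSegment_iff] at hvX
      obtain ⟨κ, κ0, κ1, hκ⟩ := hvX
      rw [mem_segment_iff] at hz
      obtain ⟨σ, σ0, σ1, rfl⟩ := hz
      rcases le_or_gt σ κ with h | h
      · apply hXv
        rw [mem_segment_iff]
        refine ⟨σ / κ, by positivity, by rw [div_le_one κ0]; exact h, ?_⟩
        rw [hκ, pt_pt, div_mul_cancel₀ _ κ0.ne']
      · apply hvx
        rw [mem_segment_iff]
        have h1κ : 0 < 1 - κ := by linarith
        refine ⟨(σ - κ) / (1 - κ), div_nonneg (by linarith) h1κ.le,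
          by rw [div_le_one h1κ]; linarith, ?_⟩
        have e3 := pt_pt_pt X x κ 1 ((σ - κ) / (1 - κ))
        rw [pt_one] at e3
        rw [hκ, e3, div_mul_cancel₀ _ h1κ.ne']
        congr 1; ring
    · rw [hr]; exact pt_mem_openSegment r0 r1

end Run7.h395
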