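import Pool.Agent.Run7.h395.LocD

/-!
# A change from dark to lit along a ray happens at a window that cuts off the origin of the ray
-/

open Set Topology Filter Complex

noncomputable section

namespace Run7.h395

variable {n : ℕ} (S : SimplePolygon n)

/-- consecutive vertices on a line inside the polygon -/
def SimplePolygon.VVc (j m : ZMod n) : Prop :=
  j ≠ m ∧ segment ℝ (S.v j) (S.v m) ⊆ S.region ∧ ∀ c, S.v c ∉ openSegment ℝ (S.v j) (S.v m)

/-- the origins and vertices of windows -/
def SimplePolygon.Wnd (p : ℂ) (k : ℕ) (A : ℂ) (m : ZMod n) : Prop :=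
  A = p ∨ (∃ j, A = S.v j ∧ S.VVc j m) ∨ ∃ i, S.Rel p k i ∧ A = S.ep i.1 (tt i) ∧ m = i.2.1

/-- a window through `x` with the point `D` on its obstacle side -/
def SimplePolygon.Cut (p : ℂ) (k : ℕ) (x D A : ℂ) (m : ZMod n) (b : Bool) : Prop :=
  S.Wnd p k A m ∧ x ∈ S.ray A m ∧ segment ℝ A x ⊆ S.region ∧ A ≠ S.v m ∧
    ExtAt S.region (S.v m) (S.v m - A) (sg b) ∧ HalfD S.region (S.v m) (S.v m - A) (sg b) ∧
    0 < sg b * cr (S.v m - A) (D - A)

lemma SimplePolygon.vvc_edge (e : ZMod n) : S.VVc e (e + 1) ∧ S.VVc (e + 1) e := by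
  refine ⟨⟨(S.add_one_ne e).symm, S.edge_sub e, fun c => S.v_not_oedge c e⟩,
    ⟨S.add_one_ne e, ?_, ?_⟩⟩
  · rw [segment_symm]; exact S.edge_sub e
  · intro c hc
    rw [openSegment_symm] at hc
    exact S.v_not_oedge c e hc

lemma SimplePolygon.cut_fin {p x w D A : ℂ} {k : ℕ} {m : ZMod n} {b : Bool} {ν τ : ℝ}
    (hν : 0 < ν) (hw : w ≠ 0) (hA : S.v m - A = ν • w) (hτ : 1 < τ) (hx : x = pt A (S.v m) τ)
    (hvis : svis S.region (S.v m) x) (hseg : segment ℝ A x ⊆ S.region)
    (hext : ExtAt S.region (S.v m) w (sg b)) (hhalf : HalfD S.region (S.v m) w (sg b))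
    (hside : 0 < sg b * cr w (D - x)) (hW : S.Wnd p k A m) : S.Cut p k x D A m b := by
  refine ⟨hW, ⟨τ, hτ, hx, hvis⟩, hseg, ?_, ?_, ?_, ?_⟩
  · intro h
    rw [h, sub_self] at hA
    rcases smul_eq_zero.1 hA.symm with h' | h'
    · linarith
    · exact hw h'
  · rw [hA]; exact hext.smul hν
  · rw [hA]; exact hhalf.smul hν
  · have e1 : D - A = (D - x) + (x - A) := by ring
    have e2 : x - A = τ • (S.v m - A) := by rw [hx, pt_sub_left]
    rw [e1, cr_add_right, e2, cr_smul_right, cr_self, mul_zero, add_zero, hA, cr_smul_left]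
    have : sg b * (ν * cr w (D - x)) = ν * (sg b * cr w (D - x)) := by ring
    rw [this]; positivity

/-- windows along an edge -/
lemma SimplePolygon.cut_edge {p D : ℂ} {k : ℕ} {e m : ZMod n} {b : Bool} {t u : ℝ}
    (ht0 : 0 ≤ t) (ht1 : t ≤ 1) (hseg : segment ℝ (S.ep e t) (S.ep e u) ⊆ S.region)
    (hu : (u < 0 ∧ m = e) ∨ (1 < u ∧ m = e + 1)) (hvis : svis S.region (S.v m) (S.ep e u))
    (hext : ExtAt S.region (S.v m) (S.ep e u - S.ep e t) (sg b))
    (hhalf : HalfD S.region (S.v m) (S.ep e u - S.ep e t) (sg b))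
    (hside : 0 < sg b * cr (S.ep e u - S.ep e t) (D - S.ep e u)) :
    ∃ A, S.Cut p k (S.ep e u) D A m b := by
  have hdir := S.dir_ne e
  have hmemseg : ∀ τ : ℝ, (t ≤ τ ∧ τ ≤ u) ∨ (u ≤ τ ∧ τ ≤ t) → S.ep e τ ∈ S.region := by
    intro τ hτ
    apply hseg
    rw [mem_segment_iff]
    have hut : u - t ≠ 0 := by
      rcases hu with ⟨h, -⟩ | ⟨h, -⟩
      · linarith
      · linarith
    refine ⟨(τ - t) / (u - t), ?_, ?_, ?_⟩
    · rcases hτ with h' | h'
      · exact div_nonneg (by linarith [h'.1]) (by linarith [h'.1, h'.2])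
      · exact div_nonneg_of_nonpos (by linarith [h'.2]) (by linarith [h'.1, h'.2])
    · rcases hτ with h' | h'
      · have : 0 < u - t := lt_of_le_of_ne (by linarith [h'.1, h'.2]) hut.symm
        rw [div_le_one this]; linarith [h'.2]
      · have : u - t < 0 := lt_of_le_of_ne (by linarith [h'.1, h'.2]) hut
        rw [div_le_one_of_neg this]; linarith [h'.1]
    · rw [S.pt_ep, div_mul_cancel₀ _ hut]
      congr 1; ring
  have hedge : ∀ τ : ℝ, 0 ≤ τ → τ ≤ 1 → S.ep e τ ∈ S.region := fun τ h0 h1 =>
    S.edge_sub e (pt_mem_segment h0 h1)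
  rcases hu with ⟨hu, hme⟩ | ⟨hu, hme⟩
  · rw [hme] at hvis hext hhalf ⊢
    have e1 : S.ep e u = pt (S.v (e + 1)) (S.v e) (1 - u) := by
      rw [← S.ep_one_sub]; congr 1; ring
    refine ⟨S.v (e + 1), S.cut_fin (ν := 1 / (t - u)) (τ := 1 - u)
      (one_div_pos.2 (by linarith)) ?_ ?_ (by linarith) e1 hvis ?_ hext hhalf hside
      (Or.inr (Or.inl ⟨e + 1, rfl, (S.vvc_edge e).2⟩))⟩
    · rw [S.ep_sub]
      exact smul_ne_zero (by linarith) hdir
    · rw [S.ep_sub, smul_smul]
      have : 1 / (t - u) * (u - t) = -1 := by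
        have : t - u ≠ 0 := by linarith
        field_simp; ring
      rw [this]; unfold SimplePolygon.dir; simp
    · intro z hz
      rw [mem_segment_iff] at hz
      obtain ⟨r, r0, r1, rfl⟩ := hz
      have e2 : pt (S.v (e + 1)) (S.ep e u) r = S.ep e (1 + r * (u - 1)) := by
        have : S.v (e + 1) = S.ep e 1 := by simp [SimplePolygon.ep]
        rw [this, S.pt_ep]
      rw [e2]
      rcases le_or_gt 0 (1 + r * (u - 1)) with h | h
      · apply hedge _ h; nlinarith
      · apply hmemseg
        right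
        constructor
        · nlinarith
        · linarith
  · rw [hme] at hvis hext hhalf ⊢
    refine ⟨S.v e, S.cut_fin (ν := 1 / (u - t)) (τ := u)
      (one_div_pos.2 (by linarith)) ?_ ?_ hu rfl hvis ?_ hext hhalf hside
      (Or.inr (Or.inl ⟨e, rfl, (S.vvc_edge e).1⟩))⟩
    · rw [S.ep_sub]
      exact smul_ne_zero (by linarith) hdir
    · rw [S.ep_sub, smul_smul, one_div_mul_cancel (by linarith : u - t ≠ 0), one_smul]; rfl
    · intro z hz
      rw [mem_segment_iff] at hz
      obtain ⟨r, r0, r1, rfl⟩ := hz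
      have e2 : pt (S.v e) (S.ep e u) r = S.ep e (r * u) := by
        have : S.v e = S.ep e 0 := by simp [SimplePolygon.ep]
        rw [this, S.pt_ep]; congr 1; ring
      rw [e2]
      rcases le_or_gt (r * u) 1 with h | h
      · exact hedge _ (by positivity) h
      · apply hmemseg
        left
        constructor
        · linarith
        · nlinarith

theorem SimplePolygon.change_window {p x d D : ℂ} {k : ℕ} {lam : ℝ}
    (hx : x ∈ interior S.region) (hd : x ∉ S.lev p (k + 1)) (hd0 : d ≠ 0)
    (hlit : ∃ ρ > 0, ∀ c : ℝ, 0 < c → c < ρ → x + c • d ∈ S.lev p (k + 1)) (hlam : 0 < lam)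
    (hD : D = x - lam • d) : ∃ A m b, S.Cut p k x D A m b := by
  have hcl := S.reg.closed
  have hNe := S.neZero
  have hxR := interior_subset hx
  have hxv : ∀ m, x ≠ S.v m := by
    rintro m rfl; exact frontier_not_int (S.v_frontier m) hx
  obtain ⟨r, hr, hball⟩ := Metric.isOpen_iff.1 isOpen_interior x hx
  have hdn : 0 < ‖d‖ := norm_pos_iff.2 hd0
  have hydist : ∀ c : ℝ, 0 < c → dist (x + c • d) x = c * ‖d‖ := by
    intro c hc
    rw [dist_eq_norm, add_sub_cancel_left, norm_smul, Real.norm_eq_abs, abs_of_pos hc]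
  have hxyball : ∀ c : ℝ, 0 < c → c * ‖d‖ < r → segment ℝ x (x + c • d) ⊆ Metric.ball x r := by
    intro c hc hcr
    apply (convex_ball x r).segment_subset (Metric.mem_ball_self hr)
    rw [Metric.mem_ball, hydist c hc]; exact hcr
  rcases S.limit_dir hlit with h1 | ⟨e, t, ht0, ht1, hlim⟩
  · -- lit directly by the source
    have hseg : segment ℝ p x ⊆ S.region := by
      apply seg_of_limit hcl
      intro δ hδ
      have hI : ∀ᶠ c in 𝓝[>] (0 : ℝ), c ∈ Ioo 0 (δ / ‖d‖) := Ioo_mem_nhdsGT (by positivity)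
      obtain ⟨c, hc1, hc2⟩ := (h1.and_eventually hI).exists
      refine ⟨p, x + c • d, by rw [dist_self]; exact hδ, ?_, seg_of_svis hcl hc1⟩
      rw [hydist c hc2.1]
      have := hc2.2
      rwa [lt_div_iff₀ hdn] at this
    have hI : ∀ᶠ c in 𝓝[>] (0 : ℝ), c ∈ Ioo 0 (r / ‖d‖) := Ioo_mem_nhdsGT (by positivity)
    obtain ⟨c, hc1, hc2, hc3⟩ := (h1.and_eventually hI).exists
    have hc3' : c * ‖d‖ < r := by rwa [lt_div_iff₀ hdn] at hc3
    have hxy := (hxyball c hc2 hc3').trans hball
    have hnx : ¬ svis S.region p x := fun h => hd ⟨hxR, Or.inl h⟩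
    have hoff := S.off_line hc2 hd0 hxy hc1 hnx
    by_cases hv : ∃ i, S.v i ∈ openSegment ℝ p x
    · obtain ⟨m, τ, τ0, τ1, hτ, hvis⟩ := S.last_vertex hseg hx hv
      have hne : cr (x - p) d ≠ 0 := by
        intro h; apply hoff
        have : cr d (p - x) = cr (x - p) d := by
          unfold cr; simp only [Complex.sub_re, Complex.sub_im]; ring
        rw [this, h]
      obtain ⟨b, hext, hhalf, hside⟩ := S.shadow hc2 hlam hD
        (by rw [hτ]; exact pt_mem_openSegment τ0 τ1) hseg (seg_of_svis hcl hc1)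
        (hxy.trans interior_subset) hne hvis
      refine ⟨p, m, b, S.cut_fin (ν := τ) (τ := 1 / τ) τ0 ?_ ?_ ?_ ?_ hvis hseg hext hhalf hside
        (Or.inl rfl)⟩
      · intro h; rw [h, cr_zero_left] at hne; exact hne rfl
      · rw [hτ, pt_sub_left]
      · rw [lt_div_iff₀ τ0]; linarith
      · rw [hτ, pt_pt, one_div_mul_cancel τ0.ne', pt_one]
    · push Not at hv
      exact absurd (S.svis_of_no_vertex hseg hx hv) hnx
  -- lit by edge points tending to `a`
  set a := S.ep e t with ha
  have hnd : 0 < ‖S.dir e‖ := norm_pos_iff.2 (S.dir_ne e)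
  have hqdist : ∀ t' : ℝ, dist (S.ep e t') a = |t' - t| * ‖S.dir e‖ := by
    intro t'
    rw [dist_eq_norm, ha, S.ep_sub, norm_smul, Real.norm_eq_abs]
  have hseg : segment ℝ a x ⊆ S.region := by
    apply seg_of_limit hcl
    intro δ hδ
    obtain ⟨c, t', hc0, hc1, ht', -, -, -, hvis⟩ := hlim (min (δ / ‖d‖) (δ / ‖S.dir e‖))
      (by positivity)
    refine ⟨S.ep e t', x + c • d, ?_, ?_, seg_of_svis hcl hvis⟩
    · rw [hqdist]
      have := ht'.trans_le (min_le_right _ _)
      rwa [lt_div_iff₀ hnd] at this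
    · rw [hydist c hc0]
      have := hc1.trans_le (min_le_left _ _)
      rwa [lt_div_iff₀ hdn] at this
  have hcre : ∀ z : ℂ, ∀ t' : ℝ, cr (S.dir e) (z - S.ep e t') = cr (S.dir e) (z - S.v e) := by
    intro z t'
    have : z - S.ep e t' = (z - S.v e) - (S.ep e t' - S.v e) := by ring
    rw [this, cr_sub_right, S.ep_sub_v, cr_smul_right, cr_self]; ring
  have hge : 0 ≤ S.side e * cr (S.dir e) (x - S.v e) := by
    by_contra hcon
    push Not at hcon
    have hcont : Continuous fun z : ℂ => S.side e * cr (S.dir e) (z - S.v e) :=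
      continuous_const.mul (continuous_cr continuous_const (continuous_id.sub continuous_const))
    have hev : ∀ᶠ z in 𝓝 x, S.side e * cr (S.dir e) (z - S.v e) < 0 :=
      hcont.continuousAt.eventually_lt continuousAt_const hcon
    obtain ⟨δ, hδ, hball'⟩ := Metric.eventually_nhds_iff.1 hev
    obtain ⟨c, t', hc0, hc1, -, g0, g1, -, hvis⟩ := hlim (δ / ‖d‖) (by positivity)
    have h2 := hball' (y := x + c • d) (by
      rw [hydist c hc0]; rwa [lt_div_iff₀ hdn] at hc1)
    have h3 := S.svis_side (S.ep_mem g0 g1 (i := e)) (svis_symm hvis)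
    rw [hcre] at h3
    linarith
  -- dark means: not seen by lit edge points
  have hno : ∀ t', 0 < t' → t' < 1 → S.ep e t' ∈ S.lev p k → ¬ svis S.region (S.ep e t') x := by
    intro t' g0 g1 hl hv
    exact hd ⟨hxR, Or.inr ⟨_, hl, ⟨e, S.ep_mem g0 g1⟩, hv⟩⟩
  have hax : a ≠ x := by
    intro h
    have : a ∈ S.edge e := pt_mem_segment ht0 ht1
    rw [h] at this
    exact frontier_not_int (S.edge_sub_frontier e this) hx
  -- a point of the line of `e` which is not on the edge
  have hline : ∀ u : ℝ, x = S.ep e u → u < 0 ∨ 1 < u := by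
    intro u hu
    by_contra hcon
    push Not at hcon
    have hxe : x ∈ S.edge e := by
      rw [hu]
      exact pt_mem_segment hcon.1 hcon.2
    exact frontier_not_int (S.edge_sub_frontier e hxe) hx
  obtain ⟨δ0, hδ0, hav⟩ := S.avoid a x
  obtain ⟨δ1, hδ1, hl1⟩ : ∃ δ1 > 0, ∀ z, dist z x < δ1 → S.onLine e z → S.onLine e x := by
    by_cases hol : S.onLine e x
    · exact ⟨1, one_pos, fun _ _ _ => hol⟩
    · have hcont : Continuous fun z : ℂ => cr (S.dir e) (z - S.v e) :=
        continuous_cr continuous_const (continuous_id.sub continuous_const)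
      have hev : ∀ᶠ z in 𝓝 x, cr (S.dir e) (z - S.v e) ≠ 0 :=
        hcont.continuousAt.eventually_ne hol
      obtain ⟨δ, hδ, hb⟩ := Metric.eventually_nhds_iff.1 hev
      exact ⟨δ, hδ, fun z hz hz' => absurd hz' (hb hz)⟩
  set δ2 := min δ0 (min δ1 r) with hδ2
  have hδ20 : 0 < δ2 := by positivity
  obtain ⟨c, t', hc0, hc1, ht', g0, g1, hlitq, hvisq⟩ :=
    hlim (min (δ2 / ‖d‖) (δ2 / ‖S.dir e‖)) (by positivity)
  set q := S.ep e t' with hq
  have hc2 : c * ‖d‖ < δ2 := by
    have := hc1.trans_le (min_le_left _ _)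
    rwa [lt_div_iff₀ hdn] at this
  have hqa : dist q a < δ2 := by
    rw [hqdist]
    have := ht'.trans_le (min_le_right _ _)
    rwa [lt_div_iff₀ hnd] at this
  have hcr2 : c * ‖d‖ < r := hc2.trans_le ((min_le_right _ _).trans (min_le_right _ _))
  have hxy := (hxyball c hc0 hcr2).trans hball
  have hzd : ∀ z ∈ segment ℝ x (x + c • d), dist z x < δ2 := by
    intro z hz
    have : segment ℝ x (x + c • d) ⊆ Metric.ball x δ2 := by
      apply (convex_ball x δ2).segment_subset (Metric.mem_ball_self hδ20)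
      rw [Metric.mem_ball, hydist c hc0]; exact hc2
    exact this hz
  obtain ⟨hwd, c', X, z1, s, hs, s0, s1, hvX, hXx, hXy, hz1, hvq⟩ :=
    S.blocked_cross hc0 hd0 hxy hseg hvisq (hno t' g0 g1 hlitq)
      (fun z hz c' hc' => hav q z (hqa.trans_le (min_le_left _ _))
        ((hzd z hz).trans_le (min_le_left _ _)) c' hc')
  set w := x - a with hw
  have hwne : w ≠ 0 := sub_ne_zero.2 hax.symm
  -- the last vertex
  obtain ⟨m, s', hss', s'1, hs', hvis⟩ : ∃ (m : ZMod n) (s' : ℝ), s ≤ s' ∧ s' < 1 ∧
      S.v m = pt a x s' ∧ svis S.region (S.v m) x := by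
    by_cases hv : ∃ i, S.v i ∈ openSegment ℝ (S.v c') x
    · have hsegc : segment ℝ (S.v c') x ⊆ S.region := by
        refine subset_trans ?_ hseg
        refine (convex_segment _ _).segment_subset ?_ (right_mem_segment ℝ _ _)
        rw [hs]; exact pt_mem_segment s0 s1.le
      obtain ⟨m, τ, τ0, τ1, hτ, hvis⟩ := S.last_vertex hsegc hx hv
      refine ⟨m, s + τ * (1 - s), ?_, ?_, ?_, hvis⟩
      · have := mul_pos τ0 (show 0 < 1 - s by linarith)
        linarith
      · have := mul_pos (show 0 < 1 - τ by linarith) (show 0 < 1 - s by linarith)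
        nlinarith
      · rw [hτ, hs]
        have := pt_pt_pt a x s 1 τ
        rw [pt_one] at this
        exact this
    · push Not at hv
      refine ⟨c', s, le_rfl, s1, hs, ?_⟩
      have hsegc : segment ℝ (S.v c') x ⊆ S.region := by
        refine subset_trans ?_ hseg
        refine (convex_segment _ _).segment_subset ?_ (right_mem_segment ℝ _ _)
        rw [hs]; exact pt_mem_segment s0 s1.le
      exact S.svis_of_no_vertex hsegc hx hv
  have hs'0 : 0 ≤ s' := s0.trans hss'
  -- directions
  rw [mem_openSegment_iff] at hvX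
  obtain ⟨κ, κ0, κ1, hκ⟩ := hvX
  have h1s : 0 < 1 - s := by linarith
  have h1κ : 0 < 1 - κ := by linarith
  have hxX : x - X = ((1 - s) / (1 - κ)) • w := by
    have e1 : (1 - κ) • (x - X) = (1 - s) • w := by
      have q1 : x - S.v c' = (1 - κ) • (x - X) := by
        rw [hκ]; unfold pt; simp only [Complex.real_smul]; push_cast; ring
      have q2 : x - S.v c' = (1 - s) • w := by
        rw [hs, hw]; unfold pt; simp only [Complex.real_smul]; push_cast; ring
      rw [← q1, q2]
    have e2 : x - X = (1 / (1 - κ)) • ((1 - κ) • (x - X)) := by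
      rw [smul_smul, one_div_mul_cancel h1κ.ne', one_smul]
    rw [e2, e1, smul_smul]; congr 1; ring
  set μ := (1 - s) / (1 - κ) with hμ
  have hμ0 : 0 < μ := by positivity
  have hmX : S.v m ∈ openSegment ℝ X x := by
    rw [mem_openSegment_iff]
    have h1s' : 0 < 1 - s' := by linarith
    refine ⟨1 - (1 - s') / μ, ?_, ?_, ?_⟩
    · have : (1 - s') / μ < 1 := by
        rw [div_lt_one hμ0, hμ, lt_div_iff₀ h1κ]
        nlinarith
      linarith
    · have : 0 < (1 - s') / μ := by positivity
      linarith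
    · have q1 : X = x - μ • w := by rw [← hxX]; ring
      rw [hs', q1]
      have q2 : a = x - w := by rw [hw]; ring
      rw [q2]; unfold pt
      have q3 : x - (x - μ • w) = μ • w := by ring
      have q4 : x - (x - w) = w := by ring
      rw [q3, q4, smul_smul]
      have q5 : (1 - (1 - s') / μ) * μ = μ - (1 - s') := by field_simp
      rw [q5]; simp only [Complex.real_smul]; push_cast; ring
  have hne : cr (x - X) d ≠ 0 := by
    rw [hxX, cr_smul_left]
    exact mul_ne_zero hμ0.ne' hwd
  obtain ⟨b, hext', hhalf', hside'⟩ := S.shadow hc0 hlam hD hmX hXx hXy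
    (hxy.trans interior_subset) hne hvis
  rw [hxX] at hext' hhalf' hside'
  have hext : ExtAt S.region (S.v m) w (sg b) := by
    have := hext'.smul (c := 1 / μ) (by positivity)
    rwa [smul_smul, one_div_mul_cancel hμ0.ne', one_smul] at this
  have hhalf : HalfD S.region (S.v m) w (sg b) := by
    have := hhalf'.smul (c := 1 / μ) (by positivity)
    rwa [smul_smul, one_div_mul_cancel hμ0.ne', one_smul] at this
  have hside : 0 < sg b * cr w (D - x) := by
    rw [cr_smul_left] at hside'
    have : sg b * (μ * cr w (D - x)) = μ * (sg b * cr w (D - x)) := by ring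
    rw [this] at hside'
    exact (mul_pos_iff_of_pos_left hμ0).1 hside'
  -- vertices before the last one
  set K : Finset (ZMod n) := by
    classical
    exact Finset.univ.filter (fun j => ∃ σ : ℝ, 0 ≤ σ ∧ σ < s' ∧ S.v j = pt a x σ) with hK
  have hKmem : ∀ j, j ∈ K ↔ ∃ σ : ℝ, 0 ≤ σ ∧ σ < s' ∧ S.v j = pt a x σ := by
    intro j; rw [hK]; simp
  rcases K.eq_empty_or_nonempty with hKe | hKne
  swap
  · -- a vertex before the last one
    have hex : ∀ j ∈ K, ∃ σ : ℝ, 0 ≤ σ ∧ σ < s' ∧ S.v j = pt a x σ := fun j hj => (hKmem j).1 hj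
    choose! φ hφ0 hφ1 hφ2 using hex
    obtain ⟨j, hjK, hjmax⟩ := Finset.exists_max_image K φ hKne
    set σ := φ j with hσ
    have σ0 := hφ0 j hjK
    have σ1 := hφ1 j hjK
    have hσj := hφ2 j hjK
    have hdif : 0 < s' - σ := by linarith
    refine ⟨S.v j, m, b, S.cut_fin (ν := s' - σ) (τ := (1 - σ) / (s' - σ)) hdif hwne ?_ ?_ ?_
      hvis ?_ hext hhalf hside (Or.inr (Or.inl ⟨j, rfl, ?_, ?_, ?_⟩))⟩
    · rw [hs', hσj, pt_sub_pt]
    · rw [lt_div_iff₀ hdif]; linarith
    · rw [hs', hσj, pt_pt_pt, div_mul_cancel₀ _ hdif.ne']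
      have : σ + (1 - σ) = 1 := by ring
      rw [this, pt_one]
    · have := pt_seg_sub hseg (t := σ) (t' := 1) σ0 (by linarith) zero_le_one le_rfl
      rwa [pt_one, ← hσj] at this
    · rintro rfl
      have := pt_inj hax (hσj.symm.trans hs')
      linarith
    · have := pt_seg_sub hseg (t := σ) (t' := s') σ0 (by linarith) hs'0 s'1.le
      rwa [← hσj, ← hs'] at this
    · intro c'' hc''
      rw [mem_openSegment_iff] at hc''
      obtain ⟨r', r0', r1', hr'⟩ := hc''
      rw [hs', hσj, pt_pt_pt] at hr'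
      have h5 : σ + r' * (s' - σ) < s' := by nlinarith
      have h6 : σ < σ + r' * (s' - σ) := by
        have := mul_pos r0' hdif
        linarith
      have hmem : c'' ∈ K := (hKmem c'').2 ⟨_, by linarith, h5, hr'⟩
      have h7 := hjmax c'' hmem
      have h8 := pt_inj hax ((hφ2 c'' hmem).symm.trans hr')
      linarith
  -- the blocking vertex is the last one
  have hsame : s = s' := by
    rcases hss'.eq_or_lt with h | h
    · exact h
    · exfalso
      have : c' ∈ K := (hKmem c').2 ⟨s, s0, h, hs⟩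
      rw [hKe] at this
      exact absurd this (Finset.notMem_empty _)
  rcases hs'0.eq_or_lt with hs'e | hs'pos
  · -- the limit source is the vertex itself
    have hma : S.v m = a := by rw [hs', ← hs'e, pt_zero]
    have hca : S.v c' = a := by rw [hs, hsame, ← hs'e, pt_zero]
    have ht : t = 0 ∨ t = 1 := by
      rcases ht0.eq_or_lt with h | h
      · left; exact h.symm
      rcases ht1.eq_or_lt with h' | h'
      · right; exact h'
      exfalso
      apply S.v_not_oedge m e
      rw [hma, ha]
      exact S.ep_mem h h'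
    rw [hca, mem_openSegment_iff] at hvq
    obtain ⟨r1, r10, r11, hr1⟩ := hvq
    have hz1q : z1 - q = (1 / r1) • (a - q) := by
      rw [hr1, pt_sub_left, smul_smul, one_div_mul_cancel r10.ne', one_smul]
    have hz1line : S.onLine e z1 := by
      change cr (S.dir e) (z1 - S.v e) = 0
      rw [← hcre z1 t', ← hq, hz1q, cr_smul_right, ha, hq, S.ep_sub, cr_smul_right, cr_self]
      ring
    have hxline : S.onLine e x := hl1 z1
      ((hzd z1 hz1).trans_le ((min_le_right _ _).trans (min_le_left _ _))) hz1line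
    obtain ⟨u, hu⟩ : ∃ u : ℝ, x = S.ep e u := by
      obtain ⟨c2, hc2'⟩ := parallel_of_cr (S.dir_ne e) hxline
      refine ⟨c2, ?_⟩
      have h4 := S.ep_sub_v e c2
      rw [← hc2'] at h4
      linear_combination -h4
    have hwu : w = (u - t) • S.dir e := by rw [hw, hu, ha, S.ep_sub]
    have hz1x : z1 = x := by
      rw [mem_segment_iff] at hz1
      obtain ⟨r2, r20, r21, hr2⟩ := hz1
      have e1 : z1 - x = (r2 * c) • d := by
        rw [hr2, pt_sub_left, add_sub_cancel_left, smul_smul]
      have e2 : cr (S.dir e) (z1 - x) = 0 := by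
        have : z1 - x = (z1 - S.v e) - (x - S.v e) := by ring
        rw [this, cr_sub_right]
        unfold SimplePolygon.onLine at hz1line hxline
        rw [hz1line, hxline, sub_zero]
      rw [e1, cr_smul_right] at e2
      rcases mul_eq_zero.1 e2 with h | h
      · rw [h, zero_smul] at e1
        exact sub_eq_zero.1 e1
      · exfalso
        apply hwd
        rw [hwu, cr_smul_left, h, mul_zero]
    rw [hz1x, hu, ha, hq, S.pt_ep] at hr1
    have hr1' := S.ep_inj hr1
    have hcase : (u < 0 ∧ m = e) ∨ (1 < u ∧ m = e + 1) := by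
      rcases ht with h | h
      · left
        constructor
        · rw [h] at hr1'
          by_contra hcon
          push Not at hcon
          have := mul_nonneg r10.le hcon
          have := mul_pos (show 0 < 1 - r1 by linarith) g0
          nlinarith
        · apply S.v_inj
          rw [hma, ha, h]; simp [SimplePolygon.ep]
      · right
        constructor
        · rw [h] at hr1'
          by_contra hcon
          push Not at hcon
          have := mul_nonneg r10.le (show 0 ≤ 1 - u by linarith)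
          have := mul_pos (show 0 < 1 - r1 by linarith) (show 0 < 1 - t' by linarith)
          nlinarith
        · apply S.v_inj
          rw [hma, ha, h]; simp [SimplePolygon.ep]
    rw [hw] at hext hhalf hside
    rw [hu] at hext hhalf hside hvis hseg ⊢
    obtain ⟨A, hA⟩ := S.cut_edge (p := p) (k := k) (D := D) ht0 ht1 hseg hcase hvis hext hhalf
      hside
    exact ⟨A, m, b, hA⟩
  -- now the limit source is inside the edge
  have gt0 : 0 < t := by
    rcases ht0.eq_or_lt with h | h
    · exfalso
      have : e ∈ K := (hKmem e).2 ⟨0, le_rfl, hs'pos, by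
        rw [pt_zero, ha, ← h]; simp [SimplePolygon.ep]⟩
      rw [hKe] at this
      exact absurd this (Finset.notMem_empty _)
    · exact h
  have gt1 : t < 1 := by
    rcases ht1.eq_or_lt with h | h
    · exfalso
      have : e + 1 ∈ K := (hKmem (e + 1)).2 ⟨0, le_rfl, hs'pos, by
        rw [pt_zero, ha, h]; simp [SimplePolygon.ep]⟩
      rw [hKe] at this
      exact absurd this (Finset.notMem_empty _)
    · exact h
  have haE : a ∈ S.oedge e := S.ep_mem gt0 gt1
  have hvma : S.v m - a = s' • w := by rw [hs', pt_sub_left]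
  by_cases hol : S.onLine e (S.v m)
  · -- along the line of the edge
    obtain ⟨u, hu⟩ : ∃ u : ℝ, x = S.ep e u := by
      have h2 : cr (S.dir e) (x - S.v e) = 0 := by
        rw [← hcre x t, ← ha]
        have h3 : x - a = (1 / s') • (S.v m - a) := by
          rw [hvma, smul_smul, one_div_mul_cancel hs'pos.ne', one_smul]
        rw [h3, cr_smul_right, ha, hcre]
        unfold SimplePolygon.onLine at hol
        rw [hol, mul_zero]
      obtain ⟨c2, hc2'⟩ := parallel_of_cr (S.dir_ne e) h2
      refine ⟨c2, ?_⟩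
      have h4 := S.ep_sub_v e c2
      rw [← hc2'] at h4
      linear_combination -h4
    have hend : ∀ (j : ZMod n) (σ : ℝ), 0 < σ → σ < 1 → S.v j = pt a x σ → m = j := by
      intro j σ h0 h1 hj
      apply S.v_inj
      rw [hs', hj]
      congr 1
      rcases lt_trichotomy s' σ with h | h | h
      · exfalso
        apply frontier_not_int (S.v_frontier j)
        apply hvis
        rw [mem_openSegment_iff]
        refine ⟨(σ - s') / (1 - s'), div_pos (by linarith) (by linarith),
          by rw [div_lt_one (by linarith)]; linarith, ?_⟩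
        rw [hs', hj]
        have := pt_pt_pt a x s' 1 ((σ - s') / (1 - s'))
        rw [pt_one] at this
        rw [this, div_mul_cancel₀ _ (by linarith : (1 - s') ≠ 0)]
        congr 1; ring
      · exact h
      · exfalso
        have : j ∈ K := (hKmem j).2 ⟨σ, h0.le, h, hj⟩
        rw [hKe] at this
        exact absurd this (Finset.notMem_empty _)
    have hcase : (u < 0 ∧ m = e) ∨ (1 < u ∧ m = e + 1) := by
      rcases hline u hu with h | h
      · left
        refine ⟨h, hend e (t / (t - u)) (div_pos gt0 (by linarith))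
          (by rw [div_lt_one (by linarith)]; linarith) ?_⟩
        rw [ha, hu, S.pt_ep]
        have h5 : t + t / (t - u) * (u - t) = 0 := by
          have : t - u ≠ 0 := by linarith
          field_simp; ring
        rw [h5]; simp [SimplePolygon.ep]
      · right
        refine ⟨h, hend (e + 1) ((1 - t) / (u - t)) (div_pos (by linarith) (by linarith))
          (by rw [div_lt_one (by linarith)]; linarith) ?_⟩
        rw [ha, hu, S.pt_ep, div_mul_cancel₀ _ (by linarith : u - t ≠ 0)]
        have h5 : t + (1 - t) = 1 := by ring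
        rw [h5]; simp [SimplePolygon.ep]
    rw [hw] at hext hhalf hside
    rw [hu] at hext hhalf hside hvis hseg ⊢
    obtain ⟨A, hA⟩ := S.cut_edge (p := p) (k := k) (D := D) ht0 ht1 hseg hcase hvis hext hhalf
      hside
    exact ⟨A, m, b, hA⟩
  -- a simple window
  have ham : a ≠ S.v m := by
    intro h
    rw [h, sub_self] at hvma
    rcases smul_eq_zero.1 hvma.symm with h' | h'
    · linarith
    · exact hwne h'
  have hseg1 : segment ℝ a (S.v m) ⊆ S.region := by
    refine subset_trans ?_ hseg
    refine (convex_segment _ _).segment_subset (left_mem_segment ℝ _ _) ?_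
    rw [hs']; exact pt_mem_segment hs'pos.le s'1.le
  have hnv : ∀ i, S.v i ∉ openSegment ℝ a (S.v m) := by
    intro i hi
    rw [mem_openSegment_iff] at hi
    obtain ⟨σ, σ0, σ1, hσ⟩ := hi
    rw [hs', pt_pt] at hσ
    have : i ∈ K := (hKmem i).2 ⟨σ * s', by positivity, by nlinarith, hσ⟩
    rw [hKe] at this
    exact absurd this (Finset.notMem_empty _)
  have hvis1 := S.svis_of_no_vertex' haE hseg1 hol hnv
  have hxa : w = (1 / s') • (S.v m - a) := by
    rw [hvma, smul_smul, one_div_mul_cancel hs'pos.ne', one_smul]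
  have hxm : x - S.v m = ((1 - s') / s') • (S.v m - a) := by
    rw [hvma, smul_smul, div_mul_cancel₀ _ hs'pos.ne', hs', hw]
    unfold pt; simp only [Complex.real_smul]; push_cast; ring
  have hrat : 0 < (1 - s') / s' := div_pos (by linarith) hs'pos
  have hsidex : 0 < S.side e * cr (S.dir e) (x - a) := by
    rw [ha, hcre]
    refine lt_of_le_of_ne hge ?_
    intro h0
    have h6 := (mul_eq_zero.1 h0.symm).resolve_left (by
      rcases S.side_pm e with h | h <;> rw [h] <;> norm_num)
    rw [← hcre x t, ← ha, ← hw, hxa, cr_smul_right, ha, hcre] at h6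
    rcases mul_eq_zero.1 h6 with h7 | h7
    · have : 0 < 1 / s' := by positivity
      linarith
    · exact hol h7
  have hext2 : ExtAt S.region (S.v m) (S.v m - a) (sg b) := by
    rw [hvma]; exact hext.smul hs'pos
  have hhalf2 : HalfD S.region (S.v m) (S.v m - a) (sg b) := by
    rw [hvma]; exact hhalf.smul hs'pos
  have hcrm : ∀ t', sg b * cr (S.v m - a) (S.ep e t' - a) = (t' - t) * S.lc (e, m, b) := by
    intro t'
    unfold SimplePolygon.lc
    rw [ha, S.ep_sub, cr_smul_right, S.cr_ep e (S.v m) 0 t]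
    ring
  obtain ⟨δ, hδ, hpast⟩ := S.past_vis gt0 gt1 hs'pos s'1 hs' hvis1 hvis hhalf2 hsidex
  set δ3 := min δ (min t (1 - t)) with hδ3
  have hδ30 : 0 < δ3 := lt_min hδ (lt_min gt0 (by linarith))
  have hdark : ∀ t', |t' - t| < δ3 → (t' - t) * S.lc (e, m, b) < 0 → S.ep e t' ∉ S.lev p k := by
    intro t' h2 h3 hl
    have h4 := h2.trans_le (min_le_right _ _)
    have h5 := abs_lt.1 (h4.trans_le (min_le_left _ _))
    have h6 := abs_lt.1 (h4.trans_le (min_le_right _ _))
    refine hno t' (by linarith [h5.1]) (by linarith [h6.2]) hl (hpast t'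
      (h2.trans_le (min_le_left _ _)) ?_)
    rw [← ha, hcrm]; exact h3
  have hlc : S.lc (e, m, b) ≠ 0 := by
    unfold SimplePolygon.lc
    apply mul_ne_zero (sg_ne b)
    intro h; apply hol
    unfold SimplePolygon.onLine
    rw [cr_swap, h, neg_zero]
  have hadark : S.ep e t ∉ S.lev p k := by
    intro hl
    have hev := S.lev_edge_open gt0 gt1 hl
    obtain ⟨δ4, hδ4, hb2⟩ := Metric.eventually_nhds_iff.1 hev
    set ε := min δ3 δ4 / 2 with hε
    have hε0 : 0 < ε := by positivity
    have hεlt : ε < min δ3 δ4 := half_lt_self (by positivity)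
    rcases lt_or_gt_of_ne hlc with h | h
    · refine hdark (t + ε) ?_ ?_ (hb2 ?_)
      · have : t + ε - t = ε := by ring
        rw [this, abs_of_pos hε0]
        exact hεlt.trans_le (min_le_left _ _)
      · have : t + ε - t = ε := by ring
        rw [this]; exact mul_neg_of_pos_of_neg hε0 h
      · rw [Real.dist_eq]
        have : t + ε - t = ε := by ring
        rw [this, abs_of_pos hε0]
        exact hεlt.trans_le (min_le_right _ _)
    · refine hdark (t - ε) ?_ ?_ (hb2 ?_)
      · have : t - ε - t = -ε := by ring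
        rw [this, abs_neg, abs_of_pos hε0]
        exact hεlt.trans_le (min_le_left _ _)
      · have : t - ε - t = -ε := by ring
        rw [this]; exact mul_neg_of_neg_of_pos (by linarith) h
      · rw [Real.dist_eq]
        have : t - ε - t = -ε := by ring
        rw [this, abs_neg, abs_of_pos hε0]
        exact hεlt.trans_le (min_le_right _ _)
  have hRel : S.Rel p k (e, m, b, t) := by
    refine ⟨gt0, gt1, hvis1, hol, hext2, hhalf2, ?_, ?_, ⟨δ3, hδ30, hdark⟩, ?_⟩
    · refine ⟨x, ⟨1 / s', ?_, ?_, hseg⟩, hxv m⟩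
      · rw [le_div_iff₀ hs'pos]; linarith
      · change x = pt a (S.v m) (1 / s')
        rw [hs', pt_pt, one_div_mul_cancel hs'pos.ne', pt_one]
    · apply S.backDark_of (sg_ne b) hvis hxR hd
      · rw [hxm]; exact hext2.smul hrat
      · rw [hxm]; exact hhalf2.smul hrat
    · intro δ' hδ'
      obtain ⟨c2, t2, -, -, h2, h3, h4, h5, -⟩ := hlim (min δ' δ3) (by positivity)
      refine ⟨t2, h2.trans_le (min_le_left _ _), ?_, h5⟩
      change 0 < (t2 - t) * S.lc (e, m, b)
      rcases lt_trichotomy ((t2 - t) * S.lc (e, m, b)) 0 with h | h | h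
      · exact absurd h5 (hdark t2 (h2.trans_le (min_le_right _ _)) h)
      · exfalso
        have h6 := (mul_eq_zero.1 h).resolve_right hlc
        apply hadark
        have : t2 = t := by linarith
        rw [← this]; exact h5
      · exact h
  refine ⟨a, m, b, S.cut_fin (ν := s') (τ := 1 / s') hs'pos hwne hvma ?_ ?_ hvis hseg hext hhalf
    hside (Or.inr (Or.inr ⟨(e, m, b, t), hRel, rfl, rfl⟩))⟩
  · rw [lt_div_iff₀ hs'pos]; linarith
  · rw [hs', pt_pt, one_div_mul_cancel hs'pos.ne', pt_one]

end Run7.h395
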