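import Pool.Agent.Run7.h395.LocC
import Pool.Agent.Run7.h395.LocE
import Pool.Agent.Run7.h395.Complexity

/-!
# Relevant windows that leave the pocket of a fixed window
-/

open Set Topology Filter Complex

noncomputable section

namespace Run7.h395

variable {n : ℕ} (S : SimplePolygon n)

lemma SimplePolygon.lev_succ (p : ℂ) (k : ℕ) : S.lev p k ⊆ S.lev p (k + 1) := by
  induction k with
  | zero => exact Set.empty_subset _
  | succ k ih =>
    rintro x ⟨hx, h | ⟨r, hr, h1, h2⟩⟩
    · exact ⟨hx, Or.inl h⟩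
    · exact ⟨hx, Or.inr ⟨r, ih hr, h1, h2⟩⟩

/-- points of the ray belong to the window segment -/
lemma SimplePolygon.ray_kap {A x : ℂ} {m : ZMod n} (hseg : segment ℝ A (S.v m) ⊆ S.region)
    (hx : x ∈ S.ray A m) : x ∈ kap S.region A (S.v m) ∧ x ≠ S.v m := by
  have hne := S.ray_ne hx
  obtain ⟨τ, hτ, hxe, hv⟩ := hx
  constructor
  · refine ⟨τ, hτ.le, hxe, ?_⟩
    intro z hz
    rw [mem_segment_iff] at hz
    obtain ⟨r, r0, r1, rfl⟩ := hz
    rw [hxe, pt_pt]
    rcases le_or_gt (r * τ) 1 with h | h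
    · exact hseg (pt_mem_segment (by positivity) h)
    · apply seg_of_svis S.reg.closed hv
      rw [mem_segment_iff]
      refine ⟨(r * τ - 1) / (τ - 1), div_nonneg (by linarith) (by linarith), ?_, ?_⟩
      · rw [div_le_one (by linarith)]; nlinarith
      · have := pt_pt_pt A (S.v m) 1 τ ((r * τ - 1) / (τ - 1))
        rw [pt_one, ← hxe, div_mul_cancel₀ _ (by linarith : τ - 1 ≠ 0)] at this
        rw [this]; congr 1; ring
  · intro h
    rw [hxe] at h
    have h2 : pt A (S.v m) τ = pt A (S.v m) 1 := by rw [h, pt_one]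
    have := pt_inj hne h2
    linarith

/-- a window with its obstacle side -/
structure SimplePolygon.Base (A : ℂ) (m : ZMod n) (b : Bool) : Prop where
  ne : A ≠ S.v m
  seg : segment ℝ A (S.v m) ⊆ S.region
  ext : ExtAt S.region (S.v m) (S.v m - A) (sg b)

/-- the relevant window `i` crosses the window from `A` through `m` at `x`, coming from its
pocket -/
structure SimplePolygon.Crs (p A : ℂ) (m : ZMod n) (b : Bool) (i : Item n) (x : ℂ) : Prop where
  rel : S.Rel p 2 i
  xr : x ∈ S.ray A m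
  xi : x ∈ interior S.region
  xw : x ∈ S.ray (S.ep i.1 (tt i)) i.2.1
  side : 0 < sg b * cr (S.v m - A) (S.ep i.1 (tt i) - A)

variable {S} in
lemma SimplePolygon.Base.inz {A : ℂ} {m : ZMod n} {b : Bool} (hB : S.Base A m b) {x z : ℂ}
    (hx : x ∈ S.ray A m) (hz : 0 < sg b * cr (S.v m - A) (z - A))
    (hzx : segment ℝ z x ⊆ S.region) : S.In A m z :=
  bsl S.reg hB.ne (S.ray_kap hB.seg hx).1 (S.ray_kap hB.seg hx).2 hB.ext hz hzx

lemma cr_line {A B x : ℂ} {τ : ℝ} (h : x = pt A B τ) : cr (B - A) (x - A) = 0 := by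
  rw [h, pt_sub_left, cr_smul_right, cr_self, mul_zero]

section crs

variable {S} {p A : ℂ} {m : ZMod n} {b : Bool} {i : Item n} {x : ℂ}

lemma SimplePolygon.Crs.segT (h : S.Crs p A m b i x) :
    segment ℝ (S.ep i.1 (tt i)) (S.v i.2.1) ⊆ S.region :=
  seg_of_svis S.reg.closed h.rel.vis

lemma SimplePolygon.Crs.segx (h : S.Crs p A m b i x) :
    segment ℝ (S.ep i.1 (tt i)) x ⊆ S.region :=
  seg_of_kap (S.ray_kap h.segT h.xw).1

lemma SimplePolygon.Crs.inz (h : S.Crs p A m b i x) (hB : S.Base A m b) :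
    S.In A m (S.ep i.1 (tt i)) := hB.inz h.xr h.side h.segx

/-- the vertex of a crossing window is off the line of the base window -/
lemma SimplePolygon.Crs.offT (h : S.Crs p A m b i x) :
    ∃ r : ℝ, 0 < r ∧ r < 1 ∧ S.v i.2.1 = pt (S.ep i.1 (tt i)) x r ∧
      cr (S.v m - A) (S.v i.2.1 - A) =
        (1 - r) * cr (S.v m - A) (S.ep i.1 (tt i) - A) := by
  obtain ⟨τ, hτ, hxe, -⟩ := h.xw
  have hτ0 : 0 < τ := by linarith
  refine ⟨1 / τ, by positivity, by rw [div_lt_one hτ0]; exact hτ, ?_, ?_⟩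
  · rw [hxe, pt_pt, one_div_mul_cancel hτ0.ne', pt_one]
  · have e1 : S.v i.2.1 = pt (S.ep i.1 (tt i)) x (1 / τ) := by
      rw [hxe, pt_pt, one_div_mul_cancel hτ0.ne', pt_one]
    obtain ⟨τ', -, hx', -⟩ := h.xr
    have h0 := cr_line hx'
    have e2 : S.v i.2.1 - A = (1 - 1 / τ) • (S.ep i.1 (tt i) - A) + (1 / τ) • (x - A) := by
      rw [e1]; unfold pt; simp only [Complex.real_smul]; push_cast; ring
    rw [e2, cr_add_right, cr_smul_right, cr_smul_right, h0]
    ring

lemma SimplePolygon.Crs.neT (h : S.Crs p A m b i x) :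
    cr (S.v m - A) (S.v i.2.1 - A) ≠ 0 := by
  obtain ⟨r, r0, r1, -, h2⟩ := h.offT
  rw [h2]
  apply mul_ne_zero (by linarith)
  intro h3
  have := h.side
  rw [h3, mul_zero] at this
  exact lt_irrefl _ this

lemma SimplePolygon.Crs.win (h : S.Crs p A m b i x) {D : ℂ} (hD : D ∈ S.ray A m)
    (hDi : D ∈ interior S.region)
    (hobs : 0 < sg i.2.2.1 * cr (S.v i.2.1 - S.ep i.1 (tt i)) (D - x)) :
    Win S.region D (S.ep i.1 (tt i)) (S.v i.2.1) (sg i.2.2.1) := by
  apply SimplePolygon.Rel.winD S h.rel (interior_subset hDi)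
  have hk := S.ray_kap h.segT h.xw
  have hne : S.ep i.1 (tt i) ≠ S.v i.2.1 := S.ray_ne h.xw
  apply bsl S.reg hne hk.1 hk.2 h.rel.ext
  · obtain ⟨τ, -, hxe, -⟩ := h.xw
    have h0 := cr_line hxe
    have e1 : D - S.ep i.1 (tt i) = (D - x) + (x - S.ep i.1 (tt i)) := by ring
    rw [e1, cr_add_right, h0, add_zero]
    exact hobs
  · have h1 : segment ℝ D x ⊆ S.ray A m := (S.ray_convex A m).segment_subset hD h.xr
    intro z hz
    have hz' := h1 hz
    obtain ⟨τ, hτ, -, hv⟩ := hz'
    exact seg_of_svis S.reg.closed hv (right_mem_segment ℝ _ _)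

/-- points near the origin of a crossing window are in the pocket -/
lemma SimplePolygon.Crs.near_in (h : S.Crs p A m b i x) (hB : S.Base A m b) :
    ∃ δ > 0, ∀ t', |t' - tt i| < δ → 0 < t' → t' < 1 → S.In A m (S.ep i.1 t') := by
  have hcl : IsClosed (kap S.region A (S.v m)) :=
    (kap_compact S.reg hB.ne hB.seg).isClosed
  have hz : S.ep i.1 (tt i) ∉ kap S.region A (S.v m) := by
    intro hk
    have := kap_cr hk
    have h2 := h.side
    rw [this, mul_zero] at h2
    exact lt_irrefl _ h2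
  have hev : ∀ᶠ t' in 𝓝 (tt i), S.ep i.1 t' ∉ kap S.region A (S.v m) :=
    (S.continuous_ep i.1).continuousAt.eventually_mem (hcl.isOpen_compl.mem_nhds hz)
  obtain ⟨δ, hδ, hb⟩ := Metric.eventually_nhds_iff.1 hev
  refine ⟨δ, hδ, ?_⟩
  intro t' ht' h0 h1
  refine (h.inz hB).step (S.ep_seg' h.rel.t0.le h.rel.t1.le h0.le h1.le) ?_
  intro w hw
  rw [mem_segment_iff] at hw
  obtain ⟨r, r0, r1, rfl⟩ := hw
  rw [S.pt_ep]
  apply hb
  rw [Real.dist_eq, add_sub_cancel_left, abs_mul, abs_of_nonneg r0]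
  have := abs_nonneg (t' - tt i)
  nlinarith

end crs

/-- the window is lit from outside the pocket, arbitrarily close to its origin -/
def SimplePolygon.Exit (p A : ℂ) (m : ZMod n) (i : Item n) : Prop :=
  ∀ δ > 0, ∃ t' : ℝ, ∃ ρ : ℂ, |t' - tt i| < δ ∧ 0 < (t' - tt i) * S.lc (lab i) ∧ 0 < t' ∧
    t' < 1 ∧ S.ep i.1 t' ∈ S.lev p 2 ∧ ρ ∈ S.lev p 1 ∧ ρ ∈ S.openEdges ∧
    svis S.region ρ (S.ep i.1 t') ∧ ¬ S.In A m ρ

/-- crossing windows that are not lit from outside the pocket -/
theorem SimplePolygon.nonexit_count {p A D : ℂ} {m : ZMod n} {b : Bool} (hB : S.Base A m b)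
    (hD : D ∈ S.ray A m) (hDi : D ∈ interior S.region) (F : Finset (Item n))
    (hF : ∀ i ∈ F, ∃ x, S.Crs p A m b i x ∧
      0 < sg i.2.2.1 * cr (S.v i.2.1 - S.ep i.1 (tt i)) (D - x))
    (hne : ∀ i ∈ F, ¬ S.Exit p A m i) : F.card ≤ 20 * S.nIn A m + 4 := by
  classical
  choose! x hx hobs using hF
  have hnear := fun i (hi : i ∈ F) => (hx i hi).near_in hB
  choose! δ1 hδ1 hin using hnear
  unfold SimplePolygon.Exit at hne
  push Not at hne
  choose! δ2 hδ2 hno using hne
  obtain ⟨f, hf, hinj, hdat⟩ := S.rel_datum (p := p) (k := 2) (D := D) F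
    (fun i hi => (hx i hi).rel) (fun i hi => (hx i hi).win hD hDi (hobs i hi))
    (fun i => min (δ1 i) (δ2 i)) (fun i hi => lt_min (hδ1 i hi) (hδ2 i hi))
  rw [← Finset.card_image_of_injOn hinj]
  apply S.loc_count hB.ne hB.seg (S.ray_kap hB.seg hD).1 hDi _ hdat
  · intro j hj
    obtain ⟨i, hi, rfl⟩ := Finset.mem_image.1 hj
    have h1 := hdat.1 _ hj
    exact hin i hi (f i) ((hf i hi).1.trans_le (min_le_left _ _)) h1.1 h1.2.1
  · intro j hj
    obtain ⟨i, hi, rfl⟩ := Finset.mem_image.1 hj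
    exact (hx i hi).neT
  · intro j hj ρ hρ1 hρ2 hρ3
    have h1 := hdat.1 _ hj
    obtain ⟨i, hi, rfl⟩ := Finset.mem_image.1 hj
    exact hno i hi (f i) ρ ((hf i hi).1.trans_le (min_le_right _ _)) (hf i hi).2 h1.1 h1.2.1
      h1.2.2.1 hρ1 hρ2 hρ3

/-- the data of an exit close to the window -/
structure SimplePolygon.ExitData (p A D : ℂ) (m : ZMod n) (i : Item n) (τx σ ε : ℝ)
    (t' τ' τc : ℝ) (ρ : ℂ) : Prop where
  near : |t' - tt i| < ε
  t0 : 0 < t'
  t1 : t' < 1
  lcs : 0 < (t' - tt i) * S.lc (lab i)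
  lit : S.ep i.1 t' ∈ S.lev p 2
  win : Win S.region D (S.ep i.1 t') (S.v i.2.1) (sg i.2.2.1)
  rlit : ρ ∈ S.lev p 1
  redge : ρ ∈ S.openEdges
  rvis : svis S.region ρ (S.ep i.1 t')
  nearx : |τ' - τx| < ε
  mT : S.v i.2.1 ∈ openSegment ℝ (S.ep i.1 t') (pt A (S.v m) τ')
  seg : segment ℝ (S.ep i.1 t') (pt A (S.v m) τ') ⊆ S.region
  xr : pt A (S.v m) τ' ∈ S.ray A m
  ck : pt A (S.v m) τc ∈ kap S.region A (S.v m)
  cm : pt A (S.v m) τc ∈ openSegment ℝ ρ (S.ep i.1 t')
  ord : 0 < σ * (τc - τ')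
  zside : S.In A m (S.ep i.1 t')
  zoff : cr (S.v m - A) (S.ep i.1 t' - A) ≠ 0

theorem SimplePolygon.exit_data {p A D x : ℂ} {m : ZMod n} {b : Bool} {i : Item n}
    {τx τD σ ε : ℝ} (hB : S.Base A m b) (hx : S.Crs p A m b i x) (hD : D ∈ S.ray A m)
    (hDi : D ∈ interior S.region)
    (hobs : 0 < sg i.2.2.1 * cr (S.v i.2.1 - S.ep i.1 (tt i)) (D - x))
    (hτx : x = pt A (S.v m) τx) (hτD : D = pt A (S.v m) τD) (hσ : 0 < σ * (τx - τD))
    (hex : S.Exit p A m i) (hε : 0 < ε) :
    ∃ t' τ' τc ρ, S.ExitData p A D m i τx σ ε t' τ' τc ρ := by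
  set N := S.v m - A with hN
  set T := S.v i.2.1 with hT
  set z := S.ep i.1 (tt i) with hz
  have hrel := hx.rel
  obtain ⟨r, r0, r1, hTr, hcrT⟩ := hx.offT
  rw [← hN, ← hT, ← hz] at hcrT
  have hτx1 : 1 < τx := by
    obtain ⟨τ1, h1, h2, -⟩ := hx.xr
    have := pt_inj hB.ne (hτx.symm.trans h2)
    rw [this]; exact h1
  have hzoff : cr N (z - A) ≠ 0 := by
    intro h
    have := hx.side
    rw [← hN, ← hz, h, mul_zero] at this
    exact lt_irrefl _ this
  have hcrTz : cr N (T - z) = -r * cr N (z - A) := by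
    have : T - z = (T - A) - (z - A) := by ring
    rw [this, cr_sub_right, hcrT]; ring
  have hcrTz0 : cr N (T - z) ≠ 0 := by
    rw [hcrTz]; exact mul_ne_zero (by linarith) hzoff
  -- the functions
  set den : ℝ → ℝ := fun t' => cr N (T - S.ep i.1 t') with hden
  set be : ℝ → ℝ := fun t' => cr N (T - A) / den t' with hbe
  set τf : ℝ → ℝ := fun t' => cr (T - A) (T - S.ep i.1 t') / den t' with hτf
  have hcont1 : Continuous fun t' : ℝ => T - S.ep i.1 t' :=
    continuous_const.sub (S.continuous_ep i.1)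
  have hdenc : Continuous den := continuous_cr continuous_const hcont1
  have hden0 : den (tt i) ≠ 0 := hcrTz0
  have hbec : ContinuousAt be (tt i) := continuousAt_const.div hdenc.continuousAt hden0
  have hτfc : ContinuousAt τf (tt i) :=
    (continuous_cr continuous_const hcont1).continuousAt.div hdenc.continuousAt hden0
  have hLf : ∀ t', den t' ≠ 0 → pt A (S.v m) (τf t') = T - be t' • (T - S.ep i.1 t') := by
    intro t' h
    have h1 := decomp (a := N) (b := T - S.ep i.1 t') h (T - A)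
    have h2 : pt A (S.v m) (τf t') = A + τf t' • N := rfl
    rw [h2]
    have h3 : T - A = τf t' • N + be t' • (T - S.ep i.1 t') := h1
    have h4 : T = A + (τf t' • N + be t' • (T - S.ep i.1 t')) := by rw [← h3]; ring
    linear_combination -h4
  -- the values at the limit
  have hbe0 : be (tt i) = -(1 - r) / r := by
    have : be (tt i) = cr N (T - A) / cr N (T - z) := rfl
    rw [this, hcrT, hcrTz]
    field_simp
  have hLx : pt A (S.v m) (τf (tt i)) = x := by
    rw [hLf _ hden0, hbe0, ← hz]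
    have e1 : T - z = r • (x - z) := by rw [hT, hTr, pt_sub_left]
    rw [e1, smul_smul, hT, hTr]
    have : -(1 - r) / r * r = -(1 - r) := by field_simp
    rw [this]
    unfold pt; simp only [Complex.real_smul]; push_cast; ring
  have hτf0 : τf (tt i) = τx := pt_inj hB.ne (hLx.trans hτx)
  have hLc : ContinuousAt (fun t' => pt A (S.v m) (τf t')) (tt i) :=
    (continuous_pt A (S.v m)).continuousAt.comp hτfc
  -- eventual properties
  have ev1 : ∀ᶠ t' in 𝓝 (tt i), |τf t' - τx| < ε := by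
    have := hτfc.eventually_mem (Metric.ball_mem_nhds (τf (tt i)) hε)
    rw [hτf0] at this
    filter_upwards [this] with t' ht'
    rwa [Metric.mem_ball, Real.dist_eq] at ht'
  have ev2 : ∀ᶠ t' in 𝓝 (tt i), be t' < 0 := by
    apply hbec.eventually_lt continuousAt_const
    rw [hbe0]
    apply div_neg_of_neg_of_pos _ r0
    linarith
  have ev3 : ∀ᶠ t' in 𝓝 (tt i), den t' ≠ 0 := hdenc.continuousAt.eventually_ne hden0
  have ev4 : ∀ᶠ t' in 𝓝 (tt i), svis S.region T (pt A (S.v m) (τf t')) := by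
    have hTx : svis S.region T x := by
      obtain ⟨-, -, -, hv⟩ := hx.xw
      exact hv
    have := S.svis_int_open hx.xi hTx
    rw [← hLx] at this
    exact hLc.eventually this
  have ev5 : ∀ᶠ t' in 𝓝 (tt i), svis S.region (S.v m) (pt A (S.v m) (τf t')) := by
    have hmx : svis S.region (S.v m) x := by
      obtain ⟨-, -, -, hv⟩ := hx.xr
      exact hv
    have := S.svis_int_open hx.xi hmx
    rw [← hLx] at this
    exact hLc.eventually this
  have ev6 : ∀ᶠ t' in 𝓝 (tt i), 1 < τf t' := by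
    apply continuousAt_const.eventually_lt hτfc
    rw [hτf0]; exact hτx1
  have ev7 : ∀ᶠ t' in 𝓝 (tt i), svis S.region T (S.ep i.1 t') :=
    S.svis_edge_open hrel.t0 hrel.t1 (svis_symm hrel.vis)
  have ev8 : ∀ᶠ t' in 𝓝 (tt i), 0 < σ * (τf t' - τD) := by
    have hc : ContinuousAt (fun t' => σ * (τf t' - τD)) (tt i) :=
      continuousAt_const.mul (hτfc.sub continuousAt_const)
    apply continuousAt_const.eventually_lt hc
    rw [hτf0]; exact hσ
  have ev9 : ∀ᶠ t' in 𝓝 (tt i), 0 < sg i.2.2.1 * cr (T - S.ep i.1 t')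
      (D - pt A (S.v m) (τf t')) := by
    have hc : ContinuousAt (fun t' => sg i.2.2.1 * cr (T - S.ep i.1 t')
        (D - pt A (S.v m) (τf t'))) (tt i) := by
      have h1 : ContinuousAt (fun t' => T - S.ep i.1 t') (tt i) := hcont1.continuousAt
      have h2 : ContinuousAt (fun t' => D - pt A (S.v m) (τf t')) (tt i) :=
        continuousAt_const.sub hLc
      refine continuousAt_const.mul ?_
      unfold cr
      have h1r := Complex.continuous_re.continuousAt.comp h1
      have h1i := Complex.continuous_im.continuousAt.comp h1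
      have h2r := Complex.continuous_re.continuousAt.comp h2
      have h2i := Complex.continuous_im.continuousAt.comp h2
      exact (h1r.mul h2i).sub (h1i.mul h2r)
    apply continuousAt_const.eventually_lt hc
    rw [hLx]; exact hobs
  obtain ⟨δ1, hδ1, hin⟩ := hx.near_in hB
  have ev10 : ∀ᶠ t' in 𝓝 (tt i), cr N (S.ep i.1 t' - A) ≠ 0 := by
    have hc : Continuous fun t' => cr N (S.ep i.1 t' - A) :=
      continuous_cr continuous_const ((S.continuous_ep i.1).sub continuous_const)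
    exact hc.continuousAt.eventually_ne hzoff
  have evall := ev1.and (ev2.and (ev3.and (ev4.and (ev5.and (ev6.and (ev7.and (ev8.and
    (ev9.and ev10))))))))
  obtain ⟨δ2, hδ2, hall⟩ := Metric.eventually_nhds_iff.1 evall
  obtain ⟨t', ρ, g1, g2, g3, g4, g5, g6, g7, g8, g9⟩ := hex (min ε (min δ1 δ2))
    (by positivity)
  obtain ⟨k1, k2, k3, k4, k5, k6, k7, k8, k9, k10⟩ := hall (y := t') (by
    rw [Real.dist_eq]; exact g1.trans_le ((min_le_right _ _).trans (min_le_right _ _)))
  have hinζ := hin t' (g1.trans_le ((min_le_right _ _).trans (min_le_left _ _))) g3 g4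
  set ζ := S.ep i.1 t' with hζ
  set τ' := τf t' with hτ'
  have hwin : Win S.region D ζ T (sg i.2.2.1) :=
    S.win_slide hrel.t0.le hrel.t1.le g3.le g4.le (hx.win hD hDi hobs) g2 (svis_symm k7)
  set μ := -be t' with hμ
  have hμ0 : 0 < μ := by rw [hμ]; linarith
  have hLT : pt A (S.v m) τ' = pt ζ T (1 + μ) := by
    rw [hτ', hLf t' k3, hμ]
    unfold pt; simp only [Complex.real_smul]; push_cast; ring
  have hTmem : T ∈ openSegment ℝ ζ (pt A (S.v m) τ') := by
    rw [mem_openSegment_iff]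
    refine ⟨1 / (1 + μ), by positivity, by rw [div_lt_one (by linarith)]; linarith, ?_⟩
    rw [hLT, pt_pt, one_div_mul_cancel (by linarith : (1 : ℝ) + μ ≠ 0), pt_one]
  have hray : pt A (S.v m) τ' ∈ S.ray A m := ⟨τ', k6, rfl, k5⟩
  have hrayT : pt A (S.v m) τ' ∈ S.ray ζ i.2.1 := ⟨1 + μ, by linarith, hLT, k4⟩
  have hsegζ : segment ℝ ζ (pt A (S.v m) τ') ⊆ S.region :=
    seg_of_kap (S.ray_kap hwin.seg hrayT).1
  -- the crossing point of the light
  have hsegr : segment ℝ ζ ρ ⊆ S.region := by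
    rw [segment_symm]; exact seg_of_svis S.reg.closed g8
  obtain ⟨g, hg1, hg2⟩ := hinζ.cross g9 hsegr
  have hgm : g ∈ openSegment ℝ ρ ζ := by
    rw [openSegment_symm]
    rw [mem_segment_iff] at hg1
    obtain ⟨s, s0, s1, hs⟩ := hg1
    rcases s0.eq_or_lt with h | h
    · exfalso
      rw [← h, pt_zero] at hs
      apply k10
      rw [← hs]; exact kap_cr hg2
    rcases s1.eq_or_lt with h' | h'
    · exfalso
      rw [h', pt_one] at hs
      apply g9
      rw [← hs]; exact S.in_of_kap hg2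
    rw [hs]; exact pt_mem_openSegment h h'
  have hg2' := hg2
  obtain ⟨τc, hτc1, hτc, -⟩ := hg2'
  rw [hτc] at hg2 hgm
  refine ⟨t', τ', τc, ρ, g1.trans_le (min_le_left _ _), g3, g4, g2, g5, hwin, g6, g7, g8, k1,
    hTmem, hsegζ, hray, hg2, hgm, ?_, hinζ, k10⟩
  -- the order
  have hσ0 : σ ≠ 0 := by
    intro h; rw [h, zero_mul] at hσ; exact lt_irrefl _ hσ
  by_contra hcon
  push Not at hcon
  rcases hcon.eq_or_lt with h | h
  · have : τc = τ' := by
      have := (mul_eq_zero.1 h).resolve_left hσ0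
      linarith
    rw [this] at hgm
    apply frontier_not_int (S.v_frontier i.2.1)
    apply g8
    rw [openSegment_symm] at hgm ⊢
    rw [mem_openSegment_iff] at hgm hTmem ⊢
    obtain ⟨a1, a2, a3, a4⟩ := hgm
    obtain ⟨b1, b2, b3, b4⟩ := hTmem
    refine ⟨b1 * a1, by positivity, by nlinarith, ?_⟩
    rw [← hT, b4, a4, pt_pt]
  · have hmulpos : 0 < (τc - τ') * (τD - τ') := by
      have h1 : 0 < (σ * (τc - τ')) * -(σ * (τ' - τD)) := mul_pos_of_neg_of_neg h (by linarith)
      have h2 : (σ * (τc - τ')) * -(σ * (τ' - τD)) = σ ^ 2 * ((τc - τ') * (τD - τ')) := by ring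
      rw [h2] at h1
      exact (mul_pos_iff_of_pos_left (by positivity)).1 h1
    set O := ζ with hO
    set w := pt A (S.v m) τ' with hw
    set y := pt A (S.v m) τc with hy
    have hyw : y - w = (τc - τ') • N := by rw [hy, hw, pt_sub_pt]
    have hDw : D - w = (τD - τ') • N := by rw [hτD, hw, pt_sub_pt]
    have hwO : w - O = (1 + μ) • (T - ζ) := by rw [hLT, pt_sub_left]
    rw [hDw, cr_smul_right] at k9
    have hpos : 0 < sg i.2.2.1 * cr (w - O) (y - O) := by
      have e1 : y - O = (y - w) + (w - O) := by ring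
      rw [e1, cr_add_right, cr_self, add_zero, hyw, cr_smul_right, hwO, cr_smul_left]
      have hne : (τD - τ') ≠ 0 := by
        intro h0; rw [h0, mul_zero] at hmulpos; exact lt_irrefl _ hmulpos
      have e2 : sg i.2.2.1 * ((τc - τ') * ((1 + μ) * cr (T - ζ) N)) =
          (1 + μ) * ((τc - τ') * (τD - τ')) / (τD - τ') ^ 2 *
            (sg i.2.2.1 * ((τD - τ') * cr (T - ζ) N)) := by
        field_simp
      rw [e2]
      positivity
    have hwy : segment ℝ y w ⊆ S.region :=
      ((kap_convex S.reg hB.ne hB.seg).segment_subset hg2 (S.ray_kap hB.seg hray).1).trans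
        kap_sub
    have hOy : segment ℝ O y ⊆ S.region := by
      refine subset_trans ?_ hsegr
      refine (convex_segment _ _).segment_subset (left_mem_segment ℝ _ _) ?_
      rw [segment_symm]; exact openSegment_subset_segment _ _ _ hgm
    have hfr := tri_fr S.reg hpos hOy hwy hsegζ hTmem
    have hext : ExtAt S.region T (w - O) (sg i.2.2.1) := by
      rw [hwO]; exact hwin.ext.smul (by linarith)
    exact ext_not_fr hext hfr

section edata

variable {S} {p A D : ℂ} {m : ZMod n} {i : Item n} {τx σ ε t' τ' τc : ℝ} {ρ : ℂ}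

/-- the crossing point is lit one step earlier -/
lemma SimplePolygon.ExitData.clit (h : S.ExitData p A D m i τx σ ε t' τ' τc ρ) :
    pt A (S.v m) τc ∈ S.lev p 2 := by
  refine ⟨kap_sub h.ck, Or.inr ⟨ρ, h.rlit, h.redge, ?_⟩⟩
  intro z hz
  apply h.rvis
  have hcm := h.cm
  rw [mem_openSegment_iff] at hcm hz ⊢
  obtain ⟨a1, a2, a3, a4⟩ := hcm
  obtain ⟨b1, b2, b3, rfl⟩ := hz
  exact ⟨b1 * a1, by positivity, by nlinarith, by rw [a4, pt_pt]⟩

lemma SimplePolygon.ExitData.cint (h : S.ExitData p A D m i τx σ ε t' τ' τc ρ) :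
    pt A (S.v m) τc ∈ interior S.region := h.rvis h.cm

/-- the segment from the shadow end to the crossing point is lit -/
lemma SimplePolygon.ExitData.between (h : S.ExitData p A D m i τx σ ε t' τ' τc ρ)
    (hA : A ≠ S.v m) (hseg : segment ℝ A (S.v m) ⊆ S.region) {τ : ℝ} (h1 : 0 < σ * (τ - τ'))
    (h2 : 0 < σ * (τc - τ)) : svis S.region (S.ep i.1 t') (pt A (S.v m) τ) ∧
      pt A (S.v m) τ ∈ S.lev p 3 := by
  have hσ0 : σ ≠ 0 := by
    intro h0; rw [h0, zero_mul] at h1; exact lt_irrefl _ h1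
  have hcc : 0 < σ * (τc - τ') := h.ord
  have hne : τc - τ' ≠ 0 := by
    intro h0; rw [h0, mul_zero] at hcc; exact lt_irrefl _ hcc
  have hkk : segment ℝ (pt A (S.v m) τ') (pt A (S.v m) τc) ⊆ S.region :=
    ((kap_convex S.reg hA hseg).segment_subset (S.ray_kap hseg h.xr).1 h.ck).trans kap_sub
  have hv : svis S.region (S.ep i.1 t') (pt A (S.v m) τ) := by
    have e1 : pt A (S.v m) τ = pt (pt A (S.v m) τ') (pt A (S.v m) τc) ((τ - τ') / (τc - τ')) := by
      rw [pt_pt_pt, div_mul_cancel₀ _ hne]; congr 1; ring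
    rw [e1]
    apply svis_of_tri S.reg
    · intro h0
      apply h.zoff
      have e2 : ori (S.ep i.1 t') (pt A (S.v m) τ') (pt A (S.v m) τc) =
          (τc - τ') * cr (S.v m - A) (S.ep i.1 t' - A) := by
        unfold ori cr
        simp only [pt_re, pt_im, Complex.sub_re, Complex.sub_im]
        ring
      rw [e2] at h0
      rcases mul_eq_zero.1 h0 with h3 | h3
      · exact absurd h3 hne
      · exact h3
    · exact h.seg
    · exact hkk
    · refine subset_trans ?_ (seg_of_svis S.reg.closed (svis_symm h.rvis))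
      refine (convex_segment _ _).segment_subset (left_mem_segment ℝ _ _) ?_
      rw [segment_symm]; exact openSegment_subset_segment _ _ _ h.cm
    · rw [← mul_div_mul_left _ _ hσ0]; exact div_pos h1 hcc
    · rw [← mul_div_mul_left _ _ hσ0, div_lt_one hcc]
      have : σ * (τc - τ') = σ * (τc - τ) + σ * (τ - τ') := by ring
      rw [this]; linarith
  refine ⟨hv, ?_, Or.inr ⟨_, h.lit, ⟨i.1, S.ep_mem h.t0 h.t1⟩, hv⟩⟩
  exact seg_of_svis S.reg.closed hv (right_mem_segment ℝ _ _)

end edata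

end Run7.h395
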