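import Pool.Agent.Run7.h395.Lit

/-!
# Filling of quadrilaterals and the loop lemma
-/

open Set Topology Filter Complex

noncomputable section

namespace Run7.h395

/-- bounded open sets with frontier in `P` are inside `P` -/
theorem fillU {P U : Set ℂ} (h : Reg P) (hU : IsOpen U) (hb : Bornology.IsBounded U)
    (hf : frontier U ⊆ P) : U ⊆ interior P := by
  apply interior_maximal _ hU
  intro z hz
  by_contra hzP
  obtain ⟨R, hR⟩ := (h.bdd.union hb.closure).subset_closedBall (0 : ℂ)
  set w : ℂ := ((|R| + 1 : ℝ) : ℂ) with hw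
  have hwn : w ∉ P ∪ closure U := by
    intro hm
    have h1 := hR hm
    rw [mem_closedBall_zero_iff, hw, Complex.norm_real, Real.norm_eq_abs,
      abs_of_pos (by positivity)] at h1
    have := le_abs_self R
    linarith
  rw [Set.mem_union, not_or] at hwn
  obtain ⟨x, -, hx1, hx2⟩ := h.cpc U (closure U)ᶜ hU isClosed_closure.isOpen_compl
    (by
      intro x hx
      by_cases hxc : x ∈ closure U
      · left
        by_contra hxU
        apply hx
        apply hf
        rw [frontier, hU.interior_eq]
        exact ⟨hxc, hxU⟩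
      · right; exact hxc) ⟨z, hzP, hz⟩ ⟨w, hwn.1, hwn.2⟩
  exact hx2 (subset_closure hx1)

/-- the inner diagonal of a quadrilateral -/
theorem fill2 {P : Set ℂ} (h : Reg P) {O A B C : ℂ} (hA : 0 < cr (C - O) (A - O))
    (hB : cr (C - O) (B - O) < 0) (h1 : segment ℝ O A ⊆ P) (h2 : segment ℝ A C ⊆ P)
    (h3 : segment ℝ C B ⊆ P) (h4 : segment ℝ B O ⊆ P) : openSegment ℝ O C ⊆ interior P := by
  set dA := cr (C - O) (A - O) with hdA
  set dB := cr (C - O) (B - O) with hdB
  set bb : ℂ → ℝ := fun z => cr (C - O) (z - O) with hbb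
  set uA : ℂ → ℝ := fun z => cr (z - O) (A - O) / dA with huA
  set wA : ℂ → ℝ := fun z => cr (C - O) (z - O) / dA with hwA
  set uB : ℂ → ℝ := fun z => cr (z - O) (B - O) / dB with huB
  set wB : ℂ → ℝ := fun z => cr (C - O) (z - O) / dB with hwB
  have hCO : C - O ≠ 0 := by
    intro h0; rw [hdA, h0, cr_zero_left] at hA; exact lt_irrefl _ hA
  have cbb : Continuous bb := continuous_cr continuous_const (continuous_id.sub continuous_const)
  have cuA : Continuous uA :=
    (continuous_cr (continuous_id.sub continuous_const) continuous_const).div_const _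
  have cwA : Continuous wA := cbb.div_const _
  have cuB : Continuous uB :=
    (continuous_cr (continuous_id.sub continuous_const) continuous_const).div_const _
  have cwB : Continuous wB := cbb.div_const _
  have decA : ∀ z, z = O + uA z • (C - O) + wA z • (A - O) := by
    intro z
    have := decomp hA.ne' (z - O)
    rw [add_assoc, ← this]; ring
  have decB : ∀ z, z = O + uB z • (C - O) + wB z • (B - O) := by
    intro z
    have := decomp hB.ne (z - O)
    rw [add_assoc, ← this]; ring
  have hzero : ∀ z, bb z = 0 → ∃ κ : ℝ, z = O + κ • (C - O) ∧ uA z = κ ∧ wA z = 0 ∧ uB z = κ ∧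
      wB z = 0 := by
    intro z hz
    obtain ⟨κ, hκ⟩ := parallel_of_cr hCO hz
    refine ⟨κ, by rw [← hκ]; ring, ?_, ?_, ?_, ?_⟩
    · simp only [huA]; rw [hκ, cr_smul_left, ← hdA]; field_simp
    · simp only [hwA]; rw [hκ, cr_smul_right, cr_self]; simp
    · simp only [huB]; rw [hκ, cr_smul_left, ← hdB, mul_div_assoc, div_self hB.ne, mul_one]
    · simp only [hwB]; rw [hκ, cr_smul_right, cr_self]; simp
  set g : ℂ → ℝ := fun z => if 0 ≤ bb z then min (uA z) (1 - uA z - wA z) else
    min (uB z) (1 - uB z - wB z) with hg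
  have cg : Continuous g := by
    apply Continuous.if_le (cuA.min ((continuous_const.sub cuA).sub cwA))
      (cuB.min ((continuous_const.sub cuB).sub cwB)) continuous_const cbb
    intro z hz
    obtain ⟨κ, -, e1, e2, e3, e4⟩ := hzero z hz.symm
    change min (uA z) (1 - uA z - wA z) = min (uB z) (1 - uB z - wB z)
    rw [e1, e2, e3, e4]
  have hUo : IsOpen {z | 0 < g z} := isOpen_lt continuous_const cg
  have hwApos : ∀ z, 0 ≤ bb z → 0 ≤ wA z := fun z hz => div_nonneg hz hA.le
  have hwBpos : ∀ z, bb z ≤ 0 → 0 ≤ wB z := fun z hz => div_nonneg_of_nonpos hz hB.le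
  have hUb : Bornology.IsBounded {z | 0 < g z} := by
    apply (Metric.isBounded_closedBall (x := O)
      (r := ‖C - O‖ + ‖A - O‖ + ‖B - O‖)).subset
    intro z hz
    have hz' : 0 < g z := hz
    simp only [hg] at hz'
    rw [Metric.mem_closedBall, dist_eq_norm]
    have hnn := norm_nonneg (C - O)
    have hna := norm_nonneg (A - O)
    have hnb := norm_nonneg (B - O)
    by_cases hc : 0 ≤ bb z
    · rw [if_pos hc, lt_min_iff] at hz'
      have hw := hwApos z hc
      have e1 : z - O = uA z • (C - O) + wA z • (A - O) := by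
        have := decA z
        linear_combination this
      rw [e1]
      refine (norm_add_le _ _).trans ?_
      rw [norm_smul, norm_smul, Real.norm_eq_abs, Real.norm_eq_abs, abs_of_pos hz'.1,
        abs_of_nonneg hw]
      have k1 : uA z * ‖C - O‖ ≤ 1 * ‖C - O‖ :=
        mul_le_mul_of_nonneg_right (by linarith [hz'.2]) hnn
      have k2 : wA z * ‖A - O‖ ≤ 1 * ‖A - O‖ :=
        mul_le_mul_of_nonneg_right (by linarith [hz'.1, hz'.2]) hna
      linarith
    · rw [if_neg hc, lt_min_iff] at hz'
      push Not at hc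
      have hw := hwBpos z hc.le
      have e1 : z - O = uB z • (C - O) + wB z • (B - O) := by
        have := decB z
        linear_combination this
      rw [e1]
      refine (norm_add_le _ _).trans ?_
      rw [norm_smul, norm_smul, Real.norm_eq_abs, Real.norm_eq_abs, abs_of_pos hz'.1,
        abs_of_nonneg hw]
      have k1 : uB z * ‖C - O‖ ≤ 1 * ‖C - O‖ :=
        mul_le_mul_of_nonneg_right (by linarith [hz'.2]) hnn
      have k2 : wB z * ‖B - O‖ ≤ 1 * ‖B - O‖ :=
        mul_le_mul_of_nonneg_right (by linarith [hz'.1, hz'.2]) hnb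
      linarith
  have hUf : frontier {z | 0 < g z} ⊆ P := by
    intro z hz
    have hz0 : 0 = g z := frontier_lt_subset_eq continuous_const cg hz
    simp only [hg] at hz0
    by_cases hc : 0 ≤ bb z
    · rw [if_pos hc] at hz0
      have hw := hwApos z hc
      rcases min_choice (uA z) (1 - uA z - wA z) with hm | hm
      · rw [hm] at hz0
        have hle : uA z ≤ 1 - uA z - wA z := min_eq_left_iff.1 hm
        apply h1
        rw [mem_segment_iff]
        refine ⟨wA z, hw, by linarith, ?_⟩
        have := decA z
        rw [← hz0, zero_smul, add_zero] at this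
        exact this
      · rw [hm] at hz0
        have hle : 1 - uA z - wA z ≤ uA z := min_eq_right_iff.1 hm
        apply h2
        rw [mem_segment_iff]
        refine ⟨uA z, by linarith, by linarith, ?_⟩
        have e1 := decA z
        have e2 : wA z = 1 - uA z := by linarith
        rw [e2] at e1
        refine e1.trans ?_
        unfold pt; simp only [Complex.real_smul]; push_cast; ring
    · rw [if_neg hc] at hz0
      push Not at hc
      have hw := hwBpos z hc.le
      rcases min_choice (uB z) (1 - uB z - wB z) with hm | hm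
      · rw [hm] at hz0
        have hle : uB z ≤ 1 - uB z - wB z := min_eq_left_iff.1 hm
        apply h4
        rw [segment_symm, mem_segment_iff]
        refine ⟨wB z, hw, by linarith, ?_⟩
        have := decB z
        rw [← hz0, zero_smul, add_zero] at this
        exact this
      · rw [hm] at hz0
        have hle : 1 - uB z - wB z ≤ uB z := min_eq_right_iff.1 hm
        apply h3
        rw [segment_symm, mem_segment_iff]
        refine ⟨uB z, by linarith, by linarith, ?_⟩
        have e1 := decB z
        have e2 : wB z = 1 - uB z := by linarith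
        rw [e2] at e1
        refine e1.trans ?_
        unfold pt; simp only [Complex.real_smul]; push_cast; ring
  have hfin := fillU h hUo hUb hUf
  intro z hz
  apply hfin
  rw [mem_openSegment_iff] at hz
  obtain ⟨t, t0, t1, rfl⟩ := hz
  have hb0 : bb (pt O C t) = 0 := by
    simp only [hbb]; rw [pt_sub_left, cr_smul_right, cr_self, mul_zero]
  have hu : uA (pt O C t) = t := by
    simp only [huA]; rw [pt_sub_left, cr_smul_left, ← hdA, mul_div_assoc, div_self hA.ne', mul_one]
  have hw : wA (pt O C t) = 0 := by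
    have : wA (pt O C t) = bb (pt O C t) / dA := rfl
    rw [this, hb0, zero_div]
  change 0 < g (pt O C t)
  simp only [hg]
  rw [if_pos hb0.ge, hu, hw, lt_min_iff]
  constructor <;> linarith

/-- a corner of a filled triangle sees the inner points -/
lemma svis_tri_int {P : Set ℂ} (h : Reg P) {O A B w : ℂ} (hD : ori O A B ≠ 0)
    (hOA : segment ℝ O A ⊆ P) (hAB : segment ℝ A B ⊆ P) (hOB : segment ℝ O B ⊆ P) {α β : ℝ}
    (hα : 0 < α) (hβ : 0 < β) (hαβ : α + β < 1) (hw : w = O + α • (A - O) + β • (B - O)) :
    svis P O w := by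
  intro z hz
  rw [mem_openSegment_iff] at hz
  obtain ⟨t, t0, t1, rfl⟩ := hz
  have e1 : pt O w t = O + (t * α) • (A - O) + (t * β) • (B - O) := by
    rw [hw]; unfold pt; simp only [Complex.real_smul]; push_cast; ring
  rw [e1]
  exact fill_int h hD hOA hAB hOB (by positivity) (by positivity) (by nlinarith)

/-- visibility through an intermediate point -/
lemma svis_split {P : Set ℂ} {p g b : ℂ} (hg : g ∈ openSegment ℝ p b) (hgi : g ∈ interior P)
    (h1 : svis P p g) (h2 : svis P g b) : svis P p b := by
  intro z hz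
  rw [mem_openSegment_iff] at hg hz
  obtain ⟨r, r0, r1, rfl⟩ := hg
  obtain ⟨t, t0, t1, rfl⟩ := hz
  rcases lt_trichotomy t r with h | h | h
  · apply h1
    rw [mem_openSegment_iff]
    refine ⟨t / r, by positivity, by rw [div_lt_one r0]; exact h, ?_⟩
    unfold pt
    have e1 : p + r • (b - p) - p = r • (b - p) := by ring
    rw [e1, smul_smul, div_mul_cancel₀ _ r0.ne']
  · rw [h]; exact hgi
  · apply h2
    rw [mem_openSegment_iff]
    have h1r : 0 < 1 - r := by linarith
    refine ⟨(t - r) / (1 - r), div_pos (by linarith) h1r, by rw [div_lt_one h1r]; linarith, ?_⟩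
    unfold pt
    have e1 : b - (p + r • (b - p)) = (1 - r) • (b - p) := by
      simp only [Complex.real_smul]; push_cast; ring
    rw [e1, smul_smul, div_mul_cancel₀ _ h1r.ne']
    simp only [Complex.real_smul]; push_cast; ring

/-- coordinates -/
def EE (X q1 q2 : ℂ) (x y : ℝ) : ℂ := X + x • (q1 - X) + y • (q2 - X)

lemma pt_EE (X q1 q2 : ℂ) (x y x' y' t : ℝ) :
    pt (EE X q1 q2 x y) (EE X q1 q2 x' y') t =
      EE X q1 q2 (x + t * (x' - x)) (y + t * (y' - y)) := by
  unfold pt EE; simp only [Complex.real_smul]; push_cast; ring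

lemma pt_q1 (X q1 q2 : ℂ) (x y t : ℝ) :
    pt q1 (EE X q1 q2 x y) t = EE X q1 q2 (1 + t * (x - 1)) (t * y) := by
  unfold pt EE; simp only [Complex.real_smul]; push_cast; ring

lemma pt_to_q2 (X q1 q2 : ℂ) (x y t : ℝ) :
    pt (EE X q1 q2 x y) q2 t = EE X q1 q2 (x + t * (0 - x)) (y + t * (1 - y)) := by
  unfold pt EE; simp only [Complex.real_smul]; push_cast; ring

lemma EE_zero (X q1 q2 : ℂ) : EE X q1 q2 0 0 = X := by unfold EE; simp

lemma EE_one (X q1 q2 : ℂ) : EE X q1 q2 1 0 = q1 := by unfold EE; simp

lemma EE_two (X q1 q2 : ℂ) : EE X q1 q2 0 1 = q2 := by unfold EE; simp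

lemma ori_EE (X q1 q2 : ℂ) (x y x' y' x'' y'' : ℝ) :
    ori (EE X q1 q2 x y) (EE X q1 q2 x' y') (EE X q1 q2 x'' y'') =
      ((x' - x) * (y'' - y) - (y' - y) * (x'' - x)) * cr (q1 - X) (q2 - X) := by
  unfold ori cr EE
  simp only [Complex.add_re, Complex.add_im, Complex.sub_re, Complex.sub_im, Complex.real_smul,
    Complex.mul_re, Complex.mul_im, Complex.ofReal_re, Complex.ofReal_im]
  ring

lemma cr_EE (X q1 q2 : ℂ) (x y x' y' x'' y'' : ℝ) :
    cr (EE X q1 q2 x' y' - EE X q1 q2 x y) (EE X q1 q2 x'' y'' - EE X q1 q2 x y) =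
      ((x' - x) * (y'' - y) - (y' - y) * (x'' - x)) * cr (q1 - X) (q2 - X) :=
  ori_EE X q1 q2 x y x' y' x'' y''

/-- seeing the chord from the filled triangle -/
lemma chord_seg {P : Set ℂ} (h : Reg P) {X q1 q2 : ℂ} {α1 α2 s : ℝ} (hα1 : 0 < α1)
    (hα2 : 0 < α2) (hs0 : 0 < s) (hs1 : s < 1) (hcr : cr (q1 - X) (q2 - X) ≠ 0)
    (h1 : segment ℝ X (EE X q1 q2 α1 0) ⊆ P) (h2 : segment ℝ X (EE X q1 q2 0 α2) ⊆ P)
    (hc : segment ℝ (EE X q1 q2 α1 0) (EE X q1 q2 0 α2) ⊆ P) {g1 g2 : ℝ} (hg1 : 0 ≤ g1)
    (hg2 : 0 ≤ g2) (hg : g1 / α1 + g2 / α2 < 1) :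
    svis P (EE X q1 q2 g1 g2) (EE X q1 q2 ((1 - s) * α1) (s * α2)) := by
  intro z hz
  rw [mem_openSegment_iff] at hz
  obtain ⟨t, t0, t1, rfl⟩ := hz
  rw [pt_EE]
  set x := g1 + t * ((1 - s) * α1 - g1) with hx
  set y := g2 + t * (s * α2 - g2) with hy
  have e1 : EE X q1 q2 x y = X + (x / α1) • (EE X q1 q2 α1 0 - X) +
      (y / α2) • (EE X q1 q2 0 α2 - X) := by
    have a1 : EE X q1 q2 α1 0 - X = α1 • (q1 - X) := by unfold EE; simp
    have a2 : EE X q1 q2 0 α2 - X = α2 • (q2 - X) := by unfold EE; simp
    rw [a1, a2, smul_smul, smul_smul, div_mul_cancel₀ _ hα1.ne', div_mul_cancel₀ _ hα2.ne']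
    rfl
  rw [e1]
  have hx' : x / α1 = (1 - t) * (g1 / α1) + t * (1 - s) := by rw [hx]; field_simp; ring
  have hy' : y / α2 = (1 - t) * (g2 / α2) + t * s := by rw [hy]; field_simp; ring
  have p1 : 0 ≤ g1 / α1 := by positivity
  have p2 : 0 ≤ g2 / α2 := by positivity
  apply fill_int h _ h1 hc h2
  · rw [hx']
    have : 0 < t * (1 - s) := mul_pos t0 (by linarith)
    have : 0 ≤ (1 - t) * (g1 / α1) := mul_nonneg (by linarith) p1
    linarith
  · rw [hy']
    have : 0 < t * s := mul_pos t0 hs0
    have : 0 ≤ (1 - t) * (g2 / α2) := mul_nonneg (by linarith) p2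
    linarith
  · rw [hx', hy']
    have : 0 < (1 - t) * (1 - (g1 / α1 + g2 / α2)) := mul_pos (by linarith) (by linarith)
    nlinarith
  · have := ori_EE X q1 q2 0 0 α1 0 0 α2
    rw [EE_zero] at this
    rw [this]
    apply mul_ne_zero _ hcr
    have : (α1 - 0) * (α2 - 0) - (0 - 0) * (0 - 0) = α1 * α2 := by ring
    rw [this]; positivity

section loop

variable {P : Set ℂ} {X q1 q2 : ℂ} {α1 α2 s a b' : ℝ}

/-- the loop lemma, source outside the cone -/
theorem loop_half (h : Reg P) (hα1 : 0 < α1) (hα1' : α1 < 1) (hα2 : 0 < α2) (hα2' : α2 < 1)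
    (hs0 : 0 < s) (hs1 : s < 1) (hcr : cr (q1 - X) (q2 - X) ≠ 0) (hX : X ∈ interior P)
    (h1 : openSegment ℝ X q1 ⊆ interior P) (h2 : openSegment ℝ X q2 ⊆ interior P)
    (h1c : segment ℝ X q1 ⊆ P) (h2c : segment ℝ X q2 ⊆ P)
    (hc : segment ℝ (EE X q1 q2 α1 0) (EE X q1 q2 0 α2) ⊆ P)
    (hp1 : svis P (EE X q1 q2 a b') q1) (hp2 : svis P (EE X q1 q2 a b') q2) (ha : a ≤ 0) :
    svis P q1 (EE X q1 q2 ((1 - s) * α1) (s * α2)) ∨
      svis P (EE X q1 q2 a b') (EE X q1 q2 ((1 - s) * α1) (s * α2)) := by
  set p := EE X q1 q2 a b' with hp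
  set b1 := (1 - s) * α1 with hb1
  set b2 := s * α2 with hb2
  set bp := EE X q1 q2 b1 b2 with hbp
  have hb1p : 0 < b1 := mul_pos (by linarith) hα1
  have hb2p : 0 < b2 := mul_pos hs0 hα2
  have hchord : b1 / α1 + b2 / α2 = 1 := by rw [hb1, hb2]; field_simp; ring
  have hb1lt : b1 < b1 / α1 := by rw [lt_div_iff₀ hα1]; nlinarith
  have hb2lt : b2 < b2 / α2 := by rw [lt_div_iff₀ hα2]; nlinarith
  have hps1 := seg_of_svis h.closed hp1
  have hps2 := seg_of_svis h.closed hp2
  have hXc1 : segment ℝ X (EE X q1 q2 α1 0) ⊆ P := by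
    refine subset_trans ?_ h1c
    refine (convex_segment _ _).segment_subset (left_mem_segment ℝ _ _) ?_
    rw [mem_segment_iff]
    exact ⟨α1, hα1.le, hα1'.le, by unfold EE pt; simp⟩
  have hXc2 : segment ℝ X (EE X q1 q2 0 α2) ⊆ P := by
    refine subset_trans ?_ h2c
    refine (convex_segment _ _).segment_subset (left_mem_segment ℝ _ _) ?_
    rw [mem_segment_iff]
    exact ⟨α2, hα2.le, hα2'.le, by unfold EE pt; simp⟩
  have hT0 : ∀ g1 g2 : ℝ, 0 ≤ g1 → 0 ≤ g2 → g1 / α1 + g2 / α2 < 1 →
      svis P (EE X q1 q2 g1 g2) bp := fun g1 g2 k1 k2 k3 =>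
    chord_seg h hα1 hα2 hs0 hs1 hcr hXc1 hXc2 hc k1 k2 k3
  set θ := b' / (1 - a) with hθ
  have h1a : 0 < 1 - a := by linarith
  have hb'θ : b' = θ * (1 - a) := by rw [hθ]; field_simp
  -- the crossing point with the second axis
  set g0 := EE X q1 q2 0 θ with hg0
  have hg0p : g0 = pt q1 p (1 / (1 - a)) := by
    rw [hg0, hp, pt_q1, hb'θ]
    congr 1
    · field_simp; ring
    · field_simp
  have h1ale : 1 / (1 - a) ≤ 1 := by rw [div_le_one h1a]; linarith
  have h1apos : 0 < 1 / (1 - a) := by positivity
  have hq1p : segment ℝ q1 p ⊆ P := by rw [segment_symm]; exact hps1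
  have hq1g : segment ℝ q1 g0 ⊆ P := by
    refine subset_trans ?_ hq1p
    refine (convex_segment _ _).segment_subset (left_mem_segment ℝ _ _) ?_
    rw [hg0p]; exact pt_mem_segment h1apos.le h1ale
  have hpg : segment ℝ p g0 ⊆ P := by
    refine subset_trans ?_ hq1p
    refine (convex_segment _ _).segment_subset (right_mem_segment ℝ _ _) ?_
    rw [hg0p]; exact pt_mem_segment h1apos.le h1ale
  rcases lt_or_ge 1 θ with hθ1 | hθ1
  · -- the diagonal between the two sources
    left
    have hdiag : segment ℝ q1 q2 ⊆ P := by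
      have hop : openSegment ℝ q1 q2 ⊆ interior P := by
        have hab : 1 < a + b' := by rw [hb'θ]; nlinarith
        have cX := cr_EE X q1 q2 1 0 0 1 0 0
        have cp := cr_EE X q1 q2 1 0 0 1 a b'
        rw [EE_one, EE_two, EE_zero] at cX
        rw [EE_one, EE_two, ← hp] at cp
        rcases lt_or_gt_of_ne hcr with hn | hn
        · refine fill2 h (O := q1) (C := q2) (A := p) (B := X) ?_ ?_ hq1p hps2 ?_ h1c
          · rw [cp]; apply mul_pos_of_neg_of_neg _ hn; linarith
          · rw [cX]; apply mul_neg_of_pos_of_neg _ hn; norm_num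
          · rw [segment_symm]; exact h2c
        · refine fill2 h (O := q1) (C := q2) (A := X) (B := p) ?_ ?_ ?_ h2c ?_ hps1
          · rw [cX]; apply mul_pos _ hn; norm_num
          · rw [cp]; apply mul_neg_of_neg_of_pos _ hn; linarith
          · rw [segment_symm]; exact h1c
          · rw [segment_symm]; exact hps2
      intro z hz
      rw [mem_segment_iff] at hz
      obtain ⟨t, t0, t1, rfl⟩ := hz
      rcases t0.eq_or_lt with e | e
      · rw [← e, pt_zero]; exact h1c (right_mem_segment ℝ _ _)
      rcases t1.eq_or_lt with e' | e'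
      · rw [e', pt_one]; exact h2c (right_mem_segment ℝ _ _)
      exact interior_subset (hop (pt_mem_openSegment e e'))
    refine svis_tri_int h (A := X) (B := q2) (α := 1 - b1 - b2) (β := b2) ?_ ?_ h2c hdiag
      (by linarith) hb2p (by linarith) ?_
    · have := ori_EE X q1 q2 1 0 0 0 0 1
      rw [EE_one, EE_zero, EE_two] at this
      rw [this]
      apply mul_ne_zero _ hcr; norm_num
    · rw [segment_symm]; exact h1c
    · rw [hbp]; unfold EE; simp only [Complex.real_smul]; push_cast; ring
  rcases lt_or_ge θ 0 with hθ0 | hθ0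
  · -- the source is behind the crossing point of the beams
    right
    have hb'neg : b' < 0 := by rw [hb'θ]; exact mul_neg_of_neg_of_pos hθ0 h1a
    -- visibility of the crossing point from the source
    have hpXs : a < 0 → openSegment ℝ X p ⊆ interior P := by
      intro ha0
      have c1 := cr_EE X q1 q2 0 0 a b' 1 0
      have c2 := cr_EE X q1 q2 0 0 a b' 0 1
      rw [EE_zero, EE_one, ← hp] at c1
      rw [EE_zero, EE_two, ← hp] at c2
      rcases lt_or_gt_of_ne hcr with hn | hn
      · refine fill2 h (O := X) (C := p) (A := q2) (B := q1) ?_ ?_ h2c ?_ hps1 ?_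
        · rw [c2]; apply mul_pos_of_neg_of_neg _ hn; linarith
        · rw [c1]; apply mul_neg_of_pos_of_neg _ hn; linarith
        · rw [segment_symm]; exact hps2
        · rw [segment_symm]; exact h1c
      · refine fill2 h (O := X) (C := p) (A := q1) (B := q2) ?_ ?_ h1c hq1p hps2 ?_
        · rw [c1]; apply mul_pos _ hn; linarith
        · rw [c2]; apply mul_neg_of_neg_of_pos _ hn; linarith
        · rw [segment_symm]; exact h2c
    have hpX : segment ℝ p X ⊆ P := by
      rcases ha.eq_or_lt with e | e
      · -- the source is on the second beam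
        refine subset_trans ?_ hps2
        refine (convex_segment _ _).segment_subset (left_mem_segment ℝ _ _) ?_
        rw [mem_segment_iff]
        refine ⟨-b' / (1 - b'), div_nonneg (by linarith) (by linarith),
          by rw [div_le_one (by linarith)]; linarith, ?_⟩
        have : pt p q2 (-b' / (1 - b')) = EE X q1 q2 0 0 := by
          rw [hp, pt_to_q2, e]
          have h1b : 1 - b' ≠ 0 := by linarith
          congr 1
          · ring
          · field_simp; ring
        rw [this, EE_zero]
      · intro z hz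
        rw [segment_symm, mem_segment_iff] at hz
        obtain ⟨t, t0, t1, rfl⟩ := hz
        rcases t0.eq_or_lt with e1 | e1
        · rw [← e1, pt_zero]; exact interior_subset hX
        rcases t1.eq_or_lt with e2 | e2
        · rw [e2, pt_one]; exact hps1 (left_mem_segment ℝ _ _)
        exact interior_subset (hpXs e (pt_mem_openSegment e1 e2))
    -- where the segment leaves the cone
    have hden1 : 0 < b1 - a := by linarith
    have hden2 : 0 < b2 - b' := by linarith
    rcases lt_trichotomy (b2 * (b1 - a)) (b1 * (b2 - b')) with hcase | hcase | hcase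
    · -- crosses the first axis
      set ξ := (b1 * (-b') + a * b2) / (b2 - b') with hξ
      have hξ0 : 0 < ξ := by rw [hξ]; apply div_pos _ hden2; nlinarith
      have hξ1 : ξ < α1 := by
        rw [hξ, div_lt_iff₀ hden2]
        have hb1α : b1 < α1 := by rw [hb1]; nlinarith
        have k1 : b1 * (-b') ≤ α1 * (-b') := mul_le_mul_of_nonneg_right hb1α.le (by linarith)
        have k2 : a * b2 ≤ 0 := mul_nonpos_of_nonpos_of_nonneg ha hb2p.le
        have k3 : 0 < α1 * b2 := mul_pos hα1 hb2p
        linarith
      have hg : EE X q1 q2 ξ 0 ∈ openSegment ℝ p bp := by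
        rw [mem_openSegment_iff]
        refine ⟨(-b') / (b2 - b'), div_pos (by linarith) hden2,
          by rw [div_lt_one hden2]; linarith, ?_⟩
        rw [hp, hbp, pt_EE]
        congr 1
        · rw [hξ]; field_simp; ring
        · field_simp; ring
      refine svis_split hg ?_ ?_ (hT0 ξ 0 hξ0.le le_rfl ?_)
      · apply h1
        rw [mem_openSegment_iff]
        exact ⟨ξ, hξ0, by linarith, by unfold EE pt; simp⟩
      · have e1 : EE X q1 q2 ξ 0 = pt X q1 ξ := by unfold EE pt; simp
        rw [e1]
        apply svis_of_tri h _ hpX h1c hps1 hξ0 (by linarith)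
        have := ori_EE X q1 q2 a b' 0 0 1 0
        rw [EE_zero, EE_one, ← hp] at this
        rw [this]
        apply mul_ne_zero _ hcr
        have : (0 - a) * (0 - b') - (0 - b') * (1 - a) = b' := by ring
        rw [this]; exact hb'neg.ne
      · rw [zero_div, add_zero, div_lt_one hα1]; exact hξ1
    · -- through the crossing point
      have ha0 : a < 0 := by
        rcases ha.eq_or_lt with e | e
        · exfalso
          rw [e] at hcase
          have : b1 * b' < 0 := mul_neg_of_pos_of_neg hb1p hb'neg
          nlinarith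
        · exact e
      have hg : X ∈ openSegment ℝ p bp := by
        rw [mem_openSegment_iff]
        refine ⟨(-b') / (b2 - b'), div_pos (by linarith) hden2,
          by rw [div_lt_one hden2]; linarith, ?_⟩
        have : pt p bp (-b' / (b2 - b')) = EE X q1 q2 0 0 := by
          rw [hp, hbp, pt_EE]
          congr 1
          · field_simp; nlinarith
          · field_simp; ring
        rw [this, EE_zero]
      refine svis_split hg hX ?_ ?_
      · have := hpXs ha0
        exact svis_symm this
      · have := hT0 0 0 le_rfl le_rfl (by simp)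
        rwa [EE_zero] at this
    · -- crosses the second axis
      have ha0 : a < 0 := by
        rcases ha.eq_or_lt with e | e
        · exfalso
          rw [e] at hcase
          have : b1 * b' < 0 := mul_neg_of_pos_of_neg hb1p hb'neg
          nlinarith
        · exact e
      set η := (b2 * (-a) + b' * b1) / (b1 - a) with hη
      have hη0 : 0 < η := by rw [hη]; apply div_pos _ hden1; nlinarith
      have hη1 : η < α2 := by
        rw [hη, div_lt_iff₀ hden1]
        have hb2α : b2 < α2 := by rw [hb2]; nlinarith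
        have k1 : b2 * (-a) ≤ α2 * (-a) := mul_le_mul_of_nonneg_right hb2α.le (by linarith)
        have k2 : b' * b1 < 0 := mul_neg_of_neg_of_pos hb'neg hb1p
        have k3 : 0 < α2 * b1 := mul_pos hα2 hb1p
        linarith
      have hg : EE X q1 q2 0 η ∈ openSegment ℝ p bp := by
        rw [mem_openSegment_iff]
        refine ⟨(-a) / (b1 - a), div_pos (by linarith) hden1,
          by rw [div_lt_one hden1]; linarith, ?_⟩
        rw [hp, hbp, pt_EE]
        congr 1
        · field_simp; ring
        · rw [hη]; field_simp; ring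
      refine svis_split hg ?_ ?_ (hT0 0 η le_rfl hη0.le ?_)
      · apply h2
        rw [mem_openSegment_iff]
        exact ⟨η, hη0, by linarith, by unfold EE pt; simp⟩
      · have e1 : EE X q1 q2 0 η = pt X q2 η := by unfold EE pt; simp
        rw [e1]
        apply svis_of_tri h _ hpX h2c hps2 hη0 (by linarith)
        have := ori_EE X q1 q2 a b' 0 0 0 1
        rw [EE_zero, EE_two, ← hp] at this
        rw [this]
        apply mul_ne_zero _ hcr
        have : (0 - a) * (1 - b') - (0 - b') * (0 - a) = -a := by ring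
        rw [this]; linarith
      · rw [zero_div, zero_add, div_lt_one hα2]; exact hη1
  · -- the crossing point is on the second beam
    have hXg : segment ℝ X g0 ⊆ P := by
      refine subset_trans ?_ h2c
      refine (convex_segment _ _).segment_subset (left_mem_segment ℝ _ _) ?_
      rw [mem_segment_iff]
      exact ⟨θ, hθ0, hθ1, by rw [hg0]; unfold EE pt; simp⟩
    rcases lt_trichotomy (b1 * θ + b2) θ with hcase | hcase | hcase
    · -- inside the triangle
      left
      have hθp : 0 < θ := by nlinarith
      refine svis_tri_int h (A := X) (B := g0) (α := 1 - b1 - b2 / θ) (β := b2 / θ) ?_ ?_ hXg hq1g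
        ?_ (by positivity) ?_ ?_
      · have := ori_EE X q1 q2 1 0 0 0 0 θ
        rw [EE_one, EE_zero, ← hg0] at this
        rw [this]
        apply mul_ne_zero _ hcr
        have : (0 - 1) * (θ - 0) - (0 - 0) * (0 - 1) = -θ := by ring
        rw [this]; linarith
      · rw [segment_symm]; exact h1c
      · have : b2 / θ < 1 - b1 := by rw [div_lt_iff₀ hθp]; nlinarith
        linarith
      · linarith
      · have e1 : b2 / θ * θ = b2 := div_mul_cancel₀ _ hθp.ne'
        have e2 : g0 = X + θ • (q2 - X) := by rw [hg0]; unfold EE; simp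
        have e3 : bp = X + b1 • (q1 - X) + (b2 / θ * θ) • (q2 - X) := by
          rw [e1, hbp]; unfold EE; rfl
        rw [e3, e2]; simp only [Complex.real_smul]; push_cast; ring
    · -- on the segment from the source
      left
      have hθp : 0 < θ := by
        rcases hθ0.eq_or_lt with e | e
        · exfalso; rw [← e] at hcase; linarith
        · exact e
      have hbm : bp = pt q1 g0 (b2 / θ) := by
        have e1 : b2 / θ * θ = b2 := div_mul_cancel₀ _ hθp.ne'
        have e2 : 1 + b2 / θ * (0 - 1) = b1 := by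
          have : b2 / θ = 1 - b1 := by rw [div_eq_iff hθp.ne']; linarith
          rw [this]; ring
        rw [hg0, hbp, pt_q1, e1]
        have e3 : (1 : ℝ) + b2 / θ * (0 - 1) = b1 := e2
        exact congrArg (fun t => EE X q1 q2 t b2) e3.symm
      intro z hz
      apply svis_symm hp1
      rw [mem_openSegment_iff] at hz ⊢
      obtain ⟨t, t0, t1, rfl⟩ := hz
      have hb2θ : b2 / θ < 1 := by
        rw [div_lt_one hθp]
        have := mul_pos hb1p hθp
        linarith
      refine ⟨t * (b2 / θ) * (1 / (1 - a)), by positivity, ?_, ?_⟩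
      · have k1 : t * (b2 / θ) < 1 := by
          have : 0 < b2 / θ := by positivity
          nlinarith
        have k2 : 0 < t * (b2 / θ) := by positivity
        nlinarith
      · rw [hbm, hg0p]
        unfold pt
        simp only [add_sub_cancel_left, smul_smul]
        congr 2
        ring
    · -- beyond the segment from the source
      right
      have hθα : θ < α2 := by
        by_contra hcon
        push Not at hcon
        have hθp : 0 < θ := by linarith
        have k1 : b2 / θ ≤ b2 / α2 := div_le_div_of_nonneg_left hb2p.le hα2 hcon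
        have k2 : b1 + b2 / θ < 1 := by linarith
        have k3 : (b1 + b2 / θ) * θ < 1 * θ := mul_lt_mul_of_pos_right k2 hθp
        have k4 : (b1 + b2 / θ) * θ = b1 * θ + b2 := by field_simp
        linarith
      rcases ha.eq_or_lt with e | e
      · have e1 : p = EE X q1 q2 0 θ := by
          rw [hp, hb'θ, e]; congr 1; ring
        rw [e1]
        apply hT0 0 θ le_rfl hθ0
        rw [zero_div, zero_add, div_lt_one hα2]; exact hθα
      · have hden1 : 0 < b1 - a := by linarith
        set η := (b2 * (-a) + b' * b1) / (b1 - a) with hη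
        have hηθ : θ < η := by
          rw [hη, lt_div_iff₀ hden1, hb'θ]
          have : 0 < (-a) * (b1 * θ + b2 - θ) := mul_pos (by linarith) (by linarith)
          nlinarith
        have hη1 : η < α2 := by
          have hpv : a / α1 + b' / α2 < 1 := by
            have k1 : b' / α2 < 1 - a := by
              rw [div_lt_iff₀ hα2, hb'θ]; nlinarith
            have k2 : a / α1 < a := by
              rw [div_lt_iff₀ hα1]; nlinarith
            linarith
          have k3 : η / α2 = ((-a) * (b1 / α1 + b2 / α2) + b1 * (a / α1 + b' / α2)) /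
              (b1 - a) := by
            rw [hη]; field_simp; ring
          have k4 : η / α2 < 1 := by
            rw [k3, div_lt_one hden1, hchord]
            have : b1 * (a / α1 + b' / α2) < b1 * 1 := mul_lt_mul_of_pos_left hpv hb1p
            linarith
          rwa [div_lt_one hα2] at k4
        have hη0 : 0 < η := by linarith
        have hg : EE X q1 q2 0 η ∈ openSegment ℝ p bp := by
          rw [mem_openSegment_iff]
          refine ⟨(-a) / (b1 - a), div_pos (by linarith) hden1,
            by rw [div_lt_one hden1]; linarith, ?_⟩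
          rw [hp, hbp, pt_EE]
          congr 1
          · field_simp; ring
          · rw [hη]; field_simp; ring
        have h1θ : 0 < 1 - θ := by linarith
        refine svis_split hg ?_ ?_ (hT0 0 η le_rfl hη0.le ?_)
        · apply h2
          rw [mem_openSegment_iff]
          exact ⟨η, hη0, by linarith, by unfold EE pt; simp⟩
        · have e1 : EE X q1 q2 0 η = pt g0 q2 ((η - θ) / (1 - θ)) := by
            rw [hg0, pt_to_q2]
            congr 1
            · ring
            · field_simp; ring
          rw [e1]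
          apply svis_of_tri h _ hpg ?_ hps2 (div_pos (by linarith) h1θ)
            (by rw [div_lt_one h1θ]; linarith)
          · have := ori_EE X q1 q2 a b' 0 θ 0 1
            rw [EE_two, ← hp, ← hg0] at this
            rw [this]
            apply mul_ne_zero _ hcr
            have : (0 - a) * (1 - b') - (θ - b') * (0 - a) = -a * (1 - θ) := by ring
            rw [this]
            exact mul_ne_zero (by linarith) h1θ.ne'
          · refine subset_trans ?_ h2c
            refine (convex_segment _ _).segment_subset ?_ (right_mem_segment ℝ _ _)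
            rw [mem_segment_iff]
            exact ⟨θ, hθ0, hθ1, by rw [hg0]; unfold EE pt; simp⟩
        · rw [zero_div, zero_add, div_lt_one hα2]; exact hη1

/-- the loop lemma, source inside the cone -/
theorem loop_cone (h : Reg P) (hα1 : 0 < α1) (hα1' : α1 < 1) (hα2 : 0 < α2) (hα2' : α2 < 1)
    (hs0 : 0 < s) (hs1 : s < 1) (hcr : cr (q1 - X) (q2 - X) ≠ 0) (hX : X ∈ interior P)
    (h1c : segment ℝ X q1 ⊆ P) (h2c : segment ℝ X q2 ⊆ P)
    (hc : segment ℝ (EE X q1 q2 α1 0) (EE X q1 q2 0 α2) ⊆ P)
    (hp1 : svis P (EE X q1 q2 a b') q1) (hp2 : svis P (EE X q1 q2 a b') q2) (ha : 0 < a)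
    (hb' : 0 < b') :
    svis P q1 (EE X q1 q2 ((1 - s) * α1) (s * α2)) ∨
      svis P (EE X q1 q2 a b') (EE X q1 q2 ((1 - s) * α1) (s * α2)) := by
  set p := EE X q1 q2 a b' with hp
  set b1 := (1 - s) * α1 with hb1
  set b2 := s * α2 with hb2
  set bp := EE X q1 q2 b1 b2 with hbp
  have hb1p : 0 < b1 := mul_pos (by linarith) hα1
  have hb2p : 0 < b2 := mul_pos hs0 hα2
  have hchord : b1 / α1 + b2 / α2 = 1 := by rw [hb1, hb2]; field_simp; ring
  have hps1 := seg_of_svis h.closed hp1
  have hps2 := seg_of_svis h.closed hp2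
  have hq1p : segment ℝ q1 p ⊆ P := by rw [segment_symm]; exact hps1
  have hXc1 : segment ℝ X (EE X q1 q2 α1 0) ⊆ P := by
    refine subset_trans ?_ h1c
    refine (convex_segment _ _).segment_subset (left_mem_segment ℝ _ _) ?_
    rw [mem_segment_iff]
    exact ⟨α1, hα1.le, hα1'.le, by unfold EE pt; simp⟩
  have hXc2 : segment ℝ X (EE X q1 q2 0 α2) ⊆ P := by
    refine subset_trans ?_ h2c
    refine (convex_segment _ _).segment_subset (left_mem_segment ℝ _ _) ?_
    rw [mem_segment_iff]
    exact ⟨α2, hα2.le, hα2'.le, by unfold EE pt; simp⟩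
  rcases lt_or_ge (a / α1 + b' / α2) 1 with hin | hin
  · right
    exact chord_seg h hα1 hα2 hs0 hs1 hcr hXc1 hXc2 hc ha.le hb'.le hin
  have hop : openSegment ℝ X p ⊆ interior P := by
    have c1 := cr_EE X q1 q2 0 0 a b' 1 0
    have c2 := cr_EE X q1 q2 0 0 a b' 0 1
    rw [EE_zero, EE_one, ← hp] at c1
    rw [EE_zero, EE_two, ← hp] at c2
    rcases lt_or_gt_of_ne hcr with hn | hn
    · refine fill2 h (O := X) (C := p) (A := q1) (B := q2) ?_ ?_ h1c hq1p hps2 ?_
      · rw [c1]; apply mul_pos_of_neg_of_neg _ hn; linarith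
      · rw [c2]; apply mul_neg_of_pos_of_neg _ hn; linarith
      · rw [segment_symm]; exact h2c
    · refine fill2 h (O := X) (C := p) (A := q2) (B := q1) ?_ ?_ h2c ?_ hps1 ?_
      · rw [c2]; apply mul_pos _ hn; linarith
      · rw [c1]; apply mul_neg_of_neg_of_pos _ hn; linarith
      · rw [segment_symm]; exact hps2
      · rw [segment_symm]; exact h1c
  have hpX : segment ℝ p X ⊆ P := by
    intro z hz
    rw [segment_symm, mem_segment_iff] at hz
    obtain ⟨t, t0, t1, rfl⟩ := hz
    rcases t0.eq_or_lt with e1 | e1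
    · rw [← e1, pt_zero]; exact interior_subset hX
    rcases t1.eq_or_lt with e2 | e2
    · rw [e2, pt_one]; exact hps1 (left_mem_segment ℝ _ _)
    exact interior_subset (hop (pt_mem_openSegment e1 e2))
  rcases lt_trichotomy (b2 * a) (b1 * b') with hcase | hcase | hcase
  · -- on the side of the first source
    right
    set μ := b2 / b' with hμ
    set lam := b1 - μ * a with hlam
    have hμ0 : 0 < μ := by positivity
    have hlam0 : 0 < lam := by
      have : μ * a < b1 := by rw [hμ, div_mul_eq_mul_div, div_lt_iff₀ hb']; exact hcase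
      linarith
    have hval : lam / α1 + μ * (a / α1 + b' / α2) = 1 := by
      rw [← hchord, hlam, hμ]; field_simp; ring
    have hlt : lam < lam / α1 := by rw [lt_div_iff₀ hα1]; nlinarith
    have hle : μ ≤ μ * (a / α1 + b' / α2) := by nlinarith
    refine svis_tri_int h (A := X) (B := q1) (α := 1 - lam - μ) (β := lam) ?_ hpX h1c hps1
      (by linarith) hlam0 (by linarith) ?_
    · have := ori_EE X q1 q2 a b' 0 0 1 0
      rw [EE_zero, EE_one, ← hp] at this
      rw [this]
      apply mul_ne_zero _ hcr
      have : (0 - a) * (0 - b') - (0 - b') * (1 - a) = b' := by ring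
      rw [this]; exact hb'.ne'
    · have e1 : b1 = lam + μ * a := by rw [hlam]; ring
      have e2 : b2 = μ * b' := by rw [hμ]; field_simp
      rw [hbp, hp, e1, e2]; unfold EE; simp only [Complex.real_smul]; push_cast; ring
  · -- on the diagonal
    set μ := b2 / b' with hμ
    have hμ0 : 0 < μ := by positivity
    have e1 : b1 = μ * a := by rw [hμ]; field_simp; linarith
    have e2 : b2 = μ * b' := by rw [hμ]; field_simp
    have hval : μ * (a / α1 + b' / α2) = 1 := by
      rw [← hchord, e1, e2]; ring
    have hμ1 : μ ≤ 1 := by nlinarith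
    have hbX : bp = pt X p μ := by
      rw [hbp, hp, e1, e2]; unfold EE pt; simp only [Complex.real_smul]; push_cast; ring
    rcases hμ1.eq_or_lt with e | e
    · left
      rw [hbX, e, pt_one]
      exact svis_symm hp1
    · right
      intro z hz
      apply hop
      rw [openSegment_symm, mem_openSegment_iff] at hz
      obtain ⟨t, t0, t1, rfl⟩ := hz
      rw [mem_openSegment_iff]
      refine ⟨μ + t * (1 - μ), ?_, ?_, ?_⟩
      · have := mul_pos t0 (show 0 < 1 - μ by linarith)
        linarith
      · nlinarith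
      · rw [hbX]; unfold pt; simp only [Complex.real_smul]; push_cast; ring
  · -- on the side of the second source
    right
    set μ := b1 / a with hμ
    set lam := b2 - μ * b' with hlam
    have hμ0 : 0 < μ := by positivity
    have hlam0 : 0 < lam := by
      have : μ * b' < b2 := by rw [hμ, div_mul_eq_mul_div, div_lt_iff₀ ha]; exact hcase
      linarith
    have hval : lam / α2 + μ * (a / α1 + b' / α2) = 1 := by
      rw [← hchord, hlam, hμ]; field_simp; ring
    have hlt : lam < lam / α2 := by rw [lt_div_iff₀ hα2]; nlinarith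
    have hle : μ ≤ μ * (a / α1 + b' / α2) := by nlinarith
    refine svis_tri_int h (A := X) (B := q2) (α := 1 - lam - μ) (β := lam) ?_ hpX h2c hps2
      (by linarith) hlam0 (by linarith) ?_
    · have := ori_EE X q1 q2 a b' 0 0 0 1
      rw [EE_zero, EE_two, ← hp] at this
      rw [this]
      apply mul_ne_zero _ hcr
      have : (0 - a) * (1 - b') - (0 - b') * (0 - a) = -a := by ring
      rw [this]; linarith
    · have e1 : b2 = lam + μ * b' := by rw [hlam]; ring
      have e2 : b1 = μ * a := by rw [hμ]; field_simp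
      rw [hbp, hp, e1, e2]; unfold EE; simp only [Complex.real_smul]; push_cast; ring

end loop

/-- the loop lemma -/
theorem loop {P : Set ℂ} (h : Reg P) {X q1 q2 p b : ℂ} {α1 α2 s : ℝ} (hα1 : 0 < α1)
    (hα1' : α1 < 1) (hα2 : 0 < α2) (hα2' : α2 < 1) (hs0 : 0 < s) (hs1 : s < 1)
    (hcr : cr (q1 - X) (q2 - X) ≠ 0) (hX : X ∈ interior P)
    (h1 : openSegment ℝ X q1 ⊆ interior P) (h2 : openSegment ℝ X q2 ⊆ interior P)
    (hc : segment ℝ (pt X q1 α1) (pt X q2 α2) ⊆ P) (hb : b = pt (pt X q1 α1) (pt X q2 α2) s)
    (hp1 : svis P p q1) (hp2 : svis P p q2) : svis P q1 b ∨ svis P q2 b ∨ svis P p b := by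
  set a := cr (p - X) (q2 - X) / cr (q1 - X) (q2 - X) with ha
  set b' := cr (q1 - X) (p - X) / cr (q1 - X) (q2 - X) with hb'
  have hpE : p = EE X q1 q2 a b' := by
    have := decomp hcr (p - X)
    unfold EE
    rw [add_assoc, ← this]; ring
  have e1 : pt X q1 α1 = EE X q1 q2 α1 0 := by unfold EE pt; simp
  have e2 : pt X q2 α2 = EE X q1 q2 0 α2 := by unfold EE pt; simp
  have e1' : pt X q1 α1 = EE X q2 q1 0 α1 := by unfold EE pt; simp
  have e2' : pt X q2 α2 = EE X q2 q1 α2 0 := by unfold EE pt; simp
  have hbE : b = EE X q1 q2 ((1 - s) * α1) (s * α2) := by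
    rw [hb, e1, e2, pt_EE]; congr 1 <;> ring
  have h1c := seg_of_svis h.closed (a := X) (b := q1) h1
  have h2c := seg_of_svis h.closed (a := X) (b := q2) h2
  by_cases hac : a ≤ 0
  · rw [e1, e2] at hc
    rw [hpE] at hp1 hp2
    rcases loop_half h hα1 hα1' hα2 hα2' hs0 hs1 hcr hX h1 h2 h1c h2c hc hp1 hp2 hac with g | g
    · left; rw [hbE]; exact g
    · right; right; rw [hbE, hpE]; exact g
  by_cases hbc : b' ≤ 0
  · have hpE' : p = EE X q2 q1 b' a := by
      rw [hpE]; unfold EE; ring
    have hbE' : b = EE X q2 q1 ((1 - (1 - s)) * α2) ((1 - s) * α1) := by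
      rw [hbE]; unfold EE
      have : 1 - (1 - s) = s := by ring
      rw [this]; ring
    have hcr' : cr (q2 - X) (q1 - X) ≠ 0 := by
      rw [cr_swap]; exact neg_ne_zero.2 hcr
    rw [e1', e2', segment_symm] at hc
    rw [hpE'] at hp1 hp2
    rcases loop_half h (s := 1 - s) hα2 hα2' hα1 hα1' (by linarith) (by linarith) hcr' hX h2 h1
      h2c h1c hc hp2 hp1 hbc with g | g
    · right; left; rw [hbE']; exact g
    · right; right; rw [hbE', hpE']; exact g
  push Not at hac hbc
  rw [e1, e2] at hc
  rw [hpE] at hp1 hp2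
  rcases loop_cone h hα1 hα1' hα2 hα2' hs0 hs1 hcr hX h1c h2c hc hp1 hp2 hac hbc with g | g
  · left; rw [hbE]; exact g
  · right; right; rw [hbE, hpE]; exact g

end Run7.h395
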