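import Pool.Agent.Run7.h395.LocF
import Pool.Agent.Run7.h395.Loop

/-!
# Two exits with the same label
-/

open Set Topology Filter Complex

noncomputable section

namespace Run7.h395

variable {n : ℕ} (S : SimplePolygon n)

lemma pt_eq_EE0 (A M T : ℂ) (τ : ℝ) : pt A M τ = EE A M T τ 0 := by
  unfold EE pt; simp

/-- coordinates of a point whose segment to the line passes `T` -/
lemma coord_of_mem {A M T ζ : ℂ} {τ' : ℝ} (h : T ∈ openSegment ℝ ζ (pt A M τ')) :
    ∃ κ : ℝ, 0 < κ ∧ ζ = EE A M T (-κ * τ') (1 + κ) := by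
  rw [mem_openSegment_iff] at h
  obtain ⟨r, r0, r1, hr⟩ := h
  have h1 : (1 : ℝ) - r ≠ 0 := by linarith
  have h1c : (1 : ℂ) - (r : ℂ) ≠ 0 := by
    rw [← Complex.ofReal_one, ← Complex.ofReal_sub]
    exact Complex.ofReal_ne_zero.2 h1
  refine ⟨r / (1 - r), div_pos r0 (by linarith), ?_⟩
  have e1 : (1 - r : ℝ) • ζ = T - r • pt A M τ' := by
    rw [hr]; unfold pt
    simp only [Complex.real_smul]; push_cast; ring
  have e2 : ζ = (1 / (1 - r) : ℝ) • (T - r • pt A M τ') := by
    rw [← e1, smul_smul, one_div_mul_cancel h1, one_smul]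
  have e3 : (1 : ℝ) + r / (1 - r) = 1 / (1 - r) := by field_simp; ring
  have e4 : -(r / (1 - r)) * τ' = (1 / (1 - r)) * (-r * τ') := by field_simp
  rw [e3, e4]
  conv_lhs => rw [e2]
  unfold EE pt
  simp only [Complex.real_smul]
  push_cast
  field_simp
  ring

/-- two beams ending in the pocket cross -/
theorem SimplePolygon.beams {p A D : ℂ} {m : ZMod n} {i j : Item n}
    {τxi τxj σ εi εj ti τi τci tj τj τcj : ℝ} {ρi ρj : ℂ} (hA : A ≠ S.v m)
    (hseg : segment ℝ A (S.v m) ⊆ S.region) (hT : i.2.1 = j.2.1)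
    (di : S.ExitData p A D m i τxi σ εi ti τi τci ρi)
    (dj : S.ExitData p A D m j τxj σ εj tj τj τcj ρj) (hx : 0 < σ * (τj - τi))
    (hc : 0 < σ * (τcj - τci)) :
    ∃ X a1 a2 : ℝ, ∃ Y : ℂ, 0 < X ∧ 0 < a1 ∧ a1 < 1 ∧ 0 < a2 ∧ a2 < 1 ∧
      Y = pt (pt A (S.v m) τci) (S.ep i.1 ti) a1 ∧ Y = pt (pt A (S.v m) τcj) (S.ep j.1 tj) a2 ∧
      cr (S.v m - A) (Y - A) = X * cr (S.v m - A) (S.v i.2.1 - A) ∧
      cr (S.v m - A) (S.v i.2.1 - A) ≠ 0 := by
  set T := S.v i.2.1 with hTdef
  set M := S.v m with hM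
  have hTj : S.v j.2.1 = T := by rw [hTdef, hT]
  obtain ⟨κi, hκi, hζi⟩ := coord_of_mem di.mT
  have hmj := dj.mT
  rw [hTj] at hmj
  obtain ⟨κj, hκj, hζj⟩ := coord_of_mem hmj
  rw [← hTdef] at hζi
  set ζi := S.ep i.1 ti with hζid
  set ζj := S.ep j.1 tj with hζjd
  have hcr0 : cr (M - A) (T - A) ≠ 0 := by
    intro h0
    apply di.zoff
    show cr (M - A) (ζi - A) = 0
    rw [hζi]
    have : EE A M T (-κi * τi) (1 + κi) - A = (-κi * τi) • (M - A) + (1 + κi) • (T - A) := by
      unfold EE; ring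
    rw [this, cr_add_right, cr_smul_right, cr_smul_right, cr_self, h0]; ring
  have hcrE : ∀ P Q : ℝ, cr (M - A) (EE A M T P Q - A) = Q * cr (M - A) (T - A) := by
    intro P Q
    have : EE A M T P Q - A = P • (M - A) + Q • (T - A) := by unfold EE; ring
    rw [this, cr_add_right, cr_smul_right, cr_smul_right, cr_self]; ring
  set gi : ℝ → ℝ := fun h => τci + h / (1 + κi) * (-κi * τi - τci) with hgi
  set gj : ℝ → ℝ := fun h => τcj + h / (1 + κj) * (-κj * τj - τcj) with hgj
  have hpi : ∀ h, pt (pt A M τci) ζi (h / (1 + κi)) = EE A M T (gi h) h := by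
    intro h
    have h1 : (1 : ℝ) + κi ≠ 0 := by linarith
    have e1 : h / (1 + κi) * (1 + κi - 0) = h := by rw [sub_zero, div_mul_cancel₀ _ h1]
    rw [hζi, pt_eq_EE0 A M T, pt_EE, e1, zero_add]
  have hpj : ∀ h, pt (pt A M τcj) ζj (h / (1 + κj)) = EE A M T (gj h) h := by
    intro h
    have h1 : (1 : ℝ) + κj ≠ 0 := by linarith
    have e1 : h / (1 + κj) * (1 + κj - 0) = h := by rw [sub_zero, div_mul_cancel₀ _ h1]
    rw [hζj, pt_eq_EE0 A M T, pt_EE, e1, zero_add]
  have hi' := di.ord
  have hj' := dj.ord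
  -- the height
  obtain ⟨h, h0, hhi, hhj, hh⟩ : ∃ h, 0 < h ∧ h < 1 + κi ∧ h < 1 + κj ∧ gi h = gj h := by
    have hfin : ∀ hs, 0 < hs → hs ≤ 1 + κi → hs ≤ 1 + κj → 0 < σ * (gi hs - gj hs) →
        ∃ h, 0 < h ∧ h < 1 + κi ∧ h < 1 + κj ∧ gi h = gj h := by
      intro hs hs0 hsi hsj hpos
      have hσ0 : σ ≠ 0 := by
        intro h; rw [h, zero_mul] at hc; exact lt_irrefl _ hc
      set u := σ * (τcj - τci) with hu
      set w := σ * (gi hs - gj hs) with hw
      have huw : 0 < w + u := by linarith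
      have hr1 : u / (w + u) < 1 := by rw [div_lt_one huw]; linarith
      have hr0 : 0 < u / (w + u) := div_pos hc huw
      refine ⟨hs * (u / (w + u)), by positivity, by nlinarith, by nlinarith, ?_⟩
      have e1 : σ * (gi (hs * (u / (w + u))) - gj (hs * (u / (w + u)))) =
          (1 - u / (w + u)) * (-u) + (u / (w + u)) * w := by
        rw [hu, hw]
        simp only [hgi, hgj]
        ring
      have e2 : (1 - u / (w + u)) * (-u) + (u / (w + u)) * w = 0 := by
        field_simp; ring
      rw [e2] at e1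
      have := (mul_eq_zero.1 e1).resolve_left hσ0
      linarith
    rcases le_or_gt κj κi with hκ | hκ
    · apply hfin (1 + κj) (by linarith) (by linarith) le_rfl
      have e1 : σ * (gi (1 + κj) - gj (1 + κj)) = ((σ * (τci - τi)) * (κi - κj) +
          κj * (σ * (τj - τi)) + κi * κj * (σ * (τj - τi))) / (1 + κi) := by
        simp only [hgi, hgj]
        have : (1 : ℝ) + κi ≠ 0 := by linarith
        have : (1 : ℝ) + κj ≠ 0 := by linarith
        field_simp
        ring
      rw [e1]
      have : 0 ≤ (σ * (τci - τi)) * (κi - κj) := mul_nonneg hi'.le (by linarith)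
      positivity
    · apply hfin (1 + κi) (by linarith) le_rfl (by linarith)
      by_contra hcon
      push Not at hcon
      set lam := (1 + κi) / (1 + κj) with hlam
      have hj0 : τcj - τj ≠ 0 := by
        intro h; rw [h, mul_zero] at hj'; exact lt_irrefl _ hj'
      have hσ0 : σ ≠ 0 := by
        intro h; rw [h, zero_mul] at hc; exact lt_irrefl _ hc
      set β := κi * (τj - τi) / (τcj - τj) with hβ
      set α := 1 - lam - β with hα
      have hlam0 : 0 < lam := by positivity
      have hlam1 : lam < 1 := by rw [hlam, div_lt_one (by linarith)]; linarith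
      have hβ0 : 0 < β := by
        have : β = κi * (σ * (τj - τi)) / (σ * (τcj - τj)) := by
          rw [hβ]; field_simp
        rw [this]; positivity
      have hf : σ * (gi (1 + κi) - gj (1 + κi)) = -(α * (σ * (τcj - τj))) := by
        simp only [hgi, hgj, hα, hβ, hlam]
        have : (1 : ℝ) + κi ≠ 0 := by linarith
        have : (1 : ℝ) + κj ≠ 0 := by linarith
        field_simp
        ring
      have hα0 : 0 ≤ α := by
        rw [hf] at hcon
        by_contra hneg
        push Not at hneg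
        have := mul_neg_of_neg_of_pos hneg hj'
        linarith
      have hζ : ζi = pt A M τj + lam • (ζj - pt A M τj) + β • (pt A M τcj - pt A M τj) := by
        have e1 : ζi = EE A M T (τj + lam * (-κj * τj - τj) + β * (τcj - τj)) (lam * (1 + κj)) := by
          rw [hζi]
          have e2 : lam * (1 + κj) = 1 + κi := by
            rw [hlam]; exact div_mul_cancel₀ _ (by linarith)
          have e3 : τj + lam * (-κj * τj - τj) + β * (τcj - τj) = -κi * τi := by
            have e4 : β * (τcj - τj) = κi * (τj - τi) := by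
              rw [hβ]; exact div_mul_cancel₀ _ hj0
            have e5 : lam * (-κj * τj - τj) = -(lam * (1 + κj)) * τj := by ring
            rw [e4, e5, e2]; ring
          rw [e2, e3]
        rw [e1, hζj]
        unfold EE pt
        simp only [Complex.real_smul]; push_cast; ring
      have hζfr : ζi ∈ frontier S.region :=
        S.edge_sub_frontier i.1 (S.oedge_sub i.1 (S.ep_mem di.t0 di.t1))
      apply frontier_not_int hζfr
      rcases hα0.eq_or_lt with h | h
      · -- on the beam
        apply dj.rvis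
        have e0 : β = 1 - lam := by rw [hα] at h; linarith
        have hcm := dj.cm
        rw [mem_openSegment_iff] at hcm ⊢
        obtain ⟨a, a0, a1, ha⟩ := hcm
        rw [← hζjd] at ha
        have e1 : ζi = pt (pt A M τcj) ζj lam := by
          rw [hζ, e0]
          unfold pt; simp only [Complex.real_smul]; push_cast; ring
        refine ⟨a + lam * (1 - a), ?_, ?_, ?_⟩
        · have := mul_pos hlam0 (show 0 < 1 - a by linarith)
          linarith
        · nlinarith
        · rw [e1, ha]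
          unfold pt; simp only [Complex.real_smul]; push_cast; ring
      · -- in the triangle
        rw [hζ]
        have hkk : segment ℝ (pt A M τj) (pt A M τcj) ⊆ S.region :=
          ((kap_convex S.reg hA hseg).segment_subset (S.ray_kap hseg dj.xr).1 dj.ck).trans kap_sub
        apply fill_int S.reg _ _ _ hkk hlam0 hβ0
        · rw [hα] at h; linarith
        · have e1 : ori (pt A M τj) ζj (pt A M τcj) =
              -(τcj - τj) * cr (M - A) (ζj - A) := by
            unfold ori cr
            simp only [pt_re, pt_im, Complex.sub_re, Complex.sub_im]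
            ring
          rw [e1]
          exact mul_ne_zero (neg_ne_zero.2 hj0) dj.zoff
        · rw [segment_symm]; exact dj.seg
        · refine subset_trans ?_ (seg_of_svis S.reg.closed (svis_symm dj.rvis))
          refine (convex_segment _ _).segment_subset (left_mem_segment ℝ _ _) ?_
          rw [segment_symm]; exact openSegment_subset_segment _ _ _ dj.cm
  refine ⟨h, h / (1 + κi), h / (1 + κj), EE A M T (gi h) h, h0, by positivity,
    by rw [div_lt_one (by linarith)]; exact hhi, by positivity,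
    by rw [div_lt_one (by linarith)]; exact hhj, (hpi h).symm, ?_, hcrE _ _, hcr0⟩
  rw [hpj h, hh]

/-- points between two crossings of the same label are lit one step earlier -/
theorem SimplePolygon.exits_between {p A D : ℂ} {m : ZMod n} {i j : Item n}
    {τxi τxj σ εi εj ti τi τci tj τj τcj τb : ℝ} {ρi ρj : ℂ} (hA : A ≠ S.v m)
    (hseg : segment ℝ A (S.v m) ⊆ S.region) (hT : i.2.1 = j.2.1)
    (di : S.ExitData p A D m i τxi σ εi ti τi τci ρi)
    (dj : S.ExitData p A D m j τxj σ εj tj τj τcj ρj) (hx : 0 < σ * (τj - τi))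
    (hb1 : 0 < σ * (τb - τci)) (hb2 : 0 < σ * (τcj - τb)) :
    pt A (S.v m) τb ∈ S.lev p 2 := by
  have hc : 0 < σ * (τcj - τci) := by
    have : σ * (τcj - τci) = σ * (τb - τci) + σ * (τcj - τb) := by ring
    rw [this]; linarith
  obtain ⟨X, a1, a2, Y, hX0, ha10, ha11, ha20, ha21, hY1, hY2, hYcr, hcr0⟩ :=
    S.beams hA hseg hT di dj hx hc
  have hσ0 : σ ≠ 0 := by
    intro h; rw [h, zero_mul] at hc; exact lt_irrefl _ hc
  have hcc : τcj - τci ≠ 0 := by
    intro h; rw [h, mul_zero] at hc; exact lt_irrefl _ hc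
  set M := S.v m with hM
  set ci := pt A M τci with hci
  set cj := pt A M τcj with hcj
  set ζi := S.ep i.1 ti with hζi
  set ζj := S.ep j.1 tj with hζj
  have key : ∀ {ρ ζ c : ℂ} {a : ℝ}, c ∈ openSegment ℝ ρ ζ → svis S.region ρ ζ → 0 < a → a < 1 →
      Y = pt c ζ a → ∃ α, 0 < α ∧ α < 1 ∧ c = pt Y ρ α ∧ Y ∈ openSegment ℝ ρ ζ := by
    intro ρ ζ c a hc hv a0 a1 hY
    rw [mem_openSegment_iff] at hc
    obtain ⟨b, b0, b1, hb⟩ := hc
    have hx : 0 < b + a * (1 - b) := by
      have := mul_pos a0 (show 0 < 1 - b by linarith)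
      linarith
    have hx1 : b + a * (1 - b) < 1 := by nlinarith
    have hYx : Y = pt ρ ζ (b + a * (1 - b)) := by
      rw [hY, hb]; unfold pt; simp only [Complex.real_smul]; push_cast; ring
    refine ⟨a * (1 - b) / (b + a * (1 - b)), div_pos (mul_pos a0 (by linarith)) hx, ?_, ?_, ?_⟩
    · rw [div_lt_one hx]; linarith
    · rw [hYx, hb]
      have h1 := pt_pt_pt ρ ζ (b + a * (1 - b)) 0 (a * (1 - b) / (b + a * (1 - b)))
      rw [pt_zero] at h1
      rw [h1]
      congr 1
      have : a * (1 - b) / (b + a * (1 - b)) * (0 - (b + a * (1 - b))) = -(a * (1 - b)) := by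
        rw [zero_sub, mul_neg, div_mul_cancel₀ _ hx.ne']
      rw [this]; ring
    · rw [hYx]; exact pt_mem_openSegment hx hx1
  obtain ⟨α1, h10, h11, hc1, hYm1⟩ := key di.cm di.rvis ha10 ha11 hY1
  obtain ⟨α2, h20, h21, hc2, hYm2⟩ := key dj.cm dj.rvis ha20 ha21 hY2
  have hYint : Y ∈ interior S.region := di.rvis hYm1
  have hsub : ∀ {ρ ζ : ℂ}, svis S.region ρ ζ → Y ∈ openSegment ℝ ρ ζ →
      openSegment ℝ Y ρ ⊆ interior S.region := by
    intro ρ ζ hv hm z hz
    apply hv
    rw [openSegment_symm] at hz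
    rw [mem_openSegment_iff] at hm hz ⊢
    obtain ⟨a, a0, a1, ha⟩ := hm
    obtain ⟨b, b0, b1, hb⟩ := hz
    exact ⟨b * a, by positivity, by nlinarith, by rw [hb, ha, pt_pt]⟩
  have hkk : segment ℝ ci cj ⊆ S.region :=
    ((kap_convex S.reg hA hseg).segment_subset di.ck dj.ck).trans kap_sub
  have hs0 : 0 < (τb - τci) / (τcj - τci) := by
    rw [← mul_div_mul_left _ _ hσ0]; exact div_pos hb1 hc
  have hs1 : (τb - τci) / (τcj - τci) < 1 := by
    rw [← mul_div_mul_left _ _ hσ0, div_lt_one hc]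
    have : σ * (τcj - τci) = σ * (τb - τci) + σ * (τcj - τb) := by ring
    rw [this]; linarith
  have hbe : pt A M τb = pt ci cj ((τb - τci) / (τcj - τci)) := by
    rw [hci, hcj, pt_pt_pt, div_mul_cancel₀ _ hcc]; congr 1; ring
  have hcr : cr (ρi - Y) (ρj - Y) ≠ 0 := by
    have hc1' : ci = pt Y ρi α1 := hc1
    have hc2' : cj = pt Y ρj α2 := hc2
    have e1 : ci - Y = α1 • (ρi - Y) := by rw [hc1', pt_sub_left]
    have e2 : cj - Y = α2 • (ρj - Y) := by rw [hc2', pt_sub_left]
    have e3 : cr (ci - Y) (cj - Y) = α1 * (α2 * cr (ρi - Y) (ρj - Y)) := by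
      rw [e1, e2, cr_smul_left, cr_smul_right]
    intro h0
    rw [h0, mul_zero, mul_zero] at e3
    have e4 : cr (ci - Y) (cj - Y) = (τcj - τci) * cr (M - A) (Y - A) := by
      rw [hci, hcj]
      unfold cr
      simp only [pt_re, pt_im, Complex.sub_re, Complex.sub_im]
      ring
    rw [e4, hYcr] at e3
    exact (mul_ne_zero hcc (mul_ne_zero hX0.ne' hcr0)) e3
  have hL := loop S.reg (b := pt A M τb) h10 h11 h20 h21 hs0 hs1 hcr hYint (hsub di.rvis hYm1)
    (hsub dj.rvis hYm2) (by rw [← hc1, ← hc2]; exact hkk) (by rw [← hc1, ← hc2]; exact hbe)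
    (S.svis_of_lev_one di.rlit) (S.svis_of_lev_one dj.rlit)
  have hbR : pt A M τb ∈ S.region := by
    rw [hbe]; exact hkk (pt_mem_segment hs0.le hs1.le)
  rcases hL with g | g | g
  · exact ⟨hbR, Or.inr ⟨ρi, di.rlit, di.redge, g⟩⟩
  · exact ⟨hbR, Or.inr ⟨ρj, dj.rlit, dj.redge, g⟩⟩
  · exact ⟨hbR, Or.inl g⟩

end Run7.h395
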