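import Pool.Agent.Run7.h395.LocG

/-!
# Counting the relevant windows that cross a given window
-/

open Set Topology Filter Complex

noncomputable section

namespace Run7.h395

variable {n : ℕ} (S : SimplePolygon n)

variable {S} in
lemma SimplePolygon.ExitData.mono {p A D : ℂ} {m : ZMod n} {i : Item n}
    {τx σ ε ε' t' τ' τc : ℝ} {ρ : ℂ} (h : S.ExitData p A D m i τx σ ε t' τ' τc ρ)
    (hε : ε ≤ ε') : S.ExitData p A D m i τx σ ε' t' τ' τc ρ :=
  ⟨h.near.trans_le hε, h.t0, h.t1, h.lcs, h.lit, h.win, h.rlit, h.redge, h.rvis,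
    h.nearx.trans_le hε, h.mT, h.seg, h.xr, h.ck, h.cm, h.ord, h.zside, h.zoff⟩

/-- crossing windows with the same label have different crossing points -/
lemma SimplePolygon.crs_ne {p A : ℂ} {m : ZMod n} {b : Bool} {i j : Item n} {x : ℂ}
    (hi : S.Crs p A m b i x) (hj : S.Crs p A m b j x) (hlab : lab i = lab j) : i = j := by
  apply item_ext hlab
  by_contra hne
  have he : i.1 = j.1 := congrArg (fun l => l.1) hlab
  have hT : i.2.1 = j.2.1 := congrArg (fun l => l.2.1) hlab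
  obtain ⟨r1, r10, r11, hr1, -⟩ := hi.offT
  obtain ⟨r2, r20, r21, hr2, -⟩ := hj.offT
  rw [← he, ← hT] at hr2
  set T := S.v i.2.1 with hTd
  set z1 := S.ep i.1 (tt i) with hz1
  set z2 := S.ep i.1 (tt j) with hz2
  have hTx : T - x ≠ 0 := by
    intro h
    have : T = x := sub_eq_zero.1 h
    exact frontier_not_int (S.v_frontier i.2.1) (by rw [← hTd, this]; exact hi.xi)
  have e1 : T - x = (1 - r1) • (z1 - x) := by
    rw [hr1]; unfold pt; simp only [Complex.real_smul]; push_cast; ring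
  have e2 : T - x = (1 - r2) • (z2 - x) := by
    rw [hr2]; unfold pt; simp only [Complex.real_smul]; push_cast; ring
  have c1 : cr (T - x) (z1 - x) = 0 := by rw [e1, cr_smul_left, cr_self, mul_zero]
  have c2 : cr (T - x) (z2 - x) = 0 := by
    rw [e2, cr_smul_left, cr_self, mul_zero]
  have c3 : cr (T - x) (S.dir i.1) = 0 := by
    have h1 : (tt j - tt i) * cr (T - x) (S.dir i.1) = 0 := by
      rw [← cr_smul_right, ← S.ep_sub, ← hz1, ← hz2]
      have : z2 - z1 = (z2 - x) - (z1 - x) := by ring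
      rw [this, cr_sub_right, c1, c2, sub_zero]
    rcases mul_eq_zero.1 h1 with h | h
    · exact absurd (by linarith : tt i = tt j) hne
    · exact h
  obtain ⟨lam, hlam⟩ := parallel_of_cr hTx c3
  apply hi.rel.nol
  unfold SimplePolygon.onLine
  have e3 : S.v i.2.1 - S.v i.1 = (T - x) - (z1 - x) + (z1 - S.v i.1) := by rw [hTd]; ring
  rw [e3, cr_add_right, hz1, S.ep_sub_v, cr_smul_right, cr_self, mul_zero, add_zero, hlam,
    cr_smul_left, cr_sub_right, cr_self, ← hz1, c1]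
  ring

/-- two exits with the same vertex, of the same type, are impossible -/
theorem SimplePolygon.two_exits {p A D : ℂ} {m : ZMod n} {b : Bool} {i j : Item n}
    {τi τj σ : ℝ} (hB : S.Base A m b) (hσ : σ = 1 ∨ σ = -1) (hT : i.2.1 = j.2.1)
    (hij : 0 < σ * (τj - τi)) (hdi : pt A (S.v m) τi ∉ S.lev p 3)
    (hdj : pt A (S.v m) τj ∉ S.lev p 3)
    (h : ((∀ ε > 0, ∃ t' τ' τc ρ, S.ExitData p A D m i τi σ ε t' τ' τc ρ ∧
            0 < σ * (τc - τi)) ∧
          (∀ ε > 0, ∃ t' τ' τc ρ, S.ExitData p A D m j τj σ ε t' τ' τc ρ ∧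
            0 < σ * (τc - τj))) ∨
        ((∀ ε > 0, ∃ t' τ' τc ρ, S.ExitData p A D m i τi σ ε t' τ' τc ρ ∧
            σ * (τc - τi) < 0) ∧
          (∀ ε > 0, ∃ t' τ' τc ρ, S.ExitData p A D m j τj σ ε t' τ' τc ρ ∧
            σ * (τc - τj) < 0))) : False := by
  set g := σ * (τj - τi) / 2 with hg
  have hg0 : 0 < g := by rw [hg]; linarith
  rcases h with ⟨hi, hj⟩ | ⟨hi, hj⟩
  · obtain ⟨t1, τ1, c1, ρ1, d1, hc1⟩ := hi g hg0
    obtain ⟨t2, τ2, c2, ρ2, d2, hc2⟩ := hj g hg0
    have n1 := abs_lt.1 d1.nearx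
    have n2 := abs_lt.1 d2.nearx
    have k1 : 0 < σ * (τ2 - τ1) := by
      rcases hσ with h | h <;> rw [h] at hg hij ⊢ <;> linarith [n1.1, n1.2, n2.1, n2.2]
    have k2 : 0 < σ * (τj - τ1) := by
      rcases hσ with h | h <;> rw [h] at hg hij ⊢ <;> linarith [n1.1, n1.2]
    have k3 : 0 < σ * (τj - c1) := by
      by_contra hcon
      push Not at hcon
      rcases hcon.eq_or_lt with h | h
      · have hσ0 : σ ≠ 0 := by rcases hσ with h | h <;> rw [h] <;> norm_num
        have := (mul_eq_zero.1 h).resolve_left hσ0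
        have e : τj = c1 := by linarith
        apply hdj
        rw [e]
        exact S.lev_succ p 2 d1.clit
      · exact hdj (d1.between hB.ne hB.seg k2 (by
          have : σ * (c1 - τj) = -(σ * (τj - c1)) := by ring
          rw [this]; linarith)).2
    exact hdj (S.lev_succ p 2 (S.exits_between hB.ne hB.seg hT d1 d2 k1 k3 hc2))
  · obtain ⟨t1, τ1, c1, ρ1, d1, hc1⟩ := hi g hg0
    obtain ⟨t2, τ2, c2, ρ2, d2, hc2⟩ := hj g hg0
    have n1 := abs_lt.1 d1.nearx
    have n2 := abs_lt.1 d2.nearx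
    have k1 : 0 < σ * (τ2 - τ1) := by
      rcases hσ with h | h <;> rw [h] at hg hij ⊢ <;> linarith [n1.1, n1.2, n2.1, n2.2]
    have k2 : 0 < σ * (τi - c1) := by
      have : σ * (τi - c1) = -(σ * (c1 - τi)) := by ring
      rw [this]; linarith
    have k3 : 0 < σ * (c2 - τi) := by
      have := d2.ord
      rcases hσ with h | h <;> rw [h] at hg hij this ⊢ <;> linarith [n2.1, n2.2]
    exact hdi (S.lev_succ p 2 (S.exits_between hB.ne hB.seg hT d1 d2 k1 k2 k3))

/-- the relevant windows crossing a window, with the target on a fixed side -/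
theorem SimplePolygon.exit_count {p A D : ℂ} {m : ZMod n} {b : Bool} (hB : S.Base A m b)
    (hD : D ∈ S.ray A m) (hDi : D ∈ interior S.region) {τD σ : ℝ} (hσ : σ = 1 ∨ σ = -1)
    (hτD : D = pt A (S.v m) τD) (F : Finset (Item n)) (τx : Item n → ℝ)
    (hF : ∀ i ∈ F, S.Crs p A m b i (pt A (S.v m) (τx i)) ∧
      0 < sg i.2.2.1 * cr (S.v i.2.1 - S.ep i.1 (tt i)) (D - pt A (S.v m) (τx i)) ∧
      0 < σ * (τx i - τD) ∧ pt A (S.v m) (τx i) ∉ S.lev p 3) :
    F.card ≤ 28 * S.nIn A m + 6 := by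
  classical
  have hσ0 : σ ≠ 0 := by rcases hσ with h | h <;> rw [h] <;> norm_num
  set N : Item n → Prop := fun i => ∀ ε > 0, ∃ t' τ' τc ρ,
    S.ExitData p A D m i (τx i) σ ε t' τ' τc ρ ∧ 0 < σ * (τc - τx i) with hN
  set Q : Item n → Prop := fun i => ∀ ε > 0, ∃ t' τ' τc ρ,
    S.ExitData p A D m i (τx i) σ ε t' τ' τc ρ ∧ σ * (τc - τx i) < 0 with hQ
  set F0 := F.filter (fun i => ¬ S.Exit p A m i) with hF0
  set F1 := F.filter (fun i => N i) with hF1
  set F2 := F.filter (fun i => Q i) with hF2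
  have hcov : F ⊆ F0 ∪ (F1 ∪ F2) := by
    intro i hi
    by_cases hex : S.Exit p A m i
    · apply Finset.mem_union_right
      obtain ⟨hc, hobs, hs, hd⟩ := hF i hi
      by_cases hNi : N i
      · exact Finset.mem_union_left _ (Finset.mem_filter.2 ⟨hi, hNi⟩)
      · apply Finset.mem_union_right _ (Finset.mem_filter.2 ⟨hi, ?_⟩)
        simp only [hN] at hNi
        push Not at hNi
        obtain ⟨ε0, hε0, hno⟩ := hNi
        intro ε hε
        obtain ⟨t', τ', τc, ρ, hdat⟩ := S.exit_data (ε := min ε ε0) hB hc hD hDi hobs rfl hτD hs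
          hex (lt_min hε hε0)
        refine ⟨t', τ', τc, ρ, hdat.mono (min_le_left _ _), ?_⟩
        have h1 := hno t' τ' τc ρ (hdat.mono (min_le_right _ _))
        refine lt_of_le_of_ne h1 ?_
        intro h2
        have h3 := (mul_eq_zero.1 h2).resolve_left hσ0
        have h4 : τc = τx i := by linarith
        apply hd
        rw [← h4]
        exact S.lev_succ p 2 hdat.clit
    · exact Finset.mem_union_left _ (Finset.mem_filter.2 ⟨hi, hex⟩)
  have c0 : F0.card ≤ 20 * S.nIn A m + 4 := by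
    apply S.nonexit_count (p := p) hB hD hDi
    · intro i hi
      obtain ⟨hc, hobs, -, -⟩ := hF i (Finset.mem_filter.1 hi).1
      exact ⟨_, hc, hobs⟩
    · intro i hi
      exact (Finset.mem_filter.1 hi).2
  -- labels of exits
  have hlab : ∀ G : Finset (Item n), G ⊆ F → (∀ i ∈ G, ∃ t' τ' τc ρ,
      S.ExitData p A D m i (τx i) σ 1 t' τ' τc ρ) →
      (∀ i ∈ G, ∀ j ∈ G, lab i = lab j → 0 < σ * (τx j - τx i) → False) →
      G.card ≤ 4 * S.nIn A m + 1 := by
    intro G hGF hdat hno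
    have hinj : Set.InjOn lab (G : Set (Item n)) := by
      intro i hi j hj hl
      rcases lt_trichotomy (σ * (τx j - τx i)) 0 with h | h | h
      · exfalso
        apply hno j hj i hi hl.symm
        have : σ * (τx i - τx j) = -(σ * (τx j - τx i)) := by ring
        rw [this]; linarith
      · have h3 := (mul_eq_zero.1 h).resolve_left hσ0
        have h4 : τx j = τx i := by linarith
        have hcj := (hF j (hGF hj)).1
        rw [h4] at hcj
        exact S.crs_ne (hF i (hGF hi)).1 hcj hl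
      · exact absurd h (fun h => hno i hi j hj hl h)
    rw [← Finset.card_image_of_injOn hinj]
    apply S.loc_label hB.ne hB.seg (S.ray_kap hB.seg hD).1 hDi
    intro l hl
    obtain ⟨i, hi, rfl⟩ := Finset.mem_image.1 hl
    obtain ⟨hc, hobs, -, -⟩ := hF i (hGF hi)
    obtain ⟨t', τ', τc, ρ, hd⟩ := hdat i hi
    have hw := hc.win hD hDi hobs
    have hne : t' ≠ tt i := by
      intro h
      have := hd.lcs
      rw [h, sub_self, zero_mul] at this
      exact lt_irrefl _ this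
    refine ⟨⟨hc.rel.nol, ?_⟩, t', hd.t0, hd.t1, hd.win, hd.zside⟩
    rcases lt_or_gt_of_ne hne with h | h
    · exact ⟨t', tt i, hd.t0, h, hc.rel.t1, hd.win, hw⟩
    · exact ⟨tt i, t', hc.rel.t0, h, hd.t1, hw, hd.win⟩
  have c1 : F1.card ≤ 4 * S.nIn A m + 1 := by
    apply hlab F1 (Finset.filter_subset _ _)
    · intro i hi
      obtain ⟨t', τ', τc, ρ, hd, -⟩ := (Finset.mem_filter.1 hi).2 1 one_pos
      exact ⟨t', τ', τc, ρ, hd⟩
    · intro i hi j hj hl hlt
      have hi' := Finset.mem_filter.1 hi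
      have hj' := Finset.mem_filter.1 hj
      exact S.two_exits hB hσ (congrArg (fun l => l.2.1) hl) hlt (hF i hi'.1).2.2.2
        (hF j hj'.1).2.2.2 (Or.inl ⟨hi'.2, hj'.2⟩)
  have c2 : F2.card ≤ 4 * S.nIn A m + 1 := by
    apply hlab F2 (Finset.filter_subset _ _)
    · intro i hi
      obtain ⟨t', τ', τc, ρ, hd, -⟩ := (Finset.mem_filter.1 hi).2 1 one_pos
      exact ⟨t', τ', τc, ρ, hd⟩
    · intro i hi j hj hl hlt
      have hi' := Finset.mem_filter.1 hi
      have hj' := Finset.mem_filter.1 hj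
      exact S.two_exits hB hσ (congrArg (fun l => l.2.1) hl) hlt (hF i hi'.1).2.2.2
        (hF j hj'.1).2.2.2 (Or.inr ⟨hi'.2, hj'.2⟩)
  have c3 := Finset.card_le_card hcov
  have c4 := Finset.card_union_le F0 (F1 ∪ F2)
  have c5 := Finset.card_union_le F1 F2
  omega

/-- the relevant windows crossing a window at dark points -/
theorem SimplePolygon.cross_count {p A : ℂ} {m : ZMod n} {b : Bool} (hB : S.Base A m b)
    (F : Finset (Item n)) (hF : ∀ i ∈ F, ∃ x, S.Crs p A m b i x ∧ x ∉ S.lev p 3) :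
    F.card ≤ 56 * S.nIn A m + 12 := by
  classical
  rcases F.eq_empty_or_nonempty with h | hne
  · rw [h]; simp
  choose! x hx hdx using hF
  have hτ : ∀ i ∈ F, ∃ τ : ℝ, 1 < τ ∧ x i = pt A (S.v m) τ := by
    intro i hi
    obtain ⟨τ, h1, h2, -⟩ := (hx i hi).xr
    exact ⟨τ, h1, h2⟩
  choose! τ hτ1 hxτ using hτ
  obtain ⟨i0, hi0, hmin⟩ := Finset.exists_min_image F τ hne
  obtain ⟨i1, hi1, hmax⟩ := Finset.exists_max_image F τ hne
  -- the near target
  have hvx : ∀ i ∈ F, svis S.region (S.v m) (x i) := by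
    intro i hi
    obtain ⟨-, -, -, h⟩ := (hx i hi).xr
    exact h
  set τ1 := (1 + τ i0) / 2 with hτ1d
  have h11 := hτ1 i0 hi0
  have hD1m : pt A (S.v m) τ1 ∈ openSegment ℝ (S.v m) (x i0) := by
    rw [mem_openSegment_iff]
    refine ⟨1 / 2, by norm_num, by norm_num, ?_⟩
    rw [hxτ i0 hi0]
    have := pt_pt_pt A (S.v m) 1 (τ i0) (1 / 2)
    rw [pt_one] at this
    rw [this, hτ1d]; congr 1; ring
  have hD1i : pt A (S.v m) τ1 ∈ interior S.region := hvx i0 hi0 hD1m
  have hD1r : pt A (S.v m) τ1 ∈ S.ray A m := by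
    refine ⟨τ1, by rw [hτ1d]; linarith, rfl, ?_⟩
    intro z hz
    apply hvx i0 hi0
    rw [mem_openSegment_iff] at hD1m hz ⊢
    obtain ⟨a, a0, a1, ha⟩ := hD1m
    obtain ⟨c, c0, c1, hc⟩ := hz
    exact ⟨c * a, by positivity, by nlinarith, by rw [hc, ha, pt_pt]⟩
  -- the far target
  obtain ⟨τ2, hτ2, hD2i, hD2v⟩ : ∃ τ2, τ i1 < τ2 ∧ pt A (S.v m) τ2 ∈ interior S.region ∧
      svis S.region (S.v m) (pt A (S.v m) τ2) := by
    have hc : ContinuousAt (fun t => pt A (S.v m) t) (τ i1) := (continuous_pt _ _).continuousAt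
    have h1 := (hx i1 hi1).xi
    have h2 := S.svis_int_open h1 (hvx i1 hi1)
    have h3 := isOpen_interior.mem_nhds h1
    rw [hxτ i1 hi1] at h2 h3
    have h4 := (hc.eventually h3).and (hc.eventually h2)
    have h5 : ∀ᶠ t in 𝓝[>] (τ i1), pt A (S.v m) t ∈ interior S.region ∧
        svis S.region (S.v m) (pt A (S.v m) t) := mem_nhdsWithin_of_mem_nhds h4
    obtain ⟨t, ⟨h6, h7⟩, h8⟩ := (h5.and self_mem_nhdsWithin).exists
    exact ⟨t, h8, h6, h7⟩
  have hD2r : pt A (S.v m) τ2 ∈ S.ray A m := ⟨τ2, by linarith [hτ1 i1 hi1], rfl, hD2v⟩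
  -- the two groups
  set G : ℝ → Finset (Item n) := fun t => F.filter (fun i =>
    0 < sg i.2.2.1 * cr (S.v i.2.1 - S.ep i.1 (tt i)) (pt A (S.v m) t - x i)) with hG
  have hcov : F ⊆ G τ1 ∪ G τ2 := by
    intro i hi
    have hc := hx i hi
    have htr : cr (S.v i.2.1 - S.ep i.1 (tt i)) (S.v m - A) ≠ 0 := by
      obtain ⟨r, r0, r1, -, hcrT⟩ := hc.offT
      have e1 : S.v i.2.1 - S.ep i.1 (tt i) = (S.v i.2.1 - A) - (S.ep i.1 (tt i) - A) := by ring
      rw [cr_swap, e1, cr_sub_right, hcrT]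
      have e2 : -((1 - r) * cr (S.v m - A) (S.ep i.1 (tt i) - A) -
          cr (S.v m - A) (S.ep i.1 (tt i) - A)) = r * cr (S.v m - A) (S.ep i.1 (tt i) - A) := by
        ring
      rw [e2]
      apply mul_ne_zero r0.ne'
      intro h0
      have := hc.side
      rw [h0, mul_zero] at this
      exact lt_irrefl _ this
    have hsgn : ∀ t, sg i.2.2.1 * cr (S.v i.2.1 - S.ep i.1 (tt i)) (pt A (S.v m) t - x i) =
        (t - τ i) * (sg i.2.2.1 * cr (S.v i.2.1 - S.ep i.1 (tt i)) (S.v m - A)) := by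
      intro t
      rw [hxτ i hi, pt_sub_pt, cr_smul_right]; ring
    have hb1 : τ1 - τ i < 0 := by
      have := hmin i hi
      rw [hτ1d]; linarith
    have hb2 : 0 < τ2 - τ i := by
      have := hmax i hi
      linarith
    have hne0 : sg i.2.2.1 * cr (S.v i.2.1 - S.ep i.1 (tt i)) (S.v m - A) ≠ 0 :=
      mul_ne_zero (sg_ne _) htr
    rcases lt_or_gt_of_ne hne0 with h | h
    · apply Finset.mem_union_left _ (Finset.mem_filter.2 ⟨hi, ?_⟩)
      rw [hsgn]; exact mul_pos_of_neg_of_neg hb1 h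
    · apply Finset.mem_union_right _ (Finset.mem_filter.2 ⟨hi, ?_⟩)
      rw [hsgn]; exact mul_pos hb2 h
  have c1 : (G τ1).card ≤ 28 * S.nIn A m + 6 := by
    apply S.exit_count (p := p) hB hD1r hD1i (σ := 1) (Or.inl rfl) rfl (G τ1) τ
    intro i hi
    obtain ⟨hi, hobs⟩ := Finset.mem_filter.1 hi
    rw [← hxτ i hi]
    refine ⟨hx i hi, hobs, ?_, hdx i hi⟩
    have := hmin i hi
    rw [hτ1d]; linarith
  have c2 : (G τ2).card ≤ 28 * S.nIn A m + 6 := by
    apply S.exit_count (p := p) hB hD2r hD2i (σ := -1) (Or.inr rfl) rfl (G τ2) τ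
    intro i hi
    obtain ⟨hi, hobs⟩ := Finset.mem_filter.1 hi
    rw [← hxτ i hi]
    refine ⟨hx i hi, hobs, ?_, hdx i hi⟩
    have := hmax i hi
    linarith
  have c3 := Finset.card_le_card hcov
  have c4 := Finset.card_union_le (G τ1) (G τ2)
  omega

end Run7.h395
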