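import Pool.Agent.Run7.h395.LocH

/-!
# The finite family of windows and its crossings
-/

open Set Topology Filter Complex

noncomputable section

namespace Run7.h395

variable {n : ℕ} (S : SimplePolygon n)

lemma SimplePolygon.ray_unique {A x : ℂ} {m m' : ZMod n} (h : x ∈ S.ray A m)
    (h' : x ∈ S.ray A m') : m = m' := by
  have key : ∀ {m m' : ZMod n} {τ τ' : ℝ}, 1 < τ → 1 < τ' → x = pt A (S.v m) τ →
      x = pt A (S.v m') τ' → svis S.region (S.v m') x → ¬ τ < τ' := by
    intro m m' τ τ' h1 h1' hx hx' hv hlt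
    have hτ0 : 0 < τ := by linarith
    have hτ0' : 0 < τ' := by linarith
    apply frontier_not_int (S.v_frontier m)
    apply hv
    rw [mem_openSegment_iff]
    have e1 : S.v m = pt A x (1 / τ) := by
      rw [hx, pt_pt, one_div_mul_cancel hτ0.ne', pt_one]
    have e2 : S.v m' = pt A x (1 / τ') := by
      rw [hx', pt_pt, one_div_mul_cancel hτ0'.ne', pt_one]
    have h3 : 1 / τ' < 1 / τ := one_div_lt_one_div_of_lt hτ0 hlt
    have h4 : 1 / τ' < 1 := by rw [div_lt_one hτ0']; exact h1'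
    have h5 : 1 / τ < 1 := by rw [div_lt_one hτ0]; exact h1
    refine ⟨(1 / τ - 1 / τ') / (1 - 1 / τ'), div_pos (by linarith) (by linarith), ?_, ?_⟩
    · rw [div_lt_one (by linarith)]; linarith
    · have h6 := pt_pt_pt A x (1 / τ') 1 ((1 / τ - 1 / τ') / (1 - 1 / τ'))
      rw [pt_one, ← e2, div_mul_cancel₀ _ (by linarith : 1 - 1 / τ' ≠ 0)] at h6
      rw [h6, e1]; congr 1; ring
  obtain ⟨τ, h1, h2, h3⟩ := h
  obtain ⟨τ', h1', h2', h3'⟩ := h'
  rcases lt_trichotomy τ τ' with hlt | heq | hlt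
  · exact absurd hlt (key h1 h1' h2 h2' h3')
  · apply S.v_inj
    have e1 : S.v m = pt A x (1 / τ) := by
      rw [h2, pt_pt, one_div_mul_cancel (by linarith), pt_one]
    have e2 : S.v m' = pt A x (1 / τ') := by
      rw [h2', pt_pt, one_div_mul_cancel (by linarith), pt_one]
    rw [e1, e2, heq]
  · exact absurd hlt (key h1' h1 h2' h2 h3)

lemma SimplePolygon.three_rays {A c : ℂ} {m m2 : ZMod n} {τ1 τ2 τ3 : ℝ} (hA : A ≠ S.v m)
    (hx1 : pt A (S.v m) τ1 ∈ S.ray A m) (hx3 : pt A (S.v m) τ3 ∈ S.ray A m)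
    (h1 : segment ℝ c (pt A (S.v m) τ1) ⊆ S.region)
    (h3 : segment ℝ c (pt A (S.v m) τ3) ⊆ S.region) (h12 : τ1 < τ2) (h23 : τ2 < τ3)
    (hc : cr (S.v m - A) (c - A) ≠ 0) (hx2 : pt A (S.v m) τ2 ∈ S.ray c m2) : False := by
  obtain ⟨τ, hτ, hxe, -⟩ := hx2
  have hτ0 : 0 < τ := by linarith
  have e1 : S.v m2 = pt c (pt A (S.v m) τ2) (1 / τ) := by
    rw [hxe, pt_pt, one_div_mul_cancel hτ0.ne', pt_one]
  set r := 1 / τ with hr
  have hr0 : 0 < r := by positivity
  have hr1 : r < 1 := by rw [hr, div_lt_one hτ0]; exact hτ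
  set s := (τ2 - τ1) / (τ3 - τ1) with hs
  have hs0 : 0 < s := div_pos (by linarith) (by linarith)
  have hs1 : s < 1 := by rw [hs, div_lt_one (by linarith)]; linarith
  have hτ2 : τ2 = τ1 + s * (τ3 - τ1) := by
    rw [hs, div_mul_cancel₀ _ (by linarith : τ3 - τ1 ≠ 0)]; ring
  have hbb : segment ℝ (pt A (S.v m) τ1) (pt A (S.v m) τ3) ⊆ S.region := by
    intro z hz
    obtain ⟨τz, -, -, hv⟩ := (S.ray_convex A m).segment_subset hx1 hx3 hz
    exact seg_of_svis S.reg.closed hv (right_mem_segment ℝ _ _)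
  apply frontier_not_int (S.v_frontier m2)
  have e2 : S.v m2 = c + (r * (1 - s)) • (pt A (S.v m) τ1 - c) +
      (r * s) • (pt A (S.v m) τ3 - c) := by
    rw [e1, hτ2]; unfold pt; simp only [Complex.real_smul]; push_cast; ring
  rw [e2]
  apply fill_int S.reg _ h1 hbb h3 (mul_pos hr0 (by linarith)) (mul_pos hr0 hs0)
  · nlinarith
  · have e3 : ori c (pt A (S.v m) τ1) (pt A (S.v m) τ3) =
        (τ3 - τ1) * cr (S.v m - A) (c - A) := by
      unfold ori cr
      simp only [pt_re, pt_im, Complex.sub_re, Complex.sub_im]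
      ring
    rw [e3]
    exact mul_ne_zero (by linarith) hc

/-- at most two rays of one origin cross a given ray -/
lemma SimplePolygon.origin_count {A c : ℂ} {m : ZMod n} (hA : A ≠ S.v m)
    (hc : cr (S.v m - A) (c - A) ≠ 0) (G : Finset (ZMod n))
    (hG : ∀ m' ∈ G, ∃ x, x ∈ S.ray A m ∧ x ∈ S.ray c m' ∧ segment ℝ c x ⊆ S.region) :
    G.card ≤ 2 := by
  classical
  rcases G.eq_empty_or_nonempty with h | hne
  · rw [h]; simp
  have hex : ∀ m' ∈ G, ∃ τ : ℝ, pt A (S.v m) τ ∈ S.ray A m ∧ pt A (S.v m) τ ∈ S.ray c m' ∧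
      segment ℝ c (pt A (S.v m) τ) ⊆ S.region := by
    intro m' hm'
    obtain ⟨x, h1, h2, h3⟩ := hG m' hm'
    obtain ⟨τ, -, hxe, -⟩ := id h1
    rw [hxe] at h1 h2 h3
    exact ⟨τ, h1, h2, h3⟩
  choose! τ h1 h2 h3 using hex
  obtain ⟨i0, hi0, hmin⟩ := Finset.exists_min_image G τ hne
  obtain ⟨i1, hi1, hmax⟩ := Finset.exists_max_image G τ hne
  have hsub : G ⊆ {i0, i1} := by
    intro m' hm'
    rw [Finset.mem_insert, Finset.mem_singleton]
    rcases (hmin m' hm').eq_or_lt with h | h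
    · left
      apply S.ray_unique (h2 m' hm')
      rw [← h]; exact h2 i0 hi0
    rcases (hmax m' hm').eq_or_lt with h' | h'
    · right
      apply S.ray_unique (h2 m' hm')
      rw [h']; exact h2 i1 hi1
    exact (S.three_rays hA (h1 i0 hi0) (h1 i1 hi1) (h3 i0 hi0) (h3 i1 hi1) h h' hc
      (h2 m' hm')).elim
  exact (Finset.card_le_card hsub).trans Finset.card_le_two

lemma SimplePolygon.vvc_in_unique {j m1 m2 : ZMod n} {z : ℂ} (hz : z ∈ S.region)
    (h1 : S.VVc j m1) (h2 : S.VVc j m2) (i1 : S.In (S.v j) m1 z) (i2 : S.In (S.v j) m2 z) :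
    m1 = m2 := by
  have hn1 : S.v j ≠ S.v m1 := fun h => h1.1 (S.v_inj h)
  have hn2 : S.v j ≠ S.v m2 := fun h => h2.1 (S.v_inj h)
  by_contra hne
  refine win_unique' S.reg hn1 hn2 ?_ (S.joined (h1.2.1 (left_mem_segment ℝ _ _)) hz) h1.2.1
    h2.2.1 i1 i2
  intro lam hlam he
  rcases lt_trichotomy lam 1 with h | h | h
  · apply h1.2.2 m2
    rw [mem_openSegment_iff]
    refine ⟨lam, hlam, h, ?_⟩
    unfold pt; rw [← he]; ring
  · rw [h, one_smul] at he
    exact hne (S.v_inj (sub_left_injective he)).symm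
  · apply h2.2.2 m1
    rw [mem_openSegment_iff]
    refine ⟨1 / lam, by positivity, by rw [div_lt_one hlam]; exact h, ?_⟩
    unfold pt
    rw [he, smul_smul, one_div_mul_cancel hlam.ne', one_smul]; ring

/-- indices of windows -/
abbrev Idx (n : ℕ) := Item n ⊕ ((ZMod n × ZMod n) ⊕ ZMod n)

/-- origin of a window -/
def SimplePolygon.org (p : ℂ) : Idx n → ℂ :=
  Sum.elim (fun i => S.ep i.1 (tt i)) (Sum.elim (fun x => S.v x.1) (fun _ => p))

/-- vertex of a window -/
def tgt : Idx n → ZMod n := Sum.elim (fun i => i.2.1) (Sum.elim (fun x => x.2) id)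

open Classical in
/-- the windows -/
def SimplePolygon.idx [NeZero n] (p : ℂ) (R : Finset (Item n)) : Finset (Idx n) :=
  R.disjSum ((Finset.univ.filter (fun x : ZMod n × ZMod n => S.VVc x.1 x.2)).disjSum
    (Finset.univ.filter (fun m => p ≠ S.v m ∧ segment ℝ p (S.v m) ⊆ S.region)))

lemma SimplePolygon.idx_seg [NeZero n] {p : ℂ} {R : Finset (Item n)}
    (hR : ∀ i ∈ R, S.Rel p 2 i) : ∀ w ∈ S.idx p R, S.org p w ≠ S.v (tgt w) ∧
      segment ℝ (S.org p w) (S.v (tgt w)) ⊆ S.region := by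
  classical
  intro w hw
  unfold SimplePolygon.idx at hw
  rw [Finset.mem_disjSum] at hw
  rcases hw with ⟨i, hi, rfl⟩ | ⟨w, hw, rfl⟩
  · have h := hR i hi
    refine ⟨?_, seg_of_svis S.reg.closed h.vis⟩
    intro he
    exact S.v_not_oedge i.2.1 i.1 (he ▸ S.ep_mem h.t0 h.t1)
  rw [Finset.mem_disjSum] at hw
  rcases hw with ⟨x, hx, rfl⟩ | ⟨m, hm, rfl⟩
  · have h := (Finset.mem_filter.1 hx).2
    exact ⟨fun he => h.1 (S.v_inj he), h.2.1⟩
  · exact (Finset.mem_filter.1 hm).2

lemma SimplePolygon.idx_mem [NeZero n] {p : ℂ} {R : Finset (Item n)}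
    (hR : ∀ i, S.Rel p 2 i → i ∈ R) {A : ℂ} {m : ZMod n} (hW : S.Wnd p 2 A m)
    (hA : A ≠ S.v m) (hseg : segment ℝ A (S.v m) ⊆ S.region) :
    ∃ w ∈ S.idx p R, S.org p w = A ∧ tgt w = m := by
  classical
  unfold SimplePolygon.idx
  rcases hW with rfl | ⟨j, rfl, h⟩ | ⟨i, hi, rfl, rfl⟩
  · refine ⟨Sum.inr (Sum.inr m), ?_, rfl, rfl⟩
    rw [Finset.mem_disjSum]
    right
    refine ⟨_, ?_, rfl⟩
    rw [Finset.mem_disjSum]
    right
    exact ⟨m, Finset.mem_filter.2 ⟨Finset.mem_univ _, hA, hseg⟩, rfl⟩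
  · refine ⟨Sum.inr (Sum.inl (j, m)), ?_, rfl, rfl⟩
    rw [Finset.mem_disjSum]
    right
    refine ⟨_, ?_, rfl⟩
    rw [Finset.mem_disjSum]
    left
    exact ⟨(j, m), Finset.mem_filter.2 ⟨Finset.mem_univ _, h⟩, rfl⟩
  · refine ⟨Sum.inl i, ?_, rfl, rfl⟩
    rw [Finset.mem_disjSum]
    left
    exact ⟨i, hR i hi, rfl⟩

lemma SimplePolygon.nIn_eq [NeZero n] [DecidableEq (ZMod n)] (A : ℂ) (m : ZMod n)
    [DecidablePred fun c => S.In A m (S.v c)] :
    S.nIn A m = (Finset.univ.filter (fun c => S.In A m (S.v c))).card := by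
  unfold SimplePolygon.nIn
  rw [← Set.ncard_coe_finset]
  congr 1
  ext c
  simp

lemma SimplePolygon.idx_card [NeZero n] {p : ℂ} {R : Finset (Item n)}
    (hR : ∀ i ∈ R, S.Rel p 2 i) : (S.idx p R).card ≤ 41 * n ^ 2 + n := by
  classical
  unfold SimplePolygon.idx
  rw [Finset.card_disjSum, Finset.card_disjSum]
  have c1 : R.card ≤ n * (20 * n * 2) := by
    have h1 : R.card = ∑ T : ZMod n, (R.filter (fun i => i.2.1 = T)).card := by
      rw [← Finset.card_eq_sum_card_fiberwise (f := fun i : Item n => i.2.1)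
        (t := Finset.univ) (fun x _ => Finset.mem_univ _)]
    rw [h1]
    calc ∑ T : ZMod n, (R.filter (fun i => i.2.1 = T)).card
        ≤ ∑ _T : ZMod n, 20 * n * 2 := by
          apply Finset.sum_le_sum
          intro T _
          apply S.rel_count T
          intro i hi
          exact ⟨hR i (Finset.mem_filter.1 hi).1, (Finset.mem_filter.1 hi).2⟩
      _ = n * (20 * n * 2) := by
          rw [Finset.sum_const, Finset.card_univ, ZMod.card, smul_eq_mul]
  have c2 : (Finset.univ.filter (fun x : ZMod n × ZMod n => S.VVc x.1 x.2)).card ≤ n * n := by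
    refine (Finset.card_filter_le _ _).trans ?_
    rw [Finset.card_univ, Fintype.card_prod, ZMod.card]
  have c3 : (Finset.univ.filter
      (fun m : ZMod n => p ≠ S.v m ∧ segment ℝ p (S.v m) ⊆ S.region)).card ≤ n := by
    refine (Finset.card_filter_le _ _).trans ?_
    rw [Finset.card_univ, ZMod.card]
  have e1 : 41 * n ^ 2 + n = n * (20 * n * 2) + (n * n + n) := by ring
  rw [e1]
  exact Nat.add_le_add c1 (Nat.add_le_add c2 c3)

/-- the pockets of all windows contain quadratically many vertices -/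
theorem SimplePolygon.sum_nIn [NeZero n] {p : ℂ} {R : Finset (Item n)}
    (hR : ∀ i ∈ R, S.Rel p 2 i) :
    ∑ w ∈ S.idx p R, S.nIn (S.org p w) (tgt w) ≤ 42 * n ^ 2 := by
  classical
  have hvR : ∀ c, S.v c ∈ S.region := fun c => S.edge_sub c (left_mem_segment ℝ _ _)
  have hsum : ∀ {α : Type} (s : Finset α) (f : α → ℂ) (g : α → ZMod n) (K : ℕ),
      (∀ c, (s.filter (fun a => S.In (f a) (g a) (S.v c))).card ≤ K) →
      ∑ a ∈ s, S.nIn (f a) (g a) ≤ n * K := by
    intro α s f g K hK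
    have h1 : ∑ a ∈ s, S.nIn (f a) (g a) =
        ∑ a ∈ s, ((Finset.univ : Finset (ZMod n)).bipartiteAbove
          (fun a c => S.In (f a) (g a) (S.v c)) a).card := by
      apply Finset.sum_congr rfl
      intro a _
      rw [S.nIn_eq]; rfl
    rw [h1, Finset.sum_card_bipartiteAbove_eq_sum_card_bipartiteBelow]
    calc _ ≤ ∑ _c : ZMod n, K := Finset.sum_le_sum (fun c _ => hK c)
      _ = n * K := by rw [Finset.sum_const, Finset.card_univ, ZMod.card, smul_eq_mul]
  unfold SimplePolygon.idx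
  rw [Finset.sum_disjSum, Finset.sum_disjSum]
  have c1 := hsum R (fun i => S.ep i.1 (tt i)) (fun i => i.2.1) (20 * n * 2) (by
    intro c
    apply S.rel_countD (p := p) (D := S.v c) (hvR c)
    · intro i hi; exact hR i (Finset.mem_filter.1 hi).1
    · intro i hi; exact (Finset.mem_filter.1 hi).2)
  have c2 := hsum (Finset.univ.filter (fun x : ZMod n × ZMod n => S.VVc x.1 x.2))
    (fun x => S.v x.1) (fun x => x.2) n (by
    intro c
    have hinj : Set.InjOn (fun x : ZMod n × ZMod n => x.1)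
        (((Finset.univ.filter (fun x : ZMod n × ZMod n => S.VVc x.1 x.2)).filter
          (fun x => S.In (S.v x.1) x.2 (S.v c)) : Finset (ZMod n × ZMod n)) :
            Set (ZMod n × ZMod n)) := by
      intro x hx y hy hxy
      have hx' := Finset.mem_filter.1 hx
      have hy' := Finset.mem_filter.1 hy
      have hx1 := (Finset.mem_filter.1 hx'.1).2
      have hy1 := (Finset.mem_filter.1 hy'.1).2
      have hxy' : x.1 = y.1 := hxy
      refine Prod.ext hxy' ?_
      have hx2 := hx'.2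
      have hy2 := hy'.2
      rw [← hxy'] at hy1 hy2
      exact S.vvc_in_unique (hvR c) hx1 hy1 hx2 hy2
    rw [← Finset.card_image_of_injOn hinj]
    refine (Finset.card_le_univ _).trans ?_
    rw [ZMod.card])
  have c3 := hsum (Finset.univ.filter
      (fun m : ZMod n => p ≠ S.v m ∧ segment ℝ p (S.v m) ⊆ S.region))
    (fun _ => p) (fun m => m) n (by
    intro c
    refine (Finset.card_le_univ _).trans ?_
    rw [ZMod.card])
  have e1 : 42 * n ^ 2 = n * (20 * n * 2) + (n * n + n * n) := by ring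
  rw [e1]
  exact Nat.add_le_add c1 (Nat.add_le_add c2 c3)

/-- the window `w` crosses the window `u` at a dark point, coming from its pocket -/
def SimplePolygon.EE' (p : ℂ) (u : Idx n × Bool) (w : Idx n) : Prop :=
  S.Base (S.org p u.1) (tgt u.1) u.2 ∧ ∃ x, x ∈ S.ray (S.org p u.1) (tgt u.1) ∧
    x ∈ interior S.region ∧ x ∈ S.ray (S.org p w) (tgt w) ∧ x ∉ S.lev p 3 ∧
    0 < sg u.2 * cr (S.v (tgt u.1) - S.org p u.1) (S.org p w - S.org p u.1)

open Classical in
theorem SimplePolygon.cross_idx [NeZero n] {p : ℂ} {R : Finset (Item n)}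
    (hR : ∀ i ∈ R, S.Rel p 2 i) (u : Idx n × Bool) :
    ((S.idx p R).filter (fun w => S.EE' p u w)).card ≤
      58 * S.nIn (S.org p u.1) (tgt u.1) + 14 := by
  by_cases hB : S.Base (S.org p u.1) (tgt u.1) u.2
  swap
  · have : (S.idx p R).filter (fun w => S.EE' p u w) = ∅ := by
      apply Finset.filter_false_of_mem
      intro w _ h
      exact hB h.1
    rw [this]; simp
  set A := S.org p u.1 with hA
  set m := tgt u.1 with hm
  have hseg := S.idx_seg hR
  have hoff : ∀ {c : ℂ}, 0 < sg u.2 * cr (S.v m - A) (c - A) → cr (S.v m - A) (c - A) ≠ 0 := by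
    intro c h h0
    rw [h0, mul_zero] at h
    exact lt_irrefl _ h
  -- the three parts
  have c1 : (R.filter (fun i => S.EE' p u (Sum.inl i))).card ≤ 56 * S.nIn A m + 12 := by
    apply S.cross_count (p := p) hB
    intro i hi
    obtain ⟨hi, -, x, h1, h2, h3, h4, h5⟩ := Finset.mem_filter.1 hi
    exact ⟨x, ⟨hR i hi, h1, h2, h3, h5⟩, h4⟩
  have c2 : ((Finset.univ.filter (fun x : ZMod n × ZMod n => S.VVc x.1 x.2)).filter
      (fun x => S.EE' p u (Sum.inr (Sum.inl x)))).card ≤ 2 * S.nIn A m := by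
    set G := (Finset.univ.filter (fun x : ZMod n × ZMod n => S.VVc x.1 x.2)).filter
      (fun x => S.EE' p u (Sum.inr (Sum.inl x))) with hG
    set t := Finset.univ.filter (fun c => S.In A m (S.v c)) with ht
    have hmaps : ∀ x ∈ G, x.1 ∈ t := by
      intro x hx
      obtain ⟨hx1, -, y, h1, h2, h3, h4, h5⟩ := Finset.mem_filter.1 hx
      have hV := (Finset.mem_filter.1 hx1).2
      refine Finset.mem_filter.2 ⟨Finset.mem_univ _, ?_⟩
      exact hB.inz h1 h5 (seg_of_kap (S.ray_kap hV.2.1 h3).1)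
    rw [Finset.card_eq_sum_card_fiberwise (f := fun x : ZMod n × ZMod n => x.1) (t := t)
      (fun x hx => hmaps x hx)]
    calc _ ≤ ∑ _c ∈ t, 2 := by
          apply Finset.sum_le_sum
          intro c _
          have hinj : Set.InjOn (fun x : ZMod n × ZMod n => x.2)
              ((G.filter (fun x => x.1 = c) : Finset (ZMod n × ZMod n)) :
                Set (ZMod n × ZMod n)) := by
            intro x hx y hy hxy
            have hx' := (Finset.mem_filter.1 hx).2
            have hy' := (Finset.mem_filter.1 hy).2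
            exact Prod.ext (hx'.trans hy'.symm) hxy
          rw [← Finset.card_image_of_injOn hinj]
          by_cases hne : (G.filter (fun x => x.1 = c)).Nonempty
          · obtain ⟨x0, hx0⟩ := hne
            obtain ⟨hx0G, hx0c⟩ := Finset.mem_filter.1 hx0
            obtain ⟨-, -, y, h1, h2, h3, h4, h5⟩ := Finset.mem_filter.1 hx0G
            have h5' : 0 < sg u.2 * cr (S.v m - A) (S.v c - A) := by
              rw [← hx0c]; exact h5
            apply S.origin_count hB.ne (hoff h5')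
            intro m' hm'
            obtain ⟨x, hx, rfl⟩ := Finset.mem_image.1 hm'
            obtain ⟨hxG, rfl⟩ := Finset.mem_filter.1 hx
            obtain ⟨hx1, -, y, h1, h2, h3, h4, h5⟩ := Finset.mem_filter.1 hxG
            have hV := (Finset.mem_filter.1 hx1).2
            exact ⟨y, h1, h3, seg_of_kap (S.ray_kap hV.2.1 h3).1⟩
          · rw [Finset.not_nonempty_iff_eq_empty] at hne
            rw [hne]; simp
      _ = 2 * S.nIn A m := by
          rw [Finset.sum_const, smul_eq_mul, S.nIn_eq, mul_comm]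
  have c3 : ((Finset.univ.filter
      (fun m' : ZMod n => p ≠ S.v m' ∧ segment ℝ p (S.v m') ⊆ S.region)).filter
      (fun m' => S.EE' p u (Sum.inr (Sum.inr m')))).card ≤ 2 := by
    set G := (Finset.univ.filter
      (fun m' : ZMod n => p ≠ S.v m' ∧ segment ℝ p (S.v m') ⊆ S.region)).filter
      (fun m' => S.EE' p u (Sum.inr (Sum.inr m'))) with hG
    by_cases hne : G.Nonempty
    · obtain ⟨x0, hx0⟩ := hne
      obtain ⟨-, -, y, h1, h2, h3, h4, h5⟩ := Finset.mem_filter.1 hx0
      apply S.origin_count hB.ne (hoff h5)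
      intro m' hm'
      obtain ⟨hx1, -, y, h1, h2, h3, h4, h5⟩ := Finset.mem_filter.1 hm'
      have hV := (Finset.mem_filter.1 hx1).2
      exact ⟨y, h1, h3, seg_of_kap (S.ray_kap hV.2 h3).1⟩
    · rw [Finset.not_nonempty_iff_eq_empty] at hne
      rw [hne]; simp
  have hcard : ((S.idx p R).filter (fun w => S.EE' p u w)).card =
      (R.filter (fun i => S.EE' p u (Sum.inl i))).card +
      (((Finset.univ.filter (fun x : ZMod n × ZMod n => S.VVc x.1 x.2)).filter
        (fun x => S.EE' p u (Sum.inr (Sum.inl x)))).card +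
      ((Finset.univ.filter
        (fun m' : ZMod n => p ≠ S.v m' ∧ segment ℝ p (S.v m') ⊆ S.region)).filter
        (fun m' => S.EE' p u (Sum.inr (Sum.inr m')))).card) := by
    unfold SimplePolygon.idx
    simp only [Finset.card_filter]
    rw [Finset.sum_disjSum, Finset.sum_disjSum]
  rw [hcard]
  omega

open Classical in
/-- the number of crossings of windows at dark points -/
theorem SimplePolygon.cross_sum [NeZero n] {p : ℂ} {R : Finset (Item n)}
    (hR : ∀ i ∈ R, S.Rel p 2 i) :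
    ∑ w ∈ S.idx p R, (((S.idx p R) ×ˢ (Finset.univ : Finset Bool)).filter
      (fun u => S.EE' p u w)).card ≤ 6048 * n ^ 2 + 28 * n := by
  have h1 : ∑ w ∈ S.idx p R, (((S.idx p R) ×ˢ (Finset.univ : Finset Bool)).filter
      (fun u => S.EE' p u w)).card =
      ∑ u ∈ (S.idx p R) ×ˢ (Finset.univ : Finset Bool),
        ((S.idx p R).filter (fun w => S.EE' p u w)).card := by
    have := Finset.sum_card_bipartiteAbove_eq_sum_card_bipartiteBelow
      (s := (S.idx p R) ×ˢ (Finset.univ : Finset Bool)) (t := S.idx p R)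
      (fun u w => S.EE' p u w)
    exact this.symm
  rw [h1]
  calc _ ≤ ∑ u ∈ (S.idx p R) ×ˢ (Finset.univ : Finset Bool),
        (58 * S.nIn (S.org p u.1) (tgt u.1) + 14) :=
        Finset.sum_le_sum (fun u _ => S.cross_idx hR u)
    _ = 2 * (58 * (∑ w ∈ S.idx p R, S.nIn (S.org p w) (tgt w)) + 14 * (S.idx p R).card) := by
        rw [Finset.sum_product]
        simp only [Finset.sum_const, Finset.card_univ, Fintype.card_bool, smul_eq_mul]
        rw [← Finset.mul_sum, Finset.sum_add_distrib, ← Finset.mul_sum, Finset.sum_const,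
          smul_eq_mul, mul_comm 14]
    _ ≤ 2 * (58 * (42 * n ^ 2) + 14 * (41 * n ^ 2 + n)) := by
        have := S.sum_nIn hR
        have := S.idx_card hR
        gcongr
    _ ≤ 6048 * n ^ 2 + 28 * n := by nlinarith [sq_nonneg n]

end Run7.h395
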