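import Pool.Agent.Run7.h395.LocI

/-!
# The dark region is locally convex; corners on a window
-/

open Set Topology Filter Complex

noncomputable section

namespace Run7.h395

variable {n : ℕ} (S : SimplePolygon n)

/-- a lit point of a small disk lights its whole chord towards the source -/
lemma SimplePolygon.chord {p x y : ℂ} {k : ℕ} {r0 : ℝ}
    (hball : Metric.ball x r0 ⊆ interior S.region) (hp : p ∉ Metric.ball x r0)
    (hy : y ∈ Metric.ball x r0) (hl : y ∈ S.lev p (k + 1)) :
    ∃ s : ℂ, s ∉ Metric.ball x r0 ∧ ∀ t : ℝ, pt y s t ∈ Metric.ball x r0 →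
      pt y s t ∈ S.lev p (k + 1) := by
  have key : ∀ s : ℂ, s ∉ Metric.ball x r0 → svis S.region s y → ∀ t : ℝ,
      pt y s t ∈ Metric.ball x r0 → svis S.region s (pt y s t) := by
    intro s hs hv t ht z hz
    have ht1 : t < 1 := by
      by_contra hcon
      push Not at hcon
      apply hs
      have : s = pt y (pt y s t) (1 / t) := by
        rw [pt_pt, one_div_mul_cancel (by linarith), pt_one]
      rw [this]
      apply (convex_ball x r0).segment_subset hy ht
      rw [mem_segment_iff]
      exact ⟨1 / t, by positivity, by rw [div_le_one (by linarith)]; exact hcon, rfl⟩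
    rw [openSegment_symm, mem_openSegment_iff] at hz
    obtain ⟨u, u0, u1, hu⟩ := hz
    have e1 : z = pt y s (t + u * (1 - t)) := by
      rw [hu]; unfold pt; simp only [Complex.real_smul]; push_cast; ring
    have hw1 : t + u * (1 - t) < 1 := by nlinarith
    rcases le_or_gt (t + u * (1 - t)) 0 with h | h
    · apply hball
      apply (convex_ball x r0).segment_subset hy ht
      have htneg : t < 0 := by
        have := mul_pos u0 (show 0 < 1 - t by linarith)
        linarith
      rw [mem_segment_iff]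
      refine ⟨(t + u * (1 - t)) / t, div_nonneg_of_nonpos h htneg.le, ?_, ?_⟩
      · rw [div_le_one_of_neg htneg]
        have := mul_pos u0 (show 0 < 1 - t by linarith)
        linarith
      · rw [pt_pt, div_mul_cancel₀ _ htneg.ne, e1]
    · apply hv
      rw [openSegment_symm, mem_openSegment_iff]
      exact ⟨_, h, hw1, e1⟩
  obtain ⟨-, h | ⟨s, hs1, ⟨e, hs2⟩, hs3⟩⟩ := hl
  · exact ⟨p, hp, fun t ht => ⟨interior_subset (hball ht), Or.inl (key p hp h t ht)⟩⟩
  · have hs : s ∉ Metric.ball x r0 := fun h =>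
      frontier_not_int (S.edge_sub_frontier e (S.oedge_sub e hs2)) (hball h)
    exact ⟨s, hs, fun t ht => ⟨interior_subset (hball ht),
      Or.inr ⟨s, hs1, ⟨e, hs2⟩, key s hs hs3 t ht⟩⟩⟩

/-- the dark directions at a dark point form a convex cone -/
lemma SimplePolygon.dark_cone {p x a b : ℂ} {k : ℕ} {ρ : ℝ} (hx : x ∈ interior S.region)
    (hxV : x ∉ S.lev p (k + 1)) (hρ : 0 < ρ)
    (ha : ∀ c : ℝ, 0 < c → c < ρ → x + c • a ∉ S.lev p (k + 1))
    (hb : ∀ c : ℝ, 0 < c → c < ρ → x + c • b ∉ S.lev p (k + 1)) (hab : cr a b ≠ 0) :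
    ∃ ρ' > 0, ∀ α β : ℝ, 0 ≤ α → α < ρ' → 0 ≤ β → β < ρ' →
      x + α • a + β • b ∉ S.lev p (k + 1) := by
  obtain ⟨r, hr, hball⟩ := Metric.isOpen_iff.1 isOpen_interior x hx
  have hpx : p ≠ x := by
    rintro rfl
    apply hxV
    refine ⟨interior_subset hx, Or.inl ?_⟩
    intro z hz
    rw [mem_openSegment_iff] at hz
    obtain ⟨t, -, -, rfl⟩ := hz
    have : pt p p t = p := by unfold pt; simp
    rw [this]; exact hx
  set r0 := min r (dist p x) with hr0
  have hr00 : 0 < r0 := lt_min hr (dist_pos.2 hpx)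
  have hball0 : Metric.ball x r0 ⊆ interior S.region :=
    (Metric.ball_subset_ball (min_le_left _ _)).trans hball
  have hp0 : p ∉ Metric.ball x r0 := by
    intro h
    have h1 : dist p x < r0 := h
    have h2 := min_le_right r (dist p x)
    linarith
  set M := ‖a‖ + ‖b‖ + 1 with hM
  have hM0 : 0 < M := by positivity
  refine ⟨min (ρ / 4) (r0 / (4 * M)), by positivity, ?_⟩
  intro α β hα0 hα hβ0 hβ hlit
  have hα1 : α < ρ / 4 := hα.trans_le (min_le_left _ _)
  have hβ1 : β < ρ / 4 := hβ.trans_le (min_le_left _ _)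
  have hα2 : α * (4 * M) < r0 := by
    rw [← lt_div_iff₀ (by positivity)]; exact hα.trans_le (min_le_right _ _)
  have hβ2 : β * (4 * M) < r0 := by
    rw [← lt_div_iff₀ (by positivity)]; exact hβ.trans_le (min_le_right _ _)
  have hna : ‖a‖ ≤ M := by rw [hM]; have := norm_nonneg b; linarith
  have hnb : ‖b‖ ≤ M := by rw [hM]; have := norm_nonneg a; linarith
  set y := x + α • a + β • b with hy
  have hyb : y ∈ Metric.ball x r0 := by
    rw [Metric.mem_ball, dist_eq_norm]
    have e1 : y - x = α • a + β • b := by rw [hy]; ring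
    rw [e1]
    have h1 := norm_add_le (α • a) (β • b)
    rw [norm_smul, norm_smul, Real.norm_eq_abs, Real.norm_eq_abs, abs_of_nonneg hα0,
      abs_of_nonneg hβ0] at h1
    have h2 : α * ‖a‖ ≤ α * M := mul_le_mul_of_nonneg_left hna hα0
    have h3 : β * ‖b‖ ≤ β * M := mul_le_mul_of_nonneg_left hnb hβ0
    nlinarith
  obtain ⟨s, hs, hch⟩ := S.chord hball0 hp0 hyb hlit
  have hdec := decomp hab (s - y)
  set γ := cr (s - y) b / cr a b with hγ
  set δ := cr a (s - y) / cr a b with hδ
  have hsy : s ≠ y := by rintro rfl; exact hs hyb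
  -- hitting the dark rays
  have hita : ∀ e : ℝ, 0 ≤ e → e ≤ 2 * α → ∀ t, pt y s t = x + e • a → False := by
    intro e he0 he1 t ht
    have hb' : x + e • a ∈ Metric.ball x r0 := by
      rw [Metric.mem_ball, dist_eq_norm, add_sub_cancel_left, norm_smul, Real.norm_eq_abs,
        abs_of_nonneg he0]
      have h2 : e * ‖a‖ ≤ 2 * α * M := mul_le_mul he1 hna (norm_nonneg _) (by positivity)
      nlinarith
    have h3 := hch t (by rw [ht]; exact hb')
    rw [ht] at h3
    rcases he0.eq_or_lt with h | h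
    · rw [← h, zero_smul, add_zero] at h3; exact hxV h3
    · exact ha e h (by linarith) h3
  have hitb : ∀ e : ℝ, 0 ≤ e → e ≤ 2 * β → ∀ t, pt y s t = x + e • b → False := by
    intro e he0 he1 t ht
    have hb' : x + e • b ∈ Metric.ball x r0 := by
      rw [Metric.mem_ball, dist_eq_norm, add_sub_cancel_left, norm_smul, Real.norm_eq_abs,
        abs_of_nonneg he0]
      have h2 : e * ‖b‖ ≤ 2 * β * M := mul_le_mul he1 hnb (norm_nonneg _) (by positivity)
      nlinarith
    have h3 := hch t (by rw [ht]; exact hb')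
    rw [ht] at h3
    rcases he0.eq_or_lt with h | h
    · rw [← h, zero_smul, add_zero] at h3; exact hxV h3
    · exact hb e h (by linarith) h3
  have hpt : ∀ t : ℝ, pt y s t = x + (α + t * γ) • a + (β + t * δ) • b := by
    intro t
    have : pt y s t = y + t • (s - y) := rfl
    rw [this, hdec, hy]
    simp only [Complex.real_smul]; push_cast; ring
  by_cases hA : δ ≠ 0 ∧ β * |γ| ≤ α * |δ|
  · obtain ⟨hδ0, hle⟩ := hA
    have hδa : 0 < |δ| := abs_pos.2 hδ0
    have hq : |β * γ / δ| ≤ α := by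
      rw [abs_div, abs_mul, abs_of_nonneg hβ0, div_le_iff₀ hδa]; exact hle
    have hq' := abs_le.1 hq
    apply hita (α - β * γ / δ) (by linarith [hq'.2]) (by linarith [hq'.1]) (-β / δ)
    rw [hpt]
    have e1 : β + -β / δ * δ = 0 := by rw [div_mul_cancel₀ _ hδ0]; ring
    have e2 : α + -β / δ * γ = α - β * γ / δ := by ring
    rw [e1, e2, zero_smul, add_zero]
  · have hB : γ ≠ 0 ∧ α * |δ| ≤ β * |γ| := by
      by_cases hδ0 : δ = 0
      · constructor
        · intro hγ0
          rw [hδ0, hγ0] at hdec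
          simp at hdec
          exact hsy (sub_eq_zero.1 hdec)
        · rw [hδ0, abs_zero, mul_zero]; positivity
      · have h1 : ¬ β * |γ| ≤ α * |δ| := fun h => hA ⟨hδ0, h⟩
        push Not at h1
        refine ⟨?_, h1.le⟩
        intro hγ0
        rw [hγ0, abs_zero, mul_zero] at h1
        have : 0 ≤ α * |δ| := by positivity
        linarith
    obtain ⟨hγ0, hle⟩ := hB
    have hγa : 0 < |γ| := abs_pos.2 hγ0
    have hq : |α * δ / γ| ≤ β := by
      rw [abs_div, abs_mul, abs_of_nonneg hα0, div_le_iff₀ hγa]; exact hle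
    have hq' := abs_le.1 hq
    apply hitb (β - α * δ / γ) (by linarith [hq'.2]) (by linarith [hq'.1]) (-α / γ)
    rw [hpt]
    have e1 : α + -α / γ * γ = 0 := by rw [div_mul_cancel₀ _ hγ0]; ring
    have e2 : β + -α / γ * δ = β - α * δ / γ := by ring
    rw [e1, e2, zero_smul, add_zero]

/-- along every line through a corner one of the two sides is lit -/
theorem SimplePolygon.corner_dir {p x d : ℂ} {k : ℕ} (hx : x ∈ interior S.region) (hd : d ≠ 0)
    (hxB : x ∈ frontier (S.lev p (k + 1)))
    (hnf : ¬ FlatDir (frontier (S.lev p (k + 1))) x d) :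
    (∃ ρ > 0, ∀ c : ℝ, 0 < c → c < ρ → x + c • d ∈ S.lev p (k + 1)) ∨
      (∃ ρ > 0, ∀ c : ℝ, 0 < c → c < ρ → x - c • d ∈ S.lev p (k + 1)) := by
  obtain ⟨r, hr, hball, hcon⟩ := S.conic p k hx
  have hxV : x ∉ S.lev p (k + 1) := fun h =>
    hxB.2 (mem_interior_iff_mem_nhds.2 (S.lev_int_open hx h))
  have hdn : 0 < ‖d‖ := norm_pos_iff.2 hd
  by_cases h1 : ∃ c : ℝ, c ≠ 0 ∧ |c| * ‖d‖ < r ∧ x + c • d ∈ S.lev p (k + 1)
  · obtain ⟨c, hc0, hcr, hcl⟩ := h1
    have hpt : ∀ t : ℝ, pt x (x + c • d) t = x + (t * c) • d := by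
      intro t; unfold pt; simp only [Complex.real_smul]; push_cast; ring
    have hdist : dist (x + c • d) x < r := by
      rw [dist_eq_norm, add_sub_cancel_left, norm_smul, Real.norm_eq_abs]; exact hcr
    rcases lt_or_gt_of_ne hc0 with h | h
    · right
      refine ⟨-c, by linarith, ?_⟩
      intro c' hc0' hc1'
      have h2 := (hcon _ hdist (-c' / c) (div_pos_of_neg_of_neg (by linarith) h)
        (by rw [div_le_one_of_neg h]; linarith)).1 hcl
      rw [hpt, div_mul_cancel₀ _ hc0] at h2
      rw [sub_eq_add_neg, ← neg_smul]; exact h2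
    · left
      refine ⟨c, h, ?_⟩
      intro c' hc0' hc1'
      have h2 := (hcon _ hdist (c' / c) (div_pos hc0' h)
        (by rw [div_le_one h]; exact hc1'.le)).1 hcl
      rwa [hpt, div_mul_cancel₀ _ hc0] at h2
  · exfalso
    rcases S.corner_cases hd hr hball hxB hnf with h2 | ⟨s, y, y', hy, hy', hs, hs', hyV, hyV'⟩
    · exact h1 h2
    push Not at h1
    -- the decomposition
    set c := cr d (y - x) / cr d (y' - x) with hc
    have hcr' : cr d (y' - x) ≠ 0 := by
      intro h; rw [h, mul_zero] at hs'; exact lt_irrefl _ hs'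
    have hc0 : 0 < c := by
      have : c = (sg s * cr d (y - x)) / (sg s * cr d (y' - x)) := by
        rw [hc, mul_div_mul_left _ _ (sg_ne s)]
      rw [this]; exact div_pos hs hs'
    have hcrz : cr d ((y - x) - c • (y' - x)) = 0 := by
      rw [cr_sub_right, cr_smul_right, hc, div_mul_cancel₀ _ hcr', sub_self]
    obtain ⟨β, hβ⟩ := parallel_of_cr hd hcrz
    -- reduce to a nonnegative coefficient
    obtain ⟨e, β', hβ'0, he, hecr, hedark⟩ : ∃ (e : ℂ) (β' : ℝ), 0 ≤ β' ∧
        y - x = c • (y' - x) + β' • e ∧ cr (y' - x) e ≠ 0 ∧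
        ∀ c', 0 < c' → c' < r / ‖d‖ → x + c' • e ∉ S.lev p (k + 1) := by
      have hy1 : y - x = c • (y' - x) + β • d := by rw [← hβ]; ring
      rcases le_or_gt 0 β with h | h
      · refine ⟨d, β, h, hy1, ?_, ?_⟩
        · rw [cr_swap]; exact neg_ne_zero.2 hcr'
        · intro c' h0 h1'
          apply h1 c' h0.ne'
          rw [abs_of_pos h0, ← lt_div_iff₀ hdn]; exact h1'
      · refine ⟨-d, -β, by linarith, ?_, ?_, ?_⟩
        · rw [hy1, smul_neg, neg_smul, neg_neg]
        · have : cr (y' - x) (-d) = cr d (y' - x) := by unfold cr; simp; ring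
          rw [this]; exact hcr'
        · intro c' h0 h1'
          have := h1 (-c') (by linarith) (by
            rw [abs_neg, abs_of_pos h0, ← lt_div_iff₀ hdn]; exact h1')
          rwa [neg_smul, ← smul_neg] at this
    obtain ⟨ρ', hρ', hdark⟩ := S.dark_cone (ρ := min 1 (r / ‖d‖)) hx hxV
      (lt_min one_pos (by positivity)) (a := y' - x) (b := e) (by
        intro c' h0 h1' hl
        apply hyV'
        have h3 : pt x y' c' ∈ S.lev p (k + 1) := hl
        exact (hcon y' hy' c' h0 (h1'.le.trans (min_le_left _ _))).2 h3)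
      (fun c' h0 h1' => hedark c' h0 (h1'.trans_le (min_le_right _ _))) hecr
    obtain ⟨ε, ε0, ε1, ε2⟩ : ∃ ε : ℝ, 0 < ε ∧ ε ≤ 1 ∧ ε * (c + β' + 1) < ρ' := by
      refine ⟨min 1 (ρ' / (2 * (c + β' + 1))), by positivity, min_le_left _ _, ?_⟩
      have h5 : 0 < c + β' + 1 := by positivity
      calc min 1 (ρ' / (2 * (c + β' + 1))) * (c + β' + 1)
          ≤ ρ' / (2 * (c + β' + 1)) * (c + β' + 1) :=
            mul_le_mul_of_nonneg_right (min_le_right _ _) h5.le
        _ = ρ' / 2 := by field_simp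
        _ < ρ' := by linarith
    apply hdark (ε * c) (ε * β') (by positivity) (by nlinarith) (by positivity) (by nlinarith)
    have h6 := (hcon y hy ε ε0 ε1).1 hyV
    have h7 : pt x y ε = x + (ε * c) • (y' - x) + (ε * β') • e := by
      have : pt x y ε = x + ε • (y - x) := rfl
      rw [this, he, smul_add, smul_smul, smul_smul, ← add_assoc]
    rwa [h7] at h6

end Run7.h395
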