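import Pool.Agent.Run7.h395.LocJ

/-!
# Corners on a window
-/

open Set Topology Filter Complex

noncomputable section

namespace Run7.h395

variable {n : ℕ} (S : SimplePolygon n)

open Classical in
/-- dark points of a window with a lit far side are crossings -/
theorem SimplePolygon.far_count [NeZero n] {p : ℂ} {R : Finset (Item n)}
    (hR : ∀ i, S.Rel p 2 i → i ∈ R) {w : Idx n} (X : Finset ℂ)
    (hX : ∀ x ∈ X, x ∈ S.ray (S.org p w) (tgt w) ∧ x ∈ interior S.region ∧ x ∉ S.lev p 3 ∧
      ∃ ρ > 0, ∀ c : ℝ, 0 < c → c < ρ → x + c • (S.v (tgt w) - S.org p w) ∈ S.lev p 3) :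
    X.card ≤ (((S.idx p R) ×ˢ (Finset.univ : Finset Bool)).filter
      (fun u => S.EE' p u w)).card := by
  set A := S.org p w with hA
  set N := S.v (tgt w) - A with hN
  have hex : ∀ x ∈ X, ∃ u ∈ ((S.idx p R) ×ˢ (Finset.univ : Finset Bool)).filter
      (fun u => S.EE' p u w), x ∈ S.ray (S.org p u.1) (tgt u.1) ∧
        0 < sg u.2 * cr (S.v (tgt u.1) - S.org p u.1) (A - S.org p u.1) := by
    intro x hx
    obtain ⟨hxr, hxi, hxd, hlit⟩ := hX x hx
    have hne := S.ray_ne hxr
    have hN0 : N ≠ 0 := sub_ne_zero.2 hne.symm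
    obtain ⟨τ, hτ, hxe, -⟩ := id hxr
    have hD : A = x - τ • N := by
      rw [hxe, hN]; unfold pt; ring
    obtain ⟨A', m, b, hW, h1, h2, h3, h4, -, h6⟩ := S.change_window (k := 2) hxi hxd hN0 hlit
      (by linarith : 0 < τ) hD
    have hseg : segment ℝ A' (S.v m) ⊆ S.region := by
      refine subset_trans ?_ h2
      refine (convex_segment _ _).segment_subset (left_mem_segment ℝ _ _) ?_
      obtain ⟨τ', hτ', hxe', -⟩ := h1
      rw [mem_segment_iff]
      refine ⟨1 / τ', by positivity, by rw [div_le_one (by linarith)]; linarith, ?_⟩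
      rw [hxe', pt_pt, one_div_mul_cancel (by linarith), pt_one]
    obtain ⟨u, hu, hu1, hu2⟩ := S.idx_mem hR hW h3 hseg
    refine ⟨(u, b), Finset.mem_filter.2 ⟨Finset.mem_product.2 ⟨hu, Finset.mem_univ _⟩, ?_⟩,
      ?_, ?_⟩
    · refine ⟨?_, x, ?_, hxi, hxr, hxd, ?_⟩
      · change S.Base (S.org p u) (tgt u) b
        rw [hu1, hu2]
        exact ⟨h3, hseg, h4⟩
      · change x ∈ S.ray (S.org p u) (tgt u)
        rw [hu1, hu2]; exact h1
      · change 0 < sg b * cr (S.v (tgt u) - S.org p u) (S.org p w - S.org p u)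
        rw [hu1, hu2]; exact h6
    · change x ∈ S.ray (S.org p u) (tgt u)
      rw [hu1, hu2]; exact h1
    · change 0 < sg b * cr (S.v (tgt u) - S.org p u) (A - S.org p u)
      rw [hu1, hu2]; exact h6
  choose! f hf1 hf2 hf3 using hex
  refine Finset.card_le_card_of_injOn f hf1 ?_
  intro x hx y hy hxy
  have hx' : x ∈ X := hx
  have hy' : y ∈ X := hy
  have h1 := hf2 x hx'
  have h2 := hf2 y hy'
  have h3 := hf3 x hx'
  rw [← hxy] at h2
  set B := S.org p (f x).1 with hB
  set M := S.v (tgt (f x).1) with hM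
  obtain ⟨τ1, -, e1, -⟩ := (hX x hx').1
  obtain ⟨τ2, -, e2, -⟩ := (hX y hy').1
  obtain ⟨σ1, -, g1, -⟩ := h1
  obtain ⟨σ2, -, g2, -⟩ := h2
  have c1 := cr_line g1
  have c2 := cr_line g2
  have hxA : x - A = τ1 • N := by rw [e1, pt_sub_left]
  have hyA : y - A = τ2 • N := by rw [e2, pt_sub_left]
  have k1 : cr (M - B) (x - B) = cr (M - B) (A - B) + τ1 * cr (M - B) N := by
    have : x - B = (A - B) + (x - A) := by ring
    rw [this, cr_add_right, hxA, cr_smul_right]
  have k2 : cr (M - B) (y - B) = cr (M - B) (A - B) + τ2 * cr (M - B) N := by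
    have : y - B = (A - B) + (y - A) := by ring
    rw [this, cr_add_right, hyA, cr_smul_right]
  rw [c1] at k1
  rw [c2] at k2
  have hne : cr (M - B) (A - B) ≠ 0 := by
    intro h0
    rw [h0, mul_zero] at h3
    exact lt_irrefl _ h3
  have hN' : cr (M - B) N ≠ 0 := by
    intro h0
    rw [h0, mul_zero, add_zero] at k1
    exact hne k1.symm
  have hττ : τ1 = τ2 := by
    have : (τ1 - τ2) * cr (M - B) N = 0 := by linarith
    rcases mul_eq_zero.1 this with h | h
    · linarith
    · exact absurd h hN'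
  rw [e1, e2, hττ]

open Classical in
/-- corners on a window -/
theorem SimplePolygon.corner_ray [NeZero n] {p : ℂ} {R : Finset (Item n)}
    (hR : ∀ i, S.Rel p 2 i → i ∈ R) {w : Idx n} (X : Finset ℂ)
    (hX : ∀ x ∈ X, x ∈ S.ray (S.org p w) (tgt w) ∧ x ∈ interior S.region ∧
      x ∈ frontier (S.lev p 3) ∧
      ¬ FlatDir (frontier (S.lev p 3)) x (S.v (tgt w) - S.org p w)) :
    X.card ≤ 2 * (((S.idx p R) ×ˢ (Finset.univ : Finset Bool)).filter
      (fun u => S.EE' p u w)).card + 1 := by
  set K := (((S.idx p R) ×ˢ (Finset.univ : Finset Bool)).filter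
      (fun u => S.EE' p u w)).card with hK
  set A := S.org p w with hA
  set M := S.v (tgt w) with hM
  set N := M - A with hN
  have hdark : ∀ x ∈ X, x ∉ S.lev p 3 := by
    intro x hx h
    obtain ⟨-, h1, h2, -⟩ := hX x hx
    exact h2.2 (mem_interior_iff_mem_nhds.2 (S.lev_int_open h1 h))
  set X1 := X.filter (fun x => ∃ ρ > 0, ∀ c : ℝ, 0 < c → c < ρ → x + c • N ∈ S.lev p 3) with hX1
  set X2 := X.filter (fun x => ∃ ρ > 0, ∀ c : ℝ, 0 < c → c < ρ → x - c • N ∈ S.lev p 3) with hX2
  have hcov : X ⊆ X1 ∪ X2 := by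
    intro x hx
    obtain ⟨h1, h2, h3, h4⟩ := hX x hx
    have hN0 : N ≠ 0 := sub_ne_zero.2 (S.ray_ne h1).symm
    rcases S.corner_dir (k := 2) h2 hN0 h3 h4 with h | h
    · exact Finset.mem_union_left _ (Finset.mem_filter.2 ⟨hx, h⟩)
    · exact Finset.mem_union_right _ (Finset.mem_filter.2 ⟨hx, h⟩)
  have c1 : X1.card ≤ K := by
    apply S.far_count hR
    intro x hx
    obtain ⟨hx1, hx2⟩ := Finset.mem_filter.1 hx
    exact ⟨(hX x hx1).1, (hX x hx1).2.1, hdark x hx1, hx2⟩
  have c2 : X2.card ≤ K + 1 := by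
    rcases X2.eq_empty_or_nonempty with he | hne
    · rw [he]; simp
    have hτ : ∀ x ∈ X2, ∃ τ : ℝ, 1 < τ ∧ x = pt A M τ := by
      intro x hx
      obtain ⟨τ, h1, h2, -⟩ := (hX x (Finset.mem_filter.1 hx).1).1
      exact ⟨τ, h1, h2⟩
    choose! τ hτ1 hxτ using hτ
    obtain ⟨xm, hxm, hmax⟩ := Finset.exists_max_image X2 τ hne
    have hex : ∀ x ∈ X2.erase xm, ∃ y : ℂ, ∃ σ : ℝ, y = pt A M σ ∧ τ x ≤ σ ∧
        (∀ x' ∈ X2, τ x < τ x' → σ < τ x') ∧ y ∈ S.ray A (tgt w) ∧ y ∈ interior S.region ∧
        y ∉ S.lev p 3 ∧ ∃ ρ > 0, ∀ c : ℝ, 0 < c → c < ρ → y + c • N ∈ S.lev p 3 := by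
      intro x hx
      obtain ⟨hxne, hx2⟩ := Finset.mem_erase.1 hx
      have hlt : τ x < τ xm := by
        refine lt_of_le_of_ne (hmax x hx2) ?_
        intro h
        apply hxne
        rw [hxτ x hx2, hxτ xm hxm, h]
      set L := X2.filter (fun x' => τ x < τ x') with hL
      have hLne : L.Nonempty := ⟨xm, Finset.mem_filter.2 ⟨hxm, hlt⟩⟩
      obtain ⟨x', hx', hmin⟩ := Finset.exists_min_image L τ hLne
      obtain ⟨hx'2, hx'lt⟩ := Finset.mem_filter.1 hx'
      obtain ⟨hx'X, ρ, hρ, hlit⟩ := Finset.mem_filter.1 hx'2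
      have hxX := (Finset.mem_filter.1 hx2).1
      -- the points in between
      have hbet : ∀ t, τ x ≤ t → t ≤ τ x' → pt A M t ∈ S.ray A (tgt w) ∧
          pt A M t ∈ interior S.region := by
        intro t h1 h2
        have hrx := (hX x hxX).1
        have hrx' := (hX x' hx'X).1
        have hmem : pt A M t ∈ segment ℝ x x' := by
          rw [mem_segment_iff]
          refine ⟨(t - τ x) / (τ x' - τ x), div_nonneg (by linarith) (by linarith), ?_, ?_⟩
          · rw [div_le_one (by linarith)]; linarith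
          · have h5 := pt_pt_pt A M (τ x) (τ x') ((t - τ x) / (τ x' - τ x))
            rw [div_mul_cancel₀ _ (by linarith : τ x' - τ x ≠ 0), ← hxτ x hx2,
              ← hxτ x' hx'2] at h5
            rw [h5]; congr 1; ring
        refine ⟨(S.ray_convex A (tgt w)).segment_subset hrx hrx' hmem, ?_⟩
        rcases h2.eq_or_lt with h | h
        · rw [h, ← hxτ x' hx'2]; exact (hX x' hx'X).2.1
        · obtain ⟨-, -, -, hv⟩ := hrx'
          apply hv
          rw [mem_openSegment_iff]
          have hx1 := hτ1 x hx2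
          refine ⟨(t - 1) / (τ x' - 1), div_pos (by linarith) (by linarith), ?_, ?_⟩
          · rw [div_lt_one (by linarith)]; linarith
          · have h5 := pt_pt_pt A M 1 (τ x') ((t - 1) / (τ x' - 1))
            rw [pt_one, ← hxτ x' hx'2, div_mul_cancel₀ _ (by linarith : τ x' - 1 ≠ 0)] at h5
            rw [← hM, h5]; congr 1; ring
      -- a lit point before the next one
      set c := min ρ (τ x' - τ x) / 2 with hc
      have hc0 : 0 < c := by
        have : 0 < min ρ (τ x' - τ x) := lt_min hρ (by linarith)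
        rw [hc]; linarith
      have hc1 : c < ρ := by
        have := min_le_left ρ (τ x' - τ x)
        have : 0 < min ρ (τ x' - τ x) := lt_min hρ (by linarith)
        rw [hc]; linarith
      have hc2 : c < τ x' - τ x := by
        have := min_le_right ρ (τ x' - τ x)
        have : 0 < min ρ (τ x' - τ x) := lt_min hρ (by linarith)
        rw [hc]; linarith
      set tz := τ x' - c with htz
      have hz : pt A M tz ∈ S.lev p 3 := by
        have h1 := hlit c hc0 hc1
        have h2 : x' - c • N = pt A M tz := by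
          rw [hxτ x' hx'2, htz, hN]; unfold pt
          simp only [Complex.real_smul]; push_cast; ring
        rwa [h2] at h1
      -- the last dark point
      set Kd : Set ℝ := Icc (τ x) tz ∩ {t | pt A M t ∉ S.lev p 3} with hKd
      have hcl : IsClosed Kd := by
        apply isClosed_of_closure_subset
        intro t ht
        have htI : t ∈ Icc (τ x) tz :=
          isClosed_Icc.closure_subset_iff.2 (fun s hs => hs.1) ht
        refine ⟨htI, ?_⟩
        intro hl
        have hi := (hbet t htI.1 (by rw [htz] at htI; linarith [htI.2])).2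
        have ho := (continuous_pt A M).continuousAt.eventually_mem
          (x := t) (S.lev_int_open hi hl)
        rw [mem_closure_iff_nhds] at ht
        obtain ⟨s, hs1, hs2⟩ := ht _ ho
        exact hs2.2 hs1
      have hKc : IsCompact Kd := isCompact_Icc.of_isClosed_subset hcl (fun s hs => hs.1)
      have hKne : Kd.Nonempty := by
        refine ⟨τ x, ⟨le_rfl, by rw [htz]; linarith⟩, ?_⟩
        change pt A M (τ x) ∉ S.lev p 3
        rw [← hxτ x hx2]; exact hdark x hxX
      obtain ⟨σ, hσ, hgr⟩ := hKc.exists_isGreatest hKne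
      have hσz : σ < tz := by
        refine lt_of_le_of_ne hσ.1.2 ?_
        intro h
        apply hσ.2
        rw [h]; exact hz
      have hb := hbet σ hσ.1.1 (by rw [htz] at hσz; linarith)
      refine ⟨pt A M σ, σ, rfl, hσ.1.1, ?_, hb.1, hb.2, hσ.2, tz - σ, by linarith, ?_⟩
      · intro x'' hx'' hlt''
        have := hmin x'' (Finset.mem_filter.2 ⟨hx'', hlt''⟩)
        rw [htz] at hσz; linarith
      · intro c' hc0' hc1'
        have e1 : pt A M σ + c' • N = pt A M (σ + c') := by
          rw [hN]; unfold pt; simp only [Complex.real_smul]; push_cast; ring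
        rw [e1]
        by_contra hcon
        have := hgr (a := σ + c') ⟨⟨by linarith [hσ.1.1], by linarith⟩, hcon⟩
        linarith
    choose! y σ hy1 hy2 hy3 hy4 hy5 hy6 hy7 using hex
    have hinj : Set.InjOn y (X2.erase xm : Finset ℂ) := by
      intro x hx x' hx' hxx
      have hx2 := (Finset.mem_erase.1 hx).2
      have hx2' := (Finset.mem_erase.1 hx').2
      have hne0 := S.ray_ne (hX x (Finset.mem_filter.1 hx2).1).1
      have hσσ : σ x = σ x' := by
        apply pt_inj hne0
        rw [← hM, ← hy1 x hx, ← hy1 x' hx', hxx]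
      rcases lt_trichotomy (τ x) (τ x') with h | h | h
      · have k1 := hy3 x hx x' hx2' h
        have k2 := hy2 x' hx'
        linarith
      · rw [hxτ x hx2, hxτ x' hx2', h]
      · have k1 := hy3 x' hx' x hx2 h
        have k2 := hy2 x hx
        linarith
    have hcard := S.far_count (w := w) hR ((X2.erase xm).image y) (by
      intro z hz
      obtain ⟨x, hx, rfl⟩ := Finset.mem_image.1 hz
      exact ⟨hy4 x hx, hy5 x hx, hy6 x hx, hy7 x hx⟩)
    rw [Finset.card_image_of_injOn hinj, Finset.card_erase_of_mem hxm] at hcard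
    omega
  have c3 := Finset.card_le_card hcov
  have c4 := Finset.card_union_le X1 X2
  omega

end Run7.h395
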