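import Pool.Agent.Run7.h395.LocK

/-!
# Quadratic complexity after two reflections
-/

open Set Topology Filter Complex

noncomputable section

namespace Run7.h395

variable {n : ℕ} (S : SimplePolygon n)

/-- complexity from a family of windows -/
theorem SimplePolygon.complexity_gen (p : ℂ) (k : ℕ) {ι : Type} (U : Finset ι)
    (og : ι → ℂ) (tg : ι → ZMod n) (hU : ∀ i ∈ U, og i ≠ S.v (tg i))
    (hUW : ∀ x ∈ interior S.region, x ∉ S.lev p (k + 1) → x ∈ closure (S.lev p (k + 1)) →
      ∃ i ∈ U, x ∈ S.ray (og i) (tg i)) (MM : ι → ℕ)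
    (hMM : ∀ i ∈ U, ∀ X : Finset ℂ, (∀ x ∈ X, x ∈ S.ray (og i) (tg i) ∧
      x ∈ interior S.region ∧ x ∈ frontier (S.lev p (k + 1)) ∧
      ¬ FlatDir (frontier (S.lev p (k + 1))) x (S.v (tg i) - og i)) → X.card ≤ MM i) :
    (corners (frontier (S.lev p (k + 1)))).encard + (sides (frontier (S.lev p (k + 1)))).encard ≤
      ((2 * ∑ i ∈ U, MM i + 4 * U.card + 2 * n : ℕ) : ℕ∞) := by
  classical
  have hNe := S.neZero
  set W : Finset (ℂ × ZMod n) := U.image (fun i => (og i, tg i)) with hWdef
  have hWU : W.card ≤ U.card := Finset.card_image_le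
  have hW : ∀ x ∈ interior S.region, x ∉ S.lev p (k + 1) → x ∈ closure (S.lev p (k + 1)) →
      ∃ w ∈ W, x ∈ S.ray w.1 w.2 := by
    intro x h1 h2 h3
    obtain ⟨i, hi, hx⟩ := hUW x h1 h2 h3
    exact ⟨(og i, tg i), Finset.mem_image.2 ⟨i, hi, rfl⟩, hx⟩
  set V := S.lev p (k + 1) with hV
  set B := frontier V with hB
  have hBcl : IsClosed B := isClosed_frontier
  have hBR : B ⊆ S.region := fun x hx => S.closure_lev_sub p (k + 1) hx.1
  -- points of `B` inside lie on rays
  have hBray : ∀ x ∈ B, x ∈ interior S.region → ∃ w ∈ W, x ∈ S.ray w.1 w.2 := by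
    intro x hx hxi
    apply hW x hxi _ hx.1
    intro hxV
    exact hx.2 (mem_interior_iff_mem_nhds.2 (S.lev_int_open hxi hxV))
  -- corners on open edges
  have hopen : ∀ F : Finset ℂ, (∀ x ∈ F, x ∈ corners B ∧ ∃ e, x ∈ S.oedge e) →
      F.card ≤ W.card := by
    intro F hF
    have hex : ∀ x ∈ F, ∃ w ∈ W, x ∈ S.ray w.1 w.2 := by
      intro x hx
      obtain ⟨⟨hxB, hnf⟩, e, he⟩ := hF x hx
      by_contra hcon
      push Not at hcon
      exact hnf ⟨S.dir e, S.dir_ne e, S.bdry_flat hW he hxB hcon⟩
    choose! f hf1 hf2 using hex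
    refine Finset.card_le_card_of_injOn f hf1 ?_
    intro x hx y hy hxy
    obtain ⟨-, e, he⟩ := hF x hx
    obtain ⟨-, e', he'⟩ := hF y hy
    refine S.ray_end (hf2 x hx) (m := (f x).2) (A := (f x).1) ?_
      (S.edge_sub_frontier e (S.oedge_sub e he)) (S.edge_sub_frontier e' (S.oedge_sub e' he'))
    have h5 := hf2 y hy
    rw [← hxy] at h5
    exact h5
  -- all corners
  have hcorners : ∀ F : Finset ℂ, (∀ x ∈ F, x ∈ corners B) →
      F.card ≤ ∑ i ∈ U, MM i + U.card + n := by
    intro F hF
    set F1 := F.filter (fun x => x ∈ interior S.region) with hF1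
    set F2 := F.filter (fun x => ∃ e, x ∈ S.oedge e) with hF2
    set F3 := F.filter (fun x => ∃ m, x = S.v m) with hF3
    have hcov : F ⊆ F1 ∪ (F2 ∪ F3) := by
      intro x hx
      by_cases hxi : x ∈ interior S.region
      · exact Finset.mem_union_left _ (Finset.mem_filter.2 ⟨hx, hxi⟩)
      · apply Finset.mem_union_right
        rcases S.frontier_cases (mem_frontier_of (hBR (hF x hx).1) hxi) with h | h
        · exact Finset.mem_union_right _ (Finset.mem_filter.2 ⟨hx, h⟩)
        · exact Finset.mem_union_left _ (Finset.mem_filter.2 ⟨hx, h⟩)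
    have c1 : F1.card ≤ ∑ i ∈ U, MM i := by
      have hsub : F1 ⊆ U.biUnion (fun w => F1.filter (fun x => x ∈ S.ray (og w) (tg w))) := by
        intro x hx
        obtain ⟨hxF, hxi⟩ := Finset.mem_filter.1 hx
        have hxB := (hF x hxF).1
        obtain ⟨w, hw, hxw⟩ := hUW x hxi
          (fun h => hxB.2 (mem_interior_iff_mem_nhds.2 (S.lev_int_open hxi h))) hxB.1
        exact Finset.mem_biUnion.2 ⟨w, hw, Finset.mem_filter.2 ⟨hx, hxw⟩⟩
      refine (Finset.card_le_card hsub).trans ?_
      refine Finset.card_biUnion_le.trans ?_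
      refine Finset.sum_le_sum (fun w hw => ?_)
      apply hMM w hw
      intro x hx
      obtain ⟨hx1, hxw⟩ := Finset.mem_filter.1 hx
      obtain ⟨hxF, hxi⟩ := Finset.mem_filter.1 hx1
      refine ⟨hxw, hxi, (hF x hxF).1, ?_⟩
      intro hf
      exact (hF x hxF).2 ⟨_, sub_ne_zero.2 (S.ray_ne hxw).symm, hf⟩
    have c2 : F2.card ≤ W.card := by
      apply hopen
      intro x hx
      obtain ⟨hxF, he⟩ := Finset.mem_filter.1 hx
      exact ⟨hF x hxF, he⟩
    have c3 : F3.card ≤ n := by
      have hsub : F3 ⊆ (Finset.univ : Finset (ZMod n)).image S.v := by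
        intro x hx
        obtain ⟨-, m, rfl⟩ := Finset.mem_filter.1 hx
        exact Finset.mem_image.2 ⟨m, Finset.mem_univ _, rfl⟩
      refine (Finset.card_le_card hsub).trans (Finset.card_image_le.trans ?_)
      rw [Finset.card_univ, ZMod.card]
    have c4 := Finset.card_le_card hcov
    have c5 := Finset.card_union_le F1 (F2 ∪ F3)
    have c6 := Finset.card_union_le F2 F3
    omega
  have hcfin : (corners B).Finite := finite_of_card_le hcorners
  set CF := hcfin.toFinset with hCF
  -- the carriers
  set I : Finset (ι ⊕ ZMod n) := U.disjSum Finset.univ with hI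
  set C : ι ⊕ ZMod n → Set ℂ := Sum.elim (fun w => S.ray (og w) (tg w)) S.oedge with hC
  set base : ι ⊕ ZMod n → ℂ := Sum.elim og S.v with hbase
  set dd : ι ⊕ ZMod n → ℂ := Sum.elim (fun w => S.v (tg w) - og w) S.dir with hdd
  set M : ι ⊕ ZMod n → ℕ :=
    Sum.elim (fun w => MM w + 1) (fun e => (CF.filter (fun x => x ∈ S.oedge e)).card) with hM
  have hsides := sides_count hBcl I C base dd (fun i => lineParam (base i) (dd i)) M ?_ ?_ ?_ ?_ ?_
  · -- conclusion
    have hsum : ∑ i ∈ I, (M i + 1) ≤ (∑ i ∈ U, MM i + 2 * U.card) + (U.card + n) := by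
      rw [hI, Finset.sum_disjSum]
      have s1 : ∑ w ∈ U, (M (Sum.inl w) + 1) ≤ ∑ i ∈ U, MM i + 2 * U.card := by
        simp only [hM, Sum.elim_inl]
        rw [Finset.sum_add_distrib, Finset.sum_add_distrib, Finset.sum_const, smul_eq_mul]
        omega
      have s2 : ∑ e : ZMod n, (M (Sum.inr e) + 1) ≤ U.card + n := by
        rw [Finset.sum_add_distrib, Finset.sum_const, Finset.card_univ, ZMod.card, smul_eq_mul,
          mul_one]
        have : ∑ e : ZMod n, M (Sum.inr e) ≤ W.card := by
          simp only [hM, Sum.elim_inr]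
          rw [← Finset.card_biUnion]
          · apply hopen
            intro x hx
            obtain ⟨e, -, hx⟩ := Finset.mem_biUnion.1 hx
            obtain ⟨hxC, he⟩ := Finset.mem_filter.1 hx
            exact ⟨hcfin.mem_toFinset.1 hxC, e, he⟩
          · intro e _ e' _ hee
            rw [Function.onFun, Finset.disjoint_left]
            intro x hx hx'
            exact hee (S.oedge_unique (Finset.mem_filter.1 hx').2
              (S.oedge_sub e (Finset.mem_filter.1 hx).2))
        omega
      exact Nat.add_le_add s1 s2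
    have b1 := encard_le_of_finset hcorners
    have b2 := encard_le_of_finset (fun F hF => (hsides F hF).trans hsum)
    refine (add_le_add b1 b2).trans ?_
    rw [← Nat.cast_add]
    have harith : ∑ i ∈ U, MM i + U.card + n + ((∑ i ∈ U, MM i + 2 * U.card) + (U.card + n)) ≤
        2 * ∑ i ∈ U, MM i + 4 * U.card + 2 * n := by
      omega
    exact_mod_cast harith
  · intro i hi
    rw [hI, Finset.mem_disjSum] at hi
    rcases hi with ⟨w, hw, rfl⟩ | ⟨e, -, rfl⟩
    · exact sub_ne_zero.2 (hU w hw).symm
    · exact S.dir_ne e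
  · intro i _ x hx
    apply lineParam_spec
    rcases i with w | e
    · obtain ⟨τ, -, h, -⟩ := hx
      exact ⟨τ, h⟩
    · obtain ⟨t, -, -, h⟩ := S.mem_oedge_iff.1 hx
      exact ⟨t, h⟩
  · intro i _
    rcases i with w | e
    · exact S.ray_convex (og w) (tg w)
    · exact convex_openSegment _ _
  · intro i hi X hX
    rcases i with w | e
    · have hw : w ∈ U := by
        rw [hI, Finset.inl_mem_disjSum] at hi
        exact hi
      change X.card ≤ MM w + 1
      set X1 := X.filter (fun x => x ∈ interior S.region) with hX1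
      set X2 := X.filter (fun x => ¬ x ∈ interior S.region) with hX2
      have c1 : X1.card ≤ MM w := by
        apply hMM w hw
        intro x hx
        obtain ⟨hxX, hxi⟩ := Finset.mem_filter.1 hx
        obtain ⟨hxC, hxc⟩ := hX x hxX
        have hxC : x ∈ S.ray (og w) (tg w) := hxC
        refine ⟨hxC, hxi, hxc.1, ?_⟩
        intro hf
        exact hxc.2 ⟨_, sub_ne_zero.2 (S.ray_ne hxC).symm, hf⟩
      have c2 : X2.card ≤ 1 := by
        rw [Finset.card_le_one]
        intro x hx y hy
        obtain ⟨hxX, hxi⟩ := Finset.mem_filter.1 hx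
        obtain ⟨hyX, hyi⟩ := Finset.mem_filter.1 hy
        exact S.ray_end (A := og w) (m := tg w) (hX x hxX).1 (hX y hyX).1
          (mem_frontier_of (hBR (hX x hxX).2.1) hxi) (mem_frontier_of (hBR (hX y hyX).2.1) hyi)
      have c3 : X1.card + X2.card = X.card := by
        rw [hX1, hX2, Finset.card_filter_add_card_filter_not]
      omega
    · change X.card ≤ (CF.filter (fun x => x ∈ S.oedge e)).card
      apply Finset.card_le_card
      intro x hx
      exact Finset.mem_filter.2 ⟨hcfin.mem_toFinset.2 (hX x hx).2, (hX x hx).1⟩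
  · -- coverage
    intro x hx
    have hxf : FlatAt B x := by
      by_contra hc
      exact hx.2 ⟨hx.1, hc⟩
    obtain ⟨d, hd, hfd⟩ := hxf
    have hdn : 0 < ‖d‖ := norm_pos_iff.2 hd
    obtain ⟨r, hr, hnear⟩ := hfd.near
    -- the line near x lies in the component
    have hcomp : ∀ c : ℝ, |c| * ‖d‖ < r → x + c • d ∈ connectedComponentIn (B \ corners B) x := by
      intro c hc
      have hseg : segment ℝ x (x + c • d) ⊆ B \ corners B := by
        intro z hz
        rw [mem_segment_iff] at hz
        obtain ⟨t, t0, t1, rfl⟩ := hz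
        have e1 : pt x (x + c • d) t = x + (t * c) • d := by
          unfold pt; simp only [Complex.real_smul]; push_cast; ring
        apply (hnear _ ?_ ⟨t * c, e1⟩).not_corner hd
        rw [e1, dist_eq_norm, add_sub_cancel_left, norm_smul, Real.norm_eq_abs, abs_mul,
          abs_of_nonneg t0]
        have : 0 ≤ |c| * ‖d‖ := by positivity
        nlinarith
      exact (convex_segment _ _).isPreconnected.subset_connectedComponentIn
        (left_mem_segment ℝ _ _) hseg (right_mem_segment ℝ _ _)
    have hflat : ∀ c : ℝ, |c| * ‖d‖ < r → FlatDir B (x + c • d) d := by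
      intro c hc
      apply hnear _ _ ⟨c, rfl⟩
      rw [dist_eq_norm, add_sub_cancel_left, norm_smul, Real.norm_eq_abs]
      exact hc
    -- avoid the vertices
    obtain ⟨c, hc, hcv⟩ : ∃ c : ℝ, |c| * ‖d‖ < r ∧ ∀ m, x + c • d ≠ S.v m := by
      have hinf : (Ioo (0 : ℝ) (r / ‖d‖)).Infinite := Ioo_infinite (by positivity)
      have hfin : {c : ℝ | ∃ m, x + c • d = S.v m}.Finite := by
        have : {c : ℝ | ∃ m, x + c • d = S.v m} ⊆ ⋃ m : ZMod n, {c : ℝ | x + c • d = S.v m} := by
          rintro c ⟨m, hm⟩
          exact mem_iUnion.2 ⟨m, hm⟩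
        refine (Set.finite_iUnion fun m => Set.Subsingleton.finite ?_).subset this
        intro c hc c' hc'
        have hc : x + c • d = S.v m := hc
        have hc' : x + c' • d = S.v m := hc'
        have h5 : (c - c') • d = 0 := by
          rw [sub_smul]
          linear_combination hc - hc'
        rcases smul_eq_zero.1 h5 with h | h
        · linarith
        · exact absurd h hd
      obtain ⟨c, hc1, hc2⟩ := (hinf.sdiff hfin).nonempty
      refine ⟨c, ?_, ?_⟩
      · rw [abs_of_pos hc1.1]
        rw [← lt_div_iff₀ hdn]; exact hc1.2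
      · intro m hm
        exact hc2 ⟨m, hm⟩
    set y := x + c • d with hy
    have hyf := hflat c hc
    have hyB := hyf.mem
    have hyc := hcomp c hc
    rw [← hy] at hyf hyB hyc
    by_cases hyi : y ∈ interior S.region
    · -- inside: on a ray
      have hex : ∃ w ∈ W, y ∈ S.ray w.1 w.2 ∧ cr (S.v w.2 - w.1) d = 0 := by
        by_contra hcon
        push Not at hcon
        have hev : ∀ᶠ c' : ℝ in 𝓝[>] 0, ∀ w ∈ W, y + c' • d ∉ S.ray w.1 w.2 := by
          rw [Filter.eventually_all_finset]
          intro w hw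
          by_cases hyw : y ∈ S.ray w.1 w.2
          · have hne := hcon w hw hyw
            filter_upwards [self_mem_nhdsWithin] with c' hc' hmem
            have hc' : 0 < c' := hc'
            obtain ⟨τ, -, h1, -⟩ := hyw
            obtain ⟨τ', -, h2, -⟩ := hmem
            have h3 : c' • d = (τ' - τ) • (S.v w.2 - w.1) := by
              rw [← pt_sub_pt, ← h1, ← h2]; ring
            have h4 : cr (S.v w.2 - w.1) (c' • d) = 0 := by
              rw [h3, cr_smul_right, cr_self, mul_zero]
            rw [cr_smul_right] at h4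
            rcases mul_eq_zero.1 h4 with h5 | h5
            · linarith
            · exact hne h5
          · have h1 := S.ray_away (hcv w.2) hyw
            have h2 : Tendsto (fun c' : ℝ => y + c' • d) (𝓝[>] 0) (𝓝 y) := by
              have : ContinuousAt (fun c' : ℝ => y + c' • d) 0 := by fun_prop
              have h3 : Tendsto (fun c' : ℝ => y + c' • d) (𝓝 0) (𝓝 (y + (0 : ℝ) • d)) := this
              rw [zero_smul, add_zero] at h3
              exact h3.mono_left nhdsWithin_le_nhds
            exact h2.eventually h1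
        obtain ⟨r', hr', hnear'⟩ := hyf.near
        obtain ⟨ρ, hρ, hball⟩ := Metric.isOpen_iff.1 isOpen_interior y hyi
        have h1 : ∀ᶠ c' : ℝ in 𝓝[>] 0, |c'| * ‖d‖ < min r' ρ := by
          have hcont : ContinuousAt (fun c' : ℝ => |c'| * ‖d‖) 0 := by fun_prop
          have : ∀ᶠ c' : ℝ in 𝓝 0, |c'| * ‖d‖ < min r' ρ := by
            apply hcont.eventually_lt continuousAt_const
            simpa using ⟨hr', hρ⟩
          exact mem_nhdsWithin_of_mem_nhds this
        obtain ⟨c', hc1, hc2⟩ := (hev.and h1).exists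
        have hdist : dist (y + c' • d) y = |c'| * ‖d‖ := by
          rw [dist_eq_norm, add_sub_cancel_left, norm_smul, Real.norm_eq_abs]
        have h3 : y + c' • d ∈ B :=
          (hnear' _ (by rw [hdist]; exact hc2.trans_le (min_le_left _ _)) ⟨c', rfl⟩).mem
        have h4 : y + c' • d ∈ interior S.region := by
          apply hball
          rw [Metric.mem_ball, hdist]
          exact hc2.trans_le (min_le_right _ _)
        obtain ⟨w, hw, hyw⟩ := hBray _ h3 h4
        exact hc1 w hw hyw
      obtain ⟨w0, hw0, hyw, hcr⟩ := hex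
      obtain ⟨w, hw, rfl⟩ := Finset.mem_image.1 hw0
      have hne := S.ray_ne hyw
      have hwd : S.v (tg w) - og w ≠ 0 := sub_ne_zero.2 hne.symm
      obtain ⟨a, ha⟩ := parallel_of_cr hwd hcr
      have ha0 : a ≠ 0 := by
        rintro rfl
        rw [zero_smul] at ha
        exact hd ha
      refine ⟨Sum.inl w, ?_, y, hyw, hyc, ?_⟩
      · rw [hI, Finset.mem_disjSum]
        left
        exact ⟨w, hw, rfl⟩
      · change FlatDir B y (S.v (tg w) - og w)
        have : S.v (tg w) - og w = (1 / a) • d := by
          rw [ha, smul_smul, one_div_mul_cancel ha0, one_smul]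
        rw [this]
        exact hyf.smul (one_div_ne_zero ha0)
    · -- on an open edge
      rcases S.frontier_cases (mem_frontier_of (hBR hyB) hyi) with ⟨m, hm⟩ | ⟨e, he⟩
      · exact absurd hm (hcv m)
      have hcr : cr (S.dir e) d = 0 := by
        by_contra hne
        obtain ⟨ρ, hρ, hext⟩ := S.side_fx he
        obtain ⟨r', hr', hnear'⟩ := hyf.near
        have hσ2 : S.side e * S.side e = 1 := by
          rcases S.side_pm e with h | h <;> rw [h] <;> norm_num
        have hne' : -S.side e * cr (S.dir e) d ≠ 0 := by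
          apply mul_ne_zero _ hne
          intro h
          have h5 : S.side e = 0 := by linarith
          rw [h5] at hσ2; simp at hσ2
        obtain ⟨b, hb⟩ := exists_sg hne'
        obtain ⟨ε, ε0, -, ε2⟩ := exists_small d (show 0 < min ρ r' by positivity) 1 one_pos
        have hdist : dist (y + (sg b * ε) • d) y < min ρ r' := by
          rw [dist_eq_norm, add_sub_cancel_left, norm_smul, Real.norm_eq_abs, abs_mul,
            abs_of_pos ε0]
          have : |sg b| = 1 := by rcases sg_pm b with h | h <;> rw [h] <;> norm_num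
          rw [this, one_mul]; exact ε2
        have h1 : y + (sg b * ε) • d ∈ B :=
          (hnear' _ (hdist.trans_le (min_le_right _ _)) ⟨_, rfl⟩).mem
        refine hext _ (hdist.trans_le (min_le_left _ _)) ?_ (hBR h1)
        rw [add_sub_cancel_left, cr_smul_right]
        have : -S.side e * (sg b * ε * cr (S.dir e) d) =
          ε * (sg b * (-S.side e * cr (S.dir e) d)) := by ring
        rw [this]; positivity
      obtain ⟨a, ha⟩ := parallel_of_cr (S.dir_ne e) hcr
      have ha0 : a ≠ 0 := by
        rintro rfl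
        rw [zero_smul] at ha
        exact hd ha
      refine ⟨Sum.inr e, ?_, y, he, hyc, ?_⟩
      · rw [hI, Finset.mem_disjSum]
        right
        exact ⟨e, Finset.mem_univ _, rfl⟩
      · change FlatDir B y (S.dir e)
        have : S.dir e = (1 / a) • d := by
          rw [ha, smul_smul, one_div_mul_cancel ha0, one_smul]
        rw [this]
        exact hyf.smul (one_div_ne_zero ha0)


open Classical in
/-- the complexity of the region lit by at most two reflections -/
theorem SimplePolygon.complexity_two (p : ℂ) :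
    (corners (frontier (S.lev p 3))).encard + (sides (frontier (S.lev p 3))).encard ≤
      ((25000 * n ^ 2 : ℕ) : ℕ∞) := by
  have hNe := S.neZero
  have hcard : ∀ F : Finset (Item n), (∀ i ∈ F, S.Rel p 2 i) → F.card ≤ n * (20 * n * 2) := by
    intro F hF
    have h1 : F.card = ∑ T : ZMod n, (F.filter (fun i => i.2.1 = T)).card := by
      rw [← Finset.card_eq_sum_card_fiberwise (f := fun i : Item n => i.2.1)
        (t := Finset.univ) (fun x _ => Finset.mem_univ _)]
    rw [h1]
    calc ∑ T : ZMod n, (F.filter (fun i => i.2.1 = T)).card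
        ≤ ∑ _T : ZMod n, 20 * n * 2 := by
          apply Finset.sum_le_sum
          intro T _
          apply S.rel_count T
          intro i hi
          exact ⟨hF i (Finset.mem_filter.1 hi).1, (Finset.mem_filter.1 hi).2⟩
      _ = n * (20 * n * 2) := by
          rw [Finset.sum_const, Finset.card_univ, ZMod.card, smul_eq_mul]
  have hfin : {i | S.Rel p 2 i}.Finite := finite_of_card_le hcard
  set R := hfin.toFinset with hR
  have hR1 : ∀ i ∈ R, S.Rel p 2 i := fun i hi => hfin.mem_toFinset.1 hi
  have hR2 : ∀ i, S.Rel p 2 i → i ∈ R := fun i hi => hfin.mem_toFinset.2 hi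
  have hgen := S.complexity_gen p 2 (S.idx p R) (S.org p) tgt
    (fun i hi => (S.idx_seg hR1 i hi).1) ?_
    (fun w => 2 * (((S.idx p R) ×ˢ (Finset.univ : Finset Bool)).filter
      (fun u => S.EE' p u w)).card + 1) ?_
  · refine hgen.trans ?_
    have h1 := S.cross_sum hR1
    have h2 := S.idx_card hR1
    have h3 := S.three_le
    have h4 : ∑ w ∈ S.idx p R, (2 * (((S.idx p R) ×ˢ (Finset.univ : Finset Bool)).filter
        (fun u => S.EE' p u w)).card + 1) = 2 * (∑ w ∈ S.idx p R,
          (((S.idx p R) ×ˢ (Finset.univ : Finset Bool)).filter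
            (fun u => S.EE' p u w)).card) + (S.idx p R).card := by
      rw [Finset.sum_add_distrib, ← Finset.mul_sum, Finset.sum_const, smul_eq_mul, mul_one]
    rw [h4]
    have h5 : n * 3 ≤ n ^ 2 := by nlinarith
    have h6 : 2 * (2 * (∑ w ∈ S.idx p R,
          (((S.idx p R) ×ˢ (Finset.univ : Finset Bool)).filter
            (fun u => S.EE' p u w)).card) + (S.idx p R).card) + 4 * (S.idx p R).card + 2 * n ≤
        25000 * n ^ 2 := by omega
    exact_mod_cast h6
  · -- coverage
    intro x hx hd hc
    obtain ⟨r, hr, hball, hcon⟩ := S.conic p 2 hx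
    rw [Metric.mem_closure_iff] at hc
    obtain ⟨y, hy, hyx⟩ := hc r hr
    rw [dist_comm] at hyx
    have hyne : y - x ≠ 0 := by
      intro h
      have : y = x := sub_eq_zero.1 h
      exact hd (this ▸ hy)
    obtain ⟨A, m, b, hW, h1, h2, h3, -⟩ := S.change_window (k := 2) (lam := 1) hx hd hyne
      ⟨1, one_pos, fun c hc0 hc1 => (hcon y hyx c hc0 hc1.le).1 hy⟩ one_pos rfl
    have hseg : segment ℝ A (S.v m) ⊆ S.region := by
      refine subset_trans ?_ h2
      refine (convex_segment _ _).segment_subset (left_mem_segment ℝ _ _) ?_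
      obtain ⟨τ', hτ', hxe', -⟩ := h1
      rw [mem_segment_iff]
      refine ⟨1 / τ', by positivity, by rw [div_le_one (by linarith)]; linarith, ?_⟩
      rw [hxe', pt_pt, one_div_mul_cancel (by linarith), pt_one]
    obtain ⟨u, hu, hu1, hu2⟩ := S.idx_mem hR2 hW h3 hseg
    refine ⟨u, hu, ?_⟩
    rw [hu1, hu2]; exact h1
  · intro w hw X hX
    exact S.corner_ray hR2 X hX

end Run7.h395
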