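import Pool.Agent.Run7.h395.LocL

/-!
# Complexity in terms of the number of reflex vertices
-/

open Set Topology Filter Complex

noncomputable section

namespace Run7.h395

variable {n : ℕ} (S : SimplePolygon n)

/-- the region contains a half disk centred at the vertex `m`: the interior angle at this vertex
is at least `π` -/
def SimplePolygon.Wide (m : ZMod n) : Prop :=
  ∃ d : ℂ, d ≠ 0 ∧ ∃ ρ > 0, ∀ x, dist x (S.v m) < ρ → 0 ≤ cr d (x - S.v m) → x ∈ S.region

lemma SimplePolygon.wide_of_half {w : ℂ} {m : ZMod n} {b : Bool} (hw : w ≠ 0)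
    (h : HalfD S.region (S.v m) w (sg b)) : S.Wide m := by
  obtain ⟨r, hr, hb⟩ := h
  refine ⟨(-sg b) • w, smul_ne_zero (neg_ne_zero.2 (sg_ne b)) hw, r, hr, ?_⟩
  intro x hx hs
  apply hb x hx
  rw [cr_smul_left] at hs
  linarith

/-- the complexity of the region lit by at most `k` reflections, `r` reflex vertices -/
theorem SimplePolygon.complexity_wide (p : ℂ) (k : ℕ) :
    (corners (frontier (S.lev p (k + 1)))).encard + (sides (frontier (S.lev p (k + 1)))).encard ≤
      ((11000 * (k + 1) ^ 2 * n ^ 2 * {m | S.Wide m}.ncard + 2 * n : ℕ) : ℕ∞) := by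
  classical
  have hNe := S.neZero
  set Wd : Finset (ZMod n) := Finset.univ.filter (fun m => S.Wide m) with hWd
  have hr : {m | S.Wide m}.ncard = Wd.card := by
    rw [← Set.ncard_coe_finset]
    congr 1
    ext m
    simp [hWd]
  rw [hr]
  set r := Wd.card with hrdef
  have hcard : ∀ F : Finset (Item n), (∀ i ∈ F, S.Rel p k i) → F.card ≤ r * (20 * n * k) := by
    intro F hF
    have h1 : F.card = ∑ T ∈ Wd, (F.filter (fun i => i.2.1 = T)).card := by
      rw [← Finset.card_eq_sum_card_fiberwise (f := fun i : Item n => i.2.1) (t := Wd)]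
      intro i hi
      have hRel := hF i hi
      have hne : S.v i.2.1 - S.ep i.1 (tt i) ≠ 0 := by
        rw [sub_ne_zero]
        intro he
        exact S.v_not_oedge i.2.1 i.1 (he ▸ S.ep_mem hRel.t0 hRel.t1)
      exact Finset.mem_coe.2 (Finset.mem_filter.2 ⟨Finset.mem_univ _,
        S.wide_of_half hne hRel.half⟩)
    rw [h1]
    calc ∑ T ∈ Wd, (F.filter (fun i => i.2.1 = T)).card
        ≤ ∑ _T ∈ Wd, 20 * n * k := by
          apply Finset.sum_le_sum
          intro T _
          apply S.rel_count T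
          intro i hi
          exact ⟨hF i (Finset.mem_filter.1 hi).1, (Finset.mem_filter.1 hi).2⟩
      _ = r * (20 * n * k) := by rw [Finset.sum_const, smul_eq_mul]
  have hfin : {i | S.Rel p k i}.Finite := finite_of_card_le hcard
  set R := hfin.toFinset with hR
  have hR1 : ∀ i ∈ R, S.Rel p k i := fun i hi => hfin.mem_toFinset.1 hi
  have hR2 : ∀ i, S.Rel p k i → i ∈ R := fun i hi => hfin.mem_toFinset.2 hi
  set VV : Finset (ZMod n × ZMod n) := ((Finset.univ : Finset (ZMod n)) ×ˢ Wd).filter
    (fun x => S.v x.1 ≠ S.v x.2) with hVV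
  set PP : Finset (ZMod n) := Wd.filter (fun m => p ≠ S.v m) with hPP
  set U : Finset (Idx n) := R.disjSum (VV.disjSum PP) with hU
  have hUc : U.card ≤ r * (20 * n * k) + (n * r + r) := by
    rw [hU, Finset.card_disjSum, Finset.card_disjSum]
    have c1 : R.card ≤ r * (20 * n * k) := hcard R hR1
    have c2 : VV.card ≤ n * r := by
      refine (Finset.card_filter_le _ _).trans ?_
      rw [Finset.card_product, Finset.card_univ, ZMod.card]
    have c3 : PP.card ≤ r := Finset.card_filter_le _ _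
    exact Nat.add_le_add c1 (Nat.add_le_add c2 c3)
  have hgen := S.complexity_gen p k U (S.org p) tgt ?_ ?_ (fun _ => 240 * n * (k + 1)) ?_
  · refine hgen.trans ?_
    rw [Finset.sum_const, smul_eq_mul]
    have h3 := S.three_le
    have harith : 2 * (U.card * (240 * n * (k + 1))) + 4 * U.card + 2 * n ≤
        11000 * (k + 1) ^ 2 * n ^ 2 * r + 2 * n := by
      have h4 : U.card ≤ r * (22 * n * (k + 1)) := by
        refine hUc.trans ?_
        have e1 : r * (22 * n * (k + 1)) = r * (20 * n * k) + (n * r + r * (2 * n * k + 21 * n)) := by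
          ring
        rw [e1]
        have : r ≤ r * (2 * n * k + 21 * n) := Nat.le_mul_of_pos_right _ (by positivity)
        omega
      have h5 : 2 * (U.card * (240 * n * (k + 1))) + 4 * U.card ≤ U.card * (482 * n * (k + 1)) := by
        have : 4 ≤ 2 * n * (k + 1) := by nlinarith
        calc 2 * (U.card * (240 * n * (k + 1))) + 4 * U.card
            = U.card * (480 * n * (k + 1) + 4) := by ring
          _ ≤ U.card * (480 * n * (k + 1) + 2 * n * (k + 1)) := by gcongr
          _ = U.card * (482 * n * (k + 1)) := by ring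
      have h6 : U.card * (482 * n * (k + 1)) ≤ r * (22 * n * (k + 1)) * (482 * n * (k + 1)) := by
        gcongr
      have h7 : r * (22 * n * (k + 1)) * (482 * n * (k + 1)) = 10604 * (k + 1) ^ 2 * n ^ 2 * r := by
        ring
      have h8 : 10604 * (k + 1) ^ 2 * n ^ 2 * r ≤ 11000 * (k + 1) ^ 2 * n ^ 2 * r := by
        gcongr; norm_num
      omega
    exact_mod_cast harith
  · intro i hi
    rw [hU, Finset.mem_disjSum] at hi
    rcases hi with ⟨i, hi, rfl⟩ | ⟨w, hw, rfl⟩
    · have h := hR1 i hi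
      intro he
      exact S.v_not_oedge i.2.1 i.1 (he ▸ S.ep_mem h.t0 h.t1)
    rw [Finset.mem_disjSum] at hw
    rcases hw with ⟨x, hx, rfl⟩ | ⟨m, hm, rfl⟩
    · exact (Finset.mem_filter.1 hx).2
    · exact (Finset.mem_filter.1 hm).2
  · -- coverage
    intro x hx hd hc
    obtain ⟨ρ, hρ, hball, hcon⟩ := S.conic p k hx
    rw [Metric.mem_closure_iff] at hc
    obtain ⟨y, hy, hyx⟩ := hc ρ hρ
    rw [dist_comm] at hyx
    have hyne : y - x ≠ 0 := by
      intro h
      have : y = x := sub_eq_zero.1 h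
      exact hd (this ▸ hy)
    obtain ⟨A, m, b, hW, h1, h2, h3, -, h5, -⟩ := S.change_window (lam := 1) hx hd hyne
      ⟨1, one_pos, fun c hc0 hc1 => (hcon y hyx c hc0 hc1.le).1 hy⟩ one_pos rfl
    have hm : m ∈ Wd := Finset.mem_filter.2 ⟨Finset.mem_univ _,
      S.wide_of_half (sub_ne_zero.2 h3.symm) h5⟩
    rcases hW with rfl | ⟨j, rfl, hj⟩ | ⟨i, hi, rfl, rfl⟩
    · refine ⟨Sum.inr (Sum.inr m), ?_, h1⟩
      rw [hU, Finset.mem_disjSum]
      right
      refine ⟨_, ?_, rfl⟩
      rw [Finset.mem_disjSum]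
      right
      exact ⟨m, Finset.mem_filter.2 ⟨hm, h3⟩, rfl⟩
    · refine ⟨Sum.inr (Sum.inl (j, m)), ?_, h1⟩
      rw [hU, Finset.mem_disjSum]
      right
      refine ⟨_, ?_, rfl⟩
      rw [Finset.mem_disjSum]
      left
      exact ⟨(j, m), Finset.mem_filter.2 ⟨Finset.mem_product.2 ⟨Finset.mem_univ _, hm⟩, h3⟩, rfl⟩
    · refine ⟨Sum.inl i, ?_, h1⟩
      rw [hU, Finset.mem_disjSum]
      left
      exact ⟨i, hR2 i hi, rfl⟩
  · intro w hw X hX
    exact S.corner_count X hX

end Run7.h395
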