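import Pool.Agent.Run7.h395.LocM

/-!
# Rays and local directions
-/

open Set Topology Filter Complex

noncomputable section

namespace Run7.h395

variable {n : ℕ} (S : SimplePolygon n)

lemma svis_ray {P : Set ℂ} {q ω : ℂ} {t0 : ℝ} (ht0 : 0 < t0)
    (h : ∀ c : ℝ, 0 < c → c < t0 → q + c • ω ∈ interior P) : svis P q (q + t0 • ω) := by
  intro z hz
  rw [mem_openSegment_iff] at hz
  obtain ⟨s, s0, s1, rfl⟩ := hz
  have e1 : pt q (q + t0 • ω) s = q + (s * t0) • ω := by
    unfold pt; simp only [Complex.real_smul]; push_cast; ring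
  rw [e1]
  exact h _ (by positivity) (by nlinarith)

/-- first hit of a ray that avoids the vertices -/
lemma SimplePolygon.hit {q ω : ℂ} (hω : ω ≠ 0)
    (hin : ∃ ρ > 0, ∀ c : ℝ, 0 < c → c < ρ → q + c • ω ∈ interior S.region)
    (hv : ∀ m, ∀ c : ℝ, 0 < c → S.v m ≠ q + c • ω) :
    ∃ t0 : ℝ, 0 < t0 ∧ q + t0 • ω ∈ S.openEdges ∧
      ∀ c : ℝ, 0 < c → c < t0 → q + c • ω ∈ interior S.region := by
  obtain ⟨ρ, hρ, hin⟩ := hin
  have hωn : 0 < ‖ω‖ := norm_pos_iff.2 hω
  -- a far parameter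
  obtain ⟨M, hMρ, hMout⟩ : ∃ M : ℝ, ρ < M ∧ q + M • ω ∉ S.region := by
    obtain ⟨R, hR⟩ := S.reg.bdd.subset_ball q
    have hpos : 0 < max (ρ + 1) (|R| / ‖ω‖ + 1) :=
      lt_of_lt_of_le (by linarith) (le_max_left _ _)
    refine ⟨max (ρ + 1) (|R| / ‖ω‖ + 1), ?_, ?_⟩
    · have := le_max_left (ρ + 1) (|R| / ‖ω‖ + 1)
      linarith
    · intro h
      have h1 := hR h
      rw [Metric.mem_ball, dist_eq_norm, add_sub_cancel_left, norm_smul, Real.norm_eq_abs,
        abs_of_pos hpos] at h1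
      have h2 := le_max_right (ρ + 1) (|R| / ‖ω‖ + 1)
      have h3 : (|R| / ‖ω‖ + 1) * ‖ω‖ ≤ max (ρ + 1) (|R| / ‖ω‖ + 1) * ‖ω‖ :=
        mul_le_mul_of_nonneg_right h2 hωn.le
      have h4 : (|R| / ‖ω‖ + 1) * ‖ω‖ = |R| + ‖ω‖ := by
        rw [add_mul, div_mul_cancel₀ _ hωn.ne', one_mul]
      have := le_abs_self R
      linarith
  set K : Set ℝ := Icc (ρ / 2) M ∩ {t | q + t • ω ∈ interior S.region}ᶜ with hK
  have hcont : Continuous fun t : ℝ => q + t • ω := by fun_prop
  have hKc : IsCompact K :=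
    isCompact_Icc.inter_right (isOpen_interior.preimage hcont).isClosed_compl
  have hKne : K.Nonempty := ⟨M, ⟨by linarith, le_rfl⟩, fun h => hMout (interior_subset h)⟩
  obtain ⟨t0, ht0, hmin⟩ := hKc.exists_isLeast hKne
  have ht0ρ : 0 < t0 := by linarith [ht0.1.1]
  have hbefore : ∀ c : ℝ, 0 < c → c < t0 → q + c • ω ∈ interior S.region := by
    intro c h0 h1
    rcases lt_or_ge c ρ with h | h
    · exact hin c h0 h
    · by_contra hcon
      have := hmin (a := c) ⟨⟨by linarith, by linarith [ht0.1.2]⟩, hcon⟩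
      linarith
  have hreg : q + t0 • ω ∈ S.region := by
    have h1 : Tendsto (fun c : ℝ => q + c • ω) (𝓝[<] t0) (𝓝 (q + t0 • ω)) :=
      (hcont.tendsto t0).mono_left nhdsWithin_le_nhds
    refine S.reg.closed.mem_of_tendsto h1 ?_
    have h2 : ∀ᶠ c in 𝓝[<] t0, c ∈ Ioo 0 t0 := Ioo_mem_nhdsLT ht0ρ
    filter_upwards [h2] with c hc
    exact interior_subset (hbefore c hc.1 hc.2)
  refine ⟨t0, ht0ρ, ?_, hbefore⟩
  rcases S.frontier_cases (mem_frontier_of hreg ht0.2) with ⟨m, hm⟩ | ⟨e, he⟩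
  · exact absurd hm.symm (hv m t0 ht0ρ)
  · exact ⟨e, he⟩

/-- nearby directions avoiding the vertices -/
lemma SimplePolygon.gen_dir (q : ℂ) {δ : ℂ} (hδ : δ ≠ 0) {U : Set ℂ} (hU : U ∈ 𝓝 δ) :
    ∃ δ' ∈ U, δ' ≠ 0 ∧ ∀ m, ∀ c : ℝ, 0 < c → S.v m ≠ q + c • δ' := by
  have hNe := S.neZero
  set f : ℝ → ℂ := fun ε => δ + ε • (I * δ) with hf
  have hfc : Continuous f := by fun_prop
  have hf0 : f 0 = δ := by simp [hf]
  have hft : Tendsto f (𝓝[>] 0) (𝓝 δ) := by
    have := (hfc.tendsto 0).mono_left (nhdsWithin_le_nhds (s := Ioi 0))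
    rwa [hf0] at this
  have hev1 : ∀ᶠ ε in 𝓝[>] (0 : ℝ), f ε ∈ U := hft.eventually_mem hU
  have hev2 : ∀ᶠ ε in 𝓝[>] (0 : ℝ), f ε ≠ 0 := hft.eventually_ne hδ
  have hne : ∀ a : ℝ, ∀ᶠ ε in 𝓝[>] (0 : ℝ), ε ≠ a := by
    intro a
    rcases eq_or_ne a 0 with rfl | ha
    · filter_upwards [self_mem_nhdsWithin] with ε hε
      exact ne_of_gt hε
    · exact mem_nhdsWithin_of_mem_nhds (eventually_ne_nhds ha.symm)
  have hev3 : ∀ᶠ ε in 𝓝[>] (0 : ℝ), ∀ m : ZMod n, ∀ c : ℝ, 0 < c → S.v m ≠ q + c • f ε := by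
    rw [Filter.eventually_all]
    intro m
    filter_upwards [hne (((S.v m - q) / δ).im / ((S.v m - q) / δ).re)] with ε hε c hc heq
    apply hε
    have h1 : (S.v m - q) / δ = (c : ℂ) * (1 + ε * I) := by
      rw [heq, hf]
      simp only [Complex.real_smul]
      field_simp
      ring
    rw [h1]
    simp only [Complex.mul_re, Complex.mul_im, Complex.add_re, Complex.add_im, Complex.one_re,
      Complex.one_im, Complex.ofReal_re, Complex.ofReal_im, Complex.I_re, Complex.I_im]
    have hc' : c ≠ 0 := hc.ne'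
    ring_nf
    field_simp
  obtain ⟨ε, ⟨h1, h2⟩, h3⟩ := ((hev1.and hev2).and hev3).exists
  exact ⟨f ε, h1, h2, h3⟩

/-- rays in a generic direction -/
lemma SimplePolygon.see_dir {q δ : ℂ} (hδ : δ ≠ 0) {U : Set ℂ} (hU : U ∈ 𝓝 δ)
    (hin : ∀ δ' ∈ U, δ' ≠ 0 → ∃ ρ > 0, ∀ c : ℝ, 0 < c → c < ρ → q + c • δ' ∈ interior S.region) :
    ∃ δ' ∈ U, ∃ t0 : ℝ, 0 < t0 ∧ q + t0 • δ' ∈ S.openEdges ∧
      svis S.region q (q + t0 • δ') := by
  obtain ⟨δ', h1, h2, h3⟩ := S.gen_dir q hδ hU
  obtain ⟨t0, ht0, hy, hb⟩ := S.hit h2 (hin δ' h1 h2) h3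
  exact ⟨δ', h1, t0, ht0, hy, svis_ray ht0 hb⟩

/-- a direction whose cone with an edge contains no other edge points into the polygon -/
lemma SimplePolygon.cone_free {T a b δ : ℂ} {σ : ℝ}
    (hfr : ∃ r > 0, ∀ z, dist z T < r → z ∈ frontier S.region →
      (∃ t : ℝ, 0 ≤ t ∧ z - T = t • a) ∨ (∃ t : ℝ, 0 ≤ t ∧ z - T = t • b))
    (hF : ∀ μ : ℝ, 0 < μ → μ < 1 → Fr S.region (T + μ • a) a σ) (hδ : 0 < σ * cr a δ)
    (hb : ¬ ∃ α β : ℝ, 0 < α ∧ 0 < β ∧ b = α • a + β • δ) :
    ∃ ρ > 0, ∀ c : ℝ, 0 < c → c < ρ → T + c • δ ∈ S.region := by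
  obtain ⟨r, hr, hfr⟩ := hfr
  have hcr : cr a δ ≠ 0 := by
    intro h; rw [h, mul_zero] at hδ; exact lt_irrefl _ hδ
  have hzT : ∀ α β : ℝ, (T + α • a + β • δ) - T = α • a + β • δ := by intro α β; ring
  have hno : ∀ z ∈ coneAt T a δ, dist z T < r → z ∉ frontier S.region := by
    rintro z ⟨α, β, hα, hβ, rfl⟩ hd hzf
    rcases hfr _ hd hzf with ⟨t, t0, h⟩ | ⟨t, t0, h⟩
    · rw [hzT] at h
      have h1 : cr a (α • a + β • δ) = cr a (t • a) := by rw [h]
      rw [cr_add_right, cr_smul_right, cr_smul_right, cr_smul_right, cr_self, mul_zero, mul_zero,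
        zero_add] at h1
      rcases mul_eq_zero.1 h1 with h2 | h2
      · linarith
      · exact hcr h2
    · rw [hzT] at h
      rcases t0.eq_or_lt with h0 | h0
      · rw [← h0, zero_smul] at h
        have h1 : cr a (α • a + β • δ) = cr a 0 := by rw [h]
        rw [cr_add_right, cr_smul_right, cr_smul_right, cr_self, mul_zero,
          zero_add, cr_zero_right] at h1
        rcases mul_eq_zero.1 h1 with h2 | h2
        · linarith
        · exact hcr h2
      · apply hb
        refine ⟨α / t, β / t, by positivity, by positivity, ?_⟩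
        have h1 : b = (1 / t) • (t • b) := by
          rw [smul_smul, one_div_mul_cancel h0.ne', one_smul]
        rw [h1, ← h, smul_add, smul_smul, smul_smul]
        congr 2 <;> ring
  have hnorm : ∀ α β : ℝ, 0 ≤ α → 0 ≤ β → dist (T + α • a + β • δ) T ≤ α * ‖a‖ + β * ‖δ‖ := by
    intro α β h0 h0'
    rw [dist_eq_norm, hzT]
    refine (norm_add_le _ _).trans ?_
    rw [norm_smul, norm_smul, Real.norm_eq_abs, Real.norm_eq_abs, abs_of_nonneg h0,
      abs_of_nonneg h0']
  rcases cone_cases S.reg.closed hno with hI | hE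
  · refine ⟨r / (2 * (‖δ‖ + 1)), by positivity, ?_⟩
    intro c hc0 hc1
    have hcδ : c * ‖δ‖ < r / 2 := by
      have h1 : c * (2 * (‖δ‖ + 1)) < r := by rwa [lt_div_iff₀ (by positivity)] at hc1
      have h2 : 0 ≤ c * ‖δ‖ := by positivity
      nlinarith
    have hcont : Continuous fun η : ℝ => T + η • a + c • δ := by fun_prop
    have h1 : Tendsto (fun η : ℝ => T + η • a + c • δ) (𝓝[>] 0) (𝓝 (T + c • δ)) := by
      have := (hcont.tendsto 0).mono_left (nhdsWithin_le_nhds (s := Ioi 0))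
      simpa using this
    refine S.reg.closed.mem_of_tendsto h1 ?_
    have h2 : ∀ᶠ η in 𝓝[>] (0 : ℝ), η ∈ Ioo 0 (r / (2 * (‖a‖ + 1))) :=
      Ioo_mem_nhdsGT (by positivity)
    filter_upwards [h2] with η hη
    apply interior_subset
    apply hI _ ⟨η, c, hη.1, hc0, rfl⟩
    refine (hnorm η c hη.1.le hc0.le).trans_lt ?_
    have h3 : η * (2 * (‖a‖ + 1)) < r := by
      have := hη.2
      rwa [lt_div_iff₀ (by positivity)] at this
    have := hη.1
    nlinarith [norm_nonneg a]
  · exfalso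
    obtain ⟨μ, μ0, μ1, μr⟩ := exists_small a (show 0 < r / 2 by linarith) 1 one_pos
    obtain ⟨ρ1, hρ1, hball⟩ := hF μ μ0 μ1
    obtain ⟨ε, ε0, -, ε2⟩ := exists_small δ (show 0 < min ρ1 (r / 2) by positivity) 1 one_pos
    have hd : dist (T + μ • a + ε • δ) T < r := by
      refine (hnorm μ ε μ0.le ε0.le).trans_lt ?_
      have := ε2.trans_le (min_le_right _ _)
      linarith
    apply hE _ ⟨μ, ε, μ0, ε0, rfl⟩ hd
    apply interior_subset
    apply hball
    · rw [dist_eq_norm, add_sub_cancel_left, norm_smul, Real.norm_eq_abs, abs_of_pos ε0]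
      exact ε2.trans_le (min_le_left _ _)
    · rw [add_sub_cancel_left, cr_smul_right]
      have : σ * (ε * cr a δ) = ε * (σ * cr a δ) := by ring
      rw [this]; positivity

/-- directions on the inner side of both edges at a vertex point into the polygon -/
lemma SimplePolygon.dir_in (i : ZMod n) {δ : ℂ} (h1 : 0 < S.side i * cr (S.dir i) δ)
    (h2 : 0 < S.side (i - 1) * cr (S.dir (i - 1)) δ) :
    ∃ ρ > 0, ∀ c : ℝ, 0 < c → c < ρ → S.v i + c • δ ∈ interior S.region := by
  set T := S.v i with hT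
  set a := S.dir i with ha
  set b := S.v (i - 1) - T with hb
  have hbd : b = -(S.dir (i - 1)) := by
    rw [hb]; unfold SimplePolygon.dir; rw [sub_add_cancel]; ring
  have hcra : cr a δ ≠ 0 := by
    intro h; rw [h, mul_zero] at h1; exact lt_irrefl _ h1
  have hcrbd : cr b δ = -cr (S.dir (i - 1)) δ := by
    rw [hbd]; unfold cr; simp; ring
  have hcrb : cr b δ ≠ 0 := by
    intro h
    rw [hcrbd] at h
    have : cr (S.dir (i - 1)) δ = 0 := by linarith
    rw [this, mul_zero] at h2; exact lt_irrefl _ h2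
  have hvf := S.vertex_frontier i
  have hFa : ∀ μ : ℝ, 0 < μ → μ < 1 → Fr S.region (T + μ • a) a (S.side i) := by
    intro μ h0 h1
    have := S.side_fr (S.ep_mem h0 h1 (i := i))
    exact this
  have hFb : ∀ μ : ℝ, 0 < μ → μ < 1 → Fr S.region (T + μ • b) b (-S.side (i - 1)) := by
    intro μ h0 h1
    obtain ⟨r, hr, hball⟩ := S.side_fr (S.ep_mem (i := i - 1) (t := 1 - μ) (by linarith)
      (by linarith))
    have he : S.ep (i - 1) (1 - μ) = T + μ • b := by
      rw [S.ep_one_sub, sub_add_cancel]; rfl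
    rw [he] at hball
    refine ⟨r, hr, ?_⟩
    intro z hz hs
    apply hball z hz
    have e2 : cr b (z - (T + μ • b)) = -cr (S.dir (i - 1)) (z - (T + μ • b)) := by
      rw [hbd]; unfold cr; simp; ring
    rw [e2] at hs
    linarith
  have hreg : ∃ ρ > 0, ∀ c : ℝ, 0 < c → c < ρ → T + c • δ ∈ S.region := by
    by_cases hc : ∃ α β : ℝ, 0 < α ∧ 0 < β ∧ b = α • a + β • δ
    · refine S.cone_free (a := b) (b := a) (σ := -S.side (i - 1)) ?_ hFb ?_ ?_
      · obtain ⟨r, hr, h⟩ := hvf
        exact ⟨r, hr, fun z hz hzf => (h z hz hzf).symm⟩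
      · rw [hcrbd]; linarith
      · rintro ⟨α', β', hα', hβ', h⟩
        obtain ⟨α, β, hα, hβ, h'⟩ := hc
        have h3 : cr a a = cr a (α' • b + β' • δ) := by rw [← h]
        rw [cr_self, h', cr_add_right, cr_smul_right, cr_add_right, cr_smul_right, cr_smul_right,
          cr_smul_right, cr_self, mul_zero, zero_add] at h3
        have h4 : (α' * β + β') * cr a δ = 0 := by linarith
        rcases mul_eq_zero.1 h4 with h5 | h5
        · have : 0 < α' * β + β' := by positivity
          linarith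
        · exact hcra h5
    · exact S.cone_free hvf hFa h1 hc
  obtain ⟨ρ, hρ, hreg⟩ := hreg
  obtain ⟨r, hr, hfr⟩ := hvf
  refine ⟨min ρ (r / (‖δ‖ + 1)), by positivity, ?_⟩
  intro c hc0 hc1
  by_contra hcon
  have hz := mem_frontier_of (hreg c hc0 (hc1.trans_le (min_le_left _ _))) hcon
  have hd : dist (T + c • δ) T < r := by
    rw [dist_eq_norm, add_sub_cancel_left, norm_smul, Real.norm_eq_abs, abs_of_pos hc0]
    have h3 : c * (‖δ‖ + 1) < r := by
      have := hc1.trans_le (min_le_right _ _)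
      rwa [lt_div_iff₀ (by positivity)] at this
    nlinarith [norm_nonneg δ]
  rcases hfr _ hd hz with ⟨t, -, h⟩ | ⟨t, -, h⟩
  · rw [add_sub_cancel_left] at h
    have h3 : cr a (c • δ) = cr a (t • a) := by rw [h]; rfl
    rw [cr_smul_right, cr_smul_right, cr_self, mul_zero] at h3
    rcases mul_eq_zero.1 h3 with h4 | h4
    · linarith
    · exact hcra h4
  · rw [add_sub_cancel_left] at h
    have h3 : cr b (c • δ) = cr b (t • b) := by rw [h]
    rw [cr_smul_right, cr_smul_right, cr_self, mul_zero] at h3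
    rcases mul_eq_zero.1 h3 with h4 | h4
    · linarith
    · exact hcrb h4

lemma cr_I_norm (w : ℂ) : cr w (I * w) = ‖w‖ ^ 2 := by
  rw [← Complex.normSq_eq_norm_sq, Complex.normSq_apply]
  unfold cr; simp

/-- there is a direction on the inner side of both edges at a vertex -/
lemma SimplePolygon.dir_exists (i : ZMod n) : ∃ δ : ℂ, 0 < S.side i * cr (S.dir i) δ ∧
    0 < S.side (i - 1) * cr (S.dir (i - 1)) δ := by
  have hs1 : S.side i * S.side i = 1 := by
    rcases S.side_pm i with h | h <;> rw [h] <;> norm_num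
  have hs2 : S.side (i - 1) * S.side (i - 1) = 1 := by
    rcases S.side_pm (i - 1) with h | h <;> rw [h] <;> norm_num
  by_cases hD : cr (S.dir i) (S.dir (i - 1)) = 0
  swap
  · set D := cr (S.dir i) (S.dir (i - 1)) with hDd
    refine ⟨(-(S.side (i - 1) / D)) • S.dir i + (S.side i / D) • S.dir (i - 1), ?_, ?_⟩
    · rw [cr_add_right, cr_smul_right, cr_smul_right, cr_self, ← hDd]
      have : S.side i * (-(S.side (i - 1) / D) * 0 + S.side i / D * D) =
        S.side i * S.side i := by field_simp; ring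
      rw [this, hs1]; exact one_pos
    · rw [cr_add_right, cr_smul_right, cr_smul_right, cr_self, cr_swap (S.dir (i - 1)), ← hDd]
      have : S.side (i - 1) * (-(S.side (i - 1) / D) * -D + S.side i / D * 0) =
        S.side (i - 1) * S.side (i - 1) := by field_simp; ring
      rw [this, hs2]; exact one_pos
  obtain ⟨lam, hlam⟩ := parallel_of_cr (S.dir_ne i) hD
  set w := S.dir i with hw
  have hw0 : w ≠ 0 := S.dir_ne i
  have hwn : 0 < ‖w‖ := norm_pos_iff.2 hw0
  have hlam0 : 0 < lam := by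
    rcases lt_trichotomy lam 0 with h | h | h
    · exfalso
      apply S.not_parallel i (t := -lam) (by linarith)
      have h1 : S.v (i - 1) - S.v i = -(S.dir (i - 1)) := by
        unfold SimplePolygon.dir; rw [sub_add_cancel]; ring
      rw [h1, hlam, neg_smul]; rfl
    · exfalso
      rw [h, zero_smul] at hlam
      exact S.dir_ne (i - 1) hlam
    · exact h
  -- the local structure
  obtain ⟨r, hr, hfr⟩ := S.vertex_frontier i
  obtain ⟨σ, hσ, hin, hout⟩ := half_balls S.reg.closed S.region_closure hw0 (S.v_frontier i) hr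
    (by
      intro z hz hzf
      rcases hfr z hz hzf with ⟨t, -, h⟩ | ⟨t, -, h⟩
      · rw [h, cr_smul_right]
        have : cr w (S.v (i + 1) - S.v i) = 0 := cr_self w
        rw [this, mul_zero]
      · have h1 : S.v (i - 1) - S.v i = -(S.dir (i - 1)) := by
          unfold SimplePolygon.dir; rw [sub_add_cancel]; ring
        rw [h, h1, hlam, cr_smul_right]
        have : cr w (-(lam • w)) = 0 := by
          rw [← neg_smul, cr_smul_right, cr_self, mul_zero]
        rw [this, mul_zero])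
  have key : ∀ (e : ZMod n) (t c : ℝ), 0 < t → t < 1 → dist (S.ep e t) (S.v i) < r → 0 < c →
      S.dir e = c • w → cr w (S.ep e t - S.v i) = 0 → S.side e = σ := by
    intro e t c ht0 ht1 hd hc hdir hcr
    by_contra hne
    have hse : S.side e = -σ := by
      rcases S.side_pm e with h | h <;> rcases hσ with h' | h' <;> rw [h, h'] at hne ⊢ <;>
        first | exact absurd rfl hne | norm_num
    obtain ⟨ρ, hρ, hball⟩ := S.side_fr (S.ep_mem ht0 ht1 (i := e))
    obtain ⟨η, η0, -, η2⟩ := exists_small (I * w)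
      (show 0 < min ρ (r - dist (S.ep e t) (S.v i)) from lt_min hρ (by linarith)) 1 one_pos
    set z := S.ep e t + (S.side e * η) • (I * w) with hz
    have habs : |S.side e| = 1 := by
      rcases S.side_pm e with h | h <;> rw [h] <;> norm_num
    have hσ2 : S.side e * S.side e = 1 := by
      rcases S.side_pm e with h | h <;> rw [h] <;> norm_num
    have hzd : dist z (S.ep e t) < min ρ (r - dist (S.ep e t) (S.v i)) := by
      rw [dist_eq_norm, hz, add_sub_cancel_left, norm_smul, Real.norm_eq_abs, abs_mul, habs,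
        one_mul, abs_of_pos η0]
      exact η2
    have h1 : z ∈ interior S.region := by
      apply hball z (hzd.trans_le (min_le_left _ _))
      rw [hz, add_sub_cancel_left, hdir, cr_smul_left, cr_smul_right, cr_I_norm]
      have : S.side e * (c * (S.side e * η * ‖w‖ ^ 2)) =
        (S.side e * S.side e) * (c * (η * ‖w‖ ^ 2)) := by ring
      rw [this, hσ2]; positivity
    have h2 : z ∉ S.region := by
      apply hout z
      · have := dist_triangle z (S.ep e t) (S.v i)
        have := hzd.trans_le (min_le_right _ _)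
        linarith
      · have e1 : z - S.v i = (S.ep e t - S.v i) + (S.side e * η) • (I * w) := by rw [hz]; ring
        rw [e1, cr_add_right, hcr, cr_smul_right, cr_I_norm, zero_add, hse]
        have hσσ : σ * σ = 1 := by rcases hσ with h' | h' <;> rw [h'] <;> norm_num
        have : σ * (-σ * η * ‖w‖ ^ 2) = -((σ * σ) * (η * ‖w‖ ^ 2)) := by ring
        rw [this, hσσ]
        have : 0 < η * ‖w‖ ^ 2 := by positivity
        linarith
    exact h2 (interior_subset h1)
  have hside1 : S.side i = σ := by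
    obtain ⟨μ, μ0, μ1, μr⟩ := exists_small w hr 1 one_pos
    apply key i μ 1 μ0 μ1 _ one_pos (by rw [one_smul])
    · rw [S.ep_sub_v, cr_smul_right, cr_self, mul_zero]
    · rw [dist_eq_norm, S.ep_sub_v, norm_smul, Real.norm_eq_abs, abs_of_pos μ0]; exact μr
  have hside2 : S.side (i - 1) = σ := by
    obtain ⟨μ, μ0, μ1, μr⟩ := exists_small (S.dir (i - 1)) hr 1 one_pos
    have he : S.ep (i - 1) (1 - μ) - S.v i = (-μ) • S.dir (i - 1) := by
      rw [S.ep_one_sub, sub_add_cancel, pt_sub_left]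
      unfold SimplePolygon.dir
      rw [sub_add_cancel, neg_smul, ← smul_neg]; congr 1; ring
    apply key (i - 1) (1 - μ) lam (by linarith) (by linarith) _ hlam0 hlam
    · rw [he, hlam, smul_smul, cr_smul_right, cr_self, mul_zero]
    · rw [dist_eq_norm, he, norm_smul, Real.norm_eq_abs, abs_neg, abs_of_pos μ0]; exact μr
  have hσσ : σ * σ = 1 := by rcases hσ with h' | h' <;> rw [h'] <;> norm_num
  refine ⟨σ • (I * w), ?_, ?_⟩
  · rw [hside1, cr_smul_right, cr_I_norm]
    have : σ * (σ * ‖w‖ ^ 2) = (σ * σ) * ‖w‖ ^ 2 := by ring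
    rw [this, hσσ]; positivity
  · rw [hside2, hlam, cr_smul_left, cr_smul_right, cr_I_norm]
    have : σ * (lam * (σ * ‖w‖ ^ 2)) = (σ * σ) * (lam * ‖w‖ ^ 2) := by ring
    rw [this, hσσ]; positivity

end Run7.h395
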