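import Pool.Agent.Run7.h395.LocN

/-!
# Every inner point is lit after `4 n` steps
-/

open Set Topology Filter Complex

noncomputable section

namespace Run7.h395

variable {n : ℕ} (S : SimplePolygon n)

/-- every point of the polygon sees a point of an open edge -/
lemma SimplePolygon.see_some {q : ℂ} (hq : q ∈ S.region) :
    ∃ y ∈ S.openEdges, svis S.region q y := by
  by_cases hqi : q ∈ interior S.region
  · obtain ⟨r, hr, hball⟩ := Metric.isOpen_iff.1 isOpen_interior q hqi
    obtain ⟨δ', -, t0, ht0, hy, hv⟩ := S.see_dir (q := q) (δ := 1) _root_.one_ne_zero (U := univ)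
      univ_mem (by
        intro δ' _ hδ'
        have hn : 0 < ‖δ'‖ := norm_pos_iff.2 hδ'
        refine ⟨r / ‖δ'‖, by positivity, ?_⟩
        intro c hc0 hc1
        apply hball
        rw [Metric.mem_ball, dist_eq_norm, add_sub_cancel_left, norm_smul, Real.norm_eq_abs,
          abs_of_pos hc0]
        rwa [lt_div_iff₀ hn] at hc1)
    exact ⟨_, hy, hv⟩
  rcases S.frontier_cases (mem_frontier_of hq hqi) with ⟨i, rfl⟩ | ⟨e, he⟩
  · obtain ⟨δ, h1, h2⟩ := S.dir_exists i
    have hδ : δ ≠ 0 := by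
      rintro rfl; simp [cr_zero_right] at h1
    have hU : {z : ℂ | 0 < S.side i * cr (S.dir i) z} ∩
        {z : ℂ | 0 < S.side (i - 1) * cr (S.dir (i - 1)) z} ∈ 𝓝 δ := by
      apply Filter.inter_mem
      · exact (isOpen_lt continuous_const (continuous_const.mul
          (continuous_cr continuous_const continuous_id))).mem_nhds h1
      · exact (isOpen_lt continuous_const (continuous_const.mul
          (continuous_cr continuous_const continuous_id))).mem_nhds h2
    obtain ⟨δ', -, t0, ht0, hy, hv⟩ := S.see_dir (q := S.v i) hδ hU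
      (fun δ' hδ' _ => S.dir_in i hδ'.1 hδ'.2)
    exact ⟨_, hy, hv⟩
  · have hs2 : S.side e * S.side e = 1 := by
      rcases S.side_pm e with h | h <;> rw [h] <;> norm_num
    have hwn : 0 < ‖S.dir e‖ := norm_pos_iff.2 (S.dir_ne e)
    have h1 : 0 < S.side e * cr (S.dir e) (S.side e • (I * S.dir e)) := by
      rw [cr_smul_right, cr_I_norm]
      have : S.side e * (S.side e * ‖S.dir e‖ ^ 2) = (S.side e * S.side e) * ‖S.dir e‖ ^ 2 := by
        ring
      rw [this, hs2]; positivity
    have hδ : S.side e • (I * S.dir e) ≠ 0 := by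
      intro h
      rw [h, cr_zero_right, mul_zero] at h1
      exact lt_irrefl _ h1
    obtain ⟨δ', -, t0, ht0, hy, hv⟩ := S.see_dir (q := q) hδ
      (U := {z : ℂ | 0 < S.side e * cr (S.dir e) z})
      ((isOpen_lt continuous_const (continuous_const.mul
          (continuous_cr continuous_const continuous_id))).mem_nhds h1)
      (by
        intro δ' hδ' hne
        have hδ' : 0 < S.side e * cr (S.dir e) δ' := hδ'
        obtain ⟨ρ, hρ, hball⟩ := S.side_fr he
        have hn : 0 < ‖δ'‖ := norm_pos_iff.2 hne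
        refine ⟨ρ / ‖δ'‖, by positivity, ?_⟩
        intro c hc0 hc1
        apply hball
        · rw [dist_eq_norm, add_sub_cancel_left, norm_smul, Real.norm_eq_abs,
            abs_of_pos hc0]
          rwa [lt_div_iff₀ hn] at hc1
        · rw [add_sub_cancel_left, cr_smul_right]
          have : S.side e * (c * cr (S.dir e) δ') = c * (S.side e * cr (S.dir e) δ') := by ring
          rw [this]; positivity)
    exact ⟨_, hy, hv⟩

/-- coordinates along two directions -/
lemma coords {d ω : ℂ} (h : cr d ω ≠ 0) (s : ℂ) (φ ψ : ℝ) :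
    cr (s + φ • d + ψ • ω - s) ω / cr d ω = φ ∧ cr d (s + φ • d + ψ • ω - s) / cr d ω = ψ := by
  have e : s + φ • d + ψ • ω - s = φ • d + ψ • ω := by ring
  rw [e]
  constructor
  · have : cr (φ • d + ψ • ω) ω = φ * cr d ω := by
      rw [cr_add_left, cr_smul_left, cr_smul_left, cr_self]; ring
    rw [this, mul_div_cancel_right₀ _ h]
  · have : cr d (φ • d + ψ • ω) = ψ * cr d ω := by
      rw [cr_add_right, cr_smul_right, cr_smul_right, cr_self]; ring
    rw [this, mul_div_cancel_right₀ _ h]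

/-- an edge crossing the sector leads to a contradiction -/
lemma SimplePolygon.sector {e g : ZMod n} {s d ω A B z : ℂ} {t0 μ : ℝ} (hdω : cr d ω ≠ 0)
    (hAB : segment ℝ A B ⊆ S.edge g) (ht0 : 0 < t0)
    (hin : ∀ c : ℝ, 0 < c → c < t0 → s + c • ω ∈ interior S.region)
    (hopen : ∀ c : ℝ, 0 < c → c ≤ 1 → s + c • d ∈ S.oedge e)
    (hline : ∀ x ∈ S.edge e, cr d (x - s) = 0)
    (hA : ¬ (0 < cr d (A - s) / cr d ω ∧ 0 ≤ cr (A - s) ω / cr d ω))
    (hB : ¬ (0 < cr d (B - s) / cr d ω ∧ 0 ≤ cr (B - s) ω / cr d ω))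
    (h0 : 0 ≤ μ) (h1 : μ ≤ 1) (hz : z = pt A B μ)
    (hφ : 0 < cr (z - s) ω / cr d ω) (hψ : 0 < cr d (z - s) / cr d ω)
    (hsum : cr (z - s) ω / cr d ω + cr d (z - s) / cr d ω / t0 = 1)
    (hApos : 0 < cr d (A - s) / cr d ω) : False := by
  set φ : ℂ → ℝ := fun x => cr (x - s) ω / cr d ω with hφd
  set ψ : ℂ → ℝ := fun x => cr d (x - s) / cr d ω with hψd
  have hφp : ∀ r : ℝ, φ (pt A B r) = (1 - r) * φ A + r * φ B := by
    intro r
    have : cr (pt A B r - s) ω = (1 - r) * cr (A - s) ω + r * cr (B - s) ω := by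
      unfold cr; simp only [pt_re, pt_im, Complex.sub_re, Complex.sub_im]; ring
    change cr (pt A B r - s) ω / cr d ω = _
    rw [this]; change _ = (1 - r) * (cr (A - s) ω / cr d ω) + r * (cr (B - s) ω / cr d ω); ring
  have hψp : ∀ r : ℝ, ψ (pt A B r) = (1 - r) * ψ A + r * ψ B := by
    intro r
    have : cr d (pt A B r - s) = (1 - r) * cr d (A - s) + r * cr d (B - s) := by
      unfold cr; simp only [pt_re, pt_im, Complex.sub_re, Complex.sub_im]; ring
    change cr d (pt A B r - s) / cr d ω = _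
    rw [this]; change _ = (1 - r) * (cr d (A - s) / cr d ω) + r * (cr d (B - s) / cr d ω); ring
  have hdec : ∀ x : ℂ, x = s + φ x • d + ψ x • ω := by
    intro x
    have := decomp hdω (x - s)
    change x = s + (cr (x - s) ω / cr d ω) • d + (cr d (x - s) / cr d ω) • ω
    rw [add_assoc, ← this]; ring
  have hψA : 0 < ψ A := hApos
  have hφA : φ A < 0 := by
    by_contra hcon
    push Not at hcon
    exact hA ⟨hApos, hcon⟩
  have hφz : 0 < (1 - μ) * φ A + μ * φ B := by
    rw [← hφp, ← hz]; exact hφ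
  have hψz : 0 < (1 - μ) * ψ A + μ * ψ B := by
    rw [← hψp, ← hz]; exact hψ
  have hsum' : ((1 - μ) * φ A + μ * φ B) + ((1 - μ) * ψ A + μ * ψ B) / t0 = 1 := by
    rw [← hφp, ← hψp, ← hz]; exact hsum
  have hμ0 : 0 < μ := by
    rcases h0.eq_or_lt with h | h
    · rw [← h] at hφz; linarith
    · exact h
  have hφB : 0 < φ B := by
    by_contra hcon
    push Not at hcon
    have k1 : (1 - μ) * φ A ≤ 0 := mul_nonpos_of_nonneg_of_nonpos (by linarith) hφA.le
    have k2 : μ * φ B ≤ 0 := mul_nonpos_of_nonneg_of_nonpos h0 hcon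
    linarith
  have hψB : ψ B ≤ 0 := by
    by_contra hcon
    push Not at hcon
    exact hB ⟨hcon, hφB.le⟩
  -- the crossing with the ray
  set ra := -φ A / (φ B - φ A) with hra
  have hden : 0 < φ B - φ A := by linarith
  have hra0 : 0 < ra := div_pos (by linarith) hden
  have hφa : (1 - ra) * φ A + ra * φ B = 0 := by
    have : ra * (φ B - φ A) = -φ A := div_mul_cancel₀ _ hden.ne'
    linarith
  have hraμ : ra < μ := by
    have : (μ - ra) * (φ B - φ A) > 0 := by linarith
    by_contra hcon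
    push Not at hcon
    have : (μ - ra) * (φ B - φ A) ≤ 0 := mul_nonpos_of_nonpos_of_nonneg (by linarith) hden.le
    linarith
  have hψa : 0 < (1 - ra) * ψ A + ra * ψ B := by
    -- monotone in r
    have : (1 - ra) * ψ A + ra * ψ B = ((1 - μ) * ψ A + μ * ψ B) + (μ - ra) * (ψ A - ψ B) := by
      ring
    rw [this]
    have : 0 ≤ (μ - ra) * (ψ A - ψ B) := mul_nonneg (by linarith) (by linarith)
    linarith
  have hga : pt A B ra = s + ((1 - ra) * ψ A + ra * ψ B) • ω := by
    have := hdec (pt A B ra)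
    rw [hφp, hψp, hφa, zero_smul, add_zero] at this
    exact this
  have hge : t0 ≤ (1 - ra) * ψ A + ra * ψ B := by
    by_contra hcon
    push Not at hcon
    have h2 := hin _ hψa hcon
    rw [← hga] at h2
    exact frontier_not_int (S.edge_sub_frontier g (hAB (pt_mem_segment hra0.le
      (by linarith)))) h2
  -- the crossing with the edge
  set rb := ψ A / (ψ A - ψ B) with hrb
  have hden' : 0 < ψ A - ψ B := by linarith
  have hrb0 : 0 < rb := div_pos hψA hden'
  have hrb1 : rb ≤ 1 := by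
    rw [hrb, div_le_one hden']; linarith
  have hψb : (1 - rb) * ψ A + rb * ψ B = 0 := by
    have : rb * (ψ A - ψ B) = ψ A := div_mul_cancel₀ _ hden'.ne'
    linarith
  have hrbμ : μ < rb := by
    by_contra hcon
    push Not at hcon
    have : (rb - μ) * (ψ A - ψ B) ≤ 0 := mul_nonpos_of_nonpos_of_nonneg (by linarith) hden'.le
    linarith
  set aa := (1 - rb) * φ A + rb * φ B with haa
  have haa0 : 0 < aa := by
    have : aa = ((1 - μ) * φ A + μ * φ B) + (rb - μ) * (φ B - φ A) := by rw [haa]; ring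
    rw [this]
    have : 0 < (rb - μ) * (φ B - φ A) := mul_pos (by linarith) hden
    linarith
  have haa1 : aa ≤ 1 := by
    -- L is affine
    have hLa : 1 ≤ ((1 - ra) * ψ A + ra * ψ B) / t0 := by
      rw [le_div_iff₀ ht0]; linarith
    by_contra hcon
    push Not at hcon
    -- weights
    have e1 : (rb - ra) * (((1 - μ) * φ A + μ * φ B) + ((1 - μ) * ψ A + μ * ψ B) / t0) =
        (rb - μ) * (((1 - ra) * φ A + ra * φ B) + ((1 - ra) * ψ A + ra * ψ B) / t0) +
        (μ - ra) * (((1 - rb) * φ A + rb * φ B) + ((1 - rb) * ψ A + rb * ψ B) / t0) := by ring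
    rw [hsum', hφa, hψb, ← haa] at e1
    have h3 : (rb - μ) * 1 ≤ (rb - μ) * (0 + ((1 - ra) * ψ A + ra * ψ B) / t0) :=
      mul_le_mul_of_nonneg_left (by linarith) (by linarith)
    have h4 : (μ - ra) * 1 < (μ - ra) * (aa + 0 / t0) :=
      mul_lt_mul_of_pos_left (by rw [zero_div]; linarith) (by linarith)
    linarith
  have hgb : pt A B rb = s + aa • d := by
    have := hdec (pt A B rb)
    rw [hφp, hψp, hψb, zero_smul, add_zero] at this
    exact this
  have hmem : pt A B rb ∈ S.edge g := hAB (pt_mem_segment hrb0.le hrb1)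
  have hge' : g = e := by
    apply S.oedge_unique (x := pt A B rb) _ hmem
    rw [hgb]; exact hopen aa haa0 haa1
  have hze : z ∈ S.edge e := by
    rw [← hge', hz]; exact hAB (pt_mem_segment h0 h1)
  have := hline z hze
  have hψz' : 0 < cr d (z - s) / cr d ω := hψ
  rw [this, zero_div] at hψz'
  exact lt_irrefl _ hψz'

/-- two points of an open edge see a common point of an open edge -/
lemma SimplePolygon.common {e : ZMod n} {t t' : ℝ} (h0 : 0 < t) (h1 : t < 1) (h0' : 0 < t')
    (h1' : t' < 1) (hne : t ≠ t') : ∃ y ∈ S.openEdges, svis S.region (S.ep e t) y ∧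
      svis S.region y (S.ep e t') := by
  have hNe := S.neZero
  set s := S.ep e t with hs
  set s' := S.ep e t' with hs'
  set d := s' - s with hd
  have hdd : d = (t' - t) • S.dir e := by rw [hd, hs, hs', S.ep_sub]
  have htt : t' - t ≠ 0 := sub_ne_zero.2 hne.symm
  have hd0 : d ≠ 0 := by rw [hdd]; exact smul_ne_zero htt (S.dir_ne e)
  have hsm := S.ep_mem h0 h1 (i := e)
  have hsm' := S.ep_mem h0' h1' (i := e)
  rw [← hs] at hsm
  rw [← hs'] at hsm'
  have hs2 : S.side e * S.side e = 1 := by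
    rcases S.side_pm e with h | h <;> rw [h] <;> norm_num
  have hwn : 0 < ‖S.dir e‖ := norm_pos_iff.2 (S.dir_ne e)
  set ν := S.side e • (I * S.dir e) with hν
  have hcν : cr (S.dir e) ν = S.side e * ‖S.dir e‖ ^ 2 := by rw [hν, cr_smul_right, cr_I_norm]
  have hsν : 0 < S.side e * cr (S.dir e) ν := by
    rw [hcν, ← mul_assoc, hs2]; positivity
  have hcdν : cr d ν ≠ 0 := by
    rw [hdd, cr_smul_left]
    apply mul_ne_zero htt
    intro h; rw [h, mul_zero] at hsν; exact lt_irrefl _ hsν
  -- choose the slope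
  have hev : ∀ᶠ ε in 𝓝[>] (0 : ℝ), ∀ m : ZMod n, ¬ (0 < cr d (S.v m - s) / cr d ν ∧
      cr d (S.v m - s) / cr d ν ≤ ε * (cr (S.v m - s) ν / cr d ν)) := by
    rw [Filter.eventually_all]
    intro m
    by_cases hβ : 0 < cr d (S.v m - s) / cr d ν
    · have hc : Continuous fun ε : ℝ => ε * (cr (S.v m - s) ν / cr d ν) := by fun_prop
      have h2 : ∀ᶠ ε in 𝓝 (0 : ℝ), ε * (cr (S.v m - s) ν / cr d ν) <
          cr d (S.v m - s) / cr d ν := by
        apply hc.continuousAt.eventually_lt continuousAt_const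
        simpa using hβ
      filter_upwards [mem_nhdsWithin_of_mem_nhds h2] with ε hε h3
      have hε : ε * (cr (S.v m - s) ν / cr d ν) < cr d (S.v m - s) / cr d ν := hε
      linarith [h3.2]
    · exact Filter.Eventually.of_forall fun ε h => hβ h.1
  obtain ⟨ε, hε, hε0⟩ := (hev.and self_mem_nhdsWithin).exists
  have hε0 : 0 < ε := hε0
  set ω := d + ε • ν with hω
  have hdω : cr d ω = ε * cr d ν := by
    rw [hω, cr_add_right, cr_self, cr_smul_right, zero_add]
  have hdω0 : cr d ω ≠ 0 := by rw [hdω]; exact mul_ne_zero hε0.ne' hcdν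
  have hω0 : ω ≠ 0 := by
    intro h; rw [h, cr_zero_right] at hdω0; exact hdω0 rfl
  -- no vertices in the sector
  have hnv : ∀ m, ¬ (0 < cr d (S.v m - s) / cr d ω ∧ 0 ≤ cr (S.v m - s) ω / cr d ω) := by
    rintro m ⟨g1, g2⟩
    apply hε m
    have e1 : cr d (S.v m - s) / cr d ν = ε * (cr d (S.v m - s) / cr d ω) := by
      rw [hdω]; field_simp
    have e2 : cr (S.v m - s) ω = cr (S.v m - s) d + ε * cr (S.v m - s) ν := by
      rw [hω, cr_add_right, cr_smul_right]
    have e3 : cr (S.v m - s) ω / cr d ω =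
        cr (S.v m - s) ν / cr d ν - cr d (S.v m - s) / cr d ω := by
      rw [e2, cr_swap (S.v m - s) d, hdω]; field_simp; ring
    rw [e3] at g2
    constructor
    · rw [e1]; positivity
    · rw [e1]
      exact mul_le_mul_of_nonneg_left (by linarith) hε0.le
  -- the hit
  have hωside : 0 < S.side e * cr (S.dir e) ω := by
    rw [hω, cr_add_right, hdd, cr_smul_right, cr_self, mul_zero, zero_add, cr_smul_right]
    have : S.side e * (ε * cr (S.dir e) ν) = ε * (S.side e * cr (S.dir e) ν) := by ring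
    rw [this]; positivity
  obtain ⟨t0, ht0, hy, hbef⟩ := S.hit (q := s) hω0 (by
      obtain ⟨ρ, hρ, hball⟩ := S.side_fr hsm
      have hn : 0 < ‖ω‖ := norm_pos_iff.2 hω0
      refine ⟨ρ / ‖ω‖, by positivity, ?_⟩
      intro c hc0 hc1
      apply hball
      · rw [dist_eq_norm, add_sub_cancel_left, norm_smul, Real.norm_eq_abs,
          abs_of_pos hc0]
        rwa [lt_div_iff₀ hn] at hc1
      · rw [add_sub_cancel_left, cr_smul_right]
        have : S.side e * (c * cr (S.dir e) ω) = c * (S.side e * cr (S.dir e) ω) := by ring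
        rw [this]; positivity)
    (by
      intro m c hc hm
      apply hnv m
      have h5 := coords hdω0 s 0 c
      rw [zero_smul, add_zero, ← hm] at h5
      rw [h5.1, h5.2]
      exact ⟨hc, le_rfl⟩)
  set y := s + t0 • ω with hyd
  refine ⟨y, hy, svis_ray ht0 hbef, ?_⟩
  -- points of the open segment
  have hcoord : ∀ lam : ℝ, pt y s' lam = s + lam • d + ((1 - lam) * t0) • ω := by
    intro lam
    have : s' = s + d := by rw [hd]; ring
    rw [this, hyd]; unfold pt; simp only [Complex.real_smul]; push_cast; ring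
  have hopen : ∀ c : ℝ, 0 < c → c ≤ 1 → s + c • d ∈ S.oedge e := by
    intro c hc0 hc1
    have e1 : s + c • d = pt s s' c := rfl
    rw [e1]
    exact (convex_openSegment _ _).segment_subset hsm hsm' (pt_mem_segment hc0.le hc1)
  have hline : ∀ x ∈ S.edge e, cr d (x - s) = 0 := by
    intro x hx
    rw [hdd, cr_smul_left]
    have : cr (S.dir e) (x - s) = 0 := edge_cr hx s (S.oedge_sub e hsm)
    rw [this, mul_zero]
  have hnofr : ∀ z ∈ openSegment ℝ y s', z ∉ frontier S.region := by
    intro z hz hzf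
    rw [mem_openSegment_iff] at hz
    obtain ⟨lam, l0, l1, hzl⟩ := hz
    rw [hcoord] at hzl
    rw [S.region_frontier, mem_iUnion] at hzf
    obtain ⟨g, hg⟩ := hzf
    rw [mem_segment_iff] at hg
    obtain ⟨μ, m0, m1, hzμ⟩ := hg
    obtain ⟨c1, c2⟩ := coords hdω0 s lam ((1 - lam) * t0)
    rw [← hzl] at c1 c2
    have hψ0 : 0 < cr d (z - s) / cr d ω := by
      rw [c2]; exact mul_pos (by linarith) ht0
    have hφ0 : 0 < cr (z - s) ω / cr d ω := by rw [c1]; exact l0
    have hsum : cr (z - s) ω / cr d ω + cr d (z - s) / cr d ω / t0 = 1 := by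
      rw [c1, c2, mul_div_cancel_right₀ _ ht0.ne']; ring
    by_cases hApos : 0 < cr d (S.v g - s) / cr d ω
    · exact S.sector (A := S.v g) (B := S.v (g + 1)) (g := g) hdω0 Subset.rfl ht0 hbef hopen hline
        (hnv g) (hnv (g + 1)) m0 m1 hzμ hφ0 hψ0 hsum hApos
    · have hBpos : 0 < cr d (S.v (g + 1) - s) / cr d ω := by
        by_contra hcon
        push Not at hApos hcon
        have e1 : cr d (z - s) / cr d ω = (1 - μ) * (cr d (S.v g - s) / cr d ω) +
            μ * (cr d (S.v (g + 1) - s) / cr d ω) := by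
          have : cr d (z - s) = (1 - μ) * cr d (S.v g - s) + μ * cr d (S.v (g + 1) - s) := by
            rw [hzμ]; unfold cr; simp only [pt_re, pt_im, Complex.sub_re, Complex.sub_im]; ring
          rw [this]; ring
        have k1 : (1 - μ) * (cr d (S.v g - s) / cr d ω) ≤ 0 :=
          mul_nonpos_of_nonneg_of_nonpos (by linarith) hApos
        have k2 : μ * (cr d (S.v (g + 1) - s) / cr d ω) ≤ 0 :=
          mul_nonpos_of_nonneg_of_nonpos m0 hcon
        linarith
      have hzμ' : z = pt (S.v (g + 1)) (S.v g) (1 - μ) := by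
        rw [hzμ]; unfold pt; simp only [Complex.real_smul]; push_cast; ring
      exact S.sector (A := S.v (g + 1)) (B := S.v g) (g := g) hdω0
        (by rw [segment_symm]; exact Subset.rfl) ht0 hbef hopen hline
        (hnv (g + 1)) (hnv g) (by linarith) (by linarith) hzμ' hφ0 hψ0 hsum hBpos
  rcases int_or_ext S.reg.closed (convex_openSegment y s').isPreconnected hnofr with hI | hE
  · exact hI
  · exfalso
    obtain ⟨ρ, hρ, hball⟩ := S.side_fr hsm'
    obtain ⟨η, η0, η1, η2⟩ := exists_small (y - s') hρ 1 one_pos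
    have hz1 : pt s' y η ∈ openSegment ℝ y s' := by
      rw [openSegment_symm]; exact pt_mem_openSegment η0 η1
    apply hE hz1
    apply interior_subset
    apply hball
    · rw [pt_dist_left, abs_of_pos η0]; exact η2
    · rw [pt_sub_left, cr_smul_right]
      have e1 : y - s' = t0 • ω - d := by rw [hyd, hd]; ring
      rw [e1, cr_sub_right, cr_smul_right, hdd, cr_smul_right, cr_self, mul_zero, sub_zero]
      have : S.side e * (η * (t0 * cr (S.dir e) ω)) = (η * t0) * (S.side e * cr (S.dir e) ω) := by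
        ring
      rw [this]; positivity

lemma SimplePolygon.lev_mono (p : ℂ) {j k : ℕ} (h : j ≤ k) : S.lev p j ⊆ S.lev p k := by
  induction h with
  | refl => exact Subset.rfl
  | step _ ih => exact ih.trans (S.lev_succ p _)

/-- an edge with a lit point is completely lit two steps later -/
lemma SimplePolygon.fill_edge {p : ℂ} {j : ℕ} {e : ZMod n} {t : ℝ} (h0 : 0 < t) (h1 : t < 1)
    (hl : S.ep e t ∈ S.lev p j) : ∀ x ∈ S.oedge e, x ∈ S.lev p (j + 2) := by
  intro x hx
  obtain ⟨t', h0', h1', rfl⟩ := S.mem_oedge_iff.1 hx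
  by_cases hne : t = t'
  · rw [← hne]; exact S.lev_mono p (by omega) hl
  · obtain ⟨y, hy, hv1, hv2⟩ := S.common (e := e) h0 h1 h0' h1' hne
    have hyR : y ∈ S.region := by
      obtain ⟨g, hg⟩ := hy
      exact S.oedge_sub' g hg
    refine ⟨S.oedge_sub' e hx, Or.inr ⟨y, ?_, hy, hv2⟩⟩
    exact ⟨hyR, Or.inr ⟨_, hl, ⟨e, S.ep_mem h0 h1⟩, hv1⟩⟩

/-- the next edge is reached two steps later -/
lemma SimplePolygon.next_edge {p : ℂ} {j : ℕ} {i : ZMod n}
    (hl : ∀ x ∈ S.oedge (i - 1), x ∈ S.lev p j) :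
    ∃ t : ℝ, 0 < t ∧ t < 1 ∧ S.ep i t ∈ S.lev p (j + 2) := by
  obtain ⟨δ, h1, h2⟩ := S.dir_exists i
  have hδ : δ ≠ 0 := by
    rintro rfl; simp [cr_zero_right] at h1
  have hU : {z : ℂ | 0 < S.side i * cr (S.dir i) z} ∩
      {z : ℂ | 0 < S.side (i - 1) * cr (S.dir (i - 1)) z} ∈ 𝓝 δ := by
    apply Filter.inter_mem
    · exact (isOpen_lt continuous_const (continuous_const.mul
        (continuous_cr continuous_const continuous_id))).mem_nhds h1
    · exact (isOpen_lt continuous_const (continuous_const.mul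
        (continuous_cr continuous_const continuous_id))).mem_nhds h2
  obtain ⟨δ', ⟨g1, g2⟩, t0, ht0, hy, hv⟩ := S.see_dir (q := S.v i) hδ hU
    (fun δ' hδ' _ => S.dir_in i hδ'.1 hδ'.2)
  have g1 : 0 < S.side i * cr (S.dir i) δ' := g1
  have g2 : 0 < S.side (i - 1) * cr (S.dir (i - 1)) δ' := g2
  set y := S.v i + t0 • δ' with hyd
  have hyR : y ∈ S.region := by
    obtain ⟨g, hg⟩ := hy
    exact S.oedge_sub' g hg
  have hyv : y - S.v i = t0 • δ' := by rw [hyd, add_sub_cancel_left]
  obtain ⟨ρ1, hρ1, hs1⟩ := S.see_first hv (by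
    rw [hyv, cr_smul_right]
    have : S.side i * (t0 * cr (S.dir i) δ') = t0 * (S.side i * cr (S.dir i) δ') := by ring
    rw [this]; positivity)
  have e1 : i - 1 + 1 = i := by ring
  obtain ⟨ρ2, hρ2, hs2⟩ := S.see_last (i := i - 1) (x := y) (by rw [e1]; exact hv) (by
    rw [e1, hyv, cr_smul_right]
    have : S.side (i - 1) * (t0 * cr (S.dir (i - 1)) δ') =
      t0 * (S.side (i - 1) * cr (S.dir (i - 1)) δ') := by ring
    rw [this]; positivity)
  set μ2 := min ρ2 1 / 2 with hμ2
  have hm2 : 0 < min ρ2 1 := lt_min hρ2 one_pos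
  have hμ20 : 0 < μ2 := by rw [hμ2]; linarith
  have hμ2ρ : μ2 < ρ2 := by
    have := min_le_left ρ2 1
    rw [hμ2]; linarith
  have hμ21 : μ2 < 1 := by
    have := min_le_right ρ2 1
    rw [hμ2]; linarith
  have hylev : y ∈ S.lev p (j + 1) := by
    have hm := S.ep_mem (i := i - 1) (t := 1 - μ2) (by linarith) (by linarith)
    exact ⟨hyR, Or.inr ⟨_, hl _ hm, ⟨_, hm⟩, hs2 μ2 hμ20 hμ2ρ⟩⟩
  set μ1 := min ρ1 1 / 2 with hμ1
  have hm1 : 0 < min ρ1 1 := lt_min hρ1 one_pos
  have hμ10 : 0 < μ1 := by rw [hμ1]; linarith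
  have hμ1ρ : μ1 < ρ1 := by
    have := min_le_left ρ1 1
    rw [hμ1]; linarith
  have hμ11 : μ1 < 1 := by
    have := min_le_right ρ1 1
    rw [hμ1]; linarith
  refine ⟨μ1, hμ10, hμ11, S.oedge_sub' i (S.ep_mem hμ10 hμ11), Or.inr ⟨y, hylev, hy, ?_⟩⟩
  exact svis_symm (hs1 μ1 hμ10 hμ1ρ)

/-- all open edges are lit at level `4 n - 1` -/
theorem SimplePolygon.edges_lit {p : ℂ} (hp : p ∈ S.region) :
    ∀ y ∈ S.openEdges, y ∈ S.lev p (4 * n - 1) := by
  have hNe := S.neZero
  obtain ⟨y0, ⟨e0, hy0⟩, hv0⟩ := S.see_some hp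
  obtain ⟨t0, h00, h01, rfl⟩ := S.mem_oedge_iff.1 hy0
  have hstep : ∀ i : ℕ, ∃ t : ℝ, 0 < t ∧ t < 1 ∧ S.ep (e0 + i) t ∈ S.lev p (4 * i + 1) := by
    intro i
    induction i with
    | zero =>
      refine ⟨t0, h00, h01, ?_⟩
      rw [Nat.cast_zero, add_zero]
      exact ⟨S.oedge_sub' _ hy0, Or.inl hv0⟩
    | succ i ih =>
      obtain ⟨t, h0, h1, hl⟩ := ih
      have hfull := S.fill_edge h0 h1 hl
      have e1 : e0 + ((i + 1 : ℕ) : ZMod n) - 1 = e0 + (i : ZMod n) := by push_cast; ring
      obtain ⟨t', h0', h1', hl'⟩ := S.next_edge (i := e0 + ((i + 1 : ℕ) : ZMod n)) (p := p)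
        (j := 4 * i + 1 + 2) (by rw [e1]; exact hfull)
      exact ⟨t', h0', h1', hl'⟩
  rintro y ⟨e, he⟩
  obtain ⟨t, h0, h1, hl⟩ := hstep (e - e0).val
  have e1 : e0 + (((e - e0).val : ℕ) : ZMod n) = e := by
    rw [ZMod.natCast_zmod_val]; ring
  rw [e1] at hl
  have h2 := S.fill_edge h0 h1 hl y he
  have h3 := ZMod.val_lt (e - e0)
  exact S.lev_mono p (by omega) h2

/-- all inner points are lit at level `4 n` -/
theorem SimplePolygon.interior_lit {p : ℂ} (hp : p ∈ S.region) {j : ℕ} (hj : 4 * n ≤ j) :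
    interior S.region ⊆ S.lev p j := by
  intro x hx
  obtain ⟨y, hy, hv⟩ := S.see_some (interior_subset hx)
  have h1 := S.edges_lit hp y hy
  have h3 := S.three_le
  obtain ⟨j, rfl⟩ : ∃ j', j = j' + 1 := ⟨j - 1, by omega⟩
  exact ⟨interior_subset hx, Or.inr ⟨y, S.lev_mono p (by omega) h1, hy, svis_symm hv⟩⟩

/-- the whole polygon is lit at level `4 n` -/
theorem SimplePolygon.region_lit {p : ℂ} (hp : p ∈ S.region) {j : ℕ} (hj : 4 * n ≤ j) :
    S.region ⊆ S.lev p j := by
  intro x hx
  obtain ⟨y, hy, hv⟩ := S.see_some hx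
  have h1 := S.edges_lit hp y hy
  have h3 := S.three_le
  obtain ⟨j, rfl⟩ : ∃ j', j = j' + 1 := ⟨j - 1, by omega⟩
  exact ⟨hx, Or.inr ⟨y, S.lev_mono p (by omega) h1, hy, svis_symm hv⟩⟩

/-- stabbing bound, uniformly in `k` -/
theorem SimplePolygon.stabbing_uniform {p : ℂ} (hp : p ∈ S.region) (k : ℕ) (a b : ℂ)
    (hab : segment ℝ a b ⊆ S.region)
    (m : ℕ) (t : ℕ → ℝ) (h0 : 0 ≤ t 0) (h1 : t m ≤ 1) (hmono : ∀ i < m, t i < t (i + 1))
    (halt : ∀ i < m, (pt a b (t i) ∈ S.lev p (k + 1) ↔ pt a b (t (i + 1)) ∉ S.lev p (k + 1))) :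
    m ≤ 80 * n * min (k + 1) (4 * n) + 1 := by
  rcases lt_or_ge (k + 1) (4 * n) with h | h
  · rw [min_eq_left h.le]
    exact S.stabbing p k a b hab m t h0 h1 hmono halt
  · rcases Nat.eq_zero_or_pos m with hm | hm
    · omega
    exfalso
    -- monotonicity
    have hmon : ∀ i ≤ m, t 0 ≤ t i := by
      intro i hi
      induction i with
      | zero => exact le_rfl
      | succ i ih => exact (ih (by omega)).trans (hmono i (by omega)).le
    have hmon2 : ∀ d i, i + d = m → t i ≤ t m := by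
      intro d
      induction d with
      | zero =>
        intro i hi
        have : i = m := by omega
        rw [this]
      | succ d ih =>
        intro i hi
        exact (hmono i (by omega)).le.trans (ih (i + 1) (by omega))
    have hall : ∀ i ≤ m, pt a b (t i) ∈ S.lev p (k + 1) := by
      intro i hi
      apply S.region_lit hp h
      apply hab
      exact pt_mem_segment (h0.trans (hmon i hi)) ((hmon2 (m - i) i (by omega)).trans h1)
    exact (halt 0 hm).1 (hall 0 (by omega)) (hall (0 + 1) (by omega))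

/-- the complexity of the region lit by at most `k` reflections, uniformly in `k` -/
theorem SimplePolygon.complexity_uniform {p : ℂ} (hp : p ∈ S.region) (k : ℕ) :
    (corners (frontier (S.lev p (k + 1)))).encard + (sides (frontier (S.lev p (k + 1)))).encard ≤
      ((11000 * (min (k + 1) (4 * n)) ^ 2 * n ^ 2 * {m | S.Wide m}.ncard + 2 * n : ℕ) : ℕ∞) := by
  rcases lt_or_ge (k + 1) (4 * n) with h | h
  · rw [min_eq_left h.le]
    exact S.complexity_wide p k
  · have hgen := S.complexity_gen p k (∅ : Finset Unit) (fun _ => p) (fun _ => 0) (by simp)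
      (by
        intro x hx hd
        exact absurd (S.interior_lit hp h hx) hd) (fun _ => 0) (by simp)
    refine hgen.trans ?_
    simp only [Finset.sum_empty, Finset.card_empty, mul_zero, zero_add]
    exact_mod_cast Nat.le_add_left _ _

end Run7.h395
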