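import Pool.Agent.Run7.h395.LocO

/-!
# The boundary of the lit region lies on few segments
-/

open Set Topology Filter Complex

noncomputable section

namespace Run7.h395

variable {n : ℕ} (S : SimplePolygon n)

/-- the windows that contain the boundary of the lit region -/
theorem SimplePolygon.windows_wide (p : ℂ) (k : ℕ) :
    ∃ W : Finset (ℂ × ZMod n), W.card ≤ {m | S.Wide m}.ncard * (22 * n * (k + 1)) ∧
      (∀ w ∈ W, w.1 ≠ S.v w.2 ∧ S.Wide w.2) ∧
      ∀ x ∈ interior S.region, x ∉ S.lev p (k + 1) → x ∈ closure (S.lev p (k + 1)) →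
        ∃ w ∈ W, x ∈ S.ray w.1 w.2 := by
  classical
  have hNe := S.neZero
  set Wd : Finset (ZMod n) := Finset.univ.filter (fun m => S.Wide m) with hWd
  have hr : {m | S.Wide m}.ncard = Wd.card := by
    rw [← Set.ncard_coe_finset]
    congr 1
    ext m
    simp [hWd]
  rw [hr]
  set r := Wd.card with hrdef
  have hcard : ∀ F : Finset (Item n), (∀ i ∈ F, S.Rel p k i) → F.card ≤ r * (20 * n * k) := by
    intro F hF
    have h1 : F.card = ∑ T ∈ Wd, (F.filter (fun i => i.2.1 = T)).card := by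
      rw [← Finset.card_eq_sum_card_fiberwise (f := fun i : Item n => i.2.1) (t := Wd)]
      intro i hi
      have hRel := hF i hi
      have hne : S.v i.2.1 - S.ep i.1 (tt i) ≠ 0 := by
        rw [sub_ne_zero]
        intro he
        exact S.v_not_oedge i.2.1 i.1 (he ▸ S.ep_mem hRel.t0 hRel.t1)
      exact Finset.mem_coe.2 (Finset.mem_filter.2 ⟨Finset.mem_univ _,
        S.wide_of_half hne hRel.half⟩)
    rw [h1]
    calc ∑ T ∈ Wd, (F.filter (fun i => i.2.1 = T)).card
        ≤ ∑ _T ∈ Wd, 20 * n * k := by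
          apply Finset.sum_le_sum
          intro T _
          apply S.rel_count T
          intro i hi
          exact ⟨hF i (Finset.mem_filter.1 hi).1, (Finset.mem_filter.1 hi).2⟩
      _ = r * (20 * n * k) := by rw [Finset.sum_const, smul_eq_mul]
  have hfin : {i | S.Rel p k i}.Finite := finite_of_card_le hcard
  set R := hfin.toFinset with hR
  have hR1 : ∀ i ∈ R, S.Rel p k i := fun i hi => hfin.mem_toFinset.1 hi
  have hR2 : ∀ i, S.Rel p k i → i ∈ R := fun i hi => hfin.mem_toFinset.2 hi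
  set VV : Finset (ZMod n × ZMod n) := ((Finset.univ : Finset (ZMod n)) ×ˢ Wd).filter
    (fun x => S.v x.1 ≠ S.v x.2) with hVV
  set PP : Finset (ZMod n) := Wd.filter (fun m => p ≠ S.v m) with hPP
  set U : Finset (Idx n) := R.disjSum (VV.disjSum PP) with hU
  have hUc : U.card ≤ r * (20 * n * k) + (n * r + r) := by
    rw [hU, Finset.card_disjSum, Finset.card_disjSum]
    have c1 : R.card ≤ r * (20 * n * k) := hcard R hR1
    have c2 : VV.card ≤ n * r := by
      refine (Finset.card_filter_le _ _).trans ?_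
      rw [Finset.card_product, Finset.card_univ, ZMod.card]
    have c3 : PP.card ≤ r := Finset.card_filter_le _ _
    exact Nat.add_le_add c1 (Nat.add_le_add c2 c3)
  have h3 := S.three_le
  refine ⟨U.image (fun i => (S.org p i, tgt i)), ?_, ?_, ?_⟩
  · refine Finset.card_image_le.trans (hUc.trans ?_)
    have e1 : r * (22 * n * (k + 1)) = r * (20 * n * k) + (n * r + r * (2 * n * k + 21 * n)) := by
      ring
    rw [e1]
    have : r ≤ r * (2 * n * k + 21 * n) := Nat.le_mul_of_pos_right _ (by positivity)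
    omega
  · intro w hw
    obtain ⟨i, hi, rfl⟩ := Finset.mem_image.1 hw
    rw [hU, Finset.mem_disjSum] at hi
    rcases hi with ⟨i, hi, rfl⟩ | ⟨z, hz, rfl⟩
    · have h := hR1 i hi
      have hne : S.ep i.1 (tt i) ≠ S.v i.2.1 := by
        intro he
        exact S.v_not_oedge i.2.1 i.1 (he ▸ S.ep_mem h.t0 h.t1)
      exact ⟨hne, S.wide_of_half (sub_ne_zero.2 hne.symm) h.half⟩
    rw [Finset.mem_disjSum] at hz
    rcases hz with ⟨x, hx, rfl⟩ | ⟨m, hm, rfl⟩
    · obtain ⟨h1, h2⟩ := Finset.mem_filter.1 hx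
      exact ⟨h2, (Finset.mem_filter.1 (Finset.mem_product.1 h1).2).2⟩
    · obtain ⟨h1, h2⟩ := Finset.mem_filter.1 hm
      exact ⟨h2, (Finset.mem_filter.1 h1).2⟩
  · -- coverage
    intro x hx hd hc
    obtain ⟨ρ, hρ, hball, hcon⟩ := S.conic p k hx
    rw [Metric.mem_closure_iff] at hc
    obtain ⟨y, hy, hyx⟩ := hc ρ hρ
    rw [dist_comm] at hyx
    have hyne : y - x ≠ 0 := by
      intro h
      have : y = x := sub_eq_zero.1 h
      exact hd (this ▸ hy)
    obtain ⟨A, m, b, hW, h1, h2, h3, -, h5, -⟩ := S.change_window (lam := 1) hx hd hyne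
      ⟨1, one_pos, fun c hc0 hc1 => (hcon y hyx c hc0 hc1.le).1 hy⟩ one_pos rfl
    have hm : m ∈ Wd := Finset.mem_filter.2 ⟨Finset.mem_univ _,
      S.wide_of_half (sub_ne_zero.2 h3.symm) h5⟩
    have hfinish : ∀ u ∈ U, S.org p u = A → tgt u = m →
        ∃ w ∈ U.image (fun i => (S.org p i, tgt i)), x ∈ S.ray w.1 w.2 := by
      intro u hu hu1 hu2
      refine ⟨(S.org p u, tgt u), Finset.mem_image.2 ⟨u, hu, rfl⟩, ?_⟩
      rw [hu1, hu2]; exact h1
    rcases hW with rfl | ⟨j, rfl, hj⟩ | ⟨i, hi, rfl, rfl⟩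
    · apply hfinish (Sum.inr (Sum.inr m)) _ rfl rfl
      rw [hU, Finset.mem_disjSum]
      right
      refine ⟨_, ?_, rfl⟩
      rw [Finset.mem_disjSum]
      right
      exact ⟨m, Finset.mem_filter.2 ⟨hm, h3⟩, rfl⟩
    · apply hfinish (Sum.inr (Sum.inl (j, m))) _ rfl rfl
      rw [hU, Finset.mem_disjSum]
      right
      refine ⟨_, ?_, rfl⟩
      rw [Finset.mem_disjSum]
      left
      exact ⟨(j, m), Finset.mem_filter.2 ⟨Finset.mem_product.2 ⟨Finset.mem_univ _, hm⟩, h3⟩, rfl⟩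
    · apply hfinish (Sum.inl i) _ rfl rfl
      rw [hU, Finset.mem_disjSum]
      left
      exact ⟨i, hR2 i hi, rfl⟩

/-- a window is contained in a segment inside the polygon -/
lemma SimplePolygon.ray_seg {A : ℂ} {m : ZMod n} (hA : A ≠ S.v m) :
    ∃ H, segment ℝ (S.v m) H ⊆ S.region ∧ S.ray A m ⊆ segment ℝ (S.v m) H := by
  have hvR : S.v m ∈ S.region := S.edge_sub m (left_mem_segment ℝ _ _)
  rcases (S.ray A m).eq_empty_or_nonempty with he | hne
  · refine ⟨S.v m, ?_, ?_⟩
    · rw [segment_same]; exact singleton_subset_iff.2 hvR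
    · rw [he]; exact Set.empty_subset _
  set Ts : Set ℝ := {τ | 1 < τ ∧ svis S.region (S.v m) (pt A (S.v m) τ)} with hTs
  have hTne : Ts.Nonempty := by
    obtain ⟨x, τ, h1, h2, h3⟩ := hne
    exact ⟨τ, h1, by rw [← h2]; exact h3⟩
  have hAn : 0 < ‖S.v m - A‖ := norm_pos_iff.2 (sub_ne_zero.2 hA.symm)
  have hbdd : BddAbove Ts := by
    obtain ⟨R, hR⟩ := S.reg.bdd.subset_ball A
    refine ⟨R / ‖S.v m - A‖, ?_⟩
    rintro τ ⟨h1, h2⟩
    have h3 := hR (seg_of_svis S.reg.closed h2 (right_mem_segment ℝ _ _))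
    rw [Metric.mem_ball, pt_dist_left, abs_of_pos (by linarith)] at h3
    rw [le_div_iff₀ hAn]; exact h3.le
  set τm := sSup Ts with hτm
  have hτm1 : 1 < τm := by
    obtain ⟨τ, hτ⟩ := hTne
    exact hτ.1.trans_le (le_csSup hbdd hτ)
  have hvis : svis S.region (S.v m) (pt A (S.v m) τm) := by
    intro z hz
    rw [mem_openSegment_iff] at hz
    obtain ⟨s, s0, s1, rfl⟩ := hz
    have e1 : pt (S.v m) (pt A (S.v m) τm) s = pt A (S.v m) (1 + s * (τm - 1)) := by
      have := pt_pt_pt A (S.v m) 1 τm s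
      rwa [pt_one] at this
    rw [e1]
    have hlt : 1 + s * (τm - 1) < τm := by nlinarith
    obtain ⟨τ', hτ', h2⟩ := exists_lt_of_lt_csSup hTne hlt
    apply hτ'.2
    rw [mem_openSegment_iff]
    have hτ1 := hτ'.1
    have hpos : 0 < s * (τm - 1) := mul_pos s0 (by linarith)
    refine ⟨s * (τm - 1) / (τ' - 1), div_pos hpos (by linarith), ?_, ?_⟩
    · rw [div_lt_one (by linarith)]; linarith
    · have := pt_pt_pt A (S.v m) 1 τ' (s * (τm - 1) / (τ' - 1))
      rw [pt_one, div_mul_cancel₀ _ (by linarith : τ' - 1 ≠ 0)] at this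
      rw [this]
  refine ⟨pt A (S.v m) τm, seg_of_svis S.reg.closed hvis, ?_⟩
  rintro x ⟨τ, h1, rfl, h2⟩
  have hle : τ ≤ τm := le_csSup hbdd ⟨h1, h2⟩
  rw [mem_segment_iff]
  refine ⟨(τ - 1) / (τm - 1), div_nonneg (by linarith) (by linarith), ?_, ?_⟩
  · rw [div_le_one (by linarith)]; linarith
  · have := pt_pt_pt A (S.v m) 1 τm ((τ - 1) / (τm - 1))
    rw [pt_one, div_mul_cancel₀ _ (by linarith : τm - 1 ≠ 0)] at this
    rw [this]; congr 1; ring

/-- the boundary of the lit region lies on few segments issuing from vertices -/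
theorem SimplePolygon.window_segments {p : ℂ} (hp : p ∈ S.region) (k : ℕ) :
    ∃ W : Finset (ℂ × ℂ), W.card ≤ 22 * min (k + 1) (4 * n) * n * {m | S.Wide m}.ncard ∧
      (∀ w ∈ W, (∃ m, S.Wide m ∧ w.1 = S.v m) ∧ segment ℝ w.1 w.2 ⊆ S.region) ∧
      frontier (S.lev p (k + 1)) ⊆ frontier S.region ∪ ⋃ w ∈ W, segment ℝ w.1 w.2 := by
  classical
  rcases lt_or_ge (k + 1) (4 * n) with h | h
  · rw [min_eq_left h.le]
    obtain ⟨W, hc, hW, hcov⟩ := S.windows_wide p k
    have hex : ∀ w ∈ W, ∃ H, segment ℝ (S.v w.2) H ⊆ S.region ∧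
        S.ray w.1 w.2 ⊆ segment ℝ (S.v w.2) H := fun w hw => S.ray_seg (hW w hw).1
    choose! H hH1 hH2 using hex
    refine ⟨W.image (fun w => (S.v w.2, H w)), ?_, ?_, ?_⟩
    · refine Finset.card_image_le.trans (hc.trans (le_of_eq ?_))
      ring
    · intro u hu
      obtain ⟨w, hw, rfl⟩ := Finset.mem_image.1 hu
      exact ⟨⟨w.2, (hW w hw).2, rfl⟩, hH1 w hw⟩
    · intro x hx
      have hxR := S.closure_lev_sub p (k + 1) hx.1
      by_cases hxi : x ∈ interior S.region
      · right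
        have hxd : x ∉ S.lev p (k + 1) := fun hl =>
          hx.2 (mem_interior_iff_mem_nhds.2 (S.lev_int_open hxi hl))
        obtain ⟨w, hw, hxw⟩ := hcov x hxi hxd hx.1
        simp only [mem_iUnion]
        exact ⟨(S.v w.2, H w), Finset.mem_image.2 ⟨w, hw, rfl⟩, hH2 w hw hxw⟩
      · left
        exact mem_frontier_of hxR hxi
  · refine ⟨∅, by simp, by simp, ?_⟩
    intro x hx
    left
    have hxR := S.closure_lev_sub p (k + 1) hx.1
    apply mem_frontier_of hxR
    intro hxi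
    apply hx.2
    exact interior_mono (S.region_lit hp h) hxi

end Run7.h395
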