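import Pool.Agent.Run7.h395.LocP

/-!
# Counts that do not depend on the number of reflections

An edge with a lit point is completely lit two levels later, so every edge contributes to the
counts at boundedly many levels only.
-/

open Set Topology Filter Complex

noncomputable section

namespace Run7.h395

variable {n : ℕ} (S : SimplePolygon n)

/-- some point of the open edge `e` is lit at level `j` -/
def SimplePolygon.LitE (p : ℂ) (j : ℕ) (e : ZMod n) : Prop := ∃ x ∈ S.oedge e, x ∈ S.lev p j

/-- the light reached the open edge `e` at one of the last four levels -/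
def SimplePolygon.Act (p : ℂ) (j : ℕ) (e : ZMod n) : Prop :=
  S.LitE p j e ∧ ¬ S.LitE p (j - 4) e

variable {S} in
lemma SimplePolygon.LitE.mono {p : ℂ} {i j : ℕ} {e : ZMod n} (h : S.LitE p i e) (hij : i ≤ j) :
    S.LitE p j e := by
  obtain ⟨x, h1, h2⟩ := h
  exact ⟨x, h1, S.lev_mono p hij h2⟩

lemma SimplePolygon.not_litE_zero {p : ℂ} {e : ZMod n} : ¬ S.LitE p 0 e := by
  rintro ⟨x, -, hx⟩
  exact absurd hx (Set.notMem_empty _)

lemma SimplePolygon.LitE.full {p : ℂ} {j : ℕ} {e : ZMod n} (h : S.LitE p j e) :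
    ∀ x ∈ S.oedge e, x ∈ S.lev p (j + 2) := by
  obtain ⟨x, hx, h2⟩ := h
  obtain ⟨t, h0, h1, rfl⟩ := S.mem_oedge_iff.1 hx
  exact S.fill_edge h0 h1 h2

lemma SimplePolygon.not_litE {p x : ℂ} {j : ℕ} {e : ZMod n} (hx : x ∈ S.oedge e)
    (hd : x ∉ S.lev p j) : ¬ S.LitE p (j - 2) e := by
  intro h
  rcases Nat.lt_or_ge j 2 with h2 | h2
  · have e1 : j - 2 = 0 := by omega
    rw [e1] at h
    exact S.not_litE_zero h
  · apply hd
    have := SimplePolygon.LitE.full S h x hx
    have e1 : j - 2 + 2 = j := by omega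
    rwa [e1] at this

lemma SimplePolygon.act_source {p q y : ℂ} {j : ℕ} {e e' : ZMod n} (hq : q ∈ S.oedge e')
    (hl : q ∈ S.lev p j) (hv : svis S.region q y) (hy : y ∈ S.oedge e)
    (hn : ¬ S.LitE p (j - 1) e) : S.Act p j e' := by
  refine ⟨⟨q, hq, hl⟩, ?_⟩
  intro h
  rcases Nat.eq_zero_or_pos (j - 4) with h4 | h4
  · rw [h4] at h
    exact S.not_litE_zero h
  · apply hn
    have h2 := SimplePolygon.LitE.full S h q hq
    have e1 : j - 1 = (j - 4 + 2) + 1 := by omega
    rw [e1]
    exact ⟨y, hy, S.oedge_sub' e hy, Or.inr ⟨q, h2, ⟨e', hq⟩, hv⟩⟩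

open Classical in
/-- good labels with an active edge -/
def SimplePolygon.GG [NeZero n] (p D : ℂ) (j : ℕ) : Finset (ZMod n × ZMod n × Bool) :=
  Finset.univ.filter (fun l => S.GoodLabel D l ∧ S.Act p j l.1)

open Classical in
/-- active edges -/
def SimplePolygon.EA [NeZero n] (p : ℂ) (j : ℕ) : Finset (ZMod n) :=
  Finset.univ.filter (fun e => S.Act p j e)

/-- the bound at level `j` -/
def SimplePolygon.NN [NeZero n] (p D : ℂ) (j : ℕ) : ℕ :=
  3 * ∑ i ∈ Finset.range (j + 1), (S.GG p D i).card + ∑ i ∈ Finset.range j, (S.GG p D i).card +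
    4 * ∑ i ∈ Finset.range j, (S.EA p i).card

lemma SimplePolygon.NN_succ [NeZero n] (p D : ℂ) (j : ℕ) :
    S.NN p D (j + 1) = S.NN p D j + 3 * (S.GG p D (j + 1)).card +
      (S.GG p D j).card + 4 * (S.EA p j).card := by
  unfold SimplePolygon.NN
  rw [Finset.sum_range_succ _ (j + 1), Finset.sum_range_succ (fun i => (S.GG p D i).card) j,
    Finset.sum_range_succ (fun i => (S.EA p i).card) j]
  ring

/-- every edge is active at no more than four levels -/
lemma SimplePolygon.act_sum (p : ℂ) (m : ℕ) {α : Type*} (A : Finset α) (f : α → ZMod n)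
    [DecidablePred fun x : ℕ × α => S.Act p x.1 (f x.2)] :
    ∑ i ∈ Finset.range m, (A.filter (fun a => S.Act p (i, a).1 (f (i, a).2))).card ≤
      4 * A.card := by
  classical
  simp only [Finset.card_filter]
  rw [Finset.sum_comm]
  rw [mul_comm, ← smul_eq_mul, ← Finset.sum_const]
  apply Finset.sum_le_sum
  intro a _
  rw [← Finset.card_filter]
  by_cases hex : ∃ i, S.LitE p i (f a)
  · have hmin : ∀ i < Nat.find hex, ¬ S.LitE p i (f a) := fun i hi => Nat.find_min hex hi
    have hspec := Nat.find_spec hex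
    set i0 := Nat.find hex with hi0
    have hi0pos : 0 < i0 := by
      rcases Nat.eq_zero_or_pos i0 with h | h
      · rw [h] at hspec; exact absurd hspec S.not_litE_zero
      · exact h
    have hsub : (Finset.range m).filter (fun i => S.Act p i (f a)) ⊆ Finset.Ico i0 (i0 + 4) := by
      intro i hi
      obtain ⟨-, h1, h2⟩ := Finset.mem_filter.1 hi
      rw [Finset.mem_Ico]
      constructor
      · by_contra hcon
        exact hmin i (by omega) h1
      · by_contra hcon
        exact h2 (hspec.mono (by omega))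
    refine (Finset.card_le_card hsub).trans ?_
    rw [Nat.card_Ico]; omega
  · have : (Finset.range m).filter (fun i => S.Act p i (f a)) = ∅ := by
      rw [Finset.filter_eq_empty_iff]
      intro i _ h
      exact hex ⟨i, h.1⟩
    rw [this]; simp

/-- the bound does not depend on the level -/
theorem SimplePolygon.NN_le [NeZero n] (p D : ℂ) (j : ℕ) : S.NN p D j ≤ 80 * n := by
  classical
  have hG : ∀ m, ∑ i ∈ Finset.range m, (S.GG p D i).card ≤ 4 * (4 * n) := by
    intro m
    set A : Finset (ZMod n × ZMod n × Bool) := Finset.univ.filter (fun l => S.GoodLabel D l)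
      with hA
    have h1 := S.act_sum p m A (fun l => l.1)
    have h2 : A.card ≤ 4 * n := S.label_count D A (fun l hl => (Finset.mem_filter.1 hl).2)
    refine (Finset.sum_le_sum fun i _ => ?_).trans (h1.trans (by omega))
    apply Finset.card_le_card
    intro l hl
    obtain ⟨-, h3, h4⟩ := Finset.mem_filter.1 hl
    exact Finset.mem_filter.2 ⟨Finset.mem_filter.2 ⟨Finset.mem_univ _, h3⟩, h4⟩
  have hE : ∀ m, ∑ i ∈ Finset.range m, (S.EA p i).card ≤ 4 * n := by
    intro m
    have h1 := S.act_sum p m (Finset.univ : Finset (ZMod n)) id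
    rw [Finset.card_univ, ZMod.card] at h1
    refine (Finset.sum_le_sum fun i _ => ?_).trans h1
    apply Finset.card_le_card
    intro l hl
    obtain ⟨-, h4⟩ := Finset.mem_filter.1 hl
    exact Finset.mem_filter.2 ⟨Finset.mem_univ _, h4⟩
  unfold SimplePolygon.NN
  have a1 := hG (j + 1)
  have a2 := hG j
  have a3 := hE j
  omega

/-- counting shots with pairwise disjoint shadows -/
theorem SimplePolygon.shots_countM {p D : ℂ} {j N M : ℕ} {α : Type*} [DecidableEq α] (I : Finset α)
    (e T : α → ZMod n) (b : α → Bool) (tq ts : α → ℝ) (y z T1 : α → ℂ)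
    (hsh : ∀ i ∈ I, Shot S p D j (e i) (T i) (b i) (tq i) (ts i) (y i) (z i) (T1 i))
    (hB : ∀ i ∈ I, ∀ k ∈ I, i ≠ k → e i = e k → T i = T k → b i = b k →
      ∀ w ∈ segment ℝ (pt (y i) (z i) (ts i)) (z i),
        w ∉ kap S.region (S.ep (e k) (tq k)) (S.v (T k)))
    (hM : ∀ L : Finset (ZMod n × ZMod n × Bool),
      (∀ l ∈ L, S.GoodLabel D l ∧ ∃ i ∈ I, l.1 = e i) → L.card ≤ M)
    (IH : ∀ F : Finset (Item n), S.Datum p D j F →
      (∀ i ∈ F, ∃ x ∈ S.oedge i.1, x ∉ S.lev p j) → F.card ≤ N) : I.card ≤ N + M := by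
  classical
  set g : α → Item n := fun i => (e i, T i, b i, tq i) with hg
  set A := I.filter (fun i => ∀ k ∈ I, k ≠ i → lab (g k) ≠ lab (g i)) with hA
  set F := I.filter (fun i => ¬ ∀ k ∈ I, k ≠ i → lab (g k) ≠ lab (g i)) with hF
  have hcard : I.card = A.card + F.card := by
    rw [hA, hF, Finset.card_filter_add_card_filter_not]
  -- two members with the same label
  have htwo : ∀ i ∈ I, ∀ k ∈ I, i ≠ k → lab (g i) = lab (g k) →
      tq i ≠ tq k ∧ (∃ θ : ℝ, 0 < θ ∧ θ < 1 ∧ S.ep (e i) (tq i + θ * (tq k - tq i)) ∉ S.lev p j) ∧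
      S.BackDark p j (T i) (sg (b i)) := by
    intro i hi k hk hik hlab
    simp only [lab, hg, Prod.mk.injEq] at hlab
    obtain ⟨h1, h2, h3⟩ := hlab
    have s1 := hsh i hi
    have s2 := hsh k hk
    have b1 := hB i hi k hk hik h1 h2 h3
    have b2 := hB k hk i hi (Ne.symm hik) h1.symm h2.symm h3.symm
    rw [← h1, ← h2, ← h3] at s2
    rw [← h1, ← h2] at b1
    exact S.two_shots s1 s2 b1 b2
  have hA4 : A.card ≤ M := by
    have himg : (A.image (fun i => lab (g i))).card = A.card := by
      apply Finset.card_image_of_injOn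
      intro i hi k hk hik
      have hi' := Finset.mem_filter.1 hi
      have hk' := Finset.mem_filter.1 hk
      by_contra hne
      exact hi'.2 k hk'.1 (Ne.symm hne) hik.symm
    rw [← himg]
    apply hM
    intro l hl
    obtain ⟨i, hi, rfl⟩ := Finset.mem_image.1 hl
    exact ⟨Shot.good S (hsh i (Finset.mem_filter.1 hi).1), i, (Finset.mem_filter.1 hi).1, rfl⟩
  have hinj : Set.InjOn g F := by
    intro i hi k hk hik
    have hi' := Finset.mem_filter.1 hi
    have hk' := Finset.mem_filter.1 hk
    by_contra hne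
    have := (htwo i hi'.1 k hk'.1 hne (by rw [hik])).1
    apply this
    have h4 := congrArg tt hik
    exact h4
  have hFcard : F.card ≤ N := by
    rw [← Finset.card_image_of_injOn hinj]
    refine IH _ ⟨?_, ?_⟩ ?_
    · intro x hx
      obtain ⟨i, hi, rfl⟩ := Finset.mem_image.1 hx
      have hi' := Finset.mem_filter.1 hi
      have s1 := hsh i hi'.1
      have hex := hi'.2
      push Not at hex
      obtain ⟨k, hk, hki, hlab⟩ := hex
      have h2 := (htwo i hi'.1 k hk (Ne.symm hki) hlab.symm).2.2
      exact ⟨s1.tq0, s1.tq1, s1.lit, s1.win, h2, Shot.good S s1⟩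
    · intro x hx x' hx' hlab hlt
      obtain ⟨i, hi, rfl⟩ := Finset.mem_image.1 hx
      obtain ⟨k, hk, rfl⟩ := Finset.mem_image.1 hx'
      have hi' := Finset.mem_filter.1 hi
      have hk' := Finset.mem_filter.1 hk
      have hik : i ≠ k := by
        rintro rfl
        exact lt_irrefl _ hlt
      obtain ⟨-, ⟨θ, h0, h1, hd⟩, -⟩ := htwo i hi'.1 k hk'.1 hik hlab
      have hlt' : tq i < tq k := hlt
      refine ⟨tq i + θ * (tq k - tq i), ?_, ?_, hd⟩
      · change tq i < _
        have := mul_pos h0 (sub_pos.2 hlt')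
        linarith
      · change _ < tq k
        have : tq k - (tq i + θ * (tq k - tq i)) = (1 - θ) * (tq k - tq i) := by ring
        have h5 := mul_pos (show (0 : ℝ) < 1 - θ by linarith) (sub_pos.2 hlt')
        linarith
    · intro x hx
      obtain ⟨i, hi, rfl⟩ := Finset.mem_image.1 hx
      have hi' := Finset.mem_filter.1 hi
      have s1 := hsh i hi'.1
      have hex := hi'.2
      push Not at hex
      obtain ⟨k, hk, hki, hlab⟩ := hex
      have s2 := hsh k hk
      obtain ⟨-, ⟨θ, g0, g1, hd⟩, -⟩ := htwo i hi'.1 k hk (Ne.symm hki) hlab.symm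
      refine ⟨_, S.ep_mem ?_ ?_, hd⟩
      · have e1 : tq i + θ * (tq k - tq i) = (1 - θ) * tq i + θ * tq k := by ring
        rw [e1]
        have q1 := mul_pos (show (0 : ℝ) < 1 - θ by linarith) s1.tq0
        have q2 := mul_pos g0 s2.tq0
        linarith
      · have e1 : 1 - (tq i + θ * (tq k - tq i)) = (1 - θ) * (1 - tq i) + θ * (1 - tq k) := by
          ring
        have q1 := mul_pos (show (0 : ℝ) < 1 - θ by linarith)
          (show (0 : ℝ) < 1 - tq i by linarith [s1.tq1])
        have q2 := mul_pos g0 (show (0 : ℝ) < 1 - tq k by linarith [s2.tq1])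
        linarith
  omega


theorem SimplePolygon.item_shotM {p D : ℂ} {j : ℕ} {F : Finset (Item n)}
    (hF : S.Datum p D (j + 1) F) {i : Item n} (hi : i ∈ F)
    (hhi : ∃ k ∈ F, lab k = lab i ∧ tt i < tt k) (hlo : ∃ k ∈ F, lab k = lab i ∧ tt k < tt i)
    (hnp : ¬ svis S.region p (S.ep i.1 (tt i))) :
    ∃ (b' : Bool) (τ : ℝ) (e' : ZMod n) (tq ts : ℝ), 0 < τ ∧ τ < 1 ∧
      0 < (S.side i.1 * sg b') * (τ - tt i) ∧
      (∀ k ∈ F, lab k = lab i → 0 < (S.side i.1 * sg b') * (tt k - tt i) →
        0 < (S.side i.1 * sg b') * (tt k - τ)) ∧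
      (∀ r, 0 ≤ r → r ≤ 1 → Win S.region D (S.ep i.1 (tt i + r * (τ - tt i))) (S.v i.2.1)
        (sg i.2.2.1)) ∧
      (∃ q ∈ S.oedge e', q ∈ S.lev p j ∧ svis S.region q (S.ep i.1 (tt i))) ∧
      ((∃ T', Shot S p D j e' T' b' tq ts (S.ep i.1 (tt i)) (S.ep i.1 τ) (S.v i.2.1)) ∨
        Spec S e' b' tq ts (S.ep i.1 (tt i)) (S.ep i.1 τ)) := by
  classical
  obtain ⟨ht0, ht1, hlit, hwin, hback, hgood⟩ := hF.1 i hi
  obtain ⟨hreg, hp | ⟨r0, hr1, ⟨e', hr2⟩, hr3⟩⟩ := hlit
  · exact absurd hp hnp
  rw [S.mem_oedge_iff] at hr2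
  obtain ⟨t0, h00, h01, rfl⟩ := hr2
  set e := i.1 with he
  set T := i.2.1 with hTdef
  set t := tt i with ht
  have hne := S.source_side ht0 ht1 h00 h01 hwin.seg hwin.vis hr3
  obtain ⟨b', hb'⟩ := exists_sg hne
  set σ := S.side e * sg b' with hσ
  have hσpm : σ = 1 ∨ σ = -1 := by
    rcases S.side_pm e with h | h <;> rcases sg_pm b' with h' | h' <;> rw [hσ, h, h'] <;> norm_num
  -- nearest neighbour in direction σ
  set K := F.filter (fun k => lab k = lab i ∧ 0 < σ * (tt k - t)) with hK
  have hKne : K.Nonempty := by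
    rcases hσpm with h | h
    · obtain ⟨k, hk, hl, hlt⟩ := hhi
      refine ⟨k, Finset.mem_filter.2 ⟨hk, hl, ?_⟩⟩
      rw [h]; linarith
    · obtain ⟨k, hk, hl, hlt⟩ := hlo
      refine ⟨k, Finset.mem_filter.2 ⟨hk, hl, ?_⟩⟩
      rw [h]; linarith
  obtain ⟨k, hkK, hkmin⟩ := Finset.exists_min_image K (fun k => σ * (tt k - t)) hKne
  obtain ⟨hkF, hklab, hkpos⟩ := Finset.mem_filter.1 hkK
  obtain ⟨hk0, hk1, -, hkwin, -, -⟩ := hF.1 k hkF
  have hke : k.1 = e := congrArg (fun l => l.1) hklab
  have hkT : k.2.1 = T := congrArg (fun l => l.2.1) hklab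
  have hkb : k.2.2.1 = i.2.2.1 := congrArg (fun l => l.2.2) hklab
  rw [hke, hkT, hkb] at hkwin
  -- the dark parameter
  obtain ⟨τ, hτ1, hτ2, hτd⟩ : ∃ τ, 0 < σ * (τ - t) ∧ 0 < σ * (tt k - τ) ∧
      S.ep e τ ∉ S.lev p (j + 1) := by
    rcases hσpm with h | h
    · rw [h] at hkpos
      obtain ⟨τ, h1, h2, h3⟩ := hF.2 i hi k hkF hklab.symm (by linarith)
      exact ⟨τ, by rw [h]; linarith, by rw [h]; linarith, h3⟩
    · rw [h] at hkpos
      obtain ⟨τ, h1, h2, h3⟩ := hF.2 k hkF i hi hklab (by linarith)
      rw [hke] at h3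
      exact ⟨τ, by rw [h]; linarith, by rw [h]; linarith, h3⟩
  have hτ01 : 0 < τ ∧ τ < 1 := by
    rcases hσpm with h | h
    · rw [h] at hτ1 hτ2
      constructor <;> linarith
    · rw [h] at hτ1 hτ2
      constructor <;> linarith
  have hlc : cr (S.v T - S.v e) (S.dir e) ≠ 0 := by
    have hg := hgood.1
    intro h
    apply hg
    change cr (S.dir e) (S.v T - S.v e) = 0
    rw [cr_swap, h, neg_zero]
  -- windows in between
  have hwinb : ∀ r, 0 ≤ r → r ≤ 1 → Win S.region D (S.ep e (t + r * (τ - t))) (S.v T)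
      (sg i.2.2.1) := by
    intro r h0 h1
    have hne : tt k - t ≠ 0 := by
      intro h; rw [h] at hkpos; simp at hkpos
    have hρ : S.ep e (t + r * (τ - t)) =
        pt (S.ep e t) (S.ep e (tt k)) (r * ((τ - t) / (tt k - t))) := by
      rw [S.pt_ep]
      congr 1
      field_simp
    rw [hρ]
    have hr1 : 0 < (τ - t) / (tt k - t) := by
      have : (τ - t) / (tt k - t) = (σ * (τ - t)) / (σ * (tt k - t)) := by
        have hσ0 : σ ≠ 0 := by rcases hσpm with h | h <;> rw [h] <;> norm_num
        rw [mul_div_mul_left _ _ hσ0]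
      rw [this]; positivity
    have hr2 : (τ - t) / (tt k - t) < 1 := by
      have : (τ - t) / (tt k - t) = (σ * (τ - t)) / (σ * (tt k - t)) := by
        have hσ0 : σ ≠ 0 := by rcases hσpm with h | h <;> rw [h] <;> norm_num
        rw [mul_div_mul_left _ _ hσ0]
      rw [this, div_lt_one hkpos]
      have : σ * (tt k - t) = σ * (tt k - τ) + σ * (τ - t) := by ring
      rw [this]; linarith
    apply Win.between S.reg hwin hkwin (S.ep_seg' ht0.le ht1.le hk0.le hk1.le)
    · intro h
      have e1 : ori (S.ep e t) (S.ep e (tt k)) (S.v T) =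
          -(tt k - t) * cr (S.v T - S.v e) (S.dir e) := by
        unfold ori
        rw [S.ep_sub, cr_smul_left, cr_swap, S.cr_ep e (S.v T) 0 t]
        ring
      rw [e1] at h
      rcases mul_eq_zero.1 h with h' | h'
      · exact hne (by linarith)
      · exact hlc h'
    · positivity
    · nlinarith
  have hseg_mem : ∀ w ∈ segment ℝ (S.ep e t) (S.ep e τ), ∃ r, 0 ≤ r ∧ r ≤ 1 ∧
      w = S.ep e (t + r * (τ - t)) := by
    intro w hw
    rw [mem_segment_iff] at hw
    obtain ⟨r, h0, h1, rfl⟩ := hw
    exact ⟨r, h0, h1, S.pt_ep e t τ r⟩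
  have hwinseg : ∀ w ∈ segment ℝ (S.ep e t) (S.ep e τ),
      Win S.region D w (S.v T) (sg i.2.2.1) := by
    intro w hw
    obtain ⟨r, h0, h1, rfl⟩ := hseg_mem w hw
    exact hwinb r h0 h1
  have hzy : S.ep e τ - S.ep e t = (τ - t) • S.dir e := S.ep_sub e t τ
  have hoed : ∀ w ∈ segment ℝ (S.ep e t) (S.ep e τ), w ∈ S.oedge e :=
    (convex_openSegment _ _).segment_subset (S.ep_mem ht0 ht1) (S.ep_mem hτ01.1 hτ01.2)
  have hsideb : σ * S.side e = sg b' := by
    have : S.side e * S.side e = 1 := by rcases S.side_pm e with h | h <;> rw [h] <;> norm_num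
    rw [hσ]
    linear_combination (sg b') * this
  have hheight : ∀ x : ℂ, sg b' * cr (S.ep e τ - S.ep e t) x =
      (σ * (τ - t)) * (S.side e * cr (S.dir e) x) := by
    intro x
    rw [hzy, cr_smul_left, ← hsideb]
    ring
  have hTheight := S.svis_side (S.ep_mem ht0 ht1 (i := e)) (svis_symm hwin.vis)
  have tgt : Tgt S p D j b' (S.ep e t) (S.ep e τ) (S.v T) := by
    refine ⟨S.ep_seg' ht0.le ht1.le hτ01.1.le hτ01.2.le, ?_, hτd, ?_, ?_, ?_⟩
    · intro w hw
      rw [hzy]
      have := fr_smul (S.side_fr (hoed w hw)) hτ1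
      rw [hsideb] at this
      exact this
    · rw [hheight]
      exact (mul_pos hτ1 hTheight).le
    · intro w hw
      have := hwinseg w hw
      exact ⟨this.seg, this.ne⟩
    · right
      exact ⟨T, i.2.2.1, rfl, hwinseg, hback⟩
  obtain ⟨tq, ts, hres⟩ := S.make_shot tgt (Or.inr ⟨T, i.2.2.1, rfl, hwinseg, hback⟩) h00 h01 hr1
    hr3 (by
      rw [hheight]
      exact mul_pos hτ1 (S.svis_side (S.ep_mem ht0 ht1 (i := e)) hr3)) hb' hwin.joined
  refine ⟨b', τ, e', tq, ts, hτ01.1, hτ01.2, hτ1, ?_, hwinb,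
    ⟨S.ep e' t0, S.ep_mem h00 h01, hr1, hr3⟩, hres⟩
  intro k' hk' hl' hpos'
  have h1 := hkmin k' (Finset.mem_filter.2 ⟨hk', hl', hpos'⟩)
  have h1' : σ * (tt k - t) ≤ σ * (tt k' - t) := h1
  have : σ * (tt k' - τ) = σ * (tt k' - t) - σ * (tt k - t) + σ * (tt k - τ) := by ring
  rw [this]; linarith


theorem SimplePolygon.main_countM [NeZero n] (p D : ℂ) :
    ∀ (j : ℕ) (F : Finset (Item n)), S.Datum p D j F →
      (∀ i ∈ F, ∃ x ∈ S.oedge i.1, x ∉ S.lev p j) → F.card ≤ S.NN p D j := by
  classical
  intro j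
  induction j with
  | zero =>
    intro F hF _
    have : F = ∅ := by
      rw [Finset.eq_empty_iff_forall_notMem]
      intro i hi
      exact absurd (hF.1 i hi).2.2.1 (Set.notMem_empty _)
    rw [this]; simp
  | succ j IH =>
    intro F hF hmix
    -- subfamilies with injective labels
    have hnl : ∀ i ∈ F, ¬ S.LitE p (j - 1) i.1 := by
      intro i hi h
      obtain ⟨x, hx, hd⟩ := hmix i hi
      exact S.not_litE hx hd (h.mono (by omega))
    have hinjcard : ∀ A ⊆ F, (∀ i ∈ A, ∀ k ∈ A, lab i = lab k → i = k) →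
        A.card ≤ (S.GG p D (j + 1)).card := by
      intro A hAF hinj
      rw [← Finset.card_image_of_injOn (f := lab) (s := A) (fun i hi k hk h => hinj i hi k hk h)]
      apply Finset.card_le_card
      intro l hl
      obtain ⟨i, hi, rfl⟩ := Finset.mem_image.1 hl
      have hi' := hF.1 i (hAF hi)
      exact Finset.mem_filter.2 ⟨Finset.mem_univ _, hi'.2.2.2.2.2,
        ⟨_, S.ep_mem hi'.1 hi'.2.1, hi'.2.2.1⟩, fun h => hnl i (hAF hi) (h.mono (by omega))⟩
    set P1 : Item n → Prop := fun i => ∃ k ∈ F, lab k = lab i ∧ tt i < tt k with hP1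
    set P2 : Item n → Prop := fun i => ∃ k ∈ F, lab k = lab i ∧ tt k < tt i with hP2
    set P3 : Item n → Prop := fun i => svis S.region p (S.ep i.1 (tt i)) with hP3
    set A1 := F.filter (fun i => ¬ P1 i) with hA1
    set A2 := F.filter (fun i => ¬ P2 i) with hA2
    set A3 := F.filter (fun i => P3 i) with hA3
    set F1 := F.filter (fun i => P1 i ∧ P2 i ∧ ¬ P3 i) with hF1
    have hcover : F ⊆ A1 ∪ A2 ∪ A3 ∪ F1 := by
      intro i hi
      simp only [Finset.mem_union, hA1, hA2, hA3, hF1, Finset.mem_filter, hi, true_and]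
      tauto
    have hA1c : A1.card ≤ (S.GG p D (j + 1)).card := by
      apply hinjcard A1 (Finset.filter_subset _ _)
      intro i hi k hk hl
      have hi' := Finset.mem_filter.1 hi
      have hk' := Finset.mem_filter.1 hk
      apply item_ext hl
      rcases lt_trichotomy (tt i) (tt k) with h | h | h
      · exact absurd ⟨k, hk'.1, hl.symm, h⟩ hi'.2
      · exact h
      · exact absurd ⟨i, hi'.1, hl, h⟩ hk'.2
    have hA2c : A2.card ≤ (S.GG p D (j + 1)).card := by
      apply hinjcard A2 (Finset.filter_subset _ _)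
      intro i hi k hk hl
      have hi' := Finset.mem_filter.1 hi
      have hk' := Finset.mem_filter.1 hk
      apply item_ext hl
      rcases lt_trichotomy (tt i) (tt k) with h | h | h
      · exact absurd ⟨i, hi'.1, hl, h⟩ hk'.2
      · exact h
      · exact absurd ⟨k, hk'.1, hl.symm, h⟩ hi'.2
    have hA3c : A3.card ≤ (S.GG p D (j + 1)).card := by
      apply hinjcard A3 (Finset.filter_subset _ _)
      have main : ∀ i ∈ A3, ∀ k ∈ A3, lab i = lab k → ¬ tt i < tt k := by
        intro i hi k hk hl hlt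
        have hi' := Finset.mem_filter.1 hi
        have hk' := Finset.mem_filter.1 hk
        obtain ⟨τ, h1, h2, h3⟩ := hF.2 i hi'.1 k hk'.1 hl hlt
        apply h3
        have hke : k.1 = i.1 := congrArg (fun l => l.1) hl.symm
        obtain ⟨ti0, ti1, -, -, -, -⟩ := hF.1 i hi'.1
        obtain ⟨tk0, tk1, -, -, -, -⟩ := hF.1 k hk'.1
        have hvi : svis S.region p (S.ep i.1 (tt i)) := hi'.2
        have hvk : svis S.region p (S.ep i.1 (tt k)) := by rw [← hke]; exact hk'.2
        have hτm : S.ep i.1 τ ∈ S.oedge i.1 := S.ep_mem (by linarith) (by linarith)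
        refine ⟨S.oedge_sub' _ hτm, Or.inl ?_⟩
        have hτe : S.ep i.1 τ = pt (S.ep i.1 (tt i)) (S.ep i.1 (tt k))
            ((τ - tt i) / (tt k - tt i)) := by
          rw [S.pt_ep]
          congr 1
          have : tt k - tt i ≠ 0 := by linarith
          field_simp
          ring
        rw [hτe]
        apply svis_of_tri S.reg
        · intro h0
          have hs := S.svis_side (S.ep_mem ti0 ti1 (i := i.1)) hvi
          have e1 : ori p (S.ep i.1 (tt i)) (S.ep i.1 (tt k)) =
              (tt k - tt i) * cr (S.dir i.1) (p - S.ep i.1 (tt i)) := by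
            have : ori p (S.ep i.1 (tt i)) (S.ep i.1 (tt k)) =
                cr (S.ep i.1 (tt k) - S.ep i.1 (tt i)) (p - S.ep i.1 (tt i)) := by
              unfold ori cr; simp only [Complex.sub_re, Complex.sub_im]; ring
            rw [this, S.ep_sub, cr_smul_left]
          rw [e1] at h0
          rcases mul_eq_zero.1 h0 with h | h
          · linarith
          · rw [h] at hs; simp at hs
        · exact seg_of_svis S.reg.closed hvi
        · exact S.ep_seg' ti0.le ti1.le tk0.le tk1.le
        · exact seg_of_svis S.reg.closed hvk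
        · exact div_pos (by linarith) (by linarith)
        · rw [div_lt_one (by linarith)]; linarith
      intro i hi k hk hl
      apply item_ext hl
      rcases lt_trichotomy (tt i) (tt k) with h | h | h
      · exact absurd h (main i hi k hk hl)
      · exact h
      · exact absurd h (main k hk i hi hl.symm)
    -- shots for the remaining items
    have hex : ∀ i ∈ F1, ∃ (b' : Bool) (τ : ℝ) (e' : ZMod n) (tq ts : ℝ), 0 < τ ∧ τ < 1 ∧
        0 < (S.side i.1 * sg b') * (τ - tt i) ∧
        (∀ k ∈ F, lab k = lab i → 0 < (S.side i.1 * sg b') * (tt k - tt i) →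
          0 < (S.side i.1 * sg b') * (tt k - τ)) ∧
        (∀ r, 0 ≤ r → r ≤ 1 → Win S.region D (S.ep i.1 (tt i + r * (τ - tt i))) (S.v i.2.1)
          (sg i.2.2.1)) ∧
        (∃ q ∈ S.oedge e', q ∈ S.lev p j ∧ svis S.region q (S.ep i.1 (tt i))) ∧
        ((∃ T', Shot S p D j e' T' b' tq ts (S.ep i.1 (tt i)) (S.ep i.1 τ) (S.v i.2.1)) ∨
          Spec S e' b' tq ts (S.ep i.1 (tt i)) (S.ep i.1 τ)) := by
      intro i hi
      have hi' := Finset.mem_filter.1 hi
      exact S.item_shotM hF hi'.1 hi'.2.1 hi'.2.2.1 hi'.2.2.2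
    choose! b' τ e' tq ts hτ0 hτ1 hdir hnear hwin hsrc hres using hex
    have hF1F : ∀ i ∈ F1, i ∈ F := fun i hi => (Finset.mem_filter.1 hi).1
    have hact : ∀ i ∈ F1, S.Act p j (e' i) := by
      intro i hi
      obtain ⟨q, hq1, hq2, hq3⟩ := hsrc i hi
      have hi' := hF.1 i (hF1F i hi)
      exact S.act_source hq1 hq2 hq3 (S.ep_mem hi'.1 hi'.2.1) (hnl i (hF1F i hi))
    have hti : ∀ i ∈ F1, 0 < tt i ∧ tt i < 1 := fun i hi =>
      ⟨(hF.1 i (hF1F i hi)).1, (hF.1 i (hF1F i hi)).2.1⟩
    have hgood : ∀ i ∈ F1, ¬ S.onLine i.1 (S.v i.2.1) := fun i hi =>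
      (hF.1 i (hF1F i hi)).2.2.2.2.2.1
    -- windows on the shadow interval
    have hwinv : ∀ i ∈ F1, ∀ v : ℝ, 0 < (S.side i.1 * sg (b' i)) * (v - tt i) →
        0 ≤ (S.side i.1 * sg (b' i)) * (τ i - v) →
        Win S.region D (S.ep i.1 v) (S.v i.2.1) (sg i.2.2.1) := by
      intro i hi v h1 h2
      have h3 := hdir i hi
      have hne : τ i - tt i ≠ 0 := by
        intro h; rw [h] at h3; simp at h3
      have hσ0 : S.side i.1 * sg (b' i) ≠ 0 := by
        intro h; rw [h] at h3; simp at h3
      have := hwin i hi ((v - tt i) / (τ i - tt i)) (by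
        rw [← mul_div_mul_left _ _ hσ0]; positivity) (by
        rw [← mul_div_mul_left _ _ hσ0, div_le_one h3]
        have : S.side i.1 * sg (b' i) * (τ i - tt i) =
          S.side i.1 * sg (b' i) * (τ i - v) + S.side i.1 * sg (b' i) * (v - tt i) := by ring
        rw [this]; linarith)
      have e1 : tt i + (v - tt i) / (τ i - tt i) * (τ i - tt i) = v := by
        rw [div_mul_cancel₀ _ hne]; ring
      rw [e1] at this
      exact this
    -- disjointness of shadow intervals
    have hDJ : ∀ i ∈ F1, ∀ k ∈ F1, i ≠ k → i.1 = k.1 → b' i = b' k → ∀ v : ℝ,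
        0 < (S.side i.1 * sg (b' i)) * (v - tt i) → 0 ≤ (S.side i.1 * sg (b' i)) * (τ i - v) →
        0 < (S.side i.1 * sg (b' i)) * (v - tt k) → 0 ≤ (S.side i.1 * sg (b' i)) * (τ k - v) →
        False := by
      intro i hi k hk hik he hb v h1 h2 h3 h4
      have hσk : S.side k.1 * sg (b' k) = S.side i.1 * sg (b' i) := by rw [he, hb]
      set σ := S.side i.1 * sg (b' i) with hσ
      by_cases hl : lab i = lab k
      · have htne : tt i ≠ tt k := fun h => hik (item_ext hl h)
        have hσ0 : σ ≠ 0 := by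
          intro h; rw [h] at h1; simp at h1
        rcases lt_or_gt_of_ne (mul_ne_zero hσ0 (sub_ne_zero.2 htne.symm)) with h | h
        · -- σ (tt k - tt i) < 0
          have h5 := hnear k hk i (hF1F i hi) hl (by rw [hσk]; linarith)
          rw [hσk] at h5
          have e1 : σ * (v - tt i) = -(σ * (τ k - v)) - σ * (tt i - τ k) := by ring
          rw [e1] at h1
          linarith
        · have h5 := hnear i hi k (hF1F k hk) hl.symm h
          have e1 : σ * (v - tt k) = -(σ * (τ i - v)) - σ * (tt k - τ i) := by ring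
          rw [e1] at h3
          linarith
      · apply hl
        -- second common point
        obtain ⟨v', hv', g1, g2, g3, g4⟩ : ∃ v' : ℝ, v ≠ v' ∧ 0 < σ * (v' - tt i) ∧
            0 ≤ σ * (τ i - v') ∧ 0 < σ * (v' - tt k) ∧ 0 ≤ σ * (τ k - v') := by
          rcases le_or_gt (σ * (v - tt i)) (σ * (v - tt k)) with h | h
          · refine ⟨v - (v - tt i) / 2, ?_, ?_, ?_, ?_, ?_⟩
            · intro h0
              have : v - tt i = 0 := by linarith
              rw [this] at h1; simp at h1
            · have : σ * (v - (v - tt i) / 2 - tt i) = σ * (v - tt i) / 2 := by ring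
              rw [this]; linarith
            · have : σ * (τ i - (v - (v - tt i) / 2)) = σ * (τ i - v) + σ * (v - tt i) / 2 := by
                ring
              rw [this]; linarith
            · have : σ * (v - (v - tt i) / 2 - tt k) = σ * (v - tt k) - σ * (v - tt i) / 2 := by
                ring
              rw [this]; linarith
            · have : σ * (τ k - (v - (v - tt i) / 2)) = σ * (τ k - v) + σ * (v - tt i) / 2 := by
                ring
              rw [this]; linarith
          · refine ⟨v - (v - tt k) / 2, ?_, ?_, ?_, ?_, ?_⟩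
            · intro h0
              have : v - tt k = 0 := by linarith
              rw [this] at h3; simp at h3
            · have : σ * (v - (v - tt k) / 2 - tt i) = σ * (v - tt i) - σ * (v - tt k) / 2 := by
                ring
              rw [this]; linarith
            · have : σ * (τ i - (v - (v - tt k) / 2)) = σ * (τ i - v) + σ * (v - tt k) / 2 := by
                ring
              rw [this]; linarith
            · have : σ * (v - (v - tt k) / 2 - tt k) = σ * (v - tt k) / 2 := by ring
              rw [this]; linarith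
            · have : σ * (τ k - (v - (v - tt k) / 2)) = σ * (τ k - v) + σ * (v - tt k) / 2 := by
                ring
              rw [this]; linarith
        have w1 := hwinv i hi v h1 h2
        have w1' := hwinv i hi v' g1 g2
        have w2 := hwinv k hk v (by rw [hσk]; exact h3) (by rw [hσk]; exact h4)
        have w2' := hwinv k hk v' (by rw [hσk]; exact g3) (by rw [hσk]; exact g4)
        rw [← he] at w2 w2'
        obtain ⟨hT, hbb⟩ := S.label_eq hv' (hgood i hi) w1 w1' w2 w2'
        unfold lab
        rw [he, hT, hbb]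
    -- split into special sources and shots
    set Q : Item n → Prop := fun i =>
      Spec S (e' i) (b' i) (tq i) (ts i) (S.ep i.1 (tt i)) (S.ep i.1 (τ i)) with hQ
    set A4 := F1.filter Q with hA4
    set F2 := F1.filter (fun i => ¬ Q i) with hF2
    have hF1c : F1.card = A4.card + F2.card := by
      rw [hA4, hF2, Finset.card_filter_add_card_filter_not]
    have hedge_mem : ∀ i ∈ F1, 0 ≤ ts i → ts i ≤ 1 →
        S.ep i.1 (tt i + ts i * (τ i - tt i)) ∈ S.oedge i.1 := by
      intro i hi h0 h1
      obtain ⟨g0, g1⟩ := hti i hi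
      have k0 := hτ0 i hi
      have k1 := hτ1 i hi
      apply S.ep_mem
      · have : tt i + ts i * (τ i - tt i) = (1 - ts i) * tt i + ts i * τ i := by ring
        rw [this]
        rcases h1.eq_or_lt with h | h
        · rw [h]; linarith
        · have := mul_pos (show (0 : ℝ) < 1 - ts i by linarith) g0
          have := mul_nonneg h0 k0.le
          linarith
      · have : 1 - (tt i + ts i * (τ i - tt i)) = (1 - ts i) * (1 - tt i) + ts i * (1 - τ i) := by
          ring
        have h2 : 0 < (1 - ts i) * (1 - tt i) + ts i * (1 - τ i) := by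
          rcases h1.eq_or_lt with h | h
          · rw [h]; linarith
          · have := mul_pos (show (0 : ℝ) < 1 - ts i by linarith)
              (show (0 : ℝ) < 1 - tt i by linarith)
            have := mul_nonneg h0 (show (0 : ℝ) ≤ 1 - τ i by linarith)
            linarith
        linarith
    -- the common-point consequence of equal shadow ends
    have hends : ∀ i ∈ F1, ∀ k ∈ F1, i ≠ k → i.1 = k.1 → b' i = b' k →
        0 < ts k → ts k ≤ 1 → ∀ r : ℝ, 0 < r → r ≤ 1 →
        tt i + r * (τ i - tt i) ≠ tt k + ts k * (τ k - tt k) := by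
      intro i hi k hk hik he hb hk0 hk1 r hr0 hr1 heq
      have hσk : S.side k.1 * sg (b' k) = S.side i.1 * sg (b' i) := by rw [he, hb]
      have d1 := hdir i hi
      have d2 := hdir k hk
      rw [hσk] at d2
      refine hDJ i hi k hk hik he hb (tt i + r * (τ i - tt i)) ?_ ?_ ?_ ?_
      · have : S.side i.1 * sg (b' i) * (tt i + r * (τ i - tt i) - tt i) =
          r * (S.side i.1 * sg (b' i) * (τ i - tt i)) := by ring
        rw [this]; positivity
      · have : S.side i.1 * sg (b' i) * (τ i - (tt i + r * (τ i - tt i))) =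
          (1 - r) * (S.side i.1 * sg (b' i) * (τ i - tt i)) := by ring
        rw [this]
        have : 0 ≤ 1 - r := by linarith
        positivity
      · rw [heq]
        have : S.side i.1 * sg (b' i) * (tt k + ts k * (τ k - tt k) - tt k) =
          ts k * (S.side i.1 * sg (b' i) * (τ k - tt k)) := by ring
        rw [this]; positivity
      · rw [heq]
        have : S.side i.1 * sg (b' i) * (τ k - (tt k + ts k * (τ k - tt k))) =
          (1 - ts k) * (S.side i.1 * sg (b' i) * (τ k - tt k)) := by ring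
        rw [this]
        have : 0 ≤ 1 - ts k := by linarith
        positivity
    have hA4c : A4.card ≤ (S.EA p j).card * 4 := by
      have hlamex : ∀ i ∈ A4, ∃ lam : ℝ, lam ≠ 0 ∧
          pt (S.ep i.1 (tt i)) (S.ep i.1 (τ i)) (ts i) - S.ep (e' i) (tq i) =
            lam • S.dir (e' i) := by
        intro i hi
        have hQi : Spec S (e' i) (b' i) (tq i) (ts i) (S.ep i.1 (tt i)) (S.ep i.1 (τ i)) :=
          (Finset.mem_filter.1 hi).2
        have h1 := hQi.onl
        have h2 := S.onLine_ep (e' i) (tq i)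
        unfold SimplePolygon.onLine at h1 h2
        have h3 : cr (S.dir (e' i)) (pt (S.ep i.1 (tt i)) (S.ep i.1 (τ i)) (ts i) -
            S.ep (e' i) (tq i)) = 0 := by
          have : pt (S.ep i.1 (tt i)) (S.ep i.1 (τ i)) (ts i) - S.ep (e' i) (tq i) =
              (pt (S.ep i.1 (tt i)) (S.ep i.1 (τ i)) (ts i) - S.v (e' i)) -
              (S.ep (e' i) (tq i) - S.v (e' i)) := by ring
          rw [this, cr_sub_right, h1, h2, sub_zero]
        obtain ⟨lam, hlam⟩ := parallel_of_cr (S.dir_ne (e' i)) h3
        refine ⟨lam, ?_, hlam⟩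
        rintro rfl
        rw [zero_smul, sub_eq_zero] at hlam
        have hab := hQi.above
        rw [← hlam] at hab
        have : cr (S.ep i.1 (τ i) - S.ep i.1 (tt i))
            (pt (S.ep i.1 (tt i)) (S.ep i.1 (τ i)) (ts i) - S.ep i.1 (tt i)) = 0 := by
          rw [cr_pt, cr_self, mul_zero]
        rw [this] at hab
        simp at hab
      choose! lam hlam0 hlam using hlamex
      set f : Item n → ZMod n × Bool × Bool := fun i => (e' i, decide (0 < lam i), b' i) with hf
      have hinj : Set.InjOn f A4 := by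
        intro i hi k hk hik
        by_contra hne
        have hi1 := (Finset.mem_filter.1 hi).1
        have hk1 := (Finset.mem_filter.1 hk).1
        have hQi : Spec S (e' i) (b' i) (tq i) (ts i) (S.ep i.1 (tt i)) (S.ep i.1 (τ i)) :=
          (Finset.mem_filter.1 hi).2
        have hQk : Spec S (e' k) (b' k) (tq k) (ts k) (S.ep k.1 (tt k)) (S.ep k.1 (τ k)) :=
          (Finset.mem_filter.1 hk).2
        simp only [hf, Prod.mk.injEq] at hik
        obtain ⟨f1, f2, f3⟩ := hik
        have hlami := hlam i hi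
        have hlamk := hlam k hk
        rw [← f1] at hQk hlamk
        have hprod : 0 < lam i * lam k := by
          rcases lt_or_gt_of_ne (hlam0 i hi) with h | h <;>
          rcases lt_or_gt_of_ne (hlam0 k hk) with h' | h'
          · exact mul_pos_of_neg_of_neg h h'
          · have e1 : decide (0 < lam i) = false := decide_eq_false (by linarith)
            have e2 : decide (0 < lam k) = true := decide_eq_true h'
            rw [e1, e2] at f2
            exact absurd f2 (by decide)
          · have e1 : decide (0 < lam i) = true := decide_eq_true h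
            have e2 : decide (0 < lam k) = false := decide_eq_false (by linarith)
            rw [e1, e2] at f2
            exact absurd f2 (by decide)
          · exact mul_pos h h'
        have hmi := hedge_mem i hi1 hQi.ts0.le hQi.ts1
        have hmk := hedge_mem k hk1 hQk.ts0.le hQk.ts1
        rw [← S.pt_ep] at hmi hmk
        have heq := S.spec_unique hQi hQk hmi hmk ⟨_, S.ep_sub i.1 _ _⟩ ⟨_, S.ep_sub k.1 _ _⟩
          hlami hlamk hprod
        have hee : i.1 = k.1 := S.oedge_unique hmk (by rw [← heq]; exact S.oedge_sub _ hmi)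
        rw [S.pt_ep, S.pt_ep, ← hee] at heq
        exact hends i hi1 k hk1 hne hee f3 hQk.ts0 hQk.ts1 (ts i) hQi.ts0 hQi.ts1
          (S.ep_inj heq)
      have hcard := Finset.card_le_card_of_injOn f
        (t := S.EA p j ×ˢ (Finset.univ : Finset (Bool × Bool)))
        (fun i hi => Finset.mem_coe.2 (Finset.mem_product.2 ⟨Finset.mem_filter.2
          ⟨Finset.mem_univ _, hact i (Finset.mem_filter.1 (Finset.mem_coe.1 hi)).1⟩,
          Finset.mem_univ _⟩)) hinj
      refine hcard.trans ?_
      rw [Finset.card_product, Finset.card_univ, Fintype.card_prod, Fintype.card_bool]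
    have hshot : ∀ i ∈ F2, ∃ T', Shot S p D j (e' i) T' (b' i) (tq i) (ts i) (S.ep i.1 (tt i))
        (S.ep i.1 (τ i)) (S.v i.2.1) := by
      intro i hi
      obtain ⟨hi1, hi2⟩ := Finset.mem_filter.1 hi
      rcases hres i hi1 with h | h
      · exact h
      · exact absurd h hi2
    choose! T' hshot using hshot
    have hF2c : F2.card ≤ S.NN p D j + (S.GG p D j).card := by
      refine S.shots_countM F2 e' T' b' tq ts (fun i => S.ep i.1 (tt i))
        (fun i => S.ep i.1 (τ i)) (fun i => S.v i.2.1) hshot ?_ ?_ (fun F hF hm => IH F hF hm)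
      swap
      · intro L hL
        apply Finset.card_le_card
        intro l hl
        obtain ⟨h1, i, hi, h2⟩ := hL l hl
        refine Finset.mem_filter.2 ⟨Finset.mem_univ _, h1, ?_⟩
        rw [h2]
        exact hact i (Finset.mem_filter.1 hi).1
      intro i hi k hk hik f1 f2 f3
      have hi1 := (Finset.mem_filter.1 hi).1
      have hk1 := (Finset.mem_filter.1 hk).1
      have s1 := hshot i hi
      have s2 := hshot k hk
      have s2' := s2
      rw [← f1, ← f2, ← f3] at s2'
      have := S.hB_edge (hti i hi1) ⟨hτ0 i hi1, hτ1 i hi1⟩ (hti k hk1) ⟨hτ0 k hk1, hτ1 k hk1⟩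
        s1 s2' (by
          intro hee r hr0 hr1
          exact hends i hi1 k hk1 hik hee f3 s2.ts0 s2.ts1 r (lt_of_lt_of_le s1.ts0 hr0) hr1)
      intro w hw
      have h5 := this w hw
      rw [f1, f2] at h5
      exact h5
    have hfin : F.card ≤ A1.card + A2.card + A3.card + F1.card := by
      refine (Finset.card_le_card hcover).trans ?_
      refine (Finset.card_union_le _ _).trans ?_
      gcongr
      refine (Finset.card_union_le _ _).trans ?_
      gcongr
      exact Finset.card_union_le _ _
    have e1 : S.NN p D (j + 1) = S.NN p D j + 3 * (S.GG p D (j + 1)).card +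
        (S.GG p D j).card + 4 * (S.EA p j).card := S.NN_succ p D j
    rw [e1]
    omega


end Run7.h395
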