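import Pool.Agent.Run7.h395.LocQ

/-!
# Segments and windows: bounds that do not depend on the number of reflections
-/

open Set Topology Filter Complex

noncomputable section

namespace Run7.h395

variable {n : ℕ} (S : SimplePolygon n)

theorem SimplePolygon.pairs_countM {p A B : ℂ} (hAB : A ≠ B) (hseg : segment ℝ A B ⊆ S.region)
    (k : ℕ) {α : Type*} [DecidableEq α] (I : Finset α) (u v : α → ℝ)
    (hu0 : ∀ i ∈ I, 0 ≤ u i) (huv : ∀ i ∈ I, u i < v i) (hv1 : ∀ i ∈ I, v i ≤ 1)
    (hlit : ∀ i ∈ I, pt A B (u i) ∈ S.lev p (k + 1))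
    (hdark : ∀ i ∈ I, pt A B (v i) ∉ S.lev p (k + 1))
    (hdisj : ∀ i ∈ I, ∀ l ∈ I, i ≠ l → v i < u l ∨ v l < u i) :
    I.card ≤ 120 * n := by
  classical
  have hNe := S.neZero
  have hcl := S.reg.closed
  have hBA : B - A ≠ 0 := sub_ne_zero.2 hAB.symm
  -- a common point of two closed intervals forces equality
  have hcommon : ∀ i ∈ I, ∀ l ∈ I, ∀ t, u i ≤ t → t ≤ v i → u l ≤ t → t ≤ v l → i = l := by
    intro i hi l hl t h1 h2 h3 h4
    by_contra hne
    rcases hdisj i hi l hl hne with h | h <;> linarith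
  -- X1: intervals containing a vertex
  set X1 := I.filter (fun i => ∃ w, ∃ t, u i ≤ t ∧ t ≤ v i ∧ pt A B t = S.v w) with hX1
  have hX1c : X1.card ≤ n := by
    have hch : ∀ i ∈ X1, ∃ w, ∃ t, u i ≤ t ∧ t ≤ v i ∧ pt A B t = S.v w :=
      fun i hi => (Finset.mem_filter.1 hi).2
    choose! w t h1 h2 h3 using hch
    have hinj : Set.InjOn w X1 := by
      intro i hi l hl hil
      have e1 := h3 i hi
      have e2 := h3 l hl
      rw [hil] at e1
      have ht : t i = t l := pt_inj hAB (e1.trans e2.symm)
      have g1 := h1 l hl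
      have g2 := h2 l hl
      rw [← ht] at g1 g2
      exact hcommon i (Finset.mem_filter.1 hi).1 l (Finset.mem_filter.1 hl).1 (t i)
        (h1 i hi) (h2 i hi) g1 g2
    have := Finset.card_le_card_of_injOn w (t := Finset.univ) (fun _ _ => Finset.mem_univ _) hinj
    rwa [Finset.card_univ, ZMod.card] at this
  -- X2: intervals touching the ends
  set X2 := I.filter (fun i => u i = 0) with hX2
  set X2' := I.filter (fun i => v i = 1) with hX2'
  have hX2c : X2.card ≤ 1 := by
    apply card_le_one_of
    intro i hi l hl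
    obtain ⟨hi1, hi2⟩ := Finset.mem_filter.1 hi
    obtain ⟨hl1, hl2⟩ := Finset.mem_filter.1 hl
    apply hcommon i hi1 l hl1 0
    · rw [hi2]
    · have := huv i hi1; linarith
    · rw [hl2]
    · have := huv l hl1; linarith
  have hX2c' : X2'.card ≤ 1 := by
    apply card_le_one_of
    intro i hi l hl
    obtain ⟨hi1, hi2⟩ := Finset.mem_filter.1 hi
    obtain ⟨hl1, hl2⟩ := Finset.mem_filter.1 hl
    apply hcommon i hi1 l hl1 1
    · have := huv i hi1; linarith
    · rw [hi2]
    · have := huv l hl1; linarith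
    · rw [hl2]
  -- seeing an end point implies seeing the dark point in between, for collinear sources
  have hcol : ∀ ρ a b : ℝ, svis S.region (pt A B ρ) (pt A B b) →
      ((ρ < a ∧ a < b) ∨ (b < a ∧ a < ρ)) → svis S.region (pt A B ρ) (pt A B a) := by
    intro ρ a b h hab x hx
    apply h
    rw [mem_openSegment_iff] at hx ⊢
    obtain ⟨r, r0, r1, rfl⟩ := hx
    have hne : b - ρ ≠ 0 := by rcases hab with ⟨h1, h2⟩ | ⟨h1, h2⟩ <;> intro h0 <;> linarith
    have hq : 0 < (a - ρ) / (b - ρ) ∧ (a - ρ) / (b - ρ) < 1 := by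
      rcases hab with ⟨h1, h2⟩ | ⟨h1, h2⟩
      · constructor
        · exact div_pos (by linarith) (by linarith)
        · rw [div_lt_one (by linarith)]; linarith
      · constructor
        · exact div_pos_of_neg_of_neg (by linarith) (by linarith)
        · rw [div_lt_one_of_neg (by linarith)]; linarith
    refine ⟨r * ((a - ρ) / (b - ρ)), mul_pos r0 hq.1, by nlinarith [hq.1, hq.2], ?_⟩
    rw [pt_pt_pt, pt_pt_pt]
    congr 1
    field_simp
  -- X3: seen directly from p
  set X3 := I.filter (fun i => svis S.region p (pt A B (u i))) with hX3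
  have hX3c : X3.card ≤ 3 := by
    by_cases hline : cr (B - A) (p - A) = 0
    · obtain ⟨ρ, hρ⟩ := parallel_of_cr hBA hline
      have hp : p = pt A B ρ := by
        have : p = A + (p - A) := by ring
        rw [this, hρ]; rfl
      have hkey : ∀ i ∈ X3, ∀ l ∈ X3, i ≠ l → v i < u l →
          ¬ (u i < ρ ∧ u l < ρ) ∧ ¬ (u i = ρ ∧ u l = ρ) ∧ ¬ (ρ < u i ∧ ρ < u l) := by
        intro i hi l hl hne hlt
        obtain ⟨hi1, hi2⟩ := Finset.mem_filter.1 hi
        obtain ⟨hl1, hl2⟩ := Finset.mem_filter.1 hl
        have g1 := huv i hi1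
        have g2 := huv l hl1
        refine ⟨?_, ?_, ?_⟩
        · rintro ⟨h1, h2⟩
          apply hdark i hi1
          refine ⟨hseg (pt_mem_segment (by linarith [hu0 i hi1]) (hv1 i hi1)), Or.inl ?_⟩
          rw [hp] at hi2 ⊢
          exact hcol ρ (v i) (u i) hi2 (Or.inr ⟨g1, by linarith⟩)
        · rintro ⟨h1, h2⟩; linarith
        · rintro ⟨h1, h2⟩
          apply hdark i hi1
          refine ⟨hseg (pt_mem_segment (by linarith [hu0 i hi1]) (hv1 i hi1)), Or.inl ?_⟩
          rw [hp] at hl2 ⊢
          exact hcol ρ (v i) (u l) hl2 (Or.inl ⟨by linarith, hlt⟩)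
      set f : α → Fin 3 := fun i => if u i < ρ then 0 else if u i = ρ then 1 else 2 with hf
      have hinj : Set.InjOn f X3 := by
        intro i hi l hl hil
        by_contra hne
        have hi1 := (Finset.mem_filter.1 hi).1
        have hl1 := (Finset.mem_filter.1 hl).1
        have hcase : ¬ (u i < ρ ∧ u l < ρ) ∧ ¬ (u i = ρ ∧ u l = ρ) ∧ ¬ (ρ < u i ∧ ρ < u l) := by
          rcases hdisj i hi1 l hl1 hne with h | h
          · exact hkey i hi l hl hne h
          · have := hkey l hl i hi (Ne.symm hne) h
            tauto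
        obtain ⟨c1, c2, c3⟩ := hcase
        simp only [hf] at hil
        rcases lt_trichotomy (u i) ρ with a1 | a1 | a1 <;>
        rcases lt_trichotomy (u l) ρ with a2 | a2 | a2
        · exact c1 ⟨a1, a2⟩
        · rw [if_pos a1, if_neg (by linarith), if_pos a2] at hil
          exact absurd hil (by decide)
        · rw [if_pos a1, if_neg (by linarith), if_neg (by linarith)] at hil
          exact absurd hil (by decide)
        · rw [if_neg (by linarith), if_pos a1, if_pos a2] at hil
          exact absurd hil (by decide)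
        · exact c2 ⟨a1, a2⟩
        · rw [if_neg (by linarith), if_pos a1, if_neg (by linarith), if_neg (by linarith)] at hil
          exact absurd hil (by decide)
        · rw [if_neg (by linarith), if_neg (by linarith), if_pos a2] at hil
          exact absurd hil (by decide)
        · rw [if_neg (by linarith), if_neg (by linarith), if_neg (by linarith), if_pos a2] at hil
          exact absurd hil (by decide)
        · exact c3 ⟨a1, a2⟩
      have := Finset.card_le_card_of_injOn f (t := Finset.univ) (fun _ _ => Finset.mem_univ _) hinj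
      simpa using this
    · have : X3.card ≤ 1 := by
        apply card_le_one_of
        have hkey : ∀ i ∈ X3, ∀ l ∈ X3, v i < u l → False := by
          intro i hi l hl hlt
          obtain ⟨hi1, hi2⟩ := Finset.mem_filter.1 hi
          obtain ⟨hl1, hl2⟩ := Finset.mem_filter.1 hl
          have g1 := huv i hi1
          have g2 := huv l hl1
          apply hdark i hi1
          refine ⟨hseg (pt_mem_segment (by linarith [hu0 i hi1]) (hv1 i hi1)), Or.inl ?_⟩
          have he : pt A B (v i) = pt (pt A B (u i)) (pt A B (u l))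
              ((v i - u i) / (u l - u i)) := by
            rw [pt_pt_pt]
            congr 1
            have : u l - u i ≠ 0 := by linarith
            field_simp
            ring
          rw [he]
          apply svis_of_tri S.reg
          · intro h0
            have e1 : ori p (pt A B (u i)) (pt A B (u l)) = (u l - u i) * cr (B - A) (p - A) := by
              unfold ori cr
              simp only [pt_re, pt_im, Complex.sub_re, Complex.sub_im]
              ring
            rw [e1] at h0
            rcases mul_eq_zero.1 h0 with h | h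
            · linarith
            · exact hline h
          · exact seg_of_svis hcl hi2
          · exact pt_seg_sub hseg (hu0 i hi1) (by linarith [hv1 i hi1]) (hu0 l hl1)
              (by linarith [hv1 l hl1])
          · exact seg_of_svis hcl hl2
          · exact div_pos (by linarith) (by linarith)
          · rw [div_lt_one (by linarith)]; linarith
        intro i hi l hl
        by_contra hne
        rcases hdisj i (Finset.mem_filter.1 hi).1 l (Finset.mem_filter.1 hl).1 hne with h | h
        · exact hkey i hi l hl h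
        · exact hkey l hl i hi h
      omega
  -- X4: the first interval
  set X4 := I.filter (fun i => ∀ l ∈ I, ¬ v l < u i) with hX4
  have hX4c : X4.card ≤ 1 := by
    apply card_le_one_of
    intro i hi l hl
    obtain ⟨hi1, hi2⟩ := Finset.mem_filter.1 hi
    obtain ⟨hl1, hl2⟩ := Finset.mem_filter.1 hl
    by_contra hne
    rcases hdisj i hi1 l hl1 hne with h | h
    · exact hl2 i hi1 h
    · exact hi2 l hl1 h
  -- the rest
  set R := I.filter (fun i => i ∉ X1 ∧ i ∉ X2 ∧ i ∉ X2' ∧ i ∉ X3 ∧ i ∉ X4) with hR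
  have hcover : I ⊆ X1 ∪ X2 ∪ X2' ∪ X3 ∪ X4 ∪ R := by
    intro i hi
    simp only [Finset.mem_union, hR, Finset.mem_filter, hi, true_and]
    tauto
  have hRI : ∀ i ∈ R, i ∈ I := fun i hi => (Finset.mem_filter.1 hi).1
  -- sources
  have hsrc : ∀ i ∈ R, ∃ (b : Bool) (e : ZMod n) (tq ts : ℝ),
      (∃ T, Shot S p B k e T b tq ts (pt A B (u i)) (pt A B (v i)) B) ∨
      Spec S e b tq ts (pt A B (u i)) (pt A B (v i)) := by
    intro i hi
    obtain ⟨hiI, hn1, hn2, hn2', hn3, hn4⟩ := Finset.mem_filter.1 hi
    have hu : 0 < u i := by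
      rcases (hu0 i hiI).eq_or_lt with h | h
      · exact absurd (Finset.mem_filter.2 ⟨hiI, h.symm⟩) hn2
      · exact h
    have hv : v i < 1 := by
      rcases (hv1 i hiI).lt_or_eq with h | h
      · exact h
      · exact absurd (Finset.mem_filter.2 ⟨hiI, h⟩) hn2'
    have hlt := huv i hiI
    obtain ⟨hreg, hp | ⟨r0, hr1, ⟨e, hr2⟩, hr3⟩⟩ := hlit i hiI
    · exact absurd (Finset.mem_filter.2 ⟨hiI, hp⟩) hn3
    have hr2' := hr2
    rw [S.mem_oedge_iff] at hr2
    obtain ⟨t0, h00, h01, hr0e⟩ := hr2
    -- the source is not collinear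
    have hnc : cr (B - A) (r0 - A) ≠ 0 := by
      intro h0
      obtain ⟨ρ, hρ⟩ := parallel_of_cr hBA h0
      have hrρ : r0 = pt A B ρ := by
        have : r0 = A + (r0 - A) := by ring
        rw [this, hρ]; rfl
      -- a source strictly inside the segment is impossible
      have hinside : ¬ (0 < ρ ∧ ρ < 1) := by
        rintro ⟨g0, g1⟩
        have hc := S.oedge_cross hr2' (by rw [hrρ]; exact pt_mem_openSegment g0 g1) hseg
        have hs := S.svis_side hr2' (svis_symm hr3)
        rw [hrρ, pt_sub_pt, cr_smul_right, hc] at hs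
        simp at hs
      rcases lt_trichotomy ρ (u i) with h | h | h
      · -- then there is a dark point before
        have hnot : ∃ l ∈ I, v l < u i := by
          by_contra hcon
          push Not at hcon
          exact hn4 (Finset.mem_filter.2 ⟨hiI, fun l hl => not_lt.2 (hcon l hl)⟩)
        obtain ⟨l, hl, hlv⟩ := hnot
        rcases lt_or_ge ρ (v l) with h2 | h2
        · apply hdark l hl
          refine ⟨hseg (pt_mem_segment (by linarith [hu0 l hl, huv l hl]) (hv1 l hl)),
            Or.inr ⟨r0, hr1, ⟨e, hr2'⟩, ?_⟩⟩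
          rw [hrρ] at hr3 ⊢
          exact hcol ρ (v l) (u i) hr3 (Or.inl ⟨h2, hlv⟩)
        · apply hinside
          constructor
          · have := huv l hl
            have := hu0 l hl
            linarith
          · linarith
      · apply hinside
        constructor <;> linarith
      · rcases lt_or_ge (v i) ρ with h2 | h2
        · apply hdark i hiI
          refine ⟨hseg (pt_mem_segment (by linarith) (hv1 i hiI)),
            Or.inr ⟨r0, hr1, ⟨e, hr2'⟩, ?_⟩⟩
          rw [hrρ] at hr3 ⊢
          exact hcol ρ (v i) (u i) hr3 (Or.inr ⟨hlt, h2⟩)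
        · apply hinside
          constructor <;> linarith
    obtain ⟨b, hb⟩ := exists_sg hnc
    have hzy : pt A B (v i) - pt A B (u i) = (v i - u i) • (B - A) := pt_sub_pt _ _ _ _
    have hvu : 0 < v i - u i := by linarith
    have hline0 : ∀ t x, cr (B - A) (x - pt A B t) = cr (B - A) (x - A) := by
      intro t x
      unfold cr
      simp only [pt_re, pt_im, Complex.sub_re, Complex.sub_im]
      ring
    have hsegpar : ∀ w ∈ segment ℝ (pt A B (u i)) (pt A B (v i)), ∃ t, u i ≤ t ∧ t ≤ v i ∧
        w = pt A B t := by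
      intro w hw
      rw [mem_segment_iff] at hw
      obtain ⟨r, k0, k1, rfl⟩ := hw
      refine ⟨u i + r * (v i - u i), by nlinarith, by nlinarith, pt_pt_pt _ _ _ _ _⟩
    have habove : 0 < sg b * cr (pt A B (v i) - pt A B (u i)) (r0 - pt A B (u i)) := by
      rw [hzy, cr_smul_left, hline0]
      have : sg b * ((v i - u i) * cr (B - A) (r0 - A)) =
          (v i - u i) * (sg b * cr (B - A) (r0 - A)) := by ring
      rw [this]; positivity
    have hcr0 : cr (pt A B (v i) - pt A B (u i)) (B - pt A B (u i)) = 0 := by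
      rw [hzy, cr_smul_left, hline0, cr_self, mul_zero]
    have tgt : Tgt S p B k b (pt A B (u i)) (pt A B (v i)) B := by
      refine ⟨pt_seg_sub hseg hu.le (by linarith) (by linarith) hv.le, ?_, hdark i hiI, ?_, ?_,
        Or.inl rfl⟩
      · intro w hw
        obtain ⟨t, k0, k1, rfl⟩ := hsegpar w hw
        rcases S.seg_free hAB hseg hu hlt.le hv (by
          intro j t h1 h2 h3
          exact hn1 (Finset.mem_filter.2 ⟨hiI, j, t, h1, h2, h3⟩)) with h | ⟨j, hj, c, hc0, hc⟩
        · obtain ⟨r, hr, hb2⟩ := Metric.isOpen_iff.1 isOpen_interior _ (h t k0 k1)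
          exact ⟨r, hr, fun y hy _ => hb2 hy⟩
        · have hs := S.svis_side (hj (u i) le_rfl hlt.le) hr3
          have hfr := S.side_fr (hj t k0 k1)
          -- sign bookkeeping
          have hab2 := habove
          rw [hzy, hc, smul_smul, cr_smul_left] at hab2
          set κ := (v i - u i) * c with hκ
          have hκs : 0 < (sg b * S.side j) * κ := by
            have hss : S.side j * S.side j = 1 := by
              rcases S.side_pm j with h | h <;> rw [h] <;> norm_num
            have e1 : sg b * (κ * cr (S.dir j) (r0 - pt A B (u i))) =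
                ((sg b * S.side j) * κ) * (S.side j * cr (S.dir j) (r0 - pt A B (u i))) := by
              linear_combination (-(sg b * κ * cr (S.dir j) (r0 - pt A B (u i)))) * hss
            rw [e1] at hab2
            exact (mul_pos_iff_of_pos_right hs).1 hab2
          have h5 := fr_smul hfr hκs
          have e2 : sg b * S.side j * S.side j = sg b := by
            have hss : S.side j * S.side j = 1 := by
              rcases S.side_pm j with h | h <;> rw [h] <;> norm_num
            rw [mul_assoc, hss, mul_one]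
          rw [e2] at h5
          rw [hzy, hc, smul_smul]
          exact h5
      · rw [hcr0, mul_zero]
      · intro w hw
        obtain ⟨t, k0, k1, rfl⟩ := hsegpar w hw
        constructor
        · have := pt_seg_sub hseg (t := t) (t' := 1) (by linarith) (by linarith) zero_le_one le_rfl
          rwa [pt_one] at this
        · intro h
          have : pt A B t = pt A B 1 := by rw [h, pt_one]
          have := pt_inj hAB this
          linarith
    have hk : 0 < sg b * cr (pt A B (u i) - r0) (B - r0) := by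
      have e1 : sg b * cr (pt A B (u i) - r0) (B - r0) =
          (1 - u i) * (sg b * cr (B - A) (r0 - A)) := by
        unfold cr
        simp only [pt_re, pt_im, Complex.sub_re, Complex.sub_im]
        ring
      rw [e1]
      exact mul_pos (by linarith) hb
    have hj : JoinedIn S.region (pt A B (u i)) B := by
      apply JoinedIn.of_segment
      have := pt_seg_sub hseg (t := u i) (t' := 1) hu.le (by linarith) zero_le_one le_rfl
      rwa [pt_one] at this
    rw [hr0e] at hr1 hr3 habove hk
    obtain ⟨tq, ts, h⟩ := S.make_shot tgt (Or.inl hcr0) h00 h01 hr1 hr3 habove hk hj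
    exact ⟨b, e, tq, ts, h⟩
  choose! b e tq ts hres using hsrc
  have hzy : ∀ i, pt A B (v i) - pt A B (u i) = (v i - u i) • (B - A) := fun i => pt_sub_pt _ _ _ _
  -- special sources
  set Q : α → Prop := fun i => Spec S (e i) (b i) (tq i) (ts i) (pt A B (u i)) (pt A B (v i))
    with hQ
  set R1 := R.filter Q with hR1
  set R2 := R.filter (fun i => ¬ Q i) with hR2
  have hRc : R.card = R1.card + R2.card := by
    rw [hR1, hR2, Finset.card_filter_add_card_filter_not]
  -- equal shadow ends
  have hends : ∀ i ∈ R, ∀ l ∈ R, i ≠ l → 0 < ts l → ts l ≤ 1 → ∀ r : ℝ, 0 < r → r ≤ 1 →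
      u i + r * (v i - u i) ≠ u l + ts l * (v l - u l) := by
    intro i hi l hl hil hl0 hl1 r hr0 hr1 heq
    have g1 := huv i (hRI i hi)
    have g2 := huv l (hRI l hl)
    apply hil
    apply hcommon i (hRI i hi) l (hRI l hl) (u i + r * (v i - u i))
    · nlinarith
    · nlinarith
    · rw [heq]; nlinarith
    · rw [heq]; nlinarith
  have hR1c : R1.card ≤ n := by
    have hinj : Set.InjOn e R1 := by
      intro i hi l hl hil
      by_contra hne
      obtain ⟨hi1, hi2⟩ := Finset.mem_filter.1 hi
      obtain ⟨hl1, hl2⟩ := Finset.mem_filter.1 hl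
      have s1 : Spec S (e i) (b i) (tq i) (ts i) (pt A B (u i)) (pt A B (v i)) := hi2
      have s2 : Spec S (e l) (b l) (tq l) (ts l) (pt A B (u l)) (pt A B (v l)) := hl2
      rw [← hil] at s2
      have o1 := s1.onl
      have o2 := s2.onl
      rw [pt_pt_pt] at o1 o2
      unfold SimplePolygon.onLine at o1 o2
      have hpar : ((u l + ts l * (v l - u l)) - (u i + ts i * (v i - u i))) *
          cr (S.dir (e i)) (B - A) = 0 := by
        rw [← cr_smul_right, ← pt_sub_pt]
        have : pt A B (u l + ts l * (v l - u l)) - pt A B (u i + ts i * (v i - u i)) =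
            (pt A B (u l + ts l * (v l - u l)) - S.v (e i)) -
            (pt A B (u i + ts i * (v i - u i)) - S.v (e i)) := by ring
        rw [this, cr_sub_right, o1, o2, sub_zero]
      rcases mul_eq_zero.1 hpar with h | h
      · exact hends i hi1 l hl1 hne s2.ts0 s2.ts1 (ts i) s1.ts0 s1.ts1 (by linarith)
      · -- the line of the edge is the line AB
        have hab := s1.above
        rw [hzy, cr_smul_left] at hab
        obtain ⟨c, hc⟩ := parallel_of_cr (S.dir_ne (e i)) h
        have e3 : cr (B - A) (S.ep (e i) (tq i) - pt A B (u i)) = 0 := by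
          have h6 : S.ep (e i) (tq i) - pt A B (u i) =
              (S.ep (e i) (tq i) - S.v (e i)) -
              (pt A B (u i + ts i * (v i - u i)) - S.v (e i)) +
              (ts i * (v i - u i)) • (B - A) := by
            have h7 := pt_sub_pt A B (u i) (u i + ts i * (v i - u i))
            rw [add_sub_cancel_left] at h7
            rw [← h7]; ring
          rw [h6, cr_add_right, cr_sub_right, cr_smul_right, cr_self, S.ep_sub_v, hc,
            cr_smul_left, cr_smul_right, cr_self, cr_smul_left, o1]
          ring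
        rw [e3] at hab
        simp at hab
    have := Finset.card_le_card_of_injOn e (t := Finset.univ) (fun _ _ => Finset.mem_univ _) hinj
    rwa [Finset.card_univ, ZMod.card] at this
  have hshot : ∀ i ∈ R2, ∃ T, Shot S p B k (e i) T (b i) (tq i) (ts i) (pt A B (u i))
      (pt A B (v i)) B := by
    intro i hi
    obtain ⟨hi1, hi2⟩ := Finset.mem_filter.1 hi
    rcases hres i hi1 with h | h
    · exact h
    · exact absurd h hi2
  choose! T hshot using hshot
  have hR2c : R2.card ≤ 80 * n + 4 * n := by
    refine S.shots_countM R2 e T b tq ts (fun i => pt A B (u i))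
      (fun i => pt A B (v i)) (fun _ => B) hshot ?_
      (fun L hL => S.label_count B L (fun l hl => (hL l hl).1))
      (fun F hF hm => (S.main_countM p B k F hF hm).trans (S.NN_le p B k))
    intro i hi l hl hil f1 f2 f3 w hw hwk
    have hi1 := (Finset.mem_filter.1 hi).1
    have hl1 := (Finset.mem_filter.1 hl).1
    have s1 := hshot i hi
    have s2 := hshot l hl
    have hk2 := Shot.ys_kap S s2
    -- both points on the ray and on the line AB
    obtain ⟨r, r0, r1, hwe⟩ : ∃ r, ts i ≤ r ∧ r ≤ 1 ∧ w = pt A B (u i + r * (v i - u i)) := by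
      rw [mem_segment_iff] at hw
      obtain ⟨a, a0, a1, hwa⟩ := hw
      refine ⟨ts i + a * (1 - ts i), by nlinarith [s1.ts1], by nlinarith [s1.ts1], ?_⟩
      rw [hwa, pt_pt_pt, pt_pt_pt]
      congr 1
      ring
    have hr0 : 0 < r := lt_of_lt_of_le s1.ts0 r0
    rw [pt_pt_pt] at hk2
    obtain ⟨a, a1, hwa, -⟩ := hwk
    obtain ⟨a', a1', hka, -⟩ := hk2
    have htr := Shot.transversal S s2
    rw [hzy, cr_smul_left] at htr
    have htr' : cr (B - A) (S.v (T l) - S.ep (e l) (tq l)) ≠ 0 := by
      intro h; apply htr; rw [h, mul_zero]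
    have haa : a = a' := by
      have e1 : cr (B - A) (pt (S.ep (e l) (tq l)) (S.v (T l)) a - A) = 0 := by
        rw [← hwa, hwe]
        unfold cr
        simp only [pt_re, pt_im, Complex.sub_re, Complex.sub_im]
        ring
      have e2 : cr (B - A) (pt (S.ep (e l) (tq l)) (S.v (T l)) a' - A) = 0 := by
        rw [← hka]
        unfold cr
        simp only [pt_re, pt_im, Complex.sub_re, Complex.sub_im]
        ring
      have e3 : (a - a') * cr (B - A) (S.v (T l) - S.ep (e l) (tq l)) = 0 := by
        have e4 : (a - a') * cr (B - A) (S.v (T l) - S.ep (e l) (tq l)) =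
            cr (B - A) (pt (S.ep (e l) (tq l)) (S.v (T l)) a - A) -
            cr (B - A) (pt (S.ep (e l) (tq l)) (S.v (T l)) a' - A) := by
          unfold cr
          simp only [pt_re, pt_im, Complex.sub_re, Complex.sub_im]
          ring
        rw [e4, e1, e2, sub_zero]
      have := (mul_eq_zero.1 e3).resolve_right htr'
      linarith
    rw [haa, ← hka, hwe] at hwa
    exact hends i hi1 l hl1 hil s2.ts0 s2.ts1 r hr0 r1 (pt_inj hAB hwa)
  have hfin : I.card ≤ X1.card + X2.card + X2'.card + X3.card + X4.card + R.card := by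
    refine (Finset.card_le_card hcover).trans ?_
    refine (Finset.card_union_le _ _).trans ?_
    gcongr
    refine (Finset.card_union_le _ _).trans ?_
    gcongr
    refine (Finset.card_union_le _ _).trans ?_
    gcongr
    refine (Finset.card_union_le _ _).trans ?_
    gcongr
    exact Finset.card_union_le _ _
  have h3 := S.three_le
  omega


theorem SimplePolygon.alt_countM {p A B : ℂ} (hAB : A ≠ B) (hseg : segment ℝ A B ⊆ S.region)
    (k : ℕ) {α : Type*} [DecidableEq α] (J : Finset α) (a b : α → ℝ)
    (ha0 : ∀ i ∈ J, 0 ≤ a i) (ha1 : ∀ i ∈ J, a i ≤ 1) (hb0 : ∀ i ∈ J, 0 ≤ b i)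
    (hb1 : ∀ i ∈ J, b i ≤ 1)
    (hlit : ∀ i ∈ J, pt A B (a i) ∈ S.lev p (k + 1))
    (hdark : ∀ i ∈ J, pt A B (b i) ∉ S.lev p (k + 1))
    (hdisj : ∀ i ∈ J, ∀ l ∈ J, i ≠ l → (a i < a l ∧ a i < b l ∧ b i < a l ∧ b i < b l) ∨
      (a l < a i ∧ a l < b i ∧ b l < a i ∧ b l < b i)) :
    J.card ≤ 240 * n := by
  classical
  set J1 := J.filter (fun i => a i < b i) with hJ1
  set J2 := J.filter (fun i => ¬ a i < b i) with hJ2
  have h1 : J1.card ≤ 120 * n := by
    refine S.pairs_countM (p := p) hAB hseg k J1 a b ?_ ?_ ?_ ?_ ?_ ?_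
    · intro i hi; exact ha0 i (Finset.mem_filter.1 hi).1
    · intro i hi; exact (Finset.mem_filter.1 hi).2
    · intro i hi; exact hb1 i (Finset.mem_filter.1 hi).1
    · intro i hi; exact hlit i (Finset.mem_filter.1 hi).1
    · intro i hi; exact hdark i (Finset.mem_filter.1 hi).1
    · intro i hi l hl hil
      rcases hdisj i (Finset.mem_filter.1 hi).1 l (Finset.mem_filter.1 hl).1 hil with h | h
      · exact Or.inl h.2.2.1
      · exact Or.inr h.2.2.1
  have hrev : ∀ t : ℝ, pt B A (1 - t) = pt A B t := by
    intro t; unfold pt; simp only [Complex.real_smul]; push_cast; ring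
  have h2 : J2.card ≤ 120 * n := by
    have hne : ∀ i ∈ J2, b i < a i := by
      intro i hi
      have hi' := Finset.mem_filter.1 hi
      have h3 := not_lt.1 hi'.2
      refine lt_of_le_of_ne h3 ?_
      intro h4
      exact hdark i hi'.1 (h4 ▸ hlit i hi'.1)
    refine S.pairs_countM (p := p) hAB.symm (by rw [segment_symm]; exact hseg) k J2
      (fun i => 1 - a i) (fun i => 1 - b i) ?_ ?_ ?_ ?_ ?_ ?_
    · intro i hi
      have := ha1 i (Finset.mem_filter.1 hi).1
      linarith
    · intro i hi
      have := hne i hi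
      linarith
    · intro i hi
      have := hb0 i (Finset.mem_filter.1 hi).1
      linarith
    · intro i hi
      rw [hrev]; exact hlit i (Finset.mem_filter.1 hi).1
    · intro i hi
      rw [hrev]; exact hdark i (Finset.mem_filter.1 hi).1
    · intro i hi l hl hil
      rcases hdisj i (Finset.mem_filter.1 hi).1 l (Finset.mem_filter.1 hl).1 hil with h | h
      · right; linarith [h.2.1]
      · left; linarith [h.2.1]
  have h3 : J1.card + J2.card = J.card := by
    rw [hJ1, hJ2, Finset.card_filter_add_card_filter_not]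
  have e1 : 240 * n = 120 * n + 120 * n := by ring
  omega


theorem SimplePolygon.corner_countM {p A : ℂ} {m : ZMod n} {k : ℕ} (X : Finset ℂ)
    (hX : ∀ x ∈ X, x ∈ S.ray A m ∧ x ∈ interior S.region ∧ x ∈ frontier (S.lev p (k + 1)) ∧
      ¬ FlatDir (frontier (S.lev p (k + 1))) x (S.v m - A)) : X.card ≤ 720 * n := by
  classical
  rcases X.eq_empty_or_nonempty with hXe | hXne
  · rw [hXe]; simp
  set T := S.v m with hT
  set V := S.lev p (k + 1) with hV
  have hne : A ≠ T := by
    obtain ⟨x, hx⟩ := hXne
    exact S.ray_ne (hX x hx).1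
  set d := T - A with hd
  have hd0 : d ≠ 0 := sub_ne_zero.2 hne.symm
  have hdn : 0 < ‖d‖ := norm_pos_iff.2 hd0
  have hray : ∀ x ∈ X, ∃ τ : ℝ, 1 < τ ∧ x = pt A T τ ∧ svis S.region T x := fun x hx => (hX x hx).1
  choose! τ hτ1 hτe hτv using hray
  obtain ⟨xm, hxm, hmin⟩ := Finset.exists_min_image X τ hXne
  obtain ⟨xM, hxM, hmax⟩ := Finset.exists_max_image X τ hXne
  -- the end of the segment
  obtain ⟨β, hβ, hβi⟩ : ∃ β, τ xM < β ∧ ∀ t, τ xM ≤ t → t ≤ β → pt A T t ∈ interior S.region := by
    obtain ⟨r, hr, hb⟩ := Metric.isOpen_iff.1 isOpen_interior xM (hX xM hxM).2.1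
    obtain ⟨ε, ε0, -, ε2⟩ := exists_small d hr 1 one_pos
    refine ⟨τ xM + ε, by linarith, ?_⟩
    intro t h1 h2
    apply hb
    rw [Metric.mem_ball, dist_eq_norm]
    conv_lhs => rw [hτe xM hxM]
    rw [pt_sub_pt, norm_smul, Real.norm_eq_abs, abs_of_nonneg (by linarith)]
    have : (t - τ xM) * ‖T - A‖ ≤ ε * ‖d‖ := mul_le_mul_of_nonneg_right (by linarith) (norm_nonneg _)
    linarith
  set α := (1 + τ xm) / 2 with hα
  have hα1 : 1 < α := by have := hτ1 xm hxm; rw [hα]; linarith
  have hαm : α < τ xm := by have := hτ1 xm hxm; rw [hα]; linarith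
  have hmM : τ xm ≤ τ xM := hmax xm hxm
  have hαβ : 0 < β - α := by linarith
  have hinside : ∀ t, α ≤ t → t ≤ β → pt A T t ∈ interior S.region := by
    intro t h1 h2
    rcases lt_or_ge t (τ xM) with h3 | h3
    · apply hτv xM hxM
      rw [mem_openSegment_iff]
      refine ⟨(t - 1) / (τ xM - 1), div_pos (by linarith) (by linarith), ?_, ?_⟩
      · rw [div_lt_one (by linarith)]; linarith
      · have h5 := pt_pt_pt A T 1 (τ xM) ((t - 1) / (τ xM - 1))
        rw [pt_one, ← hτe xM hxM, div_mul_cancel₀ _ (by linarith : τ xM - 1 ≠ 0)] at h5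
        rw [h5]; congr 1; ring
    · exact hβi t h3 h2
  set A1 := pt A T α with hA1
  set B1 := pt A T β with hB1
  set D := B1 - A1 with hD
  have hDd : D = (β - α) • d := by rw [hD, hB1, hA1, pt_sub_pt]
  have hD0 : D ≠ 0 := by
    rw [hDd]; exact smul_ne_zero hαβ.ne' hd0
  have hA1B1 : A1 ≠ B1 := fun h => hD0 (by rw [hD, h, sub_self])
  have hseg1 : segment ℝ A1 B1 ⊆ interior S.region := by
    intro z hz
    rw [mem_segment_iff] at hz
    obtain ⟨t, t0, t1, rfl⟩ := hz
    rw [hA1, hB1, pt_pt_pt]
    apply hinside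
    · have := mul_nonneg t0 hαβ.le
      linarith
    · nlinarith
  set u : ℂ → ℝ := fun x => (τ x - α) / (β - α) with hu
  have hux : ∀ x ∈ X, x = pt A1 B1 (u x) := by
    intro x hx
    rw [hA1, hB1, pt_pt_pt, hu]
    simp only
    rw [div_mul_cancel₀ _ hαβ.ne']
    have : α + (τ x - α) = τ x := by ring
    rw [this]; exact hτe x hx
  have hu0 : ∀ x ∈ X, 0 < u x := fun x hx => div_pos (by linarith [hmin x hx]) hαβ
  have hu1 : ∀ x ∈ X, u x < 1 := by
    intro x hx
    rw [hu]; simp only
    rw [div_lt_one hαβ]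
    linarith [hmax x hx]
  have hinj : ∀ x ∈ X, ∀ y ∈ X, u x = u y → x = y := by
    intro x hx y hy h
    rw [hux x hx, hux y hy, h]
  -- the gap
  obtain ⟨γ, hγ, hgap, hg0, hg1⟩ : ∃ γ > 0, (∀ x ∈ X, ∀ y ∈ X, u x < u y → γ ≤ u y - u x) ∧
      (∀ x ∈ X, γ ≤ u x) ∧ (∀ x ∈ X, γ ≤ 1 - u x) := by
    obtain ⟨γ1, hγ1, h1⟩ : ∃ γ1 > 0, ∀ x ∈ X, ∀ y ∈ X, u x < u y → γ1 ≤ u y - u x := by
      set DD := (X ×ˢ X).filter (fun x => u x.1 < u x.2) with hDD
      rcases DD.eq_empty_or_nonempty with h | h
      · refine ⟨1, one_pos, ?_⟩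
        intro i hi l hl hlt
        have : (i, l) ∈ DD := Finset.mem_filter.2 ⟨Finset.mem_product.2 ⟨hi, hl⟩, hlt⟩
        rw [h] at this
        exact absurd this (Finset.notMem_empty _)
      · obtain ⟨x, hx, hmin'⟩ := Finset.exists_min_image DD (fun x => u x.2 - u x.1) h
        refine ⟨u x.2 - u x.1, sub_pos.2 (Finset.mem_filter.1 hx).2, ?_⟩
        intro i hi l hl hlt
        exact hmin' (i, l) (Finset.mem_filter.2 ⟨Finset.mem_product.2 ⟨hi, hl⟩, hlt⟩)
    refine ⟨min γ1 (min (u xm) (1 - u xM)), ?_, ?_, ?_, ?_⟩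
    · have := hu0 xm hxm
      have := hu1 xM hxM
      exact lt_min hγ1 (lt_min (by assumption) (by linarith))
    · intro x hx y hy h
      exact (min_le_left _ _).trans (h1 x hx y hy h)
    · intro x hx
      refine (min_le_right _ _).trans ((min_le_left _ _).trans ?_)
      exact div_le_div_of_nonneg_right (by linarith [hmin x hx]) hαβ.le
    · intro x hx
      refine (min_le_right _ _).trans ((min_le_right _ _).trans ?_)
      have : u x ≤ u xM := div_le_div_of_nonneg_right (by linarith [hmax x hx]) hαβ.le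
      linarith
  -- the counting of a subfamily with points at height `η`
  have hcount : ∀ (Y : Finset ℂ) (w : ℂ) (a b : ℂ → ℝ), Y ⊆ X →
      segment ℝ (A1 + w) (B1 + w) ⊆ S.region →
      (∀ x ∈ Y, |a x - u x| < γ / 3) → (∀ x ∈ Y, |b x - u x| < γ / 3) →
      (∀ x ∈ Y, pt A1 B1 (a x) + w ∈ V) → (∀ x ∈ Y, pt A1 B1 (b x) + w ∉ V) →
      Y.card ≤ 240 * n := by
    intro Y w a b hY hsegw ha hb hal hbd
    have hpt : ∀ t : ℝ, pt (A1 + w) (B1 + w) t = pt A1 B1 t + w := by
      intro t; unfold pt; simp only [Complex.real_smul]; ring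
    refine S.alt_countM (p := p) (A := A1 + w) (B := B1 + w) ?_ hsegw k Y a b ?_ ?_ ?_ ?_ ?_ ?_ ?_
    · intro h; exact hA1B1 (add_right_cancel h)
    · intro x hx
      have := abs_lt.1 (ha x hx); have := hg0 x (hY hx); linarith
    · intro x hx
      have := abs_lt.1 (ha x hx); have := hg1 x (hY hx); linarith
    · intro x hx
      have := abs_lt.1 (hb x hx); have := hg0 x (hY hx); linarith
    · intro x hx
      have := abs_lt.1 (hb x hx); have := hg1 x (hY hx); linarith
    · intro x hx; rw [hpt]; exact hal x hx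
    · intro x hx; rw [hpt]; exact hbd x hx
    · intro x hx y hy hxy
      have hne' : u x ≠ u y := fun h => hxy (hinj x (hY hx) y (hY hy) h)
      have h1 := abs_lt.1 (ha x hx)
      have h2 := abs_lt.1 (hb x hx)
      have h3 := abs_lt.1 (ha y hy)
      have h4 := abs_lt.1 (hb y hy)
      rcases lt_or_gt_of_ne hne' with h | h
      · have := hgap x (hY hx) y (hY hy) h
        left
        refine ⟨?_, ?_, ?_, ?_⟩ <;> linarith [h1.1, h1.2, h2.1, h2.2, h3.1, h3.2, h4.1, h4.2]
      · have := hgap y (hY hy) x (hY hx) h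
        right
        refine ⟨?_, ?_, ?_, ?_⟩ <;> linarith [h1.1, h1.2, h2.1, h2.2, h3.1, h3.2, h4.1, h4.2]
  -- conic radii
  have hconic : ∀ x ∈ X, ∃ r > 0, Metric.ball x r ⊆ interior S.region ∧
      ∀ y, dist y x < r → ∀ t : ℝ, 0 < t → t ≤ 1 → (y ∈ V ↔ pt x y t ∈ V) :=
    fun x hx => S.conic p k (hX x hx).2.1
  choose! r hr0 hrball hrc using hconic
  have hcases : ∀ x ∈ X, (∃ c : ℝ, c ≠ 0 ∧ |c| * ‖D‖ < r x ∧ x + c • D ∈ V) ∨
      ∃ s : Bool, ∃ y y', dist y x < r x ∧ dist y' x < r x ∧ 0 < sg s * cr D (y - x) ∧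
        0 < sg s * cr D (y' - x) ∧ y ∈ V ∧ y' ∉ V := by
    intro x hx
    refine S.corner_cases hD0 (hr0 x hx) (hrball x hx) (hX x hx).2.2.1 ?_
    rintro ⟨ρ, hρ, hf⟩
    apply (hX x hx).2.2.2
    refine ⟨ρ, hρ, ?_⟩
    intro y hy
    rw [hf y hy]
    constructor
    · rintro ⟨c, hc⟩
      exact ⟨c * (β - α), by rw [hc, hDd, smul_smul]⟩
    · rintro ⟨c, hc⟩
      exact ⟨c / (β - α), by rw [hc, hDd, smul_smul, div_mul_cancel₀ _ hαβ.ne']⟩
  set X0 := X.filter (fun x => ∃ c : ℝ, c ≠ 0 ∧ |c| * ‖D‖ < r x ∧ x + c • D ∈ V) with hX0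
  set XS : Bool → Finset ℂ := fun s => X.filter (fun x => ∃ y y', dist y x < r x ∧
    dist y' x < r x ∧ 0 < sg s * cr D (y - x) ∧ 0 < sg s * cr D (y' - x) ∧ y ∈ V ∧ y' ∉ V) with hXS
  have hDn : 0 < ‖D‖ := norm_pos_iff.2 hD0
  have hγ3 : 0 < γ / 3 := by positivity
  -- on the line
  have c0 : X0.card ≤ 240 * n := by
    have hex : ∀ x ∈ X0, ∃ a : ℝ, |a - u x| < γ / 3 ∧ pt A1 B1 a ∈ V := by
      intro x hx
      obtain ⟨hxX, c, hc0, hcr, hcV⟩ := Finset.mem_filter.1 hx
      obtain ⟨t, t0, t1, t2⟩ := exists_small ((c : ℝ) : ℂ) hγ3 1 one_pos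
      refine ⟨u x + t * c, ?_, ?_⟩
      · have e : u x + t * c - u x = t * c := by ring
        rw [e, abs_mul, abs_of_pos t0]
        rw [Complex.norm_real, Real.norm_eq_abs] at t2
        exact t2
      · have h1 := (hrc x hxX (x + c • D) (by
          rw [dist_eq_norm, add_sub_cancel_left, norm_smul, Real.norm_eq_abs]; exact hcr)
          t t0 t1.le).1 hcV
        have e : pt x (x + c • D) t = pt A1 B1 (u x + t * c) := by
          conv_lhs => rw [hux x hxX]
          unfold pt
          rw [hD]
          simp only [Complex.real_smul]; push_cast; ring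
        rw [e] at h1
        exact h1
    choose! a ha1 ha2 using hex
    refine hcount X0 0 a u (Finset.filter_subset _ _) ?_ ha1 ?_ ?_ ?_
    · rw [add_zero, add_zero]; exact hseg1.trans interior_subset
    · intro x _; rw [sub_self, abs_zero]; exact hγ3
    · intro x hx; rw [add_zero]; exact ha2 x hx
    · intro x hx
      rw [add_zero, ← hux x (Finset.filter_subset _ _ hx)]
      intro hxV
      have hx' := hX x (Finset.filter_subset _ _ hx)
      exact hx'.2.2.1.2 (mem_interior_iff_mem_nhds.2 (S.lev_int_open hx'.2.1 hxV))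
  -- beside the line
  have cs : ∀ s, (XS s).card ≤ 240 * n := by
    intro s
    set ν : ℂ := sg s • (I * D) with hν
    have hcrν : sg s * cr D ν = ‖D‖ ^ 2 := by
      rw [hν, cr_smul_right, cr_I_self, ← mul_assoc, sg_mul_self, one_mul]
    have hcrν0 : cr D ν ≠ 0 := by
      intro h; rw [h, mul_zero] at hcrν
      have : 0 < ‖D‖ ^ 2 := by positivity
      linarith
    -- small heights work
    have hsmall : ∀ x ∈ X, ∀ y, dist y x < r x → 0 < sg s * cr D (y - x) →
        ∀ᶠ η in 𝓝[>] (0 : ℝ), ∃ a : ℝ, |a - u x| < γ / 3 ∧ (y ∈ V ↔ pt A1 B1 a + η • ν ∈ V) := by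
      intro x hx y hy hys
      set ay := cr (y - x) ν / cr D ν with hay
      set by' := cr D (y - x) / cr D ν with hby
      have hdec : y - x = ay • D + by' • ν := decomp hcrν0 (y - x)
      have hbpos : 0 < by' := by
        have : by' = (sg s * cr D (y - x)) / (sg s * cr D ν) := by
          rw [hby, mul_div_mul_left _ _ (sg_ne s)]
        rw [this, hcrν]; positivity
      have h1 : ∀ᶠ η in 𝓝[>] (0 : ℝ), η < by' :=
        mem_nhdsWithin_of_mem_nhds (Iio_mem_nhds hbpos)
      have h2 : ∀ᶠ η in 𝓝[>] (0 : ℝ), |η * (ay / by')| < γ / 3 := by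
        have hc : ContinuousAt (fun η : ℝ => |η * (ay / by')|) 0 := by fun_prop
        have : ∀ᶠ η in 𝓝 (0 : ℝ), |η * (ay / by')| < γ / 3 := by
          apply hc.eventually_lt continuousAt_const
          simpa using hγ3
        exact mem_nhdsWithin_of_mem_nhds this
      filter_upwards [h1, h2, self_mem_nhdsWithin] with η g1 g2 g3
      have g3 : 0 < η := g3
      refine ⟨u x + η * (ay / by'), ?_, ?_⟩
      · have e : u x + η * (ay / by') - u x = η * (ay / by') := by ring
        rw [e]; exact g2
      · have h3 := hrc x hx y hy (η / by') (by positivity) (by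
          rw [div_le_one hbpos]; exact g1.le)
        have e : pt x y (η / by') = pt A1 B1 (u x + η * (ay / by')) + η • ν := by
          have e1 : pt x y (η / by') = x + (η / by') • (y - x) := rfl
          have e2 : (η / by') • (ay • D + by' • ν) = (η * (ay / by')) • D + η • ν := by
            rw [smul_add, smul_smul, smul_smul, div_mul_cancel₀ _ hbpos.ne']
            congr 2; ring
          rw [e1, hdec, e2]
          conv_lhs => rw [hux x hx]
          unfold pt
          rw [hD]
          simp only [Complex.real_smul]; push_cast; ring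
        rw [e] at h3
        exact h3
    have hall : ∀ᶠ η in 𝓝[>] (0 : ℝ), ∀ x ∈ XS s, ∃ a b : ℝ, |a - u x| < γ / 3 ∧
        |b - u x| < γ / 3 ∧ pt A1 B1 a + η • ν ∈ V ∧ pt A1 B1 b + η • ν ∉ V := by
      rw [Filter.eventually_all_finset]
      intro x hx
      obtain ⟨hxX, y, y', h1, h2, h3, h4, h5, h6⟩ := Finset.mem_filter.1 hx
      filter_upwards [hsmall x hxX y h1 h3, hsmall x hxX y' h2 h4] with η g1 g2
      obtain ⟨a, ga, ga'⟩ := g1
      obtain ⟨b, gb, gb'⟩ := g2
      exact ⟨a, b, ga, gb, ga'.1 h5, fun h => h6 (gb'.2 h)⟩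
    have hsegη : ∀ᶠ η in 𝓝[>] (0 : ℝ), segment ℝ (A1 + η • ν) (B1 + η • ν) ⊆ S.region := by
      obtain ⟨δ, hδ, hth⟩ := (isCompact_segment A1 B1).exists_thickening_subset_open
        isOpen_interior hseg1
      have hc : ContinuousAt (fun η : ℝ => ‖η • ν‖) 0 := by fun_prop
      have : ∀ᶠ η in 𝓝 (0 : ℝ), ‖η • ν‖ < δ := by
        apply hc.eventually_lt continuousAt_const
        simpa using hδ
      filter_upwards [mem_nhdsWithin_of_mem_nhds this] with η hη
      intro z hz
      rw [mem_segment_iff] at hz
      obtain ⟨t, t0, t1, rfl⟩ := hz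
      apply interior_subset
      apply hth
      rw [Metric.mem_thickening_iff]
      refine ⟨pt A1 B1 t, pt_mem_segment t0 t1, ?_⟩
      have e : pt (A1 + η • ν) (B1 + η • ν) t - pt A1 B1 t = η • ν := by
        unfold pt; simp only [Complex.real_smul]; ring
      rw [dist_eq_norm, e]
      exact hη
    obtain ⟨η, hη1, hη2⟩ := (hall.and hsegη).exists
    choose! a b ha hb haV hbV using hη1
    exact hcount (XS s) (η • ν) a b (Finset.filter_subset _ _) hη2 ha hb haV hbV
  have hcover : X ⊆ X0 ∪ (XS true ∪ XS false) := by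
    intro x hx
    rcases hcases x hx with h | ⟨s, h⟩
    · exact Finset.mem_union_left _ (Finset.mem_filter.2 ⟨hx, h⟩)
    · apply Finset.mem_union_right
      cases s
      · exact Finset.mem_union_right _ (Finset.mem_filter.2 ⟨hx, h⟩)
      · exact Finset.mem_union_left _ (Finset.mem_filter.2 ⟨hx, h⟩)
  have h1 := Finset.card_le_card hcover
  have h2 := Finset.card_union_le X0 (XS true ∪ XS false)
  have h3 := Finset.card_union_le (XS true) (XS false)
  have h4 := cs true
  have h5 := cs false
  have e1 : 720 * n = 240 * n + (240 * n + 240 * n) := by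
    ring
  omega


theorem SimplePolygon.stabbingM (p : ℂ) (k : ℕ) (a b : ℂ) (hab : segment ℝ a b ⊆ S.region)
    (m : ℕ) (t : ℕ → ℝ) (h0 : 0 ≤ t 0) (h1 : t m ≤ 1) (hmono : ∀ i < m, t i < t (i + 1))
    (halt : ∀ i < m, (pt a b (t i) ∈ S.lev p (k + 1) ↔ pt a b (t (i + 1)) ∉ S.lev p (k + 1))) :
    m ≤ 240 * n + 1 := by
  classical
  -- monotonicity
  have hmono' : ∀ i l, i ≤ l → l ≤ m → t i ≤ t l := by
    intro i l hil
    induction l, hil using Nat.le_induction with
    | base => intro _; exact le_rfl
    | succ l hl ih => intro hm; exact (ih (by omega)).trans (hmono l (by omega)).le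
  by_cases hab' : a = b
  · subst hab'
    rcases Nat.eq_zero_or_pos m with rfl | hm
    · omega
    · exfalso
      have := halt 0 hm
      have e : ∀ s, pt a a s = a := by intro s; simp [pt]
      rw [e, e] at this
      tauto
  -- the indices where lit points are followed by dark ones
  set I : Finset ℕ := (Finset.range m).filter (fun i => pt a b (t i) ∈ S.lev p (k + 1)) with hI
  have hcard : I.card ≤ 120 * n := by
    refine S.pairs_countM (p := p) hab' hab k I t (fun i => t (i + 1)) ?_ ?_ ?_ ?_ ?_ ?_
    · intro i hi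
      rw [hI, Finset.mem_filter, Finset.mem_range] at hi
      exact h0.trans (hmono' 0 i (Nat.zero_le _) hi.1.le)
    · intro i hi
      rw [hI, Finset.mem_filter, Finset.mem_range] at hi
      exact hmono i hi.1
    · intro i hi
      rw [hI, Finset.mem_filter, Finset.mem_range] at hi
      exact (hmono' (i + 1) m (by omega) le_rfl).trans h1
    · intro i hi
      rw [hI, Finset.mem_filter, Finset.mem_range] at hi
      exact hi.2
    · intro i hi
      rw [hI, Finset.mem_filter, Finset.mem_range] at hi
      exact (halt i hi.1).1 hi.2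
    · have key : ∀ i ∈ I, ∀ l ∈ I, i < l → t (i + 1) < t l := by
        intro i hi l hl hil
        rw [hI, Finset.mem_filter, Finset.mem_range] at hi hl
        rcases Nat.lt_or_ge (i + 1) l with h | h
        · have e1 := hmono (i + 1) (by omega)
          have e2 := hmono' (i + 1 + 1) l (by omega) hl.1.le
          linarith
        · exfalso
          have : l = i + 1 := by omega
          subst this
          exact (halt i hi.1).1 hi.2 hl.2
      intro i hi l hl hil
      rcases lt_or_gt_of_ne hil with h | h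
      · exact Or.inl (key i hi l hl h)
      · exact Or.inr (key l hl i hi h)
  -- the other indices
  have hJ : ((Finset.range m).filter (fun i => ¬ pt a b (t i) ∈ S.lev p (k + 1))).card ≤
      I.card + 1 := by
    have hsub : ((Finset.range m).filter (fun i => ¬ pt a b (t i) ∈ S.lev p (k + 1))) ⊆
        insert 0 (I.image (fun i => i + 1)) := by
      intro i hi
      rw [Finset.mem_filter, Finset.mem_range] at hi
      rw [Finset.mem_insert, Finset.mem_image]
      rcases i with _ | i
      · exact Or.inl rfl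
      · right
        refine ⟨i, ?_, rfl⟩
        rw [hI, Finset.mem_filter, Finset.mem_range]
        exact ⟨by omega, (halt i (by omega)).2 hi.2⟩
    have q1 := Finset.card_le_card hsub
    have q2 := Finset.card_insert_le 0 (I.image (fun i => i + 1))
    have q3 := Finset.card_image_le (s := I) (f := fun i : ℕ => i + 1)
    omega
  have hsum : ((Finset.range m).filter (fun i => pt a b (t i) ∈ S.lev p (k + 1))).card +
      ((Finset.range m).filter (fun i => ¬ pt a b (t i) ∈ S.lev p (k + 1))).card = m := by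
    rw [Finset.card_filter_add_card_filter_not, Finset.card_range]
  rw [← hI] at hsum
  have e1 : 240 * n = 120 * n + 120 * n := by ring
  omega



/-- the number of relevant windows through a vertex -/
theorem SimplePolygon.rel_countM {p : ℂ} {k : ℕ} (T : ZMod n) (F : Finset (Item n))
    (hF : ∀ i ∈ F, S.Rel p k i ∧ i.2.1 = T) : F.card ≤ 80 * n := by
  classical
  have hNe := S.neZero
  obtain ⟨f, -, hinj, hD⟩ := S.rel_datum (D := S.v T) F (fun i hi => (hF i hi).1)
    (fun i hi => by rw [← (hF i hi).2]; exact SimplePolygon.Rel.win S (hF i hi).1)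
    (fun _ => 1) (fun _ _ => one_pos)
  rw [← Finset.card_image_of_injOn hinj]
  refine (S.main_countM p (S.v T) k _ hD ?_).trans (S.NN_le p _ k)
  intro x hx
  obtain ⟨i, hi, rfl⟩ := Finset.mem_image.1 hx
  obtain ⟨hR, -⟩ := hF i hi
  have h0 := hR.t0
  have h1 := hR.t1
  obtain ⟨δ, hδ, hd⟩ := hR.dark
  obtain ⟨t', g1, g2, -⟩ := hR.lit (min δ (min (tt i) (1 - tt i)))
    (lt_min hδ (lt_min h0 (by linarith)))
  have g3 := abs_lt.1 (g1.trans_le ((min_le_right _ _).trans (min_le_left _ _)))
  have g4 := abs_lt.1 (g1.trans_le ((min_le_right _ _).trans (min_le_right _ _)))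
  have g5 := g1.trans_le (min_le_left _ _)
  have e1 : 2 * tt i - t' - tt i = -(t' - tt i) := by ring
  refine ⟨S.ep i.1 (2 * tt i - t'), S.ep_mem (by linarith [g3.2]) (by linarith [g4.1]),
    hd _ ?_ ?_⟩
  · rw [e1, abs_neg]; exact g5
  · rw [e1, neg_mul]; linarith

end Run7.h395
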