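import Pool.Agent.Run7.h395.Shots

/-!
# Every lit target point with a dark neighbour produces a shot or a special source
-/

open Set Topology Filter Complex

noncomputable section

namespace Run7.h395

variable {n : ℕ} (S : SimplePolygon n)

/-- a source whose shadow boundary runs along its own edge -/
structure Spec (e : ZMod n) (b : Bool) (tq ts : ℝ) (y z : ℂ) : Prop where
  tq0 : 0 < tq
  tq1 : tq < 1
  ts0 : 0 < ts
  ts1 : ts ≤ 1
  above : 0 < sg b * cr (z - y) (S.ep e tq - y)
  seg : segment ℝ (S.ep e tq) (pt y z ts) ⊆ S.region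
  onl : S.onLine e (pt y z ts)

theorem SimplePolygon.make_shot {p D : ℂ} {j : ℕ} {b : Bool} {y z T1 : ℂ}
    (tgt : Tgt S p D j b y z T1)
    (hcase : cr (z - y) (T1 - y) = 0 ∨ ∃ m c, T1 = S.v m ∧
      (∀ w ∈ segment ℝ y z, Win S.region D w (S.v m) (sg c)) ∧ S.BackDark p (j + 1) m (sg c))
    {e : ZMod n} {t0 : ℝ} (h0 : 0 < t0) (h1 : t0 < 1) (hlit : S.ep e t0 ∈ S.lev p j)
    (hvis : svis S.region (S.ep e t0) y) (habove : 0 < sg b * cr (z - y) (S.ep e t0 - y))
    (hk : 0 < sg b * cr (y - S.ep e t0) (T1 - S.ep e t0)) (hj : JoinedIn S.region y D) :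
    ∃ tq ts, (∃ T, Shot S p D j e T b tq ts y z T1) ∨ Spec S e b tq ts y z := by
  have hcl := S.reg.closed
  -- a generic source
  have hev : ∀ᶠ t in 𝓝 t0, (0 < t ∧ t < 1) ∧ S.ep e t ∈ S.lev p j ∧ svis S.region (S.ep e t) y ∧
      0 < sg b * cr (z - y) (S.ep e t - y) ∧
      0 < sg b * cr (y - S.ep e t) (T1 - S.ep e t) := by
    refine Filter.Eventually.and (isOpen_Ioo.mem_nhds ⟨h0, h1⟩) ?_
    refine Filter.Eventually.and (S.lev_edge_open h0 h1 hlit) ?_
    refine Filter.Eventually.and ?_ ?_
    · filter_upwards [S.svis_edge_open h0 h1 (svis_symm hvis)] with t ht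
      exact svis_symm ht
    · have hce := S.continuous_ep e
      refine Filter.Eventually.and ?_ ?_
      · have hc : Continuous fun t => sg b * cr (z - y) (S.ep e t - y) :=
          continuous_const.mul (continuous_cr continuous_const (hce.sub continuous_const))
        exact continuousAt_const.eventually_lt hc.continuousAt habove
      · have hc : Continuous fun t => sg b * cr (y - S.ep e t) (T1 - S.ep e t) :=
          continuous_const.mul (continuous_cr (continuous_const.sub hce)
            (continuous_const.sub hce))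
        exact continuousAt_const.eventually_lt hc.continuousAt hk
  obtain ⟨tq, ⟨⟨tq0, tq1⟩, hqlit, hqy, hqabove, hqk⟩, hgen⟩ := S.exists_generic e hev
  set P := S.region with hP
  set q := S.ep e tq with hq
  set s := sg b with hs
  have hs0 : s ≠ 0 := sg_ne b
  have hqm : q ∈ S.oedge e := S.ep_mem tq0 tq1
  have hqE : q ∈ S.openEdges := ⟨e, hqm⟩
  -- the blocker
  have hzm : z ∈ segment ℝ y z := right_mem_segment ℝ _ _
  have hnz : ¬ svis P q z := by
    intro h
    exact tgt.dark ⟨tgt.yz hzm, Or.inr ⟨q, hqlit, hqE, h⟩⟩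
  obtain ⟨ts, ts0, ts1, hseg, hbef, T, hT⟩ := S.blocker hqabove tgt.yz tgt.free hqy hnz
  refine ⟨tq, ts, ?_⟩
  set ys := pt y z ts with hys
  by_cases hspec : S.onLine e ys
  · right
    exact ⟨tq0, tq1, ts0, ts1, hqabove, hseg, hspec⟩
  left
  refine ⟨T, ?_⟩
  have hclear := S.clear hgen hseg hT hspec
  obtain ⟨r, r0, r1, hTe⟩ := mem_openSegment_iff.1 hT
  have hTq : S.v T - q = r • (ys - q) := by rw [hTe, pt_sub_left]
  have hcrys : s * cr (ys - q) (y - q) = -(ts * (s * cr (z - y) (q - y))) := by
    rw [hys]
    unfold cr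
    simp only [pt_re, pt_im, Complex.sub_re, Complex.sub_im]
    ring
  have hysq : ys - q ≠ 0 := by
    intro h
    rw [h, cr_zero_left, mul_zero] at hcrys
    have := mul_pos ts0 hqabove
    linarith
  have hqT : q ≠ S.v T := by
    intro h
    rw [← h, sub_self] at hTq
    rcases smul_eq_zero.1 hTq.symm with h' | h'
    · linarith
    · exact hysq h'
  have hysT : ys - S.v T = (1 - r) • (ys - q) := by
    rw [hTe]; unfold pt; simp only [Complex.real_smul]; push_cast; ring
  have hysne : ys ≠ S.v T := by
    intro h
    rw [← h, sub_self] at hysT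
    rcases smul_eq_zero.1 hysT.symm with h' | h'
    · linarith
    · exact hysq h'
  have hqTvis : svis P q (S.v T) := by
    intro x hx
    obtain ⟨u, u0, u1, hxe⟩ := mem_openSegment_iff.1 hx
    apply hclear
    · rw [mem_openSegment_iff]
      exact ⟨u * r, by positivity, by nlinarith, by rw [hxe, hTe, pt_pt]⟩
    · intro h
      have h2 : (1 - u) • (S.v T - q) = 0 := by
        have : (1 - u) • (S.v T - q) = S.v T - x := by
          rw [hxe]; unfold pt; simp only [Complex.real_smul]; push_cast; ring
        rw [this, h, sub_self]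
      rcases smul_eq_zero.1 h2 with h' | h'
      · linarith
      · exact hqT (sub_eq_zero.1 h').symm
  have hqTseg : segment ℝ q (S.v T) ⊆ P := seg_of_svis hcl hqTvis
  have hysm : ys ∈ segment ℝ y z := pt_mem_segment ts0.le ts1
  have hqy' : segment ℝ q y ⊆ P := seg_of_svis hcl hqy
  have hyys : segment ℝ y ys ⊆ P := by
    refine subset_trans ?_ tgt.yz
    exact (convex_segment _ _).segment_subset (left_mem_segment ℝ _ _) hysm
  have hfrT : ∀ g ∈ openSegment ℝ q ys, Fr P g (ys - q) (-s) := by
    intro g hg
    apply tri_fr S.reg (y := y) _ hqy' hyys hseg hg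
    have : -s * cr (ys - q) (y - q) = -(s * cr (ys - q) (y - q)) := by ring
    rw [this, hcrys, neg_neg]
    exact mul_pos ts0 hqabove
  have hextT : ExtAt P (S.v T) (S.v T - q) s := by
    have h2 := ext_side hs0 hysq hT hseg (frontier_not_int (S.v_frontier T)) (hfrT _ hT)
    rw [hTq]
    exact h2.smul r0
  have hTq0 : S.v T - q ≠ 0 := sub_ne_zero.2 hqT.symm
  -- half disk at T
  have hhalfT : HalfD P (S.v T) (S.v T - q) s := by
    have hr1 : 0 < (1 - r) / r := div_pos (by linarith) r0
    have hr' : (r : ℂ) ≠ 0 := by exact_mod_cast r0.ne'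
    have hbeyond : ∀ ρ : ℝ, 0 ≤ ρ → ρ ≤ (1 - r) / r → S.v T + ρ • (S.v T - q) ∈ P := by
      intro ρ k0 k1
      apply hseg
      rw [mem_segment_iff]
      refine ⟨r + ρ * r, by positivity, ?_, ?_⟩
      · rw [le_div_iff₀ r0] at k1; linarith
      · rw [hTe]; unfold pt; simp only [Complex.real_smul]; push_cast; ring
    have hbefore : ∀ ρ : ℝ, 0 ≤ ρ → ρ ≤ 1 → S.v T - ρ • (S.v T - q) ∈ P := by
      intro ρ k0 k1
      apply hqTseg
      rw [mem_segment_iff]
      refine ⟨1 - ρ, by linarith, by linarith, ?_⟩
      unfold pt; simp only [Complex.real_smul]; push_cast; ring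
    obtain ⟨rr, hrr, hconv, -⟩ := S.vertex_local T (w := q - S.v T) (svis_small (svis_symm hqTvis))
      ⟨(1 - r) / r, hr1, by
        intro ρ k0 k1
        have : S.v T - ρ • (q - S.v T) = S.v T + ρ • (S.v T - q) := by
          simp only [Complex.real_smul]; ring
        rw [this]
        exact hbeyond ρ k0.le k1.le⟩
    apply halfD_of hTq0 hrr hconv _ hextT
    refine ⟨min 1 ((1 - r) / r), lt_min one_pos hr1, ?_⟩
    intro ρ hρ
    have h3 := abs_lt.1 hρ
    rcases le_or_gt 0 ρ with h4 | h4
    · exact hbeyond ρ h4 (h3.2.le.trans (min_le_right _ _))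
    · have := hbefore (-ρ) (by linarith) (by
        have := min_le_left 1 ((1 - r) / r)
        linarith [h3.1])
      have e2 : S.v T - (-ρ) • (S.v T - q) = S.v T + ρ • (S.v T - q) := by
        simp only [Complex.real_smul]; push_cast; ring
      rwa [e2] at this
  -- ys is on the window
  have hysk : ys ∈ kap P q (S.v T) := by
    refine ⟨1 / r, ?_, ?_, hseg⟩
    · rw [le_div_iff₀ r0]; linarith
    · rw [hTe, pt_pt, one_div_mul_cancel r0.ne', pt_one]
  -- the side of T1
  have hside : 0 < s * cr (ys - q) (T1 - q) := by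
    by_contra hcon
    push Not at hcon
    set A := s * cr (y - q) (T1 - q) with hA
    set B := s * cr (ys - q) (T1 - q) with hB
    have hA0 : 0 < A := hqk
    have hAB : 0 < A - B := by linarith
    set σ := A / (A - B) with hσ
    have hσ0 : 0 < σ := div_pos hA0 hAB
    have hσ1 : σ ≤ 1 := by rw [hσ, div_le_one hAB]; linarith
    set w' := pt y z (σ * ts) with hw'
    have hw'e : w' = pt y ys σ := by rw [hw', hys, pt_pt]
    have hσts0 : 0 < σ * ts := by positivity
    have hσts1 : σ * ts ≤ ts := by nlinarith
    have hw'm : w' ∈ segment ℝ y z := pt_mem_segment hσts0.le (hσts1.trans ts1)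
    have hHtw : ∀ x : ℂ, s * cr (z - y) (x - w') = s * cr (z - y) (x - y) := by
      intro x
      rw [hw']
      unfold cr
      simp only [pt_re, pt_im, Complex.sub_re, Complex.sub_im]
      ring
    have hqw0 : q - w' ≠ 0 := by
      intro h
      have := hHtw q
      rw [h, cr_zero_right, mul_zero] at this
      linarith
    have hcr0 : cr (q - w') (T1 - w') = 0 := by
      have e1 : s * cr (q - w') (T1 - w') = -((1 - σ) * A + σ * B) := by
        rw [hw'e, hA, hB]
        unfold cr
        simp only [pt_re, pt_im, Complex.sub_re, Complex.sub_im]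
        ring
      have e2 : (1 - σ) * A + σ * B = 0 := by
        rw [hσ]; field_simp; ring
      rw [e2, neg_zero] at e1
      exact (mul_eq_zero.1 e1).resolve_left hs0
    obtain ⟨ν, hν⟩ := parallel_of_cr hqw0 hcr0
    have hht : s * cr (z - y) (T1 - y) = ν * (s * cr (z - y) (q - y)) := by
      rw [← hHtw T1, hν, cr_smul_right, ← hHtw q]; ring
    have hν0 : ν ≠ 0 := by
      rintro rfl
      rw [zero_smul, sub_eq_zero] at hν
      exact (tgt.see w' hw'm).2 hν.symm
    have hνp : 0 < ν := by
      have h3 := tgt.height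
      rw [← hs, hht] at h3
      have h4 : 0 ≤ ν := nonneg_of_mul_nonneg_left h3 hqabove
      exact lt_of_le_of_ne h4 hν0.symm
    rcases hcase with hc0 | ⟨m, cc, hTm, hwin, hback⟩
    · rw [hc0, mul_zero] at hht
      have := mul_pos hνp hqabove
      linarith
    · rw [hTm] at hν
      set M := S.v m with hM
      rcases lt_trichotomy ν 1 with h3 | h3 | h3
      · -- M between w' and q
        have hMo : M ∈ openSegment ℝ q w' := by
          rw [openSegment_symm, mem_openSegment_iff]
          refine ⟨ν, hνp, h3, ?_⟩
          have : M = w' + (M - w') := by ring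
          rw [this, hν]; rfl
        rcases hσts1.lt_or_eq with h4 | h4
        · have := hbef _ hσts0.le h4
          exact frontier_not_int (S.v_frontier m) (this hMo)
        · have hw's : w' = ys := by rw [hw', h4]
          rw [hw's] at hMo hν
          have hMT : M = S.v T := by
            by_contra hne
            exact frontier_not_int (S.v_frontier m) (hclear M hMo hne)
          have hwinys := hwin ys hysm
          have hMys : M - ys = ν • (q - ys) := hν
          -- the side of the exterior at M
          have hfrM := hfrT M hMo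
          have hcc : sg cc = -s := by
            by_contra hne
            have hccs : sg cc = s := by
              rcases sg_pm cc with h | h <;> rcases sg_pm b with h' | h' <;>
                rw [← hs] at h' <;> rw [h, h'] at hne ⊢ <;> norm_num at hne
            obtain ⟨rr, hrr, hb⟩ := hfrM
            have hx := hwinys.ext
            unfold ExtAt at hx
            rw [mem_closure_iff_nhds] at hx
            obtain ⟨x, hx1, hx2, hx3⟩ := hx _ (Metric.ball_mem_nhds M hrr)
            have hx3 : 0 < sg cc * cr (M - ys) (x - M) := hx3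
            apply hx2
            apply interior_subset
            apply hb x hx1
            rw [hccs, hMys, cr_smul_left] at hx3
            have e3 : s * (ν * cr (q - ys) (x - M)) = ν * (-s * cr (ys - q) (x - M)) := by
              have : cr (q - ys) (x - M) = - cr (ys - q) (x - M) := by
                unfold cr; simp only [Complex.sub_re, Complex.sub_im]; ring
              rw [this]; ring
            rw [e3] at hx3
            exact (mul_pos_iff_of_pos_left hνp).1 hx3
          -- q sees the far edge at M
          have hMq : svis P M q := by rw [hMT]; exact svis_symm hqTvis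
          have h1ν : 0 < 1 - ν := by linarith
          have hqM : q - M = ((1 - ν) / ν) • (M - ys) := by
            have hν' : (ν : ℂ) ≠ 0 := by exact_mod_cast hνp.ne'
            rw [hMys, smul_smul, div_mul_cancel₀ _ hνp.ne']
            have : q - M = (q - ys) - (M - ys) := by ring
            rw [this, hMys, sub_smul, one_smul]
          have hrat : 0 < (1 - ν) / ν := div_pos h1ν hνp
          have hextM : ExtAt P M (q - M) (sg cc) := by
            rw [hqM]; exact hwinys.ext.smul hrat
          have hhalfM : HalfD P M (q - M) (sg cc) := by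
            rw [hqM]; exact hwinys.half.smul hrat
          obtain ⟨rr, hrr, -, hHDex⟩ := S.vertex_local m (w := q - M) (svis_small hMq)
            ⟨ν / (1 - ν), div_pos hνp h1ν, by
              intro ρ k0 k1
              apply hseg
              rw [segment_symm, mem_segment_iff]
              rw [lt_div_iff₀ h1ν] at k1
              refine ⟨ν - ρ * (1 - ν), by linarith, ?_, ?_⟩
              · have : 0 < ρ * (1 - ν) := by positivity
                linarith
              · have e4 : S.v m = ys + (M - ys) := by ring
                have e5 : q - M = (1 - ν) • (q - ys) := by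
                  have : q - M = (q - ys) - (M - ys) := by ring
                  rw [this, hMys, sub_smul, one_smul]
                rw [e5, e4, hMys]
                unfold pt; simp only [Complex.real_smul]; push_cast; ring⟩
          obtain ⟨k, hkn, hHD⟩ := hHDex (sg cc) (sg_pm cc)
          have hfs := far_side (sg_ne cc) (S.nbr_frontier hkn) (S.nbr_ne hkn) (svis_small hMq)
            hhalfM hextM ⟨rr, hrr, hHD⟩
          obtain ⟨ρb, hρb, hdarkb⟩ := hback k hkn ⟨rr, hrr, hHD⟩
          obtain ⟨ρs, hρs, hsee⟩ := S.see_edge (svis_symm hMq) ⟨rr, hrr, hHD⟩ (s := sg cc)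
            (F := S.v k) (by rw [cr_swap]; linarith)
          set x0 := min (ρb / 2) (ρs / 2) with hx0
          have hx00 : 0 < x0 := by positivity
          have hx01 : x0 < ρb := lt_of_le_of_lt (min_le_left _ _) (by linarith)
          have hx02 : x0 < ρs := lt_of_le_of_lt (min_le_right _ _) (by linarith)
          have hv := hsee x0 hx00.le hx02
          apply hdarkb x0 hx00 hx01
          refine ⟨?_, Or.inr ⟨q, hqlit, hqE, hv⟩⟩
          exact seg_of_svis hcl hv (right_mem_segment ℝ _ _)
      · rw [h3, one_smul, sub_left_inj] at hν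
        have hMm : M ∈ S.oedge e := by rw [hν]; exact hqm
        exact S.v_not_oedge m e hMm
      · -- q between w' and M
        have hqo : q ∈ openSegment ℝ w' M := by
          rw [mem_openSegment_iff]
          refine ⟨1 / ν, by positivity, by rw [div_lt_one hνp]; exact h3, ?_⟩
          have e3 : q - w' = (1 / ν) • (M - w') := by
            rw [hν, smul_smul, one_div_mul_cancel hνp.ne', one_smul]
          have : q = w' + (q - w') := by ring
          rw [this, e3]; rfl
        have hc2 := S.oedge_cross hqm hqo (by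
          have := (tgt.see w' hw'm).1
          rw [hTm] at this
          exact this)
        have hc3 : cr (S.dir e) (q - w') = 0 := by
          rw [hν, cr_smul_right] at hc2
          exact (mul_eq_zero.1 hc2).resolve_left hνp.ne'
        rcases hσts1.lt_or_eq with h4 | h4
        · have h5 := S.svis_side hqm (svis_symm (hbef _ hσts0.le h4))
          have e6 : cr (S.dir e) (w' - q) = - cr (S.dir e) (q - w') := by
            unfold cr; simp only [Complex.sub_re, Complex.sub_im]; ring
          have h5' : 0 < S.side e * cr (S.dir e) (w' - q) := h5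
          rw [e6, hc3] at h5'
          simp at h5'
        · have hw's : w' = ys := by rw [hw', h4]
          apply hspec
          unfold SimplePolygon.onLine
          have hql := S.onLine_ep e tq
          unfold SimplePolygon.onLine at hql
          have : ys - S.v e = (S.ep e tq - S.v e) - (q - w') := by rw [hw's, hq]; ring
          rw [this, cr_sub_right, hql, hc3, sub_zero]
  have hside' : 0 < s * cr (S.v T - q) (T1 - q) := by
    rw [hTq, cr_smul_left]
    have : s * (r * cr (ys - q) (T1 - q)) = r * (s * cr (ys - q) (T1 - q)) := by ring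
    rw [this]; positivity
  have hsep : ¬ Cn (P \ kap P q (S.v T)) q D := by
    rcases tgt.sep with hTD | ⟨m, cc, hTm, hwin, -⟩
    · rw [hTD] at hside'
      refine g2_base S.reg hqT hysk hysne hextT hside' ?_
      rw [segment_symm, ← hTD]
      exact (tgt.see ys hysm).1
    · refine g2 S.reg (T := T1) hqT hysk hysne hextT hside' (tgt.see ys hysm).1 ?_
      rw [hTm]
      exact (hwin ys hysm).sep
  exact ⟨tgt, tq0, tq1, hqlit, hgen, ts0, ts1, hqabove, hseg, hbef, hT, hspec, hside',
    ⟨hqTvis, hqT, hqTseg, hextT, hhalfT, ⟨ys, hysk, hysne⟩, hsep,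
      (JoinedIn.of_segment hqy').trans hj⟩⟩

lemma Shot.not_onLine {p D : ℂ} {j : ℕ} {e T : ZMod n} {b : Bool} {t1 ts : ℝ} {y z T1 : ℂ}
    (sh : Shot S p D j e T b t1 ts y z T1) : ¬ S.onLine e (S.v T) := by
  intro h
  obtain ⟨r, r0, r1, hTe⟩ := mem_openSegment_iff.1 sh.block
  apply sh.nonspec
  unfold SimplePolygon.onLine at *
  have hq : cr (S.dir e) (S.ep e t1 - S.v e) = 0 := S.onLine_ep e t1
  have e1 : cr (S.dir e) (S.v T - S.v e) = (1 - r) * cr (S.dir e) (S.ep e t1 - S.v e) +
      r * cr (S.dir e) (pt y z ts - S.v e) := by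
    rw [hTe]
    unfold cr
    simp only [pt_re, pt_im, Complex.sub_re, Complex.sub_im]
    ring
  rw [h, hq, mul_zero, zero_add] at e1
  exact (mul_eq_zero.1 e1.symm).resolve_left r0.ne'

/-- a shot gives a good label -/
lemma Shot.good {p D : ℂ} {j : ℕ} {e T : ZMod n} {b : Bool} {t1 ts : ℝ} {y z T1 : ℂ}
    (sh : Shot S p D j e T b t1 ts y z T1) : S.GoodLabel D (e, T, b) := by
  refine ⟨sh.not_onLine, ?_⟩
  have hlc : sg b * cr (S.v T - S.v e) (S.dir e) ≠ 0 := by
    apply mul_ne_zero (sg_ne b)
    intro h
    apply sh.not_onLine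
    unfold SimplePolygon.onLine
    rw [cr_swap, h, neg_zero]
  have hev := S.svis_edge_open sh.tq0 sh.tq1 (svis_symm sh.win.vis)
  have hI : ∀ᶠ t in 𝓝 t1, 0 < t ∧ t < 1 := isOpen_Ioo.mem_nhds ⟨sh.tq0, sh.tq1⟩
  rcases lt_or_gt_of_ne hlc with hneg | hpos
  · obtain ⟨t, ⟨⟨ht0, ht1⟩, hv⟩, hlt⟩ := (((hI.and hev).filter_mono nhdsWithin_le_nhds).and
      (self_mem_nhdsWithin : Iio t1 ∈ 𝓝[<] t1)).exists
    have hlt : t < t1 := hlt
    have hw : Win S.region D (S.ep e t) (S.v T) (sg b) := by
      apply S.win_slide sh.tq0.le sh.tq1.le ht0.le ht1.le sh.win _ (svis_symm hv)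
      nlinarith
    exact ⟨t, t1, ht0, hlt, sh.tq1, hw, sh.win⟩
  · obtain ⟨t, ⟨⟨ht0, ht1⟩, hv⟩, hlt⟩ := (((hI.and hev).filter_mono nhdsWithin_le_nhds).and
      (self_mem_nhdsWithin : Ioi t1 ∈ 𝓝[>] t1)).exists
    have hlt : t1 < t := hlt
    have hw : Win S.region D (S.ep e t) (S.v T) (sg b) := by
      apply S.win_slide sh.tq0.le sh.tq1.le ht0.le ht1.le sh.win _ (svis_symm hv)
      nlinarith
    exact ⟨t1, t, sh.tq0, hlt, ht1, sh.win, hw⟩

end Run7.h395
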