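import Pool.Agent.Run7.h395.Diffuse

/-!
# Local facts about lit points near inner points
-/

open Set Topology Filter Complex

noncomputable section

namespace Run7.h395

variable {n : ℕ} (S : SimplePolygon n)

/-- strict visibility of an inner point is an open condition -/
lemma SimplePolygon.svis_int_open {q x : ℂ} (hx : x ∈ interior S.region)
    (h : svis S.region q x) : ∀ᶠ y in 𝓝 x, svis S.region q y := by
  obtain ⟨r, hr, hball⟩ := Metric.isOpen_iff.1 isOpen_interior x hx
  by_cases hqx : x = q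
  · subst hqx
    filter_upwards [Metric.ball_mem_nhds x hr] with y hy
    intro z hz
    exact hball ((convex_ball x r).openSegment_subset (Metric.mem_ball_self hr) hy hz)
  · obtain ⟨δ, hδ, hst⟩ := S.stab (A := x) (B := q) (H := univ) hqx (fun _ _ _ _ => mem_univ _)
      (by
        intro w hw
        have hw' : w ∈ interior S.region := by
          apply h; rw [openSegment_symm]; exact hw
        obtain ⟨ρ, hρ, hb⟩ := Metric.isOpen_iff.1 isOpen_interior w hw'
        exact ⟨ρ, hρ, fun y hy _ => hb hy⟩) hr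
    filter_upwards [Metric.ball_mem_nhds x hδ] with y hy
    intro z hz
    rw [openSegment_symm] at hz
    rcases le_or_gt r (dist z x) with h1 | h1
    · exact hst y hy (mem_univ _) z hz h1
    · exact hball h1

/-- lit sets are open inside -/
lemma SimplePolygon.lev_int_open {p x : ℂ} {j : ℕ} (hx : x ∈ interior S.region)
    (h : x ∈ S.lev p j) : ∀ᶠ y in 𝓝 x, y ∈ S.lev p j := by
  cases j with
  | zero => exact absurd h (Set.notMem_empty _)
  | succ j =>
    have hI : ∀ᶠ y in 𝓝 x, y ∈ interior S.region := isOpen_interior.mem_nhds hx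
    obtain ⟨-, h2 | ⟨r, hr1, hr2, hr3⟩⟩ := h
    · filter_upwards [hI, S.svis_int_open hx h2] with y hy hv
      exact ⟨interior_subset hy, Or.inl hv⟩
    · filter_upwards [hI, S.svis_int_open hx hr3] with y hy hv
      exact ⟨interior_subset hy, Or.inr ⟨r, hr1, hr2, hv⟩⟩

/-- limits of inner segments are inner segments -/
lemma seg_of_limit {P : Set ℂ} (hP : IsClosed P) {a x : ℂ}
    (h : ∀ δ > 0, ∃ q y, dist q a < δ ∧ dist y x < δ ∧ segment ℝ q y ⊆ P) :
    segment ℝ a x ⊆ P := by
  intro z hz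
  rw [mem_segment_iff] at hz
  obtain ⟨s, h0, h1, rfl⟩ := hz
  rw [← hP.closure_eq, Metric.mem_closure_iff]
  intro δ hδ
  obtain ⟨q, y, hq, hy, hs⟩ := h δ hδ
  refine ⟨pt q y s, hs (pt_mem_segment h0 h1), ?_⟩
  have e : pt a x s - pt q y s = (1 - s) • (a - q) + s • (x - y) := by
    unfold pt; simp only [Complex.real_smul]; push_cast; ring
  rw [dist_eq_norm, e]
  refine (norm_add_le _ _).trans_lt ?_
  rw [norm_smul, norm_smul, Real.norm_eq_abs, Real.norm_eq_abs, abs_of_nonneg h0,
    abs_of_nonneg (by linarith : (0 : ℝ) ≤ 1 - s)]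
  rw [dist_comm, dist_eq_norm] at hq hy
  rcases h0.eq_or_lt with e0 | e0
  · rw [← e0]; simpa using hq
  · have h3 : s * ‖x - y‖ < s * δ := mul_lt_mul_of_pos_left hy e0
    have h4 : (1 - s) * ‖a - q‖ ≤ (1 - s) * δ :=
      mul_le_mul_of_nonneg_left hq.le (by linarith)
    nlinarith

/-- an inner segment from anywhere to an inner point, without vertices inside, is free -/
lemma SimplePolygon.svis_of_no_vertex {A x : ℂ} (hseg : segment ℝ A x ⊆ S.region)
    (hx : x ∈ interior S.region) (hnv : ∀ i, S.v i ∉ openSegment ℝ A x) :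
    svis S.region A x := by
  by_cases hAx : A = x
  · subst hAx
    intro z hz
    rw [openSegment_same, mem_singleton_iff] at hz
    rw [hz]; exact hx
  intro z hz
  rw [mem_openSegment_iff] at hz
  obtain ⟨τ, τ0, τ1, rfl⟩ := hz
  have hnv' : ∀ i, ∀ t, 0 < t → t < 1 → pt A x t ≠ S.v i := by
    intro i t h0 h1 h
    exact hnv i (h ▸ pt_mem_openSegment h0 h1)
  by_contra hni
  have hall : ∀ v, τ ≤ v → v < 1 → ∃ i, pt A x τ ∈ S.oedge i ∧ pt A x v ∈ S.oedge i := by
    intro v hτv hv
    rcases S.seg_free hAx hseg τ0 hτv hv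
      (fun i t h1 h2 => hnv' i t (by linarith) (by linarith)) with h | ⟨i, h, -⟩
    · exact absurd (h τ le_rfl hτv) hni
    · exact ⟨i, h τ le_rfl hτv, h v hτv le_rfl⟩
  obtain ⟨i, hi, -⟩ := hall τ le_rfl τ1
  have hall' : ∀ v, τ ≤ v → v < 1 → pt A x v ∈ S.edge i := by
    intro v hτv hv
    obtain ⟨j, hj1, hj2⟩ := hall v hτv hv
    have : j = i := S.oedge_unique hi (S.oedge_sub j hj1)
    rw [this] at hj2
    exact S.oedge_sub i hj2
  have hcl : IsClosed (S.edge i) := (isCompact_segment _ _).isClosed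
  have hxe : x ∈ S.edge i := by
    have hlim : Tendsto (fun v => pt A x v) (𝓝[<] 1) (𝓝 x) := by
      have := (continuous_pt A x).continuousAt (x := (1 : ℝ))
      have h2 : Tendsto (fun v => pt A x v) (𝓝 1) (𝓝 (pt A x 1)) := this
      rw [pt_one] at h2
      exact h2.mono_left nhdsWithin_le_nhds
    apply hcl.mem_of_tendsto hlim
    have : Ico τ 1 ∈ 𝓝[<] (1 : ℝ) := Ico_mem_nhdsLT τ1
    filter_upwards [this] with v hv
    exact hall' v hv.1 hv.2
  exact frontier_not_int (S.edge_sub_frontier i hxe) hx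

/-- an inner segment from an edge point to a vertex, without vertices inside, is free -/
lemma SimplePolygon.svis_of_no_vertex' {e m : ZMod n} {a : ℂ} (ha : a ∈ S.oedge e)
    (hseg : segment ℝ a (S.v m) ⊆ S.region) (hline : ¬ S.onLine e (S.v m))
    (hnv : ∀ i, S.v i ∉ openSegment ℝ a (S.v m)) : svis S.region a (S.v m) := by
  have hAx : a ≠ S.v m := by
    rintro rfl; exact S.v_not_oedge m e ha
  intro z hz
  rw [mem_openSegment_iff] at hz
  obtain ⟨τ, τ0, τ1, rfl⟩ := hz
  have hnv' : ∀ i, ∀ t, 0 < t → t < 1 → pt a (S.v m) t ≠ S.v i := by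
    intro i t h0 h1 h
    exact hnv i (h ▸ pt_mem_openSegment h0 h1)
  by_contra hni
  have hall : ∀ u, 0 < u → u ≤ τ → ∃ i, pt a (S.v m) τ ∈ S.oedge i ∧
      pt a (S.v m) u ∈ S.oedge i ∧ ∃ c : ℝ, S.v m - a = c • S.dir i := by
    intro u hu hτu
    rcases S.seg_free hAx hseg hu hτu τ1
      (fun i t h1 h2 => hnv' i t (by linarith) (by linarith)) with h | ⟨i, h, c, -, hc⟩
    · exact absurd (h τ hτu le_rfl) hni
    · exact ⟨i, h τ hτu le_rfl, h u le_rfl hτu, c, hc⟩
  obtain ⟨i, hi, -, c, hc⟩ := hall τ τ0 le_rfl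
  have hall' : ∀ u, 0 < u → u ≤ τ → pt a (S.v m) u ∈ S.edge i := by
    intro u hu hτu
    obtain ⟨j, hj1, hj2, -⟩ := hall u hu hτu
    have : j = i := S.oedge_unique hi (S.oedge_sub j hj1)
    rw [this] at hj2
    exact S.oedge_sub i hj2
  have hcl : IsClosed (S.edge i) := (isCompact_segment _ _).isClosed
  have hxe : a ∈ S.edge i := by
    have hlim : Tendsto (fun v => pt a (S.v m) v) (𝓝[>] 0) (𝓝 a) := by
      have := (continuous_pt a (S.v m)).continuousAt (x := (0 : ℝ))
      have h2 : Tendsto (fun v => pt a (S.v m) v) (𝓝 0) (𝓝 (pt a (S.v m) 0)) := this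
      rw [pt_zero] at h2
      exact h2.mono_left nhdsWithin_le_nhds
    apply hcl.mem_of_tendsto hlim
    have : Ioc 0 τ ∈ 𝓝[>] (0 : ℝ) := Ioc_mem_nhdsGT τ0
    filter_upwards [this] with v hv
    exact hall' v hv.1 hv.2
  have hie : i = e := S.oedge_unique ha hxe
  subst hie
  apply hline
  unfold SimplePolygon.onLine
  rw [S.mem_oedge_iff] at ha
  obtain ⟨t, -, -, rfl⟩ := ha
  have h1 : S.v m - S.v i = (S.v m - S.ep i t) + (S.ep i t - S.v i) := by ring
  rw [h1, hc, S.ep_sub_v, cr_add_right, cr_smul_right, cr_smul_right, cr_self]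
  ring

/-- if there is a vertex on an inner segment ending at an inner point, then the last one sees the
end point -/
lemma SimplePolygon.last_vertex {A x : ℂ} (hseg : segment ℝ A x ⊆ S.region)
    (hx : x ∈ interior S.region) (hv : ∃ i, S.v i ∈ openSegment ℝ A x) :
    ∃ m τ, 0 < τ ∧ τ < 1 ∧ S.v m = pt A x τ ∧ svis S.region (S.v m) x := by
  have := S.neZero
  classical
  set F : Finset (ZMod n) := Finset.univ.filter (fun i => S.v i ∈ openSegment ℝ A x) with hF
  have hAx : A ≠ x := by
    rintro rfl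
    obtain ⟨i, hi⟩ := hv
    rw [openSegment_same, mem_singleton_iff] at hi
    rw [← hi] at hx
    exact frontier_not_int (S.v_frontier i) hx
  have hne : F.Nonempty := by
    obtain ⟨i, hi⟩ := hv
    exact ⟨i, Finset.mem_filter.2 ⟨Finset.mem_univ _, hi⟩⟩
  obtain ⟨m, hm, hmin⟩ := Finset.exists_min_image F (fun i => dist (S.v i) x) hne
  have hm' := (Finset.mem_filter.1 hm).2
  rw [mem_openSegment_iff] at hm'
  obtain ⟨τ, τ0, τ1, hτ⟩ := hm'
  refine ⟨m, τ, τ0, τ1, hτ, ?_⟩
  apply S.svis_of_no_vertex ?_ hx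
  · intro i hi
    rw [mem_openSegment_iff] at hi
    obtain ⟨s, s0, s1, hs⟩ := hi
    have hmem : S.v i ∈ openSegment ℝ A x := by
      rw [mem_openSegment_iff]
      refine ⟨τ + s * (1 - τ), ?_, ?_, ?_⟩
      · have : 0 < s * (1 - τ) := mul_pos s0 (by linarith)
        linarith
      · nlinarith
      · rw [hs, hτ]
        have := pt_pt_pt A x τ 1 s
        rw [pt_one] at this
        exact this
    have h1 := hmin i (Finset.mem_filter.2 ⟨Finset.mem_univ _, hmem⟩)
    have h2 : dist (S.v i) x = (1 - s) * dist (S.v m) x := by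
      rw [hs, dist_comm, dist_eq_norm, dist_eq_norm]
      have : x - pt (S.v m) x s = -((1 - s) • (S.v m - x)) := by
        unfold pt; simp only [Complex.real_smul]; push_cast; ring
      rw [this, norm_neg, norm_smul, Real.norm_eq_abs, abs_of_pos (by linarith)]
    rw [h2] at h1
    have h3 : 0 < dist (S.v m) x := by
      rw [dist_pos]
      rintro h
      rw [← h] at hx
      exact frontier_not_int (S.v_frontier m) hx
    nlinarith
  · refine subset_trans ?_ hseg
    refine (convex_segment _ _).segment_subset ?_ (right_mem_segment ℝ _ _)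
    rw [hτ]
    exact pt_mem_segment τ0.le τ1.le

end Run7.h395
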