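import Pool.Agent.Run7.h395.Make

/-!
# Pairs of shots: disjoint shadow intervals give separated sources
-/

open Set Topology Filter Complex

noncomputable section

namespace Run7.h395

variable {n : ℕ} (S : SimplePolygon n)

/-- two labels sharing two window points on the same edge are equal -/
lemma SimplePolygon.label_eq {D : ℂ} {e T1 T2 : ZMod n} {b1 b2 : Bool} {t t' : ℝ} (hne : t ≠ t')
    (hg : ¬ S.onLine e (S.v T1))
    (h1 : Win S.region D (S.ep e t) (S.v T1) (sg b1))
    (h1' : Win S.region D (S.ep e t') (S.v T1) (sg b1))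
    (h2 : Win S.region D (S.ep e t) (S.v T2) (sg b2))
    (h2' : Win S.region D (S.ep e t') (S.v T2) (sg b2)) : T1 = T2 ∧ b1 = b2 := by
  have p1 := h1.parallel S.reg h2
  have p2 := h1'.parallel S.reg h2'
  have hT : S.v T1 - S.ep e t = S.v T2 - S.ep e t := by
    apply eq_of_two_parallel (d := S.dir e) (lam := t' - t) (S.not_onLine_cr hg t)
      (sub_ne_zero.2 (Ne.symm hne)) p1
    have e3 : ∀ T : ℂ, T - S.ep e t - (t' - t) • S.dir e = T - S.ep e t' := by
      intro T
      rw [← S.ep_sub e t t']; ring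
    rw [e3, e3]
    exact p2
  have hT' : T1 = T2 := S.v_inj (sub_left_inj.1 hT)
  subst hT'
  exact ⟨rfl, h1.same_side h2⟩

/-- the far end of a window: two transversal open edge points of a window coincide -/
lemma SimplePolygon.far_unique {q T w w' : ℂ} {i i' : ZMod n} (hw : w ∈ S.oedge i)
    (hw' : w' ∈ S.oedge i') (hk : w ∈ kap S.region q T) (hk' : w' ∈ kap S.region q T)
    (ht : cr (S.dir i) (T - q) ≠ 0) (ht' : cr (S.dir i') (T - q) ≠ 0) : w = w' := by
  obtain ⟨a, a1, rfl, hseg⟩ := hk
  obtain ⟨a', a1', rfl, hseg'⟩ := hk'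
  rcases lt_trichotomy a a' with h | h | h
  · exfalso
    have hm : pt q T a ∈ openSegment ℝ q (pt q T a') := by
      rw [mem_openSegment_iff]
      refine ⟨a / a', by positivity, by rw [div_lt_one (by linarith)]; exact h, ?_⟩
      rw [pt_pt, div_mul_cancel₀ _ (by linarith)]
    have h2 := S.oedge_cross hw hm hseg'
    rw [pt_sub_left, cr_smul_right] at h2
    rcases mul_eq_zero.1 h2 with h3 | h3
    · linarith
    · exact ht h3
  · rw [h]
  · exfalso
    have hm : pt q T a' ∈ openSegment ℝ q (pt q T a) := by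
      rw [mem_openSegment_iff]
      refine ⟨a' / a, by positivity, by rw [div_lt_one (by linarith)]; exact h, ?_⟩
      rw [pt_pt, div_mul_cancel₀ _ (by linarith)]
    have h2 := S.oedge_cross hw' hm hseg
    rw [pt_sub_left, cr_smul_right] at h2
    rcases mul_eq_zero.1 h2 with h3 | h3
    · linarith
    · exact ht' h3

/-- parametrised shots with targets on an edge `i`: `y = ep i t`, `z = ep i τ` -/
lemma SimplePolygon.pt_ep (i : ZMod n) (t τ r : ℝ) :
    pt (S.ep i t) (S.ep i τ) r = S.ep i (t + r * (τ - t)) := by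
  unfold SimplePolygon.ep pt
  simp only [Complex.real_smul]; push_cast; ring

lemma Shot.ys_kap {p D : ℂ} {j : ℕ} {e T : ZMod n} {b : Bool} {t1 ts : ℝ} {y z T1 : ℂ}
    (sh : Shot S p D j e T b t1 ts y z T1) :
    pt y z ts ∈ kap S.region (S.ep e t1) (S.v T) := by
  obtain ⟨r, r0, r1, hTe⟩ := mem_openSegment_iff.1 sh.block
  refine ⟨1 / r, ?_, ?_, sh.seg⟩
  · rw [le_div_iff₀ r0]; linarith
  · rw [hTe, pt_pt, one_div_mul_cancel r0.ne', pt_one]

/-- the source and the blocking vertex are transversal to the target direction -/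
lemma Shot.transversal {p D : ℂ} {j : ℕ} {e T : ZMod n} {b : Bool} {t1 ts : ℝ} {y z T1 : ℂ}
    (sh : Shot S p D j e T b t1 ts y z T1) : cr (z - y) (S.v T - S.ep e t1) ≠ 0 := by
  obtain ⟨r, r0, r1, hTe⟩ := mem_openSegment_iff.1 sh.block
  intro h
  have e1 : cr (z - y) (S.v T - S.ep e t1) = -(r * cr (z - y) (S.ep e t1 - y)) := by
    rw [hTe]
    unfold cr
    simp only [pt_re, pt_im, Complex.sub_re, Complex.sub_im]
    ring
  rw [e1, neg_eq_zero] at h
  have h2 := (mul_eq_zero.1 h).resolve_left r0.ne'
  have := sh.above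
  rw [h2] at this
  simp at this

/-- the blocking vertex is strictly above the target line -/
lemma Shot.above_T {p D : ℂ} {j : ℕ} {e T : ZMod n} {b : Bool} {t1 ts : ℝ} {y z T1 : ℂ}
    (sh : Shot S p D j e T b t1 ts y z T1) : 0 < sg b * cr (z - y) (S.v T - y) := by
  obtain ⟨r, r0, r1, hTe⟩ := mem_openSegment_iff.1 sh.block
  have e1 : sg b * cr (z - y) (S.v T - y) = (1 - r) * (sg b * cr (z - y) (S.ep e t1 - y)) := by
    rw [hTe]
    unfold cr
    simp only [pt_re, pt_im, Complex.sub_re, Complex.sub_im]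
    ring
  rw [e1]
  exact mul_pos (by linarith) sh.above

/-- the condition `hB` for targets on edges -/
lemma SimplePolygon.hB_edge {p D : ℂ} {j : ℕ} {e T : ZMod n} {b : Bool} {t1 ts t2 ts' : ℝ}
    {i i' : ZMod n} {t τ t' τ' : ℝ} {T1 T1' : ℂ}
    (ht : 0 < t ∧ t < 1) (hτ : 0 < τ ∧ τ < 1) (ht' : 0 < t' ∧ t' < 1) (hτ' : 0 < τ' ∧ τ' < 1)
    (sh : Shot S p D j e T b t1 ts (S.ep i t) (S.ep i τ) T1)
    (sh' : Shot S p D j e T b t2 ts' (S.ep i' t') (S.ep i' τ') T1')
    (hdisj : i = i' → ∀ r : ℝ, ts ≤ r → r ≤ 1 → t + r * (τ - t) ≠ t' + ts' * (τ' - t')) :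
    ∀ w ∈ segment ℝ (pt (S.ep i t) (S.ep i τ) ts) (S.ep i τ),
      w ∉ kap S.region (S.ep e t2) (S.v T) := by
  intro w hw hwk
  -- parameter of w
  obtain ⟨r, r0, r1, hwe⟩ : ∃ r, ts ≤ r ∧ r ≤ 1 ∧ w = S.ep i (t + r * (τ - t)) := by
    rw [mem_segment_iff] at hw
    obtain ⟨a, a0, a1, hwa⟩ := hw
    refine ⟨ts + a * (1 - ts), by nlinarith [sh.ts1], by nlinarith [sh.ts1], ?_⟩
    rw [hwa, S.pt_ep]
    have : pt (S.ep i (t + ts * (τ - t))) (S.ep i τ) a =
        S.ep i (t + ts * (τ - t) + a * (τ - (t + ts * (τ - t)))) := S.pt_ep _ _ _ _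
    rw [this]
    congr 1
    ring
  have hr0 : 0 < r := lt_of_lt_of_le sh.ts0 r0
  have hmem : ∀ (i : ZMod n) (t τ r : ℝ), 0 < t ∧ t < 1 → 0 < τ ∧ τ < 1 → 0 ≤ r → r ≤ 1 →
      S.ep i (t + r * (τ - t)) ∈ S.oedge i := by
    intro i t τ r ht hτ h0 h1
    apply S.ep_mem
    · have : t + r * (τ - t) = (1 - r) * t + r * τ := by ring
      rw [this]
      rcases h1.eq_or_lt with h | h
      · rw [h]; linarith [hτ.1]
      · have := mul_pos (show (0 : ℝ) < 1 - r by linarith) ht.1
        have := mul_nonneg h0 hτ.1.le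
        linarith
    · have : 1 - (t + r * (τ - t)) = (1 - r) * (1 - t) + r * (1 - τ) := by ring
      have h2 : 0 < (1 - r) * (1 - t) + r * (1 - τ) := by
        rcases h1.eq_or_lt with h | h
        · rw [h]; linarith [hτ.2]
        · have := mul_pos (show (0 : ℝ) < 1 - r by linarith) (show (0 : ℝ) < 1 - t by linarith [ht.2])
          have := mul_nonneg h0 (show (0 : ℝ) ≤ 1 - τ by linarith [hτ.2])
          linarith
      linarith
  have hwm : w ∈ S.oedge i := by
    rw [hwe]; exact hmem i t τ r ht hτ hr0.le r1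
  have hysm : S.ep i' (t' + ts' * (τ' - t')) ∈ S.oedge i' :=
    hmem i' t' τ' ts' ht' hτ' sh'.ts0.le sh'.ts1
  have hysk := Shot.ys_kap S sh'
  rw [S.pt_ep] at hysk
  have htr' : cr (S.dir i') (S.v T - S.ep e t2) ≠ 0 := by
    intro h
    apply Shot.transversal S sh'
    rw [S.ep_sub, cr_smul_left, h, mul_zero]
  have htr : cr (S.dir i) (S.v T - S.ep e t2) ≠ 0 := by
    intro h
    obtain ⟨a, a1, hwa, -⟩ := hwk
    have hab := Shot.above_T S sh
    rw [S.ep_sub, cr_smul_left] at hab
    have h3 : cr (S.dir i) (S.v T - S.ep i t) = 0 := by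
      have e1 : S.v T - S.ep i t = (w - S.ep i t) - (a - 1) • (S.v T - S.ep e t2) := by
        rw [hwa]; unfold pt; simp only [Complex.real_smul]; push_cast; ring
      rw [e1, cr_sub_right, cr_smul_right, h, hwe, S.ep_sub, cr_smul_right, cr_self]; ring
    rw [h3] at hab
    simp at hab
  have heq := S.far_unique hwm hysm hwk hysk htr htr'
  have hii : i = i' := S.oedge_unique hysm (by rw [← heq]; exact S.oedge_sub i hwm)
  subst hii
  rw [hwe] at heq
  exact hdisj rfl r r0 r1 (S.ep_inj heq)

/-- two shots with the same label have different sources, separated by darkness -/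
theorem SimplePolygon.two_shots {p D : ℂ} {j : ℕ} {e T : ZMod n} {b : Bool} {t1 ts t2 ts' : ℝ}
    {y z y' z' T1 T1' : ℂ}
    (sh : Shot S p D j e T b t1 ts y z T1)
    (sh' : Shot S p D j e T b t2 ts' y' z' T1')
    (hB : ∀ w ∈ segment ℝ (pt y z ts) z, w ∉ kap S.region (S.ep e t2) (S.v T))
    (hB' : ∀ w ∈ segment ℝ (pt y' z' ts') z', w ∉ kap S.region (S.ep e t1) (S.v T)) :
    t1 ≠ t2 ∧ (∃ θ : ℝ, 0 < θ ∧ θ < 1 ∧ S.ep e (t1 + θ * (t2 - t1)) ∉ S.lev p j) ∧
      S.BackDark p j T (sg b) := by
  have hne : t1 ≠ t2 := by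
    rintro rfl
    exact hB _ (left_mem_segment ℝ _ _) (Shot.ys_kap S sh)
  refine ⟨hne, ?_⟩
  have hlc : sg b * cr (S.v T - S.v e) (S.dir e) ≠ 0 := by
    apply mul_ne_zero (sg_ne b)
    intro h
    apply Shot.not_onLine S sh
    unfold SimplePolygon.onLine
    rw [cr_swap, h, neg_zero]
  have hord : ∀ t t' : ℝ, sg b * cr (S.v T - S.ep e t') (S.ep e t - S.ep e t') =
      (t - t') * (sg b * cr (S.v T - S.v e) (S.dir e)) := by
    intro t t'
    rw [S.ep_sub, cr_smul_right, S.cr_ep e (S.v T) 0 t']
    ring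
  have hne' : (t1 - t2) * (sg b * cr (S.v T - S.v e) (S.dir e)) ≠ 0 :=
    mul_ne_zero (sub_ne_zero.2 hne) hlc
  rcases lt_or_gt_of_ne hne' with hneg | hpos
  · obtain ⟨⟨θ, h0, h1, hd⟩, hbd⟩ := Shot.two S sh' sh.tq0 sh.tq1 sh.win
      (by rw [hord]; linarith) hB'
    refine ⟨⟨1 - θ, by linarith, by linarith, ?_⟩, hbd⟩
    have : t1 + (1 - θ) * (t2 - t1) = t2 + θ * (t1 - t2) := by ring
    rw [this]; exact hd
  · exact Shot.two S sh sh'.tq0 sh'.tq1 sh'.win (by rw [hord]; exact hpos) hB

/-- special sources: shadow ends coincide when edge and direction agree -/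
lemma SimplePolygon.spec_unique {e i i' : ZMod n} {b b' : Bool} {tq ts tq' ts' : ℝ}
    {y z y' z' : ℂ} (sp : Spec S e b tq ts y z) (sp' : Spec S e b' tq' ts' y' z')
    (hw : pt y z ts ∈ S.oedge i) (hw' : pt y' z' ts' ∈ S.oedge i')
    (hd : ∃ c : ℝ, z - y = c • S.dir i) (hd' : ∃ c : ℝ, z' - y' = c • S.dir i')
    {lam lam' : ℝ} (hl : pt y z ts - S.ep e tq = lam • S.dir e)
    (hl' : pt y' z' ts' - S.ep e tq' = lam' • S.dir e) (hlam : 0 < lam * lam') :
    pt y z ts = pt y' z' ts' := by
  have main : ∀ {i i' : ZMod n} {b b' : Bool} {tq ts tq' ts' : ℝ}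
      {y z y' z' : ℂ} (_ : Spec S e b tq ts y z) (_ : Spec S e b' tq' ts' y' z')
      (_ : pt y z ts ∈ S.oedge i) (_ : pt y' z' ts' ∈ S.oedge i')
      (_ : ∃ c : ℝ, z - y = c • S.dir i) (_ : ∃ c : ℝ, z' - y' = c • S.dir i')
      {lam lam' : ℝ} (_ : pt y z ts - S.ep e tq = lam • S.dir e)
      (_ : pt y' z' ts' - S.ep e tq' = lam' • S.dir e) (_ : 0 < lam * lam')
      (_ : 0 < lam * ((tq' + lam') - (tq + lam))), False := by
    intro i i' b b' tq ts tq' ts' y z y' z' sp sp' hw hw' hd hd' lam lam' hl hl' hlam hfar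
    -- ys is strictly between q and ys'
    have hlam0 : lam ≠ 0 := by rintro rfl; simp at hlam
    set q := S.ep e tq with hq
    set ys := pt y z ts with hys
    set ys' := pt y' z' ts' with hys'
    have hys'q : ys' - q = (tq' + lam' - tq) • S.dir e := by
      have : ys' - q = (ys' - S.ep e tq') + (S.ep e tq' - S.ep e tq) := by rw [hq]; ring
      rw [this, hl', S.ep_sub, ← add_smul]; congr 1; ring
    set Λ := tq' + lam' - tq with hΛ
    have hΛ1 : 0 < lam * (Λ - lam) := by rw [hΛ]; convert hfar using 2; ring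
    have hΛ0 : Λ ≠ 0 := by
      intro h0; rw [h0] at hΛ1; nlinarith [mul_self_nonneg lam]
    have hratio0 : 0 < lam / Λ := by
      have : 0 < lam * Λ := by nlinarith [mul_self_nonneg lam]
      rcases lt_or_gt_of_ne hlam0 with h | h
      · have : Λ < 0 := by nlinarith
        exact div_pos_of_neg_of_neg h this
      · have : 0 < Λ := by nlinarith
        exact div_pos h this
    have hratio1 : lam / Λ < 1 := by
      rcases lt_or_gt_of_ne hlam0 with h | h
      · have h2 : Λ < lam := by nlinarith
        have h3 : Λ < 0 := by linarith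
        rw [div_lt_one_of_neg h3]; exact h2
      · have h2 : lam < Λ := by nlinarith
        rw [div_lt_one (by linarith)]; exact h2
    have hmem : ys ∈ openSegment ℝ q ys' := by
      rw [mem_openSegment_iff]
      refine ⟨lam / Λ, hratio0, hratio1, ?_⟩
      have : ys = q + (ys - q) := by ring
      rw [this, hl]
      unfold pt
      rw [hys'q, smul_smul, div_mul_cancel₀ _ hΛ0]
    have hsegq : segment ℝ q ys' ⊆ S.region := by
      -- contained in the union of edge part and the segment from q'
      intro x hx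
      rw [mem_segment_iff] at hx
      obtain ⟨a, a0, a1, rfl⟩ := hx
      have hxe : pt q ys' a = S.ep e (tq + a * Λ) := by
        unfold pt
        rw [hys'q, hq]
        unfold SimplePolygon.ep pt SimplePolygon.dir
        simp only [Complex.real_smul]; push_cast; ring
      by_cases hin : 0 ≤ (tq + a * Λ) ∧ (tq + a * Λ) ≤ 1
      · rw [hxe]
        exact S.edge_sub e (pt_mem_segment hin.1 hin.2)
      · apply sp'.seg
        rw [mem_segment_iff]
        have hlam'0 : lam' ≠ 0 := by rintro rfl; simp at hlam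
        refine ⟨(tq + a * Λ - tq') / lam', ?_, ?_, ?_⟩
        · rcases lt_or_gt_of_ne hlam'0 with h | h
          · have h5 : lam < 0 := by nlinarith
            have h6 : Λ < 0 := by
              rcases lt_or_gt_of_ne hΛ0 with h' | h'
              · exact h'
              · nlinarith
            apply div_nonneg_of_nonpos _ h.le
            have : a * Λ ≤ 0 := mul_nonpos_of_nonneg_of_nonpos a0 h6.le
            by_contra hcon
            push Not at hcon
            apply hin
            constructor
            · linarith [sp'.tq0]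
            · linarith [sp.tq1]
          · have h5 : 0 < lam := by nlinarith
            have h6 : 0 < Λ := by
              rcases lt_or_gt_of_ne hΛ0 with h' | h'
              · nlinarith
              · exact h'
            apply div_nonneg _ h.le
            have : 0 ≤ a * Λ := mul_nonneg a0 h6.le
            by_contra hcon
            push Not at hcon
            apply hin
            constructor
            · linarith [sp.tq0]
            · linarith [sp'.tq1]
        · have e7 : tq + a * Λ - tq' = lam' - (1 - a) * Λ := by rw [hΛ]; ring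
          rw [e7]
          rcases lt_or_gt_of_ne hlam'0 with h | h
          · have h5 : lam < 0 := by nlinarith
            have h6 : Λ < 0 := by
              rcases lt_or_gt_of_ne hΛ0 with h' | h'
              · exact h'
              · nlinarith
            rw [div_le_one_of_neg h]
            have : (1 - a) * Λ ≤ 0 := mul_nonpos_of_nonneg_of_nonpos (by linarith) h6.le
            linarith
          · have h5 : 0 < lam := by nlinarith
            have h6 : 0 < Λ := by
              rcases lt_or_gt_of_ne hΛ0 with h' | h'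
              · nlinarith
              · exact h'
            rw [div_le_one h]
            have : 0 ≤ (1 - a) * Λ := mul_nonneg (by linarith) h6.le
            linarith
        · rw [hxe]
          have e10 : ∀ c : ℝ, pt (S.ep e tq') ys' c = S.ep e tq' + c • (ys' - S.ep e tq') :=
            fun _ => rfl
          rw [e10, hl', smul_smul, div_mul_cancel₀ _ hlam'0]
          unfold SimplePolygon.ep pt SimplePolygon.dir
          simp only [Complex.real_smul]; push_cast; ring
    have hc := S.oedge_cross hw hmem hsegq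
    rw [hys'q, cr_smul_right] at hc
    have hc2 := (mul_eq_zero.1 hc).resolve_left hΛ0
    obtain ⟨c, hcd⟩ := hd
    have hab := sp.above
    have e8 : cr (z - y) (S.ep e tq - y) = 0 := by
      have e9 : S.ep e tq - y = ts • (z - y) - lam • S.dir e := by
        rw [← hl, hys]; unfold pt; ring
      rw [e9, cr_sub_right, cr_smul_right, cr_self, hcd, cr_smul_right, cr_smul_left, hc2]; ring
    rw [e8] at hab
    simp at hab
  have hlam0 : lam ≠ 0 := by rintro rfl; simp at hlam
  have hlam'0 : lam' ≠ 0 := by rintro rfl; simp at hlam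
  by_contra hne
  have hne2 : tq' + lam' ≠ tq + lam := by
    intro h
    apply hne
    have e1 : pt y z ts = S.ep e (tq + lam) := by
      have : pt y z ts = S.ep e tq + (pt y z ts - S.ep e tq) := by ring
      rw [this, hl]
      unfold SimplePolygon.ep pt SimplePolygon.dir
      simp only [Complex.real_smul]; push_cast; ring
    have e2 : pt y' z' ts' = S.ep e (tq' + lam') := by
      have : pt y' z' ts' = S.ep e tq' + (pt y' z' ts' - S.ep e tq') := by ring
      rw [this, hl']
      unfold SimplePolygon.ep pt SimplePolygon.dir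
      simp only [Complex.real_smul]; push_cast; ring
    rw [e1, e2, h]
  have hprod : lam * ((tq' + lam') - (tq + lam)) ≠ 0 :=
    mul_ne_zero hlam0 (sub_ne_zero.2 hne2)
  rcases lt_or_gt_of_ne hprod with h | h
  · apply main sp' sp hw' hw hd' hd hl' hl (by rw [mul_comm]; exact hlam)
    -- sign transfer
    rcases lt_or_gt_of_ne hlam0 with h1 | h1
    · have h2 : lam' < 0 := by nlinarith
      have h3 : 0 < (tq' + lam') - (tq + lam) := by nlinarith
      nlinarith
    · have h2 : 0 < lam' := by nlinarith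
      have h3 : (tq' + lam') - (tq + lam) < 0 := by nlinarith
      nlinarith
  · exact main sp sp' hw hw' hd hd' hl hl' hlam h

end Run7.h395
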