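import Pool.Agent.Run7.h395.VSee

/-!
# Boundary points of the lit region inside the polygon lie on window rays
-/

open Set Topology Filter Complex

noncomputable section

namespace Run7.h395

variable {n : ℕ} (S : SimplePolygon n)

/-- looking past a vertex on its free side -/
lemma SimplePolygon.past_vis {e m : ZMod n} {t r s : ℝ} {x : ℂ} (h0 : 0 < t) (h1 : t < 1)
    (r0 : 0 < r) (_r1 : r < 1) (hT : S.v m = pt (S.ep e t) x r)
    (hvis1 : svis S.region (S.ep e t) (S.v m)) (hvis2 : svis S.region (S.v m) x)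
    (hhalf : HalfD S.region (S.v m) (S.v m - S.ep e t) s)
    (hside : 0 < S.side e * cr (S.dir e) (x - S.ep e t)) :
    ∃ δ > 0, ∀ t', |t' - t| < δ → s * cr (S.v m - S.ep e t) (S.ep e t' - S.ep e t) < 0 →
      svis S.region (S.ep e t') x := by
  set a := S.ep e t with ha
  set T := S.v m with hTdef
  have hax : a ≠ x := by
    intro h; rw [h, sub_self, cr_zero_right] at hside; simp at hside
  obtain ⟨ρ, hρ, hball⟩ := S.side_fr (S.ep_mem h0 h1 (i := e))
  rw [← ha] at hball
  have hTa : T - a = r • (x - a) := by rw [hT, pt_sub_left]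
  obtain ⟨δ, hδ, hst⟩ := S.stab (A := a) (B := x) (H := {z | s * cr (T - a) (z - a) < 0}) hax
    (by
      intro A' hA' z hz
      have hA' : s * cr (T - a) (A' - a) < 0 := hA'
      rw [mem_openSegment_iff] at hz
      obtain ⟨τ, τ0, τ1, rfl⟩ := hz
      change s * cr (T - a) (pt A' x τ - a) < 0
      have e1 : cr (T - a) (pt A' x τ - a) = (1 - τ) * cr (T - a) (A' - a) := by
        rw [hTa]
        unfold cr
        simp only [pt_re, pt_im, Complex.sub_re, Complex.sub_im, Complex.real_smul,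
          Complex.mul_re, Complex.mul_im, Complex.ofReal_re, Complex.ofReal_im]
        ring
      rw [e1]
      have : s * ((1 - τ) * cr (T - a) (A' - a)) = (1 - τ) * (s * cr (T - a) (A' - a)) := by ring
      rw [this]
      exact mul_neg_of_pos_of_neg (by linarith) hA')
    (by
      intro w hw
      rw [mem_openSegment_iff] at hw
      obtain ⟨τ, τ0, τ1, rfl⟩ := hw
      rcases lt_trichotomy τ r with h | h | h
      · have hw' : pt a x τ ∈ interior S.region := by
          apply hvis1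
          rw [mem_openSegment_iff]
          refine ⟨τ / r, by positivity, by rw [div_lt_one r0]; exact h, ?_⟩
          rw [hT, pt_pt, div_mul_cancel₀ _ r0.ne']
        obtain ⟨ρ', hρ', hb⟩ := Metric.isOpen_iff.1 isOpen_interior _ hw'
        exact ⟨ρ', hρ', fun y hy _ => hb hy⟩
      · obtain ⟨ρ', hρ', hb⟩ := hhalf.fr
        refine ⟨ρ', hρ', ?_⟩
        intro y hy hyH
        rw [h, ← hT] at hy
        apply hb y hy
        have hyH : s * cr (T - a) (y - a) < 0 := hyH
        have e1 : cr (T - a) (y - T) = cr (T - a) (y - a) := by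
          unfold cr; simp only [Complex.sub_re, Complex.sub_im]; ring
        rw [e1]; linarith
      · have hw' : pt a x τ ∈ interior S.region := by
          apply hvis2
          rw [mem_openSegment_iff]
          refine ⟨(τ - r) / (1 - r), div_pos (by linarith) (by linarith),
            by rw [div_lt_one (by linarith)]; linarith, ?_⟩
          rw [hT]
          have := pt_pt_pt a x r 1 ((τ - r) / (1 - r))
          rw [pt_one] at this
          rw [this, div_mul_cancel₀ _ (by linarith : (1 - r) ≠ 0)]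
          congr 1; ring
        obtain ⟨ρ', hρ', hb⟩ := Metric.isOpen_iff.1 isOpen_interior _ hw'
        exact ⟨ρ', hρ', fun y hy _ => hb hy⟩) hρ
  have hn : 0 < ‖S.dir e‖ := norm_pos_iff.2 (S.dir_ne e)
  refine ⟨δ / ‖S.dir e‖, by positivity, ?_⟩
  intro t' ht' hs z hz
  have hd : dist (S.ep e t') a < δ := by
    rw [dist_eq_norm, ha, S.ep_sub, norm_smul, Real.norm_eq_abs]
    rwa [lt_div_iff₀ hn] at ht'
  rcases le_or_gt ρ (dist z a) with h2 | h2
  · exact hst _ hd hs z hz h2
  · apply hball z h2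
    rw [mem_openSegment_iff] at hz
    obtain ⟨τ, τ0, τ1, rfl⟩ := hz
    have e1 : cr (S.dir e) (pt (S.ep e t') x τ - a) =
        τ * cr (S.dir e) (x - a) + (1 - τ) * cr (S.dir e) (S.ep e t' - a) := by
      unfold cr
      simp only [pt_re, pt_im, Complex.sub_re, Complex.sub_im]
      ring
    rw [e1, ha, S.ep_sub, cr_smul_right, cr_self, mul_zero, mul_zero, add_zero]
    have := mul_pos τ0 hside
    rw [ha] at this
    linarith

/-- a dark point strictly visible behind a vertex makes the back edge dark -/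
lemma SimplePolygon.backDark_of {p : ℂ} {k : ℕ} {m : ZMod n} {s : ℝ} {x : ℂ} (hs : s ≠ 0)
    (hvis : svis S.region (S.v m) x) (hxR : x ∈ S.region) (hd : x ∉ S.lev p (k + 1))
    (hext : ExtAt S.region (S.v m) (x - S.v m) s) (hhalf : HalfD S.region (S.v m) (x - S.v m) s) :
    S.BackDark p k m s := by
  intro j hj hHD
  have hfs := far_side hs (S.nbr_frontier hj) (S.nbr_ne hj) (svis_small hvis) hhalf hext hHD
  obtain ⟨ρ, hρ, hsee⟩ := S.see_edge (svis_symm hvis) hHD (s := s) (F := S.v j)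
    (by rw [cr_swap]; linarith)
  refine ⟨min ρ 1, lt_min hρ one_pos, ?_⟩
  intro μ h0 h1 hlit
  apply hd
  refine ⟨hxR, Or.inr ⟨pt (S.v m) (S.v j) μ, hlit, ?_, ?_⟩⟩
  · exact S.nbr_open hj h0 (h1.trans_le (min_le_right _ _))
  · exact svis_symm (hsee μ h0.le (h1.trans_le (min_le_left _ _)))

/-- an inner line through a vertex has the exterior on one side -/
lemma SimplePolygon.ext_exists {m : ZMod n} {w : ℂ} (hw : w ≠ 0)
    (hw1 : ∃ ρ0 > 0, ∀ ρ : ℝ, 0 < ρ → ρ < ρ0 → S.v m + ρ • w ∈ interior S.region)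
    (hw2 : ∃ ρ0 > 0, ∀ ρ : ℝ, 0 < ρ → ρ < ρ0 → S.v m - ρ • w ∈ S.region) :
    ∃ b : Bool, ExtAt S.region (S.v m) w (sg b) ∧ HalfD S.region (S.v m) w (sg b) := by
  obtain ⟨r, hr, hconv, -⟩ := S.vertex_local m hw1 hw2
  have hTR : S.v m ∈ S.region := S.edge_sub m (left_mem_segment ℝ _ _)
  obtain ⟨ρ1, hρ1, h1⟩ := hw1
  obtain ⟨ρ2, hρ2, h2⟩ := hw2
  have hline : ∃ ρ0 > 0, ∀ ρ : ℝ, |ρ| < ρ0 → S.v m + ρ • w ∈ S.region := by
    refine ⟨min ρ1 ρ2, lt_min hρ1 hρ2, ?_⟩
    intro ρ hρ
    have h3 := abs_lt.1 hρ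
    rcases lt_trichotomy ρ 0 with h | h | h
    · have := h2 (-ρ) (by linarith) (by
        have := min_le_right ρ1 ρ2
        linarith [h3.1])
      have e : S.v m - (-ρ) • w = S.v m + ρ • w := by
        simp only [Complex.real_smul]; push_cast; ring
      rwa [e] at this
    · rw [h, zero_smul, add_zero]; exact hTR
    · exact interior_subset (h1 ρ h (h3.2.trans_le (min_le_left _ _)))
  have hex : ∃ b : Bool, ExtAt S.region (S.v m) w (sg b) := by
    by_contra hcon
    push Not at hcon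
    have g1 := hcon true
    have g2 := hcon false
    unfold ExtAt at g1 g2
    rw [mem_closure_iff_nhds] at g1 g2
    push Not at g1 g2
    obtain ⟨N1, hN1, hN1'⟩ := g1
    obtain ⟨N2, hN2, hN2'⟩ := g2
    obtain ⟨ρ0, hρ0, hl⟩ := hline
    apply frontier_not_int (S.v_frontier m)
    rw [mem_interior_iff_mem_nhds]
    have hwn : 0 < ‖w‖ := norm_pos_iff.2 hw
    filter_upwards [hN1, hN2, Metric.ball_mem_nhds (S.v m) (show 0 < ρ0 * ‖w‖ by positivity)]
      with z hz1 hz2 hz3
    by_contra hzR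
    rcases lt_trichotomy (cr w (z - S.v m)) 0 with h | h | h
    · have : z ∈ N2 ∩ (S.regionᶜ ∩ {x | 0 < sg false * cr w (x - S.v m)}) := by
        refine ⟨hz2, hzR, ?_⟩
        change 0 < sg false * cr w (z - S.v m)
        rw [sg_false]; linarith
      rw [hN2'] at this
      exact this
    · obtain ⟨c, hc⟩ := parallel_of_cr hw h
      apply hzR
      have e : z = S.v m + c • w := by rw [← hc]; ring
      rw [e]
      apply hl
      rw [Metric.mem_ball, dist_eq_norm, hc, norm_smul, Real.norm_eq_abs] at hz3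
      exact lt_of_mul_lt_mul_right hz3 hwn.le
    · have : z ∈ N1 ∩ (S.regionᶜ ∩ {x | 0 < sg true * cr w (x - S.v m)}) := by
        refine ⟨hz1, hzR, ?_⟩
        change 0 < sg true * cr w (z - S.v m)
        rw [sg_true]; linarith
      rw [hN1'] at this
      exact this
  obtain ⟨b, hb⟩ := hex
  exact ⟨b, hb, halfD_of hw hr hconv hline hb⟩

/-- limits of lit points: frequently lit by the source, or by edge points tending to a limit -/
lemma SimplePolygon.limit_source {p x : ℂ} {k : ℕ} (hx : x ∈ closure (S.lev p (k + 1))) :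
    (∃ᶠ y in 𝓝 x, svis S.region p y) ∨
    ∃ (e : ZMod n) (t : ℝ), 0 ≤ t ∧ t ≤ 1 ∧ ∀ δ > 0, ∃ y t', dist y x < δ ∧ |t' - t| < δ ∧
      0 < t' ∧ t' < 1 ∧ S.ep e t' ∈ S.lev p k ∧ svis S.region (S.ep e t') y := by
  have := S.neZero
  by_contra hcon
  push Not at hcon
  obtain ⟨h1, h2⟩ := hcon
  have hall : ∀ e : ZMod n, ∀ᶠ y in 𝓝 x, ∀ t' ∈ Icc (0 : ℝ) 1, 0 < t' → t' < 1 →
      S.ep e t' ∈ S.lev p k → ¬ svis S.region (S.ep e t') y := by
    intro e
    refine isCompact_Icc.induction_on
      (p := fun s : Set ℝ => ∀ᶠ y in 𝓝 x, ∀ t' ∈ s, 0 < t' → t' < 1 →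
        S.ep e t' ∈ S.lev p k → ¬ svis S.region (S.ep e t') y) ?_ ?_ ?_ ?_
    · exact Filter.Eventually.of_forall fun y t' ht' => absurd ht' (Set.notMem_empty _)
    · intro s s' hss h
      filter_upwards [h] with y hy t' ht'
      exact hy t' (hss ht')
    · intro s s' h h'
      filter_upwards [h, h'] with y hy hy' t' ht'
      rcases ht' with ht' | ht'
      · exact hy t' ht'
      · exact hy' t' ht'
    · intro t ht
      obtain ⟨δ, hδ, hno⟩ := h2 e t ht.1 ht.2
      refine ⟨Metric.ball t δ, mem_nhdsWithin_of_mem_nhds (Metric.ball_mem_nhds t hδ), ?_⟩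
      filter_upwards [Metric.ball_mem_nhds x hδ] with y hy t' ht' g0 g1 g2
      exact hno y t' hy (by rwa [Metric.mem_ball, Real.dist_eq] at ht') g0 g1 g2
  have hall' := Filter.eventually_all.2 hall
  rw [mem_closure_iff_frequently] at hx
  obtain ⟨y, hy, hy1, hy2⟩ := (hx.and_eventually (h1.and hall')).exists
  obtain ⟨hyR, h3 | ⟨r, hr1, ⟨e, hr2⟩, hr3⟩⟩ := hy
  · exact hy1 h3
  · rw [S.mem_oedge_iff] at hr2
    obtain ⟨t', g0, g1, rfl⟩ := hr2
    exact hy2 e t' ⟨g0.le, g1.le⟩ g0 g1 hr1 hr3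

end Run7.h395
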