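import Pool.Agent.Run7.h395.Slide

/-!
# Simple polygons and their local structure
-/

open Set Topology Filter Complex

noncomputable section

namespace Run7.h395

/-- A simple polygon with `n` edges: its vertices `v i` in cyclic order, such that consecutive
edges meet only in their common vertex and other pairs of edges are disjoint, and the closed
region bounded by the edges. -/
structure SimplePolygon (n : ℕ) where
  /-- there are at least three edges -/
  three_le : 3 ≤ n
  /-- the vertices in cyclic order -/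
  v : ZMod n → ℂ
  /-- the vertices are distinct -/
  v_inj : Function.Injective v
  /-- consecutive edges meet only in their common vertex -/
  adj : ∀ i, segment ℝ (v i) (v (i + 1)) ∩ segment ℝ (v (i + 1)) (v (i + 2)) = {v (i + 1)}
  /-- edges that are not consecutive are disjoint -/
  nonadj : ∀ i j, j ≠ i → j ≠ i + 1 → i ≠ j + 1 →
    Disjoint (segment ℝ (v i) (v (i + 1))) (segment ℝ (v j) (v (j + 1)))
  /-- the closed region bounded by the edges -/
  region : Set ℂ
  region_compact : IsCompact region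
  region_closure : closure (interior region) = region
  region_frontier : frontier region = ⋃ i, segment ℝ (v i) (v (i + 1))
  region_compl : IsConnected regionᶜ

variable {n : ℕ} (S : SimplePolygon n)

lemma SimplePolygon.reg : Reg S.region where
  closed := S.region_compact.isClosed
  bdd := S.region_compact.isBounded
  cpc := S.region_compl.isPreconnected

include S in
lemma SimplePolygon.neZero : NeZero n := ⟨by have := S.three_le; omega⟩

include S in
lemma SimplePolygon.one_ne_zero : (1 : ZMod n) ≠ 0 := by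
  have h3 := S.three_le
  have := S.neZero
  have : Fact (1 < n) := ⟨by omega⟩
  exact _root_.one_ne_zero

include S in
lemma SimplePolygon.two_ne_zero : (2 : ZMod n) ≠ 0 := by
  have h3 := S.three_le
  have := S.neZero
  intro h
  have h2 : ((2 : ℕ) : ZMod n) = 0 := by exact_mod_cast h
  rw [ZMod.natCast_eq_zero_iff] at h2
  have := Nat.le_of_dvd (by norm_num) h2
  omega

include S in
lemma SimplePolygon.add_one_ne (i : ZMod n) : i + 1 ≠ i := by
  intro h
  exact S.one_ne_zero (by simpa using h)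

lemma SimplePolygon.v_ne_succ (i : ZMod n) : S.v i ≠ S.v (i + 1) := by
  intro h
  exact S.add_one_ne i (S.v_inj h).symm

/-- the closed edges -/
def SimplePolygon.edge (i : ZMod n) : Set ℂ := segment ℝ (S.v i) (S.v (i + 1))

/-- the open edges -/
def SimplePolygon.oedge (i : ZMod n) : Set ℂ := openSegment ℝ (S.v i) (S.v (i + 1))

lemma SimplePolygon.edge_sub_frontier (i : ZMod n) : S.edge i ⊆ frontier S.region := by
  rw [S.region_frontier]
  exact subset_iUnion (fun i => segment ℝ (S.v i) (S.v (i + 1))) i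

lemma SimplePolygon.edge_sub (i : ZMod n) : S.edge i ⊆ S.region :=
  (S.edge_sub_frontier i).trans S.reg.closed.frontier_subset

lemma SimplePolygon.v_frontier (i : ZMod n) : S.v i ∈ frontier S.region :=
  S.edge_sub_frontier i (left_mem_segment ℝ _ _)

lemma SimplePolygon.oedge_sub (i : ZMod n) : S.oedge i ⊆ S.edge i :=
  openSegment_subset_segment ℝ _ _

lemma frontier_not_int {P : Set ℂ} {x : ℂ} (h : x ∈ frontier P) : x ∉ interior P := h.2

lemma mem_frontier_of {P : Set ℂ} {x : ℂ} (h : x ∈ P) (h' : x ∉ interior P) : x ∈ frontier P :=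
  ⟨subset_closure h, h'⟩

/-- an open edge point lies on no other edge -/
lemma SimplePolygon.oedge_unique {i j : ZMod n} {x : ℂ} (hx : x ∈ S.oedge i)
    (hj : x ∈ S.edge j) : j = i := by
  by_contra hne
  have hx' := S.oedge_sub i hx
  have hxl : x ≠ S.v i := by
    rintro rfl
    exact S.v_ne_succ i ((left_mem_openSegment_iff).1 hx)
  have hxr : x ≠ S.v (i + 1) := by
    rintro rfl
    exact S.v_ne_succ i ((right_mem_openSegment_iff).1 hx)
  by_cases h1 : j = i + 1
  · subst h1
    have := S.adj i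
    have hmem : x ∈ segment ℝ (S.v i) (S.v (i + 1)) ∩ segment ℝ (S.v (i + 1)) (S.v (i + 2)) := by
      refine ⟨hx', ?_⟩
      have e : i + 2 = i + 1 + 1 := by ring
      rw [e]
      exact hj
    rw [this] at hmem
    exact hxr hmem
  · by_cases h2 : i = j + 1
    · subst h2
      have := S.adj j
      have hmem : x ∈ segment ℝ (S.v j) (S.v (j + 1)) ∩
          segment ℝ (S.v (j + 1)) (S.v (j + 2)) := by
        refine ⟨hj, ?_⟩
        have e : j + 2 = j + 1 + 1 := by ring
        rw [e]
        exact hx'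
      rw [this] at hmem
      exact hxl hmem
    · exact Set.disjoint_left.1 (S.nonadj i j hne h1 h2) hx' hj

/-- a vertex lies only on its two incident edges -/
lemma SimplePolygon.v_mem_edge {i j : ZMod n} (hj : S.v i ∈ S.edge j) : j = i ∨ i = j + 1 := by
  by_contra hcon
  push Not at hcon
  obtain ⟨h1, h2⟩ := hcon
  by_cases h3 : j = i + 1
  · subst h3
    have := S.adj i
    have hmem : S.v i ∈ segment ℝ (S.v i) (S.v (i + 1)) ∩
        segment ℝ (S.v (i + 1)) (S.v (i + 2)) := by
      refine ⟨left_mem_segment ℝ _ _, ?_⟩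
      have e : i + 2 = i + 1 + 1 := by ring
      rw [e]
      exact hj
    rw [this] at hmem
    exact S.v_ne_succ i hmem
  · exact Set.disjoint_left.1 (S.nonadj i j h1 h3 h2) (left_mem_segment ℝ _ _) hj

lemma SimplePolygon.v_not_oedge (i j : ZMod n) : S.v i ∉ S.oedge j := by
  intro h
  have h1 := S.oedge_unique h (show S.v i ∈ S.edge i from left_mem_segment ℝ _ _)
  have h2 := S.oedge_unique h (show S.v i ∈ S.edge (i - 1) by
    unfold SimplePolygon.edge
    rw [sub_add_cancel]
    exact right_mem_segment ℝ _ _)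
  rw [← h1] at h2
  exact S.one_ne_zero (by simpa using h2)

/-- a frontier point is a vertex or lies on an open edge -/
lemma SimplePolygon.frontier_cases {x : ℂ} (hx : x ∈ frontier S.region) :
    (∃ i, x = S.v i) ∨ ∃ i, x ∈ S.oedge i := by
  rw [S.region_frontier, mem_iUnion] at hx
  obtain ⟨i, hi⟩ := hx
  rw [mem_segment_iff] at hi
  obtain ⟨t, h0, h1, rfl⟩ := hi
  rcases h0.eq_or_lt with e0 | e0
  · left; exact ⟨i, by rw [← e0, pt_zero]⟩
  · rcases h1.eq_or_lt with e1 | e1
    · left; exact ⟨i + 1, by rw [e1, pt_one]⟩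
    · right; exact ⟨i, pt_mem_openSegment e0 e1⟩

/-- convex sets that miss the frontier -/
lemma int_or_ext {P K : Set ℂ} (hP : IsClosed P) (hK : IsPreconnected K)
    (h : ∀ x ∈ K, x ∉ frontier P) : K ⊆ interior P ∨ K ⊆ Pᶜ := by
  refine hK.subset_or_subset isOpen_interior hP.isOpen_compl ?_ ?_
  · rw [Set.disjoint_left]
    intro x hx hx2
    exact hx2 (interior_subset hx)
  · intro x hx
    by_cases h1 : x ∈ P
    · left
      by_contra h2
      exact h x hx (mem_frontier_of h1 h2)
    · right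
      exact h1

lemma convex_cr_pos (w T : ℂ) (s : ℝ) : Convex ℝ {x : ℂ | 0 < s * cr w (x - T)} := by
  rw [convex_iff_segment_subset]
  intro x hx y hy z hz
  rw [mem_segment_iff] at hz
  obtain ⟨t, h0, h1, rfl⟩ := hz
  change 0 < s * cr w (pt x y t - T)
  have e : s * cr w (pt x y t - T) = (1 - t) * (s * cr w (x - T)) + t * (s * cr w (y - T)) := by
    unfold cr
    simp only [pt_re, pt_im, Complex.sub_re, Complex.sub_im]
    ring
  rw [e]
  have hx' : 0 < s * cr w (x - T) := hx
  have hy' : 0 < s * cr w (y - T) := hy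
  rcases h0.eq_or_lt with e0 | e0
  · rw [← e0]; linarith
  · have := mul_pos e0 hy'
    have := mul_nonneg (show (0 : ℝ) ≤ 1 - t by linarith) hx'.le
    linarith

lemma isOpen_cr_pos (w T : ℂ) (s : ℝ) : IsOpen {x : ℂ | 0 < s * cr w (x - T)} :=
  isOpen_lt continuous_const (continuous_const.mul
    (continuous_cr continuous_const (continuous_id.sub continuous_const)))

lemma isClosed_iUnion_edges [NeZero n] (A : Set (ZMod n)) :
    IsClosed (⋃ j ∈ A, S.edge j) := by
  apply Set.Finite.isClosed_biUnion (Set.toFinite A)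
  intro j _
  exact (isCompact_segment _ _).isClosed

/-- small balls around `x` meet only the edges through `x` -/
lemma SimplePolygon.local_edges (x : ℂ) :
    ∃ r > 0, ∀ z, dist z x < r → z ∈ frontier S.region → ∃ j, x ∈ S.edge j ∧ z ∈ S.edge j := by
  have := S.neZero
  have hcl := isClosed_iUnion_edges S {j | x ∉ S.edge j}
  have hx : x ∉ ⋃ j ∈ {j | x ∉ S.edge j}, S.edge j := by
    simp only [mem_iUnion, not_exists]
    intro j hj
    exact hj
  obtain ⟨r, hr, hball⟩ := Metric.isOpen_iff.1 hcl.isOpen_compl x hx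
  refine ⟨r, hr, ?_⟩
  intro z hz hzf
  rw [S.region_frontier, mem_iUnion] at hzf
  obtain ⟨j, hj⟩ := hzf
  refine ⟨j, ?_, hj⟩
  by_contra hcon
  have h1 := hball hz
  apply h1
  simp only [mem_iUnion]
  exact ⟨j, hcon, hj⟩

lemma edge_cr {a b z : ℂ} (hz : z ∈ segment ℝ a b) (x : ℂ) (hx : x ∈ segment ℝ a b) :
    cr (b - a) (z - x) = 0 := by
  rw [mem_segment_iff] at hz hx
  obtain ⟨t, -, -, rfl⟩ := hz
  obtain ⟨t', -, -, rfl⟩ := hx
  unfold cr
  simp only [pt_re, pt_im, Complex.sub_re, Complex.sub_im]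
  ring

/-- two complementary half balls: one inside, one outside -/
lemma half_balls {P : Set ℂ} (hP : IsClosed P) (hcl : closure (interior P) = P) {x w : ℂ}
    (hw : w ≠ 0) (hx : x ∈ frontier P) {r : ℝ} (hr : 0 < r)
    (hf : ∀ z, dist z x < r → z ∈ frontier P → cr w (z - x) = 0) :
    ∃ σ : ℝ, (σ = 1 ∨ σ = -1) ∧ (∀ z, dist z x < r → 0 < σ * cr w (z - x) → z ∈ interior P) ∧
      (∀ z, dist z x < r → σ * cr w (z - x) < 0 → z ∉ P) := by
  have hside : ∀ σ : ℝ, (Metric.ball x r ∩ {z | 0 < σ * cr w (z - x)} ⊆ interior P) ∨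
      (Metric.ball x r ∩ {z | 0 < σ * cr w (z - x)} ⊆ Pᶜ) := by
    intro σ
    apply int_or_ext hP
    · exact ((convex_ball x r).inter (convex_cr_pos w x σ)).isPreconnected
    · rintro z ⟨h1, h2⟩ h3
      have h4 := hf z h1 h3
      have h2' : 0 < σ * cr w (z - x) := h2
      rw [h4] at h2'
      simp at h2'
  have hwn : 0 < cr w (I * w) := by
    unfold cr
    simp
    rcases eq_or_ne w.re 0 with h0 | h0
    · rcases eq_or_ne w.im 0 with h2 | h2
      · exact absurd (Complex.ext h0 h2) hw
      · nlinarith [mul_self_pos.2 h2, mul_self_nonneg w.re]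
    · nlinarith [mul_self_pos.2 h0, mul_self_nonneg w.im]
  -- points near a given z of the ball, on side σ
  have hpert : ∀ z, dist z x < r → ∀ σ : ℝ, (σ = 1 ∨ σ = -1) → cr w (z - x) = 0 →
      ∀ N ∈ 𝓝 z, ∃ z' ∈ N, dist z' x < r ∧ 0 < σ * cr w (z' - x) := by
    intro z hz σ hσ h0 N hN
    have hcont : Continuous fun t : ℝ => z + (σ * t) • (I * w) := by fun_prop
    have h1 : ∀ᶠ t in 𝓝 (0 : ℝ), z + (σ * t) • (I * w) ∈ N ∩ Metric.ball x r := by
      apply hcont.continuousAt.eventually_mem
      simp only [mul_zero, zero_smul, add_zero]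
      exact Filter.inter_mem hN (Metric.isOpen_ball.mem_nhds hz)
    obtain ⟨t, ht, ht2⟩ := ((h1.filter_mono nhdsWithin_le_nhds).and
      (self_mem_nhdsWithin : Ioi (0 : ℝ) ∈ 𝓝[>] 0)).exists
    refine ⟨_, ht.1, ht.2, ?_⟩
    have e : z + (σ * t) • (I * w) - x = (z - x) + (σ * t) • (I * w) := by ring
    rw [e, cr_add_right, h0, cr_smul_right, zero_add]
    have hs2 : σ * σ = 1 := by rcases hσ with h | h <;> rw [h] <;> norm_num
    have : σ * (σ * t * cr w (I * w)) = (σ * σ) * (t * cr w (I * w)) := by ring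
    rw [this, hs2, one_mul]
    exact mul_pos ht2 hwn
  have hboth_ext : ¬ ((Metric.ball x r ∩ {z | 0 < (1 : ℝ) * cr w (z - x)} ⊆ Pᶜ) ∧
      (Metric.ball x r ∩ {z | 0 < (-1 : ℝ) * cr w (z - x)} ⊆ Pᶜ)) := by
    rintro ⟨h1, h2⟩
    have hxP : x ∈ closure (interior P) := by
      rw [hcl]; exact hP.frontier_subset hx
    rw [mem_closure_iff_nhds] at hxP
    obtain ⟨z, hz1, hz2⟩ := hxP _ (Metric.ball_mem_nhds x hr)
    rcases lt_trichotomy (cr w (z - x)) 0 with h3 | h3 | h3
    · exact h2 ⟨hz1, by change 0 < -1 * cr w (z - x); linarith⟩ (interior_subset hz2)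
    · obtain ⟨z', hz'N, hz'1, hz'2⟩ := hpert z hz1 1 (Or.inl rfl) h3 (interior P)
        (isOpen_interior.mem_nhds hz2)
      exact h1 ⟨hz'1, hz'2⟩ (interior_subset hz'N)
    · exact h1 ⟨hz1, by change 0 < 1 * cr w (z - x); linarith⟩ (interior_subset hz2)
  have hboth_int : ¬ ((Metric.ball x r ∩ {z | 0 < (1 : ℝ) * cr w (z - x)} ⊆ interior P) ∧
      (Metric.ball x r ∩ {z | 0 < (-1 : ℝ) * cr w (z - x)} ⊆ interior P)) := by
    rintro ⟨h1, h2⟩
    apply frontier_not_int hx
    rw [mem_interior_iff_mem_nhds]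
    refine Filter.mem_of_superset (Metric.ball_mem_nhds x hr) ?_
    intro z hz
    rcases lt_trichotomy (cr w (z - x)) 0 with h3 | h3 | h3
    · exact interior_subset (h2 ⟨hz, by change 0 < -1 * cr w (z - x); linarith⟩)
    · rw [← hP.closure_eq, mem_closure_iff_nhds]
      intro N hN
      obtain ⟨z', hz'N, hz'1, hz'2⟩ := hpert z hz 1 (Or.inl rfl) h3 N hN
      exact ⟨z', hz'N, interior_subset (h1 ⟨hz'1, hz'2⟩)⟩
    · exact interior_subset (h1 ⟨hz, by change 0 < 1 * cr w (z - x); linarith⟩)
  rcases hside 1 with h1 | h1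
  · rcases hside (-1) with h2 | h2
    · exact absurd ⟨h1, h2⟩ hboth_int
    · refine ⟨1, Or.inl rfl, fun z hz hz2 => h1 ⟨hz, hz2⟩, fun z hz hz2 => h2 ⟨hz, ?_⟩⟩
      change 0 < -1 * cr w (z - x)
      linarith
  · rcases hside (-1) with h2 | h2
    · refine ⟨-1, Or.inr rfl, fun z hz hz2 => h2 ⟨hz, hz2⟩, fun z hz hz2 => h1 ⟨hz, ?_⟩⟩
      change 0 < 1 * cr w (z - x)
      linarith
    · exact absurd ⟨h1, h2⟩ hboth_ext

/-- local structure at a point of an open edge -/
lemma SimplePolygon.oedge_local {i : ZMod n} {x : ℂ} (hx : x ∈ S.oedge i) :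
    ∃ r > 0, ∃ σ : ℝ, (σ = 1 ∨ σ = -1) ∧
      (∀ z, dist z x < r → 0 < σ * cr (S.v (i + 1) - S.v i) (z - x) → z ∈ interior S.region) ∧
      (∀ z, dist z x < r → σ * cr (S.v (i + 1) - S.v i) (z - x) < 0 → z ∉ S.region) := by
  obtain ⟨r, hr, hloc⟩ := S.local_edges x
  have hxe := S.oedge_sub i hx
  have hw : S.v (i + 1) - S.v i ≠ 0 := sub_ne_zero.2 (S.v_ne_succ i).symm
  obtain ⟨σ, h1, h2, h3⟩ := half_balls S.reg.closed S.region_closure hw
    (S.edge_sub_frontier i hxe) hr (by
      intro z hz hzf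
      obtain ⟨j, hj1, hj2⟩ := hloc z hz hzf
      have hj := S.oedge_unique hx hj1
      subst hj
      exact edge_cr hj2 x hj1)
  exact ⟨r, hr, σ, h1, h2, h3⟩

end Run7.h395
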