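import Pool.Agent.Run7.h395.Labels

/-!
# Propagation of darkness through a reflex vertex
-/

open Set Topology Filter Complex

noncomputable section

namespace Run7.h395

variable {n : ℕ} (S : SimplePolygon n)

/-- the points near vertex `m` of incident edges with exterior on side `s` are dark -/
def SimplePolygon.BackDark (p : ℂ) (j : ℕ) (m : ZMod n) (s : ℝ) : Prop :=
  ∀ k, (k = m + 1 ∨ k = m - 1) →
    (∃ r > 0, ∀ x, dist x (S.v m) < r → s * cr (S.v k - S.v m) (x - S.v m) < 0 →
      x ∈ interior S.region) →
    ∃ ρ > 0, ∀ μ : ℝ, 0 < μ → μ < ρ → pt (S.v m) (S.v k) μ ∉ S.lev p j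

lemma SimplePolygon.nbr_frontier {m k : ZMod n} (hk : k = m + 1 ∨ k = m - 1) :
    segment ℝ (S.v m) (S.v k) ⊆ frontier S.region := by
  rcases hk with rfl | rfl
  · exact S.edge_sub_frontier m
  · rw [segment_symm, ← S.edge_prev]
    exact S.edge_sub_frontier (m - 1)

lemma SimplePolygon.nbr_ne {m k : ZMod n} (hk : k = m + 1 ∨ k = m - 1) : S.v m ≠ S.v k := by
  rcases hk with rfl | rfl
  · exact S.v_ne_succ m
  · exact S.v_ne_prev m

lemma SimplePolygon.nbr_open {m k : ZMod n} (hk : k = m + 1 ∨ k = m - 1) {μ : ℝ} (h0 : 0 < μ)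
    (h1 : μ < 1) : pt (S.v m) (S.v k) μ ∈ S.openEdges := by
  rcases hk with rfl | rfl
  · exact ⟨m, pt_mem_openSegment h0 h1⟩
  · refine ⟨m - 1, ?_⟩
    unfold SimplePolygon.oedge
    rw [sub_add_cancel, openSegment_symm]
    exact pt_mem_openSegment h0 h1

lemma svis_small {P : Set ℂ} {T W : ℂ} (h : svis P T W) :
    ∃ ρ0 > 0, ∀ ρ : ℝ, 0 < ρ → ρ < ρ0 → T + ρ • (W - T) ∈ interior P := by
  refine ⟨1, one_pos, ?_⟩
  intro ρ h0 h1
  exact h (pt_mem_openSegment h0 h1)

/-- darkness propagates through a window vertex -/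
theorem SimplePolygon.propagate {p D : ℂ} {j : ℕ} {e T : ZMod n} {b : Bool} {t1 t2 : ℝ}
    (h10 : 0 < t1) (h11 : t1 < 1) (h20 : 0 < t2) (h21 : t2 < 1)
    (w1 : Win S.region D (S.ep e t1) (S.v T) (sg b))
    (w2 : Win S.region D (S.ep e t2) (S.v T) (sg b))
    (hord : 0 < sg b * cr (S.v T - S.ep e t2) (S.ep e t1 - S.ep e t2))
    {W : ℂ} {O : Set ℂ} (hO : IsOpen O) (hOray : ∀ lam : ℝ, 1 ≤ lam → pt W (S.v T) lam ∈ O)
    (hdark : ∀ d ∈ O, d ∈ S.openEdges → svis S.region d W → d ∉ S.lev p j)
    (hvis : svis S.region (S.v T) W) (hc1 : 0 ≤ sg b * cr (S.v T - S.ep e t1) (W - S.v T))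
    (hc2 : sg b * cr (S.v T - S.ep e t2) (W - S.v T) < 0) :
    (∃ θ : ℝ, 0 < θ ∧ θ < 1 ∧ S.ep e (t1 + θ * (t2 - t1)) ∉ S.lev p j) ∧
      S.BackDark p j T (sg b) := by
  set P := S.region with hP
  set Tv := S.v T with hTv
  set q1 := S.ep e t1 with hq1
  set q2 := S.ep e t2 with hq2
  set a := Tv - q1 with ha
  set c := Tv - q2 with hc
  set s := sg b with hs
  set ω := W - Tv with hω
  have hs0 : s ≠ 0 := sg_ne b
  have hm1 : q1 ∈ S.oedge e := S.ep_mem h10 h11
  have hm2 : q2 ∈ S.oedge e := S.ep_mem h20 h21
  have hK : 0 < s * cr a c := by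
    have e1 : s * cr a c = s * cr c (q1 - q2) := by
      rw [ha, hc]; unfold cr; simp only [Complex.sub_re, Complex.sub_im]; ring
    rw [e1]; exact hord
  have hcrac : cr a c ≠ 0 := by
    intro h0; rw [h0] at hK; simp at hK
  set α := cr ω c / cr a c with hα
  set β := cr a ω / cr a c with hβ
  have hdec : ω = α • a + β • c := decomp hcrac ω
  have hα0 : 0 < α := by
    have e1 : α = (-(s * cr c ω)) / (s * cr a c) := by
      rw [hα, cr_swap ω c]
      field_simp
    rw [e1]
    apply div_pos _ hK
    linarith
  have hβ0 : 0 ≤ β := by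
    have e1 : β = (s * cr a ω) / (s * cr a c) := by
      rw [hβ]; field_simp
    rw [e1]
    exact div_nonneg hc1 hK.le
  have hTW : Tv ≠ W := by
    intro h0
    rw [hω, h0, sub_self, cr_zero_right] at hc2
    simp at hc2
  have hω0 : ω ≠ 0 := sub_ne_zero.2 hTW.symm
  have hscr : ∀ x, s * cr ω x = α * (s * cr a x) + β * (s * cr c x) := by
    intro x
    rw [hdec]
    unfold cr
    simp only [Complex.add_re, Complex.add_im, Complex.smul_re, Complex.smul_im, smul_eq_mul]
    ring
  -- half disk and exterior points for direction ω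
  have hhalf : HalfD P Tv ω s := by
    obtain ⟨r1, hr1, hb1⟩ := w1.half
    obtain ⟨r2, hr2, hb2⟩ := w2.half
    refine ⟨min r1 r2, lt_min hr1 hr2, ?_⟩
    intro x hx hside
    by_contra hxP
    have g1 : 0 < s * cr a (x - Tv) := by
      by_contra hcon
      push Not at hcon
      exact hxP (hb1 x (hx.trans_le (min_le_left _ _)) hcon)
    have g2 : 0 < s * cr c (x - Tv) := by
      by_contra hcon
      push Not at hcon
      exact hxP (hb2 x (hx.trans_le (min_le_right _ _)) hcon)
    have := hscr (x - Tv)
    have h3 := mul_pos hα0 g1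
    have h4 := mul_nonneg hβ0 g2.le
    linarith
  have hext : ExtAt P Tv ω s := by
    obtain ⟨r1, hr1, hb1⟩ := w1.half
    obtain ⟨r2, hr2, hb2⟩ := w2.half
    have hx := w1.ext
    unfold ExtAt at hx ⊢
    rw [mem_closure_iff_nhds] at hx ⊢
    intro N hN
    obtain ⟨z, ⟨⟨hzN, hzb⟩, hzP, hz2⟩⟩ := hx _ (Filter.inter_mem hN
      (Filter.inter_mem (Metric.ball_mem_nhds Tv hr1) (Metric.ball_mem_nhds Tv hr2)))
    refine ⟨z, hzN, hzP, ?_⟩
    change 0 < s * cr ω (z - Tv)
    have g1 : 0 < s * cr a (z - Tv) := hz2
    have g2 : 0 < s * cr c (z - Tv) := by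
      by_contra hcon
      push Not at hcon
      exact hzP (hb2 z hzb.2 hcon)
    rw [hscr]
    have h3 := mul_pos hα0 g1
    have h4 := mul_nonneg hβ0 g2.le
    linarith
  constructor
  · -- a dark point between
    set κ := α + β with hκ
    have hκ0 : 0 < κ := by linarith
    set θ := β / κ with hθ
    have hθ0 : 0 ≤ θ := div_nonneg hβ0 hκ0.le
    have hθ1 : θ < 1 := by rw [hθ, div_lt_one hκ0]; linarith
    set d0 := pt q1 q2 θ with hd0
    have hκc : (κ : ℂ) ≠ 0 := by exact_mod_cast hκ0.ne'
    have hd0T : d0 - Tv = (-(1 / κ)) • ω := by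
      have e1 : d0 - Tv = -((1 - θ) • a + θ • c) := by
        rw [hd0, ha, hc]; unfold pt; simp only [Complex.real_smul]; push_cast; ring
      rw [e1, hdec]
      have e2 : 1 - θ = α / κ := by
        rw [hθ]; field_simp; rw [hκ]; ring
      rw [e2, hθ]
      simp only [Complex.real_smul]
      push_cast
      field_simp
    have hside_a : 0 < S.side e * cr (S.dir e) a := S.svis_side hm1 (svis_symm w1.vis)
    have hside_c : 0 < S.side e * cr (S.dir e) c := S.svis_side hm2 (svis_symm w2.vis)
    have hside_ω : 0 < S.side e * cr (S.dir e) ω := by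
      have e1 : S.side e * cr (S.dir e) ω =
          α * (S.side e * cr (S.dir e) a) + β * (S.side e * cr (S.dir e) c) := by
        rw [hdec]
        unfold cr
        simp only [Complex.add_re, Complex.add_im, Complex.smul_re, Complex.smul_im, smul_eq_mul]
        ring
      rw [e1]
      have h3 := mul_pos hα0 hside_a
      have h4 := mul_nonneg hβ0 hside_c.le
      linarith
    have hpt_ep : ∀ r : ℝ, pt q1 q2 r = S.ep e (t1 + r * (t2 - t1)) := by
      intro r
      rw [hq1, hq2]
      unfold SimplePolygon.ep pt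
      simp only [Complex.real_smul]; push_cast; ring
    have hd0m : d0 ∈ S.oedge e := by
      rw [hd0, hpt_ep]
      apply S.ep_mem
      · nlinarith
      · nlinarith
    have hvis0 : svis P Tv d0 := by
      rcases hθ0.eq_or_lt with e0 | e0
      · rw [hd0, ← e0, pt_zero]; exact svis_symm w1.vis
      · apply svis_of_tri S.reg (a := Tv) (b := q1) (c := q2)
        · intro h0
          apply hcrac
          have : ori Tv q1 q2 = cr a c := by
            unfold ori; rw [ha, hc]; unfold cr
            simp only [Complex.sub_re, Complex.sub_im]; ring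
          rw [← this]; exact h0
        · rw [segment_symm]; exact w1.seg
        · exact S.ep_seg' h10.le h11.le h20.le h21.le
        · rw [segment_symm]; exact w2.seg
        · exact e0
        · exact hθ1
    have hWd0 : W - d0 = (1 + 1 / κ) • ω := by
      have : W - d0 = ω - (d0 - Tv) := by rw [hω]; ring
      rw [this, hd0T, add_smul, one_smul, neg_smul]; ring
    have h1κ : 0 < 1 + 1 / κ := by positivity
    have hd0W : d0 ≠ W := by
      intro h0
      rw [h0, sub_self] at hWd0
      rcases smul_eq_zero.1 hWd0.symm with h | h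
      · linarith
      · exact hω0 h
    obtain ⟨ρ, hρ, hball⟩ := S.side_fr hd0m
    set H : Set ℂ := {x | 0 < (-s) * cr ω (x - Tv)} with hH
    obtain ⟨δ, hδ, hst⟩ := S.stab (A := d0) (B := W) (H := H) hd0W
      (by
        intro A' hA' x hx
        have hA' : 0 < (-s) * cr ω (A' - Tv) := hA'
        rw [mem_openSegment_iff] at hx
        obtain ⟨t, k0, k1, rfl⟩ := hx
        change 0 < (-s) * cr ω (pt A' W t - Tv)
        have e1 : (-s) * cr ω (pt A' W t - Tv) = (1 - t) * ((-s) * cr ω (A' - Tv)) := by
          rw [hω]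
          unfold cr
          simp only [pt_re, pt_im, Complex.sub_re, Complex.sub_im]
          ring
        rw [e1]
        exact mul_pos (by linarith) hA')
      (by
        intro w hw
        rw [mem_openSegment_iff] at hw
        obtain ⟨t, k0, k1, rfl⟩ := hw
        -- w - Tv = ν ω
        set ν := -(1 / κ) + t * (1 + 1 / κ) with hν
        have hwν : pt d0 W t - Tv = ν • ω := by
          have e1 : pt d0 W t - Tv = (d0 - Tv) + t • (W - d0) := by
            unfold pt; ring
          rw [e1, hd0T, hWd0, smul_smul, ← add_smul]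
        rcases lt_trichotomy ν 0 with h | h | h
        · have hmem : pt d0 W t ∈ interior P := by
            apply hvis0
            rw [mem_openSegment_iff]
            refine ⟨-ν * κ, by nlinarith, ?_, ?_⟩
            · have e1 : -ν * κ = 1 - t * (κ + 1) := by
                rw [hν]; field_simp; ring
              rw [e1]
              have : 0 < t * (κ + 1) := by positivity
              linarith
            · have e2 : pt d0 W t = Tv + (pt d0 W t - Tv) := by ring
              rw [e2, hwν]
              unfold pt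
              rw [hd0T, smul_smul]
              congr 2
              field_simp
          obtain ⟨r, hr, hb⟩ := Metric.isOpen_iff.1 isOpen_interior _ hmem
          exact ⟨r, hr, fun y hy _ => hb hy⟩
        · have hwT : pt d0 W t = Tv := by
            rw [h, zero_smul, sub_eq_zero] at hwν; exact hwν
          obtain ⟨r, hr, hb⟩ := hhalf.fr
          rw [hwT]
          exact ⟨r, hr, fun y hy hyH => hb y hy hyH⟩
        · have hmem : pt d0 W t ∈ interior P := by
            apply hvis
            rw [mem_openSegment_iff]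
            refine ⟨ν, h, ?_, ?_⟩
            · rw [hν]
              nlinarith
            · have e2 : pt d0 W t = Tv + (pt d0 W t - Tv) := by ring
              rw [e2, hwν]
              rfl
          obtain ⟨r, hr, hb⟩ := Metric.isOpen_iff.1 isOpen_interior _ hmem
          exact ⟨r, hr, fun y hy _ => hb hy⟩) hρ
    -- choose η
    have hcont : Continuous fun η : ℝ => pt q1 q2 (θ + η) := by
      exact (continuous_pt q1 q2).comp (continuous_const.add continuous_id)
    have hd0O : d0 ∈ O := by
      have := hOray (1 + 1 / κ) (by have : 0 < 1 / κ := by positivity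
                                    linarith)
      have e1 : pt W Tv (1 + 1 / κ) = d0 := by
        have e2 : d0 = Tv + (d0 - Tv) := by ring
        rw [e2, hd0T, hω]
        unfold pt; simp only [Complex.real_smul]; push_cast; ring
      rwa [e1] at this
    have hev : ∀ᶠ η in 𝓝 (0 : ℝ), θ + η < 1 ∧ dist (pt q1 q2 (θ + η)) d0 < δ ∧
        pt q1 q2 (θ + η) ∈ O := by
      refine Filter.Eventually.and ?_ (Filter.Eventually.and ?_ ?_)
      · have hc : Continuous fun η : ℝ => θ + η := by fun_prop
        exact hc.continuousAt.eventually_lt continuousAt_const (by simpa using hθ1)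
      · have := hcont.continuousAt (x := 0) |>.eventually (Metric.ball_mem_nhds _ hδ)
        simp only [add_zero] at this
        exact this
      · apply hcont.continuousAt.eventually_mem
        simp only [add_zero]
        exact hO.mem_nhds hd0O
    obtain ⟨η, ⟨hη1, hη2, hη3⟩, hη0⟩ := ((hev.filter_mono nhdsWithin_le_nhds).and
      (self_mem_nhdsWithin : Ioi (0 : ℝ) ∈ 𝓝[>] 0)).exists
    have hη0 : 0 < η := hη0
    refine ⟨θ + η, by linarith, hη1, ?_⟩
    rw [← hpt_ep]
    set d := pt q1 q2 (θ + η) with hd
    have hdm : d ∈ S.oedge e := by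
      rw [hd, hpt_ep]
      apply S.ep_mem
      · nlinarith
      · nlinarith
    apply hdark d hη3 ⟨e, hdm⟩
    have hdH : d ∈ H := by
      change 0 < (-s) * cr ω (d - Tv)
      have e1 : (-s) * cr ω (d - Tv) = (-s) * cr ω (d0 - Tv) + η * ((-s) * cr ω (q2 - q1)) := by
        rw [hd, hd0]
        unfold cr
        simp only [pt_re, pt_im, Complex.sub_re, Complex.sub_im]
        ring
      have e2 : (-s) * cr ω (q2 - q1) = κ * (s * cr a c) := by
        have e3 : q2 - q1 = a - c := by rw [ha, hc]; ring
        rw [e3, hdec, hκ]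
        unfold cr
        simp only [Complex.add_re, Complex.add_im, Complex.smul_re, Complex.smul_im, smul_eq_mul,
          Complex.sub_re, Complex.sub_im]
        ring
      rw [e1, e2, hd0T, cr_smul_right, cr_self]
      have := mul_pos hη0 (mul_pos hκ0 hK)
      linarith
    intro x hx
    rcases le_or_gt ρ (dist x d0) with h5 | h5
    · exact hst d hη2 hdH x hx h5
    · apply hball x h5
      rw [mem_openSegment_iff] at hx
      obtain ⟨t, k0, k1, rfl⟩ := hx
      have e1 : S.side e * cr (S.dir e) (pt d W t - d0) =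
          (1 - t) * (S.side e * cr (S.dir e) (d - d0)) +
          t * (S.side e * cr (S.dir e) (W - d0)) := by
        unfold cr
        simp only [pt_re, pt_im, Complex.sub_re, Complex.sub_im]
        ring
      have e2 : cr (S.dir e) (d - d0) = 0 := by
        have : d - d0 = S.ep e (t1 + (θ + η) * (t2 - t1)) - S.ep e (t1 + θ * (t2 - t1)) := by
          rw [hd, hd0, hpt_ep, hpt_ep]
        rw [this, S.ep_sub, cr_smul_right, cr_self, mul_zero]
      rw [e1, e2, hWd0, cr_smul_right]
      have : 0 < t * ((1 + 1 / κ) * (S.side e * cr (S.dir e) ω)) := by positivity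
      linarith
  · -- back darkness
    intro k hk hHD
    have hfs := far_side hs0 (S.nbr_frontier hk) (S.nbr_ne hk) (svis_small hvis) hhalf hext hHD
    have hside : s * cr (S.v k - Tv) (W - Tv) < 0 := by
      rw [cr_swap (S.v k - Tv) (W - Tv)]
      have : 0 < s * cr ω (S.v k - Tv) := hfs
      rw [hω] at this
      linarith
    obtain ⟨ρ, hρ, hsee⟩ := S.see_edge (svis_symm hvis) hHD hside
    have hTO : Tv ∈ O := by
      have := hOray 1 le_rfl
      rwa [pt_one] at this
    have hev : ∀ᶠ μ in 𝓝 (0 : ℝ), pt Tv (S.v k) μ ∈ O := by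
      apply (continuous_pt Tv (S.v k)).continuousAt.eventually_mem
      rw [pt_zero]
      exact hO.mem_nhds hTO
    obtain ⟨ρ2, hρ2, hb2⟩ := Metric.eventually_nhds_iff.1 hev
    refine ⟨min ρ (min ρ2 1), by positivity, ?_⟩
    intro μ h0 h1
    have g1 : μ < ρ := h1.trans_le (min_le_left _ _)
    have g2 : μ < ρ2 := h1.trans_le ((min_le_right _ _).trans (min_le_left _ _))
    have g3 : μ < 1 := h1.trans_le ((min_le_right _ _).trans (min_le_right _ _))
    apply hdark _ (hb2 (by rw [Real.dist_eq, sub_zero, abs_of_pos h0]; exact g2))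
      (S.nbr_open hk h0 g3)
    exact svis_symm (hsee μ h0.le g1)

end Run7.h395
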