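import Pool.Agent.Run7.h395.Past

/-!
# Window rays
-/

open Set Topology Filter Complex

noncomputable section

namespace Run7.h395

variable {n : ℕ} (S : SimplePolygon n)

/-- the free part, behind the vertex `m`, of the ray from `A` through the vertex `m` -/
def SimplePolygon.ray (A : ℂ) (m : ZMod n) : Set ℂ :=
  {x | ∃ τ : ℝ, 1 < τ ∧ x = pt A (S.v m) τ ∧ svis S.region (S.v m) x}

/-- relevant window points `(edge, vertex, side, parameter)` -/
structure SimplePolygon.Rel (p : ℂ) (k : ℕ) (i : Item n) : Prop where
  t0 : 0 < tt i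
  t1 : tt i < 1
  vis : svis S.region (S.ep i.1 (tt i)) (S.v i.2.1)
  nol : ¬ S.onLine i.1 (S.v i.2.1)
  ext : ExtAt S.region (S.v i.2.1) (S.v i.2.1 - S.ep i.1 (tt i)) (sg i.2.2.1)
  half : HalfD S.region (S.v i.2.1) (S.v i.2.1 - S.ep i.1 (tt i)) (sg i.2.2.1)
  fwd : ∃ u ∈ kap S.region (S.ep i.1 (tt i)) (S.v i.2.1), u ≠ S.v i.2.1
  back : S.BackDark p k i.2.1 (sg i.2.2.1)
  dark : ∃ δ > 0, ∀ t', |t' - tt i| < δ → (t' - tt i) * S.lc (lab i) < 0 →
    S.ep i.1 t' ∉ S.lev p k
  lit : ∀ δ > 0, ∃ t', |t' - tt i| < δ ∧ 0 < (t' - tt i) * S.lc (lab i) ∧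
    S.ep i.1 t' ∈ S.lev p k

/-- a boundary point of the lit region inside the polygon lies on a window ray -/
theorem SimplePolygon.frontier_ray {p x : ℂ} {k : ℕ} (hx : x ∈ interior S.region)
    (hd : x ∉ S.lev p (k + 1)) (hc : x ∈ closure (S.lev p (k + 1))) :
    (∃ m m', m ≠ m' ∧ x ∈ S.ray (S.v m) m') ∨ (∃ m, x ∈ S.ray p m) ∨
      ∃ i, S.Rel p k i ∧ x ∈ S.ray (S.ep i.1 (tt i)) i.2.1 := by
  have hcl := S.reg.closed
  have hxR := interior_subset hx
  have hxv : ∀ m, x ≠ S.v m := by
    rintro m rfl; exact frontier_not_int (S.v_frontier m) hx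
  rcases S.limit_source hc with h1 | ⟨e, t, ht0, ht1, hlim⟩
  · -- lit directly by the source
    right; left
    have hseg : segment ℝ p x ⊆ S.region := by
      apply seg_of_limit hcl
      intro δ hδ
      obtain ⟨y, hy, hyd⟩ := (h1.and_eventually (Metric.ball_mem_nhds x hδ)).exists
      exact ⟨p, y, by rw [dist_self]; exact hδ, hyd, seg_of_svis hcl hy⟩
    by_cases hv : ∃ i, S.v i ∈ openSegment ℝ p x
    · obtain ⟨m, τ, τ0, τ1, hτ, hvis⟩ := S.last_vertex hseg hx hv
      refine ⟨m, 1 / τ, by rw [lt_div_iff₀ τ0]; linarith, ?_, hvis⟩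
      rw [hτ, pt_pt, one_div_mul_cancel τ0.ne', pt_one]
    · push Not at hv
      exact absurd ⟨hxR, Or.inl (S.svis_of_no_vertex hseg hx hv)⟩ hd
  -- lit by edge points tending to `a`
  set a := S.ep e t with ha
  have hnd : 0 < ‖S.dir e‖ := norm_pos_iff.2 (S.dir_ne e)
  have hseg : segment ℝ a x ⊆ S.region := by
    apply seg_of_limit hcl
    intro δ hδ
    obtain ⟨y, t', hy, ht', -, -, -, hvis⟩ := hlim (min δ (δ / ‖S.dir e‖)) (by positivity)
    refine ⟨S.ep e t', y, ?_, hy.trans_le (min_le_left _ _), seg_of_svis hcl hvis⟩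
    rw [dist_eq_norm, ha, S.ep_sub, norm_smul, Real.norm_eq_abs]
    have := ht'.trans_le (min_le_right _ _)
    rwa [lt_div_iff₀ hnd] at this
  have hcre : ∀ z : ℂ, ∀ t' : ℝ, cr (S.dir e) (z - S.ep e t') = cr (S.dir e) (z - S.v e) := by
    intro z t'
    have : z - S.ep e t' = (z - S.v e) - (S.ep e t' - S.v e) := by ring
    rw [this, cr_sub_right, S.ep_sub_v, cr_smul_right, cr_self]; ring
  have hge : 0 ≤ S.side e * cr (S.dir e) (x - S.v e) := by
    by_contra hcon
    push Not at hcon
    have hcont : Continuous fun z : ℂ => S.side e * cr (S.dir e) (z - S.v e) :=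
      continuous_const.mul (continuous_cr continuous_const (continuous_id.sub continuous_const))
    have hev : ∀ᶠ z in 𝓝 x, S.side e * cr (S.dir e) (z - S.v e) < 0 :=
      hcont.continuousAt.eventually_lt continuousAt_const hcon
    obtain ⟨δ, hδ, hball⟩ := Metric.eventually_nhds_iff.1 hev
    obtain ⟨y, t', hy, -, g0, g1, -, hvis⟩ := hlim δ hδ
    have h2 := hball hy
    have h3 := S.svis_side (S.ep_mem g0 g1 (i := e)) (svis_symm hvis)
    rw [hcre] at h3
    linarith
  -- dark means: not seen by lit edge points
  have hno : ∀ t', 0 < t' → t' < 1 → S.ep e t' ∈ S.lev p k → ¬ svis S.region (S.ep e t') x := by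
    intro t' g0 g1 hl hv
    exact hd ⟨hxR, Or.inr ⟨_, hl, ⟨e, S.ep_mem g0 g1⟩, hv⟩⟩
  -- a point of the line of `e` which is not on the edge
  have hline : ∀ u : ℝ, x = S.ep e u → u < 0 ∨ 1 < u := by
    intro u hu
    by_contra hcon
    push Not at hcon
    have hxe : x ∈ S.edge e := by
      rw [hu]
      exact pt_mem_segment hcon.1 hcon.2
    exact frontier_not_int (S.edge_sub_frontier e hxe) hx
  by_cases hv : ∃ i, S.v i ∈ openSegment ℝ a x
  · obtain ⟨m, τ, τ0, τ1, hτ, hvis⟩ := S.last_vertex hseg hx hv
    have hax : a ≠ x := by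
      intro h
      apply hxv m
      rw [hτ, h]; simp [pt]
    have hxray : x = pt a (S.v m) (1 / τ) := by
      rw [hτ, pt_pt, one_div_mul_cancel τ0.ne', pt_one]
    have h1τ : 1 < 1 / τ := by rw [lt_div_iff₀ τ0]; linarith
    have ham : a ≠ S.v m := by
      intro h
      have : τ • (x - a) = 0 := by rw [← pt_sub_left, ← hτ, ← h, sub_self]
      rcases smul_eq_zero.1 this with h' | h'
      · linarith
      · exact hax (sub_eq_zero.1 h').symm
    by_cases hother : ∃ j, j ≠ m ∧ S.v j ∈ openSegment ℝ a x
    · left
      obtain ⟨j, hjm, hj⟩ := hother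
      rw [mem_openSegment_iff] at hj
      obtain ⟨σ, σ0, σ1, hσ⟩ := hj
      have hne : σ ≠ τ := by
        rintro rfl
        exact hjm (S.v_inj (hσ.trans hτ.symm))
      have hlt : σ < τ := by
        rcases lt_or_gt_of_ne hne with h | h
        · exact h
        · exfalso
          apply frontier_not_int (S.v_frontier j)
          apply hvis
          rw [mem_openSegment_iff]
          refine ⟨(σ - τ) / (1 - τ), div_pos (by linarith) (by linarith),
            by rw [div_lt_one (by linarith)]; linarith, ?_⟩
          rw [hτ]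
          have := pt_pt_pt a x τ 1 ((σ - τ) / (1 - τ))
          rw [pt_one] at this
          rw [this, div_mul_cancel₀ _ (by linarith : (1 - τ) ≠ 0), hσ]
          congr 1; ring
      refine ⟨j, m, hjm, (1 - σ) / (τ - σ), ?_, ?_, hvis⟩
      · rw [lt_div_iff₀ (by linarith)]; linarith
      · rw [hτ, hσ, pt_pt_pt, div_mul_cancel₀ _ (by linarith : (τ - σ) ≠ 0)]
        have : σ + (1 - σ) = 1 := by ring
        rw [this, pt_one]
    push Not at hother
    rcases ht0.eq_or_lt with e0 | g0
    · left
      have hav : a = S.v e := by rw [ha, ← e0]; simp [SimplePolygon.ep]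
      refine ⟨e, m, ?_, 1 / τ, h1τ, ?_, hvis⟩
      · rintro rfl; exact ham hav
      · rw [← hav]; exact hxray
    rcases ht1.eq_or_lt with e1 | g1
    · left
      have hav : a = S.v (e + 1) := by rw [ha, e1]; simp [SimplePolygon.ep]
      refine ⟨e + 1, m, ?_, 1 / τ, h1τ, ?_, hvis⟩
      · rintro rfl; exact ham hav
      · rw [← hav]; exact hxray
    have haE : a ∈ S.oedge e := S.ep_mem g0 g1
    by_cases hol : S.onLine e (S.v m)
    · -- along the line of the edge
      left
      have hpar : ∃ u : ℝ, x = S.ep e u := by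
        have h2 : cr (S.dir e) (x - a) = 0 := by
          have h3 : x - a = (1 / τ) • (S.v m - a) := by
            rw [hτ, pt_sub_left, smul_smul, one_div_mul_cancel τ0.ne', one_smul]
          rw [h3, cr_smul_right, hcre]
          unfold SimplePolygon.onLine at hol
          rw [hol, mul_zero]
        obtain ⟨c, hc'⟩ := parallel_of_cr (S.dir_ne e) h2
        refine ⟨t + c, ?_⟩
        have h3 := S.ep_sub e t (t + c)
        have : t + c - t = c := by ring
        rw [this, ← hc', ← ha] at h3
        have h4 : S.ep e (t + c) = x := by linear_combination h3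
        exact h4.symm
      obtain ⟨u, hu⟩ := hpar
      have hav : ∀ w : ℝ, ∀ j, S.v j = S.ep e w → (u < w ∧ w < t ∨ t < w ∧ w < u) → j = m := by
        intro w j hj hw
        by_contra hne
        apply hother j hne
        rw [mem_openSegment_iff]
        have hut : u - t ≠ 0 := by
          intro h
          rcases hw with hw | hw <;> linarith
        refine ⟨(w - t) / (u - t), ?_, ?_, ?_⟩
        · rcases hw with hw | hw
          · exact div_pos_of_neg_of_neg (by linarith) (by linarith)
          · exact div_pos (by linarith) (by linarith)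
        · rcases hw with hw | hw
          · rw [div_lt_one_of_neg (by linarith)]; linarith
          · rw [div_lt_one (by linarith)]; linarith
        · rw [hj, hu, ha]
          unfold SimplePolygon.ep
          rw [pt_pt_pt, div_mul_cancel₀ _ hut]
          congr 1; ring
      rcases hline u hu with h2 | h2
      · have hem : e = m := by
          apply hav 0 e
          · simp [SimplePolygon.ep]
          · left; exact ⟨h2, g0⟩
        refine ⟨e + 1, m, ?_, 1 - u, by linarith, ?_, hvis⟩
        · rw [← hem]; exact S.add_one_ne e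
        · rw [← hem, hu]
          have := S.ep_one_sub e (1 - u)
          rw [← this]; congr 1; ring
      · have hem : e + 1 = m := by
          apply hav 1 (e + 1)
          · simp [SimplePolygon.ep]
          · right; exact ⟨g1, h2⟩
        refine ⟨e, m, ?_, u, h2, ?_, hvis⟩
        · rw [← hem]; exact (S.add_one_ne e).symm
        · rw [← hem, hu]; rfl
    -- a simple window
    right; right
    have hseg1 : segment ℝ a (S.v m) ⊆ S.region := by
      refine subset_trans ?_ hseg
      refine (convex_segment _ _).segment_subset (left_mem_segment ℝ _ _) ?_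
      rw [hτ]; exact pt_mem_segment τ0.le τ1.le
    have hnv : ∀ i, S.v i ∉ openSegment ℝ a (S.v m) := by
      intro i hi
      rw [mem_openSegment_iff] at hi
      obtain ⟨σ, σ0, σ1, hσ⟩ := hi
      rw [hτ, pt_pt] at hσ
      by_cases him : i = m
      · rw [him, hτ] at hσ
        have h5 : (σ * τ - τ) • (x - a) = 0 := by
          rw [← pt_sub_pt, ← hσ, sub_self]
        rcases smul_eq_zero.1 h5 with h6 | h6
        · nlinarith
        · exact hax (sub_eq_zero.1 h6).symm
      · apply hother i him
        rw [mem_openSegment_iff]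
        exact ⟨σ * τ, by positivity, by nlinarith, hσ⟩
    have hvis1 := S.svis_of_no_vertex' haE hseg1 hol hnv
    have hma : S.v m - a = τ • (x - a) := by rw [hτ, pt_sub_left]
    have hxa : x - a = (1 / τ) • (S.v m - a) := by
      rw [hma, smul_smul, one_div_mul_cancel τ0.ne', one_smul]
    have hxm : x - S.v m = ((1 - τ) / τ) • (S.v m - a) := by
      rw [hma, smul_smul, div_mul_cancel₀ _ τ0.ne', hτ]
      unfold pt; simp only [Complex.real_smul]; push_cast; ring
    have hrat : 0 < (1 - τ) / τ := div_pos (by linarith) τ0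
    have hside : 0 < S.side e * cr (S.dir e) (x - a) := by
      rw [ha, hcre]
      refine lt_of_le_of_ne hge ?_
      intro h0
      have h6 := (mul_eq_zero.1 h0.symm).resolve_left (by
        rcases S.side_pm e with h | h <;> rw [h] <;> norm_num)
      rw [← hcre x t, ← ha, hxa, cr_smul_right, ha, hcre] at h6
      rcases mul_eq_zero.1 h6 with h7 | h7
      · have : 0 < 1 / τ := by positivity
        linarith
      · exact hol h7
    have hwne : S.v m - a ≠ 0 := sub_ne_zero.2 ham.symm
    obtain ⟨b, hext, hhalf⟩ := S.ext_exists (m := m) (w := S.v m - a) hwne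
      (by
        obtain ⟨ρ0, hρ0, hi⟩ := svis_small hvis
        refine ⟨ρ0 * ((1 - τ) / τ), by positivity, ?_⟩
        intro ρ h2 h3
        have := hi (ρ / ((1 - τ) / τ)) (by positivity) (by rwa [div_lt_iff₀ hrat])
        rw [hxm, smul_smul, div_mul_cancel₀ _ hrat.ne'] at this
        exact this)
      (by
        refine ⟨1, one_pos, ?_⟩
        intro ρ h2 h3
        apply hseg1
        rw [mem_segment_iff]
        refine ⟨1 - ρ, by linarith, by linarith, ?_⟩
        unfold pt; simp only [Complex.real_smul]; push_cast; ring)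
    have hcrm : ∀ t', sg b * cr (S.v m - a) (S.ep e t' - a) = (t' - t) * S.lc (e, m, b) := by
      intro t'
      unfold SimplePolygon.lc
      rw [ha, S.ep_sub, cr_smul_right, S.cr_ep e (S.v m) 0 t]
      ring
    obtain ⟨δ, hδ, hpast⟩ := S.past_vis g0 g1 τ0 τ1 hτ hvis1 hvis hhalf hside
    set δ1 := min δ (min t (1 - t)) with hδ1
    have hδ10 : 0 < δ1 := lt_min hδ (lt_min g0 (by linarith))
    have hdark : ∀ t', |t' - t| < δ1 → (t' - t) * S.lc (e, m, b) < 0 → S.ep e t' ∉ S.lev p k := by
      intro t' h2 h3 hl
      have h4 := h2.trans_le (min_le_right _ _)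
      have h5 := abs_lt.1 (h4.trans_le (min_le_left _ _))
      have h6 := abs_lt.1 (h4.trans_le (min_le_right _ _))
      refine hno t' (by linarith [h5.1]) (by linarith [h6.2]) hl (hpast t'
        (h2.trans_le (min_le_left _ _)) ?_)
      rw [← ha, hcrm]; exact h3
    have hlc : S.lc (e, m, b) ≠ 0 := by
      unfold SimplePolygon.lc
      apply mul_ne_zero (sg_ne b)
      intro h; apply hol
      unfold SimplePolygon.onLine
      rw [cr_swap, h, neg_zero]
    have hadark : S.ep e t ∉ S.lev p k := by
      intro hl
      have hev := S.lev_edge_open g0 g1 hl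
      obtain ⟨δ2, hδ2, hb2⟩ := Metric.eventually_nhds_iff.1 hev
      set ε := min δ1 δ2 / 2 with hε
      have hε0 : 0 < ε := by positivity
      have hεlt : ε < min δ1 δ2 := half_lt_self (by positivity)
      rcases lt_or_gt_of_ne hlc with h | h
      · refine hdark (t + ε) ?_ ?_ (hb2 ?_)
        · have : t + ε - t = ε := by ring
          rw [this, abs_of_pos hε0]
          exact hεlt.trans_le (min_le_left _ _)
        · have : t + ε - t = ε := by ring
          rw [this]; exact mul_neg_of_pos_of_neg hε0 h
        · rw [Real.dist_eq]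
          have : t + ε - t = ε := by ring
          rw [this, abs_of_pos hε0]
          exact hεlt.trans_le (min_le_right _ _)
      · refine hdark (t - ε) ?_ ?_ (hb2 ?_)
        · have : t - ε - t = -ε := by ring
          rw [this, abs_neg, abs_of_pos hε0]
          exact hεlt.trans_le (min_le_left _ _)
        · have : t - ε - t = -ε := by ring
          rw [this]; exact mul_neg_of_neg_of_pos (by linarith) h
        · rw [Real.dist_eq]
          have : t - ε - t = -ε := by ring
          rw [this, abs_neg, abs_of_pos hε0]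
          exact hεlt.trans_le (min_le_right _ _)
    refine ⟨(e, m, b, t), ⟨g0, g1, hvis1, hol, hext, hhalf, ?_, ?_, ⟨δ1, hδ10, hdark⟩, ?_⟩,
      1 / τ, h1τ, hxray, hvis⟩
    · exact ⟨x, ⟨1 / τ, h1τ.le, hxray, hseg⟩, hxv m⟩
    · apply S.backDark_of (sg_ne b) hvis hxR hd
      · rw [hxm]; exact hext.smul hrat
      · rw [hxm]; exact hhalf.smul hrat
    · intro δ' hδ'
      obtain ⟨y, t', -, h2, h3, h4, h5, -⟩ := hlim (min δ' δ1) (by positivity)
      refine ⟨t', h2.trans_le (min_le_left _ _), ?_, h5⟩
      change 0 < (t' - t) * S.lc (e, m, b)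
      rcases lt_trichotomy ((t' - t) * S.lc (e, m, b)) 0 with h | h | h
      · exact absurd h5 (hdark t' (h2.trans_le (min_le_right _ _)) h)
      · exfalso
        have h6 := (mul_eq_zero.1 h).resolve_right hlc
        apply hadark
        have : t' = t := by linarith
        rw [← this]; exact h5
      · exact h
  -- no vertex in between
  push Not at hv
  have hvis := S.svis_of_no_vertex hseg hx hv
  rcases ht0.eq_or_lt with e0 | g0
  · left
    have hav : a = S.v e := by rw [ha, ← e0]; simp [SimplePolygon.ep]
    rw [hav] at hvis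
    rcases hge.eq_or_lt with h2 | h2
    · have h3 := (mul_eq_zero.1 h2.symm).resolve_left (by
        rcases S.side_pm e with h | h <;> rw [h] <;> norm_num)
      obtain ⟨c, hc'⟩ := parallel_of_cr (S.dir_ne e) h3
      have hxe : x = S.ep e c := by
        have h4 := S.ep_sub_v e c
        rw [← hc'] at h4
        linear_combination -h4
      rcases hline c hxe with h4 | h4
      · refine ⟨e + 1, e, S.add_one_ne e, 1 - c, by linarith, ?_, hvis⟩
        rw [hxe, ← S.ep_one_sub]; congr 1; ring
      · exfalso
        have h5 : S.ep e (1 / 2) ∈ openSegment ℝ (S.v e) x := by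
          rw [mem_openSegment_iff]
          refine ⟨1 / (2 * c), by positivity, by rw [div_lt_one (by linarith)]; linarith, ?_⟩
          rw [hxe]
          unfold SimplePolygon.ep
          rw [pt_pt]; congr 1; field_simp
        exact frontier_not_int (S.edge_sub_frontier e (S.oedge_sub e
          (S.ep_mem (by norm_num) (by norm_num)))) (hvis h5)
    · exfalso
      obtain ⟨ρ, hρ, hsee⟩ := S.see_first hvis h2
      obtain ⟨y, t', -, h3, h4, h5, h6, -⟩ := hlim ρ hρ
      refine hno t' h4 h5 h6 (hsee t' h4 ?_)
      rw [← e0, sub_zero, abs_of_pos h4] at h3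
      exact h3
  rcases ht1.eq_or_lt with e1 | g1
  · left
    have hav : a = S.v (e + 1) := by rw [ha, e1]; simp [SimplePolygon.ep]
    rw [hav] at hvis
    have hcr1 : cr (S.dir e) (x - S.v (e + 1)) = cr (S.dir e) (x - S.v e) := by
      have := hcre x 1
      have h1 : S.ep e 1 = S.v (e + 1) := by simp [SimplePolygon.ep]
      rwa [h1] at this
    rcases hge.eq_or_lt with h2 | h2
    · have h3 := (mul_eq_zero.1 h2.symm).resolve_left (by
        rcases S.side_pm e with h | h <;> rw [h] <;> norm_num)
      obtain ⟨c, hc'⟩ := parallel_of_cr (S.dir_ne e) h3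
      have hxe : x = S.ep e c := by
        have h4 := S.ep_sub_v e c
        rw [← hc'] at h4
        linear_combination -h4
      rcases hline c hxe with h4 | h4
      · exfalso
        have h5 : S.ep e (1 / 2) ∈ openSegment ℝ (S.v (e + 1)) x := by
          rw [mem_openSegment_iff]
          refine ⟨1 / (2 * (1 - c)), by
            have : 0 < 1 - c := by linarith
            positivity, by rw [div_lt_one (by linarith)]; linarith, ?_⟩
          have h6 : x = pt (S.v (e + 1)) (S.v e) (1 - c) := by
            rw [← S.ep_one_sub, hxe]; congr 1; ring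
          have h7 : S.ep e (1 / 2) = pt (S.v (e + 1)) (S.v e) (1 / 2) := by
            rw [← S.ep_one_sub]; congr 1; norm_num
          rw [h6, h7, pt_pt]; congr 1
          have : 1 - c ≠ 0 := by linarith
          field_simp
        exact frontier_not_int (S.edge_sub_frontier e (S.oedge_sub e
          (S.ep_mem (by norm_num) (by norm_num)))) (hvis h5)
      · exact ⟨e, e + 1, (S.add_one_ne e).symm, c, h4, hxe, hvis⟩
    · exfalso
      obtain ⟨ρ, hρ, hsee⟩ := S.see_last hvis (by rw [hcr1]; exact h2)
      obtain ⟨y, t', -, h3, h4, h5, h6, -⟩ := hlim ρ hρ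
      have h7 := hsee (1 - t') (by linarith) (by
        rw [e1, abs_sub_comm, abs_of_pos (by linarith)] at h3
        exact h3)
      have h8 : 1 - (1 - t') = t' := by ring
      rw [h8] at h7
      exact hno t' h4 h5 h6 h7
  · exfalso
    have hev := S.svis_edge_open g0 g1 (svis_symm hvis)
    obtain ⟨ρ, hρ, hb⟩ := Metric.eventually_nhds_iff.1 hev
    obtain ⟨y, t', -, h3, h4, h5, h6, -⟩ := hlim ρ hρ
    exact hno t' h4 h5 h6 (svis_symm (hb (by rw [Real.dist_eq]; exact h3)))

end Run7.h395
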