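import Pool.Agent.Run7.h395.Rays

/-!
# Every vertex carries linearly many relevant windows
-/

open Set Topology Filter Complex

noncomputable section

namespace Run7.h395

variable {n : ℕ} (S : SimplePolygon n)

/-- the window at a relevant point, with the vertex itself as target -/
lemma SimplePolygon.Rel.win {p : ℂ} {k : ℕ} {i : Item n} (h : S.Rel p k i) :
    Win S.region (S.v i.2.1) (S.ep i.1 (tt i)) (S.v i.2.1) (sg i.2.2.1) := by
  have hseg := seg_of_svis S.reg.closed h.vis
  refine ⟨h.vis, ?_, hseg, h.ext, h.half, h.fwd, ?_, JoinedIn.of_segment hseg⟩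
  · intro he
    exact S.v_not_oedge i.2.1 i.1 (he ▸ S.ep_mem h.t0 h.t1)
  · rintro ⟨C, -, -, h3, -, h5⟩
    apply (h3 h5).2
    exact ⟨1, le_rfl, (pt_one _ _).symm, hseg⟩

/-- nearby lit window points -/
lemma SimplePolygon.Rel.near {p : ℂ} {k : ℕ} {i : Item n} (h : S.Rel p k i) {γ : ℝ} (hγ : 0 < γ) :
    ∃ t', |t' - tt i| < γ ∧ 0 < (t' - tt i) * S.lc (lab i) ∧ 0 < t' ∧ t' < 1 ∧
      S.ep i.1 t' ∈ S.lev p k ∧
      Win S.region (S.v i.2.1) (S.ep i.1 t') (S.v i.2.1) (sg i.2.2.1) := by
  have h0 := h.t0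
  have h1 := h.t1
  have hev := S.svis_edge_open h0 h1 (svis_symm h.vis)
  obtain ⟨δ, hδ, hb⟩ := Metric.eventually_nhds_iff.1 hev
  obtain ⟨t', g1, g2, g3⟩ := h.lit (min γ (min δ (min (tt i) (1 - tt i))))
    (lt_min hγ (lt_min hδ (lt_min h0 (by linarith))))
  have g4 := g1.trans_le (min_le_right _ _)
  have g5 := g4.trans_le (min_le_right _ _)
  have g6 := abs_lt.1 (g5.trans_le (min_le_left _ _))
  have g7 := abs_lt.1 (g5.trans_le (min_le_right _ _))
  have k0 : 0 < t' := by linarith [g6.1]
  have k1 : t' < 1 := by linarith [g7.2]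
  refine ⟨t', g1.trans_le (min_le_left _ _), g2, k0, k1, g3, ?_⟩
  refine S.win_slide h0.le h1.le k0.le k1.le h.win g2 (svis_symm (hb ?_))
  rw [Real.dist_eq]
  exact g4.trans_le (min_le_left _ _)

theorem SimplePolygon.rel_count {p : ℂ} {k : ℕ} (T : ZMod n) (F : Finset (Item n))
    (hF : ∀ i ∈ F, S.Rel p k i ∧ i.2.1 = T) : F.card ≤ 20 * n * k := by
  classical
  -- minimal gap
  obtain ⟨γ, hγ, hgap⟩ : ∃ γ > 0, ∀ i ∈ F, ∀ l ∈ F, tt i < tt l → γ ≤ tt l - tt i := by
    set D := (F ×ˢ F).filter (fun x => tt x.1 < tt x.2) with hD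
    rcases D.eq_empty_or_nonempty with h | h
    · refine ⟨1, one_pos, ?_⟩
      intro i hi l hl hlt
      have : (i, l) ∈ D := Finset.mem_filter.2 ⟨Finset.mem_product.2 ⟨hi, hl⟩, hlt⟩
      rw [h] at this
      exact absurd this (Finset.notMem_empty _)
    · obtain ⟨x, hx, hmin⟩ := Finset.exists_min_image D (fun x => tt x.2 - tt x.1) h
      refine ⟨tt x.2 - tt x.1, sub_pos.2 (Finset.mem_filter.1 hx).2, ?_⟩
      intro i hi l hl hlt
      exact hmin (i, l) (Finset.mem_filter.2 ⟨Finset.mem_product.2 ⟨hi, hl⟩, hlt⟩)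
  have hex : ∀ i ∈ F, ∃ t', |t' - tt i| < γ / 2 ∧ 0 < (t' - tt i) * S.lc (lab i) ∧ 0 < t' ∧
      t' < 1 ∧ S.ep i.1 t' ∈ S.lev p k ∧
      Win S.region (S.v i.2.1) (S.ep i.1 t') (S.v i.2.1) (sg i.2.2.1) :=
    fun i hi => SimplePolygon.Rel.near S (hF i hi).1 (by positivity)
  choose! f hf1 hf2 hf3 hf4 hf5 hf6 using hex
  set g : Item n → Item n := fun i => (i.1, i.2.1, i.2.2.1, f i) with hg
  have hlabg : ∀ i, lab (g i) = lab i := fun i => rfl
  have httg : ∀ i, tt (g i) = f i := fun i => rfl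
  have hmono : ∀ i ∈ F, ∀ l ∈ F, tt i < tt l → f i < f l := by
    intro i hi l hl hlt
    have h1 := abs_lt.1 (hf1 i hi)
    have h2 := abs_lt.1 (hf1 l hl)
    have h3 := hgap i hi l hl hlt
    linarith [h1.2, h2.1]
  have hinj : Set.InjOn g F := by
    intro i hi l hl hil
    have h1 : lab i = lab l := by rw [← hlabg i, ← hlabg l, hil]
    have h2 : f i = f l := by rw [← httg i, ← httg l, hil]
    apply item_ext h1
    rcases lt_trichotomy (tt i) (tt l) with h | h | h
    · have := hmono i hi l hl h; linarith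
    · exact h
    · have := hmono l hl i hi h; linarith
  rw [← Finset.card_image_of_injOn hinj]
  apply S.main_count p (S.v T) k
  constructor
  · intro x hx
    obtain ⟨i, hi, rfl⟩ := Finset.mem_image.1 hx
    obtain ⟨hR, hT⟩ := hF i hi
    have hw := hf6 i hi
    rw [← hT]
    refine ⟨hf3 i hi, hf4 i hi, hf5 i hi, hw, hR.back, hR.nol, ?_⟩
    have hne : f i ≠ tt i := by
      intro h
      have := hf2 i hi
      rw [h, sub_self, zero_mul] at this
      exact lt_irrefl _ this
    rcases lt_or_gt_of_ne hne with h | h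
    · exact ⟨f i, tt i, hf3 i hi, h, hR.t1, hw, hR.win⟩
    · exact ⟨tt i, f i, hR.t0, h, hf4 i hi, hR.win, hw⟩
  · intro x hx y hy hlab hlt
    obtain ⟨i, hi, rfl⟩ := Finset.mem_image.1 hx
    obtain ⟨l, hl, rfl⟩ := Finset.mem_image.1 hy
    rw [hlabg, hlabg] at hlab
    rw [httg, httg] at hlt
    have htlt : tt i < tt l := by
      rcases lt_trichotomy (tt i) (tt l) with h | h | h
      · exact h
      · have := item_ext hlab h
        rw [this] at hlt
        exact absurd hlt (lt_irrefl _)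
      · have := hmono l hl i hi h; linarith
    have h1 := abs_lt.1 (hf1 i hi)
    have h2 := abs_lt.1 (hf1 l hl)
    have h3 := hgap i hi l hl htlt
    have hli := hf2 i hi
    have hll := hf2 l hl
    have hel : l.1 = i.1 := congrArg (fun z => z.1) hlab.symm
    change ∃ τ, f i < τ ∧ τ < f l ∧ S.ep i.1 τ ∉ S.lev p k
    have hlcne : S.lc (lab i) ≠ 0 := by
      intro h; rw [h, mul_zero] at hli; exact lt_irrefl _ hli
    rcases lt_or_gt_of_ne hlcne with h | h
    · -- lit on the left, dark on the right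
      obtain ⟨δ, hδ, hd⟩ := (hF i hi).1.dark
      have g1 : f i < tt i := by
        by_contra hc
        push Not at hc
        have := mul_nonpos_of_nonneg_of_nonpos (sub_nonneg.2 hc) h.le
        linarith
      set ε := min δ γ / 4 with hε
      have hε0 : 0 < ε := by positivity
      have hε1 : ε < δ := by
        have := min_le_left δ γ; rw [hε]; linarith
      have hε2 : ε ≤ γ / 4 := by
        have := min_le_right δ γ; rw [hε]; linarith
      refine ⟨tt i + ε, by linarith, by linarith [h2.1], hd _ ?_ ?_⟩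
      · rw [add_sub_cancel_left, abs_of_pos hε0]; exact hε1
      · rw [add_sub_cancel_left]; exact mul_neg_of_pos_of_neg hε0 h
    · obtain ⟨δ, hδ, hd⟩ := (hF l hl).1.dark
      rw [← hlab] at hll hd
      have g1 : tt l < f l := by
        by_contra hc
        push Not at hc
        have := mul_nonpos_of_nonpos_of_nonneg (sub_nonpos.2 hc) h.le
        linarith
      set ε := min δ γ / 4 with hε
      have hε0 : 0 < ε := by positivity
      have hε1 : ε < δ := by
        have := min_le_left δ γ; rw [hε]; linarith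
      have hε2 : ε ≤ γ / 4 := by
        have := min_le_right δ γ; rw [hε]; linarith
      have e1 : tt l - ε - tt l = -ε := by ring
      refine ⟨tt l - ε, by linarith [h1.2], by linarith, ?_⟩
      rw [← hel]
      apply hd _ ?_ ?_
      · rw [e1, abs_neg, abs_of_pos hε0]; exact hε1
      · rw [e1]; exact mul_neg_of_neg_of_pos (by linarith) h

end Run7.h395
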