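import Pool.Agent.Run7.h395.Induct

/-!
# Counting status changes along a segment
-/

open Set Topology Filter Complex

noncomputable section

namespace Run7.h395

variable {n : ℕ} (S : SimplePolygon n)

lemma pt_sub_pt (a b : ℂ) (t t' : ℝ) : pt a b t' - pt a b t = (t' - t) • (b - a) := by
  unfold pt; simp only [Complex.real_smul]; push_cast; ring

lemma pt_pt_pt (a b : ℂ) (t t' r : ℝ) : pt (pt a b t) (pt a b t') r = pt a b (t + r * (t' - t)) := by
  unfold pt; simp only [Complex.real_smul]; push_cast; ring

lemma pt_inj {a b : ℂ} (hab : a ≠ b) {t t' : ℝ} (h : pt a b t = pt a b t') : t = t' := by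
  have h1 := pt_sub_pt a b t' t
  rw [h, sub_self] at h1
  rcases smul_eq_zero.1 h1.symm with h2 | h2
  · linarith
  · exact absurd (sub_eq_zero.1 h2).symm hab

lemma pt_seg_sub {P : Set ℂ} {a b : ℂ} (h : segment ℝ a b ⊆ P) {t t' : ℝ} (h0 : 0 ≤ t)
    (h1 : t ≤ 1) (h0' : 0 ≤ t') (h1' : t' ≤ 1) : segment ℝ (pt a b t) (pt a b t') ⊆ P :=
  ((convex_segment _ _).segment_subset (pt_mem_segment h0 h1) (pt_mem_segment h0' h1')).trans h

/-- inner points of an inner segment without vertices: interior or along one open edge -/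
lemma SimplePolygon.seg_free {A B : ℂ} (hAB : A ≠ B) (hseg : segment ℝ A B ⊆ S.region)
    {u v : ℝ} (hu : 0 < u) (huv : u ≤ v) (hv : v < 1)
    (hnv : ∀ i, ∀ t, u ≤ t → t ≤ v → pt A B t ≠ S.v i) :
    (∀ t, u ≤ t → t ≤ v → pt A B t ∈ interior S.region) ∨
    (∃ i, (∀ t, u ≤ t → t ≤ v → pt A B t ∈ S.oedge i) ∧ ∃ c : ℝ, c ≠ 0 ∧ B - A = c • S.dir i) := by
  by_cases hall : ∀ t, u ≤ t → t ≤ v → pt A B t ∈ interior S.region
  · exact Or.inl hall
  right
  push Not at hall
  obtain ⟨t0, ht0, ht0', hni⟩ := hall
  have hf : pt A B t0 ∈ frontier S.region :=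
    mem_frontier_of (hseg (pt_mem_segment (by linarith) (by linarith))) hni
  rcases S.frontier_cases hf with ⟨i, hi⟩ | ⟨i, hi⟩
  · exact absurd hi (hnv i t0 ht0 ht0')
  have hcr := S.oedge_cross hi (pt_mem_openSegment (by linarith) (by linarith)) hseg
  obtain ⟨c, hc⟩ := parallel_of_cr (S.dir_ne i) hcr
  have hc0 : c ≠ 0 := by
    rintro rfl
    rw [zero_smul, sub_eq_zero] at hc
    exact hAB hc.symm
  refine ⟨i, ?_, c, hc0, hc⟩
  rw [S.mem_oedge_iff] at hi
  obtain ⟨s0, s00, s01, hs0⟩ := hi
  -- parameter on the edge of pt A B t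
  have hpar : ∀ t, pt A B t = S.ep i (s0 + c * (t - t0)) := by
    intro t
    have h1 : pt A B t = pt A B t0 + (t - t0) • (B - A) := by
      rw [← pt_sub_pt]; ring
    have h2 : S.ep i (s0 + c * (t - t0)) = S.ep i s0 + (c * (t - t0)) • S.dir i := by
      have := S.ep_sub i s0 (s0 + c * (t - t0))
      rw [add_sub_cancel_left] at this
      rw [← this]; ring
    rw [h1, h2, hs0, hc, smul_smul]
    congr 2
    ring
  intro t h1 h2
  rw [hpar t]
  have hcont : Continuous fun t : ℝ => s0 + c * (t - t0) := by fun_prop
  apply S.ep_mem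
  · by_contra hcon
    push Not at hcon
    -- intermediate value 0
    have hivt : (0 : ℝ) ∈ (fun t : ℝ => s0 + c * (t - t0)) '' uIcc t t0 := by
      apply intermediate_value_uIcc hcont.continuousOn
      rw [mem_uIcc]
      left
      exact ⟨hcon, by simp; linarith⟩
    obtain ⟨t', ht', h0⟩ := hivt
    have h3 := hpar t'
    have h0' : s0 + c * (t' - t0) = 0 := h0
    rw [h0'] at h3
    have h4 : u ≤ t' ∧ t' ≤ v := by
      rw [mem_uIcc] at ht'
      rcases ht' with ⟨a, b⟩ | ⟨a, b⟩ <;> constructor <;> linarith
    apply hnv i t' h4.1 h4.2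
    rw [h3]; unfold SimplePolygon.ep; rw [pt_zero]
  · by_contra hcon
    push Not at hcon
    have hivt : (1 : ℝ) ∈ (fun t : ℝ => s0 + c * (t - t0)) '' uIcc t t0 := by
      apply intermediate_value_uIcc hcont.continuousOn
      rw [mem_uIcc]
      right
      exact ⟨by simp; linarith, hcon⟩
    obtain ⟨t', ht', h0⟩ := hivt
    have h3 := hpar t'
    have h0' : s0 + c * (t' - t0) = 1 := h0
    rw [h0'] at h3
    have h4 : u ≤ t' ∧ t' ≤ v := by
      rw [mem_uIcc] at ht'
      rcases ht' with ⟨a, b⟩ | ⟨a, b⟩ <;> constructor <;> linarith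
    apply hnv (i + 1) t' h4.1 h4.2
    rw [h3]; unfold SimplePolygon.ep; rw [pt_one]

lemma card_le_one_of {α : Type*} [DecidableEq α] {A : Finset α}
    (h : ∀ i ∈ A, ∀ k ∈ A, i = k) : A.card ≤ 1 :=
  Finset.card_le_one.2 h

/-- status changes along a segment: the number of disjoint lit-dark pairs is linear -/
theorem SimplePolygon.pairs_count {p A B : ℂ} (hAB : A ≠ B) (hseg : segment ℝ A B ⊆ S.region)
    (k : ℕ) {α : Type*} [DecidableEq α] (I : Finset α) (u v : α → ℝ)
    (hu0 : ∀ i ∈ I, 0 ≤ u i) (huv : ∀ i ∈ I, u i < v i) (hv1 : ∀ i ∈ I, v i ≤ 1)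
    (hlit : ∀ i ∈ I, pt A B (u i) ∈ S.lev p (k + 1))
    (hdark : ∀ i ∈ I, pt A B (v i) ∉ S.lev p (k + 1))
    (hdisj : ∀ i ∈ I, ∀ l ∈ I, i ≠ l → v i < u l ∨ v l < u i) :
    I.card ≤ 40 * n * (k + 1) := by
  classical
  have hNe := S.neZero
  have hcl := S.reg.closed
  have hBA : B - A ≠ 0 := sub_ne_zero.2 hAB.symm
  -- a common point of two closed intervals forces equality
  have hcommon : ∀ i ∈ I, ∀ l ∈ I, ∀ t, u i ≤ t → t ≤ v i → u l ≤ t → t ≤ v l → i = l := by
    intro i hi l hl t h1 h2 h3 h4
    by_contra hne
    rcases hdisj i hi l hl hne with h | h <;> linarith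
  -- X1: intervals containing a vertex
  set X1 := I.filter (fun i => ∃ w, ∃ t, u i ≤ t ∧ t ≤ v i ∧ pt A B t = S.v w) with hX1
  have hX1c : X1.card ≤ n := by
    have hch : ∀ i ∈ X1, ∃ w, ∃ t, u i ≤ t ∧ t ≤ v i ∧ pt A B t = S.v w :=
      fun i hi => (Finset.mem_filter.1 hi).2
    choose! w t h1 h2 h3 using hch
    have hinj : Set.InjOn w X1 := by
      intro i hi l hl hil
      have e1 := h3 i hi
      have e2 := h3 l hl
      rw [hil] at e1
      have ht : t i = t l := pt_inj hAB (e1.trans e2.symm)
      have g1 := h1 l hl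
      have g2 := h2 l hl
      rw [← ht] at g1 g2
      exact hcommon i (Finset.mem_filter.1 hi).1 l (Finset.mem_filter.1 hl).1 (t i)
        (h1 i hi) (h2 i hi) g1 g2
    have := Finset.card_le_card_of_injOn w (t := Finset.univ) (fun _ _ => Finset.mem_univ _) hinj
    rwa [Finset.card_univ, ZMod.card] at this
  -- X2: intervals touching the ends
  set X2 := I.filter (fun i => u i = 0) with hX2
  set X2' := I.filter (fun i => v i = 1) with hX2'
  have hX2c : X2.card ≤ 1 := by
    apply card_le_one_of
    intro i hi l hl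
    obtain ⟨hi1, hi2⟩ := Finset.mem_filter.1 hi
    obtain ⟨hl1, hl2⟩ := Finset.mem_filter.1 hl
    apply hcommon i hi1 l hl1 0
    · rw [hi2]
    · have := huv i hi1; linarith
    · rw [hl2]
    · have := huv l hl1; linarith
  have hX2c' : X2'.card ≤ 1 := by
    apply card_le_one_of
    intro i hi l hl
    obtain ⟨hi1, hi2⟩ := Finset.mem_filter.1 hi
    obtain ⟨hl1, hl2⟩ := Finset.mem_filter.1 hl
    apply hcommon i hi1 l hl1 1
    · have := huv i hi1; linarith
    · rw [hi2]
    · have := huv l hl1; linarith
    · rw [hl2]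
  -- seeing an end point implies seeing the dark point in between, for collinear sources
  have hcol : ∀ ρ a b : ℝ, svis S.region (pt A B ρ) (pt A B b) →
      ((ρ < a ∧ a < b) ∨ (b < a ∧ a < ρ)) → svis S.region (pt A B ρ) (pt A B a) := by
    intro ρ a b h hab x hx
    apply h
    rw [mem_openSegment_iff] at hx ⊢
    obtain ⟨r, r0, r1, rfl⟩ := hx
    have hne : b - ρ ≠ 0 := by rcases hab with ⟨h1, h2⟩ | ⟨h1, h2⟩ <;> intro h0 <;> linarith
    have hq : 0 < (a - ρ) / (b - ρ) ∧ (a - ρ) / (b - ρ) < 1 := by
      rcases hab with ⟨h1, h2⟩ | ⟨h1, h2⟩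
      · constructor
        · exact div_pos (by linarith) (by linarith)
        · rw [div_lt_one (by linarith)]; linarith
      · constructor
        · exact div_pos_of_neg_of_neg (by linarith) (by linarith)
        · rw [div_lt_one_of_neg (by linarith)]; linarith
    refine ⟨r * ((a - ρ) / (b - ρ)), mul_pos r0 hq.1, by nlinarith [hq.1, hq.2], ?_⟩
    rw [pt_pt_pt, pt_pt_pt]
    congr 1
    field_simp
  -- X3: seen directly from p
  set X3 := I.filter (fun i => svis S.region p (pt A B (u i))) with hX3
  have hX3c : X3.card ≤ 3 := by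
    by_cases hline : cr (B - A) (p - A) = 0
    · obtain ⟨ρ, hρ⟩ := parallel_of_cr hBA hline
      have hp : p = pt A B ρ := by
        have : p = A + (p - A) := by ring
        rw [this, hρ]; rfl
      have hkey : ∀ i ∈ X3, ∀ l ∈ X3, i ≠ l → v i < u l →
          ¬ (u i < ρ ∧ u l < ρ) ∧ ¬ (u i = ρ ∧ u l = ρ) ∧ ¬ (ρ < u i ∧ ρ < u l) := by
        intro i hi l hl hne hlt
        obtain ⟨hi1, hi2⟩ := Finset.mem_filter.1 hi
        obtain ⟨hl1, hl2⟩ := Finset.mem_filter.1 hl
        have g1 := huv i hi1
        have g2 := huv l hl1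
        refine ⟨?_, ?_, ?_⟩
        · rintro ⟨h1, h2⟩
          apply hdark i hi1
          refine ⟨hseg (pt_mem_segment (by linarith [hu0 i hi1]) (hv1 i hi1)), Or.inl ?_⟩
          rw [hp] at hi2 ⊢
          exact hcol ρ (v i) (u i) hi2 (Or.inr ⟨g1, by linarith⟩)
        · rintro ⟨h1, h2⟩; linarith
        · rintro ⟨h1, h2⟩
          apply hdark i hi1
          refine ⟨hseg (pt_mem_segment (by linarith [hu0 i hi1]) (hv1 i hi1)), Or.inl ?_⟩
          rw [hp] at hl2 ⊢
          exact hcol ρ (v i) (u l) hl2 (Or.inl ⟨by linarith, hlt⟩)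
      set f : α → Fin 3 := fun i => if u i < ρ then 0 else if u i = ρ then 1 else 2 with hf
      have hinj : Set.InjOn f X3 := by
        intro i hi l hl hil
        by_contra hne
        have hi1 := (Finset.mem_filter.1 hi).1
        have hl1 := (Finset.mem_filter.1 hl).1
        have hcase : ¬ (u i < ρ ∧ u l < ρ) ∧ ¬ (u i = ρ ∧ u l = ρ) ∧ ¬ (ρ < u i ∧ ρ < u l) := by
          rcases hdisj i hi1 l hl1 hne with h | h
          · exact hkey i hi l hl hne h
          · have := hkey l hl i hi (Ne.symm hne) h
            tauto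
        obtain ⟨c1, c2, c3⟩ := hcase
        simp only [hf] at hil
        rcases lt_trichotomy (u i) ρ with a1 | a1 | a1 <;>
        rcases lt_trichotomy (u l) ρ with a2 | a2 | a2
        · exact c1 ⟨a1, a2⟩
        · rw [if_pos a1, if_neg (by linarith), if_pos a2] at hil
          exact absurd hil (by decide)
        · rw [if_pos a1, if_neg (by linarith), if_neg (by linarith)] at hil
          exact absurd hil (by decide)
        · rw [if_neg (by linarith), if_pos a1, if_pos a2] at hil
          exact absurd hil (by decide)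
        · exact c2 ⟨a1, a2⟩
        · rw [if_neg (by linarith), if_pos a1, if_neg (by linarith), if_neg (by linarith)] at hil
          exact absurd hil (by decide)
        · rw [if_neg (by linarith), if_neg (by linarith), if_pos a2] at hil
          exact absurd hil (by decide)
        · rw [if_neg (by linarith), if_neg (by linarith), if_neg (by linarith), if_pos a2] at hil
          exact absurd hil (by decide)
        · exact c3 ⟨a1, a2⟩
      have := Finset.card_le_card_of_injOn f (t := Finset.univ) (fun _ _ => Finset.mem_univ _) hinj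
      simpa using this
    · have : X3.card ≤ 1 := by
        apply card_le_one_of
        have hkey : ∀ i ∈ X3, ∀ l ∈ X3, v i < u l → False := by
          intro i hi l hl hlt
          obtain ⟨hi1, hi2⟩ := Finset.mem_filter.1 hi
          obtain ⟨hl1, hl2⟩ := Finset.mem_filter.1 hl
          have g1 := huv i hi1
          have g2 := huv l hl1
          apply hdark i hi1
          refine ⟨hseg (pt_mem_segment (by linarith [hu0 i hi1]) (hv1 i hi1)), Or.inl ?_⟩
          have he : pt A B (v i) = pt (pt A B (u i)) (pt A B (u l))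
              ((v i - u i) / (u l - u i)) := by
            rw [pt_pt_pt]
            congr 1
            have : u l - u i ≠ 0 := by linarith
            field_simp
            ring
          rw [he]
          apply svis_of_tri S.reg
          · intro h0
            have e1 : ori p (pt A B (u i)) (pt A B (u l)) = (u l - u i) * cr (B - A) (p - A) := by
              unfold ori cr
              simp only [pt_re, pt_im, Complex.sub_re, Complex.sub_im]
              ring
            rw [e1] at h0
            rcases mul_eq_zero.1 h0 with h | h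
            · linarith
            · exact hline h
          · exact seg_of_svis hcl hi2
          · exact pt_seg_sub hseg (hu0 i hi1) (by linarith [hv1 i hi1]) (hu0 l hl1)
              (by linarith [hv1 l hl1])
          · exact seg_of_svis hcl hl2
          · exact div_pos (by linarith) (by linarith)
          · rw [div_lt_one (by linarith)]; linarith
        intro i hi l hl
        by_contra hne
        rcases hdisj i (Finset.mem_filter.1 hi).1 l (Finset.mem_filter.1 hl).1 hne with h | h
        · exact hkey i hi l hl h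
        · exact hkey l hl i hi h
      omega
  -- X4: the first interval
  set X4 := I.filter (fun i => ∀ l ∈ I, ¬ v l < u i) with hX4
  have hX4c : X4.card ≤ 1 := by
    apply card_le_one_of
    intro i hi l hl
    obtain ⟨hi1, hi2⟩ := Finset.mem_filter.1 hi
    obtain ⟨hl1, hl2⟩ := Finset.mem_filter.1 hl
    by_contra hne
    rcases hdisj i hi1 l hl1 hne with h | h
    · exact hl2 i hi1 h
    · exact hi2 l hl1 h
  -- the rest
  set R := I.filter (fun i => i ∉ X1 ∧ i ∉ X2 ∧ i ∉ X2' ∧ i ∉ X3 ∧ i ∉ X4) with hR
  have hcover : I ⊆ X1 ∪ X2 ∪ X2' ∪ X3 ∪ X4 ∪ R := by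
    intro i hi
    simp only [Finset.mem_union, hR, Finset.mem_filter, hi, true_and]
    tauto
  have hRI : ∀ i ∈ R, i ∈ I := fun i hi => (Finset.mem_filter.1 hi).1
  -- sources
  have hsrc : ∀ i ∈ R, ∃ (b : Bool) (e : ZMod n) (tq ts : ℝ),
      (∃ T, Shot S p B k e T b tq ts (pt A B (u i)) (pt A B (v i)) B) ∨
      Spec S e b tq ts (pt A B (u i)) (pt A B (v i)) := by
    intro i hi
    obtain ⟨hiI, hn1, hn2, hn2', hn3, hn4⟩ := Finset.mem_filter.1 hi
    have hu : 0 < u i := by
      rcases (hu0 i hiI).eq_or_lt with h | h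
      · exact absurd (Finset.mem_filter.2 ⟨hiI, h.symm⟩) hn2
      · exact h
    have hv : v i < 1 := by
      rcases (hv1 i hiI).lt_or_eq with h | h
      · exact h
      · exact absurd (Finset.mem_filter.2 ⟨hiI, h⟩) hn2'
    have hlt := huv i hiI
    obtain ⟨hreg, hp | ⟨r0, hr1, ⟨e, hr2⟩, hr3⟩⟩ := hlit i hiI
    · exact absurd (Finset.mem_filter.2 ⟨hiI, hp⟩) hn3
    have hr2' := hr2
    rw [S.mem_oedge_iff] at hr2
    obtain ⟨t0, h00, h01, hr0e⟩ := hr2
    -- the source is not collinear
    have hnc : cr (B - A) (r0 - A) ≠ 0 := by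
      intro h0
      obtain ⟨ρ, hρ⟩ := parallel_of_cr hBA h0
      have hrρ : r0 = pt A B ρ := by
        have : r0 = A + (r0 - A) := by ring
        rw [this, hρ]; rfl
      -- a source strictly inside the segment is impossible
      have hinside : ¬ (0 < ρ ∧ ρ < 1) := by
        rintro ⟨g0, g1⟩
        have hc := S.oedge_cross hr2' (by rw [hrρ]; exact pt_mem_openSegment g0 g1) hseg
        have hs := S.svis_side hr2' (svis_symm hr3)
        rw [hrρ, pt_sub_pt, cr_smul_right, hc] at hs
        simp at hs
      rcases lt_trichotomy ρ (u i) with h | h | h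
      · -- then there is a dark point before
        have hnot : ∃ l ∈ I, v l < u i := by
          by_contra hcon
          push Not at hcon
          exact hn4 (Finset.mem_filter.2 ⟨hiI, fun l hl => not_lt.2 (hcon l hl)⟩)
        obtain ⟨l, hl, hlv⟩ := hnot
        rcases lt_or_ge ρ (v l) with h2 | h2
        · apply hdark l hl
          refine ⟨hseg (pt_mem_segment (by linarith [hu0 l hl, huv l hl]) (hv1 l hl)),
            Or.inr ⟨r0, hr1, ⟨e, hr2'⟩, ?_⟩⟩
          rw [hrρ] at hr3 ⊢
          exact hcol ρ (v l) (u i) hr3 (Or.inl ⟨h2, hlv⟩)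
        · apply hinside
          constructor
          · have := huv l hl
            have := hu0 l hl
            linarith
          · linarith
      · apply hinside
        constructor <;> linarith
      · rcases lt_or_ge (v i) ρ with h2 | h2
        · apply hdark i hiI
          refine ⟨hseg (pt_mem_segment (by linarith) (hv1 i hiI)),
            Or.inr ⟨r0, hr1, ⟨e, hr2'⟩, ?_⟩⟩
          rw [hrρ] at hr3 ⊢
          exact hcol ρ (v i) (u i) hr3 (Or.inr ⟨hlt, h2⟩)
        · apply hinside
          constructor <;> linarith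
    obtain ⟨b, hb⟩ := exists_sg hnc
    have hzy : pt A B (v i) - pt A B (u i) = (v i - u i) • (B - A) := pt_sub_pt _ _ _ _
    have hvu : 0 < v i - u i := by linarith
    have hline0 : ∀ t x, cr (B - A) (x - pt A B t) = cr (B - A) (x - A) := by
      intro t x
      unfold cr
      simp only [pt_re, pt_im, Complex.sub_re, Complex.sub_im]
      ring
    have hsegpar : ∀ w ∈ segment ℝ (pt A B (u i)) (pt A B (v i)), ∃ t, u i ≤ t ∧ t ≤ v i ∧
        w = pt A B t := by
      intro w hw
      rw [mem_segment_iff] at hw
      obtain ⟨r, k0, k1, rfl⟩ := hw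
      refine ⟨u i + r * (v i - u i), by nlinarith, by nlinarith, pt_pt_pt _ _ _ _ _⟩
    have habove : 0 < sg b * cr (pt A B (v i) - pt A B (u i)) (r0 - pt A B (u i)) := by
      rw [hzy, cr_smul_left, hline0]
      have : sg b * ((v i - u i) * cr (B - A) (r0 - A)) =
          (v i - u i) * (sg b * cr (B - A) (r0 - A)) := by ring
      rw [this]; positivity
    have hcr0 : cr (pt A B (v i) - pt A B (u i)) (B - pt A B (u i)) = 0 := by
      rw [hzy, cr_smul_left, hline0, cr_self, mul_zero]
    have tgt : Tgt S p B k b (pt A B (u i)) (pt A B (v i)) B := by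
      refine ⟨pt_seg_sub hseg hu.le (by linarith) (by linarith) hv.le, ?_, hdark i hiI, ?_, ?_,
        Or.inl rfl⟩
      · intro w hw
        obtain ⟨t, k0, k1, rfl⟩ := hsegpar w hw
        rcases S.seg_free hAB hseg hu hlt.le hv (by
          intro j t h1 h2 h3
          exact hn1 (Finset.mem_filter.2 ⟨hiI, j, t, h1, h2, h3⟩)) with h | ⟨j, hj, c, hc0, hc⟩
        · obtain ⟨r, hr, hb2⟩ := Metric.isOpen_iff.1 isOpen_interior _ (h t k0 k1)
          exact ⟨r, hr, fun y hy _ => hb2 hy⟩
        · have hs := S.svis_side (hj (u i) le_rfl hlt.le) hr3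
          have hfr := S.side_fr (hj t k0 k1)
          -- sign bookkeeping
          have hab2 := habove
          rw [hzy, hc, smul_smul, cr_smul_left] at hab2
          set κ := (v i - u i) * c with hκ
          have hκs : 0 < (sg b * S.side j) * κ := by
            have hss : S.side j * S.side j = 1 := by
              rcases S.side_pm j with h | h <;> rw [h] <;> norm_num
            have e1 : sg b * (κ * cr (S.dir j) (r0 - pt A B (u i))) =
                ((sg b * S.side j) * κ) * (S.side j * cr (S.dir j) (r0 - pt A B (u i))) := by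
              linear_combination (-(sg b * κ * cr (S.dir j) (r0 - pt A B (u i)))) * hss
            rw [e1] at hab2
            exact (mul_pos_iff_of_pos_right hs).1 hab2
          have h5 := fr_smul hfr hκs
          have e2 : sg b * S.side j * S.side j = sg b := by
            have hss : S.side j * S.side j = 1 := by
              rcases S.side_pm j with h | h <;> rw [h] <;> norm_num
            rw [mul_assoc, hss, mul_one]
          rw [e2] at h5
          rw [hzy, hc, smul_smul]
          exact h5
      · rw [hcr0, mul_zero]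
      · intro w hw
        obtain ⟨t, k0, k1, rfl⟩ := hsegpar w hw
        constructor
        · have := pt_seg_sub hseg (t := t) (t' := 1) (by linarith) (by linarith) zero_le_one le_rfl
          rwa [pt_one] at this
        · intro h
          have : pt A B t = pt A B 1 := by rw [h, pt_one]
          have := pt_inj hAB this
          linarith
    have hk : 0 < sg b * cr (pt A B (u i) - r0) (B - r0) := by
      have e1 : sg b * cr (pt A B (u i) - r0) (B - r0) =
          (1 - u i) * (sg b * cr (B - A) (r0 - A)) := by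
        unfold cr
        simp only [pt_re, pt_im, Complex.sub_re, Complex.sub_im]
        ring
      rw [e1]
      exact mul_pos (by linarith) hb
    have hj : JoinedIn S.region (pt A B (u i)) B := by
      apply JoinedIn.of_segment
      have := pt_seg_sub hseg (t := u i) (t' := 1) hu.le (by linarith) zero_le_one le_rfl
      rwa [pt_one] at this
    rw [hr0e] at hr1 hr3 habove hk
    obtain ⟨tq, ts, h⟩ := S.make_shot tgt (Or.inl hcr0) h00 h01 hr1 hr3 habove hk hj
    exact ⟨b, e, tq, ts, h⟩
  choose! b e tq ts hres using hsrc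
  have hzy : ∀ i, pt A B (v i) - pt A B (u i) = (v i - u i) • (B - A) := fun i => pt_sub_pt _ _ _ _
  -- special sources
  set Q : α → Prop := fun i => Spec S (e i) (b i) (tq i) (ts i) (pt A B (u i)) (pt A B (v i))
    with hQ
  set R1 := R.filter Q with hR1
  set R2 := R.filter (fun i => ¬ Q i) with hR2
  have hRc : R.card = R1.card + R2.card := by
    rw [hR1, hR2, Finset.card_filter_add_card_filter_not]
  -- equal shadow ends
  have hends : ∀ i ∈ R, ∀ l ∈ R, i ≠ l → 0 < ts l → ts l ≤ 1 → ∀ r : ℝ, 0 < r → r ≤ 1 →
      u i + r * (v i - u i) ≠ u l + ts l * (v l - u l) := by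
    intro i hi l hl hil hl0 hl1 r hr0 hr1 heq
    have g1 := huv i (hRI i hi)
    have g2 := huv l (hRI l hl)
    apply hil
    apply hcommon i (hRI i hi) l (hRI l hl) (u i + r * (v i - u i))
    · nlinarith
    · nlinarith
    · rw [heq]; nlinarith
    · rw [heq]; nlinarith
  have hR1c : R1.card ≤ n := by
    have hinj : Set.InjOn e R1 := by
      intro i hi l hl hil
      by_contra hne
      obtain ⟨hi1, hi2⟩ := Finset.mem_filter.1 hi
      obtain ⟨hl1, hl2⟩ := Finset.mem_filter.1 hl
      have s1 : Spec S (e i) (b i) (tq i) (ts i) (pt A B (u i)) (pt A B (v i)) := hi2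
      have s2 : Spec S (e l) (b l) (tq l) (ts l) (pt A B (u l)) (pt A B (v l)) := hl2
      rw [← hil] at s2
      have o1 := s1.onl
      have o2 := s2.onl
      rw [pt_pt_pt] at o1 o2
      unfold SimplePolygon.onLine at o1 o2
      have hpar : ((u l + ts l * (v l - u l)) - (u i + ts i * (v i - u i))) *
          cr (S.dir (e i)) (B - A) = 0 := by
        rw [← cr_smul_right, ← pt_sub_pt]
        have : pt A B (u l + ts l * (v l - u l)) - pt A B (u i + ts i * (v i - u i)) =
            (pt A B (u l + ts l * (v l - u l)) - S.v (e i)) -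
            (pt A B (u i + ts i * (v i - u i)) - S.v (e i)) := by ring
        rw [this, cr_sub_right, o1, o2, sub_zero]
      rcases mul_eq_zero.1 hpar with h | h
      · exact hends i hi1 l hl1 hne s2.ts0 s2.ts1 (ts i) s1.ts0 s1.ts1 (by linarith)
      · -- the line of the edge is the line AB
        have hab := s1.above
        rw [hzy, cr_smul_left] at hab
        obtain ⟨c, hc⟩ := parallel_of_cr (S.dir_ne (e i)) h
        have e3 : cr (B - A) (S.ep (e i) (tq i) - pt A B (u i)) = 0 := by
          have h6 : S.ep (e i) (tq i) - pt A B (u i) =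
              (S.ep (e i) (tq i) - S.v (e i)) -
              (pt A B (u i + ts i * (v i - u i)) - S.v (e i)) +
              (ts i * (v i - u i)) • (B - A) := by
            have h7 := pt_sub_pt A B (u i) (u i + ts i * (v i - u i))
            rw [add_sub_cancel_left] at h7
            rw [← h7]; ring
          rw [h6, cr_add_right, cr_sub_right, cr_smul_right, cr_self, S.ep_sub_v, hc,
            cr_smul_left, cr_smul_right, cr_self, cr_smul_left, o1]
          ring
        rw [e3] at hab
        simp at hab
    have := Finset.card_le_card_of_injOn e (t := Finset.univ) (fun _ _ => Finset.mem_univ _) hinj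
    rwa [Finset.card_univ, ZMod.card] at this
  have hshot : ∀ i ∈ R2, ∃ T, Shot S p B k (e i) T (b i) (tq i) (ts i) (pt A B (u i))
      (pt A B (v i)) B := by
    intro i hi
    obtain ⟨hi1, hi2⟩ := Finset.mem_filter.1 hi
    rcases hres i hi1 with h | h
    · exact h
    · exact absurd h hi2
  choose! T hshot using hshot
  have hR2c : R2.card ≤ 20 * n * k + 4 * n := by
    refine S.shots_count (N := 20 * n * k) R2 e T b tq ts (fun i => pt A B (u i))
      (fun i => pt A B (v i)) (fun _ => B) hshot ?_ (fun F hF => S.main_count p B k F hF)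
    intro i hi l hl hil f1 f2 f3 w hw hwk
    have hi1 := (Finset.mem_filter.1 hi).1
    have hl1 := (Finset.mem_filter.1 hl).1
    have s1 := hshot i hi
    have s2 := hshot l hl
    have hk2 := Shot.ys_kap S s2
    -- both points on the ray and on the line AB
    obtain ⟨r, r0, r1, hwe⟩ : ∃ r, ts i ≤ r ∧ r ≤ 1 ∧ w = pt A B (u i + r * (v i - u i)) := by
      rw [mem_segment_iff] at hw
      obtain ⟨a, a0, a1, hwa⟩ := hw
      refine ⟨ts i + a * (1 - ts i), by nlinarith [s1.ts1], by nlinarith [s1.ts1], ?_⟩
      rw [hwa, pt_pt_pt, pt_pt_pt]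
      congr 1
      ring
    have hr0 : 0 < r := lt_of_lt_of_le s1.ts0 r0
    rw [pt_pt_pt] at hk2
    obtain ⟨a, a1, hwa, -⟩ := hwk
    obtain ⟨a', a1', hka, -⟩ := hk2
    have htr := Shot.transversal S s2
    rw [hzy, cr_smul_left] at htr
    have htr' : cr (B - A) (S.v (T l) - S.ep (e l) (tq l)) ≠ 0 := by
      intro h; apply htr; rw [h, mul_zero]
    have haa : a = a' := by
      have e1 : cr (B - A) (pt (S.ep (e l) (tq l)) (S.v (T l)) a - A) = 0 := by
        rw [← hwa, hwe]
        unfold cr
        simp only [pt_re, pt_im, Complex.sub_re, Complex.sub_im]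
        ring
      have e2 : cr (B - A) (pt (S.ep (e l) (tq l)) (S.v (T l)) a' - A) = 0 := by
        rw [← hka]
        unfold cr
        simp only [pt_re, pt_im, Complex.sub_re, Complex.sub_im]
        ring
      have e3 : (a - a') * cr (B - A) (S.v (T l) - S.ep (e l) (tq l)) = 0 := by
        have e4 : (a - a') * cr (B - A) (S.v (T l) - S.ep (e l) (tq l)) =
            cr (B - A) (pt (S.ep (e l) (tq l)) (S.v (T l)) a - A) -
            cr (B - A) (pt (S.ep (e l) (tq l)) (S.v (T l)) a' - A) := by
          unfold cr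
          simp only [pt_re, pt_im, Complex.sub_re, Complex.sub_im]
          ring
        rw [e4, e1, e2, sub_zero]
      have := (mul_eq_zero.1 e3).resolve_right htr'
      linarith
    rw [haa, ← hka, hwe] at hwa
    exact hends i hi1 l hl1 hil s2.ts0 s2.ts1 r hr0 r1 (pt_inj hAB hwa)
  have hfin : I.card ≤ X1.card + X2.card + X2'.card + X3.card + X4.card + R.card := by
    refine (Finset.card_le_card hcover).trans ?_
    refine (Finset.card_union_le _ _).trans ?_
    gcongr
    refine (Finset.card_union_le _ _).trans ?_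
    gcongr
    refine (Finset.card_union_le _ _).trans ?_
    gcongr
    refine (Finset.card_union_le _ _).trans ?_
    gcongr
    exact Finset.card_union_le _ _
  have h3 := S.three_le
  have e1 : 40 * n * (k + 1) = 40 * n * k + 40 * n := by ring
  rw [e1]
  have e2 : 20 * n * k ≤ 40 * n * k := by nlinarith
  omega

end Run7.h395
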