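import Pool.Agent.Run7.h395.Topo

/-!
# Filled triangles and the basic separation lemma
-/

open Set Topology Filter Complex

noncomputable section

namespace Run7.h395

/-- the standing topological assumptions on the closed region `P` -/
structure Reg (P : Set ℂ) : Prop where
  closed : IsClosed P
  bdd : Bornology.IsBounded P
  cpc : IsPreconnected Pᶜ

/-- filling of triangles -/
theorem fill {P : Set ℂ} (h : Reg P) {a b c : ℂ} (hD : ori a b c ≠ 0)
    (hab : segment ℝ a b ⊆ P) (hbc : segment ℝ b c ⊆ P) (hac : segment ℝ a c ⊆ P)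
    {α β : ℝ} (hα : 0 ≤ α) (hβ : 0 ≤ β) (hαβ : α + β ≤ 1) :
    a + α • (b - a) + β • (c - a) ∈ P := by
  have hD' : cr (b - a) (c - a) ≠ 0 := hD
  set al : ℂ → ℝ := fun x => cr (x - a) (c - a) / cr (b - a) (c - a) with hal
  set be : ℂ → ℝ := fun x => cr (b - a) (x - a) / cr (b - a) (c - a) with hbe
  have halc : Continuous al :=
    (continuous_cr (continuous_id.sub continuous_const) continuous_const).div_const _
  have hbec : Continuous be :=
    (continuous_cr continuous_const (continuous_id.sub continuous_const)).div_const _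
  have hdec : ∀ x, x = a + al x • (b - a) + be x • (c - a) := by
    intro x
    have := decomp hD' (x - a)
    rw [add_assoc, ← this]
    ring
  set U1 : Set ℂ := {x | 0 < al x ∧ 0 < be x ∧ al x + be x < 1} with hU1
  set U2 : Set ℂ := {x | al x < 0 ∨ be x < 0 ∨ 1 < al x + be x} with hU2
  have hU1o : IsOpen U1 := by
    have e : U1 = {x | 0 < al x} ∩ ({x | 0 < be x} ∩ {x | al x + be x < 1}) := rfl
    rw [e]
    exact (isOpen_lt continuous_const halc).inter
      ((isOpen_lt continuous_const hbec).inter (isOpen_lt (halc.add hbec) continuous_const))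
  have hU2o : IsOpen U2 := by
    have e : U2 = {x | al x < 0} ∪ ({x | be x < 0} ∪ {x | 1 < al x + be x}) := rfl
    rw [e]
    exact (isOpen_lt halc continuous_const).union
      ((isOpen_lt hbec continuous_const).union (isOpen_lt continuous_const (halc.add hbec)))
  have hdisj : Disjoint U1 U2 := by
    rw [Set.disjoint_left]
    rintro x ⟨h1, h2, h3⟩ (h4 | h4 | h4) <;> linarith
  have hcov : Pᶜ ⊆ U1 ∪ U2 := by
    intro x hx
    by_contra hcon
    rw [Set.mem_union, not_or] at hcon
    obtain ⟨hn1, hn2⟩ := hcon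
    simp only [hU2, Set.mem_ofPred_eq, not_or, not_lt] at hn2
    obtain ⟨g1, g2, g3⟩ := hn2
    simp only [hU1, Set.mem_ofPred_eq, not_and, not_lt] at hn1
    apply hx
    rcases g1.eq_or_lt with e1 | e1
    · apply hac
      rw [mem_segment_iff]
      refine ⟨be x, g2, by linarith, ?_⟩
      conv_lhs => rw [hdec x, ← e1]
      simp [pt]
    · rcases g2.eq_or_lt with e2 | e2
      · apply hab
        rw [mem_segment_iff]
        refine ⟨al x, g1, by linarith, ?_⟩
        conv_lhs => rw [hdec x, ← e2]
        simp [pt]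
      · have e3 := hn1 e1 e2
        have e4 : al x + be x = 1 := le_antisymm g3 e3
        apply hbc
        rw [mem_segment_iff]
        refine ⟨be x, g2, by linarith, ?_⟩
        conv_lhs => rw [hdec x, show al x = 1 - be x by linarith]
        unfold pt
        simp only [Complex.real_smul]
        push_cast
        ring
  rcases h.cpc.subset_or_subset hU1o hU2o hdisj hcov with hsub | hsub
  · exfalso
    have hb1 : Bornology.IsBounded U1 := by
      rw [isBounded_iff_forall_norm_le]
      refine ⟨‖a‖ + ‖b - a‖ + ‖c - a‖, ?_⟩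
      rintro x ⟨h1, h2, h3⟩
      rw [hdec x]
      refine (norm_add_le _ _).trans ?_
      refine add_le_add ((norm_add_le _ _).trans (add_le_add le_rfl ?_)) ?_
      · rw [norm_smul, Real.norm_of_nonneg h1.le]
        have : al x ≤ 1 := by linarith
        nlinarith [norm_nonneg (b - a)]
      · rw [norm_smul, Real.norm_of_nonneg h2.le]
        have : be x ≤ 1 := by linarith
        nlinarith [norm_nonneg (c - a)]
    have hb2 : Bornology.IsBounded (Set.univ : Set ℂ) := by
      rw [← Set.union_compl_self P]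
      exact h.bdd.union (hb1.subset hsub)
    exact NormedSpace.unbounded_univ ℝ ℂ hb2
  · by_contra hcon
    have hmem := hsub hcon
    have e1 : al (a + α • (b - a) + β • (c - a)) = α := by
      simp only [hal]
      rw [div_eq_iff hD']
      unfold cr
      simp only [Complex.sub_re, Complex.add_re, Complex.sub_im, Complex.add_im, Complex.smul_re,
        Complex.smul_im, smul_eq_mul]
      ring
    have e2 : be (a + α • (b - a) + β • (c - a)) = β := by
      simp only [hbe]
      rw [div_eq_iff hD']
      unfold cr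
      simp only [Complex.sub_re, Complex.add_re, Complex.sub_im, Complex.add_im, Complex.smul_re,
        Complex.smul_im, smul_eq_mul]
      ring
    simp only [hU2, Set.mem_ofPred_eq] at hmem
    rw [e1, e2] at hmem
    rcases hmem with h1 | h1 | h1 <;> linarith

/-- the open triangle is contained in the interior -/
theorem fill_int {P : Set ℂ} (h : Reg P) {a b c : ℂ} (hD : ori a b c ≠ 0)
    (hab : segment ℝ a b ⊆ P) (hbc : segment ℝ b c ⊆ P) (hac : segment ℝ a c ⊆ P)
    {α β : ℝ} (hα : 0 < α) (hβ : 0 < β) (hαβ : α + β < 1) :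
    a + α • (b - a) + β • (c - a) ∈ interior P := by
  have hD' : cr (b - a) (c - a) ≠ 0 := hD
  set al : ℂ → ℝ := fun x => cr (x - a) (c - a) / cr (b - a) (c - a) with hal
  set be : ℂ → ℝ := fun x => cr (b - a) (x - a) / cr (b - a) (c - a) with hbe
  have halc : Continuous al :=
    (continuous_cr (continuous_id.sub continuous_const) continuous_const).div_const _
  have hbec : Continuous be :=
    (continuous_cr continuous_const (continuous_id.sub continuous_const)).div_const _
  have hdec : ∀ x, x = a + al x • (b - a) + be x • (c - a) := by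
    intro x
    have := decomp hD' (x - a)
    rw [add_assoc, ← this]
    ring
  set U1 : Set ℂ := {x | 0 < al x ∧ 0 < be x ∧ al x + be x < 1} with hU1
  have hU1o : IsOpen U1 := by
    have e : U1 = {x | 0 < al x} ∩ ({x | 0 < be x} ∩ {x | al x + be x < 1}) := rfl
    rw [e]
    exact (isOpen_lt continuous_const halc).inter
      ((isOpen_lt continuous_const hbec).inter (isOpen_lt (halc.add hbec) continuous_const))
  have hsub : U1 ⊆ P := by
    rintro x ⟨h1, h2, h3⟩
    rw [hdec x]
    exact fill h hD hab hbc hac h1.le h2.le h3.le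
  apply interior_maximal hsub hU1o
  have e1 : al (a + α • (b - a) + β • (c - a)) = α := by
    simp only [hal]
    rw [div_eq_iff hD']
    unfold cr
    simp only [Complex.sub_re, Complex.add_re, Complex.sub_im, Complex.add_im, Complex.smul_re,
      Complex.smul_im, smul_eq_mul]
    ring
  have e2 : be (a + α • (b - a) + β • (c - a)) = β := by
    simp only [hbe]
    rw [div_eq_iff hD']
    unfold cr
    simp only [Complex.sub_re, Complex.add_re, Complex.sub_im, Complex.add_im, Complex.smul_re,
      Complex.smul_im, smul_eq_mul]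
    ring
  simp only [hU1, Set.mem_ofPred_eq]
  rw [e1, e2]
  exact ⟨hα, hβ, hαβ⟩

lemma pt_pt (a b : ℂ) (s t : ℝ) : pt a (pt a b t) s = pt a b (s * t) := by
  unfold pt
  simp only [Complex.real_smul]
  push_cast
  ring

lemma seg_pt_iff {P : Set ℂ} {q T : ℂ} {t : ℝ} (ht : 0 ≤ t) :
    segment ℝ q (pt q T t) ⊆ P ↔ ∀ r, 0 ≤ r → r ≤ t → pt q T r ∈ P := by
  constructor
  · intro h r h0 h1
    apply h
    rw [mem_segment_iff]
    rcases ht.eq_or_lt with e | e
    · refine ⟨0, le_rfl, zero_le_one, ?_⟩
      rw [show r = 0 by linarith]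
      simp
    · refine ⟨r / t, by positivity, by rw [div_le_one e]; exact h1, ?_⟩
      rw [pt_pt, div_mul_cancel₀ _ e.ne']
  · intro h x hx
    rw [mem_segment_iff] at hx
    obtain ⟨s, h0, h1, rfl⟩ := hx
    rw [pt_pt]
    apply h
    · positivity
    · nlinarith

/-- the part beyond `T` of the ray from `q` through `T`, as far as it is visible from `q` -/
def kap (P : Set ℂ) (q T : ℂ) : Set ℂ :=
  {z | ∃ t : ℝ, 1 ≤ t ∧ z = pt q T t ∧ segment ℝ q z ⊆ P}

/-- there are exterior points arbitrarily near `T` strictly on side `s` of the direction `w` -/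
def ExtAt (P : Set ℂ) (T w : ℂ) (s : ℝ) : Prop :=
  T ∈ closure (Pᶜ ∩ {x | 0 < s * cr w (x - T)})

lemma kap_sub {P : Set ℂ} {q T : ℂ} : kap P q T ⊆ P := by
  rintro z ⟨t, -, -, h⟩
  exact h (right_mem_segment ℝ q z)

lemma kap_struct {P : Set ℂ} (h : Reg P) {q T : ℂ} (hqT : q ≠ T) (hseg : segment ℝ q T ⊆ P) :
    ∃ tm : ℝ, 1 ≤ tm ∧ segment ℝ q (pt q T tm) ⊆ P ∧
      kap P q T = segment ℝ T (pt q T tm) ∧
      (∀ t, 1 ≤ t → (segment ℝ q (pt q T t) ⊆ P ↔ t ≤ tm)) ∧
      (∀ η > 0, ∃ t, tm < t ∧ t < tm + η ∧ pt q T t ∉ P) := by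
  set S : Set ℝ := {t | 1 ≤ t ∧ segment ℝ q (pt q T t) ⊆ P} with hS
  have h1S : (1 : ℝ) ∈ S := ⟨le_rfl, by simpa using hseg⟩
  obtain ⟨M, hM⟩ := (isBounded_iff_forall_norm_le).1 h.bdd
  have hTq : 0 < ‖T - q‖ := by
    rw [norm_pos_iff, sub_ne_zero]
    exact hqT.symm
  have hbdd : BddAbove S := by
    refine ⟨(M + ‖q‖) / ‖T - q‖, ?_⟩
    rintro t ⟨ht1, ht2⟩
    rw [le_div_iff₀ hTq]
    have h2 := hM _ (ht2 (right_mem_segment ℝ _ _))
    have h3 : ‖t • (T - q)‖ ≤ ‖pt q T t‖ + ‖q‖ := by
      have : t • (T - q) = pt q T t - q := by simp [pt]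
      rw [this]
      exact norm_sub_le _ _
    rw [norm_smul, Real.norm_of_nonneg (by linarith)] at h3
    linarith
  set tm := sSup S with htm
  have h1tm : 1 ≤ tm := le_csSup hbdd h1S
  have hlt : ∀ r, 0 ≤ r → r < tm → pt q T r ∈ P := by
    intro r h0 hr
    obtain ⟨t, ht, hrt⟩ := exists_lt_of_lt_csSup ⟨1, h1S⟩ hr
    exact (seg_pt_iff (by linarith [ht.1])).1 ht.2 r h0 hrt.le
  have hle : ∀ r, 0 ≤ r → r ≤ tm → pt q T r ∈ P := by
    intro r h0 hr
    rcases hr.eq_or_lt with e | e
    · rw [e]
      have hcl : tm ∈ closure (Ioo 0 tm) := by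
        rw [closure_Ioo (by linarith)]
        exact ⟨by linarith, le_rfl⟩
      have himg : pt q T tm ∈ closure (pt q T '' Ioo 0 tm) :=
        image_closure_subset_closure_image (continuous_pt q T) ⟨tm, hcl, rfl⟩
      refine h.closed.closure_subset_iff.2 ?_ himg
      rintro _ ⟨t, ⟨h1, h2⟩, rfl⟩
      exact hlt t h1.le h2
    · exact hlt r h0 e
  have hsegm : segment ℝ q (pt q T tm) ⊆ P := (seg_pt_iff (by linarith)).2 hle
  have hiff : ∀ t, 1 ≤ t → (segment ℝ q (pt q T t) ⊆ P ↔ t ≤ tm) := by
    intro t ht
    constructor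
    · intro h2
      exact le_csSup hbdd ⟨ht, h2⟩
    · intro h2
      rw [seg_pt_iff (by linarith)]
      intro r h0 hr
      exact hle r h0 (hr.trans h2)
  refine ⟨tm, h1tm, hsegm, ?_, hiff, ?_⟩
  · ext z
    constructor
    · rintro ⟨t, ht1, rfl, ht2⟩
      have h2 := (hiff t ht1).1 ht2
      rw [mem_segment_iff]
      rcases h1tm.eq_or_lt with e | e
      · refine ⟨0, le_rfl, zero_le_one, ?_⟩
        rw [show t = 1 by linarith]
        simp
      · refine ⟨(t - 1) / (tm - 1), div_nonneg (by linarith) (by linarith),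
          by rw [div_le_one (by linarith)]; linarith, ?_⟩
        have h3 : (tm - 1) ≠ 0 := by linarith
        apply Complex.ext
        · simp only [pt_re]
          field_simp
          ring
        · simp only [pt_im]
          field_simp
          ring
    · intro hz
      rw [mem_segment_iff] at hz
      obtain ⟨s, h0, h1, rfl⟩ := hz
      have e : pt T (pt q T tm) s = pt q T (1 + s * (tm - 1)) := by
        apply Complex.ext
        · simp only [pt_re]; ring
        · simp only [pt_im]; ring
      refine ⟨1 + s * (tm - 1), by nlinarith, e, ?_⟩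
      rw [e, hiff _ (by nlinarith)]
      nlinarith
  · intro η hη
    by_contra hcon
    push Not at hcon
    have h2 : segment ℝ q (pt q T (tm + η / 2)) ⊆ P := by
      rw [seg_pt_iff (by linarith)]
      intro r h0 hr
      rcases le_or_gt r tm with h3 | h3
      · exact hle r h0 h3
      · exact hcon r h3 (by linarith)
    have h3 := (hiff (tm + η / 2) (by linarith)).1 h2
    linarith

end Run7.h395
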