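import Pool.Agent.Run7.h395.Prop

/-!
# Shots: a lit source, its first blocker and the shadow on a target
-/

open Set Topology Filter Complex

noncomputable section

namespace Run7.h395

variable {n : ℕ} (S : SimplePolygon n)

/-- data of a target segment `[y,z]` with dark end `z`, seen from side `b` -/
structure Tgt (p D : ℂ) (j : ℕ) (b : Bool) (y z T1 : ℂ) : Prop where
  yz : segment ℝ y z ⊆ S.region
  free : ∀ w ∈ segment ℝ y z, Fr S.region w (z - y) (sg b)
  dark : z ∉ S.lev p (j + 1)
  height : 0 ≤ sg b * cr (z - y) (T1 - y)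
  see : ∀ w ∈ segment ℝ y z, segment ℝ w T1 ⊆ S.region ∧ w ≠ T1
  sep : T1 = D ∨ ∃ m c, T1 = S.v m ∧ (∀ w ∈ segment ℝ y z, Win S.region D w (S.v m) (sg c)) ∧
    S.BackDark p (j + 1) m (sg c)

/-- a generic lit source on edge `e`, blocked by vertex `T`, whose shadow ends at `pt y z ts` -/
structure Shot (p D : ℂ) (j : ℕ) (e T : ZMod n) (b : Bool) (tq ts : ℝ) (y z T1 : ℂ) : Prop where
  tgt : Tgt S p D j b y z T1
  tq0 : 0 < tq
  tq1 : tq < 1
  lit : S.ep e tq ∈ S.lev p j
  gen : S.Generic e (S.ep e tq)
  ts0 : 0 < ts
  ts1 : ts ≤ 1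
  above : 0 < sg b * cr (z - y) (S.ep e tq - y)
  seg : segment ℝ (S.ep e tq) (pt y z ts) ⊆ S.region
  before : ∀ t', 0 ≤ t' → t' < ts → svis S.region (S.ep e tq) (pt y z t')
  block : S.v T ∈ openSegment ℝ (S.ep e tq) (pt y z ts)
  nonspec : ¬ S.onLine e (pt y z ts)
  side : 0 < sg b * cr (S.v T - S.ep e tq) (T1 - S.ep e tq)
  win : Win S.region D (S.ep e tq) (S.v T) (sg b)

lemma SimplePolygon.onLine_ep (e : ZMod n) (t : ℝ) : S.onLine e (S.ep e t) := by
  unfold SimplePolygon.onLine
  rw [S.ep_sub_v, cr_smul_right, cr_self, mul_zero]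

/-- the only frontier point on a generic grazing segment is the vertex -/
lemma SimplePolygon.clear {e T : ZMod n} {tq : ℝ} {w : ℂ}
    (hgen : S.Generic e (S.ep e tq)) (hseg : segment ℝ (S.ep e tq) w ⊆ S.region)
    (hT : S.v T ∈ openSegment ℝ (S.ep e tq) w) (hw : ¬ S.onLine e w) :
    ∀ x ∈ openSegment ℝ (S.ep e tq) w, x ≠ S.v T → x ∈ interior S.region := by
  intro x hx hxT
  by_contra hxi
  set q := S.ep e tq with hq
  have hqline : cr (S.dir e) (q - S.v e) = 0 := S.onLine_ep e tq
  have hxP := hseg (openSegment_subset_segment ℝ _ _ hx)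
  have hcrw : cr (S.dir e) (w - q) ≠ 0 := by
    intro h0
    apply hw
    unfold SimplePolygon.onLine
    have : w - S.v e = (w - q) + (q - S.v e) := by ring
    rw [this, cr_add_right, h0, hqline, add_zero]
  rw [mem_openSegment_iff] at hT hx
  obtain ⟨r, r0, r1, hTe⟩ := hT
  obtain ⟨u, u0, u1, hxe⟩ := hx
  rcases S.frontier_cases (mem_frontier_of hxP hxi) with ⟨c, hc⟩ | ⟨i, hi⟩
  · have h1 : cr (S.v c - S.v T) (q - S.v T) = 0 := by
      rw [← hc, hTe, hxe]
      unfold cr
      simp only [pt_re, pt_im, Complex.sub_re, Complex.sub_im]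
      ring
    rcases hgen T c h1 with h2 | ⟨h2, -⟩
    · apply hxT; rw [hc, h2]
    · unfold SimplePolygon.onLine at h2
      apply hcrw
      have e1 : cr (S.dir e) (S.v T - S.v e) =
          r * cr (S.dir e) (w - q) + cr (S.dir e) (q - S.v e) := by
        rw [hTe]
        unfold cr
        simp only [pt_re, pt_im, Complex.sub_re, Complex.sub_im]
        ring
      rw [e1, hqline, add_zero] at h2
      exact (mul_eq_zero.1 h2).resolve_left r0.ne'
  · have h3 := S.oedge_cross hi (by rw [mem_openSegment_iff]; exact ⟨u, u0, u1, hxe⟩) hseg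
    have h4 : cr (S.dir i) (x - S.v i) = 0 := by
      rw [S.mem_oedge_iff] at hi
      obtain ⟨t, -, -, rfl⟩ := hi
      exact S.onLine_ep i t
    have h5 : cr (S.dir i) (q - S.v i) = 0 := by
      have : q - S.v i = (x - S.v i) - u • (w - q) := by
        rw [hxe]; unfold pt; ring
      rw [this, cr_sub_right, h4, cr_smul_right, h3]; ring
    rcases hgen i (i + 1) h5 with h6 | ⟨h6, h7⟩
    · exact S.add_one_ne i h6.symm
    · unfold SimplePolygon.onLine at h6 h7
      have h8 : cr (S.dir e) (S.dir i) = 0 := by
        have : S.dir i = (S.v (i + 1) - S.v e) - (S.v i - S.v e) := by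
          unfold SimplePolygon.dir; ring
        rw [this, cr_sub_right, h6, h7, sub_zero]
      obtain ⟨c, hc⟩ := parallel_of_cr (S.dir_ne i) h3
      apply hcrw
      rw [hc, cr_smul_right, h8, mul_zero]

lemma ExtAt.smul {P : Set ℂ} {T w : ℂ} {s c : ℝ} (h : ExtAt P T w s) (hc : 0 < c) :
    ExtAt P T (c • w) s := by
  unfold ExtAt at *
  have : {x : ℂ | 0 < s * cr (c • w) (x - T)} = {x : ℂ | 0 < s * cr w (x - T)} := by
    ext x
    have e : s * cr (c • w) (x - T) = c * (s * cr w (x - T)) := by
      rw [cr_smul_left]; ring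
    constructor
    · intro h1
      have h1' : 0 < s * cr (c • w) (x - T) := h1
      rw [e] at h1'
      exact (mul_pos_iff_of_pos_left hc).1 h1'
    · intro h1
      change 0 < s * cr (c • w) (x - T)
      rw [e]
      exact mul_pos hc h1
  rw [this]
  exact h

lemma HalfD.smul {P : Set ℂ} {T w : ℂ} {s c : ℝ} (h : HalfD P T w s) (hc : 0 < c) :
    HalfD P T (c • w) s := by
  obtain ⟨r, hr, hb⟩ := h
  refine ⟨r, hr, ?_⟩
  intro x hx h1
  apply hb x hx
  have e : s * cr (c • w) (x - T) = c * (s * cr w (x - T)) := by
    rw [cr_smul_left]; ring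
  rw [e] at h1
  by_contra hcon
  push Not at hcon
  have := mul_pos hc hcon
  linarith

/-- two shots of the same label force darkness in between, one step earlier -/
theorem Shot.two {p D : ℂ} {j : ℕ} {e T : ZMod n} {b : Bool} {t1 ts t2 : ℝ} {y z T1 : ℂ}
    (sh : Shot S p D j e T b t1 ts y z T1) (h20 : 0 < t2) (h21 : t2 < 1)
    (w2 : Win S.region D (S.ep e t2) (S.v T) (sg b))
    (hord : 0 < sg b * cr (S.v T - S.ep e t2) (S.ep e t1 - S.ep e t2))
    (hB : ∀ w ∈ segment ℝ (pt y z ts) z, w ∉ kap S.region (S.ep e t2) (S.v T)) :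
    (∃ θ : ℝ, 0 < θ ∧ θ < 1 ∧ S.ep e (t1 + θ * (t2 - t1)) ∉ S.lev p j) ∧
      S.BackDark p j T (sg b) := by
  have w1 := sh.win
  have tgt := sh.tgt
  have hcl := S.reg.closed
  set P := S.region with hP
  set Tv := S.v T with hTv
  set q1 := S.ep e t1 with hq1
  set q2 := S.ep e t2 with hq2
  set s := sg b with hs
  have hs0 : s ≠ 0 := sg_ne b
  set ys := pt y z ts with hys
  have hysm : ys ∈ segment ℝ y z := pt_mem_segment sh.ts0.le sh.ts1
  have hzm : z ∈ segment ℝ y z := right_mem_segment ℝ _ _
  have hpm : ∀ r, 0 ≤ r → r ≤ 1 → pt ys z r ∈ segment ℝ y z := by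
    intro r h0 h1
    exact (convex_segment _ _).segment_subset hysm hzm (pt_mem_segment h0 h1)
  -- coordinates of T on the grazing segment
  obtain ⟨r, r0, r1, hTe⟩ := mem_openSegment_iff.1 sh.block
  have hTe : Tv = pt q1 ys r := hTe
  set μ := (1 - r) / r with hμ
  have hμ0 : 0 < μ := div_pos (by linarith) r0
  have hysT : ys - Tv = μ • (Tv - q1) := by
    have hr' : (r : ℂ) ≠ 0 := by exact_mod_cast r0.ne'
    rw [hTe, hμ]; unfold pt; simp only [Complex.real_smul]; push_cast; field_simp; ring
  have hTq1 : Tv - q1 = r • (ys - q1) := by rw [hTe, pt_sub_left]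
  have hclear := S.clear sh.gen sh.seg sh.block sh.nonspec
  have hTysvis : svis P Tv ys := by
    intro x hx
    rw [mem_openSegment_iff] at hx
    obtain ⟨u, u0, u1, hxe⟩ := hx
    have hx2 : x = pt q1 ys (r + u * (1 - r)) := by
      rw [hxe, hTe]
      apply Complex.ext
      · simp only [pt_re]; ring
      · simp only [pt_im]; ring
    apply hclear
    · rw [mem_openSegment_iff]
      exact ⟨r + u * (1 - r), by nlinarith, by nlinarith, hx2⟩
    · intro h0
      have h1 : u • (ys - Tv) = 0 := by rw [← pt_sub_left, ← hxe, h0, sub_self]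
      rcases smul_eq_zero.1 h1 with h2 | h2
      · linarith
      · have h3 : μ • (Tv - q1) = 0 := by rw [← hysT, h2]
        rcases smul_eq_zero.1 h3 with h4 | h4
        · linarith
        · exact w1.ne (sub_eq_zero.1 h4).symm
  -- heights
  have hHT : 0 < s * cr (z - y) (Tv - y) := by
    have e1 : s * cr (z - y) (Tv - y) = (1 - r) * (s * cr (z - y) (q1 - y)) := by
      rw [hTe, hys]
      unfold cr
      simp only [pt_re, pt_im, Complex.sub_re, Complex.sub_im]
      ring
    rw [e1]
    exact mul_pos (by linarith) sh.above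
  have hHw : ∀ r', cr (z - y) (pt ys z r' - y) = 0 := by
    intro r'
    rw [hys]
    unfold cr
    simp only [pt_re, pt_im, Complex.sub_re, Complex.sub_im]
    ring
  -- constants
  have hK : 0 < s * cr (Tv - q1) (Tv - q2) := by
    have e1 : s * cr (Tv - q1) (Tv - q2) = s * cr (Tv - q2) (q1 - q2) := by
      unfold cr; simp only [Complex.sub_re, Complex.sub_im]; ring
    rw [e1]; exact hord
  have hg0 : 0 < s * cr (Tv - q1) (z - y) := by
    have e1 : s * cr (Tv - q1) (z - y) = r * (s * cr (z - y) (q1 - y)) := by
      rw [hTq1, hys]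
      unfold cr
      simp only [pt_re, pt_im, Complex.sub_re, Complex.sub_im, Complex.smul_re, Complex.smul_im,
        smul_eq_mul]
      ring
    rw [e1]
    exact mul_pos r0 sh.above
  have hg : ∀ r', s * cr (Tv - q1) (pt ys z r' - Tv) =
      r' * (1 - ts) * (s * cr (Tv - q1) (z - y)) := by
    intro r'
    have e1 : s * cr (Tv - q1) (pt ys z r' - Tv) =
        s * cr (Tv - q1) (ys - Tv) + r' * (1 - ts) * (s * cr (Tv - q1) (z - y)) := by
      rw [hys]
      unfold cr
      simp only [pt_re, pt_im, Complex.sub_re, Complex.sub_im]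
      ring
    rw [e1, hysT, cr_smul_right, cr_self]; ring
  have hfys : s * cr (Tv - q2) (ys - Tv) < 0 := by
    rw [hysT, cr_smul_right]
    have e1 : s * (μ * cr (Tv - q2) (Tv - q1)) = - (μ * (s * cr (Tv - q1) (Tv - q2))) := by
      rw [cr_swap (Tv - q2) (Tv - q1)]; ring
    rw [e1]
    have := mul_pos hμ0 hK
    linarith
  have hfaff : ∀ r', s * cr (Tv - q2) (pt ys z r' - Tv) =
      (1 - r') * (s * cr (Tv - q2) (ys - Tv)) + r' * (s * cr (Tv - q2) (z - Tv)) := by
    intro r'
    unfold cr
    simp only [pt_re, pt_im, Complex.sub_re, Complex.sub_im]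
    ring
  -- the wedge
  have hwedge : ∀ r', 0 ≤ r' → r' ≤ 1 → (∀ r'', 0 ≤ r'' → r'' ≤ r' →
      segment ℝ Tv (pt ys z r'') ⊆ P) → s * cr (Tv - q2) (pt ys z r' - Tv) < 0 := by
    intro r' h0 h1 hvisall
    by_contra hcon
    push Not at hcon
    set A := s * cr (Tv - q2) (ys - Tv) with hA
    set B := s * cr (Tv - q2) (z - Tv) with hB'
    rw [hfaff r'] at hcon
    have hBA : 0 < B - A := by
      by_contra hc2
      push Not at hc2
      have : r' * (B - A) ≤ 0 := mul_nonpos_of_nonneg_of_nonpos h0 hc2
      nlinarith
    set ρ := -A / (B - A) with hρ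
    have hρ0 : 0 < ρ := div_pos (by linarith) hBA
    have hρr : ρ ≤ r' := by
      rw [hρ, div_le_iff₀ hBA]; nlinarith
    have hzero : s * cr (Tv - q2) (pt ys z ρ - Tv) = 0 := by
      rw [hfaff ρ, hρ]; field_simp; ring
    have hz2 := (mul_eq_zero.1 hzero).resolve_left hs0
    have hTq2 : Tv - q2 ≠ 0 := sub_ne_zero.2 w2.ne.symm
    obtain ⟨lam, hlam⟩ := parallel_of_cr hTq2 hz2
    have hlam0 : 0 ≤ lam := by
      have h5 := hg ρ
      rw [hlam, cr_smul_right] at h5
      have h6 : 0 ≤ ρ * (1 - ts) * (s * cr (Tv - q1) (z - y)) := by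
        have := sh.ts1
        have h7 : 0 ≤ 1 - ts := by linarith
        positivity
      rw [← h5] at h6
      have h8 : s * (lam * cr (Tv - q1) (Tv - q2)) = lam * (s * cr (Tv - q1) (Tv - q2)) := by ring
      rw [h8] at h6
      exact nonneg_of_mul_nonneg_left h6 hK
    apply hB (pt ys z ρ) (pt_mem_segment hρ0.le (hρr.trans h1))
    refine ⟨1 + lam, by linarith, ?_, ?_⟩
    · have : pt ys z ρ = Tv + (pt ys z ρ - Tv) := by ring
      rw [this, hlam]
      unfold pt; simp only [Complex.real_smul]; push_cast; ring
    · have e1 : pt ys z ρ = pt q2 Tv (1 + lam) := by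
        have : pt ys z ρ = Tv + (pt ys z ρ - Tv) := by ring
        rw [this, hlam]
        unfold pt; simp only [Complex.real_smul]; push_cast; ring
      rw [e1, seg_pt_iff (by linarith)]
      intro r3 k0 k1
      rcases le_or_gt r3 1 with h3 | h3
      · exact w2.seg (pt_mem_segment k0 h3)
      · have hlam1 : 0 < lam := by linarith
        apply hvisall ρ hρ0.le hρr
        rw [mem_segment_iff]
        refine ⟨(r3 - 1) / lam, div_nonneg (by linarith) hlam0,
          by rw [div_le_one hlam1]; linarith, ?_⟩
        have hl' : (lam : ℂ) ≠ 0 := by exact_mod_cast hlam1.ne'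
        rw [e1]
        unfold pt; simp only [Complex.real_smul]; push_cast; field_simp; ring
  by_cases hvz : svis P Tv z
  · -- the dark end itself is the witness
    have hall : ∀ r', 0 ≤ r' → r' ≤ 1 → segment ℝ Tv (pt ys z r') ⊆ P := by
      intro r' h0 h1
      rcases sh.ts1.eq_or_lt with e1 | e1
      · have : ys = z := by rw [hys, e1, pt_one]
        have h2 : pt ys z r' = z := by rw [this]; simp [pt]
        rw [h2]
        exact seg_of_svis hcl hvz
      · apply seg_of_tri S.reg (a := Tv) (b := ys) (c := z)
        · intro h2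
          have e2 : s * ori Tv ys z = μ * (s * cr (Tv - q1) (pt ys z 1 - Tv)) := by
            rw [pt_one]
            unfold ori
            rw [hysT, cr_smul_left]
            ring
          rw [h2, hg 1] at e2
          have : 0 < μ * (1 * (1 - ts) * (s * cr (Tv - q1) (z - y))) := by
            have : 0 < 1 - ts := by linarith
            positivity
          linarith
        · exact seg_of_svis hcl hTysvis
        · refine subset_trans ?_ tgt.yz
          exact (convex_segment _ _).segment_subset hysm hzm
        · exact seg_of_svis hcl hvz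
        · exact h0
        · exact h1
    have hfz := hwedge 1 zero_le_one le_rfl (fun r'' h0 h1 => hall r'' h0 h1)
    have hgz := hg 1
    rw [pt_one] at hfz hgz
    apply S.propagate sh.tq0 sh.tq1 h20 h21 w1 w2 hord isOpen_univ (fun _ _ => mem_univ _) _ hvz
      _ hfz
    · intro d _ hd hdv hdl
      apply tgt.dark
      exact ⟨tgt.yz hzm, Or.inr ⟨d, hdl, hd, hdv⟩⟩
    · rw [hgz]
      have : 0 ≤ 1 - ts := by linarith [sh.ts1]
      positivity
  · -- a blocker between T and the target
    have hts1 : ts < 1 := by
      rcases sh.ts1.eq_or_lt with e1 | e1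
      · exfalso
        apply hvz
        have : ys = z := by rw [hys, e1, pt_one]
        rw [← this]; exact hTysvis
      · exact e1
    have hts1' : 0 < 1 - ts := by linarith
    have hzys : z - ys = (1 - ts) • (z - y) := by
      rw [hys]; unfold pt; simp only [Complex.real_smul]; push_cast; ring
    obtain ⟨us, us0, us1, hsegw, hbef, c, hc⟩ := S.blocker (O := Tv) (y := ys) (z := z) (τ := s)
      (by
        rw [hzys, cr_smul_left]
        have e1 : s * ((1 - ts) * cr (z - y) (Tv - ys)) = (1 - ts) * (s * cr (z - y) (Tv - y)) := by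
          rw [hys]
          unfold cr
          simp only [pt_re, pt_im, Complex.sub_re, Complex.sub_im]
          ring
        rw [e1]
        exact mul_pos hts1' hHT)
      (by
        refine subset_trans ?_ tgt.yz
        exact (convex_segment _ _).segment_subset hysm hzm)
      (by
        intro w hw
        have h1 := tgt.free w ((convex_segment _ _).segment_subset hysm hzm hw)
        have h2 := fr_smul (σ := 1) (c := 1 - ts) h1 (by linarith)
        rw [one_mul, ← hzys] at h2
        exact h2)
      hTysvis hvz
    set ws := pt ys z us with hws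
    have hsegall : ∀ r'', 0 ≤ r'' → r'' ≤ us → segment ℝ Tv (pt ys z r'') ⊆ P := by
      intro r'' h0 h1
      rcases h1.eq_or_lt with e1 | e1
      · rw [e1]; exact hsegw
      · exact seg_of_svis hcl (hbef r'' h0 e1)
    have hfall : ∀ r', 0 ≤ r' → r' ≤ us → s * cr (Tv - q2) (pt ys z r' - Tv) < 0 := by
      intro r' h0 h1
      exact hwedge r' h0 (h1.trans us1) (fun r'' k0 k1 => hsegall r'' k0 (k1.trans h1))
    have hfw := hfall us us0.le le_rfl
    have hgw : 0 < s * cr (Tv - q1) (ws - Tv) := by
      rw [hws, hg us]; positivity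
    have hwsm : ws ∈ segment ℝ y z := hpm us us0.le us1
    have hcrys : s * cr (ws - Tv) (ys - Tv) = -(μ * (s * cr (Tv - q1) (ws - Tv))) := by
      rw [hysT, cr_smul_right, cr_swap (ws - Tv) (Tv - q1)]; ring
    have hysws : segment ℝ ys ws ⊆ P := by
      refine subset_trans ?_ tgt.yz
      exact (convex_segment _ _).segment_subset hysm hwsm
    have hTys : segment ℝ Tv ys ⊆ P := seg_of_svis hcl hTysvis
    have hwsT : ws - Tv ≠ 0 := by
      intro h0
      rw [h0, cr_zero_right] at hgw
      simp at hgw
    -- exterior points at frontier points of (Tv, ws)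
    have hextw : ∀ g, g ∈ openSegment ℝ Tv ws → g ∉ interior P →
        ExtAt P g (g - Tv) s ∧ (¬ Cn (P \ kap P Tv g) Tv D → False) := by
      intro g hgo hgi
      have hfr : Fr P g (ws - Tv) (-s) := by
        apply tri_fr S.reg (y := ys) _ hTys hysws hsegw hgo
        have : -s * cr (ws - Tv) (ys - Tv) = -(s * cr (ws - Tv) (ys - Tv)) := by ring
        rw [this, hcrys, neg_neg]
        positivity
      have h1 := ext_side hs0 hwsT hgo hsegw hgi hfr
      obtain ⟨ρ, ρ0, ρ1, hge⟩ := mem_openSegment_iff.1 hgo
      have hgT : g - Tv = ρ • (ws - Tv) := by rw [hge, pt_sub_left]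
      constructor
      · rw [hgT]; exact h1.smul ρ0
      · intro h2
        refine two_windows S.reg w2.ne w2.seg w2.half w2.joined w2.sep (g := g) ?_ ?_ h2
        · rw [hgT, cr_smul_right]
          have : s * (ρ * cr (Tv - q2) (ws - Tv)) = ρ * (s * cr (Tv - q2) (ws - Tv)) := by ring
          rw [this]
          exact mul_neg_of_pos_of_neg ρ0 hfw
        · refine subset_trans ?_ hsegw
          exact (convex_segment _ _).segment_subset (left_mem_segment ℝ _ _)
            (openSegment_subset_segment ℝ _ _ hgo)
    -- position of T1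
    have hhys : 0 < s * cr (ys - Tv) (T1 - Tv) := by
      rw [hysT, cr_smul_left]
      have e1 : s * (μ * cr (Tv - q1) (T1 - Tv)) = μ * (s * cr (Tv - q1) (T1 - q1)) := by
        unfold cr; simp only [Complex.sub_re, Complex.sub_im]; ring
      rw [e1]
      exact mul_pos hμ0 sh.side
    rcases le_or_gt (s * cr (ws - Tv) (T1 - Tv)) 0 with hle | hgt
    · -- T1 is between T and the target
      set A := s * cr (ys - Tv) (T1 - Tv) with hA
      set B := s * cr (ws - Tv) (T1 - Tv) with hB'
      have hAB : 0 < A - B := by linarith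
      set σ := A / (A - B) with hσ
      have hσ0 : 0 < σ := div_pos hhys hAB
      have hσ1 : σ ≤ 1 := by rw [hσ, div_le_one hAB]; linarith
      set w' := pt ys z (σ * us) with hw'
      have hw'e : w' = pt ys ws σ := by rw [hw', hws, pt_pt]
      have hσus0 : 0 < σ * us := by positivity
      have hσus1 : σ * us ≤ us := by nlinarith
      have hw'm : w' ∈ segment ℝ y z := hpm _ hσus0.le (hσus1.trans us1)
      have hw'g : 0 < s * cr (Tv - q1) (w' - Tv) := by
        rw [hw', hg]; positivity
      have hw'0 : w' - Tv ≠ 0 := by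
        intro h0; rw [h0, cr_zero_right] at hw'g; simp at hw'g
      have hcrw' : cr (w' - Tv) (T1 - Tv) = 0 := by
        have e1 : s * cr (w' - Tv) (T1 - Tv) = (1 - σ) * A + σ * B := by
          rw [hw'e, hA, hB']
          unfold cr
          simp only [pt_re, pt_im, Complex.sub_re, Complex.sub_im]
          ring
        have e2 : (1 - σ) * A + σ * B = 0 := by
          rw [hσ]; field_simp; ring
        rw [e2] at e1
        exact (mul_eq_zero.1 e1).resolve_left hs0
      obtain ⟨ν, hν⟩ := parallel_of_cr hw'0 hcrw'
      have hν0 : 0 < ν := by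
        have h5 : 0 < s * cr (Tv - q1) (T1 - Tv) := by
          have e1 : s * cr (Tv - q1) (T1 - Tv) = s * cr (Tv - q1) (T1 - q1) := by
            unfold cr; simp only [Complex.sub_re, Complex.sub_im]; ring
          rw [e1]; exact sh.side
        rw [hν, cr_smul_right] at h5
        have e2 : s * (ν * cr (Tv - q1) (w' - Tv)) = ν * (s * cr (Tv - q1) (w' - Tv)) := by ring
        rw [e2] at h5
        exact (mul_pos_iff_of_pos_right hw'g).1 h5
      have hν1 : ν < 1 := by
        have h5 : s * cr (z - y) (T1 - y) = (1 - ν) * (s * cr (z - y) (Tv - y)) := by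
          have e1 : T1 - y = (1 - ν) • (Tv - y) + ν • (w' - y) := by
            have : T1 = Tv + (T1 - Tv) := by ring
            rw [this, hν]; simp only [Complex.real_smul]; push_cast; ring
          rw [e1, cr_add_right, cr_smul_right, cr_smul_right, hw', hHw]
          ring
        have h6 := tgt.height
        rw [h5] at h6
        have h7 : 0 ≤ 1 - ν := nonneg_of_mul_nonneg_left h6 hHT
        rcases h7.eq_or_lt with h8 | h8
        · exfalso
          have : ν = 1 := by linarith
          rw [this, one_smul] at hν
          exact (tgt.see w' hw'm).2 (sub_left_inj.1 hν).symm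
        · linarith
      have hT1e : T1 = pt Tv w' ν := by
        have : T1 = Tv + (T1 - Tv) := by ring
        rw [this, hν]; rfl
      have hT1o : T1 ∈ openSegment ℝ Tv w' := by
        rw [hT1e]; exact pt_mem_openSegment hν0 hν1
      have hsegw' : segment ℝ Tv w' ⊆ P := hsegall _ hσus0.le hσus1
      have hTT1 : segment ℝ Tv T1 ⊆ P := by
        refine subset_trans ?_ hsegw'
        exact (convex_segment _ _).segment_subset (left_mem_segment ℝ _ _)
          (openSegment_subset_segment ℝ _ _ hT1o)
      have hfT1 : s * cr (Tv - q2) (T1 - Tv) < 0 := by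
        rw [hν, cr_smul_right]
        have e2 : s * (ν * cr (Tv - q2) (w' - Tv)) = ν * (s * cr (Tv - q2) (w' - Tv)) := by ring
        rw [e2]
        exact mul_neg_of_pos_of_neg hν0 (hfall _ hσus0.le hσus1)
      rcases tgt.sep with hTD | ⟨m, cc, hTm, hwin, hback⟩
      · -- the target point itself is seen: contradiction
        exfalso
        apply w2.sep
        rw [← hTD]
        exact around w2.ne w2.seg w2.half hfT1 hTT1
      · -- T1 is a vertex
        rw [hTm] at hT1o hTT1 hfT1 hT1e hν
        have hus : σ * us = us := by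
          rcases hσus1.eq_or_lt with h | h
          · exact h
          · exfalso
            have hv := hbef _ hσus0.le h
            exact frontier_not_int (S.v_frontier m) (hv hT1o)
        have hw's : w' = ws := by rw [hw', hus]
        rw [hw's] at hT1o hT1e hν
        have hTmvis : svis P Tv (S.v m) := by
          intro x hx
          by_contra hxi
          obtain ⟨κ, κ0, κ1, hxe⟩ := mem_openSegment_iff.1 hx
          have hxe2 : x = pt Tv ws (κ * ν) := by rw [hxe, hT1e, pt_pt]
          have hxo : x ∈ openSegment ℝ Tv ws := by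
            rw [hxe2]; exact pt_mem_openSegment (by positivity) (by nlinarith)
          obtain ⟨hext, hfin⟩ := hextw x hxo hxi
          apply hfin
          have hxT : x - Tv = (κ * ν) • (ws - Tv) := by rw [hxe2, pt_sub_left]
          have hκν : 0 < κ * ν := by positivity
          have hTx : Tv ≠ x := by
            intro h0
            rw [← h0, sub_self] at hxT
            rcases smul_eq_zero.1 hxT.symm with h | h
            · linarith
            · exact hwsT h
          apply g2_col S.reg (T := S.v m) (w := ys) hTx _ _ hext _ _ _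
          · refine ⟨1 / κ, ?_, ?_, hTT1⟩
            · rw [le_div_iff₀ κ0]; linarith
            · rw [hxe, pt_pt, one_div_mul_cancel κ0.ne', pt_one]
          · intro h0
            have h1 : (1 - κ) • (S.v m - Tv) = 0 := by
              have : (1 - κ) • (S.v m - Tv) = S.v m - x := by
                rw [hxe]; unfold pt; simp only [Complex.real_smul]; push_cast; ring
              rw [this, h0, sub_self]
            rcases smul_eq_zero.1 h1 with h | h
            · linarith
            · rw [h] at hfT1
              simp [cr_zero_right] at hfT1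
          · rw [hxT, cr_smul_left]
            have e2 : s * (κ * ν * cr (ws - Tv) (ys - Tv)) =
                -((κ * ν) * (μ * (s * cr (Tv - q1) (ws - Tv)))) := by
              linear_combination (κ * ν) * hcrys
            rw [e2]
            have : 0 < (κ * ν) * (μ * (s * cr (Tv - q1) (ws - Tv))) := by positivity
            linarith
          · rw [segment_symm]; exact hTys
          · exact (hwin ys hysm).sep
        -- the far side edge at T1
        set M := S.v m with hM
        have hMws : M - ws = ((1 - ν) / ν) • (Tv - M) := by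
          have hν' : (ν : ℂ) ≠ 0 := by exact_mod_cast hν0.ne'
          rw [hT1e]
          unfold pt; simp only [Complex.real_smul]; push_cast; field_simp; ring
        have hνν : 0 < (1 - ν) / ν := div_pos (by linarith) hν0
        have hTM : Tv - M = (ν / (1 - ν)) • (M - ws) := by
          have h1ν : (1 - ν) ≠ 0 := by linarith
          rw [hMws, smul_smul]
          have : ν / (1 - ν) * ((1 - ν) / ν) = 1 := by field_simp
          rw [this, one_smul]
        have hνν' : 0 < ν / (1 - ν) := div_pos hν0 (by linarith)
        have hwinws := hwin ws hwsm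
        have hextM : ExtAt P M (Tv - M) (sg cc) := by
          rw [hTM]; exact hwinws.ext.smul hνν'
        have hhalfM : HalfD P M (Tv - M) (sg cc) := by
          rw [hTM]; exact hwinws.half.smul hνν'
        have hMvis : svis P M Tv := svis_symm hTmvis
        obtain ⟨rr, hrr, -, hHDex⟩ := S.vertex_local m (w := Tv - M) (svis_small hMvis)
          ⟨(1 - ν) / ν, hνν, by
            intro ρ h0 h1
            apply hsegw
            rw [mem_segment_iff]
            refine ⟨ν + ρ * ν, by positivity, ?_, ?_⟩
            · rw [lt_div_iff₀ hν0] at h1; linarith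
            · have : S.v m - ρ • (Tv - M) = pt Tv ws (ν + ρ * ν) := by
                rw [← hM, hT1e]; unfold pt; simp only [Complex.real_smul]; push_cast; ring
              exact this⟩
        obtain ⟨k, hk, hHD⟩ := hHDex (sg cc) (sg_pm cc)
        have hfs := far_side (sg_ne cc) (S.nbr_frontier hk) (S.nbr_ne hk) (svis_small hMvis)
          hhalfM hextM ⟨rr, hrr, hHD⟩
        obtain ⟨ρb, hρb, hdarkb⟩ := hback k hk ⟨rr, hrr, hHD⟩
        apply S.propagate sh.tq0 sh.tq1 h20 h21 w1 w2 hord
          (O := {d | 0 < sg cc * cr (d - M) (S.v k - M)}) _ _ _ hTmvis _ hfT1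
        · exact isOpen_lt continuous_const (continuous_const.mul
            (continuous_cr (continuous_id.sub continuous_const) continuous_const))
        · intro lam hlam
          change 0 < sg cc * cr (pt M Tv lam - M) (S.v k - M)
          rw [pt_sub_left, cr_smul_left]
          have e2 : sg cc * (lam * cr (Tv - M) (S.v k - M)) =
              lam * (sg cc * cr (Tv - M) (S.v k - M)) := by ring
          rw [e2]
          exact mul_pos (by linarith) hfs
        · intro d hdO hdE hdv hdl
          have hdO' : 0 < sg cc * cr (d - M) (S.v k - M) := hdO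
          obtain ⟨ρs, hρs, hsee⟩ := S.see_edge hdv ⟨rr, hrr, hHD⟩ (s := sg cc) (F := S.v k)
            (by rw [cr_swap]; linarith)
          set x0 := min (ρb / 2) (ρs / 2) with hx0
          have hx00 : 0 < x0 := by positivity
          have hx01 : x0 < ρb := lt_of_le_of_lt (min_le_left _ _) (by linarith)
          have hx02 : x0 < ρs := lt_of_le_of_lt (min_le_right _ _) (by linarith)
          have hv := hsee x0 hx00.le hx02
          apply hdarkb x0 hx00 hx01
          refine ⟨?_, Or.inr ⟨d, hdl, hdE, hv⟩⟩
          exact seg_of_svis hcl hv (right_mem_segment ℝ _ _)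
        · have e1 : s * cr (Tv - q1) (M - Tv) = ν * (s * cr (Tv - q1) (ws - Tv)) := by
            rw [hν, cr_smul_right]; ring
          rw [e1]
          positivity
    · -- T1 strictly on the shadow side: impossible
      exfalso
      have hci : S.v c ∉ interior P := frontier_not_int (S.v_frontier c)
      obtain ⟨hext, hfin⟩ := hextw (S.v c) hc hci
      apply hfin
      obtain ⟨ρ, ρ0, ρ1, hge⟩ := mem_openSegment_iff.1 hc
      have hgT : S.v c - Tv = ρ • (ws - Tv) := by rw [hge, pt_sub_left]
      have hTc : Tv ≠ S.v c := by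
        intro h0
        rw [← h0, sub_self] at hgT
        rcases smul_eq_zero.1 hgT.symm with h | h
        · linarith
        · exact hwsT h
      have hwsk : ws ∈ kap P Tv (S.v c) := by
        refine ⟨1 / ρ, ?_, ?_, hsegw⟩
        · rw [le_div_iff₀ ρ0]; linarith
        · rw [hge, pt_pt, one_div_mul_cancel ρ0.ne', pt_one]
      have hwsc : ws ≠ S.v c := by
        intro h0
        have h1 : (1 - ρ) • (ws - Tv) = 0 := by
          have : (1 - ρ) • (ws - Tv) = ws - S.v c := by
            rw [hge]; unfold pt; simp only [Complex.real_smul]; push_cast; ring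
          rw [this, h0, sub_self]
        rcases smul_eq_zero.1 h1 with h | h
        · linarith
        · exact hwsT h
      have hcrT1 : 0 < s * cr (S.v c - Tv) (T1 - Tv) := by
        rw [hgT, cr_smul_left]
        have e2 : s * (ρ * cr (ws - Tv) (T1 - Tv)) = ρ * (s * cr (ws - Tv) (T1 - Tv)) := by ring
        rw [e2]
        exact mul_pos ρ0 hgt
      rcases tgt.sep with hTD | ⟨m, cc, hTm, hwin, -⟩
      · rw [hTD] at hcrT1
        refine g2_base S.reg hTc hwsk hwsc hext hcrT1 ?_
        rw [segment_symm, ← hTD]
        exact (tgt.see ws hwsm).1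
      · refine g2 S.reg (T := T1) hTc hwsk hwsc hext hcrT1 (tgt.see ws hwsm).1 ?_
        rw [hTm]
        exact (hwin ws hwsm).sep

end Run7.h395
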