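import Pool.Agent.Run7.h395.Bdry

/-!
# Counting the straight pieces of a closed set between its corners
-/

open Set Topology Filter Complex

noncomputable section

namespace Run7.h395

/-- the maximal straight pieces of `B`: the connected components of `B` without its corners -/
def sides (B : Set ℂ) : Set (Set ℂ) :=
  {E | ∃ x ∈ B \ corners B, E = connectedComponentIn (B \ corners B) x}

lemma FlatDir.mem {B : Set ℂ} {x d : ℂ} (h : FlatDir B x d) : x ∈ B := by
  obtain ⟨r, hr, h⟩ := h
  exact (h x (by rw [dist_self]; exact hr)).2 ⟨0, by simp⟩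

lemma FlatDir.not_corner {B : Set ℂ} {x d : ℂ} (hd : d ≠ 0) (h : FlatDir B x d) :
    x ∈ B \ corners B := ⟨h.mem, fun hc => hc.2 ⟨d, hd, h⟩⟩

/-- flatness at nearby points of the line -/
lemma FlatDir.near {B : Set ℂ} {x d : ℂ} (h : FlatDir B x d) :
    ∃ r : ℝ, 0 < r ∧ ∀ y, dist y x < r → (∃ c : ℝ, y = x + c • d) → FlatDir B y d := by
  obtain ⟨r, hr, h⟩ := h
  refine ⟨r, hr, ?_⟩
  rintro y hy ⟨c, hc⟩
  refine ⟨r - dist y x, by linarith, ?_⟩
  intro z hz
  have hzx : dist z x < r := by
    have := dist_triangle z y x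
    linarith
  rw [h z hzx]
  constructor
  · rintro ⟨c', hc'⟩
    refine ⟨c' - c, ?_⟩
    rw [hc', hc]
    simp only [Complex.real_smul]; push_cast; ring
  · rintro ⟨c', hc'⟩
    refine ⟨c' + c, ?_⟩
    rw [hc', hc]
    simp only [Complex.real_smul]; push_cast; ring

lemma FlatDir.smul {B : Set ℂ} {x d : ℂ} (h : FlatDir B x d) {a : ℝ} (ha : a ≠ 0) :
    FlatDir B x (a • d) := by
  obtain ⟨r, hr, h⟩ := h
  refine ⟨r, hr, ?_⟩
  intro y hy
  rw [h y hy]
  constructor
  · rintro ⟨c, hc⟩
    exact ⟨c / a, by rw [hc, smul_smul, div_mul_cancel₀ _ ha]⟩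
  · rintro ⟨c, hc⟩
    exact ⟨c * a, by rw [hc, smul_smul]⟩

/-- a straight piece continues up to the next corner -/
lemma flat_run {B : Set ℂ} (hB : IsClosed B) {x y : ℂ} (hxy : x ≠ y)
    (hx : FlatDir B x (y - x)) (hno : ∀ z ∈ segment ℝ x y, z ∉ corners B) :
    ∀ z ∈ segment ℝ x y, FlatDir B z (y - x) := by
  have hd : y - x ≠ 0 := sub_ne_zero.2 hxy.symm
  have hdn : 0 < ‖y - x‖ := norm_pos_iff.2 hd
  set s : Set ℝ := {t | FlatDir B (pt x y t) (y - x)} with hs
  have hclosed : IsClosed (s ∩ Icc 0 1) := by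
    rw [← isSeqClosed_iff_isClosed]
    intro t t0 ht hlim
    have hI : t0 ∈ Icc (0 : ℝ) 1 := isClosed_Icc.mem_of_tendsto hlim
      (Filter.Eventually.of_forall fun j => (ht j).2)
    refine ⟨?_, hI⟩
    have hptlim : Tendsto (fun j => pt x y (t j)) atTop (𝓝 (pt x y t0)) :=
      ((continuous_pt x y).tendsto t0).comp hlim
    have hzB : pt x y t0 ∈ B := hB.mem_of_tendsto hptlim
      (Filter.Eventually.of_forall fun j => (ht j).1.mem)
    by_cases heq : ∃ j, t j = t0
    · obtain ⟨j, hj⟩ := heq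
      have := (ht j).1
      rw [hj] at this
      exact this
    push Not at heq
    have hnc := hno _ (pt_mem_segment hI.1 hI.2)
    have hfl : FlatAt B (pt x y t0) := by
      by_contra hc
      exact hnc ⟨hzB, hc⟩
    obtain ⟨d, hd0, hfd⟩ := hfl
    obtain ⟨r, hr, hr'⟩ := hfd
    obtain ⟨j, hj⟩ := (hptlim.eventually (Metric.ball_mem_nhds _ hr)).exists
    obtain ⟨c, hc⟩ := (hr' _ hj).1 (ht j).1.mem
    have h1 : pt x y (t j) - pt x y t0 = (t j - t0) • (y - x) := pt_sub_pt _ _ _ _
    have h2 : (t j - t0) • (y - x) = c • d := by rw [← h1, hc]; ring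
    have hne : t j - t0 ≠ 0 := sub_ne_zero.2 (heq j)
    have hc0 : c ≠ 0 := by
      rintro rfl
      rw [zero_smul] at h2
      rcases smul_eq_zero.1 h2 with h | h
      · exact hne h
      · exact hd h
    have hdd : y - x = (c / (t j - t0)) • d := by
      have : y - x = (1 / (t j - t0)) • ((t j - t0) • (y - x)) := by
        rw [smul_smul, one_div_mul_cancel hne, one_smul]
      rw [this, h2, smul_smul]; congr 1; ring
    change FlatDir B (pt x y t0) (y - x)
    rw [hdd]
    exact FlatDir.smul ⟨r, hr, hr'⟩ (div_ne_zero hc0 hne)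
  have hsub : Icc (0 : ℝ) 1 ⊆ s := by
    apply hclosed.Icc_subset_of_forall_mem_nhdsWithin
    · change FlatDir B (pt x y 0) (y - x)
      rw [pt_zero]; exact hx
    · rintro t ⟨ht, hI⟩
      have ht : FlatDir B (pt x y t) (y - x) := ht
      obtain ⟨r, hr, hr'⟩ := ht.near
      apply mem_nhdsWithin_of_mem_nhds
      rw [Metric.mem_nhds_iff]
      refine ⟨r / ‖y - x‖, by positivity, ?_⟩
      intro t' ht'
      rw [Metric.mem_ball, Real.dist_eq, lt_div_iff₀ hdn] at ht'
      apply hr'
      · rw [dist_eq_norm, pt_sub_pt, norm_smul, Real.norm_eq_abs]; exact ht'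
      · exact ⟨t' - t, by rw [← pt_sub_pt]; ring⟩
  intro z hz
  rw [mem_segment_iff] at hz
  obtain ⟨t, h0, h1, rfl⟩ := hz
  exact hsub ⟨h0, h1⟩

/-- two points of a straight run lie in the same piece -/
lemma same_piece {B : Set ℂ} {x y : ℂ} (h : segment ℝ x y ⊆ B \ corners B) :
    connectedComponentIn (B \ corners B) x = connectedComponentIn (B \ corners B) y := by
  have hconn : IsPreconnected (segment ℝ x y) := (convex_segment _ _).isPreconnected
  have hy : y ∈ connectedComponentIn (B \ corners B) x :=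
    hconn.subset_connectedComponentIn (left_mem_segment ℝ _ _) h (right_mem_segment ℝ _ _)
  exact connectedComponentIn_eq hy

/-- the pieces are counted by carriers -/
theorem sides_count {B : Set ℂ} (hB : IsClosed B) {ι : Type*} [DecidableEq ι] [Nonempty ι]
    (I : Finset ι)
    (C : ι → Set ℂ) (base d : ι → ℂ) (τ : ι → ℂ → ℝ) (M : ι → ℕ)
    (hd : ∀ i ∈ I, d i ≠ 0) (hC : ∀ i ∈ I, ∀ x ∈ C i, x = base i + τ i x • d i)
    (hconv : ∀ i ∈ I, Convex ℝ (C i))
    (hM : ∀ i ∈ I, ∀ X : Finset ℂ, (∀ x ∈ X, x ∈ C i ∧ x ∈ corners B) → X.card ≤ M i)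
    (hcov : ∀ x ∈ B \ corners B, ∃ i ∈ I, ∃ y ∈ C i,
      y ∈ connectedComponentIn (B \ corners B) x ∧ FlatDir B y (d i)) :
    ∀ F : Finset (Set ℂ), (∀ E ∈ F, E ∈ sides B) → F.card ≤ ∑ i ∈ I, (M i + 1) := by
  classical
  intro F hF
  have hex : ∀ E ∈ F, ∃ i ∈ I, ∃ y ∈ C i, E = connectedComponentIn (B \ corners B) y ∧
      FlatDir B y (d i) := by
    intro E hE
    obtain ⟨x, hx, rfl⟩ := hF E hE
    obtain ⟨i, hi, y, hy, hyc, hf⟩ := hcov x hx
    exact ⟨i, hi, y, hy, connectedComponentIn_eq hyc, hf⟩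
  choose! f hfI y hyC hyE hyf using hex
  rw [Finset.card_eq_sum_card_fiberwise (f := f) (t := I) (fun E hE => hfI E hE)]
  apply Finset.sum_le_sum
  intro i hi
  set G := F.filter (fun E => f E = i) with hG
  have hGF : ∀ E ∈ G, E ∈ F ∧ f E = i := fun E hE => Finset.mem_filter.1 hE
  have hyCi : ∀ E ∈ G, y E ∈ C i := by
    intro E hE
    have := hyC E (hGF E hE).1
    rw [(hGF E hE).2] at this; exact this
  have hyfi : ∀ E ∈ G, FlatDir B (y E) (d i) := by
    intro E hE
    have := hyf E (hGF E hE).1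
    rw [(hGF E hE).2] at this; exact this
  set g : Set ℂ → ℝ := fun E => τ i (y E) with hg
  have hdiff : ∀ E ∈ G, ∀ E' ∈ G, y E' - y E = (g E' - g E) • d i := by
    intro E hE E' hE'
    conv_lhs => rw [hC i hi _ (hyCi E hE), hC i hi _ (hyCi E' hE')]
    simp only [hg, Complex.real_smul]; push_cast; ring
  -- a corner between two different pieces
  have hcorner : ∀ E ∈ G, ∀ E' ∈ G, g E < g E' → E ≠ E' →
      ∃ z, z ∈ C i ∧ z ∈ corners B ∧ g E < τ i z ∧ τ i z < g E' := by
    intro E hE E' hE' hlt hne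
    by_contra hcon
    push Not at hcon
    have hyy : y E ≠ y E' := by
      intro h
      have := hdiff E hE E' hE'
      rw [h, sub_self] at this
      rcases smul_eq_zero.1 this.symm with h' | h'
      · linarith
      · exact hd i hi h'
    have hseg : segment ℝ (y E) (y E') ⊆ C i :=
      (hconv i hi).segment_subset (hyCi E hE) (hyCi E' hE')
    have hno : ∀ z ∈ segment ℝ (y E) (y E'), z ∉ corners B := by
      intro z hz hzc
      have hzC := hseg hz
      have hzt := hz
      rw [mem_segment_iff] at hzt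
      obtain ⟨t, t0, t1, hzt⟩ := hzt
      have h1 : z - y E = (t * (g E' - g E)) • d i := by
        rw [hzt, pt_sub_left, hdiff E hE E' hE', smul_smul]
      have h2 : z - y E = (τ i z - g E) • d i := by
        conv_lhs => rw [hC i hi _ (hyCi E hE), hC i hi _ hzC]
        simp only [hg, Complex.real_smul]; push_cast; ring
      have h3 : τ i z - g E = t * (g E' - g E) := by
        have h4 : ((τ i z - g E) - t * (g E' - g E)) • d i = 0 := by
          rw [sub_smul, ← h1, ← h2, sub_self]
        rcases smul_eq_zero.1 h4 with h5 | h5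
        · linarith
        · exact absurd h5 (hd i hi)
      rcases t0.eq_or_lt with e0 | e0
      · rw [← e0, pt_zero] at hzt
        rw [hzt] at hzc
        exact (hyfi E hE).not_corner (hd i hi) |>.2 hzc
      rcases t1.eq_or_lt with e1 | e1
      · rw [e1, pt_one] at hzt
        rw [hzt] at hzc
        exact (hyfi E' hE').not_corner (hd i hi) |>.2 hzc
      have h6 : 0 < t * (g E' - g E) := mul_pos e0 (by linarith)
      have h7 : t * (g E' - g E) < g E' - g E := by nlinarith
      have := hcon z hzC hzc (by linarith)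
      linarith
    have hrun := flat_run hB hyy (by
      rw [hdiff E hE E' hE']
      exact (hyfi E hE).smul (by linarith : g E' - g E ≠ 0)) hno
    have hsame := same_piece (B := B) (x := y E) (y := y E') (fun z hz =>
      (hrun z hz).not_corner (sub_ne_zero.2 hyy.symm))
    apply hne
    rw [hyE E (hGF E hE).1, hyE E' (hGF E' hE').1, hsame]
  -- distinct parameters
  have hginj : ∀ E ∈ G, ∀ E' ∈ G, g E = g E' → E = E' := by
    intro E hE E' hE' h
    have h1 := hdiff E hE E' hE'
    rw [h, sub_self, zero_smul, sub_eq_zero] at h1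
    rw [hyE E (hGF E hE).1, hyE E' (hGF E' hE').1, h1]
  rcases G.eq_empty_or_nonempty with hGe | hGne
  · rw [hGe]; simp
  obtain ⟨EM, hEM, hmax⟩ := Finset.exists_max_image G g hGne
  -- the successor and the corner before it
  have hsucc : ∀ E ∈ G.erase EM, ∃ z, z ∈ C i ∧ z ∈ corners B ∧ g E < τ i z ∧
      ∀ E' ∈ G, g E < g E' → τ i z < g E' := by
    intro E hE
    obtain ⟨hne, hEG⟩ := Finset.mem_erase.1 hE
    have hlt : g E < g EM := by
      refine lt_of_le_of_ne (hmax E hEG) ?_
      intro h; exact hne (hginj E hEG EM hEM h)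
    set L := G.filter (fun E' => g E < g E') with hL
    have hLne : L.Nonempty := ⟨EM, Finset.mem_filter.2 ⟨hEM, hlt⟩⟩
    obtain ⟨E2, hE2, hmin⟩ := Finset.exists_min_image L g hLne
    obtain ⟨hE2G, hE2lt⟩ := Finset.mem_filter.1 hE2
    obtain ⟨z, hz1, hz2, hz3, hz4⟩ := hcorner E hEG E2 hE2G hE2lt (by
      rintro rfl; exact lt_irrefl _ hE2lt)
    refine ⟨z, hz1, hz2, hz3, ?_⟩
    intro E' hE' h
    exact hz4.trans_le (hmin E' (Finset.mem_filter.2 ⟨hE', h⟩))
  choose! z hz1 hz2 hz3 hz4 using hsucc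
  have hzinj : Set.InjOn z (G.erase EM) := by
    intro E hE E' hE' h
    have hE1 := (Finset.mem_erase.1 hE).2
    have hE1' := (Finset.mem_erase.1 hE').2
    rcases lt_trichotomy (g E) (g E') with h1 | h1 | h1
    · have := hz4 E hE E' hE1' h1
      have := hz3 E' hE'
      rw [h] at *
      linarith
    · exact hginj E hE1 E' hE1' h1
    · have := hz4 E' hE' E hE1 h1
      have := hz3 E hE
      rw [h] at *
      linarith
  have hcard := hM i hi ((G.erase EM).image z) (by
    intro x hx
    obtain ⟨E, hE, rfl⟩ := Finset.mem_image.1 hx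
    exact ⟨hz1 E hE, hz2 E hE⟩)
  rw [Finset.card_image_of_injOn hzinj, Finset.card_erase_of_mem hEM] at hcard
  omega

end Run7.h395
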