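import Pool.Agent.Run7.h395.Win

/-!
# Sliding a window source along a visible segment
-/

open Set Topology Filter Complex

noncomputable section

namespace Run7.h395

/-- a point on the line beyond `T` -/
lemma pt_beyond_mem_kap {P : Set ℂ} {x T : ℂ} {r : ℝ} (hr : 0 ≤ r)
    (hxT : segment ℝ x T ⊆ P) (hb : ∀ ρ, 0 ≤ ρ → ρ ≤ r → pt x T (1 + ρ) ∈ P) :
    pt x T (1 + r) ∈ kap P x T := by
  refine ⟨1 + r, by linarith, rfl, ?_⟩
  rw [seg_pt_iff (by linarith)]
  intro t h0 h1
  rcases le_or_gt t 1 with h2 | h2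
  · exact hxT (pt_mem_segment h0 h2)
  · have := hb (t - 1) (by linarith) (by linarith)
    rwa [show 1 + (t - 1) = t by ring] at this

theorem slide {P : Set ℂ} (h : Reg P) {D q T x : ℂ} {s : ℝ}
    (hqx : segment ℝ q x ⊆ P) (hxT : segment ℝ x T ⊆ P)
    (hqTs : segment ℝ q T ⊆ P) (hx : 0 < s * cr (T - q) (x - q))
    (hext : ExtAt P T (T - q) s) (hhalf : HalfD P T (T - q) s) :
    ExtAt P T (T - x) s ∧ HalfD P T (T - x) s ∧ (∃ u ∈ kap P x T, u ≠ T) ∧
      (¬ Cn (P \ kap P q T) q D → ¬ Cn (P \ kap P x T) x D) := by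
  have hqT : q ≠ T := by
    rintro rfl; simp [cr_zero_left] at hx
  have hxTne : x ≠ T := by
    rintro rfl; simp [cr_self] at hx
  have hc0 : s * cr (q - T) (x - T) < 0 := by
    have e : s * cr (q - T) (x - T) = -(s * cr (T - q) (x - q)) := by
      unfold cr; simp only [Complex.sub_re, Complex.sub_im]; ring
    rw [e]; linarith
  have hcr : cr (q - T) (x - T) ≠ 0 := by
    intro h0; rw [h0] at hc0; simp at hc0
  have hori : ori T q x ≠ 0 := hcr
  set al : ℂ → ℝ := fun z => cr (z - T) (x - T) / cr (q - T) (x - T) with hal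
  set be : ℂ → ℝ := fun z => cr (q - T) (z - T) / cr (q - T) (x - T) with hbe
  have halc : Continuous al :=
    (continuous_cr (continuous_id.sub continuous_const) continuous_const).div_const _
  have hbec : Continuous be :=
    (continuous_cr continuous_const (continuous_id.sub continuous_const)).div_const _
  have hdec : ∀ z, z = T + al z • (q - T) + be z • (x - T) := by
    intro z
    have := decomp hcr (z - T)
    rw [add_assoc, ← this]
    ring
  have hsx : ∀ z, s * cr (T - x) (z - T) = al z * (s * cr (q - T) (x - T)) := by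
    intro z
    have e : s * cr (T - x) (z - T) = s * cr (z - T) (x - T) := by
      unfold cr; simp only [Complex.sub_re, Complex.sub_im]; ring
    rw [e]
    simp only [hal]
    field_simp
  have hsq : ∀ z, s * cr (T - q) (z - T) = - be z * (s * cr (q - T) (x - T)) := by
    intro z
    have e : s * cr (T - q) (z - T) = - (s * cr (q - T) (z - T)) := by
      unfold cr; simp only [Complex.sub_re, Complex.sub_im]; ring
    rw [e]
    simp only [hbe]
    field_simp
  have hTseg : segment ℝ T q ⊆ P := by rw [segment_symm]; exact hqTs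
  have hTx : segment ℝ T x ⊆ P := by rw [segment_symm]; exact hxT
  have hfill : ∀ z, 0 ≤ al z → 0 ≤ be z → al z + be z ≤ 1 → z ∈ P := by
    intro z h1 h2 h3
    have := fill h hori hTseg hqx hTx h1 h2 h3
    rwa [← hdec z] at this
  have hnear : ∀ᶠ z in 𝓝 T, al z + be z < 1 := by
    have h0 : al T + be T < 1 := by simp [hal, hbe, cr_zero_left, cr_zero_right]
    exact (halc.add hbec).continuousAt.eventually_lt continuousAt_const h0
  obtain ⟨ρ1, hρ1, hball1⟩ := Metric.eventually_nhds_iff.1 hnear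
  obtain ⟨ρ2, hρ2, hball2⟩ := hhalf
  -- exterior points near `T`
  have hext_near : ∀ z, dist z T < min ρ1 ρ2 → z ∉ P → 0 < be z ∧ al z < 0 := by
    intro z hz hzP
    have hb : 0 < be z := by
      by_contra hcon
      push Not at hcon
      apply hzP
      apply hball2 z (hz.trans_le (min_le_right _ _))
      rw [hsq]
      nlinarith
    refine ⟨hb, ?_⟩
    by_contra hcon
    push Not at hcon
    exact hzP (hfill z hcon hb.le (hball1 (hz.trans_le (min_le_left _ _))).le)
  have hρ : 0 < min ρ1 ρ2 := lt_min hρ1 hρ2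
  have hExt : ExtAt P T (T - x) s := by
    unfold ExtAt at hext ⊢
    rw [mem_closure_iff_nhds] at hext ⊢
    intro N hN
    obtain ⟨z, ⟨hz1, hz2⟩, hzP, -⟩ := hext _ (Filter.inter_mem hN (Metric.ball_mem_nhds T hρ))
    refine ⟨z, hz1, hzP, ?_⟩
    change 0 < s * cr (T - x) (z - T)
    rw [hsx]
    obtain ⟨h1, h2⟩ := hext_near z hz2 hzP
    exact mul_pos_of_neg_of_neg h2 hc0
  have hHalf : HalfD P T (T - x) s := by
    refine ⟨min ρ1 ρ2, hρ, ?_⟩
    intro z hz hside
    by_contra hzP
    obtain ⟨h1, h2⟩ := hext_near z hz hzP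
    rw [hsx] at hside
    nlinarith [mul_pos_of_neg_of_neg h2 hc0]
  -- a point beyond `T` on the ray from `x`
  have hnx : 0 < ‖T - x‖ := norm_pos_iff.2 (sub_ne_zero.2 hxTne.symm)
  have hnq : 0 < ‖T - q‖ := norm_pos_iff.2 (sub_ne_zero.2 hqT.symm)
  set r : ℝ := ρ2 / (2 * ‖T - x‖) with hr
  have hrpos : 0 < r := by positivity
  set u := pt x T (1 + r) with hu
  have halbeu : ∀ ρ, s * cr (T - q) (pt x T (1 + ρ) - T) = ρ * (s * cr (q - T) (x - T)) := by
    intro ρ
    unfold cr
    simp only [pt_re, pt_im, Complex.sub_re, Complex.sub_im]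
    ring
  have hdistu : ∀ ρ, dist (pt x T (1 + ρ)) T = |ρ| * ‖T - x‖ := by
    intro ρ
    have : pt x T (1 + ρ) - T = ρ • (T - x) := by
      unfold pt; simp only [Complex.real_smul]; push_cast; ring
    rw [dist_eq_norm, this, norm_smul, Real.norm_eq_abs]
  have hukap : u ∈ kap P x T := by
    apply pt_beyond_mem_kap hrpos.le hxT
    intro ρ h0 h1
    apply hball2
    · rw [hdistu, abs_of_nonneg h0]
      calc ρ * ‖T - x‖ ≤ r * ‖T - x‖ := by gcongr
        _ = ρ2 / 2 := by rw [hr]; field_simp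
        _ < ρ2 := by linarith
    · rw [halbeu]; nlinarith
  have huT : u ≠ T := by
    intro h0
    have := hdistu r
    rw [← hu, h0, dist_self, abs_of_pos hrpos] at this
    have : 0 < r * ‖T - x‖ := by positivity
    linarith
  refine ⟨hExt, hHalf, ⟨u, hukap, huT⟩, ?_⟩
  intro hsep hcon
  obtain ⟨C, hCc, hCp, hCs, hxC, hDC⟩ := hcon
  apply hsep
  have hcrx : cr (T - q) (x - q) ≠ 0 := by
    intro h0; rw [h0] at hx; simp at hx
  have c1 : Cn (P \ kap P q T) q x :=
    Cn.of_segment fun z hz => ⟨hqx hz, seg_disj_kap hcrx hz⟩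
  refine c1.trans ⟨C, hCc, hCp, ?_, hxC, hDC⟩
  intro v hv
  refine ⟨(hCs hv).1, ?_⟩
  intro hvk
  -- contradiction via the basic separation lemma at x
  have hvT : v ≠ T := by
    rintro rfl
    exact (hCs hv).2 (T_mem_kap hxT)
  obtain ⟨t, ht1, hve, hvseg⟩ := hvk
  have ht : 1 < t := by
    rcases ht1.eq_or_lt with e | e
    · exfalso; apply hvT; rw [hve, ← e]; simp
    · exact e
  -- w0 near T
  obtain ⟨ε, hε0, hε1, hε2⟩ : ∃ ε : ℝ, 0 < ε ∧ ε ≤ t - 1 ∧ ε * ‖T - q‖ < ρ2 := by
    refine ⟨min (t - 1) (ρ2 / (2 * ‖T - q‖)), ?_, min_le_left _ _, ?_⟩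
    · apply lt_min (by linarith)
      positivity
    · calc _ ≤ ρ2 / (2 * ‖T - q‖) * ‖T - q‖ := by gcongr; exact min_le_right _ _
        _ = ρ2 / 2 := by field_simp
        _ < ρ2 := by linarith
  set w0 := pt q T (1 + ε) with hw0
  have hw0T : w0 - T = ε • (T - q) := by
    rw [hw0]; unfold pt; simp only [Complex.real_smul]; push_cast; ring
  have hnotk : ∀ τ, 0 < τ → pt q T (1 + τ) ∉ kap P x T := by
    intro τ hτ hk
    have h1 := kap_cr' hk
    have e : cr (T - x) (pt q T (1 + τ) - T) = - τ * cr (q - T) (x - T) := by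
      unfold cr
      simp only [pt_re, pt_im, Complex.sub_re, Complex.sub_im]
      ring
    rw [e] at h1
    rcases mul_eq_zero.1 h1 with h2 | h2
    · linarith
    · exact hcr h2
  have c2 : Cn (P \ kap P x T) v w0 := by
    apply Cn.of_segment
    intro z hz
    rw [hve, hw0, mem_segment_iff] at hz
    obtain ⟨θ, k0, k1, rfl⟩ := hz
    have e : pt (pt q T t) (pt q T (1 + ε)) θ = pt q T (1 + ((1 - θ) * (t - 1) + θ * ε)) := by
      apply Complex.ext
      · simp only [pt_re]; ring
      · simp only [pt_im]; ring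
    rw [e]
    have hpos : 0 < (1 - θ) * (t - 1) + θ * ε := by
      rcases k0.eq_or_lt with e0 | e0
      · rw [← e0]; linarith
      · have : 0 ≤ (1 - θ) * (t - 1) := mul_nonneg (by linarith) (by linarith)
        have := mul_pos e0 hε0
        linarith
    refine ⟨?_, hnotk _ hpos⟩
    rw [hve] at hvseg
    apply (seg_pt_iff (by linarith)).1 hvseg
    · linarith
    · nlinarith
  have c3 : Cn (P \ kap P x T) x w0 := (Cn.trans ⟨C, hCc, hCp, hCs, hxC, hv⟩ c2)
  refine bsl h hxTne hukap huT hExt ?_ ?_ c3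
  · have e : s * cr (T - x) (w0 - x) = - ε * (s * cr (q - T) (x - T)) := by
      rw [hw0]
      unfold cr
      simp only [pt_re, pt_im, Complex.sub_re, Complex.sub_im]
      ring
    rw [e]
    nlinarith
  · -- segment w0 u in half disk
    intro z hz
    have hzb : dist z T < ρ2 := by
      have hconv : Convex ℝ (Metric.ball T ρ2) := convex_ball T ρ2
      have h1 : w0 ∈ Metric.ball T ρ2 := by
        rw [Metric.mem_ball, dist_eq_norm, hw0T, norm_smul, Real.norm_of_nonneg hε0.le]
        exact hε2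
      have h2 : u ∈ Metric.ball T ρ2 := by
        rw [Metric.mem_ball, hu, hdistu, abs_of_pos hrpos]
        calc r * ‖T - x‖ = ρ2 / 2 := by rw [hr]; field_simp
          _ < ρ2 := by linarith
      exact Metric.mem_ball.1 (hconv.segment_subset h1 h2 hz)
    apply hball2 z hzb
    rw [mem_segment_iff] at hz
    obtain ⟨θ, k0, k1, rfl⟩ := hz
    have e : s * cr (T - q) (pt w0 u θ - T) = (1 - θ) * (s * cr (T - q) (w0 - T)) +
        θ * (s * cr (T - q) (u - T)) := by
      unfold cr
      simp only [pt_re, pt_im, Complex.sub_re, Complex.sub_im]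
      ring
    rw [e, hw0T, cr_smul_right, cr_self, hu, halbeu]
    have : θ * (r * (s * cr (q - T) (x - T))) ≤ 0 := by
      apply mul_nonpos_of_nonneg_of_nonpos k0
      exact mul_nonpos_of_nonneg_of_nonpos hrpos.le hc0.le
    linarith

end Run7.h395
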