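import Pool.Agent.Run7.h395.Vis

/-!
# Stability of strict visibility, and blockers
-/

open Set Topology Filter Complex

noncomputable section

namespace Run7.h395

variable {n : ℕ} (S : SimplePolygon n)

lemma cone_segment (a b z : ℂ) :
    ∃ r > 0, ∀ w, dist w z < r → w ≠ z → ∀ t : ℝ, 0 < t → t ≤ 1 →
      pt z w t ∈ segment ℝ a b → w ∈ segment ℝ a b := by
  by_cases hz : z ∈ segment ℝ a b
  · -- radius: distance to the end points different from z
    rw [mem_segment_iff] at hz
    obtain ⟨t0, h0, h1, hze⟩ := hz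
    by_cases hab : a = b
    · refine ⟨1, one_pos, ?_⟩
      intro w _ hwz t ht0 _ hmem
      exfalso
      apply hwz
      subst hab
      rw [segment_same, mem_singleton_iff] at hmem
      have hza : z = a := by rw [hze]; simp [pt]
      rw [hza] at hmem ⊢
      have h3 : t • (w - a) = 0 := by rw [← pt_sub_left, hmem, sub_self]
      rcases smul_eq_zero.1 h3 with h4 | h4
      · linarith
      · exact sub_eq_zero.1 h4
    have hn : 0 < ‖b - a‖ := norm_pos_iff.2 (sub_ne_zero.2 (Ne.symm hab))
    set m : ℝ := min (if t0 = 0 then 1 else t0) (if t0 = 1 then 1 else 1 - t0) with hm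
    have hm0 : 0 < m := by
      apply lt_min
      · split_ifs with h
        · norm_num
        · exact lt_of_le_of_ne h0 (Ne.symm h)
      · split_ifs with h
        · norm_num
        · have := lt_of_le_of_ne h1 h
          linarith
    refine ⟨m * ‖b - a‖, by positivity, ?_⟩
    intro w hw hwz t ht0 ht1 hmem
    rw [mem_segment_iff] at hmem ⊢
    obtain ⟨τ, k0, k1, hτ⟩ := hmem
    -- w = z + (τ - t0)/t (b - a)
    have hwe : w = pt a b (t0 + (τ - t0) / t) := by
      have h3 : t • (w - z) = (τ - t0) • (b - a) := by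
        rw [← pt_sub_left z w t, hτ, hze]
        unfold pt
        simp only [Complex.real_smul]
        push_cast
        ring
      have h4 : w - z = ((τ - t0) / t) • (b - a) := by
        have h5 : w - z = (1 / t) • (t • (w - z)) := by
          rw [smul_smul, one_div_mul_cancel ht0.ne', one_smul]
        rw [h5, h3, smul_smul]
        congr 1
        ring
      have h6 : w = z + (w - z) := by ring
      rw [h6, h4, hze]
      unfold pt
      simp only [Complex.real_smul]
      push_cast
      ring
    have hd : |(τ - t0) / t| < m := by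
      rw [hwe, hze] at hw
      have h7 : pt a b (t0 + (τ - t0) / t) - pt a b t0 = ((τ - t0) / t) • (b - a) := by
        unfold pt
        simp only [Complex.real_smul]
        push_cast
        ring
      rw [dist_eq_norm, h7, norm_smul, Real.norm_eq_abs] at hw
      exact lt_of_mul_lt_mul_right hw hn.le
    have hd' := abs_lt.1 hd
    have hml : m ≤ (if t0 = 0 then 1 else t0) := min_le_left _ _
    have hmr : m ≤ (if t0 = 1 then 1 else 1 - t0) := min_le_right _ _
    refine ⟨t0 + (τ - t0) / t, ?_, ?_, hwe⟩
    · split_ifs at hml with h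
      · rw [h]
        have : 0 ≤ (τ - 0) / t := by apply div_nonneg <;> linarith
        linarith
      · linarith [hd'.1]
    · split_ifs at hmr with h
      · rw [h]
        have : (τ - 1) / t ≤ 0 := by apply div_nonpos_of_nonpos_of_nonneg <;> linarith
        linarith
      · linarith [hd'.2]
  · have hcl : IsClosed (segment ℝ a b) := (isCompact_segment a b).isClosed
    obtain ⟨r, hr, hball⟩ := Metric.isOpen_iff.1 hcl.isOpen_compl z hz
    refine ⟨r, hr, ?_⟩
    intro w hw hwz t ht0 ht1 hmem
    exfalso
    refine hball ?_ hmem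
    rw [Metric.mem_ball, pt_dist_left, abs_of_pos ht0]
    rw [dist_eq_norm] at hw
    nlinarith [norm_nonneg (w - z)]

/-- the polygon is locally a cone -/
theorem SimplePolygon.cone (z : ℂ) :
    ∃ r > 0, ∀ w, dist w z < r → w ∈ interior S.region → ∀ t : ℝ, 0 < t → t ≤ 1 →
      pt z w t ∈ interior S.region := by
  have := S.neZero
  have hex : ∀ i : ZMod n, ∃ r > 0, ∀ w, dist w z < r → w ≠ z → ∀ t : ℝ, 0 < t → t ≤ 1 →
      pt z w t ∈ S.edge i → w ∈ S.edge i := fun i => cone_segment _ _ z
  choose r hr hcone using hex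
  have hne : (Finset.univ : Finset (ZMod n)).Nonempty := ⟨0, Finset.mem_univ 0⟩
  set R := Finset.univ.inf' hne r with hR
  have hR0 : 0 < R := (Finset.lt_inf'_iff hne).2 fun i _ => hr i
  refine ⟨R, hR0, ?_⟩
  intro w hw hwi t ht0 ht1
  by_cases hwz : w = z
  · rw [hwz] at hwi ⊢
    have : pt z z t = z := by simp [pt]
    rw [this]; exact hwi
  · have hnf : ∀ x ∈ (fun τ : ℝ => pt z w τ) '' Ioc 0 1, x ∉ frontier S.region := by
      rintro _ ⟨τ, ⟨k0, k1⟩, rfl⟩ hf
      rw [S.region_frontier, mem_iUnion] at hf
      obtain ⟨i, hi⟩ := hf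
      have h1 : dist w z < r i := hw.trans_le (Finset.inf'_le _ (Finset.mem_univ i))
      have h2 := hcone i w h1 hwz τ k0 k1 hi
      exact frontier_not_int (S.edge_sub_frontier i h2) hwi
    have hpre : IsPreconnected ((fun τ : ℝ => pt z w τ) '' Ioc 0 1) :=
      isPreconnected_Ioc.image _ (continuous_pt z w).continuousOn
    rcases int_or_ext S.reg.closed hpre hnf with h | h
    · exact h ⟨t, ⟨ht0, ht1⟩, rfl⟩
    · exfalso
      exact h ⟨1, ⟨one_pos, le_rfl⟩, pt_one z w⟩ (interior_subset hwi)

/-- stability of visibility when one end moves; `H` is a side set -/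
theorem SimplePolygon.stab {A B : ℂ} {H : Set ℂ} (hAB : A ≠ B)
    (hH : ∀ A' ∈ H, ∀ x ∈ openSegment ℝ A' B, x ∈ H)
    (hfree : ∀ w ∈ openSegment ℝ A B, ∃ ρ > 0, ∀ x, dist x w < ρ → x ∈ H →
      x ∈ interior S.region) {ρ : ℝ} (hρ : 0 < ρ) :
    ∃ δ > 0, ∀ A', dist A' A < δ → A' ∈ H → ∀ x ∈ openSegment ℝ A' B, ρ ≤ dist x A →
      x ∈ interior S.region := by
  obtain ⟨rB, hrB, hcone⟩ := S.cone B
  have hn : 0 < ‖B - A‖ := norm_pos_iff.2 (sub_ne_zero.2 hAB.symm)
  obtain ⟨tA, hA0, hA1, hA2⟩ := exists_small (B - A) (show 0 < ρ / 2 by linarith) (1 / 2)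
    (by norm_num)
  obtain ⟨uB, hB0, hB1, hB2⟩ := exists_small (B - A) (show 0 < rB / 2 by linarith) (1 / 2)
    (by norm_num)
  set tB := 1 - uB with htB
  have hAB' : tA ≤ tB := by linarith
  set K := (fun t : ℝ => pt A B t) '' Icc tA tB with hK
  have hKc : IsCompact K := isCompact_Icc.image (continuous_pt A B)
  choose! f hf0 hf using hfree
  set U := ⋃ w ∈ openSegment ℝ A B, Metric.ball w (f w) with hU
  have hUo : IsOpen U := isOpen_biUnion fun w _ => Metric.isOpen_ball
  have hKU : K ⊆ U := by
    rintro _ ⟨t, ⟨h0, h1⟩, rfl⟩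
    have hm : pt A B t ∈ openSegment ℝ A B := pt_mem_openSegment (by linarith) (by linarith)
    exact mem_biUnion hm (Metric.mem_ball_self (hf0 _ hm))
  obtain ⟨δ0, hδ0, hthick⟩ := hKc.exists_thickening_subset_open hUo hKU
  have hgood : ∀ x, x ∈ Metric.thickening δ0 K → x ∈ H → x ∈ interior S.region := by
    intro x hx hxH
    have h1 := hthick hx
    rw [hU, mem_iUnion₂] at h1
    obtain ⟨w, hw, hxw⟩ := h1
    exact hf w hw x hxw hxH
  refine ⟨min δ0 (min (ρ / 2) (rB / 2)), by positivity, ?_⟩
  intro A' hA' hA'H x hx hxρ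
  have hA'0 : dist A' A < δ0 := hA'.trans_le (min_le_left _ _)
  have hA'1 : dist A' A < ρ / 2 := hA'.trans_le ((min_le_right _ _).trans (min_le_left _ _))
  have hA'2 : dist A' A < rB / 2 := hA'.trans_le ((min_le_right _ _).trans (min_le_right _ _))
  have hdist : ∀ t : ℝ, 0 ≤ t → t ≤ 1 → dist (pt A' B t) (pt A B t) ≤ dist A' A := by
    intro t h0 h1
    have e : pt A' B t - pt A B t = (1 - t) • (A' - A) := by
      unfold pt; simp only [Complex.real_smul]; push_cast; ring
    rw [dist_eq_norm, dist_eq_norm, e, norm_smul, Real.norm_of_nonneg (by linarith)]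
    nlinarith [norm_nonneg (A' - A)]
  have hxH : x ∈ H := hH A' hA'H x hx
  have hxorig := hx
  rw [mem_openSegment_iff] at hx
  obtain ⟨t, h0, h1, rfl⟩ := hx
  have htA : tA ≤ t := by
    by_contra hcon
    push Not at hcon
    have h3 := dist_triangle (pt A' B t) (pt A B t) A
    have h4 := hdist t h0.le h1.le
    have h5 : dist (pt A B t) A < ρ / 2 := by
      rw [pt_dist_left, abs_of_pos h0]
      calc t * ‖B - A‖ ≤ tA * ‖B - A‖ := by gcongr
        _ < ρ / 2 := hA2
    linarith
  rcases le_or_gt t tB with h2 | h2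
  · apply hgood _ _ hxH
    rw [Metric.mem_thickening_iff]
    exact ⟨pt A B t, ⟨t, ⟨htA, h2⟩, rfl⟩, (hdist t h0.le h1.le).trans_lt hA'0⟩
  · have hxB : pt A' B tB ∈ interior S.region := by
      have hm : pt A' B tB ∈ openSegment ℝ A' B :=
        pt_mem_openSegment (by linarith) (by linarith)
      apply hgood _ _ (hH A' hA'H _ hm)
      rw [Metric.mem_thickening_iff]
      exact ⟨pt A B tB, ⟨tB, ⟨hAB', le_rfl⟩, rfl⟩,
        (hdist tB (by linarith) (by linarith)).trans_lt hA'0⟩
    have hdB : dist (pt A' B tB) B < rB := by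
      have h3 := dist_triangle (pt A' B tB) (pt A B tB) B
      have h4 := hdist tB (by linarith) (by linarith)
      have h5 : dist (pt A B tB) B < rB / 2 := by
        have e : pt A B tB - B = (-uB) • (B - A) := by
          rw [htB]; unfold pt; simp only [Complex.real_smul]; push_cast; ring
        rw [dist_eq_norm, e, norm_smul, Real.norm_eq_abs, abs_neg, abs_of_pos hB0]
        exact hB2
      linarith
    have h6 := hcone _ hdB hxB ((1 - t) / (1 - tB)) (div_pos (by linarith) (by linarith))
      (by rw [div_le_one (by linarith)]; linarith)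
    have e : pt B (pt A' B tB) ((1 - t) / (1 - tB)) = pt A' B t := by
      have h7 : (1 - tB) ≠ 0 := by linarith
      apply Complex.ext
      · simp only [pt_re]; field_simp; ring
      · simp only [pt_im]; field_simp; ring
    rw [e] at h6
    exact h6

/-- visibility is stable when one end moves along a line whose relevant side is free -/
theorem SimplePolygon.svis_open {O w u : ℂ} {τ : ℝ} (h : svis S.region O w)
    (hfr : Fr S.region w u τ) (hO : 0 < τ * cr u (O - w)) :
    ∃ δ > 0, ∀ w', dist w' w < δ → cr u (w' - w) = 0 → svis S.region O w' := by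
  have hOw : w ≠ O := by
    rintro rfl; simp [cr_zero_right] at hO
  obtain ⟨r, hr, hball⟩ := hfr
  obtain ⟨δ, hδ, hst⟩ := S.stab (A := w) (B := O) (H := univ) hOw (fun _ _ _ _ => mem_univ _)
    (by
      intro x hx
      have hx' : x ∈ interior S.region := by
        apply h; rw [openSegment_symm]; exact hx
      obtain ⟨ρ, hρ, hb⟩ := Metric.isOpen_iff.1 isOpen_interior x hx'
      exact ⟨ρ, hρ, fun y hy _ => hb hy⟩) hr
  refine ⟨δ, hδ, ?_⟩
  intro w' hw' hcr x hx
  rw [openSegment_symm] at hx
  rcases le_or_gt r (dist x w) with h1 | h1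
  · exact hst w' hw' (mem_univ _) x hx h1
  · apply hball x h1
    rw [mem_openSegment_iff] at hx
    obtain ⟨t, h0, h2, rfl⟩ := hx
    have e : τ * cr u (pt w' O t - w) = (1 - t) * (τ * cr u (w' - w)) + t * (τ * cr u (O - w)) := by
      unfold cr
      simp only [pt_re, pt_im, Complex.sub_re, Complex.sub_im]
      ring
    rw [e, hcr]
    have := mul_pos h0 hO
    linarith

/-- the first blocked point of a segment seen from `O` -/
theorem SimplePolygon.blocker {O y z : ℂ} {τ : ℝ} (hO : 0 < τ * cr (z - y) (O - y))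
    (hyz : segment ℝ y z ⊆ S.region)
    (hfree : ∀ w ∈ segment ℝ y z, Fr S.region w (z - y) τ)
    (h1 : svis S.region O y) (h2 : ¬ svis S.region O z) :
    ∃ t : ℝ, 0 < t ∧ t ≤ 1 ∧ segment ℝ O (pt y z t) ⊆ S.region ∧
      (∀ t', 0 ≤ t' → t' < t → svis S.region O (pt y z t')) ∧
      ∃ c, S.v c ∈ openSegment ℝ O (pt y z t) := by
  have hcl := S.reg.closed
  have hOside : ∀ t, 0 < τ * cr (z - y) (O - pt y z t) := by
    intro t
    have e : τ * cr (z - y) (O - pt y z t) = τ * cr (z - y) (O - y) := by
      unfold cr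
      simp only [pt_re, pt_im, Complex.sub_re, Complex.sub_im]
      ring
    rw [e]; exact hO
  have hzy : z - y ≠ 0 := by
    intro h0; rw [h0, cr_zero_left] at hO; simp at hO
  set B : Set ℝ := {t | t ∈ Icc 0 1 ∧ ¬ svis S.region O (pt y z t)} with hB
  have hBcl : IsClosed B := by
    rw [← isOpen_compl_iff, Metric.isOpen_iff]
    intro t ht
    simp only [hB, mem_compl_iff, mem_ofPred_eq, not_and, not_not] at ht
    by_cases htI : t ∈ Icc (0 : ℝ) 1
    · obtain ⟨δ, hδ, hop⟩ := S.svis_open (ht htI)
        (hfree _ (pt_mem_segment htI.1 htI.2)) (hOside t)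
      refine ⟨δ / ‖z - y‖, div_pos hδ (norm_pos_iff.2 hzy), ?_⟩
      rintro t' ht' ⟨-, hns⟩
      apply hns
      apply hop
      · have e : pt y z t' - pt y z t = (t' - t) • (z - y) := by
          unfold pt; simp only [Complex.real_smul]; push_cast; ring
        rw [dist_eq_norm, e, norm_smul, Real.norm_eq_abs, ← lt_div_iff₀ (norm_pos_iff.2 hzy)]
        rw [Metric.mem_ball, Real.dist_eq] at ht'
        exact ht'
      · unfold cr
        simp only [pt_re, pt_im, Complex.sub_re, Complex.sub_im]
        ring
    · obtain ⟨ε, hε, hb⟩ := Metric.isOpen_iff.1 (isClosed_Icc.isOpen_compl) t htI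
      exact ⟨ε, hε, fun t' ht' hmem => hb ht' hmem.1⟩
  have hBc : IsCompact B := isCompact_Icc.of_isClosed_subset hBcl fun t ht => ht.1
  have hBne : B.Nonempty := ⟨1, ⟨zero_le_one, le_rfl⟩, by simpa using h2⟩
  obtain ⟨t, ⟨⟨h0t, ht1⟩, htn⟩, hmin⟩ := hBc.exists_isLeast hBne
  have ht0 : 0 < t := by
    rcases h0t.eq_or_lt with e | e
    · exfalso; apply htn; rw [← e, pt_zero]; exact h1
    · exact e
  have hbefore : ∀ t', 0 ≤ t' → t' < t → svis S.region O (pt y z t') := by
    intro t' h0' hlt
    by_contra hcon
    have := hmin ⟨⟨h0', (hlt.trans_le ht1).le⟩, hcon⟩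
    linarith
  have hOP : O ∈ S.region := by
    have hOy : O ≠ y := by
      rintro rfl; simp [cr_zero_right] at hO
    have h3 : O ∈ closure (openSegment ℝ O y) := by
      rw [closure_openSegment]; exact left_mem_segment ℝ _ _
    exact hcl.closure_subset_iff.2 (h1.trans interior_subset) h3
  have hsegw : segment ℝ O (pt y z t) ⊆ S.region := by
    intro x hx
    rw [mem_segment_iff] at hx
    obtain ⟨s, hs0, hs1, rfl⟩ := hx
    rcases hs0.eq_or_lt with e | e
    · rw [← e, pt_zero]; exact hOP
    · rcases hs1.eq_or_lt with e1 | e1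
      · rw [e1, pt_one]; exact hyz (pt_mem_segment h0t ht1)
      · have hcont : Continuous fun t' : ℝ => pt O (pt y z t') s := by
          unfold pt; fun_prop
        have hcl2 : t ∈ closure (Ioo 0 t) := by
          rw [closure_Ioo (by linarith)]
          exact ⟨by linarith, le_rfl⟩
        have himg := image_closure_subset_closure_image hcont ⟨t, hcl2, rfl⟩
        refine hcl.closure_subset_iff.2 ?_ himg
        rintro _ ⟨t', ⟨k0, k1⟩, rfl⟩
        exact interior_subset (hbefore t' k0.le k1 (pt_mem_openSegment e e1))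
  refine ⟨t, ht0, ht1, hsegw, hbefore, ?_⟩
  -- a frontier point on the blocked segment
  obtain ⟨x, hx, hxi⟩ := Set.not_subset.1 htn
  have hxP : x ∈ S.region := hsegw (openSegment_subset_segment ℝ _ _ hx)
  set w := pt y z t with hw
  rcases S.frontier_cases (mem_frontier_of hxP hxi) with ⟨i, hi⟩ | ⟨i, hi⟩
  · exact ⟨i, hi ▸ hx⟩
  · have hcr := S.oedge_cross hi hx hsegw
    have hOw : O ≠ w := by
      intro h0
      have := hOside t
      rw [← hw, ← h0, sub_self, cr_zero_right] at this
      simp at this
    rw [mem_openSegment_iff] at hx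
    obtain ⟨s, hs0, hs1, hxe⟩ := hx
    have hi' := hi
    unfold SimplePolygon.oedge at hi'
    rw [mem_openSegment_iff] at hi'
    obtain ⟨t0, k0, k1, hxe'⟩ := hi'
    obtain ⟨c, hc⟩ := parallel_of_cr (S.dir_ne i) hcr
    have hc0 : c ≠ 0 := by
      rintro rfl
      rw [zero_smul, sub_eq_zero] at hc
      exact hOw hc.symm
    -- points of the edge near w, if w is on the edge
    have hwedge : ∀ V, segment ℝ x V ⊆ frontier S.region → ∀ lam : ℝ, 0 < lam →
        w - x = lam • (V - x) → 1 < lam := by
      intro V hV lam hl0 hl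
      by_contra hcon
      push Not at hcon
      obtain ⟨r, hr, hball⟩ := hfree w (pt_mem_segment h0t ht1)
      obtain ⟨μ, hμ0, hμ1, hμr⟩ := exists_small (w - x) hr 1 one_pos
      have hmem : pt w x μ ∈ segment ℝ x V := by
        rw [mem_segment_iff]
        refine ⟨(1 - μ) * lam, by nlinarith, by nlinarith, ?_⟩
        have e1 : pt x V ((1 - μ) * lam) = x + (1 - μ) • (lam • (V - x)) := by
          rw [smul_smul]; rfl
        rw [e1, ← hl]
        unfold pt; simp only [Complex.real_smul]; push_cast; ring
      refine frontier_not_int (hV hmem) (hball _ ?_ ?_)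
      · rw [pt_dist_left, abs_of_pos hμ0, norm_sub_rev]; exact hμr
      · have e2 : pt w x μ - w = (μ * (1 - s)) • (O - w) := by
          rw [pt_sub_left, hxe]
          unfold pt; simp only [Complex.real_smul]; push_cast; ring
        rw [e2, cr_smul_right]
        have h5 := hOside t
        have h6 : 0 < μ * (1 - s) := mul_pos hμ0 (by linarith)
        have : τ * (μ * (1 - s) * cr (z - y) (O - w)) =
            (μ * (1 - s)) * (τ * cr (z - y) (O - w)) := by ring
        rw [this]
        exact mul_pos h6 h5
    have hwx : w - x = ((1 - s) * c) • S.dir i := by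
      rw [hxe, mul_smul, ← hc]
      unfold pt; simp only [Complex.real_smul]; push_cast; ring
    have hfin : ∀ V lam, segment ℝ x V ⊆ frontier S.region → (0 : ℝ) < lam →
        w - x = lam • (V - x) → V ∈ openSegment ℝ O w := by
      intro V lam hV hl0 hl
      have hl1 := hwedge V hV lam hl0 hl
      rw [mem_openSegment_iff]
      refine ⟨s + (1 - s) / lam, ?_, ?_, ?_⟩
      · have : 0 < (1 - s) / lam := div_pos (by linarith) hl0
        linarith
      · have : (1 - s) / lam < (1 - s) := div_lt_self (by linarith) hl1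
        linarith
      · have e1 : V - x = (1 / lam) • (w - x) := by
          rw [hl, smul_smul, one_div_mul_cancel hl0.ne', one_smul]
        have e2 : V = x + (V - x) := by ring
        rw [e2, e1, hxe]
        unfold pt; simp only [Complex.real_smul]; push_cast
        field_simp
        ring
    rcases lt_or_gt_of_ne hc0 with hneg | hpos
    · -- direction towards v i
      refine ⟨i, hfin (S.v i) ((1 - s) * (-c) / t0) ?_ ?_ ?_⟩
      · refine subset_trans ?_ (S.edge_sub_frontier i)
        exact (convex_segment _ _).segment_subset (S.oedge_sub i hi) (left_mem_segment ℝ _ _)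
      · have : 0 < (1 - s) * (-c) := mul_pos (by linarith) (by linarith)
        positivity
      · rw [hwx]
        have e1 : S.v i - x = (-t0) • S.dir i := by
          rw [hxe']; unfold pt SimplePolygon.dir; simp only [Complex.real_smul]; push_cast; ring
        rw [e1, smul_smul]
        congr 1
        field_simp
    · refine ⟨i + 1, hfin (S.v (i + 1)) ((1 - s) * c / (1 - t0)) ?_ ?_ ?_⟩
      · refine subset_trans ?_ (S.edge_sub_frontier i)
        exact (convex_segment _ _).segment_subset (S.oedge_sub i hi) (right_mem_segment ℝ _ _)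
      · have h3 : 0 < (1 - s) * c := mul_pos (by linarith) hpos
        have h4 : 0 < 1 - t0 := by linarith
        positivity
      · rw [hwx]
        have h4 : 1 - t0 ≠ 0 := by linarith
        have e1 : S.v (i + 1) - x = (1 - t0) • S.dir i := by
          rw [hxe']; unfold pt SimplePolygon.dir; simp only [Complex.real_smul]; push_cast; ring
        rw [e1, smul_smul]
        congr 1
        field_simp

end Run7.h395
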