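import Pool.Agent.Run7.h395.Basic

/-!
# A separation tool in the plane: no Jordan curve theorem needed
-/

open Set Topology Filter Complex

noncomputable section

namespace Run7.h395

/-- `x` and `y` lie on a common continuum inside `F` -/
def Cn (F : Set ℂ) (x y : ℂ) : Prop :=
  ∃ C : Set ℂ, IsCompact C ∧ IsPreconnected C ∧ C ⊆ F ∧ x ∈ C ∧ y ∈ C

lemma Cn.symm {F : Set ℂ} {x y : ℂ} (h : Cn F x y) : Cn F y x := by
  obtain ⟨C, h1, h2, h3, h4, h5⟩ := h
  exact ⟨C, h1, h2, h3, h5, h4⟩

lemma Cn.trans {F : Set ℂ} {x y z : ℂ} (h : Cn F x y) (h' : Cn F y z) : Cn F x z := by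
  obtain ⟨C, h1, h2, h3, h4, h5⟩ := h
  obtain ⟨C', h1', h2', h3', h4', h5'⟩ := h'
  exact ⟨C ∪ C', h1.union h1', h2.union y h5 h4' h2', union_subset h3 h3', Or.inl h4, Or.inr h5'⟩

lemma Cn.mono {F G : Set ℂ} {x y : ℂ} (h : Cn F x y) (hFG : F ⊆ G) : Cn G x y := by
  obtain ⟨C, h1, h2, h3, h4, h5⟩ := h
  exact ⟨C, h1, h2, h3.trans hFG, h4, h5⟩

lemma isCompact_segment (a b : ℂ) : IsCompact (segment ℝ a b) := by
  rw [segment_eq_image']
  exact isCompact_Icc.image (by fun_prop)

lemma Cn.of_segment {F : Set ℂ} {x y : ℂ} (h : segment ℝ x y ⊆ F) : Cn F x y :=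
  ⟨segment ℝ x y, isCompact_segment x y, (convex_segment x y).isPreconnected, h,
    left_mem_segment ℝ x y, right_mem_segment ℝ x y⟩

lemma Cn.of_convex {F K : Set ℂ} {x y : ℂ} (hK : Convex ℝ K) (hF : K ⊆ F) (hx : x ∈ K)
    (hy : y ∈ K) : Cn F x y :=
  Cn.of_segment ((hK.segment_subset hx hy).trans hF)

/-- continuous logarithms of Moebius quotients on a closed set with connected complement -/
theorem log_exists {P : Set ℂ} (hcl : IsClosed P) (hpc : IsPreconnected Pᶜ) {A B : ℂ}
    (hA : A ∉ P) (hB : B ∉ P) :
    ∃ L : ℂ → ℂ, ContinuousOn L P ∧ ∀ z ∈ P, Complex.exp (L z) = (z - A) / (z - B) := by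
  refine hpc.induction₂ (fun A B => ∃ L : ℂ → ℂ, ContinuousOn L P ∧
    ∀ z ∈ P, Complex.exp (L z) = (z - A) / (z - B)) ?_ ?_ ?_ hA hB
  · intro A hA
    have hopen : IsOpen Pᶜ := hcl.isOpen_compl
    obtain ⟨δ, hδ, hball⟩ := Metric.isOpen_iff.1 hopen A hA
    refine mem_nhdsWithin_of_mem_nhds ?_
    filter_upwards [Metric.ball_mem_nhds A hδ] with B hB
    have hdist : ∀ z ∈ P, δ ≤ ‖z - A‖ := by
      intro z hz
      by_contra hlt
      push Not at hlt
      exact hball (by rw [Metric.mem_ball, dist_eq_norm]; exact hlt) hz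
    have hslit : ∀ z ∈ P, (z - B) / (z - A) ∈ slitPlane := by
      intro z hz
      have h1 := hdist z hz
      have h2 : z - A ≠ 0 := by
        intro h0
        rw [h0, norm_zero] at h1
        linarith
      have h3 : (z - B) / (z - A) = 1 + (A - B) / (z - A) := by
        field_simp
        ring
      rw [h3]
      apply Complex.mem_slitPlane_of_norm_lt_one
      rw [norm_div, div_lt_one (by linarith)]
      rw [Metric.mem_ball, dist_eq_norm] at hB
      rw [norm_sub_rev]
      linarith
    refine ⟨fun z => - Complex.log ((z - B) / (z - A)), ?_, ?_⟩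
    · apply ContinuousOn.neg
      apply ContinuousOn.clog
      · apply ContinuousOn.div
        · fun_prop
        · fun_prop
        · intro z hz h0
          have h1 := hdist z hz
          rw [h0, norm_zero] at h1
          linarith
      · exact hslit
    · intro z hz
      have h1 := hslit z hz
      have h2 : (z - B) / (z - A) ≠ 0 := slitPlane_ne_zero h1
      simp only
      rw [Complex.exp_neg, Complex.exp_log h2, inv_div]
  · rintro A B C hA hB hC ⟨L1, hL1, h1⟩ ⟨L2, hL2, h2⟩
    refine ⟨fun z => L1 z + L2 z, hL1.add hL2, ?_⟩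
    intro z hz
    have hzB : z - B ≠ 0 := by
      intro h0
      rw [sub_eq_zero] at h0
      exact hB (h0 ▸ hz)
    have hzC : z - C ≠ 0 := by
      intro h0
      rw [sub_eq_zero] at h0
      exact hC (h0 ▸ hz)
    simp only
    rw [Complex.exp_add, h1 z hz, h2 z hz]
    field_simp
  · rintro A B hA hB ⟨L, hL, h⟩
    refine ⟨fun z => - L z, hL.neg, ?_⟩
    intro z hz
    simp only
    rw [Complex.exp_neg, h z hz, inv_div]

lemma constant_of_exp {C : Set ℂ} (hC : IsPreconnected C) {g : ℂ → ℂ} (hg : ContinuousOn g C)
    (h : ∀ z ∈ C, ∀ w ∈ C, Complex.exp (g z) = Complex.exp (g w)) {x y : ℂ} (hx : x ∈ C)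
    (hy : y ∈ C) : g x = g y := by
  classical
  have hex : ∀ z ∈ C, ∃ n : ℤ, g z = g x + n * (2 * Real.pi * I) := by
    intro z hz
    exact (Complex.exp_eq_exp_iff_exists_int).1 (h z hz x hx)
  choose! n hn using hex
  have hcont : ContinuousOn n C := by
    rw [Int.isClosedEmbedding_coe_real.isEmbedding.continuousOn_iff]
    have h2 : ContinuousOn (fun z => ((g z - g x).im) / (2 * Real.pi)) C := by
      apply ContinuousOn.div_const
      exact Complex.continuous_im.comp_continuousOn (hg.sub continuousOn_const)
    refine h2.congr ?_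
    intro z hz
    have h3 := hn z hz
    simp only [Function.comp]
    rw [h3]
    have h4 : (2 * Real.pi) ≠ 0 := by positivity
    simp only [add_sub_cancel_left]
    field_simp
    simp
  have h5 := hC.constant hcont hx hy
  have h6 := hn x hx
  have h7 := hn y hy
  rw [h7, ← h5]
  exact h6

/-- identity describing the quotient `(z-A)/(z-B)` -/
lemma quot_im (z A B : ℂ) :
    ((z - A) / (z - B)).im = - ori A B z / normSq (z - B) := by
  rw [Complex.div_im]
  unfold ori cr
  simp only [Complex.sub_re, Complex.sub_im]
  ring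

/-- If `c` and `d` are on different sides of the cut `[A,B]` whose end points are outside `P`, and
the segment from `c` to `d` lies in `P` and crosses the cut, then `c` and `d` are separated by
the cut in `P`. -/
theorem no_cross {P : Set ℂ} (hcl : IsClosed P) (hpc : IsPreconnected Pᶜ) {A B c d : ℂ}
    (hA : A ∉ P) (hB : B ∉ P) (hcd : segment ℝ c d ⊆ P)
    (h1 : ori A B c * ori A B d < 0) (h2 : ori c d A * ori c d B < 0) :
    ¬ Cn (P \ segment ℝ A B) c d := by
  rintro ⟨C, -, hCp, hCsub, hc, hd⟩
  obtain ⟨L, hL, hexp⟩ := log_exists hcl hpc hA hB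
  have hne : ∀ z ∈ P, z - A ≠ 0 ∧ z - B ≠ 0 := by
    intro z hz
    constructor
    · intro h0
      rw [sub_eq_zero] at h0
      exact hA (h0 ▸ hz)
    · intro h0
      rw [sub_eq_zero] at h0
      exact hB (h0 ▸ hz)
  have hquot_ne : ∀ z ∈ P, (z - A) / (z - B) ≠ 0 := by
    intro z hz
    exact div_ne_zero (hne z hz).1 (hne z hz).2
  -- points of `P` with zero imaginary part of the quotient
  have hAB : A ≠ B := by
    rintro rfl
    simp [ori, cr] at h1
  -- first: log of quotient continuous on C
  have hslit1 : ∀ z ∈ C, (z - A) / (z - B) ∈ slitPlane := by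
    intro z hz
    have hzP := (hCsub hz).1
    have hzS := (hCsub hz).2
    rw [Complex.mem_slitPlane_iff]
    by_contra hcon
    push Not at hcon
    obtain ⟨hre, him⟩ := hcon
    apply hzS
    -- z - A = -r (z - B), r > 0
    have hq : (z - A) / (z - B) = (((z - A) / (z - B)).re : ℂ) := by
      apply Complex.ext
      · simp
      · rw [him]; simp
    set r : ℝ := ((z - A) / (z - B)).re with hr
    have h3 : z - A = r * (z - B) := by
      rw [← hq]
      field_simp [(hne z hzP).2]
    have h4 : (1 - r) ≠ 0 := by linarith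
    rw [mem_segment_iff]
    refine ⟨(-r) / (1 - r), ?_, ?_, ?_⟩
    · apply div_nonneg
      · linarith
      · linarith
    · rw [div_le_one (by linarith)]
      linarith
    · have h5 : (1 - r : ℂ) ≠ 0 := by
        exact_mod_cast h4
      have h6 : z = (A - r * B) / (1 - r) := by
        field_simp
        linear_combination h3
      rw [h6]
      unfold pt
      rw [Complex.real_smul]
      push_cast
      field_simp
      ring
  -- second: log of minus quotient continuous on segment c d
  have hslit2 : ∀ z ∈ segment ℝ c d, - ((z - A) / (z - B)) ∈ slitPlane := by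
    intro z hz
    have hzP := hcd hz
    rw [Complex.mem_slitPlane_iff]
    by_contra hcon
    push Not at hcon
    obtain ⟨hre, him⟩ := hcon
    simp only [Complex.neg_re, Complex.neg_im, neg_eq_zero, Left.neg_nonpos_iff] at hre him
    have hq : (z - A) / (z - B) = (((z - A) / (z - B)).re : ℂ) := by
      apply Complex.ext
      · simp
      · rw [him]; simp
    set r : ℝ := ((z - A) / (z - B)).re with hr
    have h3 : z - A = r * (z - B) := by
      rw [← hq]
      field_simp [(hne z hzP).2]
    -- then A and B are weakly on the same side of the line c d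
    rw [mem_segment_iff] at hz
    obtain ⟨t, -, -, rfl⟩ := hz
    have e1 : ori c d A = r * ori c d B := by
      have h3re := congrArg Complex.re h3
      have h3im := congrArg Complex.im h3
      simp only [Complex.sub_re, pt_re, Complex.mul_re, Complex.ofReal_re, Complex.sub_im, pt_im,
        Complex.ofReal_im, zero_mul, sub_zero, Complex.mul_im, add_zero] at h3re h3im
      unfold ori cr
      simp only [Complex.sub_re, Complex.sub_im]
      linear_combination (-(d.re - c.re)) * h3im + (d.im - c.im) * h3re
    rw [e1] at h2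
    nlinarith [mul_nonneg hre (mul_self_nonneg (ori c d B))]
  have hsegC : ∀ z ∈ C, z ∈ P := fun z hz => (hCsub hz).1
  have hcP : c ∈ P := hsegC c hc
  have hdP : d ∈ P := hsegC d hd
  -- constants
  have hquotcont : ContinuousOn (fun z : ℂ => (z - A) / (z - B)) P := by
    apply ContinuousOn.div
    · fun_prop
    · fun_prop
    · intro z hz
      exact (hne z hz).2
  have hk1 : Complex.log ((c - A) / (c - B)) - L c = Complex.log ((d - A) / (d - B)) - L d := by
    refine constant_of_exp hCp (g := fun z => Complex.log ((z - A) / (z - B)) - L z) ?_ ?_ hc hd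
    · apply ContinuousOn.sub
      · exact (hquotcont.mono hsegC).clog hslit1
      · exact hL.mono hsegC
    · have key : ∀ z ∈ C, Complex.exp (Complex.log ((z - A) / (z - B)) - L z) = 1 := by
        intro z hz
        rw [Complex.exp_sub, Complex.exp_log (hquot_ne z (hsegC z hz)), hexp z (hsegC z hz)]
        exact div_self (hquot_ne z (hsegC z hz))
      intro z hz w hw
      rw [key z hz, key w hw]
  have hk2 : Complex.log (-((c - A) / (c - B))) - L c =
      Complex.log (-((d - A) / (d - B))) - L d := by
    refine constant_of_exp (convex_segment c d).isPreconnected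
      (g := fun z => Complex.log (-((z - A) / (z - B))) - L z) ?_ ?_
      (left_mem_segment ℝ c d) (right_mem_segment ℝ c d)
    · apply ContinuousOn.sub
      · exact ((hquotcont.mono hcd).neg).clog hslit2
      · exact hL.mono hcd
    · have key : ∀ z ∈ segment ℝ c d,
          Complex.exp (Complex.log (-((z - A) / (z - B))) - L z) = -1 := by
        intro z hz
        rw [Complex.exp_sub, Complex.exp_log (neg_ne_zero.2 (hquot_ne z (hcd hz))),
          hexp z (hcd hz), neg_div, div_self (hquot_ne z (hcd hz))]
      intro z hz w hw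
      rw [key z hz, key w hw]
  -- imaginary parts of quotient at c and d have opposite signs
  have himc : ((c - A) / (c - B)).im = - ori A B c / normSq (c - B) := quot_im c A B
  have himd : ((d - A) / (d - B)).im = - ori A B d / normSq (d - B) := quot_im d A B
  have hnc : 0 < normSq (c - B) := Complex.normSq_pos.2 (hne c hcP).2
  have hnd : 0 < normSq (d - B) := Complex.normSq_pos.2 (hne d hdP).2
  have hlogc : ∀ w : ℂ, 0 < w.im → Complex.log (-w) = Complex.log w - Real.pi * I := by
    intro w hw
    rw [Complex.log, Complex.log, norm_neg, Complex.arg_neg_eq_arg_sub_pi_of_im_pos hw]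
    push_cast
    ring
  have hlogd : ∀ w : ℂ, w.im < 0 → Complex.log (-w) = Complex.log w + Real.pi * I := by
    intro w hw
    rw [Complex.log, Complex.log, norm_neg, Complex.arg_neg_eq_arg_add_pi_of_im_neg hw]
    push_cast
    ring
  have hpiI : (Real.pi : ℂ) * I ≠ 0 := by
    apply mul_ne_zero
    · exact_mod_cast Real.pi_ne_zero
    · exact I_ne_zero
  rcases mul_neg_iff.1 h1 with ⟨hc1, hd1⟩ | ⟨hc1, hd1⟩
  · have e1 := hlogd _ (show ((c - A) / (c - B)).im < 0 by
      rw [himc]; exact div_neg_of_neg_of_pos (by linarith) hnc)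
    have e2 := hlogc _ (show 0 < ((d - A) / (d - B)).im by
      rw [himd]; exact div_pos (by linarith) hnd)
    rw [e1, e2] at hk2
    apply hpiI
    linear_combination (-1 / 2) * hk1 + (1 / 2) * hk2
  · have e1 := hlogc _ (show 0 < ((c - A) / (c - B)).im by
      rw [himc]; exact div_pos (by linarith) hnc)
    have e2 := hlogd _ (show ((d - A) / (d - B)).im < 0 by
      rw [himd]; exact div_neg_of_neg_of_pos (by linarith) hnd)
    rw [e1, e2] at hk2
    apply hpiI
    linear_combination (1 / 2) * hk1 - (1 / 2) * hk2

end Run7.h395
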