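import Pool.Agent.Run7.h395.Near

/-!
# Seeing the points of an edge near a visible vertex
-/

open Set Topology Filter Complex

noncomputable section

namespace Run7.h395

variable {n : ℕ} (S : SimplePolygon n)

/-- an open cone at `T` -/
def coneAt (T a b : ℂ) : Set ℂ := {z | ∃ α β : ℝ, 0 < α ∧ 0 < β ∧ z = T + α • a + β • b}

lemma coneAt_convex (T a b : ℂ) : Convex ℝ (coneAt T a b) := by
  rw [convex_iff_segment_subset]
  rintro x ⟨α, β, hα, hβ, rfl⟩ y ⟨α', β', hα', hβ', rfl⟩ z hz
  rw [mem_segment_iff] at hz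
  obtain ⟨t, h0, h1, rfl⟩ := hz
  refine ⟨(1 - t) * α + t * α', (1 - t) * β + t * β', ?_, ?_, ?_⟩
  · rcases h0.eq_or_lt with h | h
    · rw [← h]; linarith
    · have := mul_pos h hα'
      have := mul_nonneg (by linarith : 0 ≤ 1 - t) hα.le
      linarith
  · rcases h0.eq_or_lt with h | h
    · rw [← h]; linarith
    · have := mul_pos h hβ'
      have := mul_nonneg (by linarith : 0 ≤ 1 - t) hβ.le
      linarith
  · unfold pt; simp only [Complex.real_smul]; push_cast; ring

/-- a small cone without frontier points is inside or outside -/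
lemma cone_cases {P : Set ℂ} (hP : IsClosed P) {T a b : ℂ} {r : ℝ}
    (h : ∀ z ∈ coneAt T a b, dist z T < r → z ∉ frontier P) :
    (∀ z ∈ coneAt T a b, dist z T < r → z ∈ interior P) ∨
      (∀ z ∈ coneAt T a b, dist z T < r → z ∉ P) := by
  have hK : IsPreconnected (coneAt T a b ∩ Metric.ball T r) :=
    ((coneAt_convex T a b).inter (convex_ball T r)).isPreconnected
  rcases int_or_ext hP hK (fun x hx => h x hx.1 hx.2) with h1 | h1
  · left; intro z hz hd; exact h1 ⟨hz, hd⟩
  · right; intro z hz hd; exact h1 ⟨hz, hd⟩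

/-- a small point of a cone near the ray `a` -/
lemma exists_small2 (a b : ℂ) {r : ℝ} (hr : 0 < r) (M : ℝ) (hM : 0 < M) :
    ∃ t : ℝ, 0 < t ∧ t < M ∧ t * ‖a‖ < r ∧ t * ‖b‖ < r := by
  obtain ⟨t1, h1, h2, h3⟩ := exists_small a hr M hM
  obtain ⟨t2, h4, h5, h6⟩ := exists_small b hr M hM
  refine ⟨min t1 t2, lt_min h1 h4, (min_le_left _ _).trans_lt h2, ?_, ?_⟩
  · exact (mul_le_mul_of_nonneg_right (min_le_left _ _) (norm_nonneg _)).trans_lt h3
  · exact (mul_le_mul_of_nonneg_right (min_le_right _ _) (norm_nonneg _)).trans_lt h6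

/-- near a vertex, the cone between an edge and a visible direction on its inner side is inside -/
lemma SimplePolygon.cone_inside {T F F' x : ℂ} {σ σ' : ℝ} (hσ : σ = 1 ∨ σ = -1)
    (hσ' : σ' = 1 ∨ σ' = -1)
    (hvf : ∃ r > 0, ∀ z, dist z T < r → z ∈ frontier S.region →
      (∃ t : ℝ, 0 ≤ t ∧ z - T = t • (F - T)) ∨ (∃ t : ℝ, 0 ≤ t ∧ z - T = t • (F' - T)))
    (hF : ∀ μ : ℝ, 0 < μ → μ < 1 → Fr S.region (pt T F μ) (F - T) σ)
    (hF' : ∀ μ : ℝ, 0 < μ → μ < 1 → Fx S.region (pt T F' μ) (F' - T) (-σ'))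
    (hx : svis S.region T x) (hside : 0 < σ * cr (F - T) (x - T)) :
    ∃ r > 0, ∀ z ∈ coneAt T (F - T) (x - T), dist z T < r → z ∈ interior S.region := by
  have hcl := S.reg.closed
  set P := S.region with hP
  set a := F - T with ha
  set b := F' - T with hb
  set d := x - T with hd
  obtain ⟨r, hr, hfr⟩ := hvf
  have had : cr a d ≠ 0 := by
    intro h; rw [h] at hside; simp at hside
  have hσ0 : σ ≠ 0 := by rcases hσ with h | h <;> rw [h] <;> norm_num
  -- interior points near the ray a
  have hneara : ∀ c : ℂ, 0 < σ * cr a c → ∀ r' > 0, ∃ z ∈ coneAt T a c, dist z T < r' ∧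
      z ∈ interior P := by
    intro c hc r' hr'
    obtain ⟨μ, μ0, μ1, μr⟩ := exists_small a (show 0 < r' / 2 by linarith) 1 one_pos
    obtain ⟨ρ, hρ, hball⟩ := hF μ μ0 μ1
    obtain ⟨ε, ε0, ε1, εr⟩ := exists_small c (show 0 < min ρ (r' / 2) by positivity) 1 one_pos
    refine ⟨T + μ • a + ε • c, ⟨μ, ε, μ0, ε0, rfl⟩, ?_, ?_⟩
    · have e : T + μ • a + ε • c - T = μ • a + ε • c := by ring
      rw [dist_eq_norm, e]
      refine (norm_add_le _ _).trans_lt ?_
      rw [norm_smul, norm_smul, Real.norm_eq_abs, Real.norm_eq_abs, abs_of_pos μ0, abs_of_pos ε0]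
      have := lt_of_lt_of_le εr (min_le_right _ _)
      linarith
    · apply hball
      · have e : T + μ • a + ε • c - pt T F μ = ε • c := by unfold pt; rw [ha]; ring
        rw [dist_eq_norm, e, norm_smul, Real.norm_eq_abs, abs_of_pos ε0]
        exact lt_of_lt_of_le εr (min_le_left _ _)
      · have e : T + μ • a + ε • c - pt T F μ = ε • c := by unfold pt; rw [ha]; ring
        rw [e, cr_smul_right]
        have : σ * (ε * cr a c) = ε * (σ * cr a c) := by ring
        rw [this]; positivity
  refine ⟨r, hr, ?_⟩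
  by_cases hno : ∀ z ∈ coneAt T a d, dist z T < r → z ∉ frontier P
  · rcases cone_cases hcl hno with h | h
    · exact h
    · exfalso
      obtain ⟨z, hz, hzr, hzi⟩ := hneara d hside r hr
      exact h z hz hzr (interior_subset hzi)
  exfalso
  push Not at hno
  obtain ⟨z, ⟨α, β, hα, hβ, hz⟩, hzr, hzf⟩ := hno
  have hzT : z - T = α • a + β • d := by rw [hz]; ring
  rcases hfr z hzr hzf with ⟨t, -, ht⟩ | ⟨t, ht0, ht⟩
  · -- on the ray a: impossible
    have h1 : cr a (z - T) = 0 := by rw [ht, cr_smul_right, cr_self, mul_zero]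
    rw [hzT, cr_add_right, cr_smul_right, cr_smul_right, cr_self, mul_zero, zero_add] at h1
    rcases mul_eq_zero.1 h1 with h2 | h2
    · linarith
    · exact had h2
  -- on the ray b
  have hcab : t * cr a b = β * cr a d := by
    have h1 : cr a (z - T) = t * cr a b := by rw [ht, cr_smul_right]
    rw [hzT, cr_add_right, cr_smul_right, cr_smul_right, cr_self, mul_zero, zero_add] at h1
    exact h1.symm
  have hcbd : t * cr b d = α * cr a d := by
    have h1 : cr (z - T) d = t * cr b d := by rw [ht, cr_smul_left]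
    rw [hzT, cr_add_left, cr_smul_left, cr_smul_left, cr_self, mul_zero, add_zero] at h1
    exact h1.symm
  have ht' : 0 < t := by
    rcases ht0.eq_or_lt with h | h
    · rw [← h, zero_mul] at hcab
      have := mul_eq_zero.1 hcab.symm
      rcases this with h' | h'
      · linarith
      · exact absurd h' had
    · exact h
  have hab : 0 < σ * cr a b := by
    have : t * (σ * cr a b) = β * (σ * cr a d) := by linear_combination σ * hcab
    have h2 : 0 < t * (σ * cr a b) := by rw [this]; positivity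
    exact (mul_pos_iff_of_pos_left ht').1 h2
  have hbd : 0 < σ * cr b d := by
    have : t * (σ * cr b d) = α * (σ * cr a d) := by linear_combination σ * hcbd
    have h2 : 0 < t * (σ * cr b d) := by rw [this]; positivity
    exact (mul_pos_iff_of_pos_left ht').1 h2
  have hcab0 : cr a b ≠ 0 := by
    intro h; rw [h] at hab; simp at hab
  have hcbd0 : cr b d ≠ 0 := by
    intro h; rw [h] at hbd; simp at hbd
  -- the cone between a and b is inside
  have hK1 : ∀ z ∈ coneAt T a b, dist z T < r → z ∈ interior P := by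
    rcases cone_cases (T := T) (a := a) (b := b) (r := r) hcl (by
      rintro w ⟨α', β', hα', hβ', hw⟩ hwr hwf
      have hwT : w - T = α' • a + β' • b := by rw [hw]; ring
      rcases hfr w hwr hwf with ⟨t', -, ht'⟩ | ⟨t', -, ht'⟩
      · have h1 : cr a (w - T) = 0 := by rw [ht', cr_smul_right, cr_self, mul_zero]
        rw [hwT, cr_add_right, cr_smul_right, cr_smul_right, cr_self, mul_zero, zero_add] at h1
        rcases mul_eq_zero.1 h1 with h2 | h2
        · linarith
        · exact hcab0 h2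
      · have h1 : cr (w - T) b = 0 := by rw [ht', cr_smul_left, cr_self, mul_zero]
        rw [hwT, cr_add_left, cr_smul_left, cr_smul_left, cr_self, mul_zero, add_zero] at h1
        rcases mul_eq_zero.1 h1 with h2 | h2
        · linarith
        · exact hcab0 h2) with h | h
    · exact h
    · exfalso
      obtain ⟨w, hw, hwr, hwi⟩ := hneara b hab r hr
      exact h w hw hwr (interior_subset hwi)
  -- the cone between b and d is inside
  have hK2 : ∀ z ∈ coneAt T b d, dist z T < r → z ∈ interior P := by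
    rcases cone_cases (T := T) (a := b) (b := d) (r := r) hcl (by
      rintro w ⟨α', β', hα', hβ', hw⟩ hwr hwf
      have hwT : w - T = α' • b + β' • d := by rw [hw]; ring
      rcases hfr w hwr hwf with ⟨t', -, ht'⟩ | ⟨t', -, ht'⟩
      · have h1 : cr a (w - T) = 0 := by rw [ht', cr_smul_right, cr_self, mul_zero]
        rw [hwT, cr_add_right, cr_smul_right, cr_smul_right] at h1
        have h2 : α' * (σ * cr a b) + β' * (σ * cr a d) = 0 := by linear_combination σ * h1
        have h3 := mul_pos hα' hab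
        have h4 := mul_pos hβ' hside
        linarith
      · have h1 : cr b (w - T) = 0 := by rw [ht', cr_smul_right, cr_self, mul_zero]
        rw [hwT, cr_add_right, cr_smul_right, cr_smul_right, cr_self, mul_zero, zero_add] at h1
        rcases mul_eq_zero.1 h1 with h2 | h2
        · linarith
        · exact hcbd0 h2) with h | h
    · exact h
    · exfalso
      -- points near the ray d are inside
      obtain ⟨μ, μ0, μ1, μr⟩ := exists_small d (show 0 < r / 2 by linarith) 1 one_pos
      have hμ : pt T x μ ∈ interior P := hx (pt_mem_openSegment μ0 μ1)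
      obtain ⟨ρ, hρ, hball⟩ := Metric.isOpen_iff.1 isOpen_interior _ hμ
      obtain ⟨ε, ε0, ε1, εr⟩ := exists_small b (show 0 < min ρ (r / 2) by positivity) 1 one_pos
      refine h (T + ε • b + μ • d) ⟨ε, μ, ε0, μ0, rfl⟩ ?_ (interior_subset (hball ?_))
      · have e : T + ε • b + μ • d - T = ε • b + μ • d := by ring
        rw [dist_eq_norm, e]
        refine (norm_add_le _ _).trans_lt ?_
        rw [norm_smul, norm_smul, Real.norm_eq_abs, Real.norm_eq_abs, abs_of_pos μ0,
          abs_of_pos ε0]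
        have := lt_of_lt_of_le εr (min_le_right _ _)
        linarith
      · have e : T + ε • b + μ • d - pt T x μ = ε • b := by unfold pt; rw [hd]; ring
        rw [Metric.mem_ball, dist_eq_norm, e, norm_smul, Real.norm_eq_abs, abs_of_pos ε0]
        exact lt_of_lt_of_le εr (min_le_left _ _)
  -- contradiction with the exterior side of the ray b
  obtain ⟨ν, ν0, ν1, νr⟩ := exists_small b (show 0 < r / 2 by linarith) 1 one_pos
  obtain ⟨ρ, hρ, hext⟩ := hF' ν ν0 ν1
  obtain ⟨ε, ε0, ε1, εa, εd⟩ := exists_small2 a d (show 0 < min ρ (r / 2) by positivity) 1 one_pos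
  have key : ∀ c : ℂ, ε * ‖c‖ < min ρ (r / 2) →
      (∀ z, z = T + ν • b + ε • c → dist z T < r → z ∈ interior P) →
      ¬ 0 < -σ' * cr b c := by
    intro c hc hin hpos
    have e : T + ν • b + ε • c - pt T F' ν = ε • c := by unfold pt; rw [hb]; ring
    refine hext (T + ν • b + ε • c) ?_ ?_ (interior_subset (hin _ rfl ?_))
    · rw [dist_eq_norm, e, norm_smul, Real.norm_eq_abs, abs_of_pos ε0]
      exact lt_of_lt_of_le hc (min_le_left _ _)
    · rw [e, cr_smul_right]
      have : -σ' * (ε * cr b c) = ε * (-σ' * cr b c) := by ring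
      rw [this]; positivity
    · have e : T + ν • b + ε • c - T = ν • b + ε • c := by ring
      rw [dist_eq_norm, e]
      refine (norm_add_le _ _).trans_lt ?_
      rw [norm_smul, norm_smul, Real.norm_eq_abs, Real.norm_eq_abs, abs_of_pos ν0, abs_of_pos ε0]
      have := lt_of_lt_of_le hc (min_le_right _ _)
      linarith
  have k1 := key a εa (by
    intro z hz hzr
    apply hK1 z ⟨ε, ν, ε0, ν0, by rw [hz]; ring⟩ hzr)
  have k2 := key d εd (by
    intro z hz hzr
    apply hK2 z ⟨ν, ε, ν0, ε0, hz⟩ hzr)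
  have hba : σ * cr b a < 0 := by rw [cr_swap]; linarith
  rcases hσ with h1 | h1 <;> rcases hσ' with h2 | h2 <;> rw [h1] at hba hbd <;>
    rw [h2] at k1 k2 <;> simp at k1 k2 <;> linarith

/-- a point seeing a vertex strictly from the inner side of an incident edge sees the points of
this edge near the vertex (convex or reflex vertex) -/
lemma SimplePolygon.see_near {T F F' x : ℂ} {σ σ' : ℝ} (hσ : σ = 1 ∨ σ = -1)
    (hσ' : σ' = 1 ∨ σ' = -1)
    (hvf : ∃ r > 0, ∀ z, dist z T < r → z ∈ frontier S.region →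
      (∃ t : ℝ, 0 ≤ t ∧ z - T = t • (F - T)) ∨ (∃ t : ℝ, 0 ≤ t ∧ z - T = t • (F' - T)))
    (hF : ∀ μ : ℝ, 0 < μ → μ < 1 → Fr S.region (pt T F μ) (F - T) σ)
    (hF' : ∀ μ : ℝ, 0 < μ → μ < 1 → Fx S.region (pt T F' μ) (F' - T) (-σ'))
    (hx : svis S.region T x) (hside : 0 < σ * cr (F - T) (x - T)) :
    ∃ ρ > 0, ∀ μ : ℝ, 0 < μ → μ < ρ → svis S.region (pt T F μ) x := by
  obtain ⟨r, hr, hcone⟩ := S.cone_inside hσ hσ' hvf hF hF' hx hside
  have hTx : T ≠ x := by
    rintro rfl; simp [cr_zero_right] at hside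
  obtain ⟨δ, hδ, hst⟩ := S.stab (A := T) (B := x) (H := univ) hTx (fun _ _ _ _ => mem_univ _)
    (by
      intro w hw
      obtain ⟨ρ, hρ, hb⟩ := Metric.isOpen_iff.1 isOpen_interior w (hx hw)
      exact ⟨ρ, hρ, fun y hy _ => hb hy⟩) hr
  have hFT : F - T ≠ 0 := by
    intro h; rw [h, cr_zero_left] at hside; simp at hside
  have hn : 0 < ‖F - T‖ := norm_pos_iff.2 hFT
  refine ⟨δ / ‖F - T‖, by positivity, ?_⟩
  intro μ h0 h1 z hz
  rcases le_or_gt r (dist z T) with h2 | h2
  · apply hst (pt T F μ) _ (mem_univ _) z hz h2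
    rw [pt_dist_left, abs_of_pos h0]
    rwa [lt_div_iff₀ hn] at h1
  · apply hcone z _ h2
    rw [mem_openSegment_iff] at hz
    obtain ⟨s, s0, s1, rfl⟩ := hz
    refine ⟨(1 - s) * μ, s, mul_pos (by linarith) h0, s0, ?_⟩
    unfold pt; simp only [Complex.real_smul]; push_cast; ring

lemma SimplePolygon.ep_one_sub (i : ZMod n) (t : ℝ) : S.ep i (1 - t) = pt (S.v (i + 1)) (S.v i) t := by
  unfold SimplePolygon.ep pt; simp only [Complex.real_smul]; push_cast; ring

/-- visibility of the points of an edge near its first vertex -/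
lemma SimplePolygon.see_first {i : ZMod n} {x : ℂ} (hx : svis S.region (S.v i) x)
    (hside : 0 < S.side i * cr (S.dir i) (x - S.v i)) :
    ∃ ρ > 0, ∀ μ : ℝ, 0 < μ → μ < ρ → svis S.region (S.ep i μ) x := by
  have hprev : ∀ μ : ℝ, pt (S.v i) (S.v (i - 1)) μ = S.ep (i - 1) (1 - μ) := by
    intro μ
    rw [S.ep_one_sub]
    simp
  refine S.see_near (T := S.v i) (F := S.v (i + 1)) (F' := S.v (i - 1)) (S.side_pm i)
    (σ' := -S.side (i - 1)) ?_ ?_ ?_ ?_ hx hside
  · rcases S.side_pm (i - 1) with h | h <;> rw [h] <;> norm_num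
  · exact S.vertex_frontier i
  · intro μ h0 h1
    exact S.side_fr (S.ep_mem h0 h1)
  · intro μ h0 h1
    have h2 := S.side_fx (S.ep_mem (i := i - 1) (t := 1 - μ) (by linarith) (by linarith))
    rw [hprev]
    obtain ⟨r, hr, hb⟩ := h2
    refine ⟨r, hr, ?_⟩
    intro z hz hs
    apply hb z hz
    have e : S.v (i - 1) - S.v i = -(S.dir (i - 1)) := by
      unfold SimplePolygon.dir; rw [sub_add_cancel]; ring
    rw [e] at hs
    have e2 : cr (-(S.dir (i - 1))) (z - S.ep (i - 1) (1 - μ)) =
        -cr (S.dir (i - 1)) (z - S.ep (i - 1) (1 - μ)) := by unfold cr; simp; ring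
    rw [e2] at hs
    linarith

/-- visibility of the points of an edge near its last vertex -/
lemma SimplePolygon.see_last {i : ZMod n} {x : ℂ} (hx : svis S.region (S.v (i + 1)) x)
    (hside : 0 < S.side i * cr (S.dir i) (x - S.v (i + 1))) :
    ∃ ρ > 0, ∀ μ : ℝ, 0 < μ → μ < ρ → svis S.region (S.ep i (1 - μ)) x := by
  have hvf := S.vertex_frontier (i + 1)
  have e1 : i + 1 - 1 = i := by ring
  rw [e1] at hvf
  have := S.see_near (T := S.v (i + 1)) (F := S.v i) (F' := S.v (i + 1 + 1))
    (σ := -S.side i) (σ' := S.side (i + 1)) (x := x) ?_ ?_ ?_ ?_ ?_ hx ?_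
  · obtain ⟨ρ, hρ, h⟩ := this
    refine ⟨ρ, hρ, ?_⟩
    intro μ h0 h1
    rw [S.ep_one_sub]
    exact h μ h0 h1
  · rcases S.side_pm i with h | h <;> rw [h] <;> norm_num
  · exact S.side_pm (i + 1)
  · obtain ⟨r, hr, h⟩ := hvf
    exact ⟨r, hr, fun z hz hzf => (h z hz hzf).symm⟩
  · intro μ h0 h1
    rw [← S.ep_one_sub]
    obtain ⟨r, hr, hb⟩ := S.side_fr (S.ep_mem (i := i) (t := 1 - μ) (by linarith) (by linarith))
    refine ⟨r, hr, ?_⟩
    intro z hz hs
    apply hb z hz
    have e : S.v i - S.v (i + 1) = -(S.dir i) := by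
      unfold SimplePolygon.dir; ring
    rw [e] at hs
    have e2 : cr (-(S.dir i)) (z - S.ep i (1 - μ)) =
        -cr (S.dir i) (z - S.ep i (1 - μ)) := by unfold cr; simp; ring
    rw [e2] at hs
    linarith
  · intro μ h0 h1
    exact S.side_fx (S.ep_mem h0 h1)
  · have e : S.v i - S.v (i + 1) = -(S.dir i) := by
      unfold SimplePolygon.dir; ring
    rw [e]
    have e2 : cr (-(S.dir i)) (x - S.v (i + 1)) = -cr (S.dir i) (x - S.v (i + 1)) := by
      unfold cr; simp; ring
    rw [e2]
    linarith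

end Run7.h395
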