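import Pool.Agent.Run7.h395.Poly

/-!
# Local structure at vertices, cones
-/

open Set Topology Filter Complex

noncomputable section

namespace Run7.h395

variable {n : ℕ} (S : SimplePolygon n)

lemma cr_add_left (a b c : ℂ) : cr (a + b) c = cr a c + cr b c := by
  unfold cr; simp; ring

lemma cr_sub_left (a b c : ℂ) : cr (a - b) c = cr a c - cr b c := by
  unfold cr; simp; ring

lemma convex_cr_pos' (w T : ℂ) (s : ℝ) : Convex ℝ {x : ℂ | 0 < s * cr (x - T) w} := by
  have : {x : ℂ | 0 < s * cr (x - T) w} = {x : ℂ | 0 < (-s) * cr w (x - T)} := by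
    ext x
    have e : s * cr (x - T) w = (-s) * cr w (x - T) := by rw [cr_swap (x - T) w]; ring
    constructor
    · intro h; rw [mem_ofPred_eq, ← e]; exact h
    · intro h; rw [mem_ofPred_eq, e]; exact h
  rw [this]
  exact convex_cr_pos w T (-s)

/-- the previous vertex -/
lemma SimplePolygon.edge_prev (i : ZMod n) :
    S.edge (i - 1) = segment ℝ (S.v (i - 1)) (S.v i) := by
  unfold SimplePolygon.edge
  rw [sub_add_cancel]

lemma SimplePolygon.v_ne_prev (i : ZMod n) : S.v i ≠ S.v (i - 1) := by
  have := S.v_ne_succ (i - 1)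
  rw [sub_add_cancel] at this
  exact this.symm

/-- the directions of the two edges at a vertex are not positively parallel -/
lemma SimplePolygon.not_parallel (i : ZMod n) {t : ℝ} (ht : 0 < t)
    (h : S.v (i - 1) - S.v i = t • (S.v (i + 1) - S.v i)) : False := by
  -- the point T + ε a lies on both edges
  have hadj := S.adj (i - 1)
  have e1 : i - 1 + 1 = i := by ring
  have e2 : i - 1 + 2 = i + 1 := by ring
  rw [e1, e2] at hadj
  set ε : ℝ := min 1 t with hε
  have hε0 : 0 < ε := lt_min one_pos ht
  have hz1 : pt (S.v i) (S.v (i + 1)) ε ∈ segment ℝ (S.v i) (S.v (i + 1)) :=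
    pt_mem_segment hε0.le (min_le_left _ _)
  have hz2 : pt (S.v i) (S.v (i + 1)) ε ∈ segment ℝ (S.v (i - 1)) (S.v i) := by
    rw [segment_symm, mem_segment_iff]
    refine ⟨ε / t, by positivity, ?_, ?_⟩
    · rw [div_le_one ht]; exact min_le_right _ _
    · unfold pt
      rw [h, smul_smul, div_mul_cancel₀ _ ht.ne']
  have hmem : pt (S.v i) (S.v (i + 1)) ε ∈
      segment ℝ (S.v (i - 1)) (S.v i) ∩ segment ℝ (S.v i) (S.v (i + 1)) := ⟨hz2, hz1⟩
  rw [hadj, mem_singleton_iff] at hmem
  have h3 : ε • (S.v (i + 1) - S.v i) = 0 := by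
    rw [← pt_sub_left, hmem, sub_self]
  rw [smul_eq_zero] at h3
  rcases h3 with h3 | h3
  · linarith
  · exact S.v_ne_succ i (sub_eq_zero.1 h3).symm

/-- near a vertex the frontier consists of two rays -/
lemma SimplePolygon.vertex_frontier (i : ZMod n) :
    ∃ r > 0, ∀ z, dist z (S.v i) < r → z ∈ frontier S.region →
      (∃ t : ℝ, 0 ≤ t ∧ z - S.v i = t • (S.v (i + 1) - S.v i)) ∨
      (∃ t : ℝ, 0 ≤ t ∧ z - S.v i = t • (S.v (i - 1) - S.v i)) := by
  obtain ⟨r, hr, hloc⟩ := S.local_edges (S.v i)
  refine ⟨r, hr, ?_⟩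
  intro z hz hzf
  obtain ⟨j, hj1, hj2⟩ := hloc z hz hzf
  rcases S.v_mem_edge hj1 with h1 | h1
  · subst h1
    left
    unfold SimplePolygon.edge at hj2
    rw [mem_segment_iff] at hj2
    obtain ⟨t, h0, -, rfl⟩ := hj2
    exact ⟨t, h0, by rw [pt_sub_left]⟩
  · right
    have e : j = i - 1 := by rw [h1]; ring
    rw [e, S.edge_prev, segment_symm, mem_segment_iff] at hj2
    obtain ⟨t, h0, -, rfl⟩ := hj2
    exact ⟨t, h0, by rw [pt_sub_left]⟩

/-- local structure at a vertex that is passed by a line inside the polygon -/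
theorem SimplePolygon.vertex_local (i : ZMod n) {w : ℂ}
    (hw1 : ∃ ρ0 > 0, ∀ ρ : ℝ, 0 < ρ → ρ < ρ0 → S.v i + ρ • w ∈ interior S.region)
    (hw2 : ∃ ρ0 > 0, ∀ ρ : ℝ, 0 < ρ → ρ < ρ0 → S.v i - ρ • w ∈ S.region) :
    ∃ r > 0, Convex ℝ (S.regionᶜ ∩ Metric.ball (S.v i) r) ∧
      ∀ ε : ℝ, (ε = 1 ∨ ε = -1) → ∃ j, (j = i + 1 ∨ j = i - 1) ∧
        ∀ x, dist x (S.v i) < r → ε * cr (S.v j - S.v i) (x - S.v i) < 0 →
          x ∈ interior S.region := by
  obtain ⟨r, hr, hfr⟩ := S.vertex_frontier i
  have hcl := S.reg.closed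
  set P := S.region with hP
  set T := S.v i with hT
  set a := S.v (i + 1) - T with ha
  set b := S.v (i - 1) - T with hb
  have ha0 : a ≠ 0 := sub_ne_zero.2 (S.v_ne_succ i).symm
  have hb0 : b ≠ 0 := sub_ne_zero.2 (S.v_ne_prev i).symm
  have hTf : T ∈ frontier P := S.v_frontier i
  obtain ⟨ρ1, hρ1, hint⟩ := hw1
  obtain ⟨ρ2, hρ2, hin⟩ := hw2
  -- a small parameter for w
  obtain ⟨ρ, hρ0, hρa, hρb, hρr⟩ : ∃ ρ : ℝ, 0 < ρ ∧ ρ < ρ1 ∧ ρ < ρ2 ∧ ρ * ‖w‖ < r := by
    refine ⟨min (ρ1 / 2) (min (ρ2 / 2) (r / (2 * (‖w‖ + 1)))), ?_, ?_, ?_, ?_⟩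
    · positivity
    · exact lt_of_le_of_lt (min_le_left _ _) (by linarith)
    · exact lt_of_le_of_lt ((min_le_right _ _).trans (min_le_left _ _)) (by linarith)
    · calc _ ≤ r / (2 * (‖w‖ + 1)) * ‖w‖ := by
            gcongr
            exact (min_le_right _ _).trans (min_le_right _ _)
        _ ≤ r / (2 * (‖w‖ + 1)) * (‖w‖ + 1) := by gcongr; linarith
        _ = r / 2 := by field_simp
        _ < r := by linarith
  have hplus : T + ρ • w ∈ interior P := hint ρ hρ0 hρa
  have hminus : T - ρ • w ∈ P := hin ρ hρ0 hρb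
  have hdp : dist (T + ρ • w) T < r := by
    rw [dist_eq_norm, add_sub_cancel_left, norm_smul, Real.norm_of_nonneg hρ0.le]; exact hρr
  have hdm : dist (T - ρ • w) T < r := by
    rw [dist_eq_norm, sub_sub_cancel_left, norm_neg, norm_smul, Real.norm_of_nonneg hρ0.le]
    exact hρr
  -- the frontier rays near T belong to the frontier
  have hsm : ∀ c : ℂ, ∃ t0 > 0, ∀ t : ℝ, 0 ≤ t → t < t0 → dist (T + t • c) T < r := by
    intro c
    refine ⟨r / (‖c‖ + 1), by positivity, ?_⟩
    intro t h0 h1
    rw [dist_eq_norm, add_sub_cancel_left, norm_smul, Real.norm_of_nonneg h0]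
    rw [lt_div_iff₀ (by positivity)] at h1
    nlinarith [norm_nonneg c]
  have hray_a : ∀ t : ℝ, 0 ≤ t → t ≤ 1 → T + t • a ∈ frontier P := by
    intro t h0 h1
    apply S.edge_sub_frontier i
    exact pt_mem_segment h0 h1
  have hray_b : ∀ t : ℝ, 0 ≤ t → t ≤ 1 → T + t • b ∈ frontier P := by
    intro t h0 h1
    apply S.edge_sub_frontier (i - 1)
    rw [S.edge_prev, segment_symm]
    exact pt_mem_segment h0 h1
  by_cases hab : cr a b = 0
  · -- flat vertex: impossible
    exfalso
    obtain ⟨t, ht⟩ := parallel_of_cr ha0 hab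
    have ht0 : t < 0 := by
      rcases lt_trichotomy t 0 with h | h | h
      · exact h
      · rw [h, zero_smul] at ht; exact absurd ht hb0
      · exact absurd ht (fun h' => S.not_parallel i h h')
    have hfa : ∀ z, dist z T < r → z ∈ frontier P → cr a (z - T) = 0 := by
      intro z hz hzf
      rcases hfr z hz hzf with ⟨t', -, e⟩ | ⟨t', -, e⟩
      · rw [e, cr_smul_right, cr_self, mul_zero]
      · rw [e, cr_smul_right, hab, mul_zero]
    obtain ⟨σ, hσ, hpos, hneg⟩ := half_balls hcl S.region_closure ha0 hTf hr hfa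
    by_cases hwa : cr a w = 0
    · -- w parallel to a : T + small w is on the frontier
      obtain ⟨u, hu⟩ := parallel_of_cr ha0 hwa
      obtain ⟨ρ', h1, h2, h3⟩ : ∃ ρ' : ℝ, 0 < ρ' ∧ ρ' < ρ1 ∧ ρ' * |u| ≤ min 1 (-t) := by
        refine ⟨min (ρ1 / 2) (min 1 (-t) / (|u| + 1)), ?_, ?_, ?_⟩
        · have : 0 < -t := by linarith
          positivity
        · exact lt_of_le_of_lt (min_le_left _ _) (by linarith)
        · have h5 : 0 < min 1 (-t) := lt_min one_pos (by linarith)
          calc _ ≤ min 1 (-t) / (|u| + 1) * |u| := by gcongr; exact min_le_right _ _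
            _ ≤ min 1 (-t) / (|u| + 1) * (|u| + 1) := by gcongr; linarith
            _ = min 1 (-t) := by field_simp
      have hi := hint ρ' h1 h2
      rcases le_or_gt 0 u with hu0 | hu0
      · have := hray_a (ρ' * u) (by positivity) (by
          rw [abs_of_nonneg hu0] at h3
          exact h3.trans (min_le_left _ _))
        rw [mul_smul, ← hu] at this
        exact frontier_not_int this hi
      · have hb' : ρ' • w = (ρ' * u / t) • b := by
          rw [ht, hu, smul_smul, smul_smul]
          congr 1
          have ht0' : t ≠ 0 := ht0.ne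
          field_simp
        have := hray_b (ρ' * u / t) (by
          apply div_nonneg_of_nonpos
          · nlinarith
          · linarith) (by
          rw [div_le_one_of_neg ht0]
          rw [abs_of_neg hu0] at h3
          have := h3.trans (min_le_right _ _)
          linarith)
        rw [← hb'] at this
        exact frontier_not_int this hi
    · have hm : σ * cr a (T - ρ • w - T) = - (σ * cr a (T + ρ • w - T)) := by
        rw [add_sub_cancel_left, sub_sub_cancel_left, cr_smul_right]
        have : -(ρ • w) = (-ρ) • w := by simp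
        rw [this, cr_smul_right]
        ring
      have hne : σ * cr a (T + ρ • w - T) ≠ 0 := by
        rw [add_sub_cancel_left, cr_smul_right]
        apply mul_ne_zero
        · rcases hσ with h | h <;> rw [h] <;> norm_num
        · exact mul_ne_zero hρ0.ne' hwa
      rcases lt_or_gt_of_ne hne with h1 | h1
      · exact hneg _ hdp h1 (interior_subset hplus)
      · exact hneg _ hdm (by rw [hm]; linarith) hminus
  · -- proper vertex
    obtain ⟨σ, hσ, hσab⟩ : ∃ σ : ℝ, (σ = 1 ∨ σ = -1) ∧ 0 < σ * cr a b := by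
      rcases lt_or_gt_of_ne hab with h1 | h1
      · exact ⟨-1, Or.inr rfl, by linarith⟩
      · exact ⟨1, Or.inl rfl, by linarith⟩
    have hHa : ∀ z, dist z T < r → σ * cr a (z - T) < 0 → z ∉ frontier P := by
      intro z hz h1 h2
      rcases hfr z hz h2 with ⟨t', ht', e⟩ | ⟨t', ht', e⟩
      · rw [e, cr_smul_right, cr_self] at h1
        simp at h1
      · rw [e, cr_smul_right] at h1
        nlinarith
    have hHb : ∀ z, dist z T < r → σ * cr (z - T) b < 0 → z ∉ frontier P := by
      intro z hz h1 h2
      rcases hfr z hz h2 with ⟨t', ht', e⟩ | ⟨t', ht', e⟩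
      · rw [e, cr_smul_left] at h1
        nlinarith
      · rw [e, cr_smul_left, cr_self] at h1
        simp at h1
    have hC1 : ∀ z, dist z T < r → 0 < σ * cr a (z - T) → 0 < σ * cr (z - T) b →
        z ∉ frontier P := by
      intro z hz h1 h1' h2
      rcases hfr z hz h2 with ⟨t', ht', e⟩ | ⟨t', ht', e⟩
      · rw [e, cr_smul_right, cr_self] at h1
        simp at h1
      · rw [e, cr_smul_left, cr_self] at h1'
        simp at h1'
    have hA : (Metric.ball T r ∩ {z | 0 < (-σ) * cr a (z - T)} ⊆ interior P) ∨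
        (Metric.ball T r ∩ {z | 0 < (-σ) * cr a (z - T)} ⊆ Pᶜ) := by
      apply int_or_ext hcl
      · exact ((convex_ball T r).inter (convex_cr_pos a T (-σ))).isPreconnected
      · rintro z ⟨h1, h2⟩
        have h2' : 0 < (-σ) * cr a (z - T) := h2
        exact hHa z h1 (by linarith)
    have hB : (Metric.ball T r ∩ {z | 0 < (-σ) * cr (z - T) b} ⊆ interior P) ∨
        (Metric.ball T r ∩ {z | 0 < (-σ) * cr (z - T) b} ⊆ Pᶜ) := by
      apply int_or_ext hcl
      · exact ((convex_ball T r).inter (convex_cr_pos' b T (-σ))).isPreconnected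
      · rintro z ⟨h1, h2⟩
        have h2' : 0 < (-σ) * cr (z - T) b := h2
        exact hHb z h1 (by linarith)
    have hC : (Metric.ball T r ∩ ({z | 0 < σ * cr a (z - T)} ∩ {z | 0 < σ * cr (z - T) b}) ⊆
        interior P) ∨
        (Metric.ball T r ∩ ({z | 0 < σ * cr a (z - T)} ∩ {z | 0 < σ * cr (z - T) b}) ⊆ Pᶜ) := by
      apply int_or_ext hcl
      · exact ((convex_ball T r).inter
          ((convex_cr_pos a T σ).inter (convex_cr_pos' b T σ))).isPreconnected
      · rintro z ⟨h1, h2, h3⟩
        exact hC1 z h1 h2 h3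
    -- a common point of the two half balls
    obtain ⟨t0, ht0, hsm0⟩ := hsm (-(a + b))
    have hcom1 : T + (t0 / 2) • (-(a + b)) ∈
        Metric.ball T r ∩ {z | 0 < (-σ) * cr a (z - T)} := by
      refine ⟨hsm0 _ (by positivity) (by linarith), ?_⟩
      change 0 < (-σ) * cr a (T + (t0 / 2) • (-(a + b)) - T)
      rw [add_sub_cancel_left, cr_smul_right]
      have : cr a (-(a + b)) = - cr a b := by unfold cr; simp; ring
      rw [this]
      have : -σ * (t0 / 2 * -cr a b) = (t0 / 2) * (σ * cr a b) := by ring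
      rw [this]
      positivity
    have hcom2 : T + (t0 / 2) • (-(a + b)) ∈
        Metric.ball T r ∩ {z | 0 < (-σ) * cr (z - T) b} := by
      refine ⟨hsm0 _ (by positivity) (by linarith), ?_⟩
      change 0 < (-σ) * cr (T + (t0 / 2) • (-(a + b)) - T) b
      rw [add_sub_cancel_left, cr_smul_left]
      have : cr (-(a + b)) b = - cr a b := by unfold cr; simp; ring
      rw [this]
      have : -σ * (t0 / 2 * -cr a b) = (t0 / 2) * (σ * cr a b) := by ring
      rw [this]
      positivity
    -- the half balls are not exterior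
    have hnotext : ¬ ((Metric.ball T r ∩ {z | 0 < (-σ) * cr a (z - T)} ⊆ Pᶜ) ∧
        (Metric.ball T r ∩ {z | 0 < (-σ) * cr (z - T) b} ⊆ Pᶜ)) := by
      rintro ⟨h1, h2⟩
      have p1 : 0 ≤ σ * cr a w := by
        by_contra hcon
        push Not at hcon
        refine h1 ⟨hdp, ?_⟩ (interior_subset hplus)
        change 0 < (-σ) * cr a (T + ρ • w - T)
        rw [add_sub_cancel_left, cr_smul_right]
        nlinarith
      have p2 : σ * cr a w ≤ 0 := by
        by_contra hcon
        push Not at hcon
        refine h1 ⟨hdm, ?_⟩ hminus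
        change 0 < (-σ) * cr a (T - ρ • w - T)
        rw [sub_sub_cancel_left]
        have : -(ρ • w) = (-ρ) • w := by simp
        rw [this, cr_smul_right]
        nlinarith
      have q1 : 0 ≤ σ * cr w b := by
        by_contra hcon
        push Not at hcon
        refine h2 ⟨hdp, ?_⟩ (interior_subset hplus)
        change 0 < (-σ) * cr (T + ρ • w - T) b
        rw [add_sub_cancel_left, cr_smul_left]
        nlinarith
      have q2 : σ * cr w b ≤ 0 := by
        by_contra hcon
        push Not at hcon
        refine h2 ⟨hdm, ?_⟩ hminus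
        change 0 < (-σ) * cr (T - ρ • w - T) b
        rw [sub_sub_cancel_left]
        have : -(ρ • w) = (-ρ) • w := by simp
        rw [this, cr_smul_left]
        nlinarith
      have hσ0 : σ ≠ 0 := by rcases hσ with h | h <;> rw [h] <;> norm_num
      have z1 : cr a w = 0 := by
        have := le_antisymm p2 p1
        exact (mul_eq_zero.1 this).resolve_left hσ0
      have z2 : cr w b = 0 := by
        have := le_antisymm q2 q1
        exact (mul_eq_zero.1 this).resolve_left hσ0
      have hw0 : w = 0 := by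
        have := decomp hab w
        rw [z1, z2] at this
        simpa using this
      rw [hw0, smul_zero, add_zero] at hplus
      exact frontier_not_int hTf hplus
    have hAint : Metric.ball T r ∩ {z | 0 < (-σ) * cr a (z - T)} ⊆ interior P := by
      rcases hA with h | h
      · exact h
      · rcases hB with h' | h'
        · exact absurd (interior_subset (h' hcom2)) (h hcom1)
        · exact absurd ⟨h, h'⟩ hnotext
    have hBint : Metric.ball T r ∩ {z | 0 < (-σ) * cr (z - T) b} ⊆ interior P := by
      rcases hB with h | h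
      · exact h
      · exact absurd (interior_subset (hAint hcom1)) (h hcom2)
    -- closed complement of the open cone is in P
    have hcone : ∀ z, dist z T < r → ¬ (0 < σ * cr a (z - T) ∧ 0 < σ * cr (z - T) b) → z ∈ P := by
      intro z hz hnot
      -- z is a limit of points of the open half balls
      rw [← hcl.closure_eq, mem_closure_iff_nhds]
      intro N hN
      rcases not_and_or.1 hnot with h1 | h1
      · push Not at h1
        have hcont : Continuous fun t : ℝ => z + t • (-b) := by fun_prop
        have h2 : ∀ᶠ t in 𝓝 (0 : ℝ), z + t • (-b) ∈ N ∩ Metric.ball T r := by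
          apply hcont.continuousAt.eventually_mem
          simp only [zero_smul, add_zero]
          exact Filter.inter_mem hN (Metric.isOpen_ball.mem_nhds hz)
        obtain ⟨t, ht, ht2⟩ := ((h2.filter_mono nhdsWithin_le_nhds).and
          (self_mem_nhdsWithin : Ioi (0 : ℝ) ∈ 𝓝[>] 0)).exists
        refine ⟨_, ht.1, interior_subset (hAint ⟨ht.2, ?_⟩)⟩
        change 0 < (-σ) * cr a (z + t • (-b) - T)
        have e : z + t • (-b) - T = (z - T) + t • (-b) := by ring
        rw [e, cr_add_right, cr_smul_right]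
        have : cr a (-b) = - cr a b := by unfold cr; simp; ring
        rw [this]
        have ht2' : 0 < t := ht2
        nlinarith [mul_pos ht2' hσab]
      · push Not at h1
        have hcont : Continuous fun t : ℝ => z + t • (-a) := by fun_prop
        have h2 : ∀ᶠ t in 𝓝 (0 : ℝ), z + t • (-a) ∈ N ∩ Metric.ball T r := by
          apply hcont.continuousAt.eventually_mem
          simp only [zero_smul, add_zero]
          exact Filter.inter_mem hN (Metric.isOpen_ball.mem_nhds hz)
        obtain ⟨t, ht, ht2⟩ := ((h2.filter_mono nhdsWithin_le_nhds).and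
          (self_mem_nhdsWithin : Ioi (0 : ℝ) ∈ 𝓝[>] 0)).exists
        refine ⟨_, ht.1, interior_subset (hBint ⟨ht.2, ?_⟩)⟩
        change 0 < (-σ) * cr (z + t • (-a) - T) b
        have e : z + t • (-a) - T = (z - T) + t • (-a) := by ring
        rw [e, cr_add_left, cr_smul_left]
        have : cr (-a) b = - cr a b := by unfold cr; simp; ring
        rw [this]
        have ht2' : 0 < t := ht2
        nlinarith [mul_pos ht2' hσab]
    have hCext : Metric.ball T r ∩ ({z | 0 < σ * cr a (z - T)} ∩ {z | 0 < σ * cr (z - T) b}) ⊆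
        Pᶜ := by
      rcases hC with h | h
      · exfalso
        apply frontier_not_int hTf
        rw [mem_interior_iff_mem_nhds]
        refine Filter.mem_of_superset (Metric.ball_mem_nhds T hr) ?_
        intro z hz
        by_cases h1 : 0 < σ * cr a (z - T) ∧ 0 < σ * cr (z - T) b
        · exact interior_subset (h ⟨hz, h1⟩)
        · exact hcone z hz h1
      · exact h
    refine ⟨r, hr, ?_, ?_⟩
    · have e : Pᶜ ∩ Metric.ball T r =
          Metric.ball T r ∩ ({z | 0 < σ * cr a (z - T)} ∩ {z | 0 < σ * cr (z - T) b}) := by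
        apply Subset.antisymm
        · rintro z ⟨h1, h2⟩
          refine ⟨h2, ?_⟩
          by_contra hcon
          exact h1 (hcone z h2 hcon)
        · intro z hz
          exact ⟨hCext hz, hz.1⟩
      rw [e]
      exact (convex_ball T r).inter ((convex_cr_pos a T σ).inter (convex_cr_pos' b T σ))
    · intro ε hε
      have hεσ : ε = σ ∨ ε = -σ := by
        rcases hε with h | h <;> rcases hσ with h' | h' <;> rw [h, h'] <;> norm_num
      rcases hεσ with h | h
      · refine ⟨i + 1, Or.inl rfl, ?_⟩
        intro x hx h1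
        apply hAint
        refine ⟨hx, ?_⟩
        change 0 < (-σ) * cr a (x - T)
        rw [h] at h1
        have h1' : σ * cr a (x - T) < 0 := h1
        linarith
      · refine ⟨i - 1, Or.inr rfl, ?_⟩
        intro x hx h1
        apply hBint
        refine ⟨hx, ?_⟩
        change 0 < (-σ) * cr (x - T) b
        rw [h] at h1
        have h1' : -σ * cr b (x - T) < 0 := h1
        rw [cr_swap (x - T) b]
        linarith

end Run7.h395
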