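import Pool.Agent.Run7.h395.Vert

/-!
# Strict visibility: openness and blockers
-/

open Set Topology Filter Complex

noncomputable section

namespace Run7.h395

variable {n : ℕ} (S : SimplePolygon n)

lemma halfD_of {P : Set ℂ} {T w : ℂ} {s r : ℝ} (hw : w ≠ 0) (hr : 0 < r)
    (hconv : Convex ℝ (Pᶜ ∩ Metric.ball T r))
    (hline : ∃ ρ0 > 0, ∀ ρ : ℝ, |ρ| < ρ0 → T + ρ • w ∈ P) (hext : ExtAt P T w s) :
    HalfD P T w s := by
  obtain ⟨ρ0, hρ0, hline⟩ := hline
  have hwn : 0 < ‖w‖ := norm_pos_iff.2 hw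
  set r' := min r (ρ0 * ‖w‖) with hr'
  have hr'0 : 0 < r' := lt_min hr (by positivity)
  refine ⟨r', hr'0, ?_⟩
  intro z hz hside
  by_contra hzP
  unfold ExtAt at hext
  rw [mem_closure_iff_nhds] at hext
  obtain ⟨z', hz'1, hz'P, hz'2⟩ := hext _ (Metric.ball_mem_nhds T hr'0)
  have hz'2 : 0 < s * cr w (z' - T) := hz'2
  set A := s * cr w (z - T) with hA
  set B := s * cr w (z' - T) with hB
  set θ := -A / (B - A) with hθ
  have hBA : 0 < B - A := by linarith
  have hθ0 : 0 ≤ θ := div_nonneg (by linarith) hBA.le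
  have hθ1 : θ ≤ 1 := by rw [hθ, div_le_one hBA]; linarith
  have hseg : pt z z' θ ∈ segment ℝ z z' := pt_mem_segment hθ0 hθ1
  have h1 : pt z z' θ ∈ Pᶜ ∩ Metric.ball T r :=
    hconv.segment_subset ⟨hzP, Metric.mem_ball.2 (hz.trans_le (min_le_left _ _))⟩
      ⟨hz'P, Metric.mem_ball.2 ((Metric.mem_ball.1 hz'1).trans_le (min_le_left _ _))⟩ hseg
  have h2 : pt z z' θ ∈ Metric.ball T r' :=
    (convex_ball T r').segment_subset hz hz'1 hseg
  have h3 : s * cr w (pt z z' θ - T) = 0 := by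
    have e : s * cr w (pt z z' θ - T) = (1 - θ) * A + θ * B := by
      rw [hA, hB]
      unfold cr
      simp only [pt_re, pt_im, Complex.sub_re, Complex.sub_im]
      ring
    rw [e, hθ]
    field_simp
    ring
  have hs0 : s ≠ 0 := by
    rintro rfl
    simp [hB] at hz'2
  have h4 : cr w (pt z z' θ - T) = 0 := (mul_eq_zero.1 h3).resolve_left hs0
  obtain ⟨ρ, hρ⟩ := parallel_of_cr hw h4
  apply h1.1
  have e : pt z z' θ = T + ρ • w := by rw [← hρ]; ring
  rw [e]
  apply hline
  rw [Metric.mem_ball, dist_eq_norm, hρ, norm_smul, Real.norm_eq_abs] at h2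
  have h5 : |ρ| * ‖w‖ < ρ0 * ‖w‖ := h2.trans_le (min_le_right _ _)
  exact lt_of_mul_lt_mul_right h5 hwn.le

/-- the open half disk at `w` on side `τ` of direction `u` is interior -/
def Fr (P : Set ℂ) (w u : ℂ) (τ : ℝ) : Prop :=
  ∃ r > 0, ∀ x, dist x w < r → 0 < τ * cr u (x - w) → x ∈ interior P

/-- the open half disk at `w` on side `τ` of direction `u` is exterior -/
def Fx (P : Set ℂ) (w u : ℂ) (τ : ℝ) : Prop :=
  ∃ r > 0, ∀ x, dist x w < r → 0 < τ * cr u (x - w) → x ∉ P

lemma HalfD.fr {P : Set ℂ} {T w : ℂ} {s : ℝ} (h : HalfD P T w s) : Fr P T w (-s) := by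
  obtain ⟨r, hr, hball⟩ := h
  refine ⟨r, hr, ?_⟩
  intro x hx hside
  rw [mem_interior]
  refine ⟨Metric.ball T r ∩ {z | 0 < (-s) * cr w (z - T)}, ?_,
    Metric.isOpen_ball.inter (isOpen_cr_pos w T (-s)), hx, hside⟩
  rintro z ⟨h1, h2⟩
  have h2' : 0 < (-s) * cr w (z - T) := h2
  exact hball z h1 (by linarith)

/-- direction of an edge -/
def SimplePolygon.dir (i : ZMod n) : ℂ := S.v (i + 1) - S.v i

lemma SimplePolygon.dir_ne (i : ZMod n) : S.dir i ≠ 0 := sub_ne_zero.2 (S.v_ne_succ i).symm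

lemma cr_I_pos {w : ℂ} (hw : w ≠ 0) : 0 < cr w (I * w) := by
  unfold cr
  simp
  rcases eq_or_ne w.re 0 with h0 | h0
  · rcases eq_or_ne w.im 0 with h2 | h2
    · exact absurd (Complex.ext h0 h2) hw
    · nlinarith [mul_self_pos.2 h2, mul_self_nonneg w.re]
  · nlinarith [mul_self_pos.2 h0, mul_self_nonneg w.im]

lemma fr_fx_unique {P : Set ℂ} {x w : ℂ} (hw : w ≠ 0) {σ τ : ℝ} (hσ : σ = 1 ∨ σ = -1)
    (hτ : τ = 1 ∨ τ = -1) (h1 : Fr P x w σ) (h2 : Fx P x w (-τ)) : σ = τ := by
  by_contra hne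
  have hστ : -τ = σ := by
    rcases hσ with h | h <;> rcases hτ with h' | h'
    · exact absurd (h.trans h'.symm) hne
    · rw [h, h']; norm_num
    · rw [h, h']
    · exact absurd (h.trans h'.symm) hne
  obtain ⟨r1, hr1, hb1⟩ := h1
  obtain ⟨r2, hr2, hb2⟩ := h2
  have hI := cr_I_pos hw
  have hn : 0 < ‖I * w‖ := by
    rw [norm_pos_iff]
    exact mul_ne_zero I_ne_zero hw
  set t : ℝ := min r1 r2 / (2 * ‖I * w‖) with ht
  have ht0 : 0 < t := by positivity
  have hσ0 : σ * σ = 1 := by rcases hσ with h | h <;> rw [h] <;> norm_num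
  have habs : |σ| = 1 := by rcases hσ with h | h <;> rw [h] <;> norm_num
  have hd : dist (x + (σ * t) • (I * w)) x < min r1 r2 := by
    rw [dist_eq_norm, add_sub_cancel_left, norm_smul, Real.norm_eq_abs, abs_mul, habs, one_mul,
      abs_of_pos ht0, ht]
    have : 0 < min r1 r2 := lt_min hr1 hr2
    calc min r1 r2 / (2 * ‖I * w‖) * ‖I * w‖ = min r1 r2 / 2 := by field_simp
      _ < min r1 r2 := by linarith
  have hpos : 0 < σ * cr w (x + (σ * t) • (I * w) - x) := by
    rw [add_sub_cancel_left, cr_smul_right]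
    have : σ * (σ * t * cr w (I * w)) = (σ * σ) * (t * cr w (I * w)) := by ring
    rw [this, hσ0, one_mul]
    positivity
  have i1 := hb1 _ (hd.trans_le (min_le_left _ _)) hpos
  have i2 := hb2 _ (hd.trans_le (min_le_right _ _)) (by rw [hστ]; exact hpos)
  exact i2 (interior_subset i1)

/-- the interior side of an edge is the same along the whole edge -/
theorem SimplePolygon.side_exists (i : ZMod n) :
    ∃ σ : ℝ, (σ = 1 ∨ σ = -1) ∧ ∀ x ∈ S.oedge i, Fr S.region x (S.dir i) σ ∧
      Fx S.region x (S.dir i) (-σ) := by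
  have hloc : ∀ x ∈ S.oedge i, ∃ σ : ℝ, (σ = 1 ∨ σ = -1) ∧
      ∀ᶠ y in 𝓝[S.oedge i] x, Fr S.region y (S.dir i) σ ∧ Fx S.region y (S.dir i) (-σ) := by
    intro x hx
    obtain ⟨r, hr, σ, hσ, h1, h2⟩ := S.oedge_local hx
    refine ⟨σ, hσ, ?_⟩
    filter_upwards [self_mem_nhdsWithin, mem_nhdsWithin_of_mem_nhds (Metric.ball_mem_nhds x hr)]
      with y hy hyr
    have hxe := S.oedge_sub i hx
    have hye := S.oedge_sub i hy
    have hcr : cr (S.dir i) (y - x) = 0 := edge_cr hye x hxe
    have hyr' : dist y x < r := hyr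
    refine ⟨⟨r - dist y x, by linarith, ?_⟩, ⟨r - dist y x, by linarith, ?_⟩⟩
    · intro z hz hside
      apply h1 z
      · have := dist_triangle z y x
        linarith
      · change 0 < σ * cr (S.dir i) (z - x)
        have e : z - x = (z - y) + (y - x) := by ring
        rw [e, cr_add_right, hcr, add_zero]
        exact hside
    · intro z hz hside
      apply h2 z
      · have := dist_triangle z y x
        linarith
      · change σ * cr (S.dir i) (z - x) < 0
        have e : z - x = (z - y) + (y - x) := by ring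
        rw [e, cr_add_right, hcr, add_zero]
        linarith
  have hself : ∀ x ∈ S.oedge i, ∃ σ : ℝ, (σ = 1 ∨ σ = -1) ∧ Fr S.region x (S.dir i) σ ∧
      Fx S.region x (S.dir i) (-σ) := by
    intro x hx
    obtain ⟨σ, hσ, hev⟩ := hloc x hx
    exact ⟨σ, hσ, hev.self_of_nhdsWithin hx⟩
  have hconn : IsPreconnected (S.oedge i) := (convex_openSegment _ _).isPreconnected
  have key : ∀ x ∈ S.oedge i, ∀ y ∈ S.oedge i, ∀ σ : ℝ, (σ = 1 ∨ σ = -1) →
      ((Fr S.region x (S.dir i) σ ∧ Fx S.region x (S.dir i) (-σ)) →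
      (Fr S.region y (S.dir i) σ ∧ Fx S.region y (S.dir i) (-σ))) := by
    intro x hx y hy
    refine hconn.induction₂' (fun x y => ∀ σ : ℝ, (σ = 1 ∨ σ = -1) →
      ((Fr S.region x (S.dir i) σ ∧ Fx S.region x (S.dir i) (-σ)) →
      (Fr S.region y (S.dir i) σ ∧ Fx S.region y (S.dir i) (-σ)))) ?_ ?_ hx hy
    · intro x hx
      obtain ⟨σ, hσ, hev⟩ := hloc x hx
      have hxs := hev.self_of_nhdsWithin hx
      filter_upwards [hev, self_mem_nhdsWithin] with y hy hyo
      refine ⟨?_, ?_⟩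
      · intro σ' hσ' h'
        have : σ' = σ := fr_fx_unique (S.dir_ne i) hσ' hσ h'.1 hxs.2
        rw [this]; exact hy
      · intro σ' hσ' h'
        have : σ' = σ := fr_fx_unique (S.dir_ne i) hσ' hσ h'.1 hy.2
        rw [this]; exact hxs
    · intro x y z _ _ _ h1 h2 σ hσ h3
      exact h2 σ hσ (h1 σ hσ h3)
  -- midpoint
  have hmid : pt (S.v i) (S.v (i + 1)) (1 / 2) ∈ S.oedge i :=
    pt_mem_openSegment (by norm_num) (by norm_num)
  obtain ⟨σ, hσ, hm⟩ := hself _ hmid
  exact ⟨σ, hσ, fun x hx => key _ hmid x hx σ hσ hm⟩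

/-- the sign of the interior side of an edge -/
def SimplePolygon.side (i : ZMod n) : ℝ := (S.side_exists i).choose

lemma SimplePolygon.side_pm (i : ZMod n) : S.side i = 1 ∨ S.side i = -1 :=
  (S.side_exists i).choose_spec.1

lemma SimplePolygon.side_fr {i : ZMod n} {x : ℂ} (hx : x ∈ S.oedge i) :
    Fr S.region x (S.dir i) (S.side i) := ((S.side_exists i).choose_spec.2 x hx).1

lemma SimplePolygon.side_fx {i : ZMod n} {x : ℂ} (hx : x ∈ S.oedge i) :
    Fx S.region x (S.dir i) (-S.side i) := ((S.side_exists i).choose_spec.2 x hx).2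

/-- a small positive multiple -/
lemma exists_small (w : ℂ) {r : ℝ} (hr : 0 < r) (M : ℝ) (hM : 0 < M) :
    ∃ t : ℝ, 0 < t ∧ t < M ∧ t * ‖w‖ < r := by
  refine ⟨min (M / 2) (r / (2 * (‖w‖ + 1))), by positivity, ?_, ?_⟩
  · exact lt_of_le_of_lt (min_le_left _ _) (by linarith)
  · calc _ ≤ r / (2 * (‖w‖ + 1)) * ‖w‖ := by gcongr; exact min_le_right _ _
      _ ≤ r / (2 * (‖w‖ + 1)) * (‖w‖ + 1) := by gcongr; linarith
      _ = r / 2 := by field_simp
      _ < r := by linarith

/-- an inner segment cannot cross an open edge transversally -/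
lemma SimplePolygon.oedge_cross {i : ZMod n} {x A B : ℂ} (hx : x ∈ S.oedge i)
    (hAB : x ∈ openSegment ℝ A B) (hP : segment ℝ A B ⊆ S.region) :
    cr (S.dir i) (B - A) = 0 := by
  by_contra hne
  obtain ⟨r, hr, hball⟩ := S.side_fx hx
  rw [mem_openSegment_iff] at hAB
  obtain ⟨t, h0, h1, rfl⟩ := hAB
  obtain ⟨μ, hμ0, hμ1, hμr⟩ := exists_small (B - A) hr (min t (1 - t)) (lt_min h0 (by linarith))
  have hμt : μ < t := hμ1.trans_le (min_le_left _ _)
  have hμt' : μ < 1 - t := hμ1.trans_le (min_le_right _ _)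
  have hd : ∀ ν : ℝ, |ν| = μ → dist (pt A B (t + ν)) (pt A B t) < r := by
    intro ν hν
    have : pt A B (t + ν) - pt A B t = ν • (B - A) := by
      unfold pt; simp only [Complex.real_smul]; push_cast; ring
    rw [dist_eq_norm, this, norm_smul, Real.norm_eq_abs, hν]
    exact hμr
  have hc : ∀ ν : ℝ, cr (S.dir i) (pt A B (t + ν) - pt A B t) = ν * cr (S.dir i) (B - A) := by
    intro ν
    have : pt A B (t + ν) - pt A B t = ν • (B - A) := by
      unfold pt; simp only [Complex.real_smul]; push_cast; ring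
    rw [this, cr_smul_right]
  have hs0 : -S.side i * cr (S.dir i) (B - A) ≠ 0 := by
    apply mul_ne_zero _ hne
    rcases S.side_pm i with h | h <;> rw [h] <;> norm_num
  rcases lt_or_gt_of_ne hs0 with h2 | h2
  · refine hball (pt A B (t + (-μ))) (hd _ (by rw [abs_neg, abs_of_pos hμ0])) ?_ ?_
    · rw [hc]; nlinarith
    · exact hP (pt_mem_segment (by linarith) (by linarith))
  · refine hball (pt A B (t + μ)) (hd _ (abs_of_pos hμ0)) ?_ ?_
    · rw [hc]; nlinarith
    · exact hP (pt_mem_segment (by linarith) (by linarith))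

/-- strict visibility -/
def svis (P : Set ℂ) (a b : ℂ) : Prop := openSegment ℝ a b ⊆ interior P

lemma svis_symm {P : Set ℂ} {a b : ℂ} (h : svis P a b) : svis P b a := by
  unfold svis; rw [openSegment_symm]; exact h

/-- strictly visible open edge points see each other from the inner side -/
lemma SimplePolygon.svis_side {i : ZMod n} {x q : ℂ} (hx : x ∈ S.oedge i)
    (h : svis S.region q x) : 0 < S.side i * cr (S.dir i) (q - x) := by
  have hxf : x ∈ frontier S.region := S.edge_sub_frontier i (S.oedge_sub i hx)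
  have hqx : q ≠ x := by
    rintro rfl
    unfold svis at h
    rw [openSegment_same] at h
    exact frontier_not_int hxf (h rfl)
  obtain ⟨r, hr, hball⟩ := S.side_fx hx
  have hx' := hx
  unfold SimplePolygon.oedge at hx'
  rw [mem_openSegment_iff] at hx'
  obtain ⟨t0, h0, h1, hxe⟩ := hx'
  by_contra hcon
  push Not at hcon
  rcases hcon.lt_or_eq with h2 | h2
  · obtain ⟨μ, hμ0, hμ1, hμr⟩ := exists_small (q - x) hr 1 one_pos
    have hm : pt x q μ ∈ interior S.region := by
      apply h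
      rw [openSegment_symm]
      exact pt_mem_openSegment hμ0 hμ1
    refine hball (pt x q μ) ?_ ?_ (interior_subset hm)
    · rw [pt_dist_left, abs_of_pos hμ0]; exact hμr
    · rw [cr_pt]; nlinarith
  · have hs0 : S.side i ≠ 0 := by rcases S.side_pm i with h | h <;> rw [h] <;> norm_num
    have h3 := (mul_eq_zero.1 h2).resolve_left hs0
    obtain ⟨c, hc⟩ := parallel_of_cr (S.dir_ne i) h3
    obtain ⟨μ, hμ0, hμ1, hμr⟩ : ∃ μ : ℝ, 0 < μ ∧ μ < 1 ∧ μ * |c| < min t0 (1 - t0) := by
      have hm : 0 < min t0 (1 - t0) := lt_min h0 (by linarith)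
      refine ⟨min (1 / 2) (min t0 (1 - t0) / (2 * (|c| + 1))), by positivity, ?_, ?_⟩
      · exact lt_of_le_of_lt (min_le_left _ _) (by norm_num)
      · calc _ ≤ min t0 (1 - t0) / (2 * (|c| + 1)) * |c| := by gcongr; exact min_le_right _ _
          _ ≤ min t0 (1 - t0) / (2 * (|c| + 1)) * (|c| + 1) := by gcongr; linarith
          _ = min t0 (1 - t0) / 2 := by field_simp
          _ < min t0 (1 - t0) := by linarith
    have hm : pt x q μ ∈ interior S.region := by
      apply h
      rw [openSegment_symm]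
      exact pt_mem_openSegment hμ0 hμ1
    have hme : pt x q μ = pt (S.v i) (S.v (i + 1)) (t0 + μ * c) := by
      have e1 : pt x q μ = x + μ • (q - x) := rfl
      rw [e1, hc, hxe]
      unfold pt SimplePolygon.dir
      simp only [Complex.real_smul]
      push_cast
      ring
    have habs := abs_lt.1 (show |μ * c| < min t0 (1 - t0) by rw [abs_mul, abs_of_pos hμ0]; exact hμr)
    have h4 : pt x q μ ∈ S.edge i := by
      rw [hme]
      apply pt_mem_segment
      · have := min_le_left t0 (1 - t0)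
        linarith [habs.1]
      · have := min_le_right t0 (1 - t0)
        linarith [habs.2]
    exact frontier_not_int (S.edge_sub_frontier i h4) hm

end Run7.h395
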