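import Pool.Agent.Run7.h395.Bsl

/-!
# Windows separating a point from a target `D`
-/

open Set Topology Filter Complex

noncomputable section

namespace Run7.h395

lemma pt_sub_left (a b : ℂ) (t : ℝ) : pt a b t - a = t • (b - a) := by simp [pt]

lemma cr_smul_right (a b : ℂ) (t : ℝ) : cr a (t • b) = t * cr a b := by
  unfold cr; simp; ring

lemma cr_smul_left (a b : ℂ) (t : ℝ) : cr (t • a) b = t * cr a b := by
  unfold cr; simp; ring

lemma cr_pt (w q T : ℂ) (t : ℝ) : cr w (pt q T t - q) = t * cr w (T - q) := by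
  rw [pt_sub_left, cr_smul_right]

lemma cr_add_right (a b c : ℂ) : cr a (b + c) = cr a b + cr a c := by
  unfold cr; simp; ring

lemma cr_sub_right (a b c : ℂ) : cr a (b - c) = cr a b - cr a c := by
  unfold cr; simp; ring

/-- a segment starting at `q` in a direction not parallel to `T - q` misses `kap P q T` -/
lemma seg_disj_kap {P : Set ℂ} {q T x : ℂ} (hx : cr (T - q) (x - q) ≠ 0) {z : ℂ}
    (hz : z ∈ segment ℝ q x) : z ∉ kap P q T := by
  rintro ⟨t, ht1, rfl, -⟩
  rw [mem_segment_iff] at hz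
  obtain ⟨r, h0, h1, he⟩ := hz
  have h2 : cr (T - q) (pt q T t - q) = 0 := by
    rw [cr_pt, cr_self, mul_zero]
  rw [he, cr_pt] at h2
  rcases mul_eq_zero.1 h2 with h3 | h3
  · rw [h3, pt_zero] at he
    -- q = pt q T t with t ≥ 1
    have h4 : t • (T - q) = 0 := by rw [← pt_sub_left, he]; simp
    rw [smul_eq_zero] at h4
    rcases h4 with h4 | h4
    · linarith
    · rw [h4, cr_zero_left] at hx
      exact hx rfl
  · exact hx h3

lemma kap_cr {P : Set ℂ} {q T z : ℂ} (hz : z ∈ kap P q T) : cr (T - q) (z - q) = 0 := by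
  obtain ⟨t, -, rfl, -⟩ := hz
  rw [cr_pt, cr_self, mul_zero]

lemma kap_cr' {P : Set ℂ} {q T z : ℂ} (hz : z ∈ kap P q T) : cr (T - q) (z - T) = 0 := by
  have h1 := kap_cr hz
  have : z - T = (z - q) - (T - q) := by ring
  rw [this, cr_sub_right, h1, cr_self, sub_zero]

lemma kap_ne {P : Set ℂ} {q T z : ℂ} (hqT : q ≠ T) (hz : z ∈ kap P q T) : z ≠ q := by
  rintro rfl
  exact kap_disj_left (P := P) hqT (show (0 : ℝ) < 1 by norm_num) (by simpa using hz)

lemma T_mem_kap {P : Set ℂ} {q T : ℂ} (hseg : segment ℝ q T ⊆ P) : T ∈ kap P q T :=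
  ⟨1, le_rfl, by simp, hseg⟩

lemma seg_of_kap {P : Set ℂ} {q T z : ℂ} (hz : z ∈ kap P q T) : segment ℝ q z ⊆ P := by
  obtain ⟨t, -, -, h⟩ := hz
  exact h

lemma kap_convex {P : Set ℂ} (h : Reg P) {q T : ℂ} (hqT : q ≠ T) (hseg : segment ℝ q T ⊆ P) :
    Convex ℝ (kap P q T) := by
  obtain ⟨tm, -, -, hk, -, -⟩ := kap_struct h hqT hseg
  rw [hk]
  exact convex_segment _ _

lemma kap_compact {P : Set ℂ} (h : Reg P) {q T : ℂ} (hqT : q ≠ T) (hseg : segment ℝ q T ⊆ P) :
    IsCompact (kap P q T) := by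
  obtain ⟨tm, -, -, hk, -, -⟩ := kap_struct h hqT hseg
  rw [hk]
  exact isCompact_segment _ _

lemma seg_of_kap' {P : Set ℂ} {q T z : ℂ} (hz : z ∈ kap P q T) : segment ℝ q T ⊆ P := by
  obtain ⟨t, ht, rfl, h⟩ := hz
  refine subset_trans ?_ h
  apply (convex_segment _ _).segment_subset (left_mem_segment ℝ _ _)
  rw [mem_segment_iff]
  refine ⟨1 / t, by positivity, ?_, ?_⟩
  · rw [div_le_one (by linarith)]; exact ht
  · rw [pt_pt, one_div_mul_cancel (by linarith)]; simp

/-- one-step lemma, base case: the target itself is seen from `q` -/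
theorem g2_base {P : Set ℂ} (h : Reg P) {D q q' T' : ℂ} {s : ℝ} (hq'T' : q' ≠ T')
    (hq : q ∈ kap P q' T') (hqT' : q ≠ T') (hext : ExtAt P T' (T' - q') s)
    (hD : 0 < s * cr (T' - q') (D - q')) (hDq : segment ℝ D q ⊆ P) :
    ¬ Cn (P \ kap P q' T') q' D :=
  bsl h hq'T' hq hqT' hext hD hDq

/-- one-step lemma -/
theorem g2 {P : Set ℂ} (h : Reg P) {D q T q' T' : ℂ} {s : ℝ} (hq'T' : q' ≠ T')
    (hq : q ∈ kap P q' T') (hqT' : q ≠ T') (hext : ExtAt P T' (T' - q') s)
    (hT : 0 < s * cr (T' - q') (T - q')) (hqTseg : segment ℝ q T ⊆ P)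
    (hsep : ¬ Cn (P \ kap P q T) q D) :
    ¬ Cn (P \ kap P q' T') q' D := by
  rintro ⟨C, hCc, hCp, hCs, hq'C, hDC⟩
  have hqT : q ≠ T := by
    rintro rfl
    rw [kap_cr hq] at hT
    simp at hT
  have hside : ∀ z ∈ kap P q T, 0 < s * cr (T' - q') (z - q') := by
    rintro z ⟨t, ht1, rfl, -⟩
    have e : s * cr (T' - q') (pt q T t - q') =
        t * (s * cr (T' - q') (T - q')) + (1 - t) * (s * cr (T' - q') (q - q')) := by
      unfold cr
      simp only [pt_re, pt_im, Complex.sub_re, Complex.sub_im]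
      ring
    rw [e, kap_cr hq]
    have : 0 < t := by linarith
    have := mul_pos this hT
    linarith
  have hdisj : ∀ z ∈ kap P q T, z ∉ kap P q' T' := by
    intro z hz hz2
    have h1 := hside z hz
    rw [kap_cr hz2] at h1
    simp at h1
  -- segment q q' misses kap P q T
  have hcr : cr (T - q) (q' - q) ≠ 0 := by
    intro h0
    obtain ⟨t, ht1, hqe, -⟩ := hq
    have e : cr (T - q) (q' - q) = t * cr (T' - q') (T - q') := by
      rw [hqe]
      unfold cr
      simp only [pt_re, pt_im, Complex.sub_re, Complex.sub_im]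
      ring
    rw [e] at h0
    rcases mul_eq_zero.1 h0 with h1 | h1
    · linarith
    · rw [h1] at hT
      simp at hT
  have hseg1 : ∀ z ∈ segment ℝ q q', z ∉ kap P q T := fun z hz => seg_disj_kap hcr hz
  have hqq' : segment ℝ q q' ⊆ P := by
    rw [segment_symm]; exact seg_of_kap hq
  by_cases hmeet : ∃ w ∈ C, w ∈ kap P q T
  · obtain ⟨w, hwC, hwk⟩ := hmeet
    have c1 : Cn (P \ kap P q' T') q' w := ⟨C, hCc, hCp, hCs, hq'C, hwC⟩
    have c2 : Cn (P \ kap P q' T') w T := by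
      apply Cn.of_segment
      intro z hz
      have hz2 : z ∈ kap P q T :=
        (kap_convex h hqT hqTseg).segment_subset hwk (T_mem_kap hqTseg) hz
      exact ⟨kap_sub hz2, hdisj z hz2⟩
    refine bsl h hq'T' hq hqT' hext hT ?_ (c1.trans c2)
    rw [segment_symm]
    exact hqTseg
  · push Not at hmeet
    apply hsep
    have c1 : Cn (P \ kap P q T) q q' := Cn.of_segment fun z hz => ⟨hqq' hz, hseg1 z hz⟩
    refine c1.trans ⟨C, hCc, hCp, ?_, hq'C, hDC⟩
    intro z hz
    exact ⟨(hCs hz).1, hmeet z hz⟩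

/-- one-step lemma, collinear variant -/
theorem g2_col {P : Set ℂ} (h : Reg P) {D w T q' T' : ℂ} {s : ℝ} (hq'T' : q' ≠ T')
    (hT : T ∈ kap P q' T') (hTT' : T ≠ T') (hext : ExtAt P T' (T' - q') s)
    (hw : s * cr (T' - q') (w - q') < 0) (hwq' : segment ℝ w q' ⊆ P)
    (hsep : ¬ Cn (P \ kap P w T) w D) :
    ¬ Cn (P \ kap P q' T') q' D := by
  rintro ⟨C, hCc, hCp, hCs, hq'C, hDC⟩
  have hcr : cr (T - w) (q' - w) ≠ 0 := by
    intro h0
    obtain ⟨t, ht1, hTe, -⟩ := hT
    have e : cr (T - w) (q' - w) = - t * cr (T' - q') (w - q') := by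
      rw [hTe]
      unfold cr
      simp only [pt_re, pt_im, Complex.sub_re, Complex.sub_im]
      ring
    rw [e] at h0
    rcases mul_eq_zero.1 h0 with h1 | h1
    · linarith
    · rw [h1] at hw
      simp at hw
  by_cases hmeet : ∃ v ∈ C, v ∈ kap P w T
  · obtain ⟨v, hvC, hvk⟩ := hmeet
    have hvT : v ≠ T := by
      rintro rfl
      exact (hCs hvC).2 hT
    have hvT2 : segment ℝ v T ⊆ P := by
      refine subset_trans ?_ (seg_of_kap hvk)
      obtain ⟨t, ht1, hve, -⟩ := hvk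
      apply (convex_segment _ _).segment_subset (right_mem_segment ℝ _ _)
      rw [mem_segment_iff]
      refine ⟨1 / t, by positivity, ?_, ?_⟩
      · rw [div_le_one (by linarith)]; exact ht1
      · rw [hve, pt_pt, one_div_mul_cancel (by linarith)]; simp
    have hvside : 0 < s * cr (T' - q') (v - q') := by
      obtain ⟨t, ht1, hve, -⟩ := hvk
      have ht : 1 < t := by
        rcases ht1.eq_or_lt with e | e
        · exfalso; apply hvT; rw [hve, ← e]; simp
        · exact e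
      have e : s * cr (T' - q') (v - q') =
          (1 - t) * (s * cr (T' - q') (w - q')) + t * (s * cr (T' - q') (T - q')) := by
        rw [hve]
        unfold cr
        simp only [pt_re, pt_im, Complex.sub_re, Complex.sub_im]
        ring
      rw [e, kap_cr hT]
      have h1 : 0 < t - 1 := by linarith
      nlinarith [mul_pos h1 (neg_pos.2 hw)]
    exact bsl h hq'T' hT hTT' hext hvside hvT2 ⟨C, hCc, hCp, hCs, hq'C, hvC⟩
  · push Not at hmeet
    apply hsep
    have c1 : Cn (P \ kap P w T) w q' :=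
      Cn.of_segment fun z hz => ⟨hwq' hz, seg_disj_kap hcr hz⟩
    refine c1.trans ⟨C, hCc, hCp, ?_, hq'C, hDC⟩
    intro z hz
    exact ⟨(hCs hz).1, hmeet z hz⟩

/-- last point of a path on a closed set -/
lemma last_pt {P K : Set ℂ} (hK : IsClosed K) {q D : ℂ} (hj : JoinedIn P q D)
    (hm : ¬ Cn (P \ K) q D) :
    ∃ w ∈ K, ∃ C, IsCompact C ∧ IsPreconnected C ∧ C ⊆ P ∧ w ∈ C ∧ D ∈ C ∧
      ∀ z ∈ C, z ∈ K → z = w := by
  obtain ⟨γ, hγ⟩ := hj
  set g : ℝ → ℂ := fun t => γ.extend t with hg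
  have hgc : Continuous g := γ.extend.continuous
  have hgP : ∀ t, g t ∈ P := by
    intro t
    have h1 : g t ∈ Set.range γ := by
      rw [hg, ← γ.extend_range]
      exact ⟨t, rfl⟩
    obtain ⟨y, hy⟩ := h1
    rw [← hy]
    exact hγ y
  set S : Set ℝ := Icc 0 1 ∩ g ⁻¹' K with hS
  have hSc : IsCompact S := isCompact_Icc.inter_right (hK.preimage hgc)
  have hSne : S.Nonempty := by
    by_contra hcon
    rw [Set.not_nonempty_iff_eq_empty] at hcon
    apply hm
    refine ⟨g '' Icc 0 1, isCompact_Icc.image hgc, (isPreconnected_Icc).image _ hgc.continuousOn,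
      ?_, ⟨0, ⟨le_rfl, zero_le_one⟩, by simp [hg]⟩, ⟨1, ⟨zero_le_one, le_rfl⟩, by simp [hg]⟩⟩
    rintro _ ⟨t, ht, rfl⟩
    refine ⟨hgP t, ?_⟩
    intro h1
    have : t ∈ S := ⟨ht, h1⟩
    rw [hcon] at this
    exact this
  obtain ⟨t0, ht0, hmax⟩ := hSc.exists_isGreatest hSne
  refine ⟨g t0, ht0.2, g '' Icc t0 1, isCompact_Icc.image hgc,
    (isPreconnected_Icc).image _ hgc.continuousOn, ?_, ⟨t0, ⟨le_rfl, ht0.1.2⟩, rfl⟩,
    ⟨1, ⟨ht0.1.2, le_rfl⟩, by simp [hg]⟩, ?_⟩
  · rintro _ ⟨t, ht, rfl⟩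
    exact hgP t
  · rintro _ ⟨t, ht, rfl⟩ h1
    have h2 : t ∈ S := ⟨⟨ht0.1.1.trans ht.1, ht.2⟩, h1⟩
    have h3 := hmax h2
    have : t = t0 := le_antisymm h3 ht.1
    rw [this]

/-- uniqueness of the window direction -/
theorem win_unique {P : Set ℂ} (h : Reg P) {D q T1 T2 : ℂ} (hcr : cr (T1 - q) (T2 - q) ≠ 0)
    (hj : JoinedIn P q D) (hs1 : segment ℝ q T1 ⊆ P) (hs2 : segment ℝ q T2 ⊆ P)
    (h1 : ¬ Cn (P \ kap P q T1) q D) (h2 : ¬ Cn (P \ kap P q T2) q D) : False := by
  have hqT1 : q ≠ T1 := by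
    rintro rfl; simp [cr_zero_left] at hcr
  have hqT2 : q ≠ T2 := by
    rintro rfl; simp [cr_zero_right] at hcr
  have hcr2 : cr (T2 - q) (T1 - q) ≠ 0 := by
    rw [cr_swap]; exact neg_ne_zero.2 hcr
  have hcl : IsClosed (kap P q T1 ∪ kap P q T2) :=
    (kap_compact h hqT1 hs1).isClosed.union (kap_compact h hqT2 hs2).isClosed
  have hm : ¬ Cn (P \ (kap P q T1 ∪ kap P q T2)) q D := by
    intro hc
    apply h1
    exact hc.mono fun z hz => ⟨hz.1, fun h3 => hz.2 (Or.inl h3)⟩
  -- points of one window are not on the ray of the other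
  have hd : ∀ {A B : ℂ}, cr (A - q) (B - q) ≠ 0 → ∀ w ∈ kap P q A,
      ∀ z ∈ segment ℝ q w, z ∉ kap P q B := by
    intro A B hAB w hw z hz
    refine seg_disj_kap (x := w) ?_ hz
    obtain ⟨t, ht1, rfl, -⟩ := hw
    rw [cr_pt]
    intro h0
    rcases mul_eq_zero.1 h0 with h3 | h3
    · linarith
    · apply hAB
      rw [cr_swap, h3, neg_zero]
  obtain ⟨w, hwK, C, hCc, hCp, hCs, hwC, hDC, hlast⟩ := last_pt hcl hj hm
  rcases hwK with hw | hw
  · apply h2
    have c1 : Cn (P \ kap P q T2) q w :=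
      Cn.of_segment fun z hz => ⟨seg_of_kap hw hz, hd hcr w hw z hz⟩
    refine c1.trans ⟨C, hCc, hCp, ?_, hwC, hDC⟩
    intro z hz
    refine ⟨hCs hz, ?_⟩
    intro h3
    have h4 := hlast z hz (Or.inr h3)
    rw [h4] at h3
    exact hd hcr w hw w (right_mem_segment ℝ _ _) h3
  · apply h1
    have c1 : Cn (P \ kap P q T1) q w :=
      Cn.of_segment fun z hz => ⟨seg_of_kap hw hz, hd hcr2 w hw z hz⟩
    refine c1.trans ⟨C, hCc, hCp, ?_, hwC, hDC⟩
    intro z hz
    refine ⟨hCs hz, ?_⟩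
    intro h3
    have h4 := hlast z hz (Or.inl h3)
    rw [h4] at h3
    exact hd hcr2 w hw w (right_mem_segment ℝ _ _) h3

/-- near `T` the closed half disk on side `-s` of direction `w` is contained in `P` -/
def HalfD (P : Set ℂ) (T w : ℂ) (s : ℝ) : Prop :=
  ∃ r > 0, ∀ x, dist x T < r → s * cr w (x - T) ≤ 0 → x ∈ P

lemma pt_dist_left (a b : ℂ) (t : ℝ) : dist (pt a b t) a = |t| * ‖b - a‖ := by
  rw [dist_eq_norm, pt_sub_left, norm_smul, Real.norm_eq_abs]

/-- going around `T` on the free side -/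
lemma around {P : Set ℂ} {q T u : ℂ} {s : ℝ} (hqT : q ≠ T) (hseg : segment ℝ q T ⊆ P)
    (hhalf : HalfD P T (T - q) s) (hu : s * cr (T - q) (u - T) < 0) (hTu : segment ℝ T u ⊆ P) :
    Cn (P \ kap P q T) q u := by
  obtain ⟨r, hr, hball⟩ := hhalf
  have huT : u ≠ T := by
    rintro rfl
    simp [cr_zero_right] at hu
  have hn1 : 0 < ‖q - T‖ := norm_pos_iff.2 (sub_ne_zero.2 hqT)
  have hn2 : 0 < ‖u - T‖ := norm_pos_iff.2 (sub_ne_zero.2 huT)
  -- small parameter
  obtain ⟨ε, hε0, hε1, hεq, hεu⟩ : ∃ ε : ℝ, 0 < ε ∧ ε < 1 ∧ ε * ‖q - T‖ < r ∧ ε * ‖u - T‖ < r := by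
    refine ⟨min (1 / 2) (min (r / (2 * ‖q - T‖)) (r / (2 * ‖u - T‖))), ?_, ?_, ?_, ?_⟩
    · positivity
    · exact lt_of_le_of_lt (min_le_left _ _) (by norm_num)
    · have h1 : min (1 / 2) (min (r / (2 * ‖q - T‖)) (r / (2 * ‖u - T‖))) ≤ r / (2 * ‖q - T‖) :=
        (min_le_right _ _).trans (min_le_left _ _)
      calc _ ≤ r / (2 * ‖q - T‖) * ‖q - T‖ := by gcongr
        _ = r / 2 := by field_simp
        _ < r := by linarith
    · have h1 : min (1 / 2) (min (r / (2 * ‖q - T‖)) (r / (2 * ‖u - T‖))) ≤ r / (2 * ‖u - T‖) :=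
        (min_le_right _ _).trans (min_le_right _ _)
      calc _ ≤ r / (2 * ‖u - T‖) * ‖u - T‖ := by gcongr
        _ = r / 2 := by field_simp
        _ < r := by linarith
  set m := pt T q ε with hm
  set m' := pt T u ε with hm'
  have hcrm : cr (T - q) (m - T) = 0 := by
    rw [hm, cr_pt]
    have : q - T = -(T - q) := by ring
    rw [this]; unfold cr; simp; ring_nf; simp
  have hcrm' : s * cr (T - q) (m' - T) < 0 := by
    rw [hm', cr_pt]
    nlinarith
  have hmemk : ∀ z ∈ kap P q T, s * cr (T - q) (z - T) = 0 := by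
    intro z hz
    rw [kap_cr' hz, mul_zero]
  -- q to m
  have c1 : Cn (P \ kap P q T) q m := by
    apply Cn.of_segment
    have hmq : m = pt q T (1 - ε) := by
      rw [hm]; unfold pt; simp only [Complex.real_smul]; push_cast; ring
    intro z hz
    rw [hmq, mem_segment_iff] at hz
    obtain ⟨θ, k0, k1, rfl⟩ := hz
    rw [pt_pt]
    refine ⟨?_, kap_disj_left hqT ?_⟩
    · apply hseg
      apply pt_mem_segment
      · have : 0 ≤ 1 - ε := by linarith
        positivity
      · nlinarith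
    · nlinarith
  have c2 : Cn (P \ kap P q T) m m' := by
    apply Cn.of_segment
    intro z hz
    have hzball : dist z T < r := by
      have hconv : Convex ℝ (Metric.ball T r) := convex_ball T r
      have h1 : m ∈ Metric.ball T r := by
        rw [Metric.mem_ball, hm, pt_dist_left, abs_of_pos hε0]; exact hεq
      have h2 : m' ∈ Metric.ball T r := by
        rw [Metric.mem_ball, hm', pt_dist_left, abs_of_pos hε0]; exact hεu
      exact Metric.mem_ball.1 (hconv.segment_subset h1 h2 hz)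
    rw [mem_segment_iff] at hz
    obtain ⟨θ, k0, k1, rfl⟩ := hz
    have e : s * cr (T - q) (pt m m' θ - T) = (1 - θ) * (s * cr (T - q) (m - T)) +
        θ * (s * cr (T - q) (m' - T)) := by
      unfold cr
      simp only [pt_re, pt_im, Complex.sub_re, Complex.sub_im]
      ring
    rw [hcrm] at e
    refine ⟨hball _ hzball ?_, ?_⟩
    · rw [e]; nlinarith
    · intro hk
      rcases k0.eq_or_lt with e0 | e0
      · rw [← e0, pt_zero] at hk
        rw [hm] at hk
        have hmq : pt T q ε = pt q T (1 - ε) := by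
          unfold pt; simp only [Complex.real_smul]; push_cast; ring
        rw [hmq] at hk
        exact kap_disj_left hqT (by linarith) hk
      · have h3 := hmemk _ hk
        rw [e] at h3
        nlinarith
  have c3 : Cn (P \ kap P q T) m' u := by
    apply Cn.of_segment
    intro z hz
    have hz2 : z ∈ segment ℝ T u :=
      (convex_segment _ _).segment_subset (pt_mem_segment hε0.le hε1.le)
        (right_mem_segment ℝ _ _) hz
    refine ⟨hTu hz2, ?_⟩
    intro hk
    have h3 := hmemk _ hk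
    rw [mem_segment_iff] at hz
    obtain ⟨θ, k0, k1, rfl⟩ := hz
    have e : s * cr (T - q) (pt m' u θ - T) = (1 - θ) * (s * cr (T - q) (m' - T)) +
        θ * (s * cr (T - q) (u - T)) := by
      unfold cr
      simp only [pt_re, pt_im, Complex.sub_re, Complex.sub_im]
      ring
    rw [e] at h3
    rcases k0.eq_or_lt with e0 | e0
    · rw [← e0] at h3
      linarith
    · have h4 : (1 - θ) * (s * cr (T - q) (m' - T)) ≤ 0 :=
        mul_nonpos_of_nonneg_of_nonpos (by linarith) hcrm'.le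
      have h5 : θ * (s * cr (T - q) (u - T)) < 0 := mul_neg_of_pos_of_neg e0 hu
      linarith
  exact (c1.trans c2).trans c3

/-- last point lemma: two consecutive windows -/
theorem two_windows {P : Set ℂ} (h : Reg P) {D q T g : ℂ} {s : ℝ} (hqT : q ≠ T)
    (hseg : segment ℝ q T ⊆ P) (hhalf : HalfD P T (T - q) s) (hj : JoinedIn P q D)
    (h1 : ¬ Cn (P \ kap P q T) q D) (hg : s * cr (T - q) (g - T) < 0)
    (hTg : segment ℝ T g ⊆ P) (h2 : ¬ Cn (P \ kap P T g) T D) : False := by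
  have hgT : T ≠ g := by
    rintro rfl
    simp [cr_zero_right] at hg
  have hcl : IsClosed (kap P q T ∪ kap P T g) :=
    (kap_compact h hqT hseg).isClosed.union (kap_compact h hgT hTg).isClosed
  have hm : ¬ Cn (P \ (kap P q T ∪ kap P T g)) q D := by
    intro hc
    apply h1
    exact hc.mono fun z hz => ⟨hz.1, fun h3 => hz.2 (Or.inl h3)⟩
  have hneg : ∀ w ∈ kap P T g, s * cr (T - q) (w - T) < 0 := by
    rintro w ⟨t, ht1, rfl, -⟩
    rw [cr_pt]
    nlinarith
  obtain ⟨w, hwK, C, hCc, hCp, hCs, hwC, hDC, hlast⟩ := last_pt hcl hj hm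
  by_cases hw : w ∈ kap P T g
  · apply h1
    have hw1 := hneg w hw
    have c1 : Cn (P \ kap P q T) q w := around hqT hseg hhalf hw1 (seg_of_kap hw)
    refine c1.trans ⟨C, hCc, hCp, ?_, hwC, hDC⟩
    intro z hz
    refine ⟨hCs hz, ?_⟩
    intro h3
    have h4 := hlast z hz (Or.inl h3)
    rw [h4] at h3
    rw [kap_cr' h3] at hw1
    simp at hw1
  · have hw' : w ∈ kap P q T := by
      rcases hwK with h3 | h3
      · exact h3
      · exact absurd h3 hw
    apply h2
    have c1 : Cn (P \ kap P T g) T w := by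
      apply Cn.of_segment
      intro z hz
      have hz2 : z ∈ kap P q T :=
        (kap_convex h hqT hseg).segment_subset (T_mem_kap hseg) hw' hz
      refine ⟨kap_sub hz2, ?_⟩
      intro h3
      have h4 := hneg z h3
      rw [kap_cr' hz2] at h4
      simp at h4
    refine c1.trans ⟨C, hCc, hCp, ?_, hwC, hDC⟩
    intro z hz
    refine ⟨hCs hz, ?_⟩
    intro h3
    have h4 := hlast z hz (Or.inr h3)
    rw [h4] at h3
    exact hw h3

end Run7.h395
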